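import Pool.Agent.Lib.MP_49c83e_al.StmC

/-!
[C1] Entries of the elements of the parabolic tower.
-/

namespace Pool.Agent.Sp49

open scoped BigOperators

private theorem c1_inv_rl {k : Type} [Field k] {n : ℕ} (g : SpG k n) (i l : Fin n) :
    ent g⁻¹ (Sum.inr i) (Sum.inl l) = -ent g (Sum.inr l) (Sum.inl i) := by
  unfold ent
  rw [SymplecticGroup.coe_inv]
  simp [Matrix.mul_apply, Matrix.J, Fintype.sum_sum_type, Matrix.one_apply]

private theorem c1_inv_ll {k : Type} [Field k] {n : ℕ} (g : SpG k n) (i l : Fin n) :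
    ent g⁻¹ (Sum.inl i) (Sum.inl l) = ent g (Sum.inr l) (Sum.inr i) := by
  unfold ent
  rw [SymplecticGroup.coe_inv]
  simp [Matrix.mul_apply, Matrix.J, Fintype.sum_sum_type, Matrix.one_apply]

theorem p_C1 : S_C1 := by
  intro k _ n m g hg
  have key : ∀ h : SpG k n, h ∈ Tw k n m → ∀ (l : Fin n) (x : Fin n ⊕ Fin n), (l : ℕ) < m →
      ent h x (Sum.inl l) ≠ 0 → ∃ l' : Fin n, l' ≤ l ∧ x = Sum.inl l' := by
    intro h hh l x hl hx
    exact hh.1 l hl l le_rfl x hx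
  refine ⟨key g hg, ?_⟩
  intro l x hl hx
  have hg' : g⁻¹ ∈ Tw k n m := inv_mem hg
  rcases x with i | i
  · by_contra hne
    have h1 : ent g⁻¹ (Sum.inr i) (Sum.inl l) ≠ 0 := by
      rw [c1_inv_rl]
      exact neg_ne_zero.2 hne
    obtain ⟨l', -, h2⟩ := key _ hg' l _ hl h1
    exact absurd h2 (by simp)
  · by_contra hne
    have h1 : ent g⁻¹ (Sum.inl i) (Sum.inl l) ≠ 0 := by
      rw [c1_inv_ll]
      exact hne
    obtain ⟨l', h3, h2⟩ := key _ hg' l _ hl h1
    have h4 : i = l' := Sum.inl_injective h2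
    have h5 : m ≤ (i : ℕ) := hx
    have h6 : (l' : ℕ) ≤ (l : ℕ) := h3
    rw [h4] at h5
    omega

end Pool.Agent.Sp49
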