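import Pool.Agent.Lib.MP_49c83e_al.StmC

/-!
MP_49c83e_al, C2: the chart system for the step Tw m > Tw (m+1).
The slices are products of symplectic transvections with a constant element.
-/

namespace Pool.Agent.Sp49

open scoped BigOperators
open Matrix

section C2

variable {k : Type} [Field k] {n : ℕ}

/-- the covector omega(v, .) -/
def c2_cov (v : Fin n ⊕ Fin n → k) : Fin n ⊕ Fin n → k :=
  Sum.elim (fun i => v (Sum.inr i)) (fun i => - v (Sum.inl i))

theorem c2_cov_eq (v : Fin n ⊕ Fin n → k) : c2_cov v = v ᵥ* Matrix.J (Fin n) k := by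
  ext x
  rcases x with i | i
  · simp [c2_cov, Matrix.J, Matrix.vecMul, dotProduct, Matrix.one_apply]
  · simp [c2_cov, Matrix.J, Matrix.vecMul, dotProduct, Matrix.one_apply]

theorem c2_cov_self (v : Fin n ⊕ Fin n → k) : c2_cov v ⬝ᵥ v = 0 := by
  simp only [dotProduct, Fintype.sum_sum_type, c2_cov, Sum.elim_inl, Sum.elim_inr, neg_mul]
  rw [Finset.sum_neg_distrib, add_neg_eq_zero]
  exact Finset.sum_congr rfl fun i _ => mul_comm _ _

theorem c2_tr_mem (v : Fin n ⊕ Fin n → k) (c : k) :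
    (1 + c • vecMulVec v (c2_cov v)) ∈ Matrix.symplecticGroup (Fin n) k := by
  rw [SymplecticGroup.mem_iff]
  have h1 : vecMulVec v (c2_cov v) * Matrix.J (Fin n) k = - vecMulVec v v := by
    rw [Matrix.vecMulVec_mul, c2_cov_eq, Matrix.vecMul_vecMul, Matrix.J_squared,
      Matrix.vecMul_neg, Matrix.vecMul_one, Matrix.vecMulVec_neg]
  have h2 : Matrix.J (Fin n) k * vecMulVec (c2_cov v) v = vecMulVec v v := by
    rw [Matrix.mul_vecMulVec, c2_cov_eq, ← Matrix.mulVec_transpose, Matrix.mulVec_mulVec,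
      Matrix.J_transpose, Matrix.mul_neg, Matrix.J_squared, neg_neg, Matrix.one_mulVec]
  have h3 : vecMulVec v v * vecMulVec (c2_cov v) v = 0 := by
    rw [Matrix.vecMulVec_mul_vecMulVec, dotProduct_comm, c2_cov_self, zero_smul]
    simp
  rw [Matrix.transpose_add, Matrix.transpose_one, Matrix.transpose_smul,
    Matrix.transpose_vecMulVec, Matrix.add_mul, Matrix.one_mul, Matrix.smul_mul, h1,
    Matrix.add_mul, Matrix.mul_add, Matrix.mul_one, Matrix.mul_smul, h2, Matrix.mul_add,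
    Matrix.mul_one, Matrix.mul_smul, Matrix.smul_mul, Matrix.neg_mul, h3]
  simp

/-- symplectic transvections y ↦ y + c omega(v, y) v -/
def c2_tr (v : Fin n ⊕ Fin n → k) (c : k) : SpG k n := ⟨_, c2_tr_mem v c⟩

theorem c2_ent_tr (v : Fin n ⊕ Fin n → k) (c : k) (x y : Fin n ⊕ Fin n) :
    ent (c2_tr v c) x y = (if x = y then 1 else 0) + c * (v x * c2_cov v y) := by
  simp [ent, c2_tr, Matrix.one_apply, Matrix.vecMulVec_apply]

/-- g fixes the l-th basis vector implies g⁻¹ does -/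
theorem c2_fix_inv (g : SpG k n) (y : Fin n ⊕ Fin n)
    (h : ∀ x, ent g x y = if x = y then 1 else 0) (x : Fin n ⊕ Fin n) :
    ent g⁻¹ x y = if x = y then 1 else 0 := by
  have h1 : ent (g⁻¹ * g) x y = if x = y then 1 else 0 := by
    rw [inv_mul_cancel, ent_one]
  rw [ent_mul] at h1
  simp only [h, mul_ite, mul_one, mul_zero, Finset.sum_ite_eq', Finset.mem_univ, if_true] at h1
  exact h1

theorem c2_mem_of_fix (m : ℕ) (g : SpG k n)
    (h : ∀ l : Fin n, (l : ℕ) < m → ∀ x, ent g x (Sum.inl l) = if x = Sum.inl l then 1 else 0) :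
    g ∈ Tw k n m := by
  constructor
  · intro l hl l' hl' x hx
    have h1 : (l' : ℕ) < m := lt_of_le_of_lt hl' hl
    rw [h l' h1] at hx
    exact ⟨l', hl', by by_contra hne; simp [hne] at hx⟩
  · intro l hl l' hl' x hx
    have h1 : (l' : ℕ) < m := lt_of_le_of_lt hl' hl
    rw [c2_fix_inv g _ (h l' h1)] at hx
    exact ⟨l', hl', by by_contra hne; simp [hne] at hx⟩

theorem c2_tr_memTw (m : ℕ) (v : Fin n ⊕ Fin n → k) (hv : ∀ x, num x < m → v x = 0) (c : k) :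
    c2_tr v c ∈ Tw k n m := by
  apply c2_mem_of_fix
  intro l hl x
  rw [c2_ent_tr]
  have : c2_cov v (Sum.inl l) = 0 := by
    simp only [c2_cov, Sum.elim_inl]
    exact hv _ hl
  rw [this]
  simp

/-- the transvection in direction b - a maps a to b if c omega(b,a) = 1 -/
theorem c2_tr_map (a b : Fin n ⊕ Fin n → k) (c : k) (h : c * (c2_cov b ⬝ᵥ a) = 1)
    (x : Fin n ⊕ Fin n) :
    ∑ z, ent (c2_tr (fun z => b z - a z) c) x z * a z = b x := by
  have h1 : ∑ z, c2_cov (fun z => b z - a z) z * a z = c2_cov b ⬝ᵥ a := by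
    have h2 : ∀ z, c2_cov (fun z => b z - a z) z = c2_cov b z - c2_cov a z := by
      intro z
      rcases z with i | i
      · simp [c2_cov]
      · simp only [c2_cov, Sum.elim_inr]; ring
    simp only [h2, sub_mul, Finset.sum_sub_distrib]
    have h3 := c2_cov_self a
    simp only [dotProduct] at h3 ⊢
    rw [h3, sub_zero]
  simp only [c2_ent_tr, add_mul, Finset.sum_add_distrib, ite_mul, one_mul, zero_mul,
    Finset.sum_ite_eq, Finset.mem_univ, if_true]
  have h4 : ∑ z, c * ((b x - a x) * c2_cov (fun z => b z - a z) z) * a z =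
      (b x - a x) * (c * ∑ z, c2_cov (fun z => b z - a z) z * a z) := by
    rw [Finset.mul_sum, Finset.mul_sum]
    exact Finset.sum_congr rfl fun z _ => by ring
  rw [h4, h1, h]
  ring

/-- unit vector -/
def c2_uv (x : Fin n ⊕ Fin n) : Fin n ⊕ Fin n → k := fun z => if z = x then 1 else 0

theorem c2_cov_dot_uv (b : Fin n ⊕ Fin n → k) (x : Fin n ⊕ Fin n) :
    c2_cov b ⬝ᵥ c2_uv x = c2_cov b x := by
  simp [dotProduct, c2_uv]

/-- the dual index -/
def c2_sw (x : Fin n ⊕ Fin n) : Fin n ⊕ Fin n := Sum.elim Sum.inr Sum.inl x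

theorem c2_num_sw (x : Fin n ⊕ Fin n) : num (c2_sw x) = num x := by
  rcases x with i | i <;> rfl

/-- the sign -/
def c2_sg (x : Fin n ⊕ Fin n) : k := Sum.elim (fun _ => -1) (fun _ => 1) x

theorem c2_cov_sw (b : Fin n ⊕ Fin n → k) (x : Fin n ⊕ Fin n) :
    c2_cov b (c2_sw x) = c2_sg x * b x := by
  rcases x with i | i <;> simp [c2_cov, c2_sw, c2_sg]

theorem c2_sg_mul (x : Fin n ⊕ Fin n) : (c2_sg x : k) * c2_sg x = 1 := by
  rcases x with i | i <;> simp [c2_sg]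

/-- moving one unit vector to a vector with pairing a unit -/
theorem c2_step (m : ℕ) (g : SpG k n) (hg : g ∈ Tw k n m) (y : Fin n ⊕ Fin n)
    (a b : Fin n ⊕ Fin n → k) (ha : ∀ x, num x < m → a x = 0) (hb : ∀ x, num x < m → b x = 0)
    (c : k) (h : c * (c2_cov b ⬝ᵥ a) = 1) (hga : ∀ x, ent g x y = a x) :
    c2_tr (fun z => b z - a z) c * g ∈ Tw k n m ∧
      ∀ x, ent (c2_tr (fun z => b z - a z) c * g) x y = b x := by
  refine ⟨mul_mem (c2_tr_memTw m _ (fun x hx => by rw [ha x hx, hb x hx, sub_zero]) c) hg, ?_⟩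
  intro x
  rw [ent_mul]
  simp only [hga]
  exact c2_tr_map a b c h x

/-- an element of Tw m mapping e_m to a given basis vector -/
theorem c2_w (m : ℕ) (hm : m < n) (x : Fin n ⊕ Fin n) (hx : m ≤ num x) :
    ∃ w ∈ Tw k n m, ∀ y, ent w y (Sum.inl ⟨m, hm⟩) = c2_uv x y := by
  by_cases h0 : x = Sum.inl ⟨m, hm⟩
  · subst h0
    exact ⟨1, one_mem _, fun y => by rw [ent_one]; rfl⟩
  -- intermediate vector v = f_m + dual of x
  have hv0 : ∀ z, num z < m → (c2_uv (Sum.inr ⟨m, hm⟩) z + c2_uv (c2_sw x) z : k) = 0 := by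
    intro z hz
    have h1 : z ≠ Sum.inr ⟨m, hm⟩ := by
      rintro rfl
      exact absurd hz (lt_irrefl m)
    have h2 : z ≠ c2_sw x := by
      rintro rfl
      rw [c2_num_sw] at hz
      omega
    simp [c2_uv, h1, h2]
  have hu0 : ∀ (y : Fin n ⊕ Fin n), m ≤ num y → ∀ z, num z < m → (c2_uv y z : k) = 0 := by
    intro y hy z hz
    have : z ≠ y := by
      rintro rfl
      omega
    simp [c2_uv, this]
  have hs1 := c2_step m (1 : SpG k n) (one_mem _) (Sum.inl ⟨m, hm⟩) (c2_uv (Sum.inl ⟨m, hm⟩))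
    (fun z => c2_uv (Sum.inr ⟨m, hm⟩) z + c2_uv (c2_sw x) z)
    (hu0 _ le_rfl) hv0 1 (by
      rw [c2_cov_dot_uv, one_mul]
      simp only [c2_cov, Sum.elim_inl]
      have h1 : (Sum.inr ⟨m, hm⟩ : Fin n ⊕ Fin n) ≠ c2_sw x := by
        intro h
        apply h0
        rcases x with i | i
        · simp only [c2_sw, Sum.elim_inl, Sum.inr.injEq] at h
          rw [← h]
        · simp [c2_sw] at h
      simp [c2_uv, h1]) (fun y => by rw [ent_one]; rfl)
  obtain ⟨hm1, he1⟩ := hs1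
  have hs2 := c2_step m _ hm1 (Sum.inl ⟨m, hm⟩) _ (c2_uv x) hv0 (hu0 x hx) (c2_sg x) (by
      have h2 : c2_cov (c2_uv x : Fin n ⊕ Fin n → k) ⬝ᵥ
          (fun z => c2_uv (Sum.inr ⟨m, hm⟩) z + c2_uv (c2_sw x) z) =
          c2_cov (c2_uv x) (Sum.inr ⟨m, hm⟩) + c2_cov (c2_uv x) (c2_sw x) := by
        rw [← c2_cov_dot_uv, ← c2_cov_dot_uv (c2_uv x) (c2_sw x), ← dotProduct_add]
        rfl
      rw [h2, c2_cov_sw]
      have h3 : c2_cov (c2_uv x : Fin n ⊕ Fin n → k) (Sum.inr ⟨m, hm⟩) = 0 := by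
        simp only [c2_cov, Sum.elim_inr, c2_uv]
        rw [if_neg (fun h => h0 h.symm), neg_zero]
      rw [h3, zero_add, ← mul_assoc, c2_sg_mul, one_mul]
      simp [c2_uv]) he1
  exact ⟨_, hs2.1, hs2.2⟩

/-- if g' e_m = c g e_m modulo span(e_l, l < m) then g⁻¹ g' stabilises the flag up to e_m -/
theorem c2_trans (hC1 : S_C1) (m : ℕ) (hm : m < n) (g g' : SpG k n) (hg : g ∈ Tw k n m)
    (hg' : g' ∈ Tw k n m) (c : k)
    (h : ∀ x, m ≤ num x → ent g' x (Sum.inl ⟨m, hm⟩) = c * ent g x (Sum.inl ⟨m, hm⟩)) :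
    Qf {l | l < m + 1} (g⁻¹ * g') := by
  intro l hl l' hl' x hx
  have hl2 : (l' : ℕ) < m + 1 := lt_of_le_of_lt hl' hl
  rcases Nat.lt_succ_iff_lt_or_eq.1 hl2 with h1 | h1
  · obtain ⟨l2, h3, h4⟩ := (mul_mem (inv_mem hg) hg').1 l' h1 l' le_rfl x hx
    exact ⟨l2, h3.trans hl', h4⟩
  · have h5 : l' = ⟨m, hm⟩ := Fin.ext h1
    subst h5
    by_contra hne
    have hne' : ∀ l2 : Fin n, l2 ≤ l → x ≠ Sum.inl l2 := fun l2 h6 h7 => hne ⟨l2, h6, h7⟩
    apply hx
    have h8 : ent (g⁻¹ * g') x (Sum.inl ⟨m, hm⟩) =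
        c * ent (g⁻¹ * g) x (Sum.inl ⟨m, hm⟩) := by
      rw [ent_mul, ent_mul, Finset.mul_sum]
      apply Finset.sum_congr rfl
      intro z _
      by_cases hz : m ≤ num z
      · rw [h z hz]
        ring
      · rw [not_le] at hz
        rcases z with i | i
        · have h9 : ent g⁻¹ x (Sum.inl i) = 0 := by
            by_contra h10
            obtain ⟨l3, h11, h12⟩ := (inv_mem hg).1 i hz i le_rfl x h10
            have h13 : (i : ℕ) < m := hz
            exact hne' l3 (h11.trans (le_trans (Fin.le_def.2 h13.le) hl')) h12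
          rw [h9]
          ring
        · have h9 : ent g' (Sum.inr i) (Sum.inl ⟨m, hm⟩) = 0 :=
            (hC1 k n m g' hg').2 i _ hz le_rfl
          have h10 : ent g (Sum.inr i) (Sum.inl ⟨m, hm⟩) = 0 :=
            (hC1 k n m g hg).2 i _ hz le_rfl
          rw [h9, h10]
          ring
    rw [h8, inv_mul_cancel, ent_one, if_neg (hne' _ hl'), mul_zero]

/-- multiplicativity of the entry (e_m, e_m) and of the columns e_m -/
theorem c2_col (m : ℕ) (hm : m < n) (g h : SpG k n) (hg : g ∈ Tw k n m)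
    (hh : h ∈ Tw k n (m + 1)) (x : Fin n ⊕ Fin n) (hx : m ≤ num x) :
    ent (g * h) x (Sum.inl ⟨m, hm⟩) = ent g x (Sum.inl ⟨m, hm⟩) *
      ent h (Sum.inl ⟨m, hm⟩) (Sum.inl ⟨m, hm⟩) := by
  rw [ent_mul, Finset.sum_eq_single (Sum.inl ⟨m, hm⟩)]
  · intro z _ hz
    by_contra hne
    obtain ⟨l, hl, rfl⟩ := hh.1 ⟨m, hm⟩ (Nat.lt_succ_self m) ⟨m, hm⟩ le_rfl z
      (right_ne_zero_of_mul hne)
    have hlm : (l : ℕ) < m := by
      rcases Nat.lt_or_eq_of_le (Fin.le_def.1 hl) with h1 | h1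
      · exact h1
      · exact absurd (congrArg Sum.inl (Fin.ext h1)) hz
    obtain ⟨l2, hl2, h2⟩ := hg.1 l hlm l le_rfl x (left_ne_zero_of_mul hne)
    subst h2
    have h3 : (l2 : ℕ) ≤ l := hl2
    have h4 : m ≤ (l2 : ℕ) := hx
    omega
  · intro h
    exact absurd (Finset.mem_univ _) h

/-- the character -/
def c2_chi (k : Type) [Field k] (n m : ℕ) (hm : m < n) : Tw k n (m + 1) →* kˣ where
  toFun h :=
    { val := ent (h : SpG k n) (Sum.inl ⟨m, hm⟩) (Sum.inl ⟨m, hm⟩)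
      inv := ent ((h⁻¹ : Tw k n (m + 1)) : SpG k n) (Sum.inl ⟨m, hm⟩) (Sum.inl ⟨m, hm⟩)
      val_inv := by
        rw [← c2_col m hm _ _ (Tw_le k n m h.2) (h⁻¹).2 _ le_rfl, Subgroup.coe_inv,
          mul_inv_cancel]
        simp [ent_one]
      inv_val := by
        rw [← c2_col m hm _ _ (Tw_le k n m (h⁻¹).2) h.2 _ le_rfl, Subgroup.coe_inv,
          inv_mul_cancel]
        simp [ent_one] }
  map_one' := by
    ext
    simp [ent_one]
  map_mul' a b := by
    ext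
    exact c2_col m hm _ _ (Tw_le k n m a.2) b.2 _ le_rfl

/-- extension by zero -/
def c2_ext (m : ℕ) (u : {x : Fin n ⊕ Fin n // m ≤ num x} → k) : Fin n ⊕ Fin n → k :=
  fun z => if h : m ≤ num z then u ⟨z, h⟩ else 0

theorem c2_ext_zero (m : ℕ) (u : {x : Fin n ⊕ Fin n // m ≤ num x} → k) (z : Fin n ⊕ Fin n)
    (hz : num z < m) : c2_ext m u z = 0 := by
  simp [c2_ext, not_le.2 hz]

theorem c2_ext_reg (m : ℕ) (z : Fin n ⊕ Fin n) :
    (fun u : {x : Fin n ⊕ Fin n // m ≤ num x} → k => c2_ext m u z) ∈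
      regA k ({x : Fin n ⊕ Fin n // m ≤ num x} → k) := by
  by_cases h : m ≤ num z
  · simp only [c2_ext, h, dif_pos]
    exact Algebra.subset_adjoin ⟨⟨z, h⟩, rfl⟩
  · simp only [c2_ext, h, dif_neg, not_false_eq_true]
    exact Subalgebra.zero_mem _

theorem c2_const_reg (X : Type) [RS k X] (c : k) : (fun _ : X => c) ∈ regA k X :=
  Subalgebra.algebraMap_mem (regA k X) c

theorem c2_cov_reg (X : Type) [RS k X] (v : X → Fin n ⊕ Fin n → k)
    (hv : ∀ z, (fun u => v u z) ∈ regA k X) (z : Fin n ⊕ Fin n) :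
    (fun u => c2_cov (v u) z) ∈ regA k X := by
  rcases z with i | i
  · exact hv (Sum.inr i)
  · exact Subalgebra.neg_mem _ (hv (Sum.inl i))

/-- the slice -/
def c2_sigma (m : ℕ) (x : Fin n ⊕ Fin n) (w : SpG k n)
    (u : {x : Fin n ⊕ Fin n // m ≤ num x} → k) : SpG k n :=
  c2_tr (fun z => c2_ext m u z - c2_uv (c2_sw x) z) (c2_sg x) * w

theorem c2_sigma_mem (m : ℕ) (x : Fin n ⊕ Fin n) (hx : m ≤ num x) (w : SpG k n)
    (hw : w ∈ Tw k n m) (u : {x : Fin n ⊕ Fin n // m ≤ num x} → k) :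
    c2_sigma m x w u ∈ Tw k n m := by
  refine mul_mem (c2_tr_memTw m _ (fun z hz => ?_) _) hw
  rw [c2_ext_zero m u z hz]
  have : z ≠ c2_sw x := by
    rintro rfl
    rw [c2_num_sw] at hz
    omega
  simp [c2_uv, this]

theorem c2_sigma_col (m : ℕ) (hm : m < n) (x : Fin n ⊕ Fin n) (hx : m ≤ num x) (w : SpG k n)
    (hw : ∀ y, ent w y (Sum.inl ⟨m, hm⟩) = c2_uv (c2_sw x) y)
    (u : {x : Fin n ⊕ Fin n // m ≤ num x} → k) (hu : u ⟨x, hx⟩ = 1) (y : Fin n ⊕ Fin n) :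
    ent (c2_sigma m x w u) y (Sum.inl ⟨m, hm⟩) = c2_ext m u y := by
  rw [c2_sigma, ent_mul]
  simp only [hw]
  apply c2_tr_map
  rw [c2_cov_dot_uv, c2_cov_sw, ← mul_assoc, c2_sg_mul, one_mul]
  simp [c2_ext, hx, hu]

theorem c2_sigma_reg (h9 : S_R9) (m : ℕ) (x : Fin n ⊕ Fin n) (w : SpG k n) :
    IsReg k (c2_sigma m x w) := by
  rw [(h9 k n).2.2]
  intro a b
  have h1 : (fun u => ent (c2_sigma m x w u) a b) =
      ∑ z, (fun u : {x : Fin n ⊕ Fin n // m ≤ num x} → k =>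
        ent (c2_tr (fun z => c2_ext m u z - c2_uv (c2_sw x) z) (c2_sg x)) a z * ent w z b) := by
    funext u
    rw [c2_sigma, ent_mul, Finset.sum_apply]
  rw [h1]
  refine Subalgebra.sum_mem _ fun z _ => ?_
  refine Subalgebra.mul_mem _ ?_ (c2_const_reg _ _)
  have hv : ∀ z : Fin n ⊕ Fin n, (fun u : {x : Fin n ⊕ Fin n // m ≤ num x} → k =>
      c2_ext m u z - c2_uv (c2_sw x) z) ∈ regA k ({x : Fin n ⊕ Fin n // m ≤ num x} → k) :=
    fun z => Subalgebra.sub_mem _ (c2_ext_reg m z) (c2_const_reg _ _)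
  have h2 : (fun u : {x : Fin n ⊕ Fin n // m ≤ num x} → k =>
      ent (c2_tr (fun z => c2_ext m u z - c2_uv (c2_sw x) z) (c2_sg x)) a z) =
      (fun _ => (if a = z then (1 : k) else 0)) + (fun _ => (c2_sg x : k)) *
        ((fun u => c2_ext m u a - c2_uv (c2_sw x) a) *
          (fun u => c2_cov (fun z => c2_ext m u z - c2_uv (c2_sw x) z) z)) := by
    funext u
    rw [c2_ent_tr]
    rfl
  rw [h2]
  exact Subalgebra.add_mem _ (c2_const_reg _ _) (Subalgebra.mul_mem _ (c2_const_reg _ _)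
    (Subalgebra.mul_mem _ (hv a) (c2_cov_reg _ _ hv z)))

end C2

theorem p_C2 (h8 : S_R8) (h9 : S_R9) (hC1 : S_C1) : S_C2 := by
  intro k _ n m hm
  have : RG k (SpG k n) := (h9 k n).1
  have hent := (h9 k n).2.1
  have hsub : ∀ (H : Subgroup (SpG k n)) (F : SpG k n → k), F ∈ regA k (SpG k n) →
      (fun h : H => F h) ∈ regA k H := fun H F hF => ⟨F, hF, rfl⟩
  have hinv : ∀ x y, (fun g : SpG k n => ent g⁻¹ x y) ∈ regA k (SpG k n) :=
    fun x y => RG.inv_reg (k := k) (Γ := SpG k n) _ (hent x y)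
  have hw : ∀ x : {x : Fin n ⊕ Fin n // m ≤ num x}, ∃ w ∈ Tw k n m,
      ∀ y, ent w y (Sum.inl ⟨m, hm⟩) = c2_uv (c2_sw x.1) y :=
    fun x => c2_w m hm _ (by rw [c2_num_sw]; exact x.2)
  choose w hwm hwe using hw
  refine ⟨{
    inc := Subgroup.inclusion (Tw_le k n m)
    inc_inj := Subgroup.inclusion_injective _
    reg := fun f => (h8 k k (SpG k n)).2.2.2.2.2 _ _ (Tw_le k n m) f
    z := fun x g => ent (g : SpG k n) x.1 (Sum.inl ⟨m, hm⟩)
    z_reg := fun x => hsub _ _ (hent _ _)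
    y := fun x g => ent (g : SpG k n)⁻¹ (Sum.inl ⟨m, hm⟩) x.1
    y_reg := fun x => hsub _ _ (hinv _ _)
    unimod := ?_
    χ := c2_chi k n m hm
    χ_reg := hsub _ _ (hent _ _)
    χ_reg' := hsub _ _ (hinv _ _)
    z_χ := fun g h x => c2_col m hm _ _ g.2 h.2 _ x.2
    σ := fun x u => ⟨c2_sigma m x.1 (w x) u, c2_sigma_mem m x.1 x.2 (w x) (hwm x) u⟩
    σ_reg := fun x => ?_
    z_σ := fun x u hu y => ?_
    trans := ?_
    two := ?_ }, rfl, fun h => rfl⟩
  · intro g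
    have h1 : ent ((g : SpG k n)⁻¹ * (g : SpG k n)) (Sum.inl ⟨m, hm⟩) (Sum.inl ⟨m, hm⟩) =
        (1 : k) := by
      rw [inv_mul_cancel, ent_one, if_pos rfl]
    rw [ent_mul, ← Fintype.sum_subtype_add_sum_subtype (fun z => m ≤ num z)] at h1
    have h2 : ∑ z : {z : Fin n ⊕ Fin n // ¬ m ≤ num z},
        ent (g : SpG k n)⁻¹ (Sum.inl ⟨m, hm⟩) z.1 * ent (g : SpG k n) z.1 (Sum.inl ⟨m, hm⟩) =
        (0 : k) := by
      refine Finset.sum_eq_zero fun z _ => ?_
      obtain ⟨z, hz⟩ := z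
      rw [not_le] at hz
      rcases z with i | i
      · have h3 : ent (g : SpG k n)⁻¹ (Sum.inl ⟨m, hm⟩) (Sum.inl i) = 0 := by
          by_contra h4
          obtain ⟨l', h5, h6⟩ := (hC1 k n m _ (inv_mem g.2)).1 i _ hz h4
          have h7 : (⟨m, hm⟩ : Fin n) = l' := Sum.inl_injective h6
          subst h7
          have h8 : m ≤ (i : ℕ) := h5
          have h9 : (i : ℕ) < m := hz
          omega
        simp only [h3, zero_mul]
      · have h3 : ent (g : SpG k n) (Sum.inr i) (Sum.inl ⟨m, hm⟩) = 0 :=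
          (hC1 k n m _ g.2).2 i _ hz le_rfl
        simp only [h3, mul_zero]
    rw [h2, add_zero] at h1
    exact h1
  · exact ((h8 k ({x : Fin n ⊕ Fin n // m ≤ num x} → k) (SpG k n)).2.2.2.2.1 _ _).2
      (c2_sigma_reg h9 m x.1 (w x))
  · have h1 := c2_sigma_col m hm x.1 x.2 (w x) (hwe x) u hu y.1
    rw [h1, c2_ext, dif_pos y.2]
  · intro g g' c hc h
    have h1 : Qf {l | l < m + 1} ((g : SpG k n)⁻¹ * (g' : SpG k n)) :=
      c2_trans hC1 m hm _ _ g.2 g'.2 c (fun x hx => h ⟨x, hx⟩)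
    have h2 : Qf {l | l < m + 1} ((g' : SpG k n)⁻¹ * (g : SpG k n)) :=
      c2_trans hC1 m hm _ _ g'.2 g.2 c⁻¹ (fun x hx => by
        have h3 := h ⟨x, hx⟩
        simp only at h3
        rw [h3, inv_mul_cancel_left₀ hc])
    have h3 : (g : SpG k n)⁻¹ * (g' : SpG k n) ∈ Tw k n (m + 1) := by
      refine ⟨h1, ?_⟩
      rw [_root_.mul_inv_rev, inv_inv]
      exact h2
    refine ⟨⟨_, h3⟩, ?_⟩
    apply Subtype.ext
    simp
  · exact ⟨⟨Sum.inl ⟨m, hm⟩, le_rfl⟩, ⟨Sum.inr ⟨m, hm⟩, le_rfl⟩,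
      fun h => absurd (congrArg Subtype.val h) (by simp)⟩

end Pool.Agent.Sp49
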