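import Mathlib
import Pool.Agent.Lib.MP_49c83e_al.StmC

set_option autoImplicit false

/-!
MP_49c83e_al [C3]: charts of the minimal parabolic subgroups.
-/

namespace Pool.Agent.Sp49

open scoped BigOperators
open Matrix

private lemma c3_ent_ll {k : Type} [Field k] {n : ℕ} (p q : Fin n) (hpq : p ≠ q) (s : k)
    (x y : Fin n) : ent (xr p q s) (Sum.inl x) (Sum.inl y) =
      (if x = y then 1 else 0) + (if p = x ∧ q = y then s else 0) := by
  unfold ent xr
  rw [dif_pos hpq]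
  simp [Matrix.one_apply, Matrix.single_apply]

private lemma c3_ent_rl {k : Type} [Field k] {n : ℕ} (p q : Fin n) (hpq : p ≠ q) (s : k)
    (x y : Fin n) : ent (xr p q s) (Sum.inr x) (Sum.inl y) = 0 := by
  unfold ent xr
  rw [dif_pos hpq]
  simp

private lemma c3_ent_lin {k : Type} [Field k] {n : ℕ} (p q : Fin n) (hpq : p ≠ q)
    (x y : Fin n ⊕ Fin n) : ∃ c d : k, ∀ s : k, ent (xr p q s) x y = c + d * s := by
  rcases x with x | x <;> rcases y with y | y
  · refine ⟨if x = y then 1 else 0, if p = x ∧ q = y then 1 else 0, fun s => ?_⟩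
    rw [c3_ent_ll p q hpq]
    split_ifs <;> simp
  · refine ⟨0, 0, fun s => ?_⟩
    unfold ent xr
    rw [dif_pos hpq]
    simp
  · refine ⟨0, 0, fun s => ?_⟩
    rw [c3_ent_rl p q hpq]
    simp
  · refine ⟨if x = y then 1 else 0, if q = x ∧ p = y then -1 else 0, fun s => ?_⟩
    unfold ent xr
    rw [dif_pos hpq]
    simp only [Matrix.fromBlocks_apply₂₂, Matrix.sub_apply, Matrix.one_apply,
      Matrix.single_apply]
    split_ifs <;> ring

private lemma c3_inv {k : Type} [Field k] {n : ℕ} (p q : Fin n) (hpq : p ≠ q) (s : k) :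
    (xr p q s)⁻¹ = xr p q (-s) := by
  rw [inv_eq_iff_mul_eq_one]
  apply Subtype.ext
  unfold xr
  rw [dif_pos hpq, dif_pos hpq]
  change Matrix.fromBlocks (1 + Matrix.single p q s) 0 0 (1 - Matrix.single q p s) *
    Matrix.fromBlocks (1 + Matrix.single p q (-s)) 0 0 (1 - Matrix.single q p (-s)) = 1
  rw [Matrix.fromBlocks_multiply, ← Matrix.fromBlocks_one]
  have h1 : (Matrix.single p q s : Matrix (Fin n) (Fin n) k) * Matrix.single p q (-s) = 0 := by
    rw [Matrix.single_mul_single_of_ne _ _ _ _ hpq.symm]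
  have h2 : (Matrix.single q p s : Matrix (Fin n) (Fin n) k) * Matrix.single q p (-s) = 0 := by
    rw [Matrix.single_mul_single_of_ne _ _ _ _ hpq]
  have e1 : (Matrix.single p q (-s) : Matrix (Fin n) (Fin n) k) = - Matrix.single p q s := by
    ext i j
    simp only [Matrix.single_apply, Matrix.neg_apply]
    split_ifs <;> simp
  have e2 : (Matrix.single q p (-s) : Matrix (Fin n) (Fin n) k) = - Matrix.single q p s := by
    ext i j
    simp only [Matrix.single_apply, Matrix.neg_apply]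
    split_ifs <;> simp
  rw [e1, mul_neg, neg_eq_zero] at h1
  rw [e2, mul_neg, neg_eq_zero] at h2
  congr 1
  · rw [e1]
    simp only [Matrix.mul_zero, add_zero]
    rw [Matrix.add_mul, Matrix.mul_add, Matrix.mul_add, Matrix.one_mul, Matrix.mul_one,
      Matrix.one_mul, Matrix.mul_neg, h1]
    abel
  · simp
  · simp
  · rw [e2]
    simp only [Matrix.mul_zero, zero_add]
    rw [Matrix.sub_mul, Matrix.mul_sub, Matrix.mul_sub, Matrix.one_mul, Matrix.mul_one,
      Matrix.one_mul, Matrix.mul_neg, h2]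
    abel

/-- `xr p q s` preserves the flags except possibly at `l` with `q ≤ l < p` -/
private lemma c3_Qf {k : Type} [Field k] {n : ℕ} (S : Set ℕ) (p q : Fin n) (hpq : p ≠ q)
    (hS : ∀ l : Fin n, (l : ℕ) ∈ S → q ≤ l → p ≤ l) (s : k) : Qf S (xr p q s) := by
  intro l hl l' hl' x hx
  rcases x with x | x
  · rw [c3_ent_ll p q hpq] at hx
    by_cases h1 : x = l'
    · exact ⟨l', hl', by rw [h1]⟩
    · rw [if_neg h1, zero_add] at hx
      by_cases h2 : p = x ∧ q = l'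
      · exact ⟨x, by rw [← h2.1]; exact hS l hl (by rw [h2.2]; exact hl'), rfl⟩
      · rw [if_neg h2] at hx
        exact absurd rfl hx
  · exact absurd (c3_ent_rl p q hpq s x l') hx

private lemma c3_mem {k : Type} [Field k] {n : ℕ} (S : Set ℕ) (p q : Fin n) (hpq : p ≠ q)
    (hS : ∀ l : Fin n, (l : ℕ) ∈ S → q ≤ l → p ≤ l) (s : k) : xr p q s ∈ Par k n S := by
  refine ⟨c3_Qf S p q hpq hS s, ?_⟩
  rw [c3_inv p q hpq]
  exact c3_Qf S p q hpq hS (-s)

/-- the column `e_i` of an element of `Pm k n i` -/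
private lemma c3_col {k : Type} [Field k] {n i : ℕ} (hi : i + 1 < n) (g : SpG k n)
    (hg : Qf {l | l ≠ i} g) (x : Fin n ⊕ Fin n) (hx : ent g x (Sum.inl ⟨i, by omega⟩) ≠ 0) :
    (∃ l : Fin n, (l : ℕ) < i ∧ x = Sum.inl l) ∨ x = Sum.inl ⟨i, by omega⟩ ∨
      x = Sum.inl ⟨i + 1, hi⟩ := by
  obtain ⟨l, hl, hxl⟩ := hg ⟨i + 1, hi⟩ (by simp) ⟨i, by omega⟩
    (by rw [Fin.mk_le_mk]; omega) x hx
  have hl2 : (l : ℕ) ≤ i + 1 := hl
  rcases Nat.lt_trichotomy (l : ℕ) i with h | h | h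
  · exact Or.inl ⟨l, h, hxl⟩
  · right; left
    rw [hxl]
    congr 1
    exact Fin.ext h
  · right; right
    rw [hxl]
    congr 1
    apply Fin.ext
    change (l : ℕ) = i + 1
    omega

/-- the columns `e_l`, `l < i`, of an element of `Pm k n i` -/
private lemma c3_low {k : Type} [Field k] {n i : ℕ} (hi : i + 1 < n) (g : SpG k n)
    (hg : Qf {l | l ≠ i} g) (l : Fin n) (hl : (l : ℕ) < i) (x : Fin n ⊕ Fin n)
    (hx : ent g x (Sum.inl l) ≠ 0) : ∃ l' : Fin n, (l' : ℕ) < i ∧ x = Sum.inl l' := by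
  obtain ⟨l', h1, h2⟩ := hg ⟨i - 1, by omega⟩ (by
    change i - 1 ≠ i
    omega) l (by
      rw [Fin.le_def]
      change (l : ℕ) ≤ i - 1
      omega) x hx
  have h3 : (l' : ℕ) ≤ i - 1 := h1
  exact ⟨l', by omega, h2⟩

private lemma c3_ne {n i : ℕ} (hi : i + 1 < n) :
    (Sum.inl ⟨i, by omega⟩ : Fin n ⊕ Fin n) ≠ Sum.inl ⟨i + 1, hi⟩ := by
  intro h
  have h1 := congrArg Fin.val (Sum.inl_injective h)
  simp at h1

/-- sum over the column `e_i` -/
private lemma c3_sum {k : Type} [Field k] {n i : ℕ} (hi : i + 1 < n) (g h : SpG k n)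
    (hg : Qf {l | l ≠ i} g) (hh : Qf {l | l ≠ i} h) (x : Fin n ⊕ Fin n)
    (hx : ¬ ∃ l' : Fin n, (l' : ℕ) < i ∧ x = Sum.inl l') :
    ent (g * h) x (Sum.inl ⟨i, by omega⟩) =
      ent g x (Sum.inl ⟨i, by omega⟩) * ent h (Sum.inl ⟨i, by omega⟩) (Sum.inl ⟨i, by omega⟩) +
      ent g x (Sum.inl ⟨i + 1, hi⟩) * ent h (Sum.inl ⟨i + 1, hi⟩) (Sum.inl ⟨i, by omega⟩) := by
  rw [ent_mul]
  refine Finset.sum_eq_add (Sum.inl ⟨i, by omega⟩ : Fin n ⊕ Fin n)
    (Sum.inl ⟨i + 1, hi⟩ : Fin n ⊕ Fin n) (c3_ne hi) ?_ ?_ ?_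
  · intro z _ hz
    by_contra hne
    rcases c3_col hi h hh z (right_ne_zero_of_mul hne) with h1 | h1 | h1
    · obtain ⟨l, hl, rfl⟩ := h1
      exact hx (c3_low hi g hg l hl x (left_ne_zero_of_mul hne))
    · exact hz.1 h1
    · exact hz.2 h1
  · intro h; exact absurd (Finset.mem_univ _) h
  · intro h; exact absurd (Finset.mem_univ _) h

private lemma c3_nlow {n i : ℕ} (hi : i < n) :
    ¬ ∃ l' : Fin n, (l' : ℕ) < i ∧ (Sum.inl ⟨i, hi⟩ : Fin n ⊕ Fin n) = Sum.inl l' := by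
  rintro ⟨l', h1, h2⟩
  have h3 := congrArg Fin.val (Sum.inl_injective h2)
  simp only at h3
  omega

private lemma c3_nlow' {n i : ℕ} (hi : i + 1 < n) :
    ¬ ∃ l' : Fin n, (l' : ℕ) < i ∧ (Sum.inl ⟨i + 1, hi⟩ : Fin n ⊕ Fin n) = Sum.inl l' := by
  rintro ⟨l', h1, h2⟩
  have h3 := congrArg Fin.val (Sum.inl_injective h2)
  simp only at h3
  omega

private lemma c3_key {k : Type} [Field k] {n i : ℕ} (hi : i + 1 < n) (g g' : SpG k n)
    (hg : Qf {l | l ≠ i} g) (hgi : Qf {l | l ≠ i} g⁻¹) (hg' : Qf {l | l ≠ i} g') (c : k)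
    (h0 : ent g' (Sum.inl ⟨i, by omega⟩) (Sum.inl ⟨i, by omega⟩) =
      c * ent g (Sum.inl ⟨i, by omega⟩) (Sum.inl ⟨i, by omega⟩))
    (h1 : ent g' (Sum.inl ⟨i + 1, hi⟩) (Sum.inl ⟨i, by omega⟩) =
      c * ent g (Sum.inl ⟨i + 1, hi⟩) (Sum.inl ⟨i, by omega⟩)) :
    Qf Set.univ (g⁻¹ * g') := by
  have hm : Qf {l | l ≠ i} (g⁻¹ * g') := Qf_mul _ _ _ hgi hg'
  intro l _ l' hl' x hx
  by_cases hl : (l : ℕ) = i
  · have hl2 : (l' : ℕ) ≤ i := by rw [← hl]; exact hl'
    rcases Nat.lt_or_ge (l' : ℕ) i with h | h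
    · obtain ⟨l'', h3, h4⟩ := c3_low hi _ hm l' h x hx
      refine ⟨l'', ?_, h4⟩
      rw [Fin.le_def, hl]
      omega
    · have e : l' = ⟨i, by omega⟩ := Fin.ext (by
        change (l' : ℕ) = i
        omega)
      rw [e] at hx
      by_cases hlow : ∃ l' : Fin n, (l' : ℕ) < i ∧ x = Sum.inl l'
      · obtain ⟨l'', h3, h4⟩ := hlow
        refine ⟨l'', ?_, h4⟩
        rw [Fin.le_def, hl]
        omega
      · have e1 := c3_sum hi g⁻¹ g' hgi hg' x hlow
        have e2 := c3_sum hi g⁻¹ g hgi hg x hlow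
        rw [inv_mul_cancel, ent_one] at e2
        have e3 : ent (g⁻¹ * g') x (Sum.inl ⟨i, by omega⟩) =
            c * (if x = Sum.inl ⟨i, by omega⟩ then 1 else 0) := by
          rw [e1, e2, h0, h1]
          ring
        rw [e3] at hx
        by_cases hxi : x = Sum.inl ⟨i, by omega⟩
        · refine ⟨⟨i, by omega⟩, ?_, hxi⟩
          rw [Fin.le_def, hl]
        · rw [if_neg hxi, mul_zero] at hx
          exact absurd rfl hx
  · exact hm l hl l' hl' x hx

private lemma c3_reg {k : Type} [Field k] (h9 : S_R9) {n : ℕ} {X : Type} [RS k X]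
    (p q : Fin n) (hpq : p ≠ q) (f : X → k) (hf : f ∈ regA k X) :
    IsReg k (fun u : X => xr p q (f u)) := by
  rw [(h9 k n).2.2]
  intro x y
  obtain ⟨c, d, hcd⟩ := c3_ent_lin (k := k) p q hpq x y
  have e : (fun u : X => ent (xr p q (f u)) x y) =
      algebraMap k (X → k) c + d • f := by
    funext u
    rw [hcd]
    rfl
  rw [e]
  exact add_mem (Subalgebra.algebraMap_mem _ c) (Subalgebra.smul_mem _ hf d)

theorem p_C3 (h2 : S_R2) (h8 : S_R8) (h9 : S_R9) : S_C3 := by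
  intro k _ n i hi
  have hRG : RG k (SpG k n) := (h9 k n).1
  have hne : (⟨i, by omega⟩ : Fin n) ≠ ⟨i + 1, hi⟩ := by
    intro h
    have := congrArg Fin.val h
    simp at this
  have hmy : ∀ s : k, xr (⟨i + 1, hi⟩ : Fin n) ⟨i, by omega⟩ s ∈ Pm k n i := by
    intro s
    refine c3_mem _ _ _ hne.symm ?_ s
    intro l hl h
    have hl' : (l : ℕ) ≠ i := hl
    have h' : i ≤ (l : ℕ) := h
    rw [Fin.le_def]
    change i + 1 ≤ (l : ℕ)
    omega
  have hmx : ∀ s : k, xr (⟨i, by omega⟩ : Fin n) ⟨i + 1, hi⟩ s ∈ Pm k n i := by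
    intro s
    refine c3_mem _ _ _ hne ?_ s
    intro l hl h
    have h' : i + 1 ≤ (l : ℕ) := h
    rw [Fin.le_def]
    change i ≤ (l : ℕ)
    omega
  have hco : ∀ j : Fin 2, (fun u : Fin 2 → k => u j) ∈ regA k (Fin 2 → k) := by
    intro j
    exact Algebra.subset_adjoin ⟨j, rfl⟩
  have hsub : ∀ (F : SpG k n → k), F ∈ regA k (SpG k n) → ∀ H : Subgroup (SpG k n),
      (fun g : H => F (g : SpG k n)) ∈ regA k H := fun F hF H => ⟨F, hF, rfl⟩
  have hinv : ∀ x y, (fun g : SpG k n => ent g⁻¹ x y) ∈ regA k (SpG k n) := fun x y =>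
    hRG.inv_reg _ ((h9 k n).2.1 x y)
  have hz : ∀ (g h : SpG k n), Qf {l | l ≠ i} g → Qf Set.univ h → ∀ x : Fin n ⊕ Fin n,
      (¬ ∃ l' : Fin n, (l' : ℕ) < i ∧ x = Sum.inl l') →
      ent (g * h) x (Sum.inl ⟨i, by omega⟩) = ent g x (Sum.inl ⟨i, by omega⟩) *
        ent h (Sum.inl ⟨i, by omega⟩) (Sum.inl ⟨i, by omega⟩) := by
    intro g h hg hh x hx
    rw [c3_sum hi g h hg (fun l _ => hh l (Set.mem_univ _)) x hx]
    have h0 : ent h (Sum.inl ⟨i + 1, hi⟩) (Sum.inl ⟨i, by omega⟩) = 0 := by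
      by_contra hne0
      obtain ⟨l, h3, h4⟩ := hh ⟨i, by omega⟩ (Set.mem_univ _) ⟨i, by omega⟩ le_rfl _ hne0
      have h5 := congrArg Fin.val (Sum.inl_injective h4)
      have h6 : (l : ℕ) ≤ i := h3
      simp only at h5
      omega
    rw [h0, mul_zero, add_zero]
  refine ⟨{ inc := Subgroup.inclusion (Bo_le k n _)
            inc_inj := Subgroup.inclusion_injective _
            reg := ?_
            z := fun j g => if j = 0 then ent (g : SpG k n) (Sum.inl ⟨i, by omega⟩)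
                (Sum.inl ⟨i, by omega⟩)
              else ent (g : SpG k n) (Sum.inl ⟨i + 1, hi⟩) (Sum.inl ⟨i, by omega⟩)
            z_reg := ?_
            y := fun j g => if j = 0 then ent (g : SpG k n)⁻¹ (Sum.inl ⟨i, by omega⟩)
                (Sum.inl ⟨i, by omega⟩)
              else ent (g : SpG k n)⁻¹ (Sum.inl ⟨i, by omega⟩) (Sum.inl ⟨i + 1, hi⟩)
            y_reg := ?_
            unimod := ?_
            χ := dgB k n ⟨i, by omega⟩
            χ_reg := ?_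
            χ_reg' := ?_
            z_χ := ?_
            σ := fun j u => if j = 0 then
                ⟨xr (⟨i + 1, hi⟩ : Fin n) ⟨i, by omega⟩ (u 1), hmy (u 1)⟩
              else ⟨xr (⟨i, by omega⟩ : Fin n) ⟨i + 1, hi⟩ (u 0 - 1), hmx (u 0 - 1)⟩ *
                ⟨xr (⟨i + 1, hi⟩ : Fin n) ⟨i, by omega⟩ 1, hmy 1⟩
            σ_reg := ?_
            z_σ := ?_
            trans := ?_
            two := ⟨0, 1, by decide⟩ }, rfl, fun h => rfl⟩
  · intro f
    exact (h8 k k (SpG k n)).2.2.2.2.2 (Bo k n) (Pm k n i) (Bo_le k n _) f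
  · intro j
    by_cases hj : j = 0
    · simp only [hj, if_true]
      exact hsub _ ((h9 k n).2.1 _ _) (Pm k n i)
    · simp only [hj, if_false]
      exact hsub _ ((h9 k n).2.1 _ _) (Pm k n i)
  · intro j
    by_cases hj : j = 0
    · simp only [hj, if_true]
      exact hsub _ (hinv _ _) (Pm k n i)
    · simp only [hj, if_false]
      exact hsub _ (hinv _ _) (Pm k n i)
  · intro g
    rw [Fin.sum_univ_two]
    simp only [if_true, one_ne_zero, if_false]
    have h := c3_sum hi (g : SpG k n)⁻¹ (g : SpG k n) g.2.2 g.2.1 (Sum.inl ⟨i, by omega⟩)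
      (c3_nlow (by omega))
    rw [inv_mul_cancel, ent_one, if_pos rfl] at h
    exact h.symm
  · exact hsub _ ((h9 k n).2.1 _ _) (Bo k n)
  · exact hsub _ (hinv _ _) (Bo k n)
  · intro g h j
    by_cases hj : j = 0
    · simp only [hj, if_true]
      exact hz g h g.2.1 h.2.1 _ (c3_nlow (by omega))
    · simp only [hj, if_false]
      exact hz g h g.2.1 h.2.1 _ (c3_nlow' hi)
  · intro j
    rw [(h8 k (Fin 2 → k) (SpG k n)).2.2.2.2.1]
    by_cases hj : j = 0
    · simp only [hj, if_true]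
      exact c3_reg h9 _ _ hne.symm _ (hco 1)
    · simp only [hj, if_false]
      refine (h8 k (Fin 2 → k) (SpG k n)).1 _ _ ?_ ?_
      · refine c3_reg h9 _ _ hne (fun u : Fin 2 → k => u 0 - 1) ?_
        exact sub_mem (hco 0) (Subalgebra.one_mem _)
      · exact (h2 k (Fin 2 → k) (SpG k n) k).2.2.1 _
  · intro j u hu l
    by_cases hj : j = 0
    · subst hj
      simp only [if_true]
      fin_cases l
      · simp only [Fin.zero_eta, if_true, c3_ent_ll _ _ hne.symm]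
        simp [hu]
      · simp only [Fin.mk_one, one_ne_zero, if_false, c3_ent_ll _ _ hne.symm]
        simp
    · have hj1 : j = 1 := by omega
      subst hj1
      simp only [one_ne_zero, if_false]
      have hX : Qf {l | l ≠ i} (xr (⟨i, by omega⟩ : Fin n) ⟨i + 1, hi⟩ (u 0 - 1)) :=
        (hmx (u 0 - 1)).1
      have hY : Qf {l | l ≠ i} (xr (⟨i + 1, hi⟩ : Fin n) ⟨i, by omega⟩ (1 : k)) := (hmy 1).1
      fin_cases l
      · simp only [Fin.zero_eta, if_true]
        rw [Subgroup.coe_mul, c3_sum hi _ _ hX hY _ (c3_nlow (by omega))]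
        simp [c3_ent_ll _ _ hne, c3_ent_ll _ _ hne.symm]
      · simp only [Fin.mk_one, one_ne_zero, if_false]
        rw [Subgroup.coe_mul, c3_sum hi _ _ hX hY _ (c3_nlow' hi)]
        simp [c3_ent_ll _ _ hne, c3_ent_ll _ _ hne.symm, hu]
  · intro g g' c hc hgg
    have h0 := hgg 0
    have h1 := hgg 1
    simp only [if_true, one_ne_zero, if_false] at h0 h1
    have m1 : Qf Set.univ ((g : SpG k n)⁻¹ * (g' : SpG k n)) :=
      c3_key hi _ _ g.2.1 g.2.2 g'.2.1 c h0 h1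
    have m2 : Qf Set.univ ((g' : SpG k n)⁻¹ * (g : SpG k n)) := by
      refine c3_key hi _ _ g'.2.1 g'.2.2 g.2.1 c⁻¹ ?_ ?_
      · rw [h0, inv_mul_cancel_left₀ hc]
      · rw [h1, inv_mul_cancel_left₀ hc]
    refine ⟨⟨(g : SpG k n)⁻¹ * (g' : SpG k n), m1, ?_⟩, ?_⟩
    · rw [_root_.mul_inv_rev, inv_inv]
      exact m2
    · apply Subtype.ext
      change (g' : SpG k n) = (g : SpG k n) * ((g : SpG k n)⁻¹ * (g' : SpG k n))
      rw [mul_inv_cancel_left]

end Pool.Agent.Sp49
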