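import Pool.Agent.Lib.MP_49c83e_al.StmC

/-!
MP_49c83e_al, piece C4: the restriction from the symplectic group to the Borel subgroup is
injective on the second cohomology.
-/

namespace Pool.Agent.Sp49

section C4

variable {k : Type} [Field k] {Γ : Type} [Group Γ] [RS k Γ] [RG k Γ]
  {M : Type} [AddCommGroup M] [Module k M]

/-- restriction of a representation to a subgroup -/
private def c4_res (ρ : Representation k Γ M) (H : Subgroup Γ) : Representation k H M :=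
  MonoidHom.comp ρ H.subtype

/-- restriction of a 2-cochain to a subgroup -/
private def c4_f (f : Γ × Γ → M) (H : Subgroup Γ) : H × H → M :=
  fun q => f ((q.1 : Γ), (q.2 : Γ))

private theorem c4_rat (h3 : S_R3) (h8 : S_R8) (ρ : Representation k Γ M) (hρ : IsRat ρ)
    (H : Subgroup Γ) : IsRat (c4_res ρ H) := by
  intro m
  exact (h3 k H Γ M M).1 (fun h : H => (h : Γ)) (fun g => ρ g m) ((h8 k Γ Γ).2.2.2.1 H) (hρ m)

private theorem c4_cocycle (h2 : S_R2) (h3 : S_R3) (h8 : S_R8) (ρ : Representation k Γ M)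
    (H : Subgroup Γ) (f : Γ × Γ → M) (hf : f ∈ Zc2 ρ) : c4_f f H ∈ Zc2 (c4_res ρ H) := by
  rw [Zc2, Submodule.mem_inf] at hf ⊢
  obtain ⟨hf1, hf2⟩ := hf
  have hi : IsReg k (fun h : H => (h : Γ)) := (h8 k Γ Γ).2.2.2.1 H
  have hp1 : IsReg k (fun q : H × H => (q.1 : Γ)) :=
    (h2 k (H × H) H Γ).2.1 (fun q : H × H => q.1) (fun h : H => (h : Γ))
      (h2 k H H H).2.2.2.1 hi
  have hp2 : IsReg k (fun q : H × H => (q.2 : Γ)) :=
    (h2 k (H × H) H Γ).2.1 (fun q : H × H => q.2) (fun h : H => (h : Γ))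
      (h2 k H H H).2.2.2.2.1 hi
  have hpp : IsReg k (fun q : H × H => ((q.1 : Γ), (q.2 : Γ))) :=
    (h2 k (H × H) Γ Γ).2.2.2.2.2 _ _ hp1 hp2
  refine ⟨(h3 k (H × H) (Γ × Γ) M M).1 _ f hpp hf1, ?_⟩
  rw [LinearMap.mem_ker] at hf2 ⊢
  funext q
  have h := congrFun hf2 ((q.1 : Γ), (q.2.1 : Γ), (q.2.2 : Γ))
  exact h

/-- the restriction of f to H is the coboundary of a regular cochain -/
private def c4_B (ρ : Representation k Γ M) (f : Γ × Γ → M) (H : Subgroup Γ) : Prop :=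
  ∃ ψ ∈ RM k H M, ∀ a b : H, f ((a : Γ), (b : Γ)) = ρ (a : Γ) (ψ b) - ψ (a * b) + ψ a

private theorem c4_of_mem (ρ : Representation k Γ M) (f : Γ × Γ → M) (H : Subgroup Γ)
    (h : c4_f f H ∈ Bc2 (c4_res ρ H)) : c4_B ρ f H := by
  rw [Bc2, Submodule.mem_map] at h
  obtain ⟨ψ, hψ, he⟩ := h
  refine ⟨ψ, hψ, fun a b => ?_⟩
  have h1 := congrFun he (a, b)
  exact h1.symm

private theorem c4_top (h2 : S_R2) (h3 : S_R3) (h8 : S_R8) (ρ : Representation k Γ M)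
    (f : Γ × Γ → M) (H : Subgroup Γ) (hH : H = ⊤) (h : c4_B ρ f H) : f ∈ Bc2 ρ := by
  subst hH
  obtain ⟨ψ, hψ, he⟩ := h
  have hr : IsReg k (fun g : Γ => (⟨g, Subgroup.mem_top g⟩ : (⊤ : Subgroup Γ))) :=
    ((h8 k Γ Γ).2.2.2.2.1 ⊤ _).2 (h2 k Γ Γ Γ).1
  rw [Bc2, Submodule.mem_map]
  refine ⟨fun g => ψ ⟨g, Subgroup.mem_top g⟩, (h3 k Γ (⊤ : Subgroup Γ) M M).1 _ ψ hr hψ, ?_⟩
  funext q
  exact (he ⟨q.1, Subgroup.mem_top _⟩ ⟨q.2, Subgroup.mem_top _⟩).symm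

end C4

theorem p_C4 (h2 : S_R2) (h3 : S_R3) (h8 : S_R8) (h9 : S_R9) (hP15 : S_P15) (hC0 : S_C0)
    (hC2 : S_C2) : S_C4 := by
  intro k _ _ n M _ _ ρ hρ f hf ψ hψ he
  have hRG : RG k (SpG k n) := (h9 k n).1
  have hbase : c4_B ρ f (Tw k n n) := by
    rw [(hC0 k n).2]
    exact ⟨ψ, hψ, he⟩
  have hstep : ∀ m, m < n → c4_B ρ f (Tw k n (m + 1)) → c4_B ρ f (Tw k n m) := by
    classical
    intro m hm hB
    obtain ⟨C, hC, _⟩ := hC2 k n m hm
    have hRm : RG k (Tw k n m) := (h8 k (SpG k n) (SpG k n)).2.2.1 _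
    have hRm' : RG k (Tw k n (m + 1)) := (h8 k (SpG k n) (SpG k n)).2.2.1 _
    obtain ⟨φ, hφ, hφe⟩ := hB
    apply c4_of_mem
    refine hP15 k (Tw k n m) (Tw k n (m + 1)) _ C M (c4_res ρ (Tw k n m))
      (c4_rat h3 h8 ρ hρ _) _ (c4_cocycle h2 h3 h8 ρ _ f hf) φ hφ ?_
    intro a b
    rw [hC]
    exact hφe a b
  have hall : ∀ j, j ≤ n → c4_B ρ f (Tw k n (n - j)) := by
    intro j
    induction j with
    | zero => intro _; exact hbase
    | succ j ih =>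
      intro hj
      apply hstep _ (by omega)
      have e : n - (j + 1) + 1 = n - j := by omega
      rw [e]
      exact ih (by omega)
  have h0 := hall n le_rfl
  rw [Nat.sub_self] at h0
  exact c4_top h2 h3 h8 ρ f _ (hC0 k n).1 h0

end Pool.Agent.Sp49
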