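import Mathlib
import Pool.Agent.Lib.MP_49c83e_al.StmC

/-!
MP_49c83e_al, piece D0: characters of the Borel subgroup are rational.
-/

set_option autoImplicit false

namespace Pool.Agent.Sp49

open scoped BigOperators

/-- diagonal entries are regular on the Borel subgroup -/
theorem d0_ent (k : Type) [Field k] (n : ℕ) (i : Fin n) :
    (fun b : Bo k n => ent (b : SpG k n) (Sum.inl i) (Sum.inl i)) ∈ regA k (Bo k n) :=
  ⟨fun g : SpG k n => ent g (Sum.inl i) (Sum.inl i),
    Algebra.subset_adjoin ⟨Sum.inl i, Sum.inl i, rfl⟩, rfl⟩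

/-- integral powers of diagonal entries are regular -/
theorem d0_zpow (h8 : S_R8) (h9 : S_R9) (k : Type) [Field k] (n : ℕ) (i : Fin n) (z : ℤ) :
    (fun b : Bo k n => (((dgB k n i b) ^ z : kˣ) : k)) ∈ regA k (Bo k n) := by
  have : RG k (SpG k n) := (h9 k n).1
  have : RG k (Bo k n) := (h8 k (SpG k n) (SpG k n)).2.2.1 (Bo k n)
  have hinv := RG.inv_reg (k := k) (Γ := Bo k n) _ (d0_ent k n i)
  cases z with
  | ofNat m =>
    have e : (fun b : Bo k n => (((dgB k n i b) ^ (Int.ofNat m) : kˣ) : k)) =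
        (fun b : Bo k n => ent (b : SpG k n) (Sum.inl i) (Sum.inl i)) ^ m := by
      funext b
      rw [Pi.pow_apply, Int.ofNat_eq_natCast, zpow_natCast, Units.val_pow_eq_pow_val]
      rfl
    rw [e]
    exact Subalgebra.pow_mem _ (d0_ent k n i) m
  | negSucc m =>
    have e : (fun b : Bo k n => (((dgB k n i b) ^ (Int.negSucc m) : kˣ) : k)) =
        (fun b : Bo k n => ent ((b⁻¹ : Bo k n) : SpG k n) (Sum.inl i) (Sum.inl i)) ^ (m + 1) := by
      funext b
      rw [Pi.pow_apply, zpow_negSucc, ← inv_pow, Units.val_pow_eq_pow_val]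
      rfl
    rw [e]
    exact Subalgebra.pow_mem _ hinv (m + 1)

/-- characters of the Borel subgroup are regular functions -/
theorem d0_chB (h8 : S_R8) (h9 : S_R9) (k : Type) [Field k] (n : ℕ) (μ : Fin n → ℤ) :
    (fun b : Bo k n => ((chB k μ b : kˣ) : k)) ∈ regA k (Bo k n) := by
  have e : (fun b : Bo k n => ((chB k μ b : kˣ) : k)) =
      ∏ i, (fun b : Bo k n => (((dgB k n i b) ^ (μ i) : kˣ) : k)) := by
    funext b
    rw [Finset.prod_apply]
    unfold chB
    rw [Units.coe_prod]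
  rw [e]
  exact Subalgebra.prod_mem _ (fun i _ => d0_zpow h8 h9 k n i (μ i))

theorem p_D0 (h8 : S_R8) (h9 : S_R9) : S_D0 := by
  intro k _ n μ m
  exact Submodule.subset_span ⟨fun b : Bo k n => ((chB k μ b : kˣ) : k),
    d0_chB h8 h9 k n μ, m, rfl⟩

end Pool.Agent.Sp49
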