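import Pool.Agent.Lib.MP_49c83e_al.StmC

/-!
MP_49c83e_al, piece D1: vanishing for pairing 1 with a short simple root.
-/

set_option autoImplicit false

namespace Pool.Agent.Sp49

open scoped BigOperators

section D1

variable {k : Type} [Field k] {n i : ℕ}

/-- columns of elements of the minimal parabolic subgroup -/
private theorem d1_col (hi : i + 1 < n) (g : Pm k n i) (l : Fin n) (x : Fin n ⊕ Fin n)
    (h : ent (g : SpG k n) x (Sum.inl l) ≠ 0) :
    ∃ l' : Fin n, x = Sum.inl l' ∧ ((l' : ℕ) ≤ l ∨ ((l : ℕ) = i ∧ (l' : ℕ) = i + 1)) := by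
  by_cases hl : (l : ℕ) = i
  · obtain ⟨l', h1, rfl⟩ := g.2.1 ⟨i + 1, hi⟩ (by show i + 1 ≠ i; omega) l (by
      show (l : ℕ) ≤ i + 1
      omega) x h
    refine ⟨l', rfl, ?_⟩
    have h2 : (l' : ℕ) ≤ i + 1 := h1
    omega
  · obtain ⟨l', h1, rfl⟩ := g.2.1 l hl l le_rfl x h
    exact ⟨l', rfl, Or.inl h1⟩

private theorem d1_diag (hi : i + 1 < n) (g h : Pm k n i) (l : Fin n) (h1 : (l : ℕ) ≠ i)
    (h2 : (l : ℕ) ≠ i + 1) :
    ent ((g * h : Pm k n i) : SpG k n) (Sum.inl l) (Sum.inl l) =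
      ent (g : SpG k n) (Sum.inl l) (Sum.inl l) * ent (h : SpG k n) (Sum.inl l) (Sum.inl l) := by
  rw [Subgroup.coe_mul, ent_mul, Finset.sum_eq_single (Sum.inl l)]
  · intro z _ hz
    by_contra hne
    obtain ⟨a, rfl, ha⟩ := d1_col hi h l z (right_ne_zero_of_mul hne)
    obtain ⟨b, hb, hb2⟩ := d1_col hi g a (Sum.inl l) (left_ne_zero_of_mul hne)
    have h3 : l = b := Sum.inl_injective hb
    subst h3
    refine hz ?_
    congr 1
    apply Fin.ext
    omega
  · intro h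
    exact absurd (Finset.mem_univ _) h

private theorem d1_blk (hi : i + 1 < n) (g h : Pm k n i) (a b : Fin n)
    (ha : (a : ℕ) = i ∨ (a : ℕ) = i + 1) (hb : (b : ℕ) = i ∨ (b : ℕ) = i + 1) :
    ent ((g * h : Pm k n i) : SpG k n) (Sum.inl a) (Sum.inl b) =
      ent (g : SpG k n) (Sum.inl a) (Sum.inl ⟨i, by omega⟩) *
        ent (h : SpG k n) (Sum.inl ⟨i, by omega⟩) (Sum.inl b) +
      ent (g : SpG k n) (Sum.inl a) (Sum.inl ⟨i + 1, hi⟩) *
        ent (h : SpG k n) (Sum.inl ⟨i + 1, hi⟩) (Sum.inl b) := by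
  rw [Subgroup.coe_mul, ent_mul]
  refine Finset.sum_eq_add (Sum.inl (⟨i, by omega⟩ : Fin n) : Fin n ⊕ Fin n)
    (Sum.inl (⟨i + 1, hi⟩ : Fin n)) ?_ ?_
    (fun h => absurd (Finset.mem_univ _) h) (fun h => absurd (Finset.mem_univ _) h)
  · intro h
    have := congrArg Fin.val (Sum.inl_injective h)
    simp at this
  · rintro z _ ⟨hz1, hz2⟩
    by_contra hne
    obtain ⟨c, rfl, hc⟩ := d1_col hi h b z (right_ne_zero_of_mul hne)
    obtain ⟨a', ha', hc2⟩ := d1_col hi g c (Sum.inl a) (left_ne_zero_of_mul hne)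
    have h3 : a = a' := Sum.inl_injective ha'
    subst h3
    have h4 : (c : ℕ) ≠ i := fun h => hz1 (by congr 1; exact Fin.ext h)
    have h5 : (c : ℕ) ≠ i + 1 := fun h => hz2 (by congr 1; exact Fin.ext h)
    omega

/-- the diagonal characters of the minimal parabolic subgroup (trivial at `i`, `i + 1`) -/
private noncomputable def d1_D (k : Type) [Field k] (n i : ℕ) (hi : i + 1 < n) (l : Fin n) :
    Pm k n i →* kˣ :=
  if h : (l : ℕ) = i ∨ (l : ℕ) = i + 1 then 1 else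
    MonoidHom.toHomUnits
      { toFun := fun g => ent (g : SpG k n) (Sum.inl l) (Sum.inl l)
        map_one' := by simp [ent_one]
        map_mul' := fun a b => d1_diag hi a b l (fun h' => h (Or.inl h'))
          (fun h' => h (Or.inr h')) }

/-- the determinant of the block at `i`, `i + 1` -/
private noncomputable def d1_B (k : Type) [Field k] (n i : ℕ) (hi : i + 1 < n) :
    Pm k n i →* kˣ :=
  MonoidHom.toHomUnits
    { toFun := fun g =>
        ent (g : SpG k n) (Sum.inl ⟨i, by omega⟩) (Sum.inl ⟨i, by omega⟩) *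
          ent (g : SpG k n) (Sum.inl ⟨i + 1, hi⟩) (Sum.inl ⟨i + 1, hi⟩) -
        ent (g : SpG k n) (Sum.inl ⟨i, by omega⟩) (Sum.inl ⟨i + 1, hi⟩) *
          ent (g : SpG k n) (Sum.inl ⟨i + 1, hi⟩) (Sum.inl ⟨i, by omega⟩)
      map_one' := by simp [ent_one]
      map_mul' := fun a b => by
        rw [d1_blk hi a b _ _ (Or.inl rfl) (Or.inl rfl), d1_blk hi a b _ _ (Or.inr rfl) (Or.inr rfl),
          d1_blk hi a b _ _ (Or.inl rfl) (Or.inr rfl), d1_blk hi a b _ _ (Or.inr rfl) (Or.inl rfl)]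
        ring }

private theorem d1_D_apply (hi : i + 1 < n) (l : Fin n) (h : ¬ ((l : ℕ) = i ∨ (l : ℕ) = i + 1))
    (g : Pm k n i) :
    ((d1_D k n i hi l g : kˣ) : k) = ent (g : SpG k n) (Sum.inl l) (Sum.inl l) := by
  unfold d1_D
  rw [dif_neg h, MonoidHom.coe_toHomUnits]
  rfl

private theorem d1_D_one (hi : i + 1 < n) (l : Fin n) (h : (l : ℕ) = i ∨ (l : ℕ) = i + 1)
    (g : Pm k n i) : d1_D k n i hi l g = 1 := by
  unfold d1_D
  rw [dif_pos h]
  rfl

private theorem d1_B_apply (hi : i + 1 < n) (g : Pm k n i) :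
    ((d1_B k n i hi g : kˣ) : k) =
      ent (g : SpG k n) (Sum.inl ⟨i, by omega⟩) (Sum.inl ⟨i, by omega⟩) *
        ent (g : SpG k n) (Sum.inl ⟨i + 1, hi⟩) (Sum.inl ⟨i + 1, hi⟩) -
      ent (g : SpG k n) (Sum.inl ⟨i, by omega⟩) (Sum.inl ⟨i + 1, hi⟩) *
        ent (g : SpG k n) (Sum.inl ⟨i + 1, hi⟩) (Sum.inl ⟨i, by omega⟩) := by
  unfold d1_B
  rw [MonoidHom.coe_toHomUnits]
  rfl

/-- integral powers of a regular character are regular -/
private theorem d1_zpow {Γ : Type} [Group Γ] [RS k Γ] [RG k Γ] (χ : Γ →* kˣ)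
    (h : (fun g => (χ g : k)) ∈ regA k Γ) (m : ℤ) :
    (fun g => (((χ g) ^ m : kˣ) : k)) ∈ regA k Γ := by
  have hnat : ∀ r : ℕ, (fun g => (((χ g) ^ r : kˣ) : k)) ∈ regA k Γ := fun r => by
    have := Subalgebra.pow_mem _ h r
    have e : (fun g => (((χ g) ^ r : kˣ) : k)) = (fun g => (χ g : k)) ^ r := by
      funext g
      simp
    rw [e]
    exact this
  cases m with
  | ofNat r =>
    have e : (fun g => (((χ g) ^ (Int.ofNat r) : kˣ) : k)) =
        fun g => (((χ g) ^ r : kˣ) : k) := by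
      funext g
      rw [Int.ofNat_eq_natCast, zpow_natCast]
    rw [e]
    exact hnat r
  | negSucc r =>
    have e : (fun g => (((χ g) ^ (Int.negSucc r) : kˣ) : k)) =
        fun g => (((χ g⁻¹) ^ (r + 1) : kˣ) : k) := by
      funext g
      rw [zpow_negSucc, map_inv, inv_pow]
    rw [e]
    exact RG.inv_reg (k := k) (Γ := Γ) _ (hnat (r + 1))

/-- the character of the minimal parabolic subgroup -/
private noncomputable def d1_N (k : Type) [Field k] (n i : ℕ) (hi : i + 1 < n) (μ : Fin n → ℤ) :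
    Pm k n i →* kˣ where
  toFun g := (∏ l, (d1_D k n i hi l g) ^ (μ l)) * (d1_B k n i hi g) ^ (μ ⟨i + 1, hi⟩)
  map_one' := by simp
  map_mul' a b := by
    simp only [map_mul, mul_zpow, Finset.prod_mul_distrib]
    exact mul_mul_mul_comm _ _ _ _

/-- its representation -/
private noncomputable def d1_nu (k : Type) [Field k] (n i : ℕ) (hi : i + 1 < n)
    (μ : Fin n → ℤ) : Representation k (Pm k n i) k where
  toFun g := ((d1_N k n i hi μ g : kˣ) : k) • LinearMap.id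
  map_one' := by
    ext
    simp
  map_mul' a b := by
    ext
    simp only [map_mul, Units.val_mul, Module.End.mul_apply,
      LinearMap.smul_apply, LinearMap.id_coe, id_eq, smul_eq_mul, mul_one]

private theorem d1_ent_reg (hR9 : S_R9) (S : Set ℕ) (x y : Fin n ⊕ Fin n) :
    (fun g : Par k n S => ent (g : SpG k n) x y) ∈ regA k (Par k n S) :=
  ⟨fun g : SpG k n => ent g x y, (hR9 k n).2.1 x y, rfl⟩

private theorem d1_N_reg (hR9 : S_R9) (hi : i + 1 < n) (μ : Fin n → ℤ) [RG k (Pm k n i)] :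
    (fun g => ((d1_N k n i hi μ g : kˣ) : k)) ∈ regA k (Pm k n i) := by
  have e : (fun g => ((d1_N k n i hi μ g : kˣ) : k)) =
      (∏ l, fun g : Pm k n i => (((d1_D k n i hi l g) ^ (μ l) : kˣ) : k)) *
        fun g : Pm k n i => (((d1_B k n i hi g) ^ (μ ⟨i + 1, hi⟩) : kˣ) : k) := by
    funext g
    simp only [d1_N, MonoidHom.coe_mk, OneHom.coe_mk, Units.val_mul, Units.coe_prod,
      Pi.mul_apply, Finset.prod_apply]
  rw [e]
  refine Subalgebra.mul_mem _ (Subalgebra.prod_mem _ fun l _ => d1_zpow _ ?_ _)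
    (d1_zpow _ ?_ _)
  · by_cases h : (l : ℕ) = i ∨ (l : ℕ) = i + 1
    · have e2 : (fun g : Pm k n i => ((d1_D k n i hi l g : kˣ) : k)) = 1 := by
        funext g
        rw [d1_D_one hi l h]
        simp
      rw [e2]
      exact Subalgebra.one_mem _
    · have e2 : (fun g : Pm k n i => ((d1_D k n i hi l g : kˣ) : k)) =
          fun g : Pm k n i => ent (g : SpG k n) (Sum.inl l) (Sum.inl l) := by
        funext g
        exact d1_D_apply hi l h g
      rw [e2]
      exact d1_ent_reg hR9 _ _ _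
  · have e2 : (fun g : Pm k n i => ((d1_B k n i hi g : kˣ) : k)) =
        (fun g : Pm k n i => ent (g : SpG k n) (Sum.inl ⟨i, by omega⟩) (Sum.inl ⟨i, by omega⟩)) *
          (fun g : Pm k n i => ent (g : SpG k n) (Sum.inl ⟨i + 1, hi⟩) (Sum.inl ⟨i + 1, hi⟩)) -
        (fun g : Pm k n i => ent (g : SpG k n) (Sum.inl ⟨i, by omega⟩) (Sum.inl ⟨i + 1, hi⟩)) *
          (fun g : Pm k n i => ent (g : SpG k n) (Sum.inl ⟨i + 1, hi⟩) (Sum.inl ⟨i, by omega⟩)) := by
      funext g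
      exact d1_B_apply hi g
    rw [e2]
    exact Subalgebra.sub_mem _ (Subalgebra.mul_mem _ (d1_ent_reg hR9 _ _ _)
      (d1_ent_reg hR9 _ _ _)) (Subalgebra.mul_mem _ (d1_ent_reg hR9 _ _ _)
      (d1_ent_reg hR9 _ _ _))

/-- lower triangular entries of elements of the Borel subgroup vanish -/
private theorem d1_bo (hi : i + 1 < n) (h : Bo k n) :
    ent (h : SpG k n) (Sum.inl ⟨i + 1, hi⟩) (Sum.inl ⟨i, by omega⟩) = 0 := by
  by_contra hne
  obtain ⟨l, hl, h1⟩ := h.2.1 ⟨i, by omega⟩ (Set.mem_univ _) _ le_rfl _ hne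
  have h2 : (⟨i + 1, hi⟩ : Fin n) = l := Sum.inl_injective h1
  subst h2
  have h3 : i + 1 ≤ i := hl
  omega

private theorem d1_key (hi : i + 1 < n) (μ : Fin n → ℤ)
    (hμ : μ ⟨i, by omega⟩ = μ ⟨i + 1, hi⟩ + 1) (h : Bo k n) (g : Pm k n i)
    (hg : (g : SpG k n) = (h : SpG k n)) (χ : kˣ)
    (hχ : (χ : k) = ent (h : SpG k n) (Sum.inl ⟨i, by omega⟩) (Sum.inl ⟨i, by omega⟩)) :
    χ * d1_N k n i hi μ g = chB k μ h := by
  have e1 : χ = dgB k n ⟨i, by omega⟩ h := Units.ext hχ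
  have e2 : d1_B k n i hi g = dgB k n ⟨i, by omega⟩ h * dgB k n ⟨i + 1, hi⟩ h := by
    apply Units.ext
    rw [d1_B_apply, hg, d1_bo hi h, mul_zero, sub_zero]
    rfl
  have hne : (⟨i, by omega⟩ : Fin n) ≠ ⟨i + 1, hi⟩ := by
    intro h
    have := congrArg Fin.val h
    simp at this
  have e3 : ∀ l : Fin n, (dgB k n l h) ^ (μ l) = (d1_D k n i hi l g) ^ (μ l) *
      (if l = ⟨i, by omega⟩ then (dgB k n ⟨i, by omega⟩ h) ^ (μ ⟨i, by omega⟩) else 1) *
      (if l = ⟨i + 1, hi⟩ then (dgB k n ⟨i + 1, hi⟩ h) ^ (μ ⟨i + 1, hi⟩) else 1) := by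
    intro l
    by_cases h1 : l = ⟨i, by omega⟩
    · subst h1
      rw [if_pos rfl, if_neg hne, d1_D_one hi _ (Or.inl rfl)]
      simp
    · by_cases h2 : l = ⟨i + 1, hi⟩
      · subst h2
        rw [if_neg h1, if_pos rfl, d1_D_one hi _ (Or.inr rfl)]
        simp
      · rw [if_neg h1, if_neg h2, mul_one, mul_one]
        congr 1
        apply Units.ext
        rw [d1_D_apply hi l (by
          rintro (h3 | h3)
          · exact h1 (Fin.ext h3)
          · exact h2 (Fin.ext h3)), hg]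
        rfl
  unfold chB
  rw [Finset.prod_congr rfl fun l _ => e3 l, Finset.prod_mul_distrib, Finset.prod_mul_distrib,
    Finset.prod_ite_eq' , Finset.prod_ite_eq', if_pos (Finset.mem_univ _),
    if_pos (Finset.mem_univ _), hμ, e1]
  simp only [d1_N, MonoidHom.coe_mk, OneHom.coe_mk]
  rw [e2, mul_zpow, zpow_add, zpow_one]
  generalize (∏ l, d1_D k n i hi l g ^ μ l) = A
  generalize dgB k n ⟨i, by omega⟩ h ^ μ ⟨i + 1, hi⟩ = B
  generalize dgB k n ⟨i + 1, hi⟩ h ^ μ ⟨i + 1, hi⟩ = D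
  generalize dgB k n ⟨i, by omega⟩ h = E
  apply Units.ext
  simp only [Units.val_mul]
  ring

end D1

theorem p_D1 (hP13 : S_P13) (hP14 : S_P14) (hC3 : S_C3) (hR8 : S_R8) (hR9 : S_R9) : S_D1 := by
  intro k _ _ n i hi μ hμ
  obtain ⟨C, hC, hχ⟩ := hC3 k n i hi
  have _ : RG k (SpG k n) := (hR9 k n).1
  have _ : RG k (Pm k n i) := (hR8 k k (SpG k n)).2.2.1 _
  have _ : RG k (Bo k n) := (hR8 k k (SpG k n)).2.2.1 _
  have hrat : IsRat (d1_nu k n i hi μ) := by
    intro m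
    refine Submodule.subset_span ⟨fun g => ((d1_N k n i hi μ g : kˣ) : k),
      d1_N_reg hR9 hi μ, m, rfl⟩
  have key : twR C (d1_nu k n i hi μ) = chR k μ := by
    refine MonoidHom.ext fun h => LinearMap.ext fun x => ?_
    have h1 := d1_key hi μ hμ h (C.inc h) (by rw [hC]; rfl) (C.χ h) (hχ h)
    rw [chR_apply, ← h1]
    show (C.χ h : k) • (((d1_N k n i hi μ (C.inc h) : kˣ) : k) • x) = _
    rw [smul_smul, smul_eq_mul, Units.val_mul]
  have a1 := hP13 k _ _ _ C k (d1_nu k n i hi μ) hrat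
  have a2 := hP14 k _ _ _ C k (d1_nu k n i hi μ) hrat (by simp)
  rw [key] at a1 a2
  exact ⟨a1.1, a1.2, a2⟩

end Pool.Agent.Sp49
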