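import Pool.Agent.Lib.MP_49c83e_al.StmC

namespace Pool.Agent.Sp49

open scoped BigOperators

section

variable {k : Type} [Field k] {m : ℕ}

private theorem d2_diag (b c : Tw k (m + 1) m) (i : Fin (m + 1)) (hi : (i : ℕ) < m) :
    ent ((b * c : Tw k (m + 1) m) : SpG k (m + 1)) (Sum.inl i) (Sum.inl i) =
      ent (b : SpG k (m + 1)) (Sum.inl i) (Sum.inl i) *
        ent (c : SpG k (m + 1)) (Sum.inl i) (Sum.inl i) := by
  rw [Subgroup.coe_mul, ent_mul, Finset.sum_eq_single (Sum.inl i)]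
  · intro z _ hz
    by_contra hne
    obtain ⟨l, hl, rfl⟩ := c.2.1 i hi i le_rfl z (right_ne_zero_of_mul hne)
    obtain ⟨l2, hl2, h2⟩ := b.2.1 l (lt_of_le_of_lt (Fin.le_def.mp hl) hi) l le_rfl (Sum.inl i)
      (left_ne_zero_of_mul hne)
    have h3 : i = l2 := Sum.inl_injective h2
    subst h3
    exact hz (by rw [le_antisymm hl hl2])
  · intro h
    exact absurd (Finset.mem_univ _) h

/-- diagonal entries as characters -/
private def d2_dg (i : Fin (m + 1)) (hi : (i : ℕ) < m) : Tw k (m + 1) m →* kˣ where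
  toFun b :=
    { val := ent (b : SpG k (m + 1)) (Sum.inl i) (Sum.inl i)
      inv := ent ((b⁻¹ : Tw k (m + 1) m) : SpG k (m + 1)) (Sum.inl i) (Sum.inl i)
      val_inv := by
        rw [← d2_diag _ _ i hi, mul_inv_cancel]
        simp [ent_one]
      inv_val := by
        rw [← d2_diag _ _ i hi, inv_mul_cancel]
        simp [ent_one] }
  map_one' := by
    ext
    simp [ent_one]
  map_mul' a b := by
    ext
    exact d2_diag a b i hi

/-- the character nu -/
private def d2_nu (μ : Fin (m + 1) → ℤ) : Tw k (m + 1) m →* kˣ :=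
  ∏ i : Fin m, (d2_dg i.castSucc i.isLt) ^ (μ i.castSucc)

/-- the representation nu -/
private def d2_rep (μ : Fin (m + 1) → ℤ) : Representation k (Tw k (m + 1) m) k where
  toFun b := ((d2_nu μ b : kˣ) : k) • LinearMap.id
  map_one' := by
    ext
    simp
  map_mul' a b := by
    ext
    simp only [map_mul, Units.val_mul, Module.End.mul_apply,
      LinearMap.smul_apply, LinearMap.id_coe, id_eq, smul_eq_mul, mul_one]

private theorem d2_dg_reg (hR9 : S_R9) (i : Fin (m + 1)) (hi : (i : ℕ) < m) (z : ℤ) :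
    (fun g : Tw k (m + 1) m => (((d2_dg (k := k) i hi g) ^ z : kˣ) : k)) ∈
      regA k (Tw k (m + 1) m) := by
  obtain ⟨hRG, hent, _⟩ := hR9 k (m + 1)
  have h1 : (fun g : Tw k (m + 1) m => ((d2_dg (k := k) i hi g : kˣ) : k)) ∈
      regA k (Tw k (m + 1) m) := ⟨_, hent (Sum.inl i) (Sum.inl i), rfl⟩
  have h2 : (fun g : Tw k (m + 1) m => (((d2_dg (k := k) i hi g)⁻¹ : kˣ) : k)) ∈
      regA k (Tw k (m + 1) m) :=
    ⟨_, hRG.inv_reg _ (hent (Sum.inl i) (Sum.inl i)), rfl⟩
  obtain ⟨n, rfl | rfl⟩ := Int.eq_nat_or_neg z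
  · have h := Subalgebra.pow_mem _ h1 n
    convert h using 1
    funext s
    simp
  · have h := Subalgebra.pow_mem _ h2 n
    convert h using 1
    funext s
    simp

private theorem d2_rat (hR3 : S_R3) (hR9 : S_R9) (μ : Fin (m + 1) → ℤ) :
    IsRat (d2_rep (k := k) μ) := by
  intro x
  obtain ⟨_, _, h3, _, h5, _⟩ := hR3 k (Tw k (m + 1) m) (Tw k (m + 1) m) k k
  have h : (fun g : Tw k (m + 1) m => ((d2_nu (k := k) μ g : kˣ) : k)) ∈
      regA k (Tw k (m + 1) m) := by
    have hp := Subalgebra.prod_mem (regA k (Tw k (m + 1) m)) (t := Finset.univ)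
      (f := fun i : Fin m => fun g : Tw k (m + 1) m =>
        (((d2_dg (k := k) i.castSucc i.isLt g) ^ (μ i.castSucc) : kˣ) : k))
      (fun i _ => d2_dg_reg hR9 i.castSucc i.isLt (μ i.castSucc))
    convert hp using 1
    funext g
    rw [d2_nu, MonoidHom.finsetProd_apply, Units.coe_prod, Finset.prod_apply]
    rfl
  exact h3 _ (fun _ => x) h (h5 x)

private theorem d2_card : Fintype.card {x : Fin (m + 1) ⊕ Fin (m + 1) // m ≤ num x} = 2 := by
  have h := Fintype.card_of_subtype (p := fun x : Fin (m + 1) ⊕ Fin (m + 1) => m ≤ num x)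
    {Sum.inl (Fin.last m), Sum.inr (Fin.last m)} (by
      intro x
      rcases x with x | x
      · simp only [Finset.mem_insert, Finset.mem_singleton, num, Sum.elim_inl, Sum.inl.injEq,
          reduceCtorEq, or_false]
        constructor
        · rintro rfl; simp
        · intro h; exact Fin.ext (by have := x.isLt; simp; omega)
      · simp only [Finset.mem_insert, Finset.mem_singleton, num, Sum.elim_inr, Sum.inr.injEq,
          reduceCtorEq, false_or]
        constructor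
        · rintro rfl; simp
        · intro h; exact Fin.ext (by have := x.isLt; simp; omega))
  rw [Finset.card_pair (by simp)] at h
  convert h

private theorem d2_main [Infinite k] (hP13 : S_P13) (hP14 : S_P14) (hR3 : S_R3) (hR8 : S_R8)
    (hR9 : S_R9) (H : Subgroup (SpG k (m + 1))) (hH : H = Bo k (m + 1))
    (hle : H ≤ Tw k (m + 1) m)
    (C : Chart k (Tw k (m + 1) m) H {x : Fin (m + 1) ⊕ Fin (m + 1) // m ≤ num x})
    (hinc : C.inc = Subgroup.inclusion hle)
    (hχ : ∀ h, (C.χ h : k) = ent (h : SpG k (m + 1)) (Sum.inl ⟨m, Nat.lt_succ_self m⟩)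
      (Sum.inl ⟨m, Nat.lt_succ_self m⟩))
    (μ : Fin (m + 1) → ℤ) (hμ : μ (Fin.last m) = 1) :
    Z0 (chR k μ) = ⊥ ∧ Zc1 (chR k μ) ≤ Bc1 (chR k μ) ∧ Zc2 (chR k μ) ≤ Bc2 (chR k μ) := by
  subst hH
  have hG : RG k (SpG k (m + 1)) := (hR9 k (m + 1)).1
  have h1 : RG k (Tw k (m + 1) m) := (hR8 k (SpG k (m + 1)) (SpG k (m + 1))).2.2.1 _
  have h2 : RG k (Bo k (m + 1)) := (hR8 k (SpG k (m + 1)) (SpG k (m + 1))).2.2.1 _
  have hrat := d2_rat (k := k) hR3 hR9 μ
  have key : twR C (d2_rep μ) = chR k μ := by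
    refine MonoidHom.ext (fun h => ?_)
    have e : (C.χ h : k) * ((d2_nu μ (C.inc h) : kˣ) : k) = ((chB k μ h : kˣ) : k) := by
      rw [chB, Fin.prod_univ_castSucc, hμ, zpow_one, Units.val_mul, mul_comm]
      congr 1
      · rw [hinc, d2_nu, MonoidHom.finsetProd_apply]
        congr 1
      · rw [hχ]; rfl
    refine LinearMap.ext (fun x => ?_)
    change (C.χ h : k) • (((d2_nu μ (C.inc h) : kˣ) : k) • x) = ((chB k μ h : kˣ) : k) • x
    rw [smul_smul, e]
  have r1 := hP13 k (Tw k (m + 1) m) (Bo k (m + 1)) _ C k (d2_rep μ) hrat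
  have r2 := hP14 k (Tw k (m + 1) m) (Bo k (m + 1)) _ C k (d2_rep μ) hrat d2_card
  rw [key] at r1 r2
  exact ⟨r1.1, r1.2, r2⟩

end

theorem p_D2 (hP13 : S_P13) (hP14 : S_P14) (hC0 : S_C0) (hC2 : S_C2) (hR3 : S_R3)
    (hR8 : S_R8) (hR9 : S_R9) : S_D2 := by
  intro k _ _ n hn μ hμ
  obtain ⟨m, rfl⟩ : ∃ m, n = m + 1 := ⟨n - 1, by omega⟩
  obtain ⟨C, hinc, hχ⟩ := hC2 k (m + 1) m (Nat.lt_succ_self m)
  exact d2_main hP13 hP14 hR3 hR8 hR9 (Tw k (m + 1) (m + 1)) (hC0 k (m + 1)).2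
    (Tw_le k (m + 1) m) C hinc hχ μ hμ

end Pool.Agent.Sp49
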