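import Pool.Agent.Lib.MP_49c83e_al.StmC

namespace Pool.Agent.Sp49

open scoped BigOperators

section Abs

variable {k : Type} [Field k] {P : Type} [Group P] [RS k P]

private theorem d3_key (hR3 : S_R3) (A B : Representation k P k)
    (R : Representation k P (Fin 2 → k)) (β : P → k) (hR : IsRat R)
    (h0 : ∀ h v, R h v 0 = A h (v 0) + β h * v 1) (h1 : ∀ h v, R h v 1 = B h (v 1))
    (g : P × P → k) (Ψ : P → Fin 2 → k) (hΨ : Ψ ∈ RM k P (Fin 2 → k))
    (hd : ∀ q, d1 R Ψ q 0 = g q) (z : k) (hz : ∀ h, Ψ h 1 = B h z - z) : g ∈ Bc2 A := by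
  obtain ⟨_, r2, _, _, r5, _⟩ := hR3 k P P (Fin 2 → k) k
  set m : Fin 2 → k := Pi.single 1 z with hm
  set Ψ' : P → Fin 2 → k := fun h => Ψ h - (R h m - m) with hΨ'
  have hΨ'R : Ψ' ∈ RM k P (Fin 2 → k) := by
    have e : Ψ' = Ψ - ((fun h => R h m) - fun _ => m) := by
      funext h; rfl
    rw [e]
    exact Submodule.sub_mem _ hΨ (Submodule.sub_mem _ (hR m) (r5 m))
  have hΨ'1 : ∀ h, Ψ' h 1 = 0 := by
    intro h
    simp only [hΨ', Pi.sub_apply]
    rw [h1, hz h]
    simp [hm]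
  have hd' : ∀ q, d1 R Ψ' q = d1 R Ψ q := by
    intro q
    simp only [d1, LinearMap.coe_mk, AddHom.coe_mk, hΨ', map_sub, map_mul, Module.End.mul_apply]
    abel
  refine ⟨fun h => Ψ' h 0, r2 (LinearMap.proj 0) Ψ' hΨ'R, ?_⟩
  funext q
  rw [← hd q, ← hd' q]
  simp only [d1, LinearMap.coe_mk, AddHom.coe_mk, Pi.add_apply, Pi.sub_apply]
  rw [h0, hΨ'1]
  ring

private theorem d3_lift (hR3 : S_R3) (A B : Representation k P k)
    (R : Representation k P (Fin 2 → k)) (β : P → k)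
    (h0 : ∀ h v, R h v 0 = A h (v 0) + β h * v 1) (h1 : ∀ h v, R h v 1 = B h (v 1))
    (z2 : Zc2 R ≤ Bc2 R) (f : P × P → k) (hf : f ∈ Zc2 A) :
    ∃ Ψ ∈ RM k P (Fin 2 → k), (∀ q, d1 R Ψ q 0 = f q) ∧ (fun h => Ψ h 1) ∈ Zc1 B := by
  obtain ⟨_, r2, _, _, r5, _⟩ := hR3 k P P (Fin 2 → k) k
  obtain ⟨_, s2, _, _, _, _⟩ := hR3 k (P × P) P k (Fin 2 → k)
  have hmem : (fun q => (Pi.single 0 (f q) : Fin 2 → k)) ∈ Zc2 R := by
    obtain ⟨hf1, hf2⟩ := Submodule.mem_inf.mp hf
    refine Submodule.mem_inf.mpr ⟨s2 (LinearMap.single k (fun _ => k) 0) f hf1, ?_⟩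
    have hk := hf2
    rw [LinearMap.mem_ker] at hk ⊢
    funext q
    have hkq := congrFun hk q
    simp only [d2, LinearMap.coe_mk, AddHom.coe_mk, Pi.zero_apply] at hkq ⊢
    funext j
    fin_cases j
    · simp only [Fin.zero_eta, Fin.isValue, Pi.add_apply, Pi.sub_apply, Pi.zero_apply]
      rw [h0]
      simpa using hkq
    · simp only [Fin.mk_one, Fin.isValue, Pi.add_apply, Pi.sub_apply, Pi.zero_apply]
      rw [h1]
      simp
  obtain ⟨Ψ, hΨ, hd⟩ := z2 hmem
  have hdq : ∀ q, d1 R Ψ q = (Pi.single 0 (f q) : Fin 2 → k) := fun q => congrFun hd q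
  refine ⟨Ψ, hΨ, fun q => by rw [hdq q]; simp,
    Submodule.mem_inf.mpr ⟨r2 (LinearMap.proj 1) Ψ hΨ, ?_⟩⟩
  rw [LinearMap.mem_ker]
  funext q
  have h := congrFun (hdq q) 1
  simp only [d1, LinearMap.coe_mk, AddHom.coe_mk, Pi.add_apply, Pi.sub_apply, h1] at h
  simp only [d1, LinearMap.coe_mk, AddHom.coe_mk, Pi.zero_apply]
  rw [h]
  simp

private theorem d3_abs (hR3 : S_R3) (A B : Representation k P k)
    (R : Representation k P (Fin 2 → k)) (β : P → k) (hR : IsRat R)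
    (h0 : ∀ h v, R h v 0 = A h (v 0) + β h * v 1) (h1 : ∀ h v, R h v 1 = B h (v 1))
    (z1 : Zc1 R ≤ Bc1 R) (z2 : Zc2 R ≤ Bc2 R) :
    (Le1 (Zc1 B) (Bc1 B) → Le1 (Zc2 A) (Bc2 A)) ∧ (Zc1 B ≤ Bc1 B → Zc2 A ≤ Bc2 A) ∧
    Le1 (Zc1 A) (Bc1 A) ∧ ((∀ y : k, (∀ h, B h y = y) → y = 0) → Zc1 A ≤ Bc1 A) := by
  obtain ⟨_, s2, _, _, _, _⟩ := hR3 k P P k (Fin 2 → k)
  have hone : ∀ c ∈ Zc1 A, ∃ m : Fin 2 → k, (∀ h, c h = A h (m 0) - m 0 + β h * m 1) ∧
      ∀ h, B h (m 1) = m 1 := by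
    intro c hc
    have hmem : (fun q => (Pi.single 0 (c q) : Fin 2 → k)) ∈ Zc1 R := by
      obtain ⟨hc1, hc2⟩ := Submodule.mem_inf.mp hc
      refine Submodule.mem_inf.mpr ⟨s2 (LinearMap.single k (fun _ => k) 0) c hc1, ?_⟩
      have hk := hc2
      rw [LinearMap.mem_ker] at hk ⊢
      funext q
      have hkq := congrFun hk q
      simp only [d1, LinearMap.coe_mk, AddHom.coe_mk, Pi.zero_apply] at hkq ⊢
      funext j
      fin_cases j
      · simp only [Fin.zero_eta, Fin.isValue, Pi.add_apply, Pi.sub_apply, Pi.zero_apply]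
        rw [h0]
        simpa using hkq
      · simp only [Fin.mk_one, Fin.isValue, Pi.add_apply, Pi.sub_apply, Pi.zero_apply]
        rw [h1]
        simp
    obtain ⟨m, hm⟩ := z1 hmem
    refine ⟨m, fun h => ?_, fun h => ?_⟩
    · have e := congrFun (congrFun hm h) 0
      simp only [d0, LinearMap.coe_mk, AddHom.coe_mk, Pi.sub_apply, Pi.single_eq_same, h0] at e
      rw [← e]
      ring
    · have e := congrFun (congrFun hm h) 1
      simp only [d0, LinearMap.coe_mk, AddHom.coe_mk, Pi.sub_apply, h1] at e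
      have e2 : (Pi.single 0 (c h) : Fin 2 → k) 1 = 0 := by simp
      rw [e2] at e
      exact sub_eq_zero.mp e
  refine ⟨?_, ?_, ?_, ?_⟩
  · intro hL f hf f' hf'
    obtain ⟨Ψ, hΨ, hd, hz⟩ := d3_lift hR3 A B R β h0 h1 z2 f hf
    obtain ⟨Ψ', hΨ', hd', hz'⟩ := d3_lift hR3 A B R β h0 h1 z2 f' hf'
    obtain ⟨c, c', hcc, hb⟩ := hL _ hz _ hz'
    refine ⟨c, c', hcc, ?_⟩
    obtain ⟨z, hz⟩ := hb
    refine d3_key hR3 A B R β hR h0 h1 _ (c • Ψ + c' • Ψ')
      (Submodule.add_mem _ (Submodule.smul_mem _ _ hΨ) (Submodule.smul_mem _ _ hΨ')) ?_ z ?_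
    · intro q
      rw [map_add, map_smul, map_smul]
      simp only [Pi.add_apply, Pi.smul_apply, smul_eq_mul, hd, hd']
    · intro h
      have e := congrFun hz h
      simp only [d0, LinearMap.coe_mk, AddHom.coe_mk, Pi.add_apply, Pi.smul_apply] at e
      simp only [Pi.add_apply, Pi.smul_apply]
      exact e.symm
  · intro hL f hf
    obtain ⟨Ψ, hΨ, hd, hz⟩ := d3_lift hR3 A B R β h0 h1 z2 f hf
    obtain ⟨z, hz⟩ := hL hz
    refine d3_key hR3 A B R β hR h0 h1 _ Ψ hΨ hd z ?_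
    intro h
    have e := congrFun hz h
    simp only [d0, LinearMap.coe_mk, AddHom.coe_mk] at e
    exact e.symm
  · intro c hc c' hc'
    obtain ⟨m, hm, _⟩ := hone c hc
    obtain ⟨m', hm', _⟩ := hone c' hc'
    have hfin : ∀ x y : k, x * m 1 + y * m' 1 = 0 → x • c + y • c' ∈ Bc1 A := by
      intro x y hxy
      refine ⟨x * m 0 + y * m' 0, ?_⟩
      funext h
      simp only [d0, LinearMap.coe_mk, AddHom.coe_mk, Pi.add_apply, Pi.smul_apply, smul_eq_mul,
        hm h, hm' h, map_add]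
      have e1 : A h (x * m 0) = x * A h (m 0) := by
        rw [← smul_eq_mul, map_smul, smul_eq_mul]
      have e2 : A h (y * m' 0) = y * A h (m' 0) := by
        rw [← smul_eq_mul, map_smul, smul_eq_mul]
      rw [e1, e2]
      linear_combination -(β h) * hxy
    by_cases hq : m 1 = 0 ∧ m' 1 = 0
    · exact ⟨1, 0, Or.inl one_ne_zero, hfin 1 0 (by simp [hq.1])⟩
    · refine ⟨m' 1, -(m 1), ?_, hfin _ _ (by ring)⟩
      by_contra hne
      push Not at hne
      exact hq ⟨neg_eq_zero.mp hne.2, hne.1⟩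
  · intro hinv c hc
    obtain ⟨m, hm, hm1⟩ := hone c hc
    have e := hinv _ hm1
    refine ⟨m 0, ?_⟩
    funext h
    rw [hm h, e]
    simp [d0]

end Abs

section Conc

variable {k : Type} [Field k] {n i : ℕ}

/-- the characters with regular values form a subgroup -/
private def d3_H (k : Type) [Field k] (Γ : Type) [Group Γ] [RS k Γ] [hG : RG k Γ] :
    Subgroup (Γ →* kˣ) where
  carrier := {φ | (fun g => (φ g : k)) ∈ regA k Γ}
  mul_mem' := by
    intro a b ha hb
    exact Subalgebra.mul_mem _ ha hb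
  one_mem' := Subalgebra.one_mem _
  inv_mem' := by
    intro a ha
    have h := hG.inv_reg _ ha
    have e : (fun g : Γ => ((a⁻¹ g : kˣ) : k)) = fun g => (a g⁻¹ : k) := by
      funext g
      rw [MonoidHom.inv_apply, map_inv]
    change (fun g : Γ => ((a⁻¹ g : kˣ) : k)) ∈ regA k Γ
    rw [e]
    exact h

private def d3_idx (hi : i + 1 < n) (a : Fin 2) : Fin n := ⟨i + a, by omega⟩

private theorem d3_blk (hi : i + 1 < n) (g h : SpG k n) (hg : g ∈ Pm k n i) (hh : h ∈ Pm k n i)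
    (a b : Fin 2) :
    ent (g * h) (Sum.inl (d3_idx hi a)) (Sum.inl (d3_idx hi b)) =
      ∑ c : Fin 2, ent g (Sum.inl (d3_idx hi a)) (Sum.inl (d3_idx hi c)) *
        ent h (Sum.inl (d3_idx hi c)) (Sum.inl (d3_idx hi b)) := by
  rw [ent_mul, Fin.sum_univ_two]
  refine Finset.sum_eq_add (Sum.inl (d3_idx hi 0)) (Sum.inl (d3_idx hi 1)) ?_ ?_ ?_ ?_
  · intro h
    have := congrArg Fin.val (Sum.inl_injective h)
    simp [d3_idx] at this
  · rintro z _ ⟨hz0, hz1⟩
    by_contra hne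
    obtain ⟨l, hl, rfl⟩ := hh.1 (d3_idx hi 1) (by simp [d3_idx]) (d3_idx hi b)
      (by
        have := b.2
        change i + (b : ℕ) ≤ i + ((1 : Fin 2) : ℕ)
        have h1 : ((1 : Fin 2) : ℕ) = 1 := rfl
        omega) z (right_ne_zero_of_mul hne)
    have hl' : (l : ℕ) ≤ i + 1 := hl
    have h0' : (l : ℕ) ≠ i := by
      intro e
      exact hz0 (congrArg Sum.inl (Fin.ext (by simpa [d3_idx] using e)))
    have h1' : (l : ℕ) ≠ i + 1 := by
      intro e
      exact hz1 (congrArg Sum.inl (Fin.ext (by simpa [d3_idx] using e)))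
    obtain ⟨l2, hl2, h2⟩ := hg.1 ⟨i - 1, by omega⟩ (by
        change i - 1 ≠ i
        omega) l (by
        change (l : ℕ) ≤ i - 1
        omega) (Sum.inl (d3_idx hi a)) (left_ne_zero_of_mul hne)
    have h3 := congrArg Fin.val (Sum.inl_injective h2)
    have h4 : (l2 : ℕ) ≤ i - 1 := hl2
    have h5 : i + (a : ℕ) = l2 := h3
    omega
  · intro h
    exact absurd (Finset.mem_univ _) h
  · intro h
    exact absurd (Finset.mem_univ _) h

private theorem d3_dgm (g h : SpG k n) (hg : g ∈ Pm k n i) (hh : h ∈ Pm k n i)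
    (l : Fin n) (h1 : (l : ℕ) ≠ i) (h2 : (l : ℕ) ≠ i + 1) :
    ent (g * h) (Sum.inl l) (Sum.inl l) =
      ent g (Sum.inl l) (Sum.inl l) * ent h (Sum.inl l) (Sum.inl l) := by
  rw [ent_mul]
  refine Finset.sum_eq_single (Sum.inl l) ?_ ?_
  · intro z _ hz
    by_contra hne
    obtain ⟨l', hl', rfl⟩ := hh.1 l h1 l le_rfl z (right_ne_zero_of_mul hne)
    have hlt : (l' : ℕ) < l := by
      have h3 : (l' : ℕ) ≤ l := hl'
      have h4 : (l' : ℕ) ≠ l := by
        intro e
        exact hz (congrArg Sum.inl (Fin.ext e))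
      omega
    obtain ⟨l2, hl2, h5⟩ := hg.1 ⟨(l : ℕ) - 1, by omega⟩ (by
        change (l : ℕ) - 1 ≠ i
        omega) l' (by
        change (l' : ℕ) ≤ (l : ℕ) - 1
        omega) (Sum.inl l) (left_ne_zero_of_mul hne)
    have h6 := congrArg Fin.val (Sum.inl_injective h5)
    have h7 : (l2 : ℕ) ≤ (l : ℕ) - 1 := hl2
    omega
  · intro h
    exact absurd (Finset.mem_univ _) h

/-- the block at i, i+1 -/
private def d3_E (k : Type) [Field k] (hi : i + 1 < n) : Pm k n i →* Matrix (Fin 2) (Fin 2) k where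
  toFun g := Matrix.of fun a b => ent (g : SpG k n) (Sum.inl (d3_idx hi a)) (Sum.inl (d3_idx hi b))
  map_one' := by
    ext a b
    simp only [Matrix.of_apply, Subgroup.coe_one, ent_one, Matrix.one_apply]
    by_cases hab : a = b
    · simp [hab]
    · rw [if_neg hab, if_neg]
      intro h
      have := congrArg Fin.val (Sum.inl_injective h)
      simp only [d3_idx, Nat.add_left_cancel_iff] at this
      exact hab (Fin.ext this)
  map_mul' g h := by
    ext a b
    simp only [Matrix.of_apply, Subgroup.coe_mul, Matrix.mul_apply]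
    exact d3_blk hi _ _ g.2 h.2 a b

/-- the diagonal entries outside i, i+1 -/
private def d3_D (k : Type) [Field k] (n i : ℕ) (l : Fin n) : Pm k n i →* k where
  toFun g := if (l : ℕ) = i ∨ (l : ℕ) = i + 1 then 1 else ent (g : SpG k n) (Sum.inl l) (Sum.inl l)
  map_one' := by
    split_ifs with h
    · rfl
    · simp [ent_one]
  map_mul' g h := by
    split_ifs with hc
    · simp
    · push Not at hc
      exact d3_dgm _ _ g.2 h.2 l hc.1 hc.2

private def d3_nu (k : Type) [Field k] (hi : i + 1 < n) (μ : Fin n → ℤ) : Pm k n i →* kˣ :=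
  (∏ l, ((d3_D k n i l).toHomUnits) ^ (μ l)) *
    ((Matrix.detMonoidHom.comp (d3_E k hi)).toHomUnits)⁻¹

private def d3_rho (k : Type) [Field k] (hi : i + 1 < n) (μ : Fin n → ℤ) :
    Representation k (Pm k n i) (Fin 2 → k) where
  toFun g := (d3_nu k hi μ g : k) • Matrix.toLin' (d3_E k hi g)
  map_one' := by
    simp
    rfl
  map_mul' a b := by
    rw [map_mul, map_mul, Matrix.toLin'_mul, Units.val_mul]
    ext v j
    simp only [LinearMap.smul_apply, Module.End.mul_apply, LinearMap.comp_apply, map_smul,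
      mul_smul]
    rw [smul_comm]

private theorem d3_ent_reg (x y : Fin n ⊕ Fin n) (H : Subgroup (SpG k n)) :
    (fun g : H => ent (g : SpG k n) x y) ∈ regA k H :=
  ⟨fun g => ent g x y, Algebra.subset_adjoin ⟨x, y, rfl⟩, rfl⟩

private theorem d3_E_reg (hi : i + 1 < n) (a b : Fin 2) :
    (fun g : Pm k n i => d3_E k hi g a b) ∈ regA k (Pm k n i) :=
  d3_ent_reg _ _ _

private theorem d3_nu_reg (hi : i + 1 < n) (μ : Fin n → ℤ) [RG k (Pm k n i)] :
    (fun g : Pm k n i => (d3_nu k hi μ g : k)) ∈ regA k (Pm k n i) := by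
  have h : d3_nu k hi μ ∈ d3_H k (Pm k n i) := by
    unfold d3_nu
    refine Subgroup.mul_mem _ (Subgroup.prod_mem _ (fun l _ => Subgroup.zpow_mem _ ?_ _))
      (Subgroup.inv_mem _ ?_)
    · change (fun g : Pm k n i => (((d3_D k n i l).toHomUnits g : kˣ) : k)) ∈ regA k (Pm k n i)
      simp only [MonoidHom.coe_toHomUnits]
      by_cases hc : (l : ℕ) = i ∨ (l : ℕ) = i + 1
      · have e : (fun g : Pm k n i => d3_D k n i l g) = 1 := by
          funext g
          change (if _ then _ else _) = _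
          rw [if_pos hc]
          rfl
        rw [e]
        exact Subalgebra.one_mem _
      · have e : (fun g : Pm k n i => d3_D k n i l g) =
            fun g : Pm k n i => ent (g : SpG k n) (Sum.inl l) (Sum.inl l) := by
          funext g
          change (if _ then _ else _) = _
          rw [if_neg hc]
        rw [e]
        exact d3_ent_reg _ _ _
    · change (fun g : Pm k n i => (((Matrix.detMonoidHom.comp (d3_E k hi)).toHomUnits g : kˣ) : k))
        ∈ regA k (Pm k n i)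
      simp only [MonoidHom.coe_toHomUnits, MonoidHom.comp_apply, Matrix.coe_detMonoidHom,
        Matrix.det_fin_two]
      exact Subalgebra.sub_mem _ (Subalgebra.mul_mem _ (d3_E_reg hi 0 0) (d3_E_reg hi 1 1))
        (Subalgebra.mul_mem _ (d3_E_reg hi 0 1) (d3_E_reg hi 1 0))
  exact h

private theorem d3_rat (hi : i + 1 < n) (μ : Fin n → ℤ) [RG k (Pm k n i)] :
    IsRat (d3_rho k hi μ) := by
  intro m
  have e : (fun g => d3_rho k hi μ g m) = ∑ a : Fin 2, ∑ b : Fin 2, fun g : Pm k n i =>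
      ((d3_nu k hi μ g : k) * d3_E k hi g a b) • (Pi.single a (m b) : Fin 2 → k) := by
    funext g
    funext j
    simp only [d3_rho, MonoidHom.coe_mk, OneHom.coe_mk, LinearMap.smul_apply, Matrix.toLin'_apply,
      Fin.sum_univ_two, Finset.sum_apply, Pi.add_apply, Pi.smul_apply, smul_eq_mul]
    fin_cases j
    · simp [Matrix.mulVec, dotProduct, Fin.sum_univ_two]
      ring
    · simp [Matrix.mulVec, dotProduct, Fin.sum_univ_two]
      ring
  rw [e]
  refine Submodule.sum_mem _ (fun a _ => Submodule.sum_mem _ (fun b _ => ?_))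
  exact Submodule.subset_span ⟨_, Subalgebra.mul_mem _ (d3_nu_reg hi μ) (d3_E_reg hi a b), _, rfl⟩

private theorem d3_prod {G : Type} [CommGroup G] (f : Fin n → G) (hi : i + 1 < n) :
    ∏ l, f l = (∏ l : Fin n, if (l : ℕ) = i ∨ (l : ℕ) = i + 1 then 1 else f l) *
      f (d3_idx hi 0) * f (d3_idx hi 1) := by
  have e0 : ∏ l : Fin n, (if l = d3_idx hi 0 then f (d3_idx hi 0) else 1) = f (d3_idx hi 0) := by
    rw [Finset.prod_ite_eq' Finset.univ (d3_idx hi 0) (fun _ => f (d3_idx hi 0))]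
    simp
  have e1 : ∏ l : Fin n, (if l = d3_idx hi 1 then f (d3_idx hi 1) else 1) = f (d3_idx hi 1) := by
    rw [Finset.prod_ite_eq' Finset.univ (d3_idx hi 1) (fun _ => f (d3_idx hi 1))]
    simp
  rw [← e0, ← e1, ← Finset.prod_mul_distrib, ← Finset.prod_mul_distrib]
  refine Finset.prod_congr rfl (fun l _ => ?_)
  have k0 : ((d3_idx hi 0 : Fin n) : ℕ) = i := rfl
  have k1 : ((d3_idx hi 1 : Fin n) : ℕ) = i + 1 := rfl
  by_cases h0 : l = d3_idx hi 0
  · have h1 : l ≠ d3_idx hi 1 := by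
      intro h
      rw [h0] at h
      have := congrArg Fin.val h
      omega
    have h2 : (l : ℕ) = i := by rw [h0, k0]
    rw [if_pos (Or.inl h2), if_pos h0, if_neg h1, one_mul, mul_one, h0]
  · by_cases h1 : l = d3_idx hi 1
    · have h2 : (l : ℕ) = i + 1 := by rw [h1, k1]
      rw [if_pos (Or.inr h2), if_neg h0, if_pos h1, one_mul, one_mul, h1]
    · have h2 : ¬ ((l : ℕ) = i ∨ (l : ℕ) = i + 1) := by
        rintro (h | h)
        · exact h0 (Fin.ext (by rw [k0]; exact h))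
        · exact h1 (Fin.ext (by rw [k1]; exact h))
      rw [if_neg h2, if_neg h0, if_neg h1, mul_one, mul_one]

private theorem d3_nu_Bo (hi : i + 1 < n) (μ : Fin n → ℤ) (h : Bo k n)
    (hE : d3_E k hi (Subgroup.inclusion (Bo_le k n _) h) 1 0 = 0) :
    d3_nu k hi μ (Subgroup.inclusion (Bo_le k n _) h) =
      (∏ l : Fin n, if (l : ℕ) = i ∨ (l : ℕ) = i + 1 then 1 else (dgB k n l h) ^ (μ l)) *
        (dgB k n (d3_idx hi 0) h * dgB k n (d3_idx hi 1) h)⁻¹ := by
  unfold d3_nu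
  rw [MonoidHom.mul_apply, MonoidHom.finsetProd_apply, MonoidHom.inv_apply]
  congr 1
  · refine Finset.prod_congr rfl (fun l _ => ?_)
    split_ifs with hc
    · have e : (d3_D k n i l).toHomUnits (Subgroup.inclusion (Bo_le k n _) h) = 1 := by
        ext
        rw [MonoidHom.coe_toHomUnits]
        change (if _ then _ else _) = _
        rw [if_pos hc]
        rfl
      change ((d3_D k n i l).toHomUnits (Subgroup.inclusion (Bo_le k n _) h)) ^ (μ l) = 1
      rw [e, one_zpow]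
    · have e : (d3_D k n i l).toHomUnits (Subgroup.inclusion (Bo_le k n _) h) = dgB k n l h := by
        ext
        rw [MonoidHom.coe_toHomUnits]
        change (if _ then _ else _) = _
        rw [if_neg hc]
        rfl
      change ((d3_D k n i l).toHomUnits (Subgroup.inclusion (Bo_le k n _) h)) ^ (μ l) = _
      rw [e]
  · congr 1
    ext
    rw [MonoidHom.coe_toHomUnits, MonoidHom.comp_apply, Matrix.coe_detMonoidHom,
      Matrix.det_fin_two, hE, mul_zero, sub_zero, Units.val_mul]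
    rfl

end Conc

theorem p_D3 (hR3 : S_R3) (hR8 : S_R8) (hR9 : S_R9) (hP13 : S_P13) (hP14 : S_P14) (hC3 : S_C3)
    (hD4 : S_D4) : S_D3 := by
  classical
  intro k _ _ n i hi μ μ' hμ0 hμ1 hμ'
  have rg0 : RG k (SpG k n) := (hR9 k n).1
  have rg1 : RG k (Pm k n i) := (hR8 k (SpG k n) (SpG k n)).2.2.1 _
  have rg2 : RG k (Bo k n) := (hR8 k (SpG k n) (SpG k n)).2.2.1 _
  obtain ⟨C, hinc, hχ⟩ := hC3 k n i hi
  have hrat := d3_rat (k := k) hi μ
  have h13 := hP13 k (Pm k n i) (Bo k n) (Fin 2) C (Fin 2 → k) (d3_rho k hi μ) hrat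
  have h14 := hP14 k (Pm k n i) (Bo k n) (Fin 2) C (Fin 2 → k) (d3_rho k hi μ) hrat
    (Fintype.card_fin 2)
  have hincr : IsReg k C.inc := fun f hf => (C.reg _).mpr ⟨f, hf, rfl⟩
  have hE : ∀ h : Bo k n, d3_E k hi (C.inc h) 1 0 = 0 := by
    intro h
    rw [hinc]
    change ent (h : SpG k n) (Sum.inl (d3_idx hi 1)) (Sum.inl (d3_idx hi 0)) = 0
    by_contra hne
    obtain ⟨l, hl, he⟩ := h.2.1 (d3_idx hi 0) (Set.mem_univ _) (d3_idx hi 0) le_rfl _ hne
    have h1 : i + 1 = (l : ℕ) := congrArg Fin.val (Sum.inl_injective he)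
    have h2 : (l : ℕ) ≤ i := hl
    omega
  have hχu : ∀ h : Bo k n, C.χ h = dgB k n (d3_idx hi 0) h := by
    intro h
    ext
    rw [hχ h]
    rfl
  have hE0 : ∀ h : Bo k n, d3_E k hi (C.inc h) 0 0 = (dgB k n (d3_idx hi 0) h : k) := by
    intro h
    rw [hinc]
    rfl
  have hE1 : ∀ h : Bo k n, d3_E k hi (C.inc h) 1 1 = (dgB k n (d3_idx hi 1) h : k) := by
    intro h
    rw [hinc]
    rfl
  have hnu : ∀ h : Bo k n, d3_nu k hi μ (C.inc h) =
      (∏ l : Fin n, if (l : ℕ) = i ∨ (l : ℕ) = i + 1 then 1 else (dgB k n l h) ^ (μ l)) *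
        (dgB k n (d3_idx hi 0) h * dgB k n (d3_idx hi 1) h)⁻¹ := by
    intro h
    have h1 := hE h
    rw [hinc] at h1 ⊢
    exact d3_nu_Bo hi μ h h1
  have hm0 : μ (d3_idx hi 0) = 1 := hμ0
  have hm1 : μ (d3_idx hi 1) = -1 := hμ1
  have hm0' : μ' (d3_idx hi 0) = 0 := by
    rw [hμ', hm0]
    simp [al, d3_idx]
  have hm1' : μ' (d3_idx hi 1) = 0 := by
    rw [hμ', hm1]
    simp [al, d3_idx]
  have hμμ : ∀ l : Fin n, ¬ ((l : ℕ) = i ∨ (l : ℕ) = i + 1) → μ' l = μ l := by
    intro l hl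
    push Not at hl
    rw [hμ']
    simp [al, hl.1, hl.2]
  have hch : ∀ h : Bo k n, chB k μ h =
      (∏ l : Fin n, if (l : ℕ) = i ∨ (l : ℕ) = i + 1 then 1 else (dgB k n l h) ^ (μ l)) *
        dgB k n (d3_idx hi 0) h * (dgB k n (d3_idx hi 1) h)⁻¹ := by
    intro h
    unfold chB
    rw [d3_prod (fun l => (dgB k n l h) ^ (μ l)) hi, hm0, hm1]
    simp
  have hch' : ∀ h : Bo k n, chB k μ' h =
      (∏ l : Fin n, if (l : ℕ) = i ∨ (l : ℕ) = i + 1 then 1 else (dgB k n l h) ^ (μ l)) := by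
    intro h
    unfold chB
    rw [d3_prod (fun l => (dgB k n l h) ^ (μ' l)) hi, hm0', hm1']
    simp only [zpow_zero, mul_one]
    refine Finset.prod_congr rfl (fun l _ => ?_)
    split_ifs with hc
    · rfl
    · rw [hμμ l hc]
  have happ : ∀ (h : Bo k n) (v : Fin 2 → k) (j : Fin 2), twR C (d3_rho k hi μ) h v j =
      (C.χ h : k) * ((d3_nu k hi μ (C.inc h) : k) * (d3_E k hi (C.inc h) j 0 * v 0 +
        d3_E k hi (C.inc h) j 1 * v 1)) := by
    intro h v j
    simp only [twR, d3_rho, MonoidHom.coe_mk, OneHom.coe_mk, LinearMap.smul_apply,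
      Matrix.toLin'_apply, Pi.smul_apply, smul_eq_mul, Matrix.mulVec, dotProduct,
      Fin.sum_univ_two]
  have hIR : IsRat (twR C (d3_rho k hi μ)) := by
    intro m
    have h1 := (hR3 k (Bo k n) (Pm k n i) (Fin 2 → k) k).1 C.inc _ hincr (hrat m)
    exact (hR3 k (Bo k n) (Pm k n i) (Fin 2 → k) k).2.2.1 _ _ C.χ_reg h1
  obtain ⟨c1, c2, c3, c4⟩ := d3_abs hR3 (chR k μ) (chR k μ') (twR C (d3_rho k hi μ))
    (fun h => (C.χ h : k) * ((d3_nu k hi μ (C.inc h) : k) * d3_E k hi (C.inc h) 0 1)) hIR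
    (by
      intro h v
      rw [happ, chR_apply, hch h, hE0 h, hnu h, hχu h]
      push_cast
      have e0 : ((dgB k n (d3_idx hi 0) h : kˣ) : k) ≠ 0 := Units.ne_zero _
      have e1 : ((dgB k n (d3_idx hi 1) h : kˣ) : k) ≠ 0 := Units.ne_zero _
      field_simp)
    (by
      intro h v
      rw [happ, chR_apply, hch' h, hE h, hE1 h, hnu h, hχu h]
      push_cast
      have e0 : ((dgB k n (d3_idx hi 0) h : kˣ) : k) ≠ 0 := Units.ne_zero _
      have e1 : ((dgB k n (d3_idx hi 1) h : kˣ) : k) ≠ 0 := Units.ne_zero _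
      field_simp
      ring)
    h13.2 h14
  refine ⟨c1, c2, c3, fun hne => c4 ?_⟩
  intro y hy
  by_contra hy0
  obtain ⟨l, hl⟩ : ∃ l, μ' l ≠ 0 := by
    by_contra hcon
    push Not at hcon
    exact hne (funext hcon)
  obtain ⟨s, hs⟩ : ∃ s : kˣ, s ^ (μ' l) ≠ 1 := by
    by_contra hcon
    push Not at hcon
    have hN : 0 < (μ' l).natAbs := Int.natAbs_pos.mpr hl
    have hall : ∀ s : kˣ, (s : k) ^ (μ' l).natAbs = 1 := by
      intro s
      have h1 : s ^ (μ' l).natAbs = 1 := by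
        rcases Int.natAbs_eq (μ' l) with h | h
        · have h2 := hcon s
          rw [h, zpow_natCast] at h2
          exact h2
        · have h2 := hcon s
          rw [h, zpow_neg, zpow_natCast, inv_eq_one] at h2
          exact h2
      have := congrArg (Units.val) h1
      simpa using this
    obtain ⟨x, hx⟩ := Infinite.exists_notMem_finset
      (insert (0 : k) (Polynomial.nthRoots (μ' l).natAbs (1 : k)).toFinset)
    rw [Finset.mem_insert] at hx
    push Not at hx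
    apply hx.2
    rw [Multiset.mem_toFinset, Polynomial.mem_nthRoots hN]
    exact hall (Units.mk0 x hx.1)
  obtain ⟨t1, _, _, _, _, _, _, _, t9⟩ := hD4 k n
  have h1 := hy ⟨tor (Pi.mulSingle l s), t1 _⟩
  rw [chR_apply] at h1
  have h2 : chB k μ' (⟨tor (Pi.mulSingle l s), t1 _⟩ : Bo k n) = s ^ (μ' l) := by
    unfold chB
    rw [Finset.prod_eq_single l]
    · rw [t9, Pi.mulSingle_eq_same]
    · intro j _ hj
      rw [t9, Pi.mulSingle_eq_of_ne hj, one_zpow]
    · intro h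
      exact absurd (Finset.mem_univ _) h
  rw [h2] at h1
  have h3 : ((s ^ (μ' l) : kˣ) : k) = 1 := mul_right_cancel₀ hy0 (by rw [h1, one_mul])
  exact hs (Units.ext h3)

end Pool.Agent.Sp49
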