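import Pool.Agent.Lib.MP_49c83e_al.StmC

/-!
MP_49c83e_al, piece D4: Bo = T U.
-/

namespace Pool.Agent.Sp49

open scoped BigOperators

private theorem d4_ent_ll {k : Type} [Field k] {n : ℕ} (t : Fin n → kˣ) (i j : Fin n) :
    ent (tor t) (Sum.inl i) (Sum.inl j) = if i = j then (t i : k) else 0 := by
  change Matrix.fromBlocks (Matrix.diagonal fun i => (t i : k)) 0 0
    (Matrix.diagonal fun i => (((t i)⁻¹ : kˣ) : k)) (Sum.inl i) (Sum.inl j) = _
  rw [Matrix.fromBlocks_apply₁₁, Matrix.diagonal_apply]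

private theorem d4_ent_rl {k : Type} [Field k] {n : ℕ} (t : Fin n → kˣ) (i j : Fin n) :
    ent (tor t) (Sum.inr i) (Sum.inl j) = 0 := by
  change Matrix.fromBlocks (Matrix.diagonal fun i => (t i : k)) 0 0
    (Matrix.diagonal fun i => (((t i)⁻¹ : kˣ) : k)) (Sum.inr i) (Sum.inl j) = _
  rw [Matrix.fromBlocks_apply₂₁]
  rfl

private theorem d4_ent_lr {k : Type} [Field k] {n : ℕ} (t : Fin n → kˣ) (i j : Fin n) :
    ent (tor t) (Sum.inl i) (Sum.inr j) = 0 := by
  change Matrix.fromBlocks (Matrix.diagonal fun i => (t i : k)) 0 0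
    (Matrix.diagonal fun i => (((t i)⁻¹ : kˣ) : k)) (Sum.inl i) (Sum.inr j) = _
  rw [Matrix.fromBlocks_apply₁₂]
  rfl

private theorem d4_ent_rr {k : Type} [Field k] {n : ℕ} (t : Fin n → kˣ) (i j : Fin n) :
    ent (tor t) (Sum.inr i) (Sum.inr j) = if i = j then (((t i)⁻¹ : kˣ) : k) else 0 := by
  change Matrix.fromBlocks (Matrix.diagonal fun i => (t i : k)) 0 0
    (Matrix.diagonal fun i => (((t i)⁻¹ : kˣ) : k)) (Sum.inr i) (Sum.inr j) = _
  rw [Matrix.fromBlocks_apply₂₂, Matrix.diagonal_apply]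

private theorem d4_mul {k : Type} [Field k] {n : ℕ} (t t' : Fin n → kˣ) :
    tor (t * t') = tor t * tor t' := by
  apply Subtype.ext
  change Matrix.fromBlocks (Matrix.diagonal fun i => ((t * t') i : k)) 0 0
    (Matrix.diagonal fun i => ((((t * t') i)⁻¹ : kˣ) : k)) =
    Matrix.fromBlocks (Matrix.diagonal fun i => (t i : k)) 0 0
    (Matrix.diagonal fun i => (((t i)⁻¹ : kˣ) : k)) *
    Matrix.fromBlocks (Matrix.diagonal fun i => (t' i : k)) 0 0
    (Matrix.diagonal fun i => (((t' i)⁻¹ : kˣ) : k))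
  rw [Matrix.fromBlocks_multiply]
  simp only [Matrix.diagonal_mul_diagonal, Matrix.mul_zero, Matrix.zero_mul, add_zero, zero_add,
    Pi.mul_apply, Units.val_mul, mul_inv]

private theorem d4_one {k : Type} [Field k] {n : ℕ} : tor (1 : Fin n → kˣ) = 1 := by
  have h := d4_mul (k := k) (1 : Fin n → kˣ) 1
  rw [mul_one] at h
  exact (mul_eq_left.1 h.symm)

private theorem d4_inv {k : Type} [Field k] {n : ℕ} (t : Fin n → kˣ) :
    (tor t)⁻¹ = tor t⁻¹ := by
  apply inv_eq_of_mul_eq_one_right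
  rw [← d4_mul, mul_inv_cancel, d4_one]

private theorem d4_Qf {k : Type} [Field k] {n : ℕ} (t : Fin n → kˣ) : Qf Set.univ (tor t) := by
  intro l _ l' hl' x hx
  rcases x with i | i
  · rw [d4_ent_ll] at hx
    by_cases h : i = l'
    · exact ⟨i, h ▸ hl', rfl⟩
    · exact absurd (if_neg h) hx
  · rw [d4_ent_rl] at hx
    exact absurd rfl hx

private theorem d4_mem {k : Type} [Field k] {n : ℕ} (t : Fin n → kˣ) : tor t ∈ Bo k n := by
  refine ⟨d4_Qf t, ?_⟩
  rw [d4_inv]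
  exact d4_Qf _

private theorem d4_dg {k : Type} [Field k] {n : ℕ} (t : Fin n → kˣ) (i : Fin n)
    (h : tor t ∈ Bo k n) : dgB k n i ⟨tor t, h⟩ = t i := by
  apply Units.ext
  change ent (tor t) (Sum.inl i) (Sum.inl i) = t i
  rw [d4_ent_ll, if_pos rfl]

theorem p_D4 (h2 : S_R2) (h9 : S_R9) (h10 : S_R10) : S_D4 := by
  intro k _ n
  obtain ⟨hRG, hent, hreg⟩ := h9 k n
  have hdg : IsReg k (fun b : Bo k n => fun i => dgB k n i b) := by
    rw [(h10 k (Bo k n) (Fin n)).2.2.2]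
    intro i
    refine ⟨⟨_, hent (Sum.inl i) (Sum.inl i), rfl⟩, ?_⟩
    exact ⟨_, hRG.inv_reg _ (hent (Sum.inl i) (Sum.inl i)), rfl⟩
  have htor : IsReg k (fun t : Fin n → kˣ => tor t) := by
    rw [hreg]
    intro x y
    rcases x with i | i <;> rcases y with j | j
    · simp only [d4_ent_ll]
      by_cases h : i = j
      · simp only [if_pos h]
        exact Algebra.subset_adjoin (Or.inl ⟨i, rfl⟩)
      · simp only [if_neg h]
        exact Subalgebra.zero_mem _
    · simp only [d4_ent_lr]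
      exact Subalgebra.zero_mem _
    · simp only [d4_ent_rl]
      exact Subalgebra.zero_mem _
    · simp only [d4_ent_rr]
      by_cases h : i = j
      · simp only [if_pos h]
        exact Algebra.subset_adjoin (Or.inr ⟨i, rfl⟩)
      · simp only [if_neg h]
        exact Subalgebra.zero_mem _
  refine ⟨d4_mem, d4_mul, htor, ?_, hdg, ?_, ?_, ?_, fun t i h => d4_dg t i h⟩
  · exact (h2 k (Bo k n) (Fin n → kˣ) (SpG k n)).2.1 _ _ hdg htor
  · intro b
    have hb : (tpart b)⁻¹ ∈ Bo k n := inv_mem (d4_mem _)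
    refine ⟨mul_mem hb b.2, fun i => ?_⟩
    have h := bo_diag (⟨(tpart b)⁻¹, hb⟩ : Bo k n) b i
    refine h.trans ?_
    change ent (tor fun i => dgB k n i b)⁻¹ (Sum.inl i) (Sum.inl i) * _ = 1
    rw [d4_inv, d4_ent_ll, if_pos rfl]
    exact (dgB k n i b).inv_val
  · intro b c
    unfold tpart
    rw [← d4_mul]
    congr 1
    funext i
    exact map_mul _ b c
  · rintro u ⟨hu, hu1⟩ b hb
    refine ⟨mul_mem (mul_mem hb hu) (inv_mem hb), fun i => ?_⟩
    have h1 : dgB k n i ⟨u, hu⟩ = 1 := Units.ext (hu1 i)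
    have h3 : dgB k n i (⟨b, hb⟩ * ⟨u, hu⟩ * (⟨b, hb⟩ : Bo k n)⁻¹) = 1 := by
      rw [map_mul, map_mul, h1, mul_one, map_inv, mul_inv_cancel]
    exact congrArg Units.val h3

end Pool.Agent.Sp49
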