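import Pool.Agent.Lib.MP_49c83e_al.StmC

namespace Pool.Agent.Sp49

open scoped BigOperators

private theorem d5_chT_zero (k : Type) [Field k] (n : ℕ) (t : Fin n → kˣ) :
    chT (0 : Fin n → ℤ) t = 1 := by
  simp [chT]

private theorem d5_chT_mul (k : Type) [Field k] (n : ℕ) (μ : Fin n → ℤ) (s t : Fin n → kˣ) :
    chT μ (s * t) = chT μ s * chT μ t := by
  unfold chT
  rw [← Units.val_mul, ← Finset.prod_mul_distrib]
  simp only [Pi.mul_apply, mul_zpow]

theorem p_D5 (h1 : S_R1) (h13 : S_R13) : S_D5 := by
  intro k _ _ n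
  obtain ⟨hex, _, hun⟩ := h13 k n k
  let v : (Fin n → ℤ) → ((Fin n → kˣ) → k) := fun μ t => chT μ t
  have hv : LinearIndependent k v := by
    rw [linearIndependent_iff]
    intro l hl
    apply hun l 0
    intro t
    have h := congrFun hl t
    rw [Finsupp.linearCombination_apply, Finsupp.sum, Finset.sum_apply] at h
    rw [Finsupp.sum_zero_index, Finsupp.sum]
    rw [Pi.zero_apply] at h
    rw [← h]
    refine Finset.sum_congr rfl fun μ _ => ?_
    rw [Pi.smul_apply, smul_eq_mul, smul_eq_mul, mul_comm]
  obtain ⟨I, hI⟩ := LinearMap.exists_extend ((Finsupp.lapply (0 : Fin n → ℤ)).comp hv.repr)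
  have hIv : ∀ μ, I (v μ) = if μ = 0 then 1 else 0 := by
    intro μ
    have h := LinearMap.congr_fun hI ⟨v μ, Submodule.subset_span ⟨μ, rfl⟩⟩
    rw [LinearMap.comp_apply, LinearMap.comp_apply, hv.repr_eq_single μ _ rfl,
      Finsupp.lapply_apply, Finsupp.single_apply] at h
    exact h
  have hIs : ∀ (S : Finset (Fin n → ℤ)) (d : (Fin n → ℤ) → k),
      I (∑ μ ∈ S, d μ • v μ) = if (0 : Fin n → ℤ) ∈ S then d 0 else 0 := by
    intro S d
    rw [map_sum]
    have h : ∀ μ ∈ S, I (d μ • v μ) = if μ = 0 then d μ else 0 := by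
      intro μ _
      rw [map_smul, hIv, smul_eq_mul]
      split_ifs <;> simp
    rw [Finset.sum_congr rfl h, Finset.sum_ite_eq']
  have hRM : ∀ (Y : Type) [RS k Y] (F : Y → k), F ∈ regA k Y → F ∈ RM k Y k := by
    intro Y _ F hF
    refine Submodule.subset_span ⟨F, hF, 1, ?_⟩
    funext y
    simp
  refine ⟨I, ?_, ?_, ?_⟩
  · have h : (fun _ : Fin n → kˣ => (1 : k)) = v 0 := by
      funext t
      exact (d5_chT_zero k n t).symm
    rw [h, hIv, if_pos rfl]
  · intro F hF t0
    obtain ⟨c, hc⟩ := hex F (hRM _ F hF)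
    have e1 : F = ∑ μ ∈ c.support, c μ • v μ := by
      funext t
      rw [hc t, Finsupp.sum, Finset.sum_apply]
      refine Finset.sum_congr rfl fun μ _ => ?_
      rw [Pi.smul_apply, smul_eq_mul, smul_eq_mul, mul_comm]
    have e2 : (fun t => F (t0 * t)) = ∑ μ ∈ c.support, (c μ * chT μ t0) • v μ := by
      funext t
      rw [hc (t0 * t), Finsupp.sum, Finset.sum_apply]
      refine Finset.sum_congr rfl fun μ _ => ?_
      rw [Pi.smul_apply, smul_eq_mul, smul_eq_mul, d5_chT_mul]
      ring
    rw [e2, hIs c.support (fun μ => c μ * chT μ t0)]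
    conv_rhs => rw [e1]
    rw [hIs c.support (fun μ => c μ), d5_chT_zero, mul_one]
  · intro X _ F hF
    have h2 := (h1 k X (Fin n → kˣ) k F).1 (hRM _ F hF)
    refine Submodule.span_induction
      (p := fun F _ => (fun x => I (fun t => F (x, t))) ∈ regA k X) ?_ ?_ ?_ ?_ h2
    · rintro F ⟨f, hf, g, _, m, rfl⟩
      have h : (fun x => I (fun t => (f x * g t) • m)) = (I g * m) • f := by
        funext x
        have h3 : (fun t => (f x * g t) • m) = (f x * m) • g := by
          funext t
          simp only [smul_eq_mul, Pi.smul_apply]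
          ring
        rw [h3, map_smul, Pi.smul_apply, smul_eq_mul, smul_eq_mul]
        ring
      show (fun x => I (fun t => (f x * g t) • m)) ∈ regA k X
      rw [h]
      exact Subalgebra.smul_mem _ hf _
    · have h : (fun x : X => I (fun t => (0 : X × (Fin n → kˣ) → k) (x, t))) = 0 := by
        funext x
        exact map_zero I
      rw [h]
      exact Subalgebra.zero_mem _
    · intro F G _ _ hF' hG'
      have h : (fun x : X => I (fun t => (F + G) (x, t))) =
          (fun x => I (fun t => F (x, t))) + (fun x => I (fun t => G (x, t))) := by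
        funext x
        exact map_add I (fun t => F (x, t)) (fun t => G (x, t))
      rw [h]
      exact Subalgebra.add_mem _ hF' hG'
    · intro a F _ hF'
      have h : (fun x : X => I (fun t => (a • F) (x, t))) =
          a • (fun x => I (fun t => F (x, t))) := by
        funext x
        exact map_smul I a (fun t => F (x, t))
      rw [h]
      exact Subalgebra.smul_mem _ hF' _

end Pool.Agent.Sp49
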