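import Pool.Agent.Lib.MP_49c83e_al.StmC

/-!
MP_49c83e_al, piece D6: transfer from Uo to Bo.
-/

namespace Pool.Agent.Sp49

open scoped BigOperators

private lemma d6_chB_mul {k : Type} [Field k] {n : ℕ} (μ : Fin n → ℤ) (a b : Bo k n) :
    chB k μ (a * b) = chB k μ a * chB k μ b := by
  simp only [chB, map_mul, mul_zpow, Finset.prod_mul_distrib]

private lemma d6_chB_uo {k : Type} [Field k] {n : ℕ} (μ : Fin n → ℤ) (huB : Uo k n ≤ Bo k n)
    (u : Uo k n) : chB k μ (Subgroup.inclusion huB u) = 1 := by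
  unfold chB
  apply Finset.prod_eq_one
  intro i _
  have h : dgB k n i (Subgroup.inclusion huB u) = 1 := by
    apply Units.ext
    exact u.2.2 i
  rw [h, one_zpow]

theorem p_D6 (h2 : S_R2) (h3 : S_R3) (h8 : S_R8) (h9 : S_R9) (h10 : S_R10) (hD0 : S_D0)
    (hD4 : S_D4) (hD5 : S_D5) : S_D6 := by
  intro k _ _ n μ huB f hf ψ hψ hfψ
  obtain ⟨hf1, hf2⟩ := hf
  obtain ⟨d1', d2', d3, d4, d5, d6, d7, d8, d9⟩ := hD4 k n
  obtain ⟨I, hI1, hI2, hI3⟩ := hD5 k n
  have hRG : RG k (SpG k n) := (h9 k n).1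
  -- notation
  set m : Bo k n → k := fun b => ((chB k μ b : kˣ) : k) with hm
  have m_mul : ∀ a b, m (a * b) = m a * m b := by
    intro a b
    simp only [hm, d6_chB_mul, Units.val_mul]
  have m_uo : ∀ u : Uo k n, m (Subgroup.inclusion huB u) = 1 := by
    intro u
    simp only [hm, d6_chB_uo, Units.val_one]
  set tB : (Fin n → kˣ) → Bo k n := fun t => ⟨tor t, d1' t⟩ with htB
  set pr : Bo k n → (Fin n → kˣ) := fun b i => dgB k n i b with hpr
  have pr_mul : ∀ a b, pr (a * b) = pr a * pr b := by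
    intro a b
    funext i
    simp only [hpr, Pi.mul_apply, map_mul]
  have umem : ∀ (b : Bo k n) (s : Fin n → kˣ),
      (tor (pr b * s))⁻¹ * (b : SpG k n) * tor s ∈ Uo k n := by
    intro b s
    have e1 : tor (pr b * s) = tpart b * tor s := by
      rw [d2']; rfl
    have e2 : (tor (pr b * s))⁻¹ * (b : SpG k n) * tor s =
        (tor s)⁻¹ * ((tpart b)⁻¹ * (b : SpG k n)) * ((tor s)⁻¹)⁻¹ := by
      rw [e1]; group
    rw [e2]
    exact d8 _ (d6 b) _ (inv_mem (d1' s))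
  set ue : Bo k n → (Fin n → kˣ) → Uo k n := fun b s => ⟨_, umem b s⟩ with hue
  have hrel : ∀ b s, b * tB s = tB (pr b * s) * Subgroup.inclusion huB (ue b s) := by
    intro b s
    apply Subtype.ext
    change (b : SpG k n) * tor s = tor (pr b * s) * ((tor (pr b * s))⁻¹ * (b : SpG k n) * tor s)
    group
  have hue_mul : ∀ b1 b2 s, ue (b1 * b2) s = ue b1 (pr b2 * s) * ue b2 s := by
    intro b1 b2 s
    apply Subtype.ext
    change (tor (pr (b1 * b2) * s))⁻¹ * ((b1 * b2 : Bo k n) : SpG k n) * tor s =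
      ((tor (pr b1 * (pr b2 * s)))⁻¹ * (b1 : SpG k n) * tor (pr b2 * s)) *
        ((tor (pr b2 * s))⁻¹ * (b2 : SpG k n) * tor s)
    rw [pr_mul, mul_assoc (pr b1), Subgroup.coe_mul]
    group
  -- cocycle identity
  have hcoc : ∀ a b c : Bo k n, m a * f (b, c) - f (a * b, c) + f (a, b * c) - f (a, b) = 0 := by
    intro a b c
    exact congrFun (LinearMap.mem_ker.mp hf2) (a, b, c)
  -- the function D
  set D : Bo k n × (Fin n → kˣ) → k := fun q =>
    f (q.1, tB q.2) + m (tB (pr q.1 * q.2)) * ψ (ue q.1 q.2) -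
      f (tB (pr q.1 * q.2), Subgroup.inclusion huB (ue q.1 q.2)) with hD
  have hDrel : ∀ b1 b2 s, f (b1, b2) + D (b1 * b2, s) = m b1 * D (b2, s) + D (b1, pr b2 * s) := by
    intro b1 b2 s
    simp only [hD]
    rw [hue_mul, pr_mul, mul_assoc (pr b1) (pr b2) s]
    set t2 := pr b2 * s with ht2
    set t1 := pr b1 * t2 with ht1
    set u1 := ue b1 t2 with hu1
    set u2 := ue b2 s with hu2
    have r1 : b2 * tB s = tB t2 * Subgroup.inclusion huB u2 := hrel b2 s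
    have r2 : b1 * tB t2 = tB t1 * Subgroup.inclusion huB u1 := hrel b1 t2
    have c1 := hcoc b1 b2 (tB s)
    have c2 := hcoc b1 (tB t2) (Subgroup.inclusion huB u2)
    have c3 := hcoc (tB t1) (Subgroup.inclusion huB u1) (Subgroup.inclusion huB u2)
    have c4 := hfψ u1 u2
    rw [r1] at c1
    rw [r2] at c2
    rw [← map_mul] at c3
    have c5 : m b1 * m (tB t2) = m (tB t1) := by
      rw [← m_mul, r2, m_mul, m_uo, mul_one]
    linear_combination (-1 : k) * c1 + c2 - c3 + m (tB t1) * c4 - ψ u2 * c5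
  -- regularity of D
  have hfr : f ∈ regA k (Bo k n × Bo k n) :=
    ((h3 k (Bo k n × Bo k n) k k k).2.2.2.2.2 f).1 hf1
  have hmr : m ∈ regA k (Bo k n) := by
    have := hD0 k n μ 1
    have e : (fun g => chR k μ g (1 : k)) = m := by
      funext g
      rw [chR_apply, mul_one]
    rw [e] at this
    exact ((h3 k (Bo k n) k k k).2.2.2.2.2 m).1 this
  have p1 : IsReg k (fun q : Bo k n × (Fin n → kˣ) => q.1) :=
    (h2 k (Bo k n) (Fin n → kˣ) (Fin n → kˣ)).2.2.2.1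
  have p2 : IsReg k (fun q : Bo k n × (Fin n → kˣ) => q.2) :=
    (h2 k (Bo k n) (Fin n → kˣ) (Fin n → kˣ)).2.2.2.2.1
  have hsub := (h8 k (Bo k n × (Fin n → kˣ)) (SpG k n))
  have htBr : IsReg k tB := ((h8 k (Fin n → kˣ) (SpG k n)).2.2.2.2.1 (Bo k n) tB).2 d3
  have ht2r : IsReg k (fun q : Bo k n × (Fin n → kˣ) => pr q.1 * q.2) := by
    have e1 : IsReg k (fun q : Bo k n × (Fin n → kˣ) => pr q.1) :=
      (h2 k (Bo k n × (Fin n → kˣ)) (Bo k n) (Fin n → kˣ)).2.1 _ _ p1 d5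
    have e2 := ((h10 k (Bo k n × (Fin n → kˣ)) (Fin n)).2.2.2 _).1 e1
    have e3 := ((h10 k (Bo k n × (Fin n → kˣ)) (Fin n)).2.2.2 _).1 p2
    refine ((h10 k (Bo k n × (Fin n → kˣ)) (Fin n)).2.2.2 _).2 (fun i => ⟨?_, ?_⟩)
    · have := Subalgebra.mul_mem _ (e2 i).1 (e3 i).1
      refine (congrArg (· ∈ regA k (Bo k n × (Fin n → kˣ))) ?_).mpr this
      funext q
      simp
    · have := Subalgebra.mul_mem _ (e2 i).2 (e3 i).2
      refine (congrArg (· ∈ regA k (Bo k n × (Fin n → kˣ))) ?_).mpr this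
      funext q
      simp [mul_comm]
  have htor1 : IsReg k (fun q : Bo k n × (Fin n → kˣ) => tB (pr q.1 * q.2)) :=
    (h2 k (Bo k n × (Fin n → kˣ)) (Fin n → kˣ) (Bo k n)).2.1 _ _ ht2r htBr
  have htor2 : IsReg k (fun q : Bo k n × (Fin n → kˣ) => tB q.2) :=
    (h2 k (Bo k n × (Fin n → kˣ)) (Fin n → kˣ) (Bo k n)).2.1 _ _ p2 htBr
  have hBoc : IsReg k (fun b : Bo k n => (b : SpG k n)) :=
    (h8 k (Bo k n) (SpG k n)).2.2.2.1 (Bo k n)
  have hcomp : ∀ φ : Bo k n × (Fin n → kˣ) → Bo k n, IsReg k φ →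
      IsReg k (fun q => (φ q : SpG k n)) := fun φ hφ =>
    (h2 k (Bo k n × (Fin n → kˣ)) (Bo k n) (SpG k n)).2.1 _ _ hφ hBoc
  have hue1 : IsReg k (fun q : Bo k n × (Fin n → kˣ) =>
      (tor (pr q.1 * q.2))⁻¹ * (q.1 : SpG k n) * tor q.2) := by
    have a1 := hsub.2.1 _ (hcomp _ htor1)
    have a2 := hsub.1 _ _ a1 (hcomp _ p1)
    exact hsub.1 _ _ a2 (hcomp _ htor2)
  have huer : IsReg k (fun q : Bo k n × (Fin n → kˣ) => ue q.1 q.2) :=
    (hsub.2.2.2.2.1 (Uo k n) _).2 hue1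
  have hueB : IsReg k (fun q : Bo k n × (Fin n → kˣ) => Subgroup.inclusion huB (ue q.1 q.2)) :=
    (hsub.2.2.2.2.1 (Bo k n) _).2 hue1
  have hDr : D ∈ regA k (Bo k n × (Fin n → kˣ)) := by
    refine Subalgebra.sub_mem _ (Subalgebra.add_mem _ ?_ (Subalgebra.mul_mem _ ?_ ?_)) ?_
    · exact ((h2 k (Bo k n × (Fin n → kˣ)) (Bo k n) (Bo k n)).2.2.2.2.2 _ _ p1 htor2) f hfr
    · exact htor1 m hmr
    · exact huer ψ hψ
    · exact ((h2 k (Bo k n × (Fin n → kˣ)) (Bo k n) (Bo k n)).2.2.2.2.2 _ _ htor1 hueB) f hfr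
  -- slices
  have hslice : ∀ b : Bo k n, (fun s => D (b, s)) ∈ regA k (Fin n → kˣ) := by
    intro b
    have e : IsReg k (fun s : Fin n → kˣ => (b, s)) :=
      (h2 k (Fin n → kˣ) (Bo k n) (Fin n → kˣ)).2.2.2.2.2 _ _
        ((h2 k (Fin n → kˣ) (Bo k n) (Bo k n)).2.2.1 b) (h2 k (Fin n → kˣ) (Bo k n) (Bo k n)).1
    exact e D hDr
  -- the cochain
  set A : Bo k n → k := fun b => I (fun s => D (b, s)) with hA
  have hAr : A ∈ regA k (Bo k n) := hI3 (Bo k n) D hDr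
  refine Submodule.mem_map.mpr ⟨A, ((h3 k (Bo k n) k k k).2.2.2.2.2 A).2 hAr, ?_⟩
  funext q
  obtain ⟨b1, b2⟩ := q
  change m b1 * A b2 - A (b1 * b2) + A b1 = f (b1, b2)
  have e1 : (fun s => f (b1, b2) + D (b1 * b2, s)) =
      fun s => m b1 * D (b2, s) + D (b1, pr b2 * s) := by
    funext s
    exact hDrel b1 b2 s
  have e2 : I (fun s => f (b1, b2) + D (b1 * b2, s)) = f (b1, b2) + A (b1 * b2) := by
    have : (fun s => f (b1, b2) + D (b1 * b2, s)) =
        f (b1, b2) • (fun _ : Fin n → kˣ => (1 : k)) + fun s => D (b1 * b2, s) := by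
      funext s
      simp
    rw [this, map_add, map_smul, hI1, smul_eq_mul, mul_one]
  have e3 : I (fun s => m b1 * D (b2, s) + D (b1, pr b2 * s)) = m b1 * A b2 + A b1 := by
    have : (fun s => m b1 * D (b2, s) + D (b1, pr b2 * s)) =
        m b1 • (fun s => D (b2, s)) + fun s => D (b1, pr b2 * s) := by
      funext s
      simp
    rw [this, map_add, map_smul, smul_eq_mul, hI2 _ (hslice b1) (pr b2)]
  rw [e1, e3] at e2
  linear_combination e2

end Pool.Agent.Sp49
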