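import Pool.Agent.Lib.MP_49c83e_al.StmC

namespace Pool.Agent.Sp49

open scoped BigOperators Polynomial

/-- polynomial contraction property -/
private def D7P (k : Type) [Field k] {X : Type} [RS k X] (T : kˣ → X → X) (x0 : X)
    (F : X → k) : Prop :=
  ∃ P : (X → k)[X], (∀ r, P.coeff r ∈ regA k X) ∧ (P.coeff 0 = fun _ => F x0) ∧
    ∀ s q, F (T s q) = (P.eval (fun _ => (s : k))) q

private theorem d7_const (k : Type) [Field k] {X : Type} [RS k X] (T : kˣ → X → X) (x0 : X)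
    (c : k) : D7P k T x0 (fun _ => c) := by
  refine ⟨Polynomial.C (fun _ => c), ?_, ?_, ?_⟩
  · intro r
    rw [Polynomial.coeff_C]
    split_ifs
    · exact Subalgebra.algebraMap_mem (regA k X) c
    · exact Subalgebra.zero_mem _
  · simp
  · intro s q
    simp

private theorem d7_add (k : Type) [Field k] {X : Type} [RS k X] (T : kˣ → X → X) (x0 : X)
    (F G : X → k) (hF : D7P k T x0 F) (hG : D7P k T x0 G) : D7P k T x0 (F + G) := by
  obtain ⟨P, hP1, hP2, hP3⟩ := hF
  obtain ⟨Q, hQ1, hQ2, hQ3⟩ := hG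
  refine ⟨P + Q, ?_, ?_, ?_⟩
  · intro r
    rw [Polynomial.coeff_add]
    exact Subalgebra.add_mem _ (hP1 r) (hQ1 r)
  · rw [Polynomial.coeff_add, hP2, hQ2]
    rfl
  · intro s q
    rw [Polynomial.eval_add]
    simp only [Pi.add_apply]
    rw [hP3, hQ3]

private theorem d7_mul (k : Type) [Field k] {X : Type} [RS k X] (T : kˣ → X → X) (x0 : X)
    (F G : X → k) (hF : D7P k T x0 F) (hG : D7P k T x0 G) : D7P k T x0 (F * G) := by
  obtain ⟨P, hP1, hP2, hP3⟩ := hF
  obtain ⟨Q, hQ1, hQ2, hQ3⟩ := hG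
  refine ⟨P * Q, ?_, ?_, ?_⟩
  · intro r
    rw [Polynomial.coeff_mul]
    exact Subalgebra.sum_mem _ fun x _ => Subalgebra.mul_mem _ (hP1 x.1) (hQ1 x.2)
  · rw [Polynomial.mul_coeff_zero, hP2, hQ2]
    rfl
  · intro s q
    rw [Polynomial.eval_mul]
    simp only [Pi.mul_apply]
    rw [hP3, hQ3]

private theorem d7_pull (k : Type) [Field k] {X Y : Type} [RS k X] [RS k Y] (T : kˣ → X → X)
    (x0 : X) (T' : kˣ → Y → Y) (y0 : Y) (π : Y → X) (hπ : IsReg k π)
    (hT : ∀ s y, π (T' s y) = T s (π y)) (h0 : π y0 = x0)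
    (F : X → k) (hF : D7P k T x0 F) : D7P k T' y0 (fun y => F (π y)) := by
  obtain ⟨P, hP1, hP2, hP3⟩ := hF
  let φ : (X → k) →+* (Y → k) :=
    { toFun := fun f y => f (π y)
      map_one' := rfl
      map_mul' := fun _ _ => rfl
      map_zero' := rfl
      map_add' := fun _ _ => rfl }
  refine ⟨P.map φ, ?_, ?_, ?_⟩
  · intro r
    rw [Polynomial.coeff_map]
    exact hπ _ (hP1 r)
  · rw [Polynomial.coeff_map, hP2]
    funext y
    simp [φ, h0]
  · intro s q
    change F (π (T' s q)) = _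
    rw [hT, hP3]
    have h1 : (fun _ => (s : k) : Y → k) = φ (fun _ => (s : k)) := rfl
    rw [h1, Polynomial.eval_map_apply]
    rfl

private theorem d7_fin (k : Type) [Field k] {X : Type} [RS k X] (T : kˣ → X → X) (x0 : X)
    (F : X → k) (hF : D7P k T x0 F) : ∃ c : ℕ → (X → k), ∃ N : ℕ,
      (∀ r, c r ∈ regA k X) ∧ (∀ q, c 0 q = F x0) ∧
      ∀ (s : kˣ) (q : X), F (T s q) = ∑ r ∈ Finset.range N, (s : k) ^ r * c r q := by
  obtain ⟨P, hP1, hP2, hP3⟩ := hF
  refine ⟨fun r => P.coeff r, P.natDegree + 1, hP1, fun q => congrFun hP2 q, ?_⟩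
  intro s q
  rw [hP3, Polynomial.eval_eq_sum_range, Finset.sum_apply]
  refine Finset.sum_congr rfl fun i _ => ?_
  simp only [Pi.mul_apply, Pi.pow_apply]
  ring

/-- the exponent of the cocharacter at a basis vector -/
private def d7a {n : ℕ} : Fin n ⊕ Fin n → ℤ :=
  Sum.elim (fun i => ((n - (i : ℕ) : ℕ) : ℤ)) (fun i => -((n - (i : ℕ) : ℕ) : ℤ))

private theorem d7_ent_coch {k : Type} [Field k] {n : ℕ} (s : kˣ) (x y : Fin n ⊕ Fin n) :
    ent (coch s : SpG k n) x y = if x = y then ((s ^ d7a x : kˣ) : k) else 0 := by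
  rcases x with i | i <;> rcases y with j | j
  · by_cases h : i = j
    · subst h
      rw [if_pos rfl]
      simp only [d7a, Sum.elim_inl, zpow_natCast]
      simp [ent, coch, tor]
    · simp [ent, coch, tor, h]
  · simp [ent, coch, tor]
  · simp [ent, coch, tor]
  · by_cases h : i = j
    · subst h
      rw [if_pos rfl]
      simp only [d7a, Sum.elim_inr, zpow_neg, zpow_natCast]
      simp [ent, coch, tor]
    · simp [ent, coch, tor, h]

private theorem d7_coch_mul {k : Type} [Field k] {n : ℕ} (s t : kˣ) :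
    (coch s : SpG k n) * coch t = coch (s * t) := by
  apply Subtype.ext
  ext x y
  change ent (coch s * coch t) x y = ent (coch (s * t)) x y
  rw [ent_mul, Finset.sum_eq_single x]
  · rw [d7_ent_coch, d7_ent_coch, d7_ent_coch, if_pos rfl]
    by_cases h : x = y
    · subst h
      simp [mul_zpow]
    · simp [h]
  · intro z _ hz
    rw [d7_ent_coch, if_neg (Ne.symm hz), zero_mul]
  · intro h
    exact absurd (Finset.mem_univ _) h

private theorem d7_coch_one {k : Type} [Field k] {n : ℕ} : (coch 1 : SpG k n) = 1 := by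
  apply Subtype.ext
  ext x y
  change ent (coch 1) x y = ent 1 x y
  rw [d7_ent_coch, ent_one]
  simp

private theorem d7_coch_inv {k : Type} [Field k] {n : ℕ} (s : kˣ) :
    (coch s : SpG k n)⁻¹ = coch s⁻¹ := by
  apply inv_eq_of_mul_eq_one_right
  rw [d7_coch_mul, mul_inv_cancel, d7_coch_one]

private theorem d7_ent_conj {k : Type} [Field k] {n : ℕ} (s : kˣ) (u : SpG k n)
    (x y : Fin n ⊕ Fin n) :
    ent (coch s * u * (coch s)⁻¹) x y = ((s ^ (d7a x - d7a y) : kˣ) : k) * ent u x y := by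
  rw [d7_coch_inv, ent_mul, Finset.sum_eq_single y]
  · rw [ent_mul, Finset.sum_eq_single x]
    · rw [d7_ent_coch, d7_ent_coch, if_pos rfl, if_pos rfl, zpow_sub, Units.val_mul,
        inv_zpow]
      ring
    · intro z _ hz
      rw [d7_ent_coch, if_neg (Ne.symm hz), zero_mul]
    · intro h
      exact absurd (Finset.mem_univ _) h
  · intro z _ hz
    rw [d7_ent_coch, if_neg hz, mul_zero]
  · intro h
    exact absurd (Finset.mem_univ _) h

private theorem d7_ent_inv {k : Type} [Field k] {n : ℕ} (g : SpG k n) (i j : Fin n) :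
    ent g (Sum.inr i) (Sum.inr j) = ent g⁻¹ (Sum.inl j) (Sum.inl i) := by
  simp only [ent, SymplecticGroup.coe_inv]
  simp [Matrix.J, Matrix.mul_apply, Matrix.fromBlocks, Matrix.one_apply]

private theorem d7_ent_bo {k : Type} [Field k] {n : ℕ} (u : SpG k n) (hu : u ∈ Uo k n)
    (x y : Fin n ⊕ Fin n) (hxy : x ≠ y) (h : ent u x y ≠ 0) : d7a y < d7a x := by
  rcases x with i | i <;> rcases y with j | j
  · obtain ⟨l, hl, hl2⟩ := hu.1.1 j (Set.mem_univ _) j le_rfl _ h
    have h3 : i = l := Sum.inl_injective hl2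
    subst h3
    have h4 : i ≠ j := fun h => hxy (by rw [h])
    have h5 : (i : ℕ) < j := lt_of_le_of_ne hl (fun h => h4 (Fin.ext h))
    have := j.isLt
    simp only [d7a, Sum.elim_inl]
    omega
  · have := j.isLt
    have := i.isLt
    simp only [d7a, Sum.elim_inl, Sum.elim_inr]
    omega
  · obtain ⟨l, hl, hl2⟩ := hu.1.1 j (Set.mem_univ _) j le_rfl _ h
    simp at hl2
  · rw [d7_ent_inv] at h
    obtain ⟨l, hl, hl2⟩ := hu.1.2 i (Set.mem_univ _) i le_rfl _ h
    have h3 : j = l := Sum.inl_injective hl2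
    subst h3
    have h4 : i ≠ j := fun h => hxy (by rw [h])
    have h5 : (j : ℕ) < i := lt_of_le_of_ne hl (fun h => h4 (Fin.ext h.symm))
    have := i.isLt
    simp only [d7a, Sum.elim_inr]
    omega

private theorem d7_ent_diag {k : Type} [Field k] {n : ℕ} (u : SpG k n) (hu : u ∈ Uo k n)
    (x : Fin n ⊕ Fin n) : ent u x x = 1 := by
  rcases x with i | i
  · exact hu.2 i
  · rw [d7_ent_inv]
    exact ((Uo k n).inv_mem hu).2 i

private theorem d7_uo (k : Type) [Field k] (n : ℕ)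
    (hs : ∀ (s : kˣ) (u : Uo k n), coch s * (u : SpG k n) * (coch s)⁻¹ ∈ Uo k n)
    (F : SpG k n → k) (hF : F ∈ regA k (SpG k n)) :
    D7P k (fun s (u : Uo k n) => (⟨_, hs s u⟩ : Uo k n)) 1 (fun u => F (u : SpG k n)) := by
  have hF' : F ∈ Algebra.adjoin k {F | ∃ x y : Fin n ⊕ Fin n, F = fun g : SpG k n =>
    (g : Matrix (Fin n ⊕ Fin n) (Fin n ⊕ Fin n) k) x y} := hF
  refine Algebra.adjoin_induction (p := fun F _ =>
    D7P k (fun s (u : Uo k n) => (⟨_, hs s u⟩ : Uo k n)) 1 (fun u => F (u : SpG k n)))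
    ?_ ?_ ?_ ?_ hF'
  · rintro F ⟨x, y, rfl⟩
    by_cases hxy : x = y
    · subst hxy
      have h1 : (fun u : Uo k n => ((u : SpG k n) : Matrix (Fin n ⊕ Fin n) (Fin n ⊕ Fin n) k) x x)
          = fun _ => (1 : k) := by
        funext u
        exact d7_ent_diag _ u.2 x
      change D7P k _ 1 (fun u : Uo k n =>
        ((u : SpG k n) : Matrix (Fin n ⊕ Fin n) (Fin n ⊕ Fin n) k) x x)
      rw [h1]
      exact d7_const k _ _ 1
    · by_cases ha : d7a y < d7a x
      · obtain ⟨r, hr⟩ : ∃ r : ℕ, d7a x - d7a y = (r : ℤ) := ⟨(d7a x - d7a y).toNat, by omega⟩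
        have hr0 : r ≠ 0 := by omega
        refine ⟨Polynomial.monomial r (fun u : Uo k n => ent (u : SpG k n) x y), ?_, ?_, ?_⟩
        · intro r'
          rw [Polynomial.coeff_monomial]
          split_ifs
          · exact ⟨fun g : SpG k n => (g : Matrix (Fin n ⊕ Fin n) (Fin n ⊕ Fin n) k) x y,
              Algebra.subset_adjoin ⟨x, y, rfl⟩, rfl⟩
          · exact Subalgebra.zero_mem _
        · rw [Polynomial.coeff_monomial, if_neg hr0]
          funext u
          change (0 : k) = ent (1 : SpG k n) x y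
          rw [ent_one, if_neg hxy]
        · intro s u
          rw [Polynomial.eval_monomial]
          change ent (coch s * (u : SpG k n) * (coch s)⁻¹) x y = ent (u : SpG k n) x y * (s : k) ^ r
          rw [d7_ent_conj, hr, zpow_natCast, Units.val_pow_eq_pow_val]
          ring
      · have h1 : (fun u : Uo k n => ((u : SpG k n) : Matrix (Fin n ⊕ Fin n) (Fin n ⊕ Fin n) k) x y)
            = fun _ => (0 : k) := by
          funext u
          by_contra h
          exact ha (d7_ent_bo _ u.2 x y hxy h)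
        change D7P k _ 1 (fun u : Uo k n =>
          ((u : SpG k n) : Matrix (Fin n ⊕ Fin n) (Fin n ⊕ Fin n) k) x y)
        rw [h1]
        exact d7_const k _ _ 0
  · intro r
    exact d7_const k _ _ r
  · intro F G _ _ h1 h2
    exact d7_add k _ _ _ _ h1 h2
  · intro F G _ _ h1 h2
    exact d7_mul k _ _ _ _ h1 h2

private theorem d7_uo' (k : Type) [Field k] (n : ℕ)
    (hs : ∀ (s : kˣ) (u : Uo k n), coch s * (u : SpG k n) * (coch s)⁻¹ ∈ Uo k n)
    (F : Uo k n → k) (hF : F ∈ regA k (Uo k n)) :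
    D7P k (fun s (u : Uo k n) => (⟨_, hs s u⟩ : Uo k n)) 1 F := by
  obtain ⟨F', hF', rfl⟩ := hF
  exact d7_uo k n hs F' hF'

private theorem d7_uo2 (k : Type) [Field k] (n : ℕ)
    (hs : ∀ (s : kˣ) (u : Uo k n), coch s * (u : SpG k n) * (coch s)⁻¹ ∈ Uo k n)
    (F : Uo k n × Uo k n → k) (hF : F ∈ regA k (Uo k n × Uo k n)) :
    D7P k (fun s (q : Uo k n × Uo k n) =>
      ((⟨_, hs s q.1⟩ : Uo k n), (⟨_, hs s q.2⟩ : Uo k n))) 1 F := by
  have hF' : F ∈ Algebra.adjoin k ({F | ∃ f ∈ regA k (Uo k n),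
    F = fun q : Uo k n × Uo k n => f q.1} ∪
    {F | ∃ f ∈ regA k (Uo k n), F = fun q : Uo k n × Uo k n => f q.2}) := hF
  refine Algebra.adjoin_induction (p := fun F _ =>
    D7P k (fun s (q : Uo k n × Uo k n) =>
      ((⟨_, hs s q.1⟩ : Uo k n), (⟨_, hs s q.2⟩ : Uo k n))) 1 F)
    ?_ ?_ ?_ ?_ hF'
  · rintro F (⟨f, hf, rfl⟩ | ⟨f, hf, rfl⟩)
    · refine d7_pull k _ 1 _ _ (fun q : Uo k n × Uo k n => q.1) ?_ (fun _ _ => rfl) rfl f
        (d7_uo' k n hs f hf)
      intro g hg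
      exact Algebra.subset_adjoin (Or.inl ⟨g, hg, rfl⟩)
    · refine d7_pull k _ 1 _ _ (fun q : Uo k n × Uo k n => q.2) ?_ (fun _ _ => rfl) rfl f
        (d7_uo' k n hs f hf)
      intro g hg
      exact Algebra.subset_adjoin (Or.inr ⟨g, hg, rfl⟩)
  · intro r
    exact d7_const k _ _ r
  · intro F G _ _ h1 h2
    exact d7_add k _ _ _ _ h1 h2
  · intro F G _ _ h1 h2
    exact d7_mul k _ _ _ _ h1 h2

theorem p_D7 : S_D7 := by
  intro k _ _ n hs
  refine ⟨?_, ?_⟩
  · intro F hF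
    obtain ⟨c, N, h1, h2, h3⟩ := d7_fin k _ _ F (d7_uo2 k n hs F hF)
    exact ⟨c, N, h1, h2, fun s u v => h3 s (u, v)⟩
  · intro F hF
    obtain ⟨c, N, h1, h2, h3⟩ := d7_fin k _ _ F (d7_uo' k n hs F hF)
    exact ⟨c, N, h1, h2, fun s u => h3 s u⟩

end Pool.Agent.Sp49
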