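import Pool.Agent.Lib.MP_49c83e_al.StmC

namespace Pool.Agent.Sp49

open scoped BigOperators

private theorem d8_lau (h12 : S_R12) (k : Type) [Field k] [Infinite k] (N : ℕ) (a : ℕ → k)
    (m : ℤ) (hm : m ≤ 0) (x : k) (θ : ℤ →₀ k) (ha : N = 0 → a 0 = 0)
    (h : ∀ s : kˣ, (∑ r ∈ Finset.range N, (s : k) ^ r * a r) - ((s ^ m : kˣ) : k) * x =
      θ.sum fun j y => ((s ^ j : kˣ) : k) • y) :
    (if m = 0 then a 0 else 0) - x = θ m := by
  have huniq := (h12 k k).2.2
  have hadd : ∀ s : kˣ, ∀ c c' : ℤ →₀ k,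
      ((c - c').sum fun j y => ((s ^ j : kˣ) : k) • y) =
      (c.sum fun j y => ((s ^ j : kˣ) : k) • y) - (c'.sum fun j y => ((s ^ j : kˣ) : k) • y) := by
    intro s c c'
    exact Finsupp.sum_sub_index (fun j y z => smul_sub _ y z)
  have hsing : ∀ (s : kˣ) (i : ℤ) (z : k), ((Finsupp.single i z).sum
      fun j y => ((s ^ j : kˣ) : k) • y) = ((s ^ i : kˣ) : k) • z := by
    intro s i z
    exact Finsupp.sum_single_index (h := fun j y => ((s ^ j : kˣ) : k) • y) (smul_zero _)
  have hsum : ∀ s : kˣ, ((∑ r ∈ Finset.range N, Finsupp.single (r : ℤ) (a r)).sum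
      fun j y => ((s ^ j : kˣ) : k) • y) = ∑ r ∈ Finset.range N, (s : k) ^ r * a r := by
    intro s
    rw [← Finsupp.sum_finsetSum_index (fun j => smul_zero _) (fun j y z => smul_add _ y z)]
    refine Finset.sum_congr rfl fun r _ => ?_
    rw [hsing, zpow_natCast, Units.val_pow_eq_pow_val, smul_eq_mul]
  have h1 : (∑ r ∈ Finset.range N, Finsupp.single (r : ℤ) (a r)) - Finsupp.single m x = θ := by
    apply huniq
    intro s
    rw [hadd, hsum, hsing, smul_eq_mul]
    exact h s
  rw [← h1, Finsupp.sub_apply, Finsupp.single_eq_same, Finsupp.finsetSum_apply]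
  congr 1
  by_cases hm0 : m = 0
  · subst hm0
    rw [if_pos rfl]
    rcases Nat.eq_zero_or_pos N with hN | hN
    · subst hN
      simpa using ha rfl
    · rw [Finset.sum_eq_single 0]
      · simp
      · intro r _ hr
        rw [Finsupp.single_apply, if_neg]
        exact_mod_cast hr
      · intro hr
        exact absurd (Finset.mem_range.mpr hN) hr
  · rw [if_neg hm0]
    symm
    apply Finset.sum_eq_zero
    intro r _
    rw [Finsupp.single_apply, if_neg]
    omega

private theorem d8_prod {G ι : Type} [CommGroup G] (s : G) (S : Finset ι) (a : ι → ℤ) :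
    ∏ i ∈ S, s ^ a i = s ^ (∑ i ∈ S, a i) := by
  classical
  induction S using Finset.induction_on with
  | empty => simp
  | insert i S hi ih => rw [Finset.prod_insert hi, Finset.sum_insert hi, ih, zpow_add]

theorem p_D8 (h2 : S_R2) (h3 : S_R3) (h5 : S_R5) (h8 : S_R8) (h9 : S_R9) (h10 : S_R10)
    (h12 : S_R12) (hD4 : S_D4) (hD5 : S_D5) (hD6 : S_D6) (hD7 : S_D7) : S_D8 := by
  intro k _ _ n μ hμ
  have hRG : RG k (SpG k n) := (h9 k n).1
  have hRGB : RG k (Bo k n) := (h8 k (SpG k n) (SpG k n)).2.2.1 (Bo k n)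
  obtain ⟨hT1, hT2, hT3, hT4, hT5, hT6, hT7, hT8, hT9⟩ := hD4 k n
  have huB : Uo k n ≤ Bo k n := fun g hg => hg.1
  -- regularity of the inclusion
  have hincl : IsReg k (Subgroup.inclusion huB) := by
    intro F hF
    exact ((h8 k (SpG k n) (SpG k n)).2.2.2.2.2 (Uo k n) (Bo k n) huB _).2 ⟨F, hF, rfl⟩
  -- the cocharacter in the Borel subgroup
  let cB : kˣ → Bo k n := fun s => ⟨coch s, hT1 _⟩
  have hcB : IsReg k cB := by
    refine ((h8 k kˣ (SpG k n)).2.2.2.2.1 (Bo k n) cB).2 ?_
    change IsReg k (fun s : kˣ => tor (fun i : Fin n => s ^ (n - (i : ℕ))))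
    refine (h2 k kˣ (Fin n → kˣ) (SpG k n)).2.1 (fun (s : kˣ) (i : Fin n) => s ^ (n - (i : ℕ)))
      (fun t => tor t) ?_ hT3
    refine ((h10 k kˣ (Fin n)).2.2.2 _).2 fun i => ⟨?_, ?_⟩
    · have h1 : (fun s : kˣ => (s : k)) ∈ regA k kˣ := Algebra.subset_adjoin (Or.inl rfl)
      have h4 := Subalgebra.pow_mem _ h1 (n - (i : ℕ))
      convert h4 using 1
      funext s
      simp
    · have h1 : (fun s : kˣ => ((s⁻¹ : kˣ) : k)) ∈ regA k kˣ :=
        Algebra.subset_adjoin (Or.inr rfl)
      have h4 := Subalgebra.pow_mem _ h1 (n - (i : ℕ))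
      convert h4 using 1
      funext s
      simp
  have hs : ∀ (s : kˣ) (u : Uo k n), coch s * (u : SpG k n) * (coch s)⁻¹ ∈ Uo k n :=
    fun s u => hT8 u u.2 (coch s) (hT1 _)
  -- values of the character
  have hchU : ∀ u : Uo k n, chB k μ (Subgroup.inclusion huB u) = 1 := by
    intro u
    unfold chB
    apply Finset.prod_eq_one
    intro i _
    have h1 : dgB k n i (Subgroup.inclusion huB u) = 1 := Units.ext (u.2.2 i)
    rw [h1, one_zpow]
  let m : ℤ := ∑ i : Fin n, ((n - (i : ℕ) : ℕ) : ℤ) * μ i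
  have hm : m ≤ 0 := Finset.sum_nonpos fun i _ =>
    mul_nonpos_of_nonneg_of_nonpos (Int.natCast_nonneg _) (hμ i)
  have hchC : ∀ s : kˣ, chB k μ (cB s) = s ^ m := by
    intro s
    unfold chB
    rw [← d8_prod]
    refine Finset.prod_congr rfl fun i _ => ?_
    have h1 : dgB k n i (cB s) = s ^ (n - (i : ℕ)) := hT9 _ i _
    rw [h1, zpow_mul, zpow_natCast]
  have hchmul : ∀ a b : Bo k n, chB k μ (a * b) = chB k μ a * chB k μ b := by
    intro a b
    simp only [chB, map_mul, mul_zpow, Finset.prod_mul_distrib]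
  refine ⟨?_, ?_⟩
  · -- first cohomology
    intro c hc
    have hkey : ∀ a b : Bo k n, c (a * b) = (chB k μ a : k) * c b + c a := by
      intro a b
      have h1 := congrFun (LinearMap.mem_ker.mp hc.2) (a, b)
      have h4 : (chB k μ a : k) * c b - c (a * b) + c a = 0 := h1
      linear_combination -h4
    have hc1 : c 1 = 0 := by
      have h1 := hkey 1 1
      have h4 : chB k μ 1 = 1 := by simp [chB]
      rw [h4, mul_one, Units.val_one, one_mul] at h1
      linear_combination -h1
    have hreg : c ∈ regA k (Bo k n) :=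
      ((h3 k (Bo k n) (Bo k n) k k).2.2.2.2.2 c).1 hc.1
    have hregU : (fun u : Uo k n => c (Subgroup.inclusion huB u)) ∈ regA k (Uo k n) :=
      hincl c hreg
    obtain ⟨a, N, _, ha0, haN⟩ := (hD7 k n hs).2 _ hregU
    have hU : ∀ u : Uo k n, c (Subgroup.inclusion huB u) = 0 := by
      intro u
      have hconj : ∀ s : kˣ, c (Subgroup.inclusion huB ⟨_, hs s u⟩) =
          ((s ^ m : kˣ) : k) * c (Subgroup.inclusion huB u) := by
        intro s
        have e1 : (Subgroup.inclusion huB ⟨_, hs s u⟩ : Bo k n) * cB s =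
            cB s * Subgroup.inclusion huB u := by
          apply Subtype.ext
          change coch s * (u : SpG k n) * (coch s)⁻¹ * coch s = coch s * (u : SpG k n)
          rw [inv_mul_cancel_right]
        have e2 := hkey (Subgroup.inclusion huB ⟨_, hs s u⟩) (cB s)
        rw [e1, hkey, hchU, hchC, Units.val_one, one_mul] at e2
        linear_combination -e2
      have ha00 : a 0 u = 0 := by
        rw [ha0]
        exact hc1
      have h4 := d8_lau h12 k N (fun r => a r u) m hm (c (Subgroup.inclusion huB u)) 0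
        (fun _ => ha00) (fun s => by
          rw [← haN s u, hconj s]
          simp)
      simp only [ha00, ite_self, Finsupp.coe_zero, Pi.zero_apply, zero_sub, neg_eq_zero] at h4
      exact h4
    obtain ⟨I, hI1, hI2, _⟩ := hD5 k n
    let tB : (Fin n → kˣ) → Bo k n := fun t => ⟨tor t, hT1 t⟩
    have htB : IsReg k tB := ((h8 k (Fin n → kˣ) (SpG k n)).2.2.2.2.1 (Bo k n) tB).2 hT3
    let F : (Fin n → kˣ) → k := fun t => c (tB t)
    have hF : F ∈ regA k (Fin n → kˣ) := htB c hreg
    have hFc : ∀ t0 : Fin n → kˣ, F t0 = I F - (chB k μ (tB t0) : k) * I F := by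
      intro t0
      have h1 := hI2 F hF t0
      have h4 : (fun t => F (t0 * t)) = (chB k μ (tB t0) : k) • F + F t0 • fun _ => (1 : k) := by
        funext t
        have h6 : tB (t0 * t) = tB t0 * tB t := Subtype.ext (hT2 t0 t)
        change c (tB (t0 * t)) = (chB k μ (tB t0) : k) * c (tB t) + c (tB t0) * 1
        rw [h6, hkey, mul_one]
      rw [h4, map_add, map_smul, map_smul, hI1, smul_eq_mul, smul_eq_mul, mul_one] at h1
      linear_combination h1
    refine ⟨-I F, ?_⟩
    funext b
    change (chB k μ b : k) * (-I F) - (-I F) = c b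
    have hu : ((tpart b)⁻¹ * (b : SpG k n)) ∈ Uo k n := hT6 b
    have e1 : b = tB (fun i => dgB k n i b) * Subgroup.inclusion huB ⟨_, hu⟩ := by
      apply Subtype.ext
      change (b : SpG k n) = tpart b * ((tpart b)⁻¹ * (b : SpG k n))
      rw [mul_inv_cancel_left]
    have e2 : c b = F (fun i => dgB k n i b) := by
      conv_lhs => rw [e1]
      rw [hkey, hU, mul_zero, zero_add]
    have e3 : chB k μ b = chB k μ (tB (fun i => dgB k n i b)) := by
      conv_lhs => rw [e1]
      rw [hchmul, hchU, mul_one]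
    rw [e2, hFc, e3]
    ring
  · -- second cohomology
    intro f hf
    have hkey : ∀ a b c : Bo k n, (chB k μ a : k) * f (b, c) - f (a * b, c) + f (a, b * c) -
        f (a, b) = 0 := by
      intro a b c
      exact congrFun (LinearMap.mem_ker.mp hf.2) (a, b, c)
    have hreg : f ∈ regA k (Bo k n × Bo k n) :=
      ((h3 k (Bo k n × Bo k n) (Bo k n) k k).2.2.2.2.2 f).1 hf.1
    -- the function theta
    let cj : kˣ × Uo k n → Bo k n := fun q => cB q.1 * Subgroup.inclusion huB q.2 * (cB q.1)⁻¹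
    let θ : kˣ × Uo k n → k := fun q =>
      f (cB q.1, Subgroup.inclusion huB q.2) - f (cj q, cB q.1)
    have hr1 : IsReg k (fun q : kˣ × Uo k n => cB q.1) :=
      (h2 k (kˣ × Uo k n) kˣ (Bo k n)).2.1 (fun q => q.1) cB
        ((h2 k kˣ (Uo k n) kˣ).2.2.2.1) hcB
    have hr2 : IsReg k (fun q : kˣ × Uo k n => Subgroup.inclusion huB q.2) :=
      (h2 k (kˣ × Uo k n) (Uo k n) (Bo k n)).2.1 (fun q => q.2) _
        ((h2 k kˣ (Uo k n) kˣ).2.2.2.2.1) hincl
    have hr3 : IsReg k cj :=
      (h8 k (kˣ × Uo k n) (Bo k n)).1 _ _ ((h8 k (kˣ × Uo k n) (Bo k n)).1 _ _ hr1 hr2)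
        ((h8 k (kˣ × Uo k n) (Bo k n)).2.1 _ hr1)
    have hr4 : IsReg k (fun q : kˣ × Uo k n => (cB q.1, Subgroup.inclusion huB q.2)) :=
      (h2 k (kˣ × Uo k n) (Bo k n) (Bo k n)).2.2.2.2.2 _ _ hr1 hr2
    have hr5 : IsReg k (fun q : kˣ × Uo k n => (cj q, cB q.1)) :=
      (h2 k (kˣ × Uo k n) (Bo k n) (Bo k n)).2.2.2.2.2 _ _ hr3 hr1
    have hθ : θ ∈ regA k (kˣ × Uo k n) := Subalgebra.sub_mem _ (hr4 f hreg) (hr5 f hreg)
    have hθM : θ ∈ RM k (kˣ × Uo k n) k :=
      ((h3 k (kˣ × Uo k n) (Bo k n) k k).2.2.2.2.2 θ).2 hθ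
    obtain ⟨_, hθ1, _, hθ2⟩ := h5 k kˣ (Uo k n) k θ hθM
    obtain ⟨Θ, hΘ⟩ := (h12 k (RM k (Uo k n) k)).1 _ (hθ2 hθ1)
    -- restriction of f to Uo
    have hregU : (fun q : Uo k n × Uo k n => f (Subgroup.inclusion huB q.1,
        Subgroup.inclusion huB q.2)) ∈ regA k (Uo k n × Uo k n) := by
      have e1 : IsReg k (fun q : Uo k n × Uo k n => Subgroup.inclusion huB q.1) :=
        (h2 k (Uo k n × Uo k n) (Uo k n) (Bo k n)).2.1 (fun q => q.1) _
          ((h2 k (Uo k n) (Uo k n) kˣ).2.2.2.1) hincl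
      have e2 : IsReg k (fun q : Uo k n × Uo k n => Subgroup.inclusion huB q.2) :=
        (h2 k (Uo k n × Uo k n) (Uo k n) (Bo k n)).2.1 (fun q => q.2) _
          ((h2 k (Uo k n) (Uo k n) kˣ).2.2.2.2.1) hincl
      exact (h2 k (Uo k n × Uo k n) (Bo k n) (Bo k n)).2.2.2.2.2 _ _ e1 e2 f hreg
    obtain ⟨a, N, _, ha0, haN⟩ := (hD7 k n hs).1 _ hregU
    have hN0 : ∀ q, N = 0 → a 0 q = 0 := by
      intro q hN
      rw [ha0]
      have h1 := haN 1 1 1
      subst hN
      rw [Finset.range_zero, Finset.sum_empty] at h1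
      have h4 : (⟨_, hs 1 1⟩ : Uo k n) = 1 := by
        apply Subtype.ext
        change coch 1 * (1 : SpG k n) * (coch 1)⁻¹ = 1
        rw [mul_one, mul_inv_cancel]
      rw [h4] at h1
      exact h1
    -- the conjugation identity
    have hconj : ∀ (s : kˣ) (u v : Uo k n),
        f (Subgroup.inclusion huB ⟨_, hs s u⟩, Subgroup.inclusion huB ⟨_, hs s v⟩) -
          ((s ^ m : kˣ) : k) * f (Subgroup.inclusion huB u, Subgroup.inclusion huB v) =
        θ (s, u * v) - θ (s, u) - θ (s, v) := by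
      intro s u v
      have eu : ∀ w : Uo k n, cj (s, w) = Subgroup.inclusion huB ⟨_, hs s w⟩ := fun w => rfl
      have et : ∀ w : Uo k n, cj (s, w) * cB s = cB s * Subgroup.inclusion huB w := by
        intro w
        change cB s * Subgroup.inclusion huB w * (cB s)⁻¹ * cB s = _
        rw [inv_mul_cancel_right]
      have em : cj (s, u * v) = cj (s, u) * cj (s, v) := by
        change cB s * Subgroup.inclusion huB (u * v) * (cB s)⁻¹ =
          cB s * Subgroup.inclusion huB u * (cB s)⁻¹ * (cB s * Subgroup.inclusion huB v * (cB s)⁻¹)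
        rw [map_mul]
        group
      have k1 := hkey (cB s) (Subgroup.inclusion huB u) (Subgroup.inclusion huB v)
      have k2 := hkey (cj (s, u)) (cB s) (Subgroup.inclusion huB v)
      have k3 := hkey (cj (s, u)) (cj (s, v)) (cB s)
      have c1 : chB k μ (cj (s, u)) = 1 := by rw [eu]; exact hchU _
      rw [hchC] at k1
      rw [c1, Units.val_one, one_mul] at k2 k3
      rw [et u] at k2
      rw [et v, ← em] at k3
      rw [← map_mul] at k1
      rw [← eu, ← eu]
      change _ = (f (cB s, Subgroup.inclusion huB (u * v)) - f (cj (s, u * v), cB s)) -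
        (f (cB s, Subgroup.inclusion huB u) - f (cj (s, u), cB s)) -
        (f (cB s, Subgroup.inclusion huB v) - f (cj (s, v), cB s))
      linear_combination k2 - k1 - k3
    -- comparison of coefficients
    let x0 : k := if m = 0 then f (1, 1) else 0
    have hcmp : ∀ u v : Uo k n, x0 - f (Subgroup.inclusion huB u, Subgroup.inclusion huB v) =
        (Θ m : Uo k n → k) (u * v) - (Θ m : Uo k n → k) u - (Θ m : Uo k n → k) v := by
      intro u v
      let L : RM k (Uo k n) k →ₗ[k] k :=
        { toFun := fun G => (G : Uo k n → k) (u * v) - (G : Uo k n → k) u - (G : Uo k n → k) v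
          map_add' := fun G G' => by
            simp only [Submodule.coe_add, Pi.add_apply]
            ring
          map_smul' := fun c G => by
            simp only [Submodule.coe_smul, Pi.smul_apply, smul_eq_mul, RingHom.id_apply]
            ring }
      have h4 := d8_lau h12 k N (fun r => a r (u, v)) m hm
        (f (Subgroup.inclusion huB u, Subgroup.inclusion huB v))
        (Θ.mapRange L (map_zero L)) (hN0 (u, v)) (fun s => by
          rw [← haN s u v, hconj s u v]
          have h6 := congrArg L (hΘ s)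
          rw [map_finsuppSum] at h6
          rw [Finsupp.sum_mapRange_index (fun j => smul_zero _)]
          change θ (s, u * v) - θ (s, u) - θ (s, v) = _ at h6
          rw [h6]
          refine Finsupp.sum_congr fun j _ => ?_
          rw [map_smul])
      rw [Finsupp.mapRange_apply] at h4
      have h6 : x0 = if m = 0 then a 0 (u, v) else 0 := by
        change (if m = 0 then f (1, 1) else 0) = _
        rw [ha0]
        rfl
      rw [h6]
      exact h4
    refine hD6 k n μ huB f hf (fun u => (Θ m : Uo k n → k) u + x0) ?_ ?_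
    · refine Subalgebra.add_mem _ ?_ (Subalgebra.algebraMap_mem (regA k (Uo k n)) x0)
      exact ((h3 k (Uo k n) (Bo k n) k k).2.2.2.2.2 _).1 (Θ m).2
    · intro u v
      have h1 := hcmp u v
      linear_combination -h1

end Pool.Agent.Sp49
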