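import Pool.Agent.Lib.MP_49c83e_al.StmC

/-!
MP_49c83e_al, block D: the conclusion for all characters with entries 0, 1, -1.
-/

set_option autoImplicit false

namespace Pool.Agent.Sp49

private theorem d9_le1 {k V : Type} [Field k] [AddCommGroup V] [Module k V] {Z B : Submodule k V}
    (h : Z ≤ B) : Le1 Z B := by
  intro z hz z' _
  refine ⟨1, 0, Or.inl one_ne_zero, ?_⟩
  rw [one_smul, zero_smul, add_zero]
  exact h hz

/-- either the last entry is `1`, or there is a descent, or all entries are nonpositive -/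
private theorem d9_cases (n : ℕ) (μ : Fin n → ℤ) (hμ : ∀ i, μ i = 0 ∨ μ i = 1 ∨ μ i = -1) :
    (∃ hn : 0 < n, μ ⟨n - 1, by omega⟩ = 1) ∨
    (∃ (i : ℕ) (hi : i + 1 < n), μ ⟨i, by omega⟩ = μ ⟨i + 1, hi⟩ + 1) ∨
    (∃ (i : ℕ) (hi : i + 1 < n), μ ⟨i, by omega⟩ = 1 ∧ μ ⟨i + 1, hi⟩ = -1) ∨
    (∀ i, μ i ≤ 0) := by
  by_cases h1 : ∃ hn : 0 < n, μ ⟨n - 1, by omega⟩ = 1
  · exact Or.inl h1
  by_cases h2 : ∃ (i : ℕ) (hi : i + 1 < n), μ ⟨i, by omega⟩ = μ ⟨i + 1, hi⟩ + 1
  · exact Or.inr (Or.inl h2)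
  by_cases h3 : ∃ (i : ℕ) (hi : i + 1 < n), μ ⟨i, by omega⟩ = 1 ∧ μ ⟨i + 1, hi⟩ = -1
  · exact Or.inr (Or.inr (Or.inl h3))
  refine Or.inr (Or.inr (Or.inr fun i => ?_))
  by_contra hi
  have hi1 : μ i = 1 := by rcases hμ i with h | h | h <;> omega
  -- all later entries are 1
  have key : ∀ d : ℕ, ∀ (hd : (i : ℕ) + d < n), μ ⟨(i : ℕ) + d, hd⟩ = 1 := by
    intro d
    induction d with
    | zero => intro hd; exact hi1
    | succ d ih =>
      intro hd
      have h4 := ih (by omega)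
      rcases hμ ⟨(i : ℕ) + (d + 1), hd⟩ with h | h | h
      · exact absurd ⟨(i : ℕ) + d, by omega, by
          rw [h4]
          have : (⟨(i : ℕ) + d + 1, by omega⟩ : Fin n) = ⟨(i : ℕ) + (d + 1), hd⟩ := rfl
          rw [this, h]
          rfl⟩ h2
      · exact h
      · exact absurd ⟨(i : ℕ) + d, by omega, h4, h⟩ h3
  refine h1 ⟨by have := i.2; omega, ?_⟩
  have h5 := key (n - 1 - i) (by have := i.2; omega)
  have h6 : (⟨(i : ℕ) + (n - 1 - i), by have := i.2; omega⟩ : Fin n) = ⟨n - 1, by have := i.2; omega⟩ := by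
    apply Fin.ext
    have := i.2
    simp only
    omega
  rw [h6] at h5
  exact h5

private theorem d9_a (hD1 : S_D1) (hD2 : S_D2) (hD3 : S_D3) (hD8 : S_D8)
    (k : Type) [Field k] [Infinite k] (n : ℕ) (μ : Fin n → ℤ)
    (hμ : ∀ i, μ i = 0 ∨ μ i = 1 ∨ μ i = -1) :
    Le1 (Zc1 (chR k μ)) (Bc1 (chR k μ)) ∧
    ((∀ i, i + 1 < n → μ ≠ al n i) → Zc1 (chR k μ) ≤ Bc1 (chR k μ)) := by
  rcases d9_cases n μ hμ with ⟨hn, h⟩ | ⟨i, hi, h⟩ | ⟨i, hi, h, h'⟩ | h
  · have := (hD2 k n hn μ h).2.1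
    exact ⟨d9_le1 this, fun _ => this⟩
  · have := (hD1 k n i hi μ h).2.1
    exact ⟨d9_le1 this, fun _ => this⟩
  · have := hD3 k n i hi μ (fun l => μ l - al n i l) h h' (fun l => rfl)
    refine ⟨this.2.2.1, fun hne => this.2.2.2 fun h0 => hne i hi ?_⟩
    funext l
    have h1 := congrFun h0 l
    simp only [Pi.zero_apply] at h1
    omega
  · have := (hD8 k n μ h).1
    exact ⟨d9_le1 this, fun _ => this⟩

theorem p_D9 (hD1 : S_D1) (hD2 : S_D2) (hD3 : S_D3) (hD8 : S_D8) : S_D9 := by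
  intro k _ _ n μ hμ
  refine ⟨(d9_a hD1 hD2 hD3 hD8 k n μ hμ).1, (d9_a hD1 hD2 hD3 hD8 k n μ hμ).2, ?_⟩
  rcases d9_cases n μ hμ with ⟨hn, h⟩ | ⟨i, hi, h⟩ | ⟨i, hi, h, h'⟩ | h
  · have := (hD2 k n hn μ h).2.2
    exact ⟨d9_le1 this, fun _ => this⟩
  · have := (hD1 k n i hi μ h).2.2
    exact ⟨d9_le1 this, fun _ => this⟩
  · have h3 := hD3 k n i hi μ (fun l => μ l - al n i l) h h' (fun l => rfl)
    have hμ' : ∀ l, (fun l => μ l - al n i l) l = 0 ∨ (fun l => μ l - al n i l) l = 1 ∨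
        (fun l => μ l - al n i l) l = -1 := by
      intro l
      simp only [al]
      by_cases h1 : (l : ℕ) = i
      · have : l = ⟨i, by omega⟩ := Fin.ext h1
        rw [this, h]
        simp
      · by_cases h2 : (l : ℕ) = i + 1
        · have : l = ⟨i + 1, hi⟩ := Fin.ext h2
          rw [this, h']
          simp
        · rw [if_neg h1, if_neg h2, sub_zero]
          exact hμ l
    have ha := d9_a hD1 hD2 hD3 hD8 k n (fun l => μ l - al n i l) hμ'
    refine ⟨h3.1 ha.1, fun hne => h3.2.1 (ha.2 fun j hj h0 => ?_)⟩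
    have hi' := congrFun h0 ⟨i, by omega⟩
    have hi1' := congrFun h0 ⟨i + 1, hi⟩
    simp only [al] at hi' hi1'
    rw [h] at hi'
    rw [h'] at hi1'
    have hsum : μ = al n i + al n j := by
      funext l
      have h1 : μ l - al n i l = al n j l := congrFun h0 l
      rw [Pi.add_apply, ← h1]
      ring
    have k1 : i ≠ j := by
      rintro rfl
      simp at hi'
    have k2 : i ≠ j + 1 := by
      rintro rfl
      simp at hi'
    have k3 : i + 1 ≠ j := by
      intro h5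
      rw [if_pos h5] at hi1'
      simp at hi1' 
    rcases Nat.lt_or_ge i j with h6 | h6
    · exact hne i j (by omega) hj hsum
    · exact hne j i (by omega) hi (by rw [hsum, add_comm])
  · have := (hD8 k n μ h).2
    exact ⟨d9_le1 this, fun _ => this⟩

end Pool.Agent.Sp49
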