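import Pool.Agent.Lib.MP_49c83e_al.StmE

/-!
MP_49c83e_al, piece E1: calculus of the coefficient functionals.
-/

namespace Pool.Agent.Sp49

open scoped BigOperators

section E1

variable {k : Type} [Field k] [Infinite k] {M M' : Type} [AddCommGroup M] [Module k M]
  [AddCommGroup M'] [Module k M']

private theorem e1_cf (h11 : S_R11) (c : ℕ →₀ M) (r : ℕ) :
    cf r (fun s : k => c.sum fun i m => s ^ i • m) = c r := by
  have h : ∃ c' : ℕ →₀ M, ∀ s : k, (fun s : k => c.sum fun i m => s ^ i • m) s =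
      c'.sum (fun i m => s ^ i • m) := ⟨c, fun s => rfl⟩
  unfold cf
  rw [dif_pos h]
  have h2 := (h11 k M).2.2 c h.choose ∅ Set.finite_empty (fun s _ => h.choose_spec s)
  rw [← h2]

private theorem e1_ex (h11 : S_R11) (F : k → M) (hF : F ∈ RM k k M) :
    ∃ c : ℕ →₀ M, F = fun s : k => c.sum fun i m => s ^ i • m := by
  obtain ⟨c, hc⟩ := (h11 k M).1 F hF
  exact ⟨c, funext hc⟩

private theorem e1_add (h11 : S_R11) (F G : k → M) (r : ℕ) (hF : F ∈ RM k k M)
    (hG : G ∈ RM k k M) : cf r (fun s => F s + G s) = cf r F + cf r G := by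
  obtain ⟨c, rfl⟩ := e1_ex h11 F hF
  obtain ⟨d, rfl⟩ := e1_ex h11 G hG
  have e : (fun s : k => (c.sum fun i m => s ^ i • m) + d.sum fun i m => s ^ i • m) =
      fun s : k => (c + d).sum fun i m => s ^ i • m := by
    funext s
    rw [Finsupp.sum_add_index' (fun i => smul_zero _) (fun i a b => smul_add _ _ _)]
  rw [e, e1_cf h11, e1_cf h11, e1_cf h11, Finsupp.add_apply]

private theorem e1_lin (h11 : S_R11) (F : k → M) (l : M →ₗ[k] M') (r : ℕ) (hF : F ∈ RM k k M) :
    cf r (fun s => l (F s)) = l (cf r F) := by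
  obtain ⟨c, rfl⟩ := e1_ex h11 F hF
  have e : (fun s : k => l (c.sum fun i m => s ^ i • m)) =
      fun s : k => (c.mapRange l (map_zero l)).sum fun i m => s ^ i • m := by
    funext s
    rw [Finsupp.sum_mapRange_index (fun i => smul_zero _), Finsupp.sum, map_sum, Finsupp.sum]
    refine Finset.sum_congr rfl fun i _ => ?_
    rw [map_smul]
  rw [e, e1_cf h11, e1_cf h11, Finsupp.mapRange_apply]

private theorem e1_smul (h11 : S_R11) (F : k → M) (a : k) (r : ℕ) (hF : F ∈ RM k k M) :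
    cf r (fun s => a • F s) = a • cf r F :=
  e1_lin h11 F (a • LinearMap.id) r hF

private theorem e1_zero (h11 : S_R11) (r : ℕ) : cf r (fun _ : k => (0 : M)) = 0 := by
  have h := e1_cf (k := k) h11 (0 : ℕ →₀ M) r
  simpa using h

private theorem e1_sum (h11 : S_R11) {ι : Type} (s : Finset ι) (H : ι → k → M) (r : ℕ)
    (hH : ∀ i, H i ∈ RM k k M) : cf r (fun t => ∑ i ∈ s, H i t) = ∑ i ∈ s, cf r (H i) := by
  classical
  induction s using Finset.induction_on with
  | empty => simpa using e1_zero (k := k) (M := M) h11 r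
  | insert a s ha ih =>
    have e : (fun t : k => ∑ i ∈ insert a s, H i t) = fun t => H a t + ∑ i ∈ s, H i t := by
      funext t
      rw [Finset.sum_insert ha]
    have hm : (fun t : k => ∑ i ∈ s, H i t) ∈ RM k k M := by
      have h1 : ∑ i ∈ s, H i ∈ RM k k M := Submodule.sum_mem _ fun i _ => hH i
      have h2 : (fun t : k => ∑ i ∈ s, H i t) = ∑ i ∈ s, H i := by
        funext t
        rw [Finset.sum_apply]
      rw [h2]
      exact h1
    rw [e, e1_add h11 _ _ r (hH a) hm, ih, Finset.sum_insert ha]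

/-- combination of regular maps with constant scalars -/
private theorem e1_L1 (h11 : S_R11) {N : ℕ} (a : Fin N → k) (G : Fin N → k → M) (r : ℕ)
    (hG : ∀ i, G i ∈ RM k k M) :
    cf r (fun t => ∑ i, a i • G i t) = ∑ i, a i • cf r (G i) := by
  have h := e1_sum h11 Finset.univ (fun i t => a i • G i t) r (fun i =>
    Submodule.smul_mem _ (a i) (hG i))
  rw [h]
  exact Finset.sum_congr rfl fun i _ => e1_smul h11 (G i) (a i) r (hG i)

/-- combination of regular functions with constant vectors -/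
private theorem e1_L2 (h3 : S_R3) (h11 : S_R11) {N : ℕ} (f : Fin N → k → k) (m : Fin N → M)
    (r : ℕ) (hf : ∀ i, f i ∈ regA k k) :
    cf r (fun t => ∑ i, f i t • m i) = ∑ i, cf r (f i) • m i := by
  have hf' : ∀ i, f i ∈ RM k k k := fun i => ((h3 k k k k k).2.2.2.2.2 (f i)).2 (hf i)
  have hm : ∀ i, (fun t => f i t • m i) ∈ RM k k M := fun i =>
    (h3 k k k k M).2.1 (LinearMap.toSpanSingleton k M (m i)) (f i) (hf' i)
  rw [e1_sum h11 Finset.univ (fun i t => f i t • m i) r hm]
  exact Finset.sum_congr rfl fun i _ =>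
    e1_lin h11 (f i) (LinearMap.toSpanSingleton k M (m i)) r (hf' i)

private theorem e1_tcf (h13 : S_R13) {n : ℕ} (c : (Fin n → ℤ) →₀ M) (μ : Fin n → ℤ) :
    tcf μ (fun t : Fin n → kˣ => c.sum fun ν m => chT ν t • m) = c μ := by
  have h : ∃ c' : (Fin n → ℤ) →₀ M, ∀ t, (fun t : Fin n → kˣ => c.sum fun ν m => chT ν t • m) t =
      c'.sum (fun ν m => chT ν t • m) := ⟨c, fun s => rfl⟩
  unfold tcf
  rw [dif_pos h]
  have h2 := (h13 k n M).2.2 c h.choose (fun t => h.choose_spec t)
  rw [← h2]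

private theorem e1_tex (h13 : S_R13) {n : ℕ} (F : (Fin n → kˣ) → M)
    (hF : F ∈ RM k (Fin n → kˣ) M) :
    ∃ c : (Fin n → ℤ) →₀ M, F = fun t : Fin n → kˣ => c.sum fun ν m => chT ν t • m := by
  obtain ⟨c, hc⟩ := (h13 k n M).1 F hF
  exact ⟨c, funext hc⟩

private theorem e1_tadd (h13 : S_R13) {n : ℕ} (F G : (Fin n → kˣ) → M) (μ : Fin n → ℤ)
    (hF : F ∈ RM k (Fin n → kˣ) M) (hG : G ∈ RM k (Fin n → kˣ) M) :
    tcf μ (fun t => F t + G t) = tcf μ F + tcf μ G := by
  obtain ⟨c, rfl⟩ := e1_tex h13 F hF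
  obtain ⟨d, rfl⟩ := e1_tex h13 G hG
  have e : (fun t : Fin n → kˣ => (c.sum fun ν m => chT ν t • m) + d.sum fun ν m => chT ν t • m) =
      fun t : Fin n → kˣ => (c + d).sum fun ν m => chT ν t • m := by
    funext s
    rw [Finsupp.sum_add_index' (fun i => smul_zero _) (fun i a b => smul_add _ _ _)]
  rw [e, e1_tcf h13, e1_tcf h13, e1_tcf h13, Finsupp.add_apply]

private theorem e1_tlin (h13 : S_R13) {n : ℕ} (F : (Fin n → kˣ) → M) (l : M →ₗ[k] M')
    (μ : Fin n → ℤ) (hF : F ∈ RM k (Fin n → kˣ) M) :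
    tcf μ (fun t => l (F t)) = l (tcf μ F) := by
  obtain ⟨c, rfl⟩ := e1_tex h13 F hF
  have e : (fun t : Fin n → kˣ => l (c.sum fun ν m => chT ν t • m)) =
      fun t : Fin n → kˣ => (c.mapRange l (map_zero l)).sum fun ν m => chT ν t • m := by
    funext s
    rw [Finsupp.sum_mapRange_index (fun i => smul_zero _), Finsupp.sum, map_sum, Finsupp.sum]
    refine Finset.sum_congr rfl fun i _ => ?_
    rw [map_smul]
  rw [e, e1_tcf h13, e1_tcf h13, Finsupp.mapRange_apply]

end E1

theorem p_E1 (h3 : S_R3) (h5 : S_R5) (h11 : S_R11) (h13 : S_R13) : S_E1 := by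
  intro k _ _ M M' _ _ _ _
  refine ⟨fun c r => e1_cf h11 c r, fun F G r hF hG => e1_add h11 F G r hF hG, ?_,
    fun F a r hF => e1_smul h11 F a r hF, fun F l r hF => e1_lin h11 F l r hF, ?_, ?_,
    fun n c μ => e1_tcf h13 c μ, fun n F G μ hF hG => e1_tadd h13 F G μ hF hG,
    fun n F l μ hF => e1_tlin h13 F l μ hF⟩
  · intro F G r hF hG
    have h1 : (fun s => (-1 : k) • G s) ∈ RM k k M := Submodule.smul_mem _ (-1 : k) hG
    have h2 := e1_add h11 F (fun s => (-1 : k) • G s) r hF h1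
    rw [e1_smul h11 G (-1) r hG] at h2
    simpa [sub_eq_add_neg] using h2
  · intro X _ F r hF
    obtain ⟨⟨N, f, G, hf, hG, hFe⟩, -⟩ := h5 k X k M F hF
    have e : (fun x => cf r (fun s => F (x, s))) = ∑ i, (fun x => f i x • cf r (G i)) := by
      funext x
      rw [Finset.sum_apply, ← e1_L1 h11 (fun i => f i x) G r hG]
      congr 1
      funext s
      exact hFe x s
    rw [e]
    refine Submodule.sum_mem _ fun i _ => Submodule.subset_span ⟨f i, hf i, cf r (G i), rfl⟩
  · intro F r r' hF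
    obtain ⟨⟨N, f, G, hf, hG, hFe⟩, -⟩ := h5 k k k M F hF
    have e1 : (fun s => cf r' (fun t => F (s, t))) = fun s => ∑ i, f i s • cf r' (G i) := by
      funext s
      rw [← e1_L1 h11 (fun i => f i s) G r' hG]
      congr 1
      funext t
      exact hFe s t
    have e2 : (fun t => cf r (fun s => F (s, t))) = fun t => ∑ i, cf r (f i) • G i t := by
      funext t
      rw [← e1_L2 h3 h11 f (fun i => G i t) r hf]
      congr 1
      funext s
      exact hFe s t
    rw [e1, e2, e1_L2 h3 h11 f (fun i => cf r' (G i)) r hf, e1_L1 h11 (fun i => cf r (f i)) G r' hG]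

end Pool.Agent.Sp49
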