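import Pool.Agent.Lib.MP_49c83e_al.StmE

set_option autoImplicit false

/-!
MP_49c83e_al, E10: the classes x_i and x_i cup x_j.
-/

namespace Pool.Agent.Sp49

open scoped BigOperators

/-- b_(i,i+1) / b_(i+1,i+1) -/
private def e10_c (k : Type) [Field k] (n i : ℕ) (hi : i + 1 < n) (b : Bo k n) : k :=
  ent (b : SpG k n) (Sum.inl ⟨i, by omega⟩) (Sum.inl ⟨i + 1, hi⟩) *
    (((dgB k n ⟨i + 1, hi⟩ b)⁻¹ : kˣ) : k)

private theorem e10_chB_mul {k : Type} [Field k] {n : ℕ} (μ : Fin n → ℤ) (a b : Bo k n) :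
    chB k μ (a * b) = chB k μ a * chB k μ b := by
  unfold chB
  simp only [map_mul, mul_zpow, Finset.prod_mul_distrib]

private theorem e10_chB_add {k : Type} [Field k] {n : ℕ} (μ ν : Fin n → ℤ) (a : Bo k n) :
    chB k (μ + ν) a = chB k μ a * chB k ν a := by
  unfold chB
  simp only [Pi.add_apply, zpow_add, Finset.prod_mul_distrib]

private theorem e10_al {k : Type} [Field k] {n i : ℕ} (hi : i + 1 < n) (a : Bo k n) :
    chB k (al n i) a = dgB k n ⟨i, by omega⟩ a * (dgB k n ⟨i + 1, hi⟩ a)⁻¹ := by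
  unfold chB
  have hne : (⟨i, by omega⟩ : Fin n) ≠ ⟨i + 1, hi⟩ := by
    intro h
    have := congrArg Fin.val h
    simp at this
  rw [Finset.prod_eq_mul (⟨i, by omega⟩ : Fin n) ⟨i + 1, hi⟩ hne]
  · simp [al]
  · intro c _ hc
    have h1 : (c : ℕ) ≠ i := fun h => hc.1 (Fin.ext h)
    have h2 : (c : ℕ) ≠ i + 1 := fun h => hc.2 (Fin.ext h)
    simp [al, h1, h2]
  · intro h
    exact absurd (Finset.mem_univ _) h
  · intro h
    exact absurd (Finset.mem_univ _) h

private theorem e10_ent {k : Type} [Field k] {n i : ℕ} (hi : i + 1 < n) (a b : Bo k n) :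
    ent ((a * b : Bo k n) : SpG k n) (Sum.inl ⟨i, by omega⟩) (Sum.inl ⟨i + 1, hi⟩) =
      (dgB k n ⟨i, by omega⟩ a : k) *
        ent (b : SpG k n) (Sum.inl ⟨i, by omega⟩) (Sum.inl ⟨i + 1, hi⟩) +
      ent (a : SpG k n) (Sum.inl ⟨i, by omega⟩) (Sum.inl ⟨i + 1, hi⟩) *
        (dgB k n ⟨i + 1, hi⟩ b : k) := by
  have hne : (Sum.inl ⟨i, by omega⟩ : Fin n ⊕ Fin n) ≠ Sum.inl ⟨i + 1, hi⟩ := by
    intro h
    have := congrArg Fin.val (Sum.inl_injective h)
    simp at this
  rw [Subgroup.coe_mul, ent_mul,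
    Finset.sum_eq_add (Sum.inl ⟨i, by omega⟩ : Fin n ⊕ Fin n) (Sum.inl ⟨i + 1, hi⟩) hne]
  · rfl
  · intro z _ hz
    by_contra hcon
    obtain ⟨l, hl, rfl⟩ := b.2.1 ⟨i + 1, hi⟩ (Set.mem_univ _) ⟨i + 1, hi⟩ le_rfl z
      (right_ne_zero_of_mul hcon)
    obtain ⟨l2, hl2, h2⟩ := a.2.1 l (Set.mem_univ _) l le_rfl (Sum.inl ⟨i, by omega⟩)
      (left_ne_zero_of_mul hcon)
    have h3 := congrArg Fin.val (Sum.inl_injective h2)
    have h4 : (l2 : ℕ) ≤ l := hl2
    have h5 : (l : ℕ) ≤ i + 1 := hl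
    have h6 : (l : ℕ) ≠ i := fun h => hz.1 (by
      congr 1
      exact Fin.ext h)
    have h7 : (l : ℕ) ≠ i + 1 := fun h => hz.2 (by
      congr 1
      exact Fin.ext h)
    simp only at h3
    omega
  · intro h
    exact absurd (Finset.mem_univ _) h
  · intro h
    exact absurd (Finset.mem_univ _) h

private theorem e10_coc {k : Type} [Field k] {n i : ℕ} (hi : i + 1 < n) (a b : Bo k n) :
    e10_c k n i hi (a * b) = (chB k (al n i) a : k) * e10_c k n i hi b + e10_c k n i hi a := by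
  unfold e10_c
  rw [e10_ent, e10_al hi, map_mul, mul_inv, Units.val_mul, Units.val_mul]
  have h1 : (dgB k n ⟨i + 1, hi⟩ b : k) * (((dgB k n ⟨i + 1, hi⟩ b)⁻¹ : kˣ) : k) = 1 :=
    Units.mul_inv _
  linear_combination (ent (a : SpG k n) (Sum.inl ⟨i, by omega⟩) (Sum.inl ⟨i + 1, hi⟩) *
    (((dgB k n ⟨i + 1, hi⟩ a)⁻¹ : kˣ) : k)) * h1

private theorem e10_entreg (hR9 : S_R9) {k : Type} [Field k] {n : ℕ} (x y : Fin n ⊕ Fin n) :
    (fun b : Bo k n => ent (b : SpG k n) x y) ∈ regA k (Bo k n) :=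
  ⟨fun g : SpG k n => ent g x y, (hR9 k n).2.1 x y, rfl⟩

private theorem e10_invreg (hR8 : S_R8) (hR9 : S_R9) {k : Type} [Field k] {n : ℕ} (l : Fin n) :
    (fun b : Bo k n => (((dgB k n l b)⁻¹ : kˣ) : k)) ∈ regA k (Bo k n) := by
  have h1 : RG k (SpG k n) := (hR9 k n).1
  have h2 : RG k (Bo k n) := (hR8 k (SpG k n) (SpG k n)).2.2.1 (Bo k n)
  exact h2.inv_reg _ (e10_entreg hR9 (Sum.inl l) (Sum.inl l))

private theorem e10_creg (hR8 : S_R8) (hR9 : S_R9) {k : Type} [Field k] {n i : ℕ}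
    (hi : i + 1 < n) : (fun b => e10_c k n i hi b) ∈ regA k (Bo k n) :=
  mul_mem (e10_entreg hR9 _ _) (e10_invreg hR8 hR9 _)

private theorem e10_areg (hR8 : S_R8) (hR9 : S_R9) {k : Type} [Field k] {n i : ℕ}
    (hi : i + 1 < n) : (fun b : Bo k n => ((chB k (al n i) b : kˣ) : k)) ∈ regA k (Bo k n) := by
  have h1 : (fun b : Bo k n => ((chB k (al n i) b : kˣ) : k)) =
      (fun b : Bo k n => ent (b : SpG k n) (Sum.inl ⟨i, by omega⟩) (Sum.inl ⟨i, by omega⟩)) *
      (fun b : Bo k n => (((dgB k n ⟨i + 1, hi⟩ b)⁻¹ : kˣ) : k)) := by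
    funext b
    rw [e10_al hi, Units.val_mul]
    rfl
  rw [h1]
  exact mul_mem (e10_entreg hR9 _ _) (e10_invreg hR8 hR9 _)

private theorem e10_RM {k : Type} [Field k] {X : Type} [RS k X] {f : X → k}
    (hf : f ∈ regA k X) : f ∈ RM k X k :=
  Submodule.subset_span ⟨f, hf, 1, by
    funext x
    simp⟩

private theorem e10_dg {k : Type} [Field k] {n i : ℕ} (hi : i + 1 < n) (s : k) (l : Fin n) :
    dgB k n l (xB i s) = 1 := by
  ext
  change ent (xs (n := n) i s) (Sum.inl l) (Sum.inl l) = 1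
  unfold xs
  rw [dif_pos hi, ent_xr _ _ (by
    intro h
    have := congrArg Fin.val h
    simp at this)]
  simp

private theorem e10_chx {k : Type} [Field k] {n i : ℕ} (hi : i + 1 < n) (s : k)
    (μ : Fin n → ℤ) : chB k μ (xB i s) = 1 := by
  unfold chB
  simp [e10_dg hi]

private theorem e10_cx {k : Type} [Field k] {n i j : ℕ} (hi : i + 1 < n) (hj : j + 1 < n)
    (s : k) : e10_c k n i hi (xB j s) = if i = j then s else 0 := by
  unfold e10_c
  rw [e10_dg hj, inv_one, Units.val_one, mul_one]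
  change ent (xs (n := n) j s) _ _ = _
  unfold xs
  rw [dif_pos hj, ent_xr _ _ (by
    intro h
    have := congrArg Fin.val h
    simp at this)]
  by_cases h : i = j
  · subst h
    simp
  · have h1 : (Sum.inl ⟨i, by omega⟩ : Fin n ⊕ Fin n) ≠ Sum.inl ⟨j, by omega⟩ := by
      intro h2
      exact h (congrArg Fin.val (Sum.inl_injective h2))
    simp [h]

private theorem e10_pr (hE1 : S_E1) {k : Type} [Field k] [Infinite k] {n : ℕ}
    (μ : Fin n → ℤ) : prB (chR k μ) μ (1 : k) = 1 := by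
  unfold prB
  have h1 := (hE1 k k k).2.2.2.2.2.2.2.1 n (Finsupp.single μ 1) μ
  rw [Finsupp.single_eq_same] at h1
  refine Eq.trans ?_ h1
  congr 1
  funext t
  rw [Finsupp.sum_single_index (by simp), chR_apply]
  congr 1
  unfold chB chT
  congr 1
  refine Finset.prod_congr rfl fun i _ => ?_
  congr 1
  ext
  change ent (tor t) (Sum.inl i) (Sum.inl i) = _
  rw [ent_tor]
  simp

private theorem e10_cf (hE1 : S_E1) {k : Type} [Field k] [Infinite k] (a : k) :
    cf 1 (fun s : k => s * a) = a := by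
  have h1 := (hE1 k k k).1 (Finsupp.single 1 a) 1
  rw [Finsupp.single_eq_same] at h1
  refine Eq.trans ?_ h1
  congr 1
  funext s
  rw [Finsupp.sum_single_index (by simp), pow_one, smul_eq_mul]

theorem p_E10 (hE1 : S_E1) (hR8 : S_R8) (hR9 : S_R9) : S_E10 := by
  intro k _ _ n
  refine ⟨fun i hi => ⟨fun b => e10_c k n i hi b, ⟨e10_RM (e10_creg hR8 hR9 hi), ?_⟩, ?_⟩,
    fun i j hij hj => ⟨fun q => e10_c k n i (by omega) q.1 * (chB k (al n j) q.1 : k) *
      e10_c k n j hj q.2, ⟨e10_RM ?_, ?_⟩, ?_⟩⟩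
  · rw [SetLike.mem_coe, LinearMap.mem_ker]
    funext q
    change chR k (al n i) q.1 (e10_c k n i hi q.2) - e10_c k n i hi (q.1 * q.2) +
      e10_c k n i hi q.1 = 0
    rw [e10_coc hi, chR_apply]
    ring
  · unfold ph1
    have h1 : (fun s : k => e10_c k n i hi (xB i s)) = fun s : k => s * 1 := by
      funext s
      rw [e10_cx hi hi, if_pos rfl, mul_one]
    rw [h1, e10_cf hE1]
    exact e10_pr hE1 _
  · have h1 : (fun b : Bo k n => e10_c k n i (by omega) b * (chB k (al n j) b : k)) ∈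
        regA k (Bo k n) := mul_mem (e10_creg hR8 hR9 (by omega)) (e10_areg hR8 hR9 hj)
    exact mul_mem (S := Subalgebra k (Bo k n × Bo k n → k))
      (Algebra.subset_adjoin (Or.inl ⟨_, h1, rfl⟩))
      (Algebra.subset_adjoin (Or.inr ⟨_, e10_creg hR8 hR9 hj, rfl⟩))
  · rw [SetLike.mem_coe, LinearMap.mem_ker]
    funext q
    obtain ⟨a, b, c⟩ := q
    change chR k (al n i + al n j) a (e10_c k n i _ b * (chB k (al n j) b : k) *
        e10_c k n j hj c) -
      e10_c k n i _ (a * b) * (chB k (al n j) (a * b) : k) * e10_c k n j hj c +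
      e10_c k n i _ a * (chB k (al n j) a : k) * e10_c k n j hj (b * c) -
      e10_c k n i _ a * (chB k (al n j) a : k) * e10_c k n j hj b = 0
    rw [e10_coc, e10_coc, chR_apply, e10_chB_add, e10_chB_mul, Units.val_mul, Units.val_mul]
    ring
  · unfold ph2
    have h1 : ∀ s : k, (fun t : k =>
        e10_c k n i (by omega) (xB i s) * (chB k (al n j) (xB i s : Bo k n) : k) *
          e10_c k n j hj (xB j t) -
        e10_c k n i (by omega) (xB j t) * (chB k (al n j) (xB j t : Bo k n) : k) *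
          e10_c k n j hj (xB i s)) = fun t : k => t * s := by
      intro s
      funext t
      rw [e10_cx (by omega) (by omega), e10_cx hj hj, e10_cx (by omega) hj,
        e10_cx hj (by omega), e10_chx (by omega), e10_chx hj, if_pos rfl, if_pos rfl,
        if_neg (by omega), if_neg (by omega), Units.val_one]
      ring
    have h2 : (fun s : k => cf 1 (fun t : k =>
        e10_c k n i (by omega) (xB i s) * (chB k (al n j) (xB i s : Bo k n) : k) *
          e10_c k n j hj (xB j t) -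
        e10_c k n i (by omega) (xB j t) * (chB k (al n j) (xB j t : Bo k n) : k) *
          e10_c k n j hj (xB i s))) = fun s : k => s * 1 := by
      funext s
      rw [h1 s, e10_cf hE1, mul_one]
    rw [h2, e10_cf hE1]
    exact e10_pr hE1 _

end Pool.Agent.Sp49
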