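import Pool.Agent.Lib.MP_49c83e_al.StmE

/-!
MP_49c83e_al, piece E11: one dimensional modules.
-/

namespace Pool.Agent.Sp49

open scoped BigOperators

section

variable {k : Type} [Field k] {n : ℕ}

private theorem e11_RM {X M M' : Type} [RS k X] [AddCommGroup M] [Module k M] [AddCommGroup M'] [Module k M']
    (l : M →ₗ[k] M') (F : X → M) (hF : F ∈ RM k X M) : (fun x => l (F x)) ∈ RM k X M' := by
  unfold RM at hF
  induction hF using Submodule.span_induction with
  | mem F h =>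
    obtain ⟨f, hf, m, rfl⟩ := h
    apply Submodule.subset_span
    exact ⟨f, hf, l m, by funext x; simp⟩
  | zero =>
    have : (fun x : X => l ((0 : X → M) x)) = 0 := by funext x; simp
    rw [this]
    exact Submodule.zero_mem _
  | add F G _ _ h1 h2 =>
    have : (fun x : X => l ((F + G) x)) = (fun x => l (F x)) + fun x => l (G x) := by funext x; simp
    rw [this]
    exact Submodule.add_mem _ h1 h2
  | smul a F _ h1 =>
    have : (fun x : X => l ((a • F) x)) = a • fun x => l (F x) := by funext x; simp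
    rw [this]
    exact Submodule.smul_mem _ a h1

private theorem e11_d1 {Γ M M' : Type} [Group Γ] [AddCommGroup M] [Module k M] [AddCommGroup M'] [Module k M']
    (ρ : Representation k Γ M) (ρ' : Representation k Γ M') (l : M →ₗ[k] M')
    (hl : ∀ b m, l (ρ b m) = ρ' b (l m)) (ψ : Γ → M) :
    d1 ρ' (fun b => l (ψ b)) = fun q => l (d1 ρ ψ q) := by
  funext q
  simp only [d1, LinearMap.coe_mk, AddHom.coe_mk, map_add, map_sub, hl]

private theorem e11_d2 {Γ M M' : Type} [Group Γ] [AddCommGroup M] [Module k M] [AddCommGroup M'] [Module k M']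
    (ρ : Representation k Γ M) (ρ' : Representation k Γ M') (l : M →ₗ[k] M')
    (hl : ∀ b m, l (ρ b m) = ρ' b (l m)) (f : Γ × Γ → M) :
    d2 ρ' (fun q => l (f q)) = fun q => l (d2 ρ f q) := by
  funext q
  simp only [d2, LinearMap.coe_mk, AddHom.coe_mk, map_add, map_sub, hl]

private theorem e11_Zc1 {Γ M M' : Type} [Group Γ] [RS k Γ] [AddCommGroup M] [Module k M] [AddCommGroup M'] [Module k M']
    (ρ : Representation k Γ M) (ρ' : Representation k Γ M') (l : M →ₗ[k] M')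
    (hl : ∀ b m, l (ρ b m) = ρ' b (l m)) (ψ : Γ → M) (h : ψ ∈ Zc1 ρ) : (fun b => l (ψ b)) ∈ Zc1 ρ' := by
  refine ⟨e11_RM l ψ h.1, ?_⟩
  have h2 : d1 ρ ψ = 0 := h.2
  rw [SetLike.mem_coe, LinearMap.mem_ker, e11_d1 ρ ρ' l hl, h2]
  funext q
  simp

private theorem e11_Zc2 {Γ M M' : Type} [Group Γ] [RS k Γ] [AddCommGroup M] [Module k M] [AddCommGroup M'] [Module k M']
    (ρ : Representation k Γ M) (ρ' : Representation k Γ M') (l : M →ₗ[k] M')
    (hl : ∀ b m, l (ρ b m) = ρ' b (l m)) (f : Γ × Γ → M) (h : f ∈ Zc2 ρ) : (fun b => l (f b)) ∈ Zc2 ρ' := by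
  refine ⟨e11_RM l f h.1, ?_⟩
  have h2 : d2 ρ f = 0 := h.2
  rw [SetLike.mem_coe, LinearMap.mem_ker, e11_d2 ρ ρ' l hl, h2]
  funext q
  simp

private theorem e11_Bc2 {Γ M M' : Type} [Group Γ] [RS k Γ] [AddCommGroup M] [Module k M] [AddCommGroup M'] [Module k M']
    (ρ : Representation k Γ M) (ρ' : Representation k Γ M') (l : M →ₗ[k] M')
    (hl : ∀ b m, l (ρ b m) = ρ' b (l m)) (f : Γ × Γ → M) (h : f ∈ Bc2 ρ) : (fun b => l (f b)) ∈ Bc2 ρ' := by
  obtain ⟨ψ, hψ, rfl⟩ := h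
  exact ⟨fun b => l (ψ b), e11_RM l ψ hψ, e11_d1 ρ ρ' l hl ψ⟩

private theorem e11_chB (μ : Fin n → ℤ) (t : Fin n → kˣ) : ((chB k μ (torB t) : kˣ) : k) = chT μ t := by
  unfold chB chT
  congr 1
  apply Finset.prod_congr rfl
  intro i _
  congr 1
  ext
  show ent (tor t) (Sum.inl i) (Sum.inl i) = _
  simp [ent_tor]

private theorem e11_al {i j : ℕ} (hi : i + 1 < n) (hij : i ≠ j) : al n i ≠ al n j := by
  intro h
  have h1 := congrFun h ⟨i, by omega⟩
  simp only [al, if_true, hij, if_false] at h1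
  split_ifs at h1 <;> omega

private theorem e11_al2 {i j l : ℕ} (hij : i + 2 ≤ j) (hj : j + 1 < n) : al n i + al n j ≠ al n l := by
  intro h
  have h1 := congrFun h ⟨i, by omega⟩
  have h2 := congrFun h ⟨j, by omega⟩
  simp only [al, Pi.add_apply, if_true] at h1 h2
  split_ifs at h1 h2 <;> omega

/-- every vector has weight mu; a vector of another weight vanishes -/
private theorem e11_wt (hE2 : S_E2) [Infinite k] {N : Type} [AddCommGroup N] [Module k N] (ρ : Representation k (Bo k n) N)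
    (μ : Fin n → ℤ) (v : N) (hρ : IsRat ρ) (hv : ∀ m : N, ∃ c : k, m = c • v)
    (hb : ∀ b : Bo k n, ρ b v = ((chB k μ b : kˣ) : k) • v) (ν : Fin n → ℤ) (hν : μ ≠ ν) (w : N)
    (hw : w ∈ wtB ρ ν) : w = 0 := by
  have h1 : w ∈ wtB ρ μ := by
    intro t
    obtain ⟨c, rfl⟩ := hv w
    rw [map_smul, hb, e11_chB, smul_comm]
  obtain ⟨-, -, -, -, -, h6, h7, -⟩ := hE2 k n N N ρ ρ hρ hρ
  rw [← h6 μ w h1]
  exact h7 μ ν w hw hν

end

theorem p_E11 (hD9 : S_D9) (hE2 : S_E2) (hE3 : S_E3) (hE4 : S_E4) (hE10 : S_E10) (hD0 : S_D0) : S_E11 := by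
  intro k _ _ n N _ _ ρ μ v hρ hμ hv hv0 hb
  -- the isomorphism
  let l : k →ₗ[k] N := LinearMap.toSpanSingleton k N v
  have hl1 : ∀ c, l c = c • v := fun c => LinearMap.toSpanSingleton_apply k N v c
  have hbij : Function.Bijective l := by
    constructor
    · intro a b hab
      rw [hl1, hl1] at hab
      exact smul_left_injective k hv0 hab
    · intro m
      obtain ⟨c, hc⟩ := hv m
      exact ⟨c, by rw [hl1, hc]⟩
  let e : k ≃ₗ[k] N := LinearEquiv.ofBijective l hbij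
  have he : ∀ c, e c = c • v := hl1
  let l' : N →ₗ[k] k := e.symm.toLinearMap
  have hll' : ∀ m, l (l' m) = m := fun m => e.apply_symm_apply m
  have hl'l : ∀ c, l' (l c) = c := fun c => e.symm_apply_apply c
  have hl : ∀ b c, l (chR k μ b c) = ρ b (l c) := by
    intro b c
    rw [hl1, hl1, map_smul, hb, chR_apply, smul_smul, mul_comm]
  have hl' : ∀ b m, l' (ρ b m) = chR k μ b (l' m) := by
    intro b m
    have h1 := hl b (l' m)
    rw [hll'] at h1
    rw [← h1, hl'l]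
  have hch : IsRat (chR k μ) := hD0 k n μ
  have hwt := fun ν hν w hw => e11_wt hE2 ρ μ v hρ hv hb ν hν w hw
  have hwt' := fun ν hν w hw => e11_wt hE2 (chR k μ) μ (1 : k) hch (fun m => ⟨m, by simp⟩)
    (fun b => by rw [chR_apply, smul_eq_mul]) ν hν w hw
  obtain ⟨-, -, h43, -, -, h46, h47, h48, h49, -⟩ := hE4 k n N k ρ (chR k μ) hρ hch
  obtain ⟨g41, g42, g43, g44, g45, g46, g47, g48, g49, g40⟩ := hE4 k n k N (chR k μ) ρ hch hρ
  obtain ⟨-, h32, -⟩ := hE3 k n N N ρ ρ hρ hρ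
  obtain ⟨-, g32, -⟩ := hE3 k n k k (chR k μ) (chR k μ) hch hch
  have hE0 : ∀ i, Eo ρ i 0 = 0 := by
    intro i
    have := h32 i 0 0
    rwa [zero_smul, zero_smul] at this
  have hE0' : ∀ i, Eo (chR k μ) i 0 = 0 := by
    intro i
    have := g32 i 0 0
    rwa [zero_smul, zero_smul] at this
  obtain ⟨h10a, h10b⟩ := hE10 k n
  obtain ⟨-, -, h93, h94⟩ := hD9 k n μ hμ
  constructor
  · rintro f hf ⟨y, hy, hyf⟩
    have hf' : (fun q => l' (f q)) ∈ Zc2 (chR k μ) := e11_Zc2 ρ _ l' hl' f hf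
    suffices h : (fun q => l' (f q)) ∈ Bc2 (chR k μ) by
      have h2 := e11_Bc2 (chR k μ) ρ l hl _ h
      simpa only [hll'] using h2
    by_cases hμ2 : ∀ i j, i + 2 ≤ j → j + 1 < n → μ ≠ al n i + al n j
    · exact h94 hμ2 hf'
    · push Not at hμ2
      obtain ⟨i, j, hij, hj, hμij⟩ := hμ2
      have hne : ∀ a, μ ≠ al n a := fun a => by rw [hμij]; exact e11_al2 hij hj
      have hy0 : ∀ a, a + 1 < n → y a = 0 := fun a ha => hwt _ (hne a) _ (hy a ha)
      have hph : ph2 (chR k μ) i j (fun q => l' (f q)) = 0 := by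
        rw [h43 i j f hf.1 l' hl', hyf i j hij hj, hy0 i (by omega), hy0 j hj, hE0, hE0, sub_zero, map_zero]
      obtain ⟨g, hg, hg1⟩ := h10b i j hij hj
      rw [← hμij] at hg hg1
      obtain ⟨c, c', hcc, ψ, hψ, hψe⟩ := h93 _ hf' g hg
      have h0 : ph2 (chR k μ) i j (d1 (chR k μ) ψ) = 0 := by
        rw [g40 i j ψ hij hj hψ, hwt' _ (hne j) _ (g48 j ψ), hwt' _ (hne i) _ (g48 i ψ), hE0', hE0', sub_zero]
      have h1 : c' = 0 := by
        rw [hψe, g41 i j _ _ (Submodule.smul_mem _ _ hf'.1) (Submodule.smul_mem _ _ hg.1),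
          g42 i j _ _ hf'.1, g42 i j _ _ hg.1, hph, hg1, smul_zero, zero_add, smul_eq_mul, mul_one] at h0
        exact h0
      have hc : c ≠ 0 := hcc.resolve_right (fun h => h h1)
      rw [h1, zero_smul, add_zero] at hψe
      refine ⟨c⁻¹ • ψ, Submodule.smul_mem _ _ hψ, ?_⟩
      rw [map_smul, hψe, smul_smul, inv_mul_cancel₀ hc, one_smul]
  · intro y hy _
    by_cases hμ1 : ∃ i, i + 1 < n ∧ μ = al n i
    · obtain ⟨i, hi, hμi⟩ := hμ1
      obtain ⟨c, hc, hc1⟩ := h10a i hi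
      rw [← hμi] at hc hc1
      have hc' : (l' (y i)) • c ∈ Zc1 (chR k μ) := Submodule.smul_mem _ _ hc
      refine ⟨fun b => l (((l' (y i)) • c) b), e11_Zc1 _ ρ l hl _ hc', ?_⟩
      intro a ha
      by_cases hia : i = a
      · subst hia
        rw [g47 i _ hc'.1 l hl, g46 i _ _ hc.1, hc1, smul_eq_mul, mul_one, hll']
      · have hne : μ ≠ al n a := by rw [hμi]; exact e11_al hi hia
        rw [hwt _ hne _ (hy a ha), hwt _ hne _ (h48 a _)]
    · push Not at hμ1
      refine ⟨0, Submodule.zero_mem _, fun a ha => ?_⟩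
      rw [hwt _ (hμ1 a ha) _ (hy a ha), hwt _ (hμ1 a ha) _ (h48 a _)]

end Pool.Agent.Sp49
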