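import Pool.Agent.Lib.MP_49c83e_al.StmE
import Pool.Agent.Lib.MP_49c83e_al.StmC
import Pool.Agent.Lib.MP_49c83e_al.StmR

namespace Pool.Agent.Sp49

open scoped BigOperators

private theorem e13_inc (k : Type) [Field k] (n : ℕ) :
    IsReg k (fun b : Bo k n => (b : SpG k n)) := by
  intro f hf
  exact ⟨f, hf, rfl⟩

theorem p_E13 (hR2 : S_R2) (hR3 : S_R3) (hC4 : S_C4) (hE12 : S_E12) : S_E13 := by
  intro k _ _ n M _ _ _ ρ hρ hsm
  have hres : IsRat (resB ρ) := by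
    intro m
    exact (hR3 k (Bo k n) (SpG k n) M M).1 (fun b => (b : SpG k n)) (fun g => ρ g m)
      (e13_inc k n) (hρ m)
  have hwt : ∀ μ, wtB (resB ρ) μ = wtG ρ μ := fun μ => rfl
  refine ⟨hres, ?_⟩
  intro f hf
  have hinc2 : IsReg k (fun q : Bo k n × Bo k n => ((q.1 : SpG k n), (q.2 : SpG k n))) := by
    have h1 : IsReg k (fun q : Bo k n × Bo k n => (q.1 : SpG k n)) :=
      (hR2 k (Bo k n × Bo k n) (Bo k n) (SpG k n)).2.1 (fun q => q.1) (fun b => (b : SpG k n))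
        (hR2 k (Bo k n) (Bo k n) (Bo k n)).2.2.2.1 (e13_inc k n)
    have h2 : IsReg k (fun q : Bo k n × Bo k n => (q.2 : SpG k n)) :=
      (hR2 k (Bo k n × Bo k n) (Bo k n) (SpG k n)).2.1 (fun q => q.2) (fun b => (b : SpG k n))
        (hR2 k (Bo k n) (Bo k n) (Bo k n)).2.2.2.2.1 (e13_inc k n)
    exact (hR2 k (Bo k n × Bo k n) (SpG k n) (SpG k n)).2.2.2.2.2 _ _ h1 h2
  have hf' : (fun q : Bo k n × Bo k n => f ((q.1 : SpG k n), (q.2 : SpG k n))) ∈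
      Zc2 (resB ρ) := by
    refine ⟨(hR3 k (Bo k n × Bo k n) (SpG k n × SpG k n) M M).1 _ f hinc2 hf.1, ?_⟩
    rw [SetLike.mem_coe, LinearMap.mem_ker]
    have h0 : d2 ρ f = 0 := LinearMap.mem_ker.mp hf.2
    funext q
    have := congrFun h0 ((q.1 : SpG k n), (q.2.1 : SpG k n), (q.2.2 : SpG k n))
    exact this
  refine ⟨hf', ?_⟩
  rintro ⟨y, hy, hph⟩
  have hsmall : SmallB (resB ρ) := fun μ hμ i => hsm μ hμ i
  have hM := (hE12 k n _ M (resB ρ) hres rfl hsmall).1 _ hf' ⟨y, hy, hph⟩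
  obtain ⟨ψ, hψ, he⟩ := hM
  refine hC4 k n M ρ hρ f hf ψ hψ ?_
  intro a b
  have := congrFun he (a, b)
  exact this.symm

end Pool.Agent.Sp49
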