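import Pool.Agent.Lib.MP_49c83e_al.StmE

set_option autoImplicit false

/-!
MP_49c83e_al, [E3]: raising operators.
-/

namespace Pool.Agent.Sp49

open scoped BigOperators
open Matrix

section

variable {k : Type} [Field k] {n : ℕ}

private theorem e3_xr_comm (a b a' b' : Fin n) (hab' : a ≠ b') (hba' : b ≠ a') (s t : k) :
    xr a b s * xr a' b' t = xr a' b' t * xr a b s := by
  by_cases h : a ≠ b
  · by_cases h' : a' ≠ b'
    · apply Subtype.ext
      simp only [xr, h, h', ne_eq, not_false_eq_true, dif_pos, Submonoid.coe_mul,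
        Matrix.fromBlocks_multiply]
      have e1 : Matrix.single a b s * Matrix.single a' b' t = 0 := by
        rw [Matrix.single_mul_single_of_ne]
        exact hba'
      have e2 : Matrix.single a' b' t * Matrix.single a b s = 0 := by
        rw [Matrix.single_mul_single_of_ne]
        exact hab'.symm
      have e3 : Matrix.single b a s * Matrix.single b' a' t = 0 := by
        rw [Matrix.single_mul_single_of_ne]
        exact hab'
      have e4 : Matrix.single b' a' t * Matrix.single b a s = 0 := by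
        rw [Matrix.single_mul_single_of_ne]
        exact hba'.symm
      congr 1
      · simp [Matrix.add_mul, Matrix.mul_add, e1, e2]
        abel
      · simp
      · simp
      · simp [Matrix.sub_mul, Matrix.mul_sub, e3, e4]
        abel
    · simp [xr, h']
  · simp [xr, h]

private theorem e3_xB_comm (i j : ℕ) (s t : k) (hij : i + 2 ≤ j) :
    (xB i s : Bo k n) * xB j t = xB j t * xB i s := by
  apply Subtype.ext
  change xs (n := n) i s * xs j t = xs j t * xs i s
  unfold xs
  split_ifs with h1 h2 h2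
  · apply e3_xr_comm
    · intro h
      have := congrArg Fin.val h
      simp at this
      omega
    · intro h
      have := congrArg Fin.val h
      simp at this
      omega
  · simp
  · simp
  · simp

private theorem e3_diag (d : Fin n → k) (a b : Fin n) (s s' : k) (h : d a * s = s' * d b) :
    Matrix.diagonal d * Matrix.single a b s = Matrix.single a b s' * Matrix.diagonal d := by
  ext x y
  rw [Matrix.diagonal_mul, Matrix.mul_diagonal, Matrix.single_apply, Matrix.single_apply]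
  split_ifs with h1
  · rw [← h1.1, ← h1.2]
    exact h
  · simp

private theorem e3_tor_xr (a b : Fin n) (hab : a ≠ b) (t : Fin n → kˣ) (s : k) :
    tor t * xr a b s = xr a b ((((t a) * (t b)⁻¹ : kˣ) : k) * s) * tor t := by
  apply Subtype.ext
  simp only [xr, tor, hab, ne_eq, not_false_eq_true, dif_pos, Submonoid.coe_mul,
    Matrix.fromBlocks_multiply]
  have h1 : (t a : k) ≠ 0 := (t a).ne_zero
  have h2 : (t b : k) ≠ 0 := (t b).ne_zero
  congr 1
  · simp only [Matrix.mul_zero, add_zero, Matrix.mul_add, Matrix.mul_one,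
      Matrix.add_mul, Matrix.one_mul]
    congr 1
    apply e3_diag
    push_cast
    field_simp
  · simp
  · simp
  · simp only [Matrix.mul_zero, zero_add, Matrix.mul_sub, Matrix.mul_one,
      Matrix.sub_mul, Matrix.one_mul]
    congr 1
    apply e3_diag
    push_cast
    field_simp

private theorem e3_torB_xB (i : ℕ) (hi : i + 1 < n) (t : Fin n → kˣ) (s : k) :
    (torB t : Bo k n) * xB i s =
      xB i ((((t ⟨i, by omega⟩) * (t ⟨i + 1, hi⟩)⁻¹ : kˣ) : k) * s) * torB t := by
  apply Subtype.ext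
  change tor t * xs (n := n) i s = xs i _ * tor t
  unfold xs
  rw [dif_pos hi, dif_pos hi]
  apply e3_tor_xr
  intro h
  have := congrArg Fin.val h
  simp at this

private theorem e3_chT (μ : Fin n → ℤ) (i : ℕ) (hi : i + 1 < n) (t : Fin n → kˣ) :
    (chT (μ + al n i) t : k) =
      chT μ t * (((t ⟨i, by omega⟩) * (t ⟨i + 1, hi⟩)⁻¹ : kˣ) : k) := by
  unfold chT
  rw [← Units.val_mul]
  congr 1
  have h1 : ∏ l, t l ^ (μ + al n i) l = (∏ l, t l ^ μ l) * ∏ l, t l ^ (al n i l) := by
    rw [← Finset.prod_mul_distrib]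
    refine Finset.prod_congr rfl fun l _ => ?_
    rw [Pi.add_apply, _root_.zpow_add]
  rw [h1]
  congr 1
  have hne : (⟨i, by omega⟩ : Fin n) ≠ ⟨i + 1, hi⟩ := by
    intro h
    have := congrArg Fin.val h
    simp at this
  rw [Finset.prod_eq_mul (⟨i, by omega⟩ : Fin n) ⟨i + 1, hi⟩ hne]
  · simp [al]
  · intro l _ hl
    have h2 : (l : ℕ) ≠ i := fun h => hl.1 (Fin.ext h)
    have h3 : (l : ℕ) ≠ i + 1 := fun h => hl.2 (Fin.ext h)
    simp [al, h2, h3]
  · intro h
    exact absurd (Finset.mem_univ _) h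
  · intro h
    exact absurd (Finset.mem_univ _) h

end

private theorem e3_scale (hR11 : S_R11) (hE1 : S_E1) {k : Type} [Field k] [Infinite k] {M : Type}
    [AddCommGroup M] [Module k M] (F : k → M) (hF : F ∈ RM k k M) (x : k) :
    (fun s => F (x * s)) ∈ RM k k M ∧ cf 1 (fun s => F (x * s)) = x • cf 1 F := by
  obtain ⟨c, hc⟩ := (hR11 k M).1 F hF
  have h1 := (hE1 k M M).1
  have e1 : F = fun s => c.sum fun i m => s ^ i • m := funext hc
  have e2 : (fun s => F (x * s)) =
      fun s => (Finsupp.onFinset c.support (fun i => x ^ i • c i) (fun i hi => by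
        rw [Finsupp.mem_support_iff]
        intro h0
        exact hi (by rw [h0, smul_zero]))).sum fun i m => s ^ i • m := by
    funext s
    rw [hc, Finsupp.onFinset_sum _ (fun i => smul_zero _), Finsupp.sum]
    refine Finset.sum_congr rfl fun i _ => ?_
    rw [mul_pow, smul_smul, mul_comm]
  rw [e2]
  refine ⟨(hR11 k M).2.1 _, ?_⟩
  rw [h1, e1, h1]
  simp

theorem p_E3 (hE1 : S_E1) (hE2 : S_E2) (hR2 : S_R2) (hR3 : S_R3) (hR7 : S_R7) (hR11 : S_R11) :
    S_E3 := by
  intro k _ _ n N N' _ _ _ _ ρ ρ' hρ hρ'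
  obtain ⟨_, a2, _, a4, a5, _, a7, _, _, _⟩ := hE1 k N N'
  obtain ⟨_, _, _, _, b5, _, _, _, _, _⟩ := hE1 k N N
  obtain ⟨_, x2, p1, p2, p3, p4, p5, p6, _⟩ := hE2 k n N N' ρ ρ' hρ hρ'
  have hreg : ∀ (i : ℕ) (a : N), (fun s : k => ρ (xB i s) a) ∈ RM k k N := fun i a =>
    (hR3 k k (Bo k n) N N).1 (fun s => xB i s) (fun g => ρ g a) (x2 i) (hρ a)
  have hadd : ∀ i (a b : N), Eo ρ i (a + b) = Eo ρ i a + Eo ρ i b := by
    intro i a b
    unfold Eo
    rw [← a2 _ _ 1 (hreg i a) (hreg i b)]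
    congr 1
    funext s
    exact map_add _ _ _
  have hsmul : ∀ i (c : k) (a : N), Eo ρ i (c • a) = c • Eo ρ i a := by
    intro i c a
    unfold Eo
    rw [← a4 _ c 1 (hreg i a)]
    congr 1
    funext s
    exact map_smul _ _ _
  have hnat : ∀ l : N →ₗ[k] N', (∀ b m, l (ρ b m) = ρ' b (l m)) → ∀ i (a : N),
      Eo ρ' i (l a) = l (Eo ρ i a) := by
    intro l hl i a
    unfold Eo
    rw [← a5 _ l 1 (hreg i a)]
    congr 1
    funext s
    exact (hl _ _).symm
  have hwt : ∀ i (μ : Fin n → ℤ) (a : N), i + 1 < n → a ∈ wtB ρ μ →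
      Eo ρ i a ∈ wtB ρ (μ + al n i) := by
    intro i μ a hi ha t
    have h1 : ρ (torB t) (Eo ρ i a) = cf 1 (fun s => ρ (torB t) (ρ (xB i s) a)) :=
      (b5 _ (ρ (torB t)) 1 (hreg i a)).symm
    have h2 : (fun s : k => ρ (torB t) (ρ (xB i s) a)) =
        fun s => chT μ t • ρ (xB i ((((t ⟨i, by omega⟩) * (t ⟨i + 1, hi⟩)⁻¹ : kˣ) : k) * s)) a := by
      funext s
      rw [← Module.End.mul_apply, ← map_mul, e3_torB_xB i hi, map_mul, Module.End.mul_apply, ha t,
        map_smul]
    rw [h1, h2, e3_chT μ i hi t]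
    obtain ⟨h4, h3⟩ := e3_scale hR11 hE1 (fun s : k => ρ (xB i s) a) (hreg i a)
      (((t ⟨i, by omega⟩) * (t ⟨i + 1, hi⟩)⁻¹ : kˣ) : k)
    rw [a4 _ (chT μ t) 1 h4, h3, smul_smul]
    rfl
  have hpr : ∀ i (μ : Fin n → ℤ) (a : N), i + 1 < n →
      prB ρ (μ + al n i) (Eo ρ i a) = Eo ρ i (prB ρ μ a) := by
    intro i μ a hi
    have hE0 : Eo ρ i 0 = 0 := by
      have h := hsmul i 0 0
      rwa [zero_smul, zero_smul] at h
    have hp0 : prB ρ (μ + al n i) 0 = 0 := by
      have h := p2 (μ + al n i) 0 0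
      rwa [zero_smul, zero_smul] at h
    let E : N →+ N := ⟨⟨Eo ρ i, hE0⟩, hadd i⟩
    let P : N →+ N := ⟨⟨prB ρ (μ + al n i), hp0⟩, p1 (μ + al n i)⟩
    obtain ⟨S, hS1, hS2⟩ := p6 a
    have h1 : ∀ ν : Fin n → ℤ, P (E (prB ρ ν a)) = if ν = μ then Eo ρ i (prB ρ μ a) else 0 := by
      intro ν
      have h2 := hwt i ν _ hi (p3 ν a)
      split_ifs with h
      · subst h
        exact p4 _ _ h2
      · exact p5 _ _ _ h2 (fun h3 => h (add_right_cancel h3).symm)
    have h2 : prB ρ (μ + al n i) (Eo ρ i a) = P (E a) := rfl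
    rw [h2]
    conv_lhs => rw [hS1]
    rw [map_sum, map_sum, Finset.sum_congr rfl (fun ν _ => h1 ν), Finset.sum_ite_eq']
    split_ifs with h
    · rfl
    · rw [hS2 μ h, hE0]
  have hcomm : ∀ i j (a : N), i + 2 ≤ j → Eo ρ i (Eo ρ j a) = Eo ρ j (Eo ρ i a) := by
    intro i j a hij
    have hF : (fun q : k × k => ρ (xB i q.1) (ρ (xB j q.2) a)) ∈ RM k (k × k) N := by
      refine hR7 k (k × k) (Bo k n) N ρ hρ (fun q => xB i q.1) (fun q => ρ (xB j q.2) a) ?_ ?_
      · exact (hR2 (k) (k × k) k (Bo k n)).2.1 (fun q => q.1) (fun s => xB i s)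
          (hR2 k k k k).2.2.2.1 (x2 i)
      · exact (hR3 k (k × k) k N N).1 (fun q => q.2) (fun t => ρ (xB j t) a)
          (hR2 k k k k).2.2.2.2.1 (hreg j a)
    have h1 : Eo ρ i (Eo ρ j a) =
        cf 1 (fun s : k => cf 1 (fun t : k => ρ (xB i s) (ρ (xB j t) a))) := by
      change cf 1 (fun s : k => ρ (xB i s) (Eo ρ j a)) = _
      congr 1
      funext s
      exact (b5 _ (ρ (xB i s)) 1 (hreg j a)).symm
    have h2 : Eo ρ j (Eo ρ i a) =
        cf 1 (fun t : k => cf 1 (fun s : k => ρ (xB j t) (ρ (xB i s) a))) := by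
      change cf 1 (fun t : k => ρ (xB j t) (Eo ρ i a)) = _
      congr 1
      funext t
      exact (b5 _ (ρ (xB j t)) 1 (hreg i a)).symm
    rw [h1, h2, a7 (fun q : k × k => ρ (xB i q.1) (ρ (xB j q.2) a)) 1 1 hF]
    congr 1
    funext t
    congr 1
    funext s
    rw [← Module.End.mul_apply, ← map_mul, e3_xB_comm i j s t hij, map_mul, Module.End.mul_apply]
  exact ⟨hadd, hsmul, hnat, hpr, hwt, fun i j s t hij => e3_xB_comm i j s t hij, hcomm⟩

end Pool.Agent.Sp49
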