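import Pool.Agent.Lib.MP_49c83e_al.StmE

/-!
MP_49c83e_al, piece E4: the maps phi, linearity, naturality, coboundary formula.
-/

namespace Pool.Agent.Sp49

open scoped BigOperators

/-- slices of regular maps on k × k -/
private theorem e4_slice (hR2 : S_R2) (hR3 : S_R3) {k : Type} [Field k] {X Y N : Type} [RS k X]
    [RS k Y] [AddCommGroup N] [Module k N] {F : X × Y → N} (hF : F ∈ RM k (X × Y) N) (x : X) :
    (fun t : Y => F (x, t)) ∈ RM k Y N := by
  have h1 : IsReg k (fun t : Y => (x, t)) :=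
    (hR2 k Y X Y).2.2.2.2.2 (fun _ => x) (fun t => t) ((hR2 k Y X X).2.2.1 x) (hR2 k Y Y Y).1
  exact (hR3 k Y (X × Y) N N).1 _ F h1 hF

/-- pull back of a regular map on a product along two regular maps, both orders -/
private theorem e4_pull (hR2 : S_R2) (hR3 : S_R3) {k : Type} [Field k] {B N : Type} [RS k B]
    [AddCommGroup N] [Module k N] {f : B × B → N} (hf : f ∈ RM k (B × B) N) {a b : k → B}
    (ha : IsReg k a) (hb : IsReg k b) :
    (fun q : k × k => f (a q.1, b q.2)) ∈ RM k (k × k) N ∧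
    (fun q : k × k => f (b q.2, a q.1)) ∈ RM k (k × k) N := by
  have h1 : IsReg k (fun q : k × k => a q.1) :=
    (hR2 k (k × k) k B).2.1 (fun q => q.1) a (hR2 k k k k).2.2.2.1 ha
  have h2 : IsReg k (fun q : k × k => b q.2) :=
    (hR2 k (k × k) k B).2.1 (fun q => q.2) b (hR2 k k k k).2.2.2.2.1 hb
  exact ⟨(hR3 k (k × k) (B × B) N N).1 _ f ((hR2 k (k × k) B B).2.2.2.2.2 _ _ h1 h2) hf,
    (hR3 k (k × k) (B × B) N N).1 _ f ((hR2 k (k × k) B B).2.2.2.2.2 _ _ h2 h1) hf⟩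

/-- the antisymmetrised pull back -/
private theorem e4_anti (hR2 : S_R2) (hR3 : S_R3) {k : Type} [Field k] {B N : Type} [RS k B]
    [AddCommGroup N] [Module k N] {f : B × B → N} (hf : f ∈ RM k (B × B) N) {a b : k → B}
    (ha : IsReg k a) (hb : IsReg k b) :
    (fun q : k × k => f (a q.1, b q.2) - f (b q.2, a q.1)) ∈ RM k (k × k) N :=
  Submodule.sub_mem _ (e4_pull hR2 hR3 hf ha hb).1 (e4_pull hR2 hR3 hf ha hb).2

/-- the coefficient of s t of a map on k × k -/
private noncomputable def e4_dc {k : Type} [Field k] {N : Type} [AddCommGroup N] [Module k N]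
    (F : k × k → N) : N := cf 1 (fun s => cf 1 (fun t => F (s, t)))

private theorem e4_dc_add (hR2 : S_R2) (hR3 : S_R3) (hE1 : S_E1) {k : Type} [Field k] [Infinite k]
    {N : Type} [AddCommGroup N] [Module k N] {F G : k × k → N} (hF : F ∈ RM k (k × k) N)
    (hG : G ∈ RM k (k × k) N) :
    e4_dc (fun q => F q + G q) = e4_dc F + e4_dc G := by
  obtain ⟨_, h2, _, _, _, h6, _⟩ := hE1 k N N
  unfold e4_dc
  rw [← h2 _ _ 1 (h6 k F 1 hF) (h6 k G 1 hG)]
  congr 1
  funext s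
  exact h2 _ _ 1 (e4_slice hR2 hR3 hF s) (e4_slice hR2 hR3 hG s)

private theorem e4_dc_lin (hR2 : S_R2) (hR3 : S_R3) (hE1 : S_E1) {k : Type} [Field k] [Infinite k]
    {N N' : Type} [AddCommGroup N] [Module k N] [AddCommGroup N'] [Module k N'] {F : k × k → N}
    (hF : F ∈ RM k (k × k) N) (l : N →ₗ[k] N') :
    e4_dc (fun q => l (F q)) = l (e4_dc F) := by
  obtain ⟨_, _, _, _, h5, h6, _⟩ := hE1 k N N'
  unfold e4_dc
  rw [← h5 _ l 1 (h6 k F 1 hF)]
  congr 1
  funext s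
  exact h5 _ l 1 (e4_slice hR2 hR3 hF s)

private theorem e4_cf_const (hE1 : S_E1) {k : Type} [Field k] [Infinite k] {N : Type}
    [AddCommGroup N] [Module k N] (m : N) : cf 1 (fun _ : k => m) = 0 := by
  have h := (hE1 k N N).1 (Finsupp.single 0 m) 1
  have h2 : (fun s : k => (Finsupp.single 0 m).sum fun i m => s ^ i • m) = fun _ : k => m := by
    funext s
    rw [Finsupp.sum_single_index (by simp)]
    simp
  rw [h2] at h
  rw [h]
  simp

/-- the raising operator as a linear map -/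
private theorem e4_EoL (hE3 : S_E3) {k : Type} [Field k] [Infinite k] {n : ℕ} {N : Type}
    [AddCommGroup N] [Module k N] (ρ : Representation k (Bo k n) N) (hρ : IsRat ρ) (i : ℕ) :
    ∃ l : N →ₗ[k] N, ∀ m, l m = Eo ρ i m := by
  obtain ⟨h1, h2, _⟩ := hE3 k n N N ρ ρ hρ hρ
  exact ⟨{ toFun := Eo ρ i, map_add' := h1 i, map_smul' := h2 i }, fun _ => rfl⟩

/-- the weight projection as a linear map -/
private theorem e4_prL (hE2 : S_E2) {k : Type} [Field k] [Infinite k] {n : ℕ} {N : Type}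
    [AddCommGroup N] [Module k N] (ρ : Representation k (Bo k n) N) (hρ : IsRat ρ)
    (μ : Fin n → ℤ) : ∃ l : N →ₗ[k] N, ∀ m, l m = prB ρ μ m := by
  obtain ⟨_, _, h1, h2, _⟩ := hE2 k n N N ρ ρ hρ hρ
  exact ⟨{ toFun := prB ρ μ, map_add' := h1 μ, map_smul' := h2 μ }, fun _ => rfl⟩

/-- [E4] -/
theorem p_E4 (hR2 : S_R2) (hR3 : S_R3) (hE1 : S_E1) (hE2 : S_E2) (hE3 : S_E3) : S_E4 := by
  intro k _ _ n N N' _ _ _ _ ρ ρ' hρ hρ'
  obtain ⟨_, hx, _, _, hwt, _, _, _, hnat⟩ := hE2 k n N N' ρ ρ' hρ hρ'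
  obtain ⟨_, g2, g3, g4, g5, _⟩ := hE1 k N N'
  obtain ⟨_, _, _, _, gg5, _⟩ := hE1 k N N
  -- ph2 in terms of the double coefficient
  have key2 : ∀ i j (f : Bo k n × Bo k n → N), ph2 ρ i j f = prB ρ (al n i + al n j)
      (e4_dc fun q : k × k => f (xB i q.1, xB j q.2) - f (xB j q.2, xB i q.1)) :=
    fun i j f => rfl
  have key2' : ∀ i j (f : Bo k n × Bo k n → N'), ph2 ρ' i j f = prB ρ' (al n i + al n j)
      (e4_dc fun q : k × k => f (xB i q.1, xB j q.2) - f (xB j q.2, xB i q.1)) :=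
    fun i j f => rfl
  have hpull : ∀ i (f : Bo k n → N), f ∈ RM k (Bo k n) N →
      (fun s : k => f (xB i s)) ∈ RM k k N := fun i f hf =>
    (hR3 k k (Bo k n) N N).1 _ f (hx i) hf
  refine ⟨?_, ?_, ?_, ?_, ?_, ?_, ?_, ?_, ?_, ?_⟩
  · -- additivity of ph2
    intro i j f g hf hg
    obtain ⟨P, hP⟩ := e4_prL hE2 ρ hρ (al n i + al n j)
    rw [key2, key2, key2, ← hP, ← hP, ← hP, ← map_add]
    congr 1
    rw [← e4_dc_add hR2 hR3 hE1 (e4_anti hR2 hR3 hf (hx i) (hx j))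
      (e4_anti hR2 hR3 hg (hx i) (hx j))]
    congr 1
    funext q
    simp only [Pi.add_apply]
    abel
  · -- scalars
    intro i j c f hf
    obtain ⟨P, hP⟩ := e4_prL hE2 ρ hρ (al n i + al n j)
    rw [key2, key2, ← hP, ← hP, ← map_smul]
    congr 1
    have h := e4_dc_lin hR2 hR3 hE1 (e4_anti hR2 hR3 hf (hx i) (hx j))
      (c • (LinearMap.id : N →ₗ[k] N))
    simp only [LinearMap.smul_apply, LinearMap.id_coe, id_eq] at h
    rw [← h]
    congr 1
    funext q
    simp only [Pi.smul_apply, smul_sub]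
  · -- naturality
    intro i j f hf l hl
    rw [key2, key2', ← hnat l hl]
    congr 1
    rw [← e4_dc_lin hR2 hR3 hE1 (e4_anti hR2 hR3 hf (hx i) (hx j)) l]
    congr 1
    funext q
    simp only [map_sub]
  · -- ph1 additive
    intro i f g hf hg
    obtain ⟨P, hP⟩ := e4_prL hE2 ρ hρ (al n i)
    unfold ph1
    rw [← hP, ← hP, ← hP, ← map_add, ← g2 _ _ 1 (hpull i f hf) (hpull i g hg)]
    rfl
  · intro i f g hf hg
    obtain ⟨P, hP⟩ := e4_prL hE2 ρ hρ (al n i)
    unfold ph1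
    rw [← hP, ← hP, ← hP, ← map_sub, ← g3 _ _ 1 (hpull i f hf) (hpull i g hg)]
    rfl
  · intro i c f hf
    obtain ⟨P, hP⟩ := e4_prL hE2 ρ hρ (al n i)
    unfold ph1
    rw [← hP, ← hP, ← map_smul, ← g4 _ c 1 (hpull i f hf)]
    rfl
  · intro i f hf l hl
    unfold ph1
    rw [← hnat l hl, ← g5 _ l 1 (hpull i f hf)]
  · intro i f
    exact hwt _ _
  · intro i j f
    exact hwt _ _
  · -- the coboundary formula
    intro i j ψ hij hj hψ
    obtain ⟨_, _, _, hpr, _, hcomm, _⟩ := hE3 k n N N ρ ρ hρ hρ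
    obtain ⟨Ej, hEj⟩ := e4_EoL hE3 ρ hρ j
    obtain ⟨P, hP⟩ := e4_prL hE2 ρ hρ (al n i + al n j)
    -- orbit maps
    have horb : ∀ l (m : N), (fun s : k => ρ (xB l s) m) ∈ RM k k N := fun l m =>
      hpull l (fun b => ρ b m) (hρ m)
    have hconst : ∀ m : N, (fun _ : k => m) ∈ RM k k N := (hR3 k k k N N).2.2.2.2.1
    -- inner coefficient
    have sub4 : ∀ F G H K : k → N, F ∈ RM k k N → G ∈ RM k k N → H ∈ RM k k N → K ∈ RM k k N →
        cf 1 (fun s => (F s - G s) - (H s - K s)) = (cf 1 F - cf 1 G) - (cf 1 H - cf 1 K) := by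
      intro F G H K hF hG hH hK
      have q1 := g3 (fun s => F s - G s) (fun s => H s - K s) 1 (Submodule.sub_mem _ hF hG)
        (Submodule.sub_mem _ hH hK)
      rw [g3 F G 1 hF hG, g3 H K 1 hH hK] at q1
      exact q1
    have inner : ∀ s : k, cf 1 (fun t : k => d1 ρ ψ (xB i s, xB j t) - d1 ρ ψ (xB j t, xB i s)) =
        (ρ (xB i s) (cf 1 fun t => ψ (xB j t)) - cf 1 fun t => ψ (xB j t)) -
          (Ej (ψ (xB i s)) - 0) := by
      intro s
      have e1 : (fun t : k => d1 ρ ψ (xB i s, xB j t) - d1 ρ ψ (xB j t, xB i s)) =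
          fun t => (ρ (xB i s) (ψ (xB j t)) - ψ (xB j t)) -
            (ρ (xB j t) (ψ (xB i s)) - ψ (xB i s)) := by
        funext t
        have hc := hcomm i j s t hij
        simp only [d1, LinearMap.coe_mk, AddHom.coe_mk]
        rw [hc]
        abel
      have m1 : (fun t : k => ρ (xB i s) (ψ (xB j t))) ∈ RM k k N :=
        (hR3 k k k N N).2.1 (ρ (xB i s)) _ (hpull j ψ hψ)
      have q := sub4 (fun t => ρ (xB i s) (ψ (xB j t))) (fun t => ψ (xB j t))
        (fun t => ρ (xB j t) (ψ (xB i s))) (fun _ => ψ (xB i s)) m1 (hpull j ψ hψ)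
        (horb j _) (hconst _)
      rw [e4_cf_const hE1, gg5 _ (ρ (xB i s)) 1 (hpull j ψ hψ)] at q
      rw [e1, hEj]
      exact q
    have outer : cf 1 (fun s : k => cf 1 (fun t : k => d1 ρ ψ (xB i s, xB j t) -
        d1 ρ ψ (xB j t, xB i s))) =
        Eo ρ i (cf 1 fun t => ψ (xB j t)) - Eo ρ j (cf 1 fun s => ψ (xB i s)) := by
      have e2 : (fun s : k => cf 1 (fun t : k => d1 ρ ψ (xB i s, xB j t) -
          d1 ρ ψ (xB j t, xB i s))) =
          fun s => (ρ (xB i s) (cf 1 fun t => ψ (xB j t)) - cf 1 fun t => ψ (xB j t)) -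
          (Ej (ψ (xB i s)) - 0) := by
        funext s
        exact inner s
      have m2 : (fun s : k => Ej (ψ (xB i s))) ∈ RM k k N :=
        (hR3 k k k N N).2.1 Ej _ (hpull i ψ hψ)
      have q := sub4 (fun s => ρ (xB i s) (cf 1 fun t => ψ (xB j t)))
        (fun _ => cf 1 fun t => ψ (xB j t)) (fun s => Ej (ψ (xB i s))) (fun _ => 0)
        (horb i _) (hconst _) m2 (hconst _)
      rw [e4_cf_const hE1, e4_cf_const hE1, sub_zero, sub_zero,
        gg5 _ Ej 1 (hpull i ψ hψ), hEj] at q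
      rw [e2]
      exact q
    have hph2 : ph2 ρ i j (d1 ρ ψ) = prB ρ (al n i + al n j)
        (cf 1 (fun s : k => cf 1 (fun t : k => d1 ρ ψ (xB i s, xB j t) -
        d1 ρ ψ (xB j t, xB i s)))) := rfl
    rw [hph2, outer, ← hP, map_sub, hP, hP]
    have h1 := hpr i (al n j) (cf 1 fun t => ψ (xB j t)) (by omega)
    have h2 := hpr j (al n i) (cf 1 fun s => ψ (xB i s)) hj
    rw [h2, add_comm (al n i) (al n j), h1]
    rfl

end Pool.Agent.Sp49
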