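import Pool.Agent.Lib.MP_49c83e_al.StmE

/-!
MP_49c83e_al, piece E5: the cocycle condition in degree 3.
-/

set_option autoImplicit false

namespace Pool.Agent.Sp49

open scoped BigOperators

section E5

variable {k : Type} [Field k] [Infinite k] {N : Type} [AddCommGroup N] [Module k N]

/-- coefficient of s t r -/
private noncomputable def e5_c3 (F : (k × k) × k → N) : N :=
  cf 1 (fun s : k => cf 1 (fun t : k => cf 1 (fun r : k => F ((s, t), r))))

private theorem e5_const (hE1 : S_E1) (m : N) : cf 1 (fun _ : k => m) = 0 := by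
  have h := (hE1 k N N).1 (Finsupp.single 0 m) 1
  have e : (fun s : k => (Finsupp.single 0 m).sum fun i m => s ^ i • m) = fun _ : k => m := by
    funext s
    rw [Finsupp.sum_single_index] <;> simp
  rw [e] at h
  rw [h]
  simp

omit [Infinite k] in
private theorem e5_slice (hR5 : S_R5) {X : Type} [RS k X] {F : X × k → N}
    (hF : F ∈ RM k (X × k) N) (x : X) : (fun r => F (x, r)) ∈ RM k k N :=
  (hR5 k X k N F hF).2.1 x

private theorem e5_sub (hE1 : S_E1) (hR5 : S_R5) {F G : (k × k) × k → N}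
    (hF : F ∈ RM k ((k × k) × k) N) (hG : G ∈ RM k ((k × k) × k) N) :
    e5_c3 (fun q => F q - G q) = e5_c3 F - e5_c3 G := by
  have h6 := (hE1 k N N).2.2.2.2.2.1
  have h3 := (hE1 k N N).2.2.1
  have F1 := h6 (k × k) F 1 hF
  have G1 := h6 (k × k) G 1 hG
  have F2 := h6 k (fun x : k × k => cf 1 (fun s => F (x, s))) 1 F1
  have G2 := h6 k (fun x : k × k => cf 1 (fun s => G (x, s))) 1 G1
  unfold e5_c3
  have a1 : ∀ s t : k, cf 1 (fun r : k => F ((s, t), r) - G ((s, t), r)) =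
      cf 1 (fun r : k => F ((s, t), r)) - cf 1 (fun r : k => G ((s, t), r)) := fun s t =>
    h3 _ _ 1 (e5_slice hR5 hF (s, t)) (e5_slice hR5 hG (s, t))
  have a2 : ∀ s : k, cf 1 (fun t : k => cf 1 (fun r : k => F ((s, t), r)) -
      cf 1 (fun r : k => G ((s, t), r))) = cf 1 (fun t : k => cf 1 (fun r : k => F ((s, t), r))) -
      cf 1 (fun t : k => cf 1 (fun r : k => G ((s, t), r))) := fun s =>
    h3 _ _ 1 (e5_slice hR5 F1 s) (e5_slice hR5 G1 s)
  simp only [a1, a2]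
  exact h3 _ _ 1 F2 G2

private theorem e5_add (hE1 : S_E1) (hR5 : S_R5) {F G : (k × k) × k → N}
    (hF : F ∈ RM k ((k × k) × k) N) (hG : G ∈ RM k ((k × k) × k) N) :
    e5_c3 (fun q => F q + G q) = e5_c3 F + e5_c3 G := by
  have h6 := (hE1 k N N).2.2.2.2.2.1
  have h3 := (hE1 k N N).2.1
  have F1 := h6 (k × k) F 1 hF
  have G1 := h6 (k × k) G 1 hG
  have F2 := h6 k (fun x : k × k => cf 1 (fun s => F (x, s))) 1 F1
  have G2 := h6 k (fun x : k × k => cf 1 (fun s => G (x, s))) 1 G1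
  unfold e5_c3
  have a1 : ∀ s t : k, cf 1 (fun r : k => F ((s, t), r) + G ((s, t), r)) =
      cf 1 (fun r : k => F ((s, t), r)) + cf 1 (fun r : k => G ((s, t), r)) := fun s t =>
    h3 _ _ 1 (e5_slice hR5 hF (s, t)) (e5_slice hR5 hG (s, t))
  have a2 : ∀ s : k, cf 1 (fun t : k => cf 1 (fun r : k => F ((s, t), r)) +
      cf 1 (fun r : k => G ((s, t), r))) = cf 1 (fun t : k => cf 1 (fun r : k => F ((s, t), r))) +
      cf 1 (fun t : k => cf 1 (fun r : k => G ((s, t), r))) := fun s =>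
    h3 _ _ 1 (e5_slice hR5 F1 s) (e5_slice hR5 G1 s)
  simp only [a1, a2]
  exact h3 _ _ 1 F2 G2

omit [Infinite k] in
/-- the antisymmetrised cocycle identity -/
private theorem e5_ident {Γ : Type} [Group Γ] [RS k Γ] (ρ : Representation k Γ N)
    {f : Γ × Γ → N} (hf : d2 ρ f = 0) (a b c : Γ) (hab : a * b = b * a) (hac : a * c = c * a)
    (hbc : b * c = c * b) :
    ((ρ a (f (b, c) - f (c, b)) - (f (b, c) - f (c, b))) -
      (ρ b (f (a, c) - f (c, a)) - (f (a, c) - f (c, a)))) +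
      (ρ c (f (a, b) - f (b, a)) - (f (a, b) - f (b, a))) = 0 := by
  have h : ∀ x y z : Γ, ρ x (f (y, z)) - f (x * y, z) + f (x, y * z) - f (x, y) = 0 :=
    fun x y z => congrFun hf (x, y, z)
  have h1 := h a b c
  have h2 := h a c b
  have h3 := h b a c
  have h4 := h b c a
  have h5 := h c a b
  have h6 := h c b a
  rw [← hbc] at h2
  rw [← hab] at h3
  rw [← hac] at h4
  rw [← hac] at h5
  rw [← hab, ← hbc] at h6
  simp only [map_sub]
  calc _ = (ρ a (f (b, c)) - f (a * b, c) + f (a, b * c) - f (a, b)) -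
        (ρ a (f (c, b)) - f (a * c, b) + f (a, b * c) - f (a, c)) -
        (ρ b (f (a, c)) - f (a * b, c) + f (b, a * c) - f (b, a)) +
        (ρ b (f (c, a)) - f (b * c, a) + f (b, a * c) - f (b, c)) +
        (ρ c (f (a, b)) - f (a * c, b) + f (c, a * b) - f (c, a)) -
        (ρ c (f (b, a)) - f (b * c, a) + f (c, a * b) - f (c, b)) := by abel
    _ = 0 := by rw [h1, h2, h3, h4, h5, h6]; simp

end E5

theorem p_E5 (hE1 : S_E1) (hE2 : S_E2) (hE3 : S_E3) (hR2 : S_R2) (hR3 : S_R3) (hR5 : S_R5)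
    (hR7 : S_R7) : S_E5 := by
  intro k _ _ n N _ _ ρ hρ f hf i j l hij hjl hl
  obtain ⟨hf1, hf2⟩ := hf
  have hf2 : d2 ρ f = 0 := hf2
  -- the antisymmetrised cochain
  set g : Bo k n × Bo k n → N := fun q => f q - f (q.2, q.1) with hg
  have hgR : g ∈ RM k (Bo k n × Bo k n) N := by
    refine Submodule.sub_mem _ hf1 ?_
    exact (hR3 k (Bo k n × Bo k n) (Bo k n × Bo k n) N N).1 (fun q => (q.2, q.1)) f
      ((hR2 k (Bo k n × Bo k n) (Bo k n) (Bo k n)).2.2.2.2.2 _ _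
        (hR2 k (Bo k n) (Bo k n) k).2.2.2.2.1 (hR2 k (Bo k n) (Bo k n) k).2.2.2.1) hf1
  have hx : ∀ m, IsReg k (fun s : k => (xB m s : Bo k n)) := (hE2 k n N N ρ ρ hρ hρ).2.1
  -- projections
  have q1 : IsReg k (fun q : (k × k) × k => q.1.1) :=
    (hR2 k ((k × k) × k) (k × k) k).2.1 _ _ (hR2 k (k × k) k k).2.2.2.1 (hR2 k k k k).2.2.2.1
  have q2 : IsReg k (fun q : (k × k) × k => q.1.2) :=
    (hR2 k ((k × k) × k) (k × k) k).2.1 _ _ (hR2 k (k × k) k k).2.2.2.1 (hR2 k k k k).2.2.2.2.1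
  have q3 : IsReg k (fun q : (k × k) × k => q.2) := (hR2 k (k × k) k k).2.2.2.2.1
  have hxc : ∀ (X : Type) [RS k X] (m : ℕ) (φ : X → k), IsReg k φ →
      IsReg k (fun x => (xB m (φ x) : Bo k n)) := fun X _ m φ hφ =>
    (hR2 k X k (Bo k n)).2.1 φ (fun s => xB m s) hφ (hx m)
  -- pull backs of g
  have hgc : ∀ (X : Type) [RS k X] (m m' : ℕ) (φ φ' : X → k), IsReg k φ → IsReg k φ' →
      (fun x => g (xB m (φ x), xB m' (φ' x))) ∈ RM k X N := fun X _ m m' φ φ' hφ hφ' =>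
    (hR3 k X (Bo k n × Bo k n) N N).1 (fun x => ((xB m (φ x) : Bo k n), (xB m' (φ' x) : Bo k n)))
      g ((hR2 k X (Bo k n) (Bo k n)).2.2.2.2.2 _ _ (hxc X m φ hφ) (hxc X m' φ' hφ')) hgR
  have hg2 : ∀ m m' : ℕ, (fun q : k × k => g (xB m q.1, xB m' q.2)) ∈ RM k (k × k) N :=
    fun m m' => hgc (k × k) m m' _ _ (hR2 k k k k).2.2.2.1 (hR2 k k k k).2.2.2.2.1
  have h6 := (hE1 k N N).2.2.2.2.2.1
  have h5 := (hE1 k N N).2.2.2.2.1
  have hin : ∀ m m' : ℕ, (fun s : k => cf 1 (fun t : k => g (xB m s, xB m' t))) ∈ RM k k N :=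
    fun m m' => h6 k (fun q : k × k => g (xB m q.1, xB m' q.2)) 1 (hg2 m m')
  have hsl : ∀ (m m' : ℕ) (s : k), (fun t : k => g (xB m s, xB m' t)) ∈ RM k k N :=
    fun m m' s => e5_slice hR5 (hg2 m m') s
  -- the raising operators as linear maps
  obtain ⟨hEa, hEs, -, hEp, -, hcom, -⟩ := hE3 k n N N ρ ρ hρ hρ
  let El : ℕ → (N →ₗ[k] N) := fun m =>
    { toFun := Eo ρ m
      map_add' := hEa m
      map_smul' := fun c a => hEs m c a }
  -- regularity of the six terms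
  have r1 : (fun q : (k × k) × k => ρ (xB i q.1.1) (g (xB j q.1.2, xB l q.2))) ∈
      RM k ((k × k) × k) N :=
    hR7 k ((k × k) × k) (Bo k n) N ρ hρ _ _ (hxc _ i _ q1) (hgc _ j l _ _ q2 q3)
  have r2 : (fun q : (k × k) × k => g (xB j q.1.2, xB l q.2)) ∈ RM k ((k × k) × k) N :=
    hgc _ j l _ _ q2 q3
  have r3 : (fun q : (k × k) × k => ρ (xB j q.1.2) (g (xB i q.1.1, xB l q.2))) ∈
      RM k ((k × k) × k) N :=
    hR7 k ((k × k) × k) (Bo k n) N ρ hρ _ _ (hxc _ j _ q2) (hgc _ i l _ _ q1 q3)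
  have r4 : (fun q : (k × k) × k => g (xB i q.1.1, xB l q.2)) ∈ RM k ((k × k) × k) N :=
    hgc _ i l _ _ q1 q3
  have r5 : (fun q : (k × k) × k => ρ (xB l q.2) (g (xB i q.1.1, xB j q.1.2))) ∈
      RM k ((k × k) × k) N :=
    hR7 k ((k × k) × k) (Bo k n) N ρ hρ _ _ (hxc _ l _ q3) (hgc _ i j _ _ q1 q2)
  have r6 : (fun q : (k × k) × k => g (xB i q.1.1, xB j q.1.2)) ∈ RM k ((k × k) × k) N :=
    hgc _ i j _ _ q1 q2
  -- coefficients
  set G : ℕ → ℕ → N := fun m m' => cf 1 (fun s : k => cf 1 (fun t : k => g (xB m s, xB m' t)))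
    with hG
  have c1 : e5_c3 (fun q : (k × k) × k => ρ (xB i q.1.1) (g (xB j q.1.2, xB l q.2))) =
      Eo ρ i (G j l) := by
    unfold e5_c3
    have a1 : ∀ s t : k, cf 1 (fun r : k => ρ (xB i s) (g (xB j t, xB l r))) =
        ρ (xB i s) (cf 1 (fun r : k => g (xB j t, xB l r))) := fun s t =>
      h5 _ (ρ (xB i s)) 1 (hsl j l t)
    have a2 : ∀ s : k, cf 1 (fun t : k => ρ (xB i s) (cf 1 (fun r : k => g (xB j t, xB l r)))) =
        ρ (xB i s) (G j l) := fun s => h5 _ (ρ (xB i s)) 1 (hin j l)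
    simp only [a1, a2]
    rfl
  have c2 : e5_c3 (fun q : (k × k) × k => g (xB j q.1.2, xB l q.2)) = 0 :=
    e5_const hE1 (G j l)
  have c3 : e5_c3 (fun q : (k × k) × k => ρ (xB j q.1.2) (g (xB i q.1.1, xB l q.2))) =
      Eo ρ j (G i l) := by
    unfold e5_c3
    have a1 : ∀ s t : k, cf 1 (fun r : k => ρ (xB j t) (g (xB i s, xB l r))) =
        ρ (xB j t) (cf 1 (fun r : k => g (xB i s, xB l r))) := fun s t =>
      h5 _ (ρ (xB j t)) 1 (hsl i l s)
    simp only [a1]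
    exact h5 _ (El j) 1 (hin i l)
  have c4 : e5_c3 (fun q : (k × k) × k => g (xB i q.1.1, xB l q.2)) = 0 := by
    unfold e5_c3
    have a1 : ∀ s : k, cf 1 (fun _ : k => cf 1 (fun r : k => g (xB i s, xB l r))) = 0 :=
      fun s => e5_const hE1 _
    simp only [a1]
    exact e5_const hE1 0
  have c5 : e5_c3 (fun q : (k × k) × k => ρ (xB l q.2) (g (xB i q.1.1, xB j q.1.2))) =
      Eo ρ l (G i j) := by
    unfold e5_c3
    have a1 : ∀ s : k, cf 1 (fun t : k => cf 1 (fun r : k => ρ (xB l r) (g (xB i s, xB j t)))) =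
        Eo ρ l (cf 1 (fun t : k => g (xB i s, xB j t))) := fun s =>
      h5 _ (El l) 1 (hsl i j s)
    simp only [a1]
    exact h5 _ (El l) 1 (hin i j)
  have c6 : e5_c3 (fun q : (k × k) × k => g (xB i q.1.1, xB j q.1.2)) = 0 := by
    unfold e5_c3
    have a1 : ∀ s t : k, cf 1 (fun _ : k => g (xB i s, xB j t)) = 0 :=
      fun s t => e5_const hE1 _
    simp only [a1]
    rw [e5_const hE1 (0 : N)]
    exact e5_const hE1 0
  -- the identity
  have hid : (fun q : (k × k) × k =>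
      ((ρ (xB i q.1.1) (g (xB j q.1.2, xB l q.2)) - g (xB j q.1.2, xB l q.2)) -
        (ρ (xB j q.1.2) (g (xB i q.1.1, xB l q.2)) - g (xB i q.1.1, xB l q.2))) +
        (ρ (xB l q.2) (g (xB i q.1.1, xB j q.1.2)) - g (xB i q.1.1, xB j q.1.2))) =
      fun _ => 0 := by
    funext q
    exact e5_ident ρ hf2 (xB i q.1.1) (xB j q.1.2) (xB l q.2) (hcom i j _ _ hij)
      (hcom i l _ _ (by omega)) (hcom j l _ _ hjl)
  have hz : e5_c3 (fun _ : (k × k) × k => (0 : N)) = 0 := by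
    show cf 1 (fun _ : k => cf 1 (fun _ : k => cf 1 (fun _ : k => (0 : N)))) = 0
    rw [e5_const hE1 (0 : N), e5_const hE1 (0 : N)]
    exact e5_const hE1 0
  have hsum : (Eo ρ i (G j l) - 0 - (Eo ρ j (G i l) - 0)) + (Eo ρ l (G i j) - 0) = 0 := by
    have s12 := e5_sub hE1 hR5 r1 r2
    have s34 := e5_sub hE1 hR5 r3 r4
    have s56 := e5_sub hE1 hR5 r5 r6
    have s14 := e5_sub hE1 hR5 (Submodule.sub_mem _ r1 r2) (Submodule.sub_mem _ r3 r4)
    have s16 := e5_add hE1 hR5 (Submodule.sub_mem _ (Submodule.sub_mem _ r1 r2)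
      (Submodule.sub_mem _ r3 r4)) (Submodule.sub_mem _ r5 r6)
    rw [c1, c2] at s12
    rw [c3, c4] at s34
    rw [c5, c6] at s56
    have e0 := congrArg e5_c3 hid
    rw [hz] at e0
    rw [← s12, ← s34, ← s56]
    exact (congrArg₂ (· + ·) s14 rfl).symm.trans (s16.symm.trans e0)

  -- projections to the weight space
  obtain ⟨-, -, hpa, hps, -⟩ := hE2 k n N N ρ ρ hρ hρ
  have w1 : Eo ρ i (ph2 ρ j l f) = prB ρ (al n i + al n j + al n l) (Eo ρ i (G j l)) := by
    have := hEp i (al n j + al n l) (G j l) (by omega)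
    rw [show al n i + al n j + al n l = al n j + al n l + al n i by abel]
    exact this.symm
  have w2 : Eo ρ j (ph2 ρ i l f) = prB ρ (al n i + al n j + al n l) (Eo ρ j (G i l)) := by
    have := hEp j (al n i + al n l) (G i l) (by omega)
    rw [show al n i + al n j + al n l = al n i + al n l + al n j by abel]
    exact this.symm
  have w3 : Eo ρ l (ph2 ρ i j f) = prB ρ (al n i + al n j + al n l) (Eo ρ l (G i j)) := by
    have := hEp l (al n i + al n j) (G i j) (by omega)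
    exact this.symm
  let pl : N →ₗ[k] N :=
    { toFun := prB ρ (al n i + al n j + al n l)
      map_add' := hpa _
      map_smul' := fun c a => hps _ c a }
  rw [w1, w2, w3]
  have hpl := congrArg pl hsum
  rw [map_add, map_sub, sub_zero, sub_zero, sub_zero, map_zero] at hpl
  exact hpl

end Pool.Agent.Sp49
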