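import Pool.Agent.Lib.MP_49c83e_al.StmE

namespace Pool.Agent.Sp49

open scoped BigOperators

private theorem e6_lau (h12 : S_R12) (k : Type) [Field k] [Infinite k] (N : ℕ) (a : ℕ → k)
    (θ : ℤ →₀ k) (ha : N = 0 → a 0 = 0) (hθ : ∀ j, 0 < j → θ j = 0)
    (h : ∀ s : kˣ, (∑ r ∈ Finset.range N, (s : k) ^ r * a r) =
      θ.sum fun j y => ((s ^ j : kˣ) : k) • y) :
    θ 0 = a 0 ∧ ∀ j, j ≠ 0 → θ j = 0 := by
  have huniq := (h12 k k).2.2
  have hsing : ∀ (s : kˣ) (i : ℤ) (z : k), ((Finsupp.single i z).sum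
      fun j y => ((s ^ j : kˣ) : k) • y) = ((s ^ i : kˣ) : k) • z := by
    intro s i z
    exact Finsupp.sum_single_index (h := fun j y => ((s ^ j : kˣ) : k) • y) (smul_zero _)
  have hsum : ∀ s : kˣ, ((∑ r ∈ Finset.range N, Finsupp.single (r : ℤ) (a r)).sum
      fun j y => ((s ^ j : kˣ) : k) • y) = ∑ r ∈ Finset.range N, (s : k) ^ r * a r := by
    intro s
    rw [← Finsupp.sum_finsetSum_index (fun j => smul_zero _) (fun j y z => smul_add _ y z)]
    refine Finset.sum_congr rfl fun r _ => ?_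
    rw [hsing, zpow_natCast, Units.val_pow_eq_pow_val, smul_eq_mul]
  have h1 : (∑ r ∈ Finset.range N, Finsupp.single (r : ℤ) (a r)) = θ := by
    apply huniq
    intro s
    rw [hsum]
    exact h s
  refine ⟨?_, ?_⟩
  · rw [← h1, Finsupp.finsetSum_apply]
    rcases Nat.eq_zero_or_pos N with hN | hN
    · subst hN
      simpa using (ha rfl).symm
    · rw [Finset.sum_eq_single 0]
      · simp
      · intro r _ hr
        rw [Finsupp.single_apply, if_neg]
        exact_mod_cast hr
      · intro hr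
        exact absurd (Finset.mem_range.mpr hN) hr
  · intro j hj
    rcases lt_trichotomy j 0 with h2 | h2 | h2
    · rw [← h1, Finsupp.finsetSum_apply]
      apply Finset.sum_eq_zero
      intro r _
      rw [Finsupp.single_apply, if_neg]
      omega
    · exact absurd h2 hj
    · exact hθ j h2

private theorem e6_prod {G ι : Type} [CommGroup G] (s : G) (S : Finset ι) (a : ι → ℤ) :
    ∏ i ∈ S, s ^ a i = s ^ (∑ i ∈ S, a i) := by
  classical
  induction S using Finset.induction_on with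
  | empty => simp
  | insert i S hi ih => rw [Finset.prod_insert hi, Finset.sum_insert hi, ih, zpow_add]

theorem p_E6 (h3 : S_R3) (h8 : S_R8) (h9 : S_R9) (h12 : S_R12) (hD4 : S_D4) (hD7 : S_D7)
    (hE2 : S_E2) : S_E6 := by
  intro k _ _ n N _ _ _ _ ρ hρ
  have hRG : RG k (SpG k n) := (h9 k n).1
  obtain ⟨hT1, _, _, _, _, hT6, _, hT8, _⟩ := hD4 k n
  obtain ⟨_, _, padd, psmul, pmem, pid, pzero, pdec, _⟩ := hE2 k n N N ρ ρ hρ hρ
  have huB : Uo k n ≤ Bo k n := fun g hg => hg.1
  have hincl : IsReg k (Subgroup.inclusion huB) := by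
    intro F hF
    exact ((h8 k (SpG k n) (SpG k n)).2.2.2.2.2 (Uo k n) (Bo k n) huB _).2 ⟨F, hF, rfl⟩
  have hs : ∀ (s : kˣ) (u : Uo k n), coch s * (u : SpG k n) * (coch s)⁻¹ ∈ Uo k n :=
    fun s u => hT8 u u.2 (coch s) (hT1 _)
  -- projections as linear maps
  let P : (Fin n → ℤ) → N →ₗ[k] N := fun μ =>
    { toFun := prB ρ μ
      map_add' := padd μ
      map_smul' := fun c a => psmul μ c a }
  -- finitely many weights
  have hfin : {μ : Fin n → ℤ | wtB ρ μ ≠ ⊥}.Finite := by
    classical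
    let b := Module.finBasis k N
    choose S hS1 hS2 using fun i => pdec (b i)
    refine (Finset.finite_toSet (Finset.univ.biUnion S)).subset ?_
    intro μ hμ
    by_contra hne
    apply hμ
    have h1 : P μ = 0 := by
      apply b.ext
      intro i
      change prB ρ μ (b i) = 0
      apply hS2 i
      intro h4
      exact hne (by simpa using ⟨i, h4⟩)
    rw [eq_bot_iff]
    intro a ha
    have h4 : P μ a = a := pid μ a ha
    rw [h1] at h4
    exact (Submodule.mem_bot k).2 h4.symm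
  have hne : {μ : Fin n → ℤ | wtB ρ μ ≠ ⊥}.Nonempty := by
    obtain ⟨a, ha⟩ := exists_ne (0 : N)
    obtain ⟨S, hS1, hS2⟩ := pdec a
    rw [hS1] at ha
    obtain ⟨μ, _, hμ⟩ := Finset.exists_ne_zero_of_sum_ne_zero ha
    refine ⟨μ, fun h4 => hμ ?_⟩
    have h6 := pmem μ a
    rw [h4] at h6
    exact (Submodule.mem_bot k).1 h6
  let m : (Fin n → ℤ) → ℤ := fun μ => ∑ i : Fin n, ((n - (i : ℕ) : ℕ) : ℤ) * μ i
  obtain ⟨μ, hμ, hmax⟩ := Set.Finite.exists_maximalFor m _ hfin hne
  have hmax' : ∀ ν, wtB ρ ν ≠ ⊥ → m ν ≤ m μ := by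
    intro ν hν
    rcases le_total (m ν) (m μ) with h1 | h1
    · exact h1
    · exact hmax hν h1
  obtain ⟨v, hv, hv0⟩ := (Submodule.ne_bot_iff _).1 hμ
  let tc : kˣ → Fin n → kˣ := fun s i => s ^ (n - (i : ℕ))
  have hchT : ∀ (s : kˣ) (ν : Fin n → ℤ), chT ν (tc s) = ((s ^ m ν : kˣ) : k) := by
    intro s ν
    unfold chT
    congr 1
    change _ = s ^ (∑ i : Fin n, ((n - (i : ℕ) : ℕ) : ℤ) * ν i)
    rw [← e6_prod]
    refine Finset.prod_congr rfl fun i _ => ?_
    rw [zpow_mul, zpow_natCast]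
  have hact : ∀ (s : kˣ) (ν : Fin n → ℤ) (a : N), a ∈ wtB ρ ν →
      ρ (torB (tc s)) a = ((s ^ m ν : kˣ) : k) • a := by
    intro s ν a ha
    rw [ha (tc s), hchT]
  -- Uo fixes v
  have hU : ∀ u : Uo k n, ρ (Subgroup.inclusion huB u) v = v := by
    intro u
    by_contra hne2
    have hsub : ρ (Subgroup.inclusion huB u) v - v ≠ 0 := sub_ne_zero.2 hne2
    obtain ⟨l, hl⟩ : ∃ l : Module.Dual k N, l (ρ (Subgroup.inclusion huB u) v - v) ≠ 0 := by
      by_contra hc
      push Not at hc
      exact hsub ((Module.forall_dual_apply_eq_zero_iff k _).1 hc)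
    apply hl
    rw [map_sub, sub_eq_zero]
    have hreg : (fun w : Uo k n => l (ρ (Subgroup.inclusion huB w) v)) ∈ regA k (Uo k n) := by
      have h1 : (fun b : Bo k n => l (ρ b v)) ∈ RM k (Bo k n) k :=
        (h3 k (Bo k n) (Bo k n) N k).2.1 l _ (hρ v)
      have h4 : (fun b : Bo k n => l (ρ b v)) ∈ regA k (Bo k n) :=
        ((h3 k (Bo k n) (Bo k n) k k).2.2.2.2.2 _).1 h1
      exact hincl _ h4
    obtain ⟨a, R, _, ha0, haR⟩ := (hD7 k n hs).2 _ hreg
    have hR0 : R = 0 → a 0 u = 0 := by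
      intro hR
      rw [ha0]
      have h1 := haR 1 1
      subst hR
      rw [Finset.range_zero, Finset.sum_empty] at h1
      have h4 : (⟨_, hs 1 1⟩ : Uo k n) = 1 := by
        apply Subtype.ext
        change coch 1 * (1 : SpG k n) * (coch 1)⁻¹ = 1
        rw [mul_one, mul_inv_cancel]
      rw [h4] at h1
      exact h1
    have ha00 : a 0 u = l v := by
      rw [ha0]
      have h4 : (Subgroup.inclusion huB (1 : Uo k n)) = 1 := map_one _
      rw [h4, map_one]
      rfl
    obtain ⟨S, hS1, hS2⟩ := pdec (ρ (Subgroup.inclusion huB u) v)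
    let θ : ℤ →₀ k := ∑ ν ∈ S, Finsupp.single (m ν - m μ)
      (l (prB ρ ν (ρ (Subgroup.inclusion huB u) v)))
    have hθ : ∀ j, 0 < j → θ j = 0 := by
      intro j hj
      change (∑ ν ∈ S, Finsupp.single (m ν - m μ)
        (l (prB ρ ν (ρ (Subgroup.inclusion huB u) v)))) j = 0
      rw [Finsupp.finsetSum_apply]
      apply Finset.sum_eq_zero
      intro ν _
      rw [Finsupp.single_apply]
      split_ifs with h4
      · have h6 : wtB ρ ν = ⊥ := by
          by_contra h7
          have := hmax' ν h7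
          omega
        have h7 := pmem ν (ρ (Subgroup.inclusion huB u) v)
        rw [h6] at h7
        rw [(Submodule.mem_bot k).1 h7, map_zero]
      · rfl
    have hconj : ∀ s : kˣ, l (ρ (Subgroup.inclusion huB ⟨_, hs s u⟩) v) =
        θ.sum fun j y => ((s ^ j : kˣ) : k) • y := by
      intro s
      have e1 : (Subgroup.inclusion huB ⟨_, hs s u⟩ : Bo k n) =
          torB (tc s) * Subgroup.inclusion huB u * (torB (tc s))⁻¹ := rfl
      have e2 : ρ (torB (tc s))⁻¹ v = ((s ^ (-m μ) : kˣ) : k) • v := by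
        have h4 : ρ (torB (tc s))⁻¹ (ρ (torB (tc s)) v) = v := by
          rw [← Module.End.mul_apply, ← map_mul, inv_mul_cancel, map_one]
          rfl
        rw [hact s μ v hv, map_smul] at h4
        have h6 : ((s ^ (-m μ) : kˣ) : k) * ((s ^ m μ : kˣ) : k) = 1 := by
          rw [← Units.val_mul, ← zpow_add, neg_add_cancel, zpow_zero, Units.val_one]
        calc ρ (torB (tc s))⁻¹ v = (((s ^ (-m μ) : kˣ) : k) * ((s ^ m μ : kˣ) : k)) •
              ρ (torB (tc s))⁻¹ v := by rw [h6, one_smul]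
          _ = _ := by rw [mul_smul, h4]
      have e3 : ρ (torB (tc s)) (ρ (Subgroup.inclusion huB u) v) =
          ∑ ν ∈ S, ((s ^ m ν : kˣ) : k) • prB ρ ν (ρ (Subgroup.inclusion huB u) v) := by
        conv_lhs => rw [hS1]
        rw [map_sum]
        exact Finset.sum_congr rfl fun ν _ => hact s ν _ (pmem ν _)
      have e4 : ρ (Subgroup.inclusion huB ⟨_, hs s u⟩) v = ((s ^ (-m μ) : kˣ) : k) •
          ∑ ν ∈ S, ((s ^ m ν : kˣ) : k) • prB ρ ν (ρ (Subgroup.inclusion huB u) v) := by
        rw [e1, map_mul, map_mul, Module.End.mul_apply, Module.End.mul_apply, e2, map_smul,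
          map_smul, e3]
      rw [e4, map_smul, map_sum]
      change _ = (∑ ν ∈ S, Finsupp.single (m ν - m μ)
        (l (prB ρ ν (ρ (Subgroup.inclusion huB u) v)))).sum _
      rw [← Finsupp.sum_finsetSum_index (fun j => smul_zero _) (fun j y z => smul_add _ y z),
        Finset.smul_sum]
      refine Finset.sum_congr rfl fun ν _ => ?_
      rw [Finsupp.sum_single_index (h := fun j y => ((s ^ j : kˣ) : k) • y) (smul_zero _),
        map_smul, smul_smul, ← Units.val_mul, ← zpow_add]
      congr 3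
      ring
    obtain ⟨g1, g2⟩ := e6_lau h12 k R (fun r => a r u) θ hR0 hθ (fun s => by
      rw [← haR s u]
      exact hconj s)
    have g3 : θ = Finsupp.single 0 (a 0 u) := by
      ext j
      by_cases hj : j = 0
      · subst hj
        rw [g1, Finsupp.single_eq_same]
      · rw [g2 j hj, Finsupp.single_apply, if_neg (fun h => hj h.symm)]
    have g4 := hconj 1
    rw [g3, Finsupp.sum_single_index (h := fun j y => (((1 : kˣ) ^ j : kˣ) : k) • y)
      (smul_zero _), ha00, zpow_zero, Units.val_one, one_smul] at g4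
    have g5 : (⟨_, hs 1 u⟩ : Uo k n) = u := by
      apply Subtype.ext
      change (coch (1 : kˣ) : SpG k n) * (u : SpG k n) * (coch (1 : kˣ) : SpG k n)⁻¹ =
        (u : SpG k n)
      have h7 : (coch (1 : kˣ) : SpG k n) = 1 := by
        unfold coch
        have h4 : (fun i : Fin n => (1 : kˣ) ^ (n - (i : ℕ))) = 1 := by
          funext i
          simp
        rw [h4, tor_one]
      rw [h7, one_mul, inv_one, mul_one]
    rw [g5] at g4
    exact g4
  refine ⟨μ, v, hv0, hv, ?_⟩
  intro b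
  have hu : ((tpart b)⁻¹ * (b : SpG k n)) ∈ Uo k n := hT6 b
  have e1 : b = torB (fun i => dgB k n i b) * Subgroup.inclusion huB ⟨_, hu⟩ := by
    apply Subtype.ext
    change (b : SpG k n) = tpart b * ((tpart b)⁻¹ * (b : SpG k n))
    rw [mul_inv_cancel_left]
  have e2 : ρ b v = ρ (torB (fun i => dgB k n i b)) v := by
    conv_lhs => rw [e1]
    rw [map_mul, Module.End.mul_apply, hU]
  rw [e2, hv (fun i => dgB k n i b)]
  rfl

end Pool.Agent.Sp49
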