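import Pool.Agent.Lib.MP_49c83e_al.StmE

/-!
MP_49c83e_al, piece E7: sub- and quotient modules.
-/

namespace Pool.Agent.Sp49

open scoped BigOperators

private lemma e7_small {k : Type} [Field k] {n : ℕ} {N N' : Type} [AddCommGroup N] [Module k N]
    [AddCommGroup N'] [Module k N'] (ρ : Representation k (Bo k n) N)
    (ρ' : Representation k (Bo k n) N')
    (h : ∀ μ, ∀ x ∈ wtB ρ' μ, x ≠ 0 → ∃ a ∈ wtB ρ μ, a ≠ 0) (hs : SmallB ρ) : SmallB ρ' := by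
  intro μ hμ
  apply hs μ
  obtain ⟨x, hx, hx0⟩ := (Submodule.ne_bot_iff _).1 hμ
  obtain ⟨a, ha, ha0⟩ := h μ x hx hx0
  exact (Submodule.ne_bot_iff _).2 ⟨a, ha, ha0⟩

theorem p_E7 (h3 : S_R3) (h4 : S_R4) (hE2 : S_E2) : S_E7 := by
  intro k _ _ n N _ _ ρ P h hρ
  have hsub : IsRat (subR ρ P h) := by
    intro m
    exact (h4 k (Bo k n) N N).2 P (fun g => ρ g (m : N)) (fun g => h g m m.2) (hρ (m : N))
  have hquo : IsRat (quoR ρ P h) := by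
    intro x
    obtain ⟨a, rfl⟩ := Submodule.Quotient.mk_surjective P x
    exact (h3 k (Bo k n) (Bo k n) N (N ⧸ P)).2.1 P.mkQ (fun g => ρ g a) (hρ a)
  have hlift : ∀ (μ : Fin n → ℤ) (x : N ⧸ P), x ∈ wtB (quoR ρ P h) μ →
      ∃ a ∈ wtB ρ μ, Submodule.Quotient.mk a = x := by
    intro μ x hx
    obtain ⟨a0, rfl⟩ := Submodule.Quotient.mk_surjective P x
    obtain ⟨_, _, _, _, e5, _, _, _, e9⟩ := hE2 k n N (N ⧸ P) ρ (quoR ρ P h) hρ hquo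
    obtain ⟨_, _, _, _, _, e6, _⟩ := hE2 k n (N ⧸ P) (N ⧸ P) (quoR ρ P h) (quoR ρ P h) hquo hquo
    refine ⟨prB ρ μ a0, e5 μ a0, ?_⟩
    have h1 := e9 P.mkQ (fun b m => rfl) μ a0
    have h2 := e6 μ _ hx
    exact h1.symm.trans h2
  refine ⟨hsub, hquo, fun hs => ⟨e7_small ρ _ ?_ hs, e7_small ρ _ ?_ hs⟩, hlift⟩
  · intro μ x hx hx0
    refine ⟨(x : N), fun t => ?_, fun h0 => hx0 (Subtype.ext h0)⟩
    have := congrArg (Subtype.val) (hx t)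
    exact this
  · intro μ x hx hx0
    obtain ⟨a, ha, hax⟩ := hlift μ x hx
    refine ⟨a, ha, ?_⟩
    rintro rfl
    exact hx0 hax.symm

end Pool.Agent.Sp49
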