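import Pool.Agent.Lib.MP_49c83e_al.StmE

/-!
[sp49 E8] devissage for Epi1.
-/

namespace Pool.Agent.Sp49

private theorem e8_rg (h8 : S_R8) (h9 : S_R9) (k : Type) [Field k] (n : ℕ) : RG k (Bo k n) := by
  haveI := (h9 k n).1
  exact (h8 k k (SpG k n)).2.2.1 (Bo k n)

private theorem e8_d2d1 {k Γ N : Type} [Field k] [Group Γ] [RS k Γ] [AddCommGroup N] [Module k N]
    (ρ : Representation k Γ N) (c : Γ → N) : d2 ρ (d1 ρ c) = 0 := by
  funext q
  obtain ⟨a, b, d⟩ := q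
  simp only [d2, d1, LinearMap.coe_mk, AddHom.coe_mk, map_add, map_sub, mul_assoc, map_mul,
    Module.End.mul_apply, Pi.zero_apply]
  abel

private theorem e8_d1_nat {k Γ N N' : Type} [Field k] [Group Γ] [RS k Γ] [AddCommGroup N]
    [Module k N] [AddCommGroup N'] [Module k N'] (ρ : Representation k Γ N)
    (ρ' : Representation k Γ N') (l : N →ₗ[k] N') (hl : ∀ b m, l (ρ b m) = ρ' b (l m))
    (c : Γ → N) (q : Γ × Γ) : d1 ρ' (fun x => l (c x)) q = l (d1 ρ c q) := by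
  simp only [d1, LinearMap.coe_mk, AddHom.coe_mk, map_add, map_sub, hl]

private theorem e8_d2_nat {k Γ N N' : Type} [Field k] [Group Γ] [RS k Γ] [AddCommGroup N]
    [Module k N] [AddCommGroup N'] [Module k N'] (ρ : Representation k Γ N)
    (ρ' : Representation k Γ N') (l : N →ₗ[k] N') (hl : ∀ b m, l (ρ b m) = ρ' b (l m))
    (f : Γ × Γ → N) (q : Γ × Γ × Γ) : d2 ρ' (fun x => l (f x)) q = l (d2 ρ f q) := by
  simp only [d2, LinearMap.coe_mk, AddHom.coe_mk, map_add, map_sub, hl]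

private theorem e8_wt_nat {k N N' : Type} [Field k] {n : ℕ} [AddCommGroup N]
    [Module k N] [AddCommGroup N'] [Module k N'] (ρ : Representation k (Bo k n) N)
    (ρ' : Representation k (Bo k n) N') (l : N →ₗ[k] N') (hl : ∀ b m, l (ρ b m) = ρ' b (l m))
    (μ : Fin n → ℤ) (a : N) (ha : a ∈ wtB ρ μ) : l a ∈ wtB ρ' μ := by
  intro t
  rw [← hl, ha t, map_smul]

private theorem e8_wt_sub {k N : Type} [Field k] {n : ℕ} [AddCommGroup N]
    [Module k N] (ρ : Representation k (Bo k n) N) (P : Submodule k N)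
    (h : ∀ g, ∀ m ∈ P, ρ g m ∈ P) (μ : Fin n → ℤ) (a : P) (ha : (a : N) ∈ wtB ρ μ) :
    a ∈ wtB (subR ρ P h) μ := by
  intro t
  apply Subtype.ext
  exact ha t

theorem p_E8 (h3 : S_R3) (h4 : S_R4) (h8 : S_R8) (h9 : S_R9) (h15 : S_R15) (hE3 : S_E3)
    (hE4 : S_E4) (hE7 : S_E7) : S_E8 := by
  intro k _ _ n N _ _ ρ P h hrat hM hEs hEq y hyw hye
  obtain ⟨hσ, hτ, -, -⟩ := hE7 k n N ρ P h hrat
  haveI := e8_rg h8 h9 k n
  set σ := subR ρ P h with hσdef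
  set τ := quoR ρ P h with hτdef
  set ι : P →ₗ[k] N := P.subtype with hι
  set π : N →ₗ[k] N ⧸ P := P.mkQ with hπ
  have hιc : ∀ b m, ι (σ b m) = ρ b (ι m) := fun b m => rfl
  have hπc : ∀ b m, π (ρ b m) = τ b (π m) := fun b m => rfl
  have hιinj : Function.Injective ι := Subtype.val_injective
  have hmem : ∀ x : N, π x = 0 ↔ x ∈ P := fun x => by
    rw [hπ, Submodule.mkQ_apply, Submodule.Quotient.mk_eq_zero]
  obtain ⟨-, -, Enatπ, -, -, -, -⟩ := hE3 k n N (N ⧸ P) ρ τ hrat hτ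
  obtain ⟨Eadd, Esmul, -, -, -, -, -⟩ := hE3 k n N N ρ ρ hrat hrat
  obtain ⟨Eaddσ, Esmulσ, Enatι, -, -, -, -⟩ := hE3 k n P N σ ρ hσ hrat
  obtain ⟨-, -, -, -, -, -, p1natπ, -, -, -⟩ := hE4 k n N (N ⧸ P) ρ τ hrat hτ
  obtain ⟨-, -, -, p1add, p1sub, -, -, p1wt, -, p2d⟩ := hE4 k n N N ρ ρ hrat hrat
  obtain ⟨-, -, p2natι, -, -, -, p1natι, p1wtσ, -, p2dσ⟩ := hE4 k n P N σ ρ hσ hrat
  have Eneg : ∀ i (a : N), Eo ρ i (-a) = -Eo ρ i a := fun i a => by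
    have := Esmul i (-1) a
    simpa using this
  have Esub : ∀ i (a b : N), Eo ρ i (a - b) = Eo ρ i a - Eo ρ i b := fun i a b => by
    rw [sub_eq_add_neg, Eadd, Eneg, sub_eq_add_neg]
  have Enegσ : ∀ i (a : P), Eo σ i (-a) = -Eo σ i a := fun i a => by
    have := Esmulσ i (-1) a
    simpa using this
  -- step 1
  obtain ⟨c'', hc''Z, hc''p⟩ := hEq (fun i => π (y i))
    (fun i hi => e8_wt_nat ρ τ π hπc _ _ (hyw i hi))
    (fun i j hij hj => by rw [Enatπ π hπc, Enatπ π hπc, hye i j hij hj])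
  -- step 2
  obtain ⟨c, hcR, hcl⟩ := (h4 k (Bo k n) N (N ⧸ P)).1 π (Submodule.mkQ_surjective P) c'' hc''Z.1
  have hcl' : (fun x => π (c x)) = c'' := funext hcl
  -- step 3
  have hd1P : ∀ q, d1 ρ c q ∈ P := by
    intro q
    rw [← hmem, ← e8_d1_nat ρ τ π hπc, hcl']
    exact congrFun (LinearMap.mem_ker.mp hc''Z.2) q
  have hd1Z : d1 ρ c ∈ Zc2 ρ := (h15 k (Bo k n) N ρ hrat).2.1 ⟨c, hcR, rfl⟩
  set g : Bo k n × Bo k n → P := fun q => ⟨d1 ρ c q, hd1P q⟩ with hg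
  have hιg : (fun q => ι (g q)) = d1 ρ c := rfl
  have hgR : g ∈ RM k (Bo k n × Bo k n) P :=
    (h4 k (Bo k n × Bo k n) N N).2 P (d1 ρ c) hd1P hd1Z.1
  have hgZ : g ∈ Zc2 σ := by
    refine ⟨hgR, ?_⟩
    rw [SetLike.mem_coe, LinearMap.mem_ker]
    funext q
    apply hιinj
    rw [← e8_d2_nat σ ρ ι hιc, hιg, e8_d2d1]
    simp
  -- step 4
  have hy'P : ∀ i, i + 1 < n → y i - ph1 ρ i c ∈ P := by
    intro i hi
    rw [← hmem, map_sub, ← p1natπ i c hcR π hπc, hcl', hc''p i hi, sub_self]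
  classical
  set z : ℕ → P := fun i => if hi : i + 1 < n then ⟨y i - ph1 ρ i c, hy'P i hi⟩ else 0 with hz
  have hιz : ∀ i, i + 1 < n → ι (z i) = y i - ph1 ρ i c := by
    intro i hi
    simp only [hz, dif_pos hi]
    rfl
  have hzw : ∀ i, i + 1 < n → z i ∈ wtB σ (al n i) := by
    intro i hi
    refine e8_wt_sub ρ P h _ _ ?_
    have : ((z i : P) : N) = y i - ph1 ρ i c := hιz i hi
    rw [this]
    exact Submodule.sub_mem _ (hyw i hi) (p1wt i c)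
  have hp2g : ∀ i j, i + 2 ≤ j → j + 1 < n →
      ph2 σ i j g = Eo σ i (-z j) - Eo σ j (-z i) := by
    intro i j hij hj
    have hi : i + 1 < n := by omega
    apply hιinj
    rw [← p2natι i j g hgR ι hιc, hιg, p2d i j c hij hj hcR, map_sub, ← Enatι ι hιc,
      ← Enatι ι hιc, map_neg, map_neg, hιz i hi, hιz j hj, Eneg, Eneg, Esub, Esub,
      hye i j hij hj]
    abel
  obtain ⟨c', hc'R, hc'd⟩ := hM g hgZ ⟨fun i => -z i,
    fun i hi => Submodule.neg_mem _ (hzw i hi), hp2g⟩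
  -- step 5
  obtain ⟨c3, hc3Z, hc3p⟩ := hEs (fun i => z i + ph1 σ i c')
    (fun i hi => Submodule.add_mem _ (hzw i hi) (p1wtσ i c'))
    (fun i j hij hj => by
      have e1 := hp2g i j hij hj
      rw [← hc'd, p2dσ i j c' hij hj hc'R, Enegσ, Enegσ] at e1
      rw [Eaddσ, Eaddσ]
      have e2 : (Eo σ i (z j) + Eo σ i (ph1 σ j c')) - (Eo σ j (z i) + Eo σ j (ph1 σ i c'))
          = (Eo σ i (ph1 σ j c') - Eo σ j (ph1 σ i c')) - (-Eo σ i (z j) - -Eo σ j (z i)) := by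
        abel
      rw [← sub_eq_zero, e2, e1, sub_self])
  -- step 6
  have hιc'R : (fun x => ι (c' x)) ∈ RM k (Bo k n) N := (h3 k _ k P N).2.1 ι c' hc'R
  have hιc3R : (fun x => ι (c3 x)) ∈ RM k (Bo k n) N := (h3 k _ k P N).2.1 ι c3 hc3Z.1
  refine ⟨(c - fun x => ι (c' x)) + fun x => ι (c3 x), ⟨?_, ?_⟩, ?_⟩
  · exact Submodule.add_mem _ (Submodule.sub_mem _ hcR hιc'R) hιc3R
  · rw [SetLike.mem_coe, LinearMap.mem_ker, map_add, map_sub]
    funext q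
    have e1 := e8_d1_nat σ ρ ι hιc c' q
    have e2 := e8_d1_nat σ ρ ι hιc c3 q
    simp only [Pi.add_apply, Pi.sub_apply, Pi.zero_apply]
    rw [e1, e2, hc'd]
    have e3 : d1 σ c3 q = 0 := congrFun (LinearMap.mem_ker.mp hc3Z.2) q
    have e4 : ι (g q) = d1 ρ c q := rfl
    rw [e3, e4, map_zero]
    simp
  · intro i hi
    rw [p1add i _ _ (Submodule.sub_mem _ hcR hιc'R) hιc3R, p1sub i _ _ hcR hιc'R,
      p1natι i c' hc'R ι hιc, p1natι i c3 hc3Z.1 ι hιc, hc3p i hi, map_add, hιz i hi]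
    abel

end Pool.Agent.Sp49
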