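import Pool.Agent.Lib.MP_49c83e_al.StmE

/-!
[sp49 E9] devissage for Mono2.
-/

namespace Pool.Agent.Sp49

private theorem e9_rg (h8 : S_R8) (h9 : S_R9) (k : Type) [Field k] (n : ℕ) : RG k (Bo k n) := by
  haveI := (h9 k n).1
  exact (h8 k k (SpG k n)).2.2.1 (Bo k n)

private theorem e9_d2d1 {k Γ N : Type} [Field k] [Group Γ] [RS k Γ] [AddCommGroup N] [Module k N]
    (ρ : Representation k Γ N) (c : Γ → N) : d2 ρ (d1 ρ c) = 0 := by
  funext q
  obtain ⟨a, b, d⟩ := q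
  simp only [d2, d1, LinearMap.coe_mk, AddHom.coe_mk, map_add, map_sub, mul_assoc, map_mul,
    Module.End.mul_apply, Pi.zero_apply]
  abel

private theorem e9_d1_nat {k Γ N N' : Type} [Field k] [Group Γ] [RS k Γ] [AddCommGroup N]
    [Module k N] [AddCommGroup N'] [Module k N'] (ρ : Representation k Γ N)
    (ρ' : Representation k Γ N') (l : N →ₗ[k] N') (hl : ∀ b m, l (ρ b m) = ρ' b (l m))
    (c : Γ → N) (q : Γ × Γ) : d1 ρ' (fun x => l (c x)) q = l (d1 ρ c q) := by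
  simp only [d1, LinearMap.coe_mk, AddHom.coe_mk, map_add, map_sub, hl]

private theorem e9_d2_nat {k Γ N N' : Type} [Field k] [Group Γ] [RS k Γ] [AddCommGroup N]
    [Module k N] [AddCommGroup N'] [Module k N'] (ρ : Representation k Γ N)
    (ρ' : Representation k Γ N') (l : N →ₗ[k] N') (hl : ∀ b m, l (ρ b m) = ρ' b (l m))
    (f : Γ × Γ → N) (q : Γ × Γ × Γ) : d2 ρ' (fun x => l (f x)) q = l (d2 ρ f q) := by
  simp only [d2, LinearMap.coe_mk, AddHom.coe_mk, map_add, map_sub, hl]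

private theorem e9_wt_nat {k N N' : Type} [Field k] {n : ℕ} [AddCommGroup N]
    [Module k N] [AddCommGroup N'] [Module k N'] (ρ : Representation k (Bo k n) N)
    (ρ' : Representation k (Bo k n) N') (l : N →ₗ[k] N') (hl : ∀ b m, l (ρ b m) = ρ' b (l m))
    (μ : Fin n → ℤ) (a : N) (ha : a ∈ wtB ρ μ) : l a ∈ wtB ρ' μ := by
  intro t
  rw [← hl, ha t, map_smul]

private theorem e9_wt_sub {k N : Type} [Field k] {n : ℕ} [AddCommGroup N]
    [Module k N] (ρ : Representation k (Bo k n) N) (P : Submodule k N)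
    (h : ∀ g, ∀ m ∈ P, ρ g m ∈ P) (μ : Fin n → ℤ) (a : P) (ha : (a : N) ∈ wtB ρ μ) :
    a ∈ wtB (subR ρ P h) μ := by
  intro t
  apply Subtype.ext
  exact ha t

theorem p_E9 (h3 : S_R3) (h4 : S_R4) (h8 : S_R8) (h9 : S_R9) (h15 : S_R15) (hE3 : S_E3)
    (hE4 : S_E4) (hE7 : S_E7) : S_E9 := by
  intro k _ _ n N _ _ ρ P h hrat hMs hMq hEq f hfZ hfy
  obtain ⟨y, hyw, hyf⟩ := hfy
  obtain ⟨hσ, hτ, -, -⟩ := hE7 k n N ρ P h hrat
  haveI := e9_rg h8 h9 k n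
  set σ := subR ρ P h with hσdef
  set τ := quoR ρ P h with hτdef
  set ι : P →ₗ[k] N := P.subtype with hι
  set π : N →ₗ[k] N ⧸ P := P.mkQ with hπ
  have hιc : ∀ b m, ι (σ b m) = ρ b (ι m) := fun b m => rfl
  have hπc : ∀ b m, π (ρ b m) = τ b (π m) := fun b m => rfl
  have hιinj : Function.Injective ι := Subtype.val_injective
  have hmem : ∀ x : N, π x = 0 ↔ x ∈ P := fun x => by
    rw [hπ, Submodule.mkQ_apply, Submodule.Quotient.mk_eq_zero]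
  obtain ⟨-, -, Enatπ, -, -, -, -⟩ := hE3 k n N (N ⧸ P) ρ τ hrat hτ
  obtain ⟨Eadd, Esmul, -, -, -, -, -⟩ := hE3 k n N N ρ ρ hrat hrat
  obtain ⟨-, -, Enatι, -, -, -, -⟩ := hE3 k n P N σ ρ hσ hrat
  obtain ⟨-, -, p2natπ, -, -, -, p1natπ, -, -, -⟩ := hE4 k n N (N ⧸ P) ρ τ hrat hτ
  obtain ⟨p2add, p2smul, -, -, -, -, -, p1wt, -, p2d⟩ := hE4 k n N N ρ ρ hrat hrat
  obtain ⟨-, -, p2natι, -, -, -, -, -, -, -⟩ := hE4 k n P N σ ρ hσ hrat
  have Eneg : ∀ i (a : N), Eo ρ i (-a) = -Eo ρ i a := fun i a => by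
    have := Esmul i (-1) a
    simpa using this
  have Esub : ∀ i (a b : N), Eo ρ i (a - b) = Eo ρ i a - Eo ρ i b := fun i a b => by
    rw [sub_eq_add_neg, Eadd, Eneg, sub_eq_add_neg]
  have p2sub : ∀ i j (f g : Bo k n × Bo k n → N), f ∈ RM k (Bo k n × Bo k n) N →
      g ∈ RM k (Bo k n × Bo k n) N → ph2 ρ i j (f - g) = ph2 ρ i j f - ph2 ρ i j g := by
    intro i j f g hf hg
    have e1 : f - g = f + (-1 : k) • g := by
      rw [neg_one_smul, sub_eq_add_neg]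
    rw [e1, p2add i j f _ hf (Submodule.smul_mem _ _ hg), p2smul i j (-1) g hg, neg_one_smul,
      sub_eq_add_neg]
  have hB : ∀ c ∈ RM k (Bo k n) N, d1 ρ c ∈ Zc2 ρ := fun c hc =>
    (h15 k (Bo k n) N ρ hrat).2.1 ⟨c, hc, rfl⟩
  -- the image in the quotient
  have hπfZ : (fun q => π (f q)) ∈ Zc2 τ := by
    refine ⟨(h3 k (Bo k n × Bo k n) k N (N ⧸ P)).2.1 π f hfZ.1, ?_⟩
    rw [SetLike.mem_coe, LinearMap.mem_ker]
    funext q
    rw [e9_d2_nat ρ τ π hπc]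
    have : d2 ρ f q = 0 := congrFun (LinearMap.mem_ker.mp hfZ.2) q
    rw [this, map_zero]
    rfl
  obtain ⟨ψ'', hψ''R, hψ''d⟩ := hMq _ hπfZ ⟨fun i => π (y i),
    fun i hi => e9_wt_nat ρ τ π hπc _ _ (hyw i hi), fun i j hij hj => by
      rw [p2natπ i j f hfZ.1 π hπc, hyf i j hij hj, map_sub, Enatπ π hπc, Enatπ π hπc]⟩
  obtain ⟨ψ, hψR, hψl⟩ := (h4 k (Bo k n) N (N ⧸ P)).1 π (Submodule.mkQ_surjective P) ψ'' hψ''R
  have hψl' : (fun x => π (ψ x)) = ψ'' := funext hψl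
  set f1 : Bo k n × Bo k n → N := f - d1 ρ ψ with hf1
  have hf1Z : f1 ∈ Zc2 ρ := Submodule.sub_mem _ hfZ (hB ψ hψR)
  have hf1π : ∀ q, π (f1 q) = 0 := by
    intro q
    have e1 : f1 q = f q - d1 ρ ψ q := rfl
    rw [e1, map_sub, ← e9_d1_nat ρ τ π hπc, hψl', hψ''d, sub_self]
  set w : ℕ → N := fun i => y i - ph1 ρ i ψ with hw
  have hww : ∀ i, i + 1 < n → w i ∈ wtB ρ (al n i) := fun i hi =>
    Submodule.sub_mem _ (hyw i hi) (p1wt i ψ)
  have hf1p : ∀ i j, i + 2 ≤ j → j + 1 < n →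
      ph2 ρ i j f1 = Eo ρ i (w j) - Eo ρ j (w i) := by
    intro i j hij hj
    rw [hf1, p2sub i j f _ hfZ.1 (hB ψ hψR).1, hyf i j hij hj, p2d i j ψ hij hj hψR, hw]
    simp only
    rw [Esub, Esub]
    abel
  -- the image of w is a cocycle
  have hzero : ∀ i j, ph2 τ i j (fun q => π (f1 q)) = 0 := by
    intro i j
    obtain ⟨-, p2smulτ, -⟩ := hE4 k n (N ⧸ P) (N ⧸ P) τ τ hτ hτ
    have e1 : (fun q => π (f1 q)) = (0 : k) • (0 : Bo k n × Bo k n → N ⧸ P) := by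
      funext q
      rw [hf1π q]
      simp
    rw [e1, p2smulτ i j 0 0 (Submodule.zero_mem _), zero_smul]
  obtain ⟨c'', hc''Z, hc''p⟩ := hEq (fun i => π (w i))
    (fun i hi => e9_wt_nat ρ τ π hπc _ _ (hww i hi))
    (fun i j hij hj => by
      rw [Enatπ π hπc, Enatπ π hπc, ← sub_eq_zero, ← map_sub, ← hf1p i j hij hj,
        ← p2natπ i j f1 hf1Z.1 π hπc, hzero])
  obtain ⟨c, hcR, hcl⟩ := (h4 k (Bo k n) N (N ⧸ P)).1 π (Submodule.mkQ_surjective P) c'' hc''Z.1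
  have hcl' : (fun x => π (c x)) = c'' := funext hcl
  set f2 : Bo k n × Bo k n → N := f1 - d1 ρ c with hf2
  have hf2Z : f2 ∈ Zc2 ρ := Submodule.sub_mem _ hf1Z (hB c hcR)
  have hf2P : ∀ q, f2 q ∈ P := by
    intro q
    have e1 : f2 q = f1 q - d1 ρ c q := rfl
    have e2 : d1 τ c'' q = 0 := congrFun (LinearMap.mem_ker.mp hc''Z.2) q
    rw [← hmem, e1, map_sub, hf1π q, ← e9_d1_nat ρ τ π hπc, hcl', e2, sub_self]
  have hf2p : ∀ i j, i + 2 ≤ j → j + 1 < n →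
      ph2 ρ i j f2 = Eo ρ i (w j - ph1 ρ j c) - Eo ρ j (w i - ph1 ρ i c) := by
    intro i j hij hj
    rw [hf2, p2sub i j f1 _ hf1Z.1 (hB c hcR).1, hf1p i j hij hj, p2d i j c hij hj hcR,
      Esub i (w j) (ph1 ρ j c), Esub j (w i) (ph1 ρ i c)]
    abel
  have hwP : ∀ i, i + 1 < n → w i - ph1 ρ i c ∈ P := by
    intro i hi
    rw [← hmem, map_sub, ← p1natπ i c hcR π hπc, hcl', hc''p i hi, sub_self]
  classical
  set z : ℕ → P := fun i => if hi : i + 1 < n then ⟨w i - ph1 ρ i c, hwP i hi⟩ else 0 with hz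
  have hιz : ∀ i, i + 1 < n → ι (z i) = w i - ph1 ρ i c := by
    intro i hi
    simp only [hz, dif_pos hi]
    rfl
  have hzw : ∀ i, i + 1 < n → z i ∈ wtB σ (al n i) := by
    intro i hi
    refine e9_wt_sub ρ P h _ _ ?_
    have : ((z i : P) : N) = w i - ph1 ρ i c := hιz i hi
    rw [this]
    exact Submodule.sub_mem _ (hww i hi) (p1wt i c)
  set g : Bo k n × Bo k n → P := fun q => ⟨f2 q, hf2P q⟩ with hg
  have hιg : (fun q => ι (g q)) = f2 := rfl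
  have hgR : g ∈ RM k (Bo k n × Bo k n) P :=
    (h4 k (Bo k n × Bo k n) N N).2 P f2 hf2P hf2Z.1
  have hgZ : g ∈ Zc2 σ := by
    refine ⟨hgR, ?_⟩
    rw [SetLike.mem_coe, LinearMap.mem_ker]
    funext q
    apply hιinj
    rw [← e9_d2_nat σ ρ ι hιc, hιg]
    have : d2 ρ f2 q = 0 := congrFun (LinearMap.mem_ker.mp hf2Z.2) q
    rw [this]
    rfl
  obtain ⟨c', hc'R, hc'd⟩ := hMs g hgZ ⟨z, hzw, fun i j hij hj => by
    have hi : i + 1 < n := by omega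
    apply hιinj
    rw [← p2natι i j g hgR ι hιc, hιg, hf2p i j hij hj, map_sub, ← Enatι ι hιc,
      ← Enatι ι hιc, hιz i hi, hιz j hj]⟩
  have hιc'R : (fun x => ι (c' x)) ∈ RM k (Bo k n) N := (h3 k _ k P N).2.1 ι c' hc'R
  refine ⟨ψ + c + fun x => ι (c' x), ?_, ?_⟩
  · exact Submodule.add_mem _ (Submodule.add_mem _ hψR hcR) hιc'R
  · rw [map_add, map_add]
    funext q
    simp only [Pi.add_apply]
    rw [e9_d1_nat σ ρ ι hιc c' q, hc'd]
    have e4 : ι (g q) = f q - d1 ρ ψ q - d1 ρ c q := rfl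
    rw [e4]
    abel

end Pool.Agent.Sp49
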