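import Pool.Agent.Lib.MP_49c83e_al.StmG

/-!
MP_49c83e_al, piece G1: Sp_2n is generated by the torus and the root elements of the simple roots
and their negatives.
-/

namespace Pool.Agent.Sp49

open Matrix

section G1

variable {k : Type} [Field k] {n : ℕ}

/-- Levi elements in H -/
private def g1P (H : Subgroup (SpG k n)) (A : Matrix (Fin n) (Fin n) k) : Prop :=
  ∃ g ∈ H, (g : Matrix (Fin n ⊕ Fin n) (Fin n ⊕ Fin n) k) = fromBlocks A 0 0 (A⁻¹)ᵀ

/-- upper unipotent elements in H -/
private def g1U (H : Subgroup (SpG k n)) (B : Matrix (Fin n) (Fin n) k) : Prop :=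
  ∃ g ∈ H, (g : Matrix (Fin n ⊕ Fin n) (Fin n ⊕ Fin n) k) = fromBlocks 1 B 0 1

/-- lower unipotent elements in H -/
private def g1L (H : Subgroup (SpG k n)) (C : Matrix (Fin n) (Fin n) k) : Prop :=
  ∃ g ∈ H, (g : Matrix (Fin n ⊕ Fin n) (Fin n ⊕ Fin n) k) = fromBlocks 1 0 C 1

private theorem g1P_mul {H : Subgroup (SpG k n)} {A B : Matrix (Fin n) (Fin n) k}
    (hA : g1P H A) (hB : g1P H B) : g1P H (A * B) := by
  obtain ⟨g, hg, eg⟩ := hA
  obtain ⟨h, hh, eh⟩ := hB
  refine ⟨g * h, mul_mem hg hh, ?_⟩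
  rw [Submonoid.coe_mul, eg, eh, fromBlocks_multiply]
  simp [Matrix.mul_inv_rev, Matrix.transpose_mul]

private theorem g1_tvinv {a b : Fin n} (hab : a ≠ b) (s : k) :
    (transvection a b s)⁻¹ = transvection a b (-s) := by
  apply Matrix.inv_eq_right_inv
  rw [transvection_mul_transvection_same a b hab, add_neg_cancel, transvection_zero]

private theorem g1P_xr {H : Subgroup (SpG k n)} {a b : Fin n} (hab : a ≠ b) {s : k}
    (h : xr a b s ∈ H) : g1P H (transvection a b s) := by
  refine ⟨_, h, ?_⟩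
  rw [g1_tvinv hab]
  have e : (1 : Matrix (Fin n) (Fin n) k) - Matrix.single b a s = 1 + Matrix.single b a (-s) := by
    ext x y
    simp only [Matrix.sub_apply, Matrix.add_apply, Matrix.single_apply]
    split_ifs <;> ring
  simp only [xr, dif_pos hab, transvection, Matrix.transpose_add, Matrix.transpose_one,
    Matrix.transpose_single, e]

private theorem g1_comm {a b c : Fin n} (hab : a ≠ b) (hbc : b ≠ c) (hac : a ≠ c) (s t : k) :
    transvection a b s * transvection b c t * transvection a b (-s) * transvection b c (-t) =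
      transvection a c (s * t) := by
  simp only [transvection, mul_add, add_mul, mul_one, one_mul, Matrix.single_mul_single_same,
    Matrix.single_mul_single_of_ne _ _ _ _ hab.symm,
    Matrix.single_mul_single_of_ne _ _ _ _ hbc.symm,
    Matrix.single_mul_single_of_ne _ _ _ _ hac.symm, add_zero]
  ext x y
  simp only [Matrix.add_apply, Matrix.single_apply]
  split_ifs <;> ring

private theorem g1P_up {H : Subgroup (SpG k n)} (hx : ∀ (i : ℕ) (s : k), xs i s ∈ H) :
    ∀ (d : ℕ) (a c : Fin n), (c : ℕ) = a + d + 1 → ∀ s : k, g1P H (transvection a c s) := by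
  intro d
  induction d with
  | zero =>
    intro a c hac s
    have hne : a ≠ c := by
      rintro rfl
      omega
    apply g1P_xr hne
    have h1 := hx a s
    have h2 : (a : ℕ) + 1 < n := by
      have := c.2
      omega
    rw [xs, dif_pos h2] at h1
    have h3 : (⟨(a : ℕ) + 1, h2⟩ : Fin n) = c := Fin.ext (by simp only; omega)
    rw [h3] at h1
    exact h1
  | succ d ih =>
    intro a c hac s
    have hb : (a : ℕ) + d + 1 < n := by
      have := c.2
      omega
    obtain ⟨b, hbe⟩ : ∃ b : Fin n, (b : ℕ) = a + d + 1 := ⟨⟨_, hb⟩, rfl⟩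
    have hab : a ≠ b := by
      rintro rfl
      omega
    have hbc : b ≠ c := by
      rintro rfl
      omega
    have hac' : a ≠ c := by
      rintro rfl
      omega
    have base : ∀ t : k, g1P H (transvection b c t) := by
      intro t
      apply g1P_xr hbc
      have h1 := hx b t
      have h2 : (b : ℕ) + 1 < n := by
        have := c.2
        omega
      rw [xs, dif_pos h2] at h1
      have h3 : (⟨(b : ℕ) + 1, h2⟩ : Fin n) = c := Fin.ext (by simp only; omega)
      rw [h3] at h1
      exact h1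
    have h1 := g1_comm hab hbc hac' s 1
    rw [mul_one] at h1
    rw [← h1]
    exact g1P_mul (g1P_mul (g1P_mul (ih a b hbe s) (base 1)) (ih a b hbe (-s))) (base (-1))

private theorem g1P_dn {H : Subgroup (SpG k n)} (hy : ∀ (i : ℕ) (s : k), ys i s ∈ H) :
    ∀ (d : ℕ) (a c : Fin n), (a : ℕ) = c + d + 1 → ∀ s : k, g1P H (transvection a c s) := by
  intro d
  induction d with
  | zero =>
    intro a c hac s
    have hne : a ≠ c := by
      rintro rfl
      omega
    apply g1P_xr hne
    have h1 := hy c s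
    have h2 : (c : ℕ) + 1 < n := by
      have := a.2
      omega
    rw [ys, dif_pos h2] at h1
    have h3 : (⟨(c : ℕ) + 1, h2⟩ : Fin n) = a := Fin.ext (by simp only; omega)
    rw [h3] at h1
    exact h1
  | succ d ih =>
    intro a c hac s
    have hb : (c : ℕ) + d + 1 < n := by
      have := a.2
      omega
    obtain ⟨b, hbe⟩ : ∃ b : Fin n, (b : ℕ) = c + d + 1 := ⟨⟨_, hb⟩, rfl⟩
    have hab : a ≠ b := by
      rintro rfl
      omega
    have hbc : b ≠ c := by
      rintro rfl
      omega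
    have hac' : a ≠ c := by
      rintro rfl
      omega
    have base : ∀ t : k, g1P H (transvection a b t) := by
      intro t
      apply g1P_xr hab
      have h1 := hy b t
      have h2 : (b : ℕ) + 1 < n := by
        have := a.2
        omega
      rw [ys, dif_pos h2] at h1
      have h3 : (⟨(b : ℕ) + 1, h2⟩ : Fin n) = a := Fin.ext (by simp only; omega)
      rw [h3] at h1
      exact h1
    have h1 := g1_comm hab hbc hac' s 1
    rw [mul_one] at h1
    rw [← h1]
    exact g1P_mul (g1P_mul (g1P_mul (base s) (ih b c hbe 1)) (base (-s))) (ih b c hbe (-1))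

private theorem g1P_all {H : Subgroup (SpG k n)} (ht : ∀ t : Fin n → kˣ, tor t ∈ H)
    (hx : ∀ (i : ℕ) (s : k), xs i s ∈ H) (hy : ∀ (i : ℕ) (s : k), ys i s ∈ H)
    (A : Matrix (Fin n) (Fin n) k) (hA : A.det ≠ 0) : g1P H A := by
  refine diagonal_transvection_induction_of_det_ne_zero (g1P H) A hA ?_ ?_
    fun _ _ _ _ h h' => g1P_mul h h'
  · intro D hD
    rw [Matrix.det_diagonal, Finset.prod_ne_zero_iff] at hD
    refine ⟨_, ht fun i => Units.mk0 (D i) (hD i (Finset.mem_univ _)), ?_⟩
    have h1 : (Matrix.diagonal D)⁻¹ = Matrix.diagonal fun i => (D i)⁻¹ := by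
      apply Matrix.inv_eq_right_inv
      rw [Matrix.diagonal_mul_diagonal, ← Matrix.diagonal_one]
      congr 1
      funext i
      exact mul_inv_cancel₀ (hD i (Finset.mem_univ _))
    rw [h1, Matrix.diagonal_transpose]
    rfl
  · rintro ⟨i, j, hij, c⟩
    rw [TransvectionStruct.toMatrix_mk]
    rcases lt_or_gt_of_ne hij with h | h
    · have h' : (i : ℕ) < j := h
      exact g1P_up hx ((j : ℕ) - i - 1) i j (by omega) c
    · have h' : (j : ℕ) < i := h
      exact g1P_dn hy ((i : ℕ) - j - 1) i j (by omega) c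

/-! symmetric matrices -/

private theorem g1_mulVec {a b : Fin n} (c : k) (v : Fin n → k) :
    transvection a b c *ᵥ v = v + Pi.single a (c * v b) := by
  funext x
  rw [transvection, Matrix.add_mulVec, Matrix.one_mulVec, Pi.add_apply, Pi.add_apply]
  congr 1
  simp only [Matrix.mulVec, dotProduct, Matrix.single_apply]
  rw [Finset.sum_eq_single b]
  · by_cases h : a = x
    · subst h
      simp
    · rw [Pi.single_eq_of_ne (Ne.symm h)]
      simp [h]
  · intro y _ hy
    rw [if_neg (fun h => hy h.2.symm), zero_mul]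
  · intro h
    exact absurd (Finset.mem_univ _) h

private theorem g1_vec (Q : Matrix (Fin n) (Fin n) k → Prop)
    (hconj : ∀ A B : Matrix (Fin n) (Fin n) k, A.det ≠ 0 → Q B → Q (A * B * Aᵀ))
    {v : Fin n → k} {a b : Fin n} (hab : a ≠ b) (c : k)
    (hv : ∀ s : k, Q (s • vecMulVec v v)) (s : k) :
    Q (s • vecMulVec (v + Pi.single a (c * v b)) (v + Pi.single a (c * v b))) := by
  have h1 := hconj (transvection a b c) _ (by
    rw [det_transvection_of_ne a b hab]
    exact one_ne_zero) (hv s)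
  rw [Matrix.mul_smul, Matrix.smul_mul, Matrix.mul_vecMulVec, Matrix.vecMulVec_mul,
    Matrix.vecMul_transpose, g1_mulVec] at h1
  exact h1

private theorem g1_sym (Q : Matrix (Fin n) (Fin n) k → Prop) (h0 : Q 0)
    (hadd : ∀ B C : Matrix (Fin n) (Fin n) k, Q B → Q C → Q (B + C))
    (hconj : ∀ A B : Matrix (Fin n) (Fin n) k, A.det ≠ 0 → Q B → Q (A * B * Aᵀ))
    (hl : ∀ (l : Fin n) (s : k), (l : ℕ) + 1 = n → Q (Matrix.single l l s))
    (B : Matrix (Fin n) (Fin n) k) (hB : Bᵀ = B) : Q B := by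
  have e1 : ∀ (a : Fin n) (s : k), s • vecMulVec (Pi.single a (1 : k)) (Pi.single a 1) =
      Matrix.single a a s := by
    intro a s
    ext x y
    simp only [Matrix.smul_apply, vecMulVec_apply, Matrix.single_apply, Pi.single_apply,
      smul_eq_mul]
    by_cases hx : a = x
    · subst hx
      by_cases hy : a = y
      · subst hy
        simp
      · simp [hy, Ne.symm hy]
    · simp [hx, Ne.symm hx]
  -- multiples of single a a
  have d1 : ∀ (a : Fin n) (s : k), Q (s • vecMulVec (Pi.single a (1 : k)) (Pi.single a 1)) := by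
    intro a
    have hn : 0 < n := a.pos
    obtain ⟨l, hle⟩ : ∃ l : Fin n, (l : ℕ) + 1 = n := ⟨⟨n - 1, by omega⟩, by simp only; omega⟩
    have hl' : ∀ s : k, Q (s • vecMulVec (Pi.single l (1 : k)) (Pi.single l 1)) := by
      intro s
      rw [e1]
      exact hl l s hle
    by_cases hal : a = l
    · rw [hal]
      exact hl'
    · have h1 := g1_vec Q hconj hal 1 hl'
      have h2 := g1_vec Q hconj (Ne.symm hal) (-1) h1
      intro s
      have h3 := h2 s
      have e2 : (Pi.single l (1 : k) + Pi.single a (1 * (Pi.single l (1 : k) : Fin n → k) l) +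
          Pi.single l (-1 * (Pi.single l (1 : k) + Pi.single a (1 *
            (Pi.single l (1 : k) : Fin n → k) l) : Fin n → k) a) : Fin n → k) =
          Pi.single a 1 := by
        rw [Pi.add_apply, Pi.single_eq_same, Pi.single_eq_of_ne hal, mul_one,
          Pi.single_eq_same, zero_add, mul_one]
        funext x
        simp only [Pi.add_apply, Pi.single_apply]
        split_ifs <;> ring
      rw [e2] at h3
      exact h3
  have d2 : ∀ (a b : Fin n), a ≠ b → ∀ s : k,
      Q (Matrix.single a b s + Matrix.single b a s) := by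
    intro a b hab s
    have h1 := g1_vec Q hconj (Ne.symm hab) 1 (d1 a) s
    have h2 := d1 a (-s)
    have h3 := d1 b (-s)
    have h4 := hadd _ _ (hadd _ _ h1 h2) h3
    have e2 : s • vecMulVec (Pi.single a (1 : k) + Pi.single b (1 * (Pi.single a (1 : k) :
          Fin n → k) a)) (Pi.single a 1 + Pi.single b (1 * (Pi.single a (1 : k) :
          Fin n → k) a)) +
        -s • vecMulVec (Pi.single a (1 : k)) (Pi.single a 1) +
        -s • vecMulVec (Pi.single b (1 : k)) (Pi.single b 1) =
        Matrix.single a b s + Matrix.single b a s := by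
      rw [Pi.single_eq_same, mul_one]
      ext x y
      simp only [Matrix.add_apply, Matrix.smul_apply, vecMulVec_apply, Matrix.single_apply,
        Pi.single_apply, smul_eq_mul, Pi.add_apply]
      by_cases hx : x = a <;> by_cases hy : y = a <;> by_cases hx' : x = b <;>
        by_cases hy' : y = b <;> simp_all [eq_comm]
    rw [e2] at h4
    exact h4
  -- decomposition
  have hsum : B = ∑ a : Fin n, ∑ b : Fin n,
      (if a < b then Matrix.single a b (B a b) + Matrix.single b a (B a b)
        else if a = b then Matrix.single a a (B a a) else 0) := by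
    ext x y
    simp only [Matrix.sum_apply]
    have e3 : ∀ a b : Fin n, (if a < b then Matrix.single a b (B a b) + Matrix.single b a (B a b)
        else if a = b then Matrix.single a a (B a a) else 0) x y =
        (if a = x then (if b = y then (if a < b then B a b else if a = b then B a a else 0)
          else 0) else 0) + (if b = x then (if a = y then (if a < b then B a b else 0) else 0)
          else 0) := by
      intro a b
      by_cases h1 : a < b
      · rw [if_pos h1, if_pos h1, if_pos h1, Matrix.add_apply, Matrix.single_apply,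
          Matrix.single_apply]
        congr 1 <;> (split_ifs <;> simp_all)
      · rw [if_neg h1, if_neg h1, if_neg h1]
        by_cases h2 : a = b
        · subst h2
          rw [if_pos rfl, if_pos rfl, Matrix.single_apply]
          split_ifs <;> simp_all
        · rw [if_neg h2, if_neg h2]
          simp
    simp only [e3, Finset.sum_add_distrib]
    have s1 : ∑ a : Fin n, ∑ b : Fin n, (if a = x then (if b = y then
        (if a < b then B a b else if a = b then B a a else 0) else 0) else 0) =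
        (if x < y then B x y else if x = y then B x x else 0) := by
      rw [Finset.sum_eq_single x (fun a _ ha => by simp [ha])
        (fun h => absurd (Finset.mem_univ _) h)]
      rw [Finset.sum_eq_single y (fun b _ hb => by simp [hb])
        (fun h => absurd (Finset.mem_univ _) h)]
      simp
    have s2 : ∑ a : Fin n, ∑ b : Fin n, (if b = x then (if a = y then
        (if a < b then B a b else 0) else 0) else 0) = (if y < x then B y x else 0) := by
      rw [Finset.sum_eq_single y (fun a _ ha => by simp [ha])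
        (fun h => absurd (Finset.mem_univ _) h)]
      rw [Finset.sum_eq_single x (fun b _ hb => by simp [hb])
        (fun h => absurd (Finset.mem_univ _) h)]
      simp
    rw [s1, s2]
    rcases lt_trichotomy x y with h | h | h
    · rw [if_pos h, if_neg (not_lt.mpr h.le), add_zero]
    · subst h
      rw [if_neg (lt_irrefl _), if_pos rfl, if_neg (lt_irrefl _), add_zero]
    · rw [if_neg (not_lt.mpr h.le), if_neg h.ne', if_pos h, zero_add, ← Matrix.transpose_apply B,
        hB]
  rw [hsum]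
  refine Finset.sum_induction _ Q (fun a b => hadd a b) h0 fun a _ => ?_
  refine Finset.sum_induction _ Q (fun a b => hadd a b) h0 fun b _ => ?_
  split_ifs with h1 h2
  · exact d2 a b h1.ne _
  · rw [← e1]
    exact d1 a _
  · exact h0

private theorem g1_inv_det {A : Matrix (Fin n) (Fin n) k} (hA : A.det ≠ 0) : (A⁻¹).det ≠ 0 := by
  rw [Matrix.det_nonsing_inv, Ring.inverse_eq_inv']
  exact inv_ne_zero hA

private theorem g1U_all {H : Subgroup (SpG k n)}
    (hP : ∀ A : Matrix (Fin n) (Fin n) k, A.det ≠ 0 → g1P H A)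
    (hl : ∀ (l : Fin n) (s : k), (l : ℕ) + 1 = n → xl l s ∈ H)
    (B : Matrix (Fin n) (Fin n) k) (hB : Bᵀ = B) : g1U H B := by
  refine g1_sym (g1U H) ⟨1, one_mem _, ?_⟩ ?_ ?_ ?_ B hB
  · rw [fromBlocks_one]
    rfl
  · rintro B C ⟨g, hg, eg⟩ ⟨h, hh, eh⟩
    refine ⟨h * g, mul_mem hh hg, ?_⟩
    rw [Submonoid.coe_mul, eg, eh, fromBlocks_multiply]
    simp
  · rintro A B hA ⟨g, hg, eg⟩
    obtain ⟨a, ha, ea⟩ := hP A hA
    obtain ⟨b, hb, eb⟩ := hP A⁻¹ (g1_inv_det hA)
    have hu : IsUnit A.det := hA.isUnit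
    refine ⟨a * g * b, mul_mem (mul_mem ha hg) hb, ?_⟩
    rw [Submonoid.coe_mul, Submonoid.coe_mul, eg, ea, eb, fromBlocks_multiply,
      fromBlocks_multiply, Matrix.nonsing_inv_nonsing_inv A hu]
    simp only [mul_one, Matrix.mul_zero, Matrix.zero_mul, add_zero, zero_add]
    rw [Matrix.mul_nonsing_inv A hu, ← Matrix.transpose_mul, Matrix.mul_nonsing_inv A hu,
      Matrix.transpose_one]
  · intro l s hls
    exact ⟨_, hl l s hls, rfl⟩

private theorem g1L_all {H : Subgroup (SpG k n)}
    (hP : ∀ A : Matrix (Fin n) (Fin n) k, A.det ≠ 0 → g1P H A)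
    (hl : ∀ (l : Fin n) (s : k), (l : ℕ) + 1 = n → yl l s ∈ H)
    (B : Matrix (Fin n) (Fin n) k) (hB : Bᵀ = B) : g1L H B := by
  refine g1_sym (g1L H) ⟨1, one_mem _, ?_⟩ ?_ ?_ ?_ B hB
  · rw [fromBlocks_one]
    rfl
  · rintro B C ⟨g, hg, eg⟩ ⟨h, hh, eh⟩
    refine ⟨g * h, mul_mem hg hh, ?_⟩
    rw [Submonoid.coe_mul, eg, eh, fromBlocks_multiply]
    simp
  · rintro A B hA ⟨g, hg, eg⟩
    have hu : IsUnit A.det := hA.isUnit
    have hut : IsUnit (Aᵀ).det := by
      rw [Matrix.det_transpose]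
      exact hu
    have hAt : (Aᵀ).det ≠ 0 := hut.ne_zero
    obtain ⟨a, ha, ea⟩ := hP (Aᵀ)⁻¹ (g1_inv_det hAt)
    obtain ⟨b, hb, eb⟩ := hP Aᵀ hAt
    refine ⟨a * g * b, mul_mem (mul_mem ha hg) hb, ?_⟩
    rw [Submonoid.coe_mul, Submonoid.coe_mul, eg, ea, eb, fromBlocks_multiply,
      fromBlocks_multiply, Matrix.nonsing_inv_nonsing_inv _ hut]
    simp only [mul_one, Matrix.mul_zero, Matrix.zero_mul, add_zero, zero_add,
      Matrix.transpose_transpose]
    rw [Matrix.nonsing_inv_mul _ hut, Matrix.transpose_nonsing_inv, Matrix.transpose_transpose,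
      Matrix.mul_nonsing_inv A hu]
  · intro l s hls
    exact ⟨_, hl l s hls, rfl⟩

private theorem g1_big {H : Subgroup (SpG k n)}
    (hP : ∀ A : Matrix (Fin n) (Fin n) k, A.det ≠ 0 → g1P H A)
    (hU : ∀ B : Matrix (Fin n) (Fin n) k, Bᵀ = B → g1U H B)
    (hL : ∀ B : Matrix (Fin n) (Fin n) k, Bᵀ = B → g1L H B)
    (g : SpG k n) (A B C D : Matrix (Fin n) (Fin n) k)
    (hg : (g : Matrix (Fin n ⊕ Fin n) (Fin n ⊕ Fin n) k) = fromBlocks A B C D)
    (hA : A.det ≠ 0) : g ∈ H := by
  have hu : IsUnit A.det := hA.isUnit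
  have m1 : fromBlocks A B C D ∈ Matrix.symplecticGroup (Fin n) k := hg ▸ g.2
  have m2 := SymplecticGroup.transpose_mem m1
  rw [fromBlocks_transpose, SymplecticGroup.fromBlocks_mem_iff] at m2
  rw [SymplecticGroup.fromBlocks_mem_iff] at m1
  obtain ⟨a1, -, a3⟩ := m1
  obtain ⟨b1, -, -⟩ := m2
  simp only [Matrix.transpose_transpose] at b1
  have hi1 : A * A⁻¹ = 1 := Matrix.mul_nonsing_inv A hu
  have hi2 : A⁻¹ * A = 1 := Matrix.nonsing_inv_mul A hu
  have ht1 : (A⁻¹)ᵀ * Aᵀ = 1 := by rw [← Matrix.transpose_mul, hi1, Matrix.transpose_one]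
  have ht2 : Aᵀ * (A⁻¹)ᵀ = 1 := by rw [← Matrix.transpose_mul, hi2, Matrix.transpose_one]
  have hS : (C * A⁻¹)ᵀ = C * A⁻¹ := by
    calc (C * A⁻¹)ᵀ = (A⁻¹)ᵀ * Cᵀ * (A * A⁻¹) := by rw [Matrix.transpose_mul, hi1, mul_one]
      _ = (A⁻¹)ᵀ * (Cᵀ * A) * A⁻¹ := by simp only [Matrix.mul_assoc]
      _ = ((A⁻¹)ᵀ * Aᵀ) * C * A⁻¹ := by rw [← a1]; simp only [Matrix.mul_assoc]
      _ = C * A⁻¹ := by rw [ht1, one_mul]
  have hT : (A⁻¹ * B)ᵀ = A⁻¹ * B := by
    calc (A⁻¹ * B)ᵀ = (A⁻¹ * A) * Bᵀ * (A⁻¹)ᵀ := by rw [Matrix.transpose_mul, hi2, one_mul]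
      _ = A⁻¹ * (A * Bᵀ) * (A⁻¹)ᵀ := by simp only [Matrix.mul_assoc]
      _ = A⁻¹ * B * (Aᵀ * (A⁻¹)ᵀ) := by rw [b1]; simp only [Matrix.mul_assoc]
      _ = A⁻¹ * B := by rw [ht2, mul_one]
  have hD : D = (A⁻¹)ᵀ + C * A⁻¹ * B := by
    have h1 : Aᵀ * D = 1 + Cᵀ * B := by rw [← a3]; abel
    calc D = ((A⁻¹)ᵀ * Aᵀ) * D := by rw [ht1, one_mul]
      _ = (A⁻¹)ᵀ * (Aᵀ * D) := by rw [Matrix.mul_assoc]
      _ = (A⁻¹)ᵀ + (C * A⁻¹)ᵀ * B := by
        rw [h1, mul_add, mul_one, Matrix.transpose_mul, Matrix.mul_assoc]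
      _ = (A⁻¹)ᵀ + C * A⁻¹ * B := by rw [hS]
  obtain ⟨x, hx, ex⟩ := hL _ hS
  obtain ⟨y, hy, ey⟩ := hP A hA
  obtain ⟨z, hz, ez⟩ := hU _ hT
  have : g = x * y * z := by
    apply Subtype.ext
    rw [Submonoid.coe_mul, Submonoid.coe_mul, ex, ey, ez, fromBlocks_multiply,
      fromBlocks_multiply, hg, hD]
    congr 1
    · simp
    · simp only [one_mul, Matrix.zero_mul, add_zero, mul_one, Matrix.mul_zero]
      rw [← Matrix.mul_assoc, hi1, one_mul]
    · simp only [one_mul, add_zero, mul_one, Matrix.mul_zero, zero_add]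
      rw [Matrix.mul_assoc, hi2, mul_one]
    · simp only [one_mul, add_zero, mul_one, Matrix.mul_zero, zero_add]
      have e : C * A⁻¹ * A * (A⁻¹ * B) = C * A⁻¹ * B := by
        rw [Matrix.mul_assoc C A⁻¹ A, hi2, mul_one, ← Matrix.mul_assoc]
      rw [e, add_comm]
  rw [this]
  exact mul_mem (mul_mem hx hy) hz

open Classical in
private theorem g1_det {g : SpG k n} {d : Fin n → k} {B C D : Matrix (Fin n) (Fin n) k}
    (hg : (g : Matrix (Fin n ⊕ Fin n) (Fin n ⊕ Fin n) k) =
      fromBlocks (Matrix.diagonal d) B C D) :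
    (Matrix.diagonal d + Matrix.diagonal (fun i => if d i = 0 then (1 : k) else 0) * C).det ≠
      0 := by
  intro h0
  obtain ⟨v, hv, hv0⟩ := Matrix.exists_mulVec_eq_zero_iff.mpr h0
  have m1 : fromBlocks (Matrix.diagonal d) B C D ∈ Matrix.symplecticGroup (Fin n) k := hg ▸ g.2
  have hdet := SymplecticGroup.symplectic_det m1
  rw [SymplecticGroup.fromBlocks_mem_iff] at m1
  have hC : ∀ i j, d i * C i j = C j i * d j := by
    intro i j
    have h1 := congrFun (congrFun m1.1 i) j
    rw [Matrix.diagonal_transpose, Matrix.diagonal_mul, Matrix.mul_diagonal,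
      Matrix.transpose_apply] at h1
    exact h1
  have hi : ∀ i, d i * v i + (if d i = 0 then (1 : k) else 0) * (C *ᵥ v) i = 0 := by
    intro i
    have h1 := congrFun hv0 i
    rw [Matrix.add_mulVec, ← Matrix.mulVec_mulVec, Pi.add_apply, Matrix.mulVec_diagonal,
      Matrix.mulVec_diagonal] at h1
    exact h1
  have h1 : ∀ i, d i ≠ 0 → v i = 0 := by
    intro i hdi
    have h2 := hi i
    rw [if_neg hdi, zero_mul, add_zero] at h2
    exact (mul_eq_zero.mp h2).resolve_left hdi
  have h2 : Matrix.diagonal d *ᵥ v = 0 := by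
    funext i
    rw [Matrix.mulVec_diagonal, Pi.zero_apply]
    by_cases hdi : d i = 0
    · rw [hdi, zero_mul]
    · rw [h1 i hdi, mul_zero]
  have h3 : C *ᵥ v = 0 := by
    funext i
    by_cases hdi : d i = 0
    · have h4 := hi i
      rw [if_pos hdi, hdi, zero_mul, zero_add, one_mul] at h4
      exact h4
    · rw [Matrix.mulVec, dotProduct, Pi.zero_apply]
      refine Finset.sum_eq_zero fun j _ => ?_
      by_cases hdj : d j = 0
      · have h4 := hC i j
        rw [hdj, mul_zero] at h4
        rw [(mul_eq_zero.mp h4).resolve_left hdi, zero_mul]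
      · rw [h1 j hdj, mul_zero]
  refine hdet.ne_zero (Matrix.exists_mulVec_eq_zero_iff.mp ⟨Sum.elim v 0, ?_, ?_⟩)
  · intro h4
    apply hv
    funext i
    exact congrFun h4 (Sum.inl i)
  · rw [fromBlocks_mulVec, Sum.elim_comp_inl, Sum.elim_comp_inr, h2, h3]
    simp

theorem p_G1 : S_G1 := by
  classical
  intro k _ n H ht hx hy hl
  have hP : ∀ A : Matrix (Fin n) (Fin n) k, A.det ≠ 0 → g1P H A := g1P_all ht hx hy
  have hU : ∀ B : Matrix (Fin n) (Fin n) k, Bᵀ = B → g1U H B :=
    g1U_all hP fun l s h => (hl l s h).1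
  have hL : ∀ B : Matrix (Fin n) (Fin n) k, Bᵀ = B → g1L H B :=
    g1L_all hP fun l s h => (hl l s h).2
  rw [eq_top_iff]
  intro g _
  obtain ⟨L, L', d, hd⟩ := Pivot.exists_list_transvec_mul_mul_list_transvec_eq_diagonal
    (g : Matrix (Fin n ⊕ Fin n) (Fin n ⊕ Fin n) k).toBlocks₁₁
  obtain ⟨x, hxm, ex⟩ := hP (L.map TransvectionStruct.toMatrix).prod (by
    rw [TransvectionStruct.det_toMatrix_prod]
    exact one_ne_zero)
  obtain ⟨y, hym, ey⟩ := hP (L'.map TransvectionStruct.toMatrix).prod (by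
    rw [TransvectionStruct.det_toMatrix_prod]
    exact one_ne_zero)
  have hg' : ∃ B C D : Matrix (Fin n) (Fin n) k,
      ((x * g * y : SpG k n) : Matrix (Fin n ⊕ Fin n) (Fin n ⊕ Fin n) k) =
        fromBlocks (Matrix.diagonal d) B C D := by
    have h1 : ((x * g * y : SpG k n) : Matrix (Fin n ⊕ Fin n) (Fin n ⊕ Fin n) k).toBlocks₁₁ =
        Matrix.diagonal d := by
      rw [Submonoid.coe_mul, Submonoid.coe_mul, ex, ey,
        ← fromBlocks_toBlocks (g : Matrix (Fin n ⊕ Fin n) (Fin n ⊕ Fin n) k), fromBlocks_multiply,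
        fromBlocks_multiply, toBlocks_fromBlocks₁₁]
      simp only [Matrix.zero_mul, Matrix.mul_zero, add_zero]
      exact hd
    rw [← h1]
    exact ⟨_, _, _, (fromBlocks_toBlocks _).symm⟩
  obtain ⟨B, C, D, hg'⟩ := hg'
  obtain ⟨z, hz, ez⟩ := hU (Matrix.diagonal fun i => if d i = 0 then (1 : k) else 0)
    (Matrix.diagonal_transpose _)
  have h1 : z * (x * g * y) ∈ H := by
    refine g1_big hP hU hL _ _ (B + Matrix.diagonal (fun i => if d i = 0 then (1 : k) else 0) * D)
      C D ?_ (g1_det hg')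
    rw [Submonoid.coe_mul, ez, hg', fromBlocks_multiply]
    simp
  have h2 : x * g * y ∈ H := (Subgroup.mul_mem_cancel_left H hz).mp h1
  have h3 : x * g ∈ H := (Subgroup.mul_mem_cancel_right H hym).mp h2
  exact (Subgroup.mul_mem_cancel_left H hxm).mp h3

end G1

end Pool.Agent.Sp49
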