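import Pool.Agent.Lib.MP_49c83e_al.StmG

namespace Pool.Agent.Sp49

open Matrix

private theorem g2_ds {k : Type} [Field k] {n : ℕ} (d : Fin n → k) (a b : Fin n) (c : k) :
    Matrix.diagonal d * Matrix.single a b c = Matrix.single a b (d a * c) := by
  ext p q
  rw [Matrix.diagonal_mul, Matrix.single_apply, Matrix.single_apply]
  split_ifs with h
  · rw [h.1]
  · rw [mul_zero]

private theorem g2_sd {k : Type} [Field k] {n : ℕ} (d : Fin n → k) (a b : Fin n) (c : k) :
    Matrix.single a b c * Matrix.diagonal d = Matrix.single a b (c * d b) := by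
  ext p q
  rw [Matrix.mul_diagonal, Matrix.single_apply, Matrix.single_apply]
  split_ifs with h
  · rw [h.2]
  · rw [zero_mul]

/-- the short root identity in GL_n -/
private theorem g2_short {k : Type} [Field k] {n : ℕ} (a b : Fin n) (hab : a ≠ b) (t s α : k)
    (h0 : α ≠ 0) (hα : α = 1 + t * s) (d : Fin n → k) (hda : d a = α) (hdb : d b = α⁻¹)
    (hd : ∀ l, l ≠ a → l ≠ b → d l = 1) :
    (1 + Matrix.single a b t) * (1 + Matrix.single b a s) =
      (1 + Matrix.single b a (s * α⁻¹)) * Matrix.diagonal d *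
        (1 + Matrix.single a b (t * α⁻¹)) := by
  have h1 : Matrix.diagonal d = (1 : Matrix (Fin n) (Fin n) k) + Matrix.single a a (t * s) +
      Matrix.single b b (α⁻¹ - 1) := by
    ext p q
    simp only [Matrix.add_apply, Matrix.diagonal_apply, Matrix.one_apply, Matrix.single_apply]
    by_cases hpq : p = q
    · subst hpq
      by_cases hpa : a = p
      · subst hpa
        simp [hda, hα, hab.symm]
      · by_cases hpb : b = p
        · subst hpb
          simp [hdb, hab]
        · simp [hd p (Ne.symm hpa) (Ne.symm hpb), hpa, hpb]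
    · have h2 : ¬ (a = p ∧ a = q) := fun h => hpq (h.1.symm.trans h.2)
      have h3 : ¬ (b = p ∧ b = q) := fun h => hpq (h.1.symm.trans h.2)
      simp [hpq, h2, h3]
  have e1 : (1 + Matrix.single a b t) * (1 + Matrix.single b a s) =
      (1 : Matrix (Fin n) (Fin n) k) + Matrix.single a a (t * s) + Matrix.single a b t +
        Matrix.single b a s := by
    simp only [add_mul, mul_add, one_mul, mul_one, Matrix.single_mul_single_same]
    abel
  have e2 : (1 + Matrix.single b a (s * α⁻¹)) * Matrix.diagonal d *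
        (1 + Matrix.single a b (t * α⁻¹)) =
      Matrix.diagonal d + Matrix.single b a s + Matrix.single a b t +
        Matrix.single b b (s * (t * α⁻¹)) := by
    have h3 : s * α⁻¹ * α = s := by rw [mul_assoc, inv_mul_cancel₀ h0, mul_one]
    have h4 : α * (t * α⁻¹) = t := by
      rw [mul_comm t, ← mul_assoc, mul_inv_cancel₀ h0, one_mul]
    rw [add_mul, one_mul, g2_sd, hda, h3, add_mul, mul_add, mul_add, mul_one, mul_one, g2_ds,
      hda, h4, Matrix.single_mul_single_same]
    abel
  have e3 : Matrix.single b b (α⁻¹ - 1) + Matrix.single b b (s * (t * α⁻¹)) =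
      (0 : Matrix (Fin n) (Fin n) k) := by
    rw [← Matrix.single_add]
    have : α⁻¹ - 1 + s * (t * α⁻¹) = 0 := by
      have h5 : α⁻¹ - 1 + s * (t * α⁻¹) = α⁻¹ * (1 + t * s) - 1 := by ring
      rw [h5, ← hα, inv_mul_cancel₀ h0, sub_self]
    rw [this, Matrix.single_zero]
  rw [e1, e2, h1]
  calc (1 : Matrix (Fin n) (Fin n) k) + Matrix.single a a (t * s) + Matrix.single a b t +
        Matrix.single b a s
      = 1 + Matrix.single a a (t * s) + Matrix.single a b t + Matrix.single b a s + 0 := by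
        rw [add_zero]
    _ = 1 + Matrix.single a a (t * s) + Matrix.single a b t + Matrix.single b a s +
        (Matrix.single b b (α⁻¹ - 1) + Matrix.single b b (s * (t * α⁻¹))) := by rw [e3]
    _ = _ := by abel

private theorem g2_neg {k : Type} [Field k] {n : ℕ} (a b : Fin n) (t : k) :
    (1 : Matrix (Fin n) (Fin n) k) - Matrix.single a b t = 1 + Matrix.single a b (-t) := by
  rw [sub_eq_add_neg, Matrix.single_neg]

theorem p_G2 : S_G2 := by
  intro k _ n
  refine ⟨fun i t s a hi ha => ?_, fun l t s a ha => ?_⟩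
  · have ha0 : (a : k) ≠ 0 := a.ne_zero
    have hab : (⟨i, by omega⟩ : Fin n) ≠ ⟨i + 1, hi⟩ := by
      intro h
      have := congrArg Fin.val h
      simp at this
    have hs1 : ∀ u : k, (xs i u : SpG k n) = xr ⟨i, by omega⟩ ⟨i + 1, hi⟩ u := fun u => by
      unfold xs
      rw [dif_pos hi]
    have hs2 : ∀ u : k, (ys i u : SpG k n) = xr ⟨i + 1, hi⟩ ⟨i, by omega⟩ u := fun u => by
      unfold ys
      rw [dif_pos hi]
    rw [hs1, hs1, hs2, hs2]
    unfold xr
    rw [dif_pos hab, dif_pos hab, dif_pos hab.symm, dif_pos hab.symm]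
    apply Subtype.ext
    show Matrix.fromBlocks _ _ _ _ * Matrix.fromBlocks _ _ _ _ = Matrix.fromBlocks _ _ _ _ *
      Matrix.fromBlocks _ _ _ _ * Matrix.fromBlocks _ _ _ _
    simp only [Matrix.fromBlocks_multiply, Matrix.mul_zero, Matrix.zero_mul, add_zero, zero_add]
    have hinv : (((a⁻¹ : kˣ) : k)) = (a : k)⁻¹ := by simp
    congr 1
    · rw [hinv]
      refine g2_short _ _ hab t s a ha0 ha _ ?_ ?_ ?_
      · simp [hs]
      · simp [hs]
      · intro l h1 h2
        have h1' : (l : ℕ) ≠ i := fun h => h1 (Fin.ext h)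
        have h2' : (l : ℕ) ≠ i + 1 := fun h => h2 (Fin.ext h)
        simp [hs, h1', h2']
    · rw [g2_neg, g2_neg, g2_neg, g2_neg, hinv, ← neg_mul, ← neg_mul]
      refine g2_short _ _ hab.symm (-t) (-s) a ha0 (by rw [ha]; ring) _ ?_ ?_ ?_
      · simp [hs]
      · simp [hs]
      · intro l h1 h2
        have h1' : (l : ℕ) ≠ i := fun h => h2 (Fin.ext h)
        have h2' : (l : ℕ) ≠ i + 1 := fun h => h1 (Fin.ext h)
        simp [hs, h1', h2']
  · have ha0 : (a : k) ≠ 0 := a.ne_zero
    have hinv : (((a⁻¹ : kˣ) : k)) = (a : k)⁻¹ := by simp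
    have hd : ∀ (c : k) (d : Fin n → k), d l = 1 + c → (∀ m, m ≠ l → d m = 1) →
        Matrix.diagonal d = (1 : Matrix (Fin n) (Fin n) k) + Matrix.single l l c := by
      intro c d h1 h2
      ext p q
      simp only [Matrix.add_apply, Matrix.diagonal_apply, Matrix.one_apply, Matrix.single_apply]
      by_cases hpq : p = q
      · subst hpq
        by_cases hpl : l = p
        · subst hpl
          simp [h1]
        · simp [h2 p (Ne.symm hpl), hpl]
      · have h3 : ¬ (l = p ∧ l = q) := fun h => hpq (h.1.symm.trans h.2)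
        simp [hpq, h3]
    have hD : Matrix.diagonal (fun i => ((hl n l a i : kˣ) : k)) =
        (1 : Matrix (Fin n) (Fin n) k) + Matrix.single l l (t * s) := by
      refine hd _ _ ?_ ?_
      · simp [hl, ha]
      · intro m hm
        have hm' : (m : ℕ) ≠ (l : ℕ) := fun h => hm (Fin.ext h)
        simp [hl, hm']
    have hD' : Matrix.diagonal (fun i => (((hl n l a i)⁻¹ : kˣ) : k)) =
        (1 : Matrix (Fin n) (Fin n) k) + Matrix.single l l ((a : k)⁻¹ - 1) := by
      refine hd _ _ ?_ ?_
      · simp [hl]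
      · intro m hm
        have hm' : (m : ℕ) ≠ (l : ℕ) := fun h => hm (Fin.ext h)
        simp [hl, hm']
    have hval : ((hl n l a l : kˣ) : k) = a := by simp [hl]
    have h3 : s * (a : k)⁻¹ * a = s := by rw [mul_assoc, inv_mul_cancel₀ ha0, mul_one]
    have h4 : (a : k) * (t * (a : k)⁻¹) = t := by
      rw [mul_comm t, ← mul_assoc, mul_inv_cancel₀ ha0, one_mul]
    unfold xl yl tor
    apply Subtype.ext
    show Matrix.fromBlocks _ _ _ _ * Matrix.fromBlocks _ _ _ _ = Matrix.fromBlocks _ _ _ _ *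
      Matrix.fromBlocks _ _ _ _ * Matrix.fromBlocks _ _ _ _
    simp only [Matrix.fromBlocks_multiply, Matrix.mul_zero, Matrix.zero_mul, add_zero, zero_add,
      Matrix.one_mul, Matrix.mul_one]
    rw [Matrix.fromBlocks_inj, hinv]
    refine ⟨?_, ?_, ?_, ?_⟩
    · rw [hD, Matrix.single_mul_single_same]
    · rw [g2_ds, hval, h4]
    · rw [g2_sd, hval, h3]
    · rw [g2_sd, hval, h3, hD', Matrix.single_mul_single_same]
      have h5 : s * (t * (a : k)⁻¹) + ((a : k)⁻¹ - 1) = 0 := by
        have h6 : s * (t * (a : k)⁻¹) + ((a : k)⁻¹ - 1) = (a : k)⁻¹ * (1 + t * s) - 1 := by ring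
        rw [h6, ← ha, inv_mul_cancel₀ ha0, sub_self]
      have h7 : Matrix.single l l (s * (t * (a : k)⁻¹)) + ((1 : Matrix (Fin n) (Fin n) k) +
          Matrix.single l l ((a : k)⁻¹ - 1)) = 1 := by
        calc _ = 1 + (Matrix.single l l (s * (t * (a : k)⁻¹)) +
              Matrix.single l l ((a : k)⁻¹ - 1)) := by abel
          _ = 1 := by rw [← Matrix.single_add, h5, Matrix.single_zero, add_zero]
      exact h7.symm

end Pool.Agent.Sp49
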