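import Pool.Agent.Lib.MP_49c83e_al.StmG

/-!
MP_49c83e_al, piece G3: the opposite unipotent group.
-/

namespace Pool.Agent.Sp49

open scoped BigOperators
open Matrix

section

variable {k : Type} [Field k] {n : ℕ}

/-- column condition: upper triangular on the e's -/
def g3_T (g : SpG k n) : Prop :=
  ∀ (l : Fin n) (x : Fin n ⊕ Fin n), ent g x (Sum.inl l) ≠ 0 →
    ∃ l'' : Fin n, l'' ≤ l ∧ x = Sum.inl l''

theorem g3_Qf (g : SpG k n) : Qf Set.univ g ↔ g3_T g := by
  constructor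
  · intro h l x hx
    exact h l (Set.mem_univ _) l le_rfl x hx
  · intro h l _ l' hl' x hx
    obtain ⟨l'', h1, h2⟩ := h l' x hx
    exact ⟨l'', h1.trans hl', h2⟩

theorem g3_Uo (g : SpG k n) : g ∈ Uo k n ↔ g3_T g ∧ g3_T g⁻¹ ∧
    ∀ i : Fin n, ent g (Sum.inl i) (Sum.inl i) = 1 := by
  constructor
  · rintro ⟨⟨h1, h2⟩, h3⟩
    exact ⟨(g3_Qf _).1 h1, (g3_Qf _).1 h2, h3⟩
  · rintro ⟨h1, h2, h3⟩
    exact ⟨⟨(g3_Qf _).2 h1, (g3_Qf _).2 h2⟩, h3⟩

theorem g3_T_inr {g : SpG k n} (h : g3_T g) (c l : Fin n) :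
    ent g (Sum.inr c) (Sum.inl l) = 0 := by
  by_contra hne
  obtain ⟨l'', _, h2⟩ := h l _ hne
  exact absurd h2 (by simp)

theorem g3_T_lt {g : SpG k n} (h : g3_T g) {c l : Fin n} (hcl : l < c) :
    ent g (Sum.inl c) (Sum.inl l) = 0 := by
  by_contra hne
  obtain ⟨l'', h1, h2⟩ := h l _ hne
  have h3 : c = l'' := Sum.inl_injective h2
  subst h3
  exact absurd hcl (not_lt.2 h1)

theorem g3_T_of {g : SpG k n} (h1 : ∀ c l : Fin n, ent g (Sum.inr c) (Sum.inl l) = 0)
    (h2 : ∀ c l : Fin n, l < c → ent g (Sum.inl c) (Sum.inl l) = 0) : g3_T g := by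
  intro l x hx
  rcases x with c | c
  · refine ⟨c, ?_, rfl⟩
    by_contra hlt
    exact hx (h2 c l (not_le.1 hlt))
  · exact absurd (h1 c l) hx

theorem g3_inv_ll (g : SpG k n) (a b : Fin n) :
    ent g⁻¹ (Sum.inl a) (Sum.inl b) = ent g (Sum.inr b) (Sum.inr a) := by
  unfold ent
  rw [SymplecticGroup.coe_inv]
  simp [Matrix.mul_apply, Matrix.J, Matrix.fromBlocks, Matrix.neg_apply, Matrix.one_apply,
    Fintype.sum_sum_type]

theorem g3_inv_lr (g : SpG k n) (a b : Fin n) :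
    ent g⁻¹ (Sum.inl a) (Sum.inr b) = - ent g (Sum.inl b) (Sum.inr a) := by
  unfold ent
  rw [SymplecticGroup.coe_inv]
  simp [Matrix.mul_apply, Matrix.J, Matrix.fromBlocks, Matrix.neg_apply, Matrix.one_apply,
    Fintype.sum_sum_type]

theorem g3_mul_xr (g : SpG k n) (a b : Fin n) (hab : a ≠ b) (s : k) (x : Fin n ⊕ Fin n)
    (l : Fin n) : ent (g * xr a b s) x (Sum.inl l) =
      ent g x (Sum.inl l) + if l = b then s * ent g x (Sum.inl a) else 0 := by
  rw [ent_mul]
  have h : ∀ z : Fin n ⊕ Fin n, ent g x z * ent (xr a b s) z (Sum.inl l) =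
      (if z = Sum.inl l then ent g x z else 0) +
        (if z = Sum.inl a then (if l = b then s * ent g x (Sum.inl a) else 0) else 0) := by
    intro z
    rw [ent_xr a b hab]
    by_cases h1 : z = Sum.inl l
    · subst h1
      by_cases h2 : l = a
      · subst h2
        have : ¬ l = b := hab
        simp [this]
      · have h3 : ¬ (Sum.inl l : Fin n ⊕ Fin n) = Sum.inl a := fun h => h2 (Sum.inl_injective h)
        simp [h2]
    · by_cases h2 : z = Sum.inl a
      · subst h2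
        by_cases h4 : l = b
        · simp only [h1, if_false, h4, and_self, if_true]
          have h5 : ¬ (Sum.inl a : Fin n ⊕ Fin n) = Sum.inl b :=
            fun h => hab (Sum.inl_injective h)
          simp [h5]
          ring
        · simp [h1, h4]
      · simp [h1, h2]
  rw [Finset.sum_congr rfl (fun z _ => h z), Finset.sum_add_distrib]
  simp

theorem g3_xr_mul_l (g : SpG k n) (a b : Fin n) (hab : a ≠ b) (s : k) (c : Fin n)
    (y : Fin n ⊕ Fin n) : ent (xr a b s * g) (Sum.inl c) y =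
      ent g (Sum.inl c) y + if c = a then s * ent g (Sum.inl b) y else 0 := by
  have : ((xr a b s : SpG k n) : Matrix (Fin n ⊕ Fin n) (Fin n ⊕ Fin n) k) =
      Matrix.fromBlocks (1 + Matrix.single a b s) 0 0 (1 - Matrix.single b a s) := by
    unfold xr
    rw [dif_pos hab]
  unfold ent
  rw [Submonoid.coe_mul, this, Matrix.mul_apply, Fintype.sum_sum_type]
  simp only [Matrix.fromBlocks_apply₁₁, Matrix.fromBlocks_apply₁₂, Matrix.zero_apply, zero_mul,
    Finset.sum_const_zero, add_zero, Matrix.add_apply, add_mul, Finset.sum_add_distrib,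
    Matrix.one_apply, ite_mul, one_mul, Finset.sum_ite_eq, Finset.mem_univ, if_true,
    Matrix.single_apply]
  congr 1
  by_cases h : c = a
  · subst h
    simp
  · have h' : ¬ a = c := fun h2 => h h2.symm
    simp [h, h']

theorem g3_xr_mul_r (g : SpG k n) (a b : Fin n) (hab : a ≠ b) (s : k) (c : Fin n)
    (y : Fin n ⊕ Fin n) : ent (xr a b s * g) (Sum.inr c) y =
      ent g (Sum.inr c) y - if c = b then s * ent g (Sum.inr a) y else 0 := by
  have : ((xr a b s : SpG k n) : Matrix (Fin n ⊕ Fin n) (Fin n ⊕ Fin n) k) =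
      Matrix.fromBlocks (1 + Matrix.single a b s) 0 0 (1 - Matrix.single b a s) := by
    unfold xr
    rw [dif_pos hab]
  unfold ent
  rw [Submonoid.coe_mul, this, Matrix.mul_apply, Fintype.sum_sum_type]
  simp only [Matrix.fromBlocks_apply₂₁, Matrix.fromBlocks_apply₂₂, Matrix.zero_apply, zero_mul,
    Finset.sum_const_zero, zero_add, Matrix.sub_apply, sub_mul, Finset.sum_sub_distrib,
    Matrix.one_apply, ite_mul, one_mul, Finset.sum_ite_eq, Finset.mem_univ, if_true,
    Matrix.single_apply]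
  congr 1
  by_cases h : c = b
  · subst h
    simp
  · have h' : ¬ b = c := fun h2 => h h2.symm
    simp [h, h']

theorem g3_mul_yl (g : SpG k n) (a : Fin n) (s : k) (x : Fin n ⊕ Fin n)
    (l : Fin n) : ent (g * yl a s) x (Sum.inl l) =
      ent g x (Sum.inl l) + if l = a then s * ent g x (Sum.inr a) else 0 := by
  unfold ent
  rw [Submonoid.coe_mul]
  have : ((yl a s : SpG k n) : Matrix (Fin n ⊕ Fin n) (Fin n ⊕ Fin n) k) =
      Matrix.fromBlocks 1 0 (Matrix.single a a s) 1 := rfl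
  rw [this, Matrix.mul_apply, Fintype.sum_sum_type]
  simp only [Matrix.fromBlocks_apply₁₁, Matrix.fromBlocks_apply₂₁, Matrix.one_apply, mul_ite,
    mul_one, mul_zero, Finset.sum_ite_eq', Finset.mem_univ, if_true, Matrix.single_apply]
  congr 1
  by_cases h : l = a
  · subst h
    simp [mul_comm]
  · have h' : ¬ a = l := fun h2 => h h2.symm
    simp [h, h']

theorem g3_yl_mul_l (g : SpG k n) (a : Fin n) (s : k) (c : Fin n) (y : Fin n ⊕ Fin n) :
    ent (yl a s * g) (Sum.inl c) y = ent g (Sum.inl c) y := by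
  unfold ent
  rw [Submonoid.coe_mul]
  have : ((yl a s : SpG k n) : Matrix (Fin n ⊕ Fin n) (Fin n ⊕ Fin n) k) =
      Matrix.fromBlocks 1 0 (Matrix.single a a s) 1 := rfl
  rw [this, Matrix.mul_apply, Fintype.sum_sum_type]
  simp [Matrix.one_apply]

theorem g3_yl_mul_r (g : SpG k n) (a : Fin n) (s : k) (c : Fin n) (y : Fin n ⊕ Fin n) :
    ent (yl a s * g) (Sum.inr c) y =
      ent g (Sum.inr c) y + if c = a then s * ent g (Sum.inl a) y else 0 := by
  unfold ent
  rw [Submonoid.coe_mul]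
  have : ((yl a s : SpG k n) : Matrix (Fin n ⊕ Fin n) (Fin n ⊕ Fin n) k) =
      Matrix.fromBlocks 1 0 (Matrix.single a a s) 1 := rfl
  rw [this, Matrix.mul_apply, Fintype.sum_sum_type]
  simp only [Matrix.fromBlocks_apply₂₁, Matrix.fromBlocks_apply₂₂, Matrix.one_apply, ite_mul,
    one_mul, zero_mul, Finset.sum_ite_eq, Finset.mem_univ, if_true, Matrix.single_apply]
  rw [add_comm]
  congr 1
  by_cases h : c = a
  · subst h
    simp
  · have h' : ¬ a = c := fun h2 => h h2.symm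
    simp [h, h']

theorem g3_xl_mul_l (g : SpG k n) (a : Fin n) (s : k) (c : Fin n) (y : Fin n ⊕ Fin n) :
    ent (xl a s * g) (Sum.inl c) y =
      ent g (Sum.inl c) y + if c = a then s * ent g (Sum.inr a) y else 0 := by
  unfold ent
  rw [Submonoid.coe_mul]
  have : ((xl a s : SpG k n) : Matrix (Fin n ⊕ Fin n) (Fin n ⊕ Fin n) k) =
      Matrix.fromBlocks 1 (Matrix.single a a s) 0 1 := rfl
  rw [this, Matrix.mul_apply, Fintype.sum_sum_type]
  simp only [Matrix.fromBlocks_apply₁₁, Matrix.fromBlocks_apply₁₂, Matrix.one_apply, ite_mul,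
    one_mul, zero_mul, Finset.sum_ite_eq, Finset.mem_univ, if_true, Matrix.single_apply]
  congr 1
  by_cases h : c = a
  · subst h
    simp
  · have h' : ¬ a = c := fun h2 => h h2.symm
    simp [h, h']

theorem g3_xl_add (a : Fin n) (s t : k) : xl a (s + t) = xl a s * xl a t := by
  apply Subtype.ext
  rw [Submonoid.coe_mul]
  simp only [xl, Matrix.fromBlocks_multiply]
  congr 1
  · simp
  · simp [Matrix.single_add, add_comm]
  · simp
  · simp

theorem g3_xl_zero (a : Fin n) : xl a (0 : k) = 1 := by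
  have h := g3_xl_add a (0 : k) 0
  rw [add_zero] at h
  exact mul_left_cancel (h.symm.trans (mul_one _).symm)

theorem g3_xl_inv (a : Fin n) (s : k) : (xl a s)⁻¹ = xl a (-s) := by
  rw [inv_eq_iff_mul_eq_one, ← g3_xl_add, add_neg_cancel, g3_xl_zero]

theorem g3_trG_trG (g : SpG k n) : trG (trG g) = g := by
  apply Subtype.ext
  simp [trG]

theorem g3_trG_tor (t : Fin n → kˣ) : trG (tor t) = tor t := by
  apply Subtype.ext
  simp [trG, tor, Matrix.fromBlocks_transpose]

theorem g3_trG_xr (a b : Fin n) (s : k) : trG (xr a b s) = xr b a s := by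
  by_cases h : a ≠ b
  · apply Subtype.ext
    have h' : b ≠ a := fun h2 => h h2.symm
    simp only [trG, xr, dif_pos h, dif_pos h']
    rw [Matrix.fromBlocks_transpose]
    congr 1
    · simp [Matrix.transpose_add, Matrix.transpose_single]
    · simp [Matrix.transpose_sub, Matrix.transpose_single]
  · have h' : ¬ b ≠ a := fun h2 => h (fun h3 => h2 h3.symm)
    unfold xr
    rw [dif_neg h, dif_neg h']
    exact trG_one

theorem g3_trG_xs (i : ℕ) (s : k) : trG (xs i s : SpG k n) = ys i s := by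
  unfold xs ys
  split_ifs
  · exact g3_trG_xr _ _ _
  · exact trG_one

theorem g3_trG_ys (i : ℕ) (s : k) : trG (ys i s : SpG k n) = xs i s := by
  rw [← g3_trG_xs, g3_trG_trG]

theorem g3_trG_xl (a : Fin n) (s : k) : trG (xl a s) = yl a s := by
  apply Subtype.ext
  simp only [trG, xl, yl]
  rw [Matrix.fromBlocks_transpose]
  simp [Matrix.transpose_single]

theorem g3_trG_yl (a : Fin n) (s : k) : trG (yl a s) = xl a s := by
  rw [← g3_trG_xl, g3_trG_trG]

theorem g3_mem_Um (g : SpG k n) : g ∈ Um k n ↔ trG g ∈ Uo k n := Iff.rfl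

theorem g3_xs_mem (i : ℕ) (s : k) : (xs i s : SpG k n) ∈ Uo k n := by
  refine ⟨(xB i s : Bo k n).2, fun j => ?_⟩
  unfold xs
  split_ifs with h
  · have hne : (⟨i, by omega⟩ : Fin n) ≠ ⟨i + 1, h⟩ := by
      intro h2
      have := congrArg Fin.val h2
      simp at this
    rw [ent_xr _ _ hne, if_pos rfl]
  · rw [ent_one, if_pos rfl]

theorem g3_T_xl (a : Fin n) (s : k) : g3_T (xl a s) := by
  refine g3_T_of ?_ ?_
  · intro c l
    simp [ent, xl]
  · intro c l hcl
    simp [ent, xl, hcl.ne']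

theorem g3_xl_mem (a : Fin n) (s : k) : (xl a s : SpG k n) ∈ Uo k n := by
  rw [g3_Uo]
  refine ⟨g3_T_xl a s, ?_, fun i => ?_⟩
  · rw [g3_xl_inv]
    exact g3_T_xl a _
  · simp [ent, xl]

theorem g3_tor_conj (t : Fin n → kˣ) (u : SpG k n) (hu : u ∈ Uo k n) :
    tor t * u * (tor t)⁻¹ ∈ Uo k n := by
  have hT : ∀ (t : Fin n → kˣ) (g : SpG k n) (x y : Fin n ⊕ Fin n), ∃ a b : k,
      ent (tor t * g * (tor t)⁻¹) x y = a * ent g x y * b := by
    intro t g x y
    have hl : ∀ (t : Fin n → kˣ) (g : SpG k n) (x y : Fin n ⊕ Fin n), ∃ a : k,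
        ent (tor t * g) x y = a * ent g x y := by
      intro t g x y
      rcases x with i | i
      · refine ⟨t i, ?_⟩
        simp [ent, tor, Matrix.mul_apply, Fintype.sum_sum_type, Matrix.diagonal_apply]
      · refine ⟨((t i)⁻¹ : kˣ), ?_⟩
        simp [ent, tor, Matrix.mul_apply, Fintype.sum_sum_type, Matrix.diagonal_apply]
    have hr : ∀ (t : Fin n → kˣ) (g : SpG k n) (x y : Fin n ⊕ Fin n), ∃ b : k,
        ent (g * tor t) x y = ent g x y * b := by
      intro t g x y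
      rcases y with i | i
      · refine ⟨t i, ?_⟩
        simp [ent, tor, Matrix.mul_apply, Fintype.sum_sum_type, Matrix.diagonal_apply]
      · refine ⟨((t i)⁻¹ : kˣ), ?_⟩
        simp [ent, tor, Matrix.mul_apply, Fintype.sum_sum_type, Matrix.diagonal_apply]
    obtain ⟨a, ha⟩ := hl t g x y
    obtain ⟨b, hb⟩ := hr t⁻¹ (tor t * g) x y
    refine ⟨a, b, ?_⟩
    rw [tor_inv, hb, ha]
  have hTT : ∀ (t : Fin n → kˣ) (g : SpG k n), g3_T g → g3_T (tor t * g * (tor t)⁻¹) := by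
    intro t g hg l x hx
    obtain ⟨a, b, hab⟩ := hT t g x (Sum.inl l)
    rw [hab] at hx
    exact hg l x (right_ne_zero_of_mul (left_ne_zero_of_mul hx))
  rw [g3_Uo] at hu ⊢
  obtain ⟨h1, h2, h3⟩ := hu
  refine ⟨hTT t u h1, ?_, fun i => ?_⟩
  · have : (tor t * u * (tor t)⁻¹)⁻¹ = tor t * u⁻¹ * (tor t)⁻¹ := by group
    rw [this]
    exact hTT t _ h2
  · have e1 : ent (tor t * u * (tor t)⁻¹) (Sum.inl i) (Sum.inl i) =
        (t i : k) * ent u (Sum.inl i) (Sum.inl i) * (((t i)⁻¹ : kˣ) : k) := by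
      rw [tor_inv]
      simp [ent, tor, Matrix.mul_apply, Fintype.sum_sum_type, Matrix.diagonal_apply]
    rw [e1, h3, mul_one]
    exact Units.mul_inv _

/-- conjugation by the opposite simple short root element -/
theorem g3_conjT (a b : Fin n) (hab : a < b) (hb : ∀ c : Fin n, a < c → b ≤ c) (t : k)
    (v : SpG k n) (h1 : g3_T v) (h2 : ∀ i : Fin n, ent v (Sum.inl i) (Sum.inl i) = 1)
    (h3 : ent v (Sum.inl a) (Sum.inl b) = 0) :
    g3_T (xr b a (-t) * v * xr b a t) ∧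
      ∀ i : Fin n, ent (xr b a (-t) * v * xr b a t) (Sum.inl i) (Sum.inl i) = 1 := by
  have hne : b ≠ a := hab.ne'
  have hl : ∀ c l : Fin n, ent (xr b a (-t) * v * xr b a t) (Sum.inl c) (Sum.inl l) =
      ent v (Sum.inl c) (Sum.inl l) - (if c = b then t * ent v (Sum.inl a) (Sum.inl l) else 0) +
        (if l = a then t * ent v (Sum.inl c) (Sum.inl b) else 0) := by
    intro c l
    rw [g3_mul_xr _ _ _ hne, g3_xr_mul_l _ _ _ hne, g3_xr_mul_l _ _ _ hne]
    by_cases hc : c = b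
    · subst hc
      simp [h3, sub_eq_add_neg]
    · simp [hc]
  have hr : ∀ c l : Fin n, ent (xr b a (-t) * v * xr b a t) (Sum.inr c) (Sum.inl l) = 0 := by
    intro c l
    rw [g3_mul_xr _ _ _ hne, g3_xr_mul_r _ _ _ hne, g3_xr_mul_r _ _ _ hne]
    simp [g3_T_inr h1]
  refine ⟨g3_T_of hr ?_, ?_⟩
  · intro c l hcl
    rw [hl, g3_T_lt h1 hcl, zero_sub]
    by_cases hc : c = b
    · subst hc
      by_cases hla : l = a
      · subst hla
        simp [h2]
      · have : l < a := by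
          rcases lt_trichotomy l a with h | h | h
          · exact h
          · exact absurd h hla
          · exact absurd hcl (not_lt.2 (hb l h))
        simp [hla, g3_T_lt h1 this]
    · by_cases hla : l = a
      · subst hla
        have h5 : b < c := lt_of_le_of_ne (hb c hcl) (fun h => hc h.symm)
        simp [hc, g3_T_lt h1 h5]
      · simp [hc, hla]
  · intro i
    rw [hl, h2]
    by_cases hc : i = b
    · subst hc
      simp [hne, h3]
    · by_cases hla : i = a
      · subst hla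
        simp [hc, h3]
      · simp [hc, hla]

theorem g3_inv_entry (a b : Fin n) (hab : a < b) (hb : ∀ c : Fin n, a < c → b ≤ c)
    (v : SpG k n) (hv : v ∈ Uo k n) (h3 : ent v (Sum.inl a) (Sum.inl b) = 0) :
    ent v⁻¹ (Sum.inl a) (Sum.inl b) = 0 := by
  have hv' := (Uo k n).inv_mem hv
  have hv2 := hv
  rw [g3_Uo] at hv hv'
  obtain ⟨h1, _, h2⟩ := hv
  obtain ⟨h1', _, h2'⟩ := hv'
  have h4 : ent (v * v⁻¹) (Sum.inl a) (Sum.inl b) = 0 := by
    have hne : ¬ (Sum.inl a : Fin n ⊕ Fin n) = Sum.inl b := fun h => hab.ne (Sum.inl_injective h)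
    rw [mul_inv_cancel, ent_one, if_neg hne]
  rw [ent_mul, Finset.sum_eq_single (Sum.inl a)] at h4
  · rw [h2, one_mul] at h4
    exact h4
  · intro z _ hz
    rcases z with c | c
    · by_cases hca : c < a
      · rw [g3_T_lt h1 hca, zero_mul]
      · have hca' : a < c := lt_of_le_of_ne (not_lt.1 hca) (fun h => hz (by rw [h]))
        rcases (hb c hca').eq_or_lt with h5 | h5
        · rw [← h5, h3, zero_mul]
        · rw [g3_T_lt h1' h5, mul_zero]
    · rw [g3_T_inr h1', mul_zero]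
  · intro h
    exact absurd (Finset.mem_univ _) h

theorem g3_short (i : ℕ) (hi : i + 1 < n) (v : SpG k n) (hv : v ∈ Uo k n) :
    ∃ (s : k) (v' : SpG k n), v = xs i s * v' ∧ ∀ t : k, ys i (-t) * v' * ys i t ∈ Uo k n := by
  set a : Fin n := ⟨i, by omega⟩ with ha
  set b : Fin n := ⟨i + 1, hi⟩ with hb
  have hab : a < b := by
    rw [Fin.lt_def]
    exact Nat.lt_succ_self i
  have hb' : ∀ c : Fin n, a < c → b ≤ c := by
    intro c hc
    rw [Fin.lt_def] at hc
    rw [Fin.le_def]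
    exact hc
  have hxs : ∀ s : k, (xs i s : SpG k n) = xr a b s := by
    intro s
    unfold xs
    rw [dif_pos hi]
  have hys : ∀ s : k, (ys i s : SpG k n) = xr b a s := by
    intro s
    unfold ys
    rw [dif_pos hi]
  refine ⟨ent v (Sum.inl a) (Sum.inl b), xs i (-(ent v (Sum.inl a) (Sum.inl b))) * v, ?_, ?_⟩
  · rw [← mul_assoc, ← xs_add, add_neg_cancel, xs_zero, one_mul]
  · intro t
    set s := ent v (Sum.inl a) (Sum.inl b) with hs
    set v' := xs i (-s) * v with hv'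
    have hmem : v' ∈ Uo k n := mul_mem (g3_xs_mem _ _) hv
    have h0 : ent v' (Sum.inl a) (Sum.inl b) = 0 := by
      have h2 := ((g3_Uo v).1 hv).2.2 b
      rw [hv', hxs, g3_xr_mul_l _ _ _ hab.ne, if_pos rfl, h2, ← hs]
      ring
    have h0' := g3_inv_entry a b hab hb' v' hmem h0
    have hU := (g3_Uo v').1 hmem
    have hU' := (g3_Uo v'⁻¹).1 ((Uo k n).inv_mem hmem)
    rw [hys, hys, g3_Uo]
    obtain ⟨k1, k2⟩ := g3_conjT a b hab hb' t v' hU.1 hU.2.2 h0
    obtain ⟨k3, _⟩ := g3_conjT a b hab hb' t v'⁻¹ hU'.1 hU'.2.2 h0'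
    refine ⟨k1, ?_, k2⟩
    have e : (xr b a (-t) * v' * xr b a t)⁻¹ = xr b a (-t) * v'⁻¹ * xr b a t := by
      rw [_root_.mul_inv_rev, _root_.mul_inv_rev, xr_inv, xr_inv, neg_neg, mul_assoc]
    rw [e]
    exact k3

/-- conjugation by the opposite long simple root element -/
theorem g3_conjL (a : Fin n) (ha : ∀ c : Fin n, c ≤ a) (t : k)
    (v : SpG k n) (h1 : g3_T v) (h2 : ∀ i : Fin n, ent v (Sum.inl i) (Sum.inl i) = 1)
    (h3 : ent v (Sum.inl a) (Sum.inr a) = 0) (h4 : ent v (Sum.inr a) (Sum.inr a) = 1)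
    (h5 : ∀ c : Fin n, c < a → ent v (Sum.inr c) (Sum.inr a) = 0) :
    g3_T (yl a (-t) * v * yl a t) ∧
      ∀ i : Fin n, ent (yl a (-t) * v * yl a t) (Sum.inl i) (Sum.inl i) = 1 := by
  have hl : ∀ c l : Fin n, ent (yl a (-t) * v * yl a t) (Sum.inl c) (Sum.inl l) =
      ent v (Sum.inl c) (Sum.inl l) +
        (if l = a then t * ent v (Sum.inl c) (Sum.inr a) else 0) := by
    intro c l
    rw [g3_mul_yl, g3_yl_mul_l, g3_yl_mul_l]
  refine ⟨g3_T_of ?_ ?_, ?_⟩
  · intro c l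
    rw [g3_mul_yl, g3_yl_mul_r, g3_yl_mul_r, g3_T_inr h1, h3]
    by_cases hl' : l = a
    · subst hl'
      by_cases hc : c = l
      · subst hc
        simp [h2, h4]
      · have : c < l := lt_of_le_of_ne (ha c) hc
        simp [hc, h5 c this]
    · have : l < a := lt_of_le_of_ne (ha l) hl'
      simp [hl', g3_T_lt h1 this]
  · intro c l hcl
    have hla : l ≠ a := fun h => absurd (ha c) (not_le.2 (h ▸ hcl))
    rw [hl, g3_T_lt h1 hcl, if_neg hla, add_zero]
  · intro i
    rw [hl, h2]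
    by_cases hi : i = a
    · subst hi
      simp [h3]
    · simp [hi]

theorem g3_yl_add (a : Fin n) (s t : k) : yl a (s + t) = yl a s * yl a t := by
  rw [← g3_trG_xl, ← g3_trG_xl, ← g3_trG_xl, add_comm, g3_xl_add, trG_mul]

theorem g3_yl_zero (a : Fin n) : yl a (0 : k) = 1 := by
  rw [← g3_trG_xl, g3_xl_zero, trG_one]

theorem g3_yl_inv (a : Fin n) (s : k) : (yl a s)⁻¹ = yl a (-s) := by
  rw [inv_eq_iff_mul_eq_one, ← g3_yl_add, add_neg_cancel, g3_yl_zero]

theorem g3_long (a : Fin n) (ha : ∀ c : Fin n, c ≤ a) (v : SpG k n) (hv : v ∈ Uo k n) :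
    ∃ (s : k) (v' : SpG k n), v = xl a s * v' ∧ ∀ t : k, yl a (-t) * v' * yl a t ∈ Uo k n := by
  refine ⟨ent v (Sum.inl a) (Sum.inr a), xl a (-(ent v (Sum.inl a) (Sum.inr a))) * v, ?_, ?_⟩
  · rw [← mul_assoc, ← g3_xl_add, add_neg_cancel, g3_xl_zero, one_mul]
  · intro t
    set s := ent v (Sum.inl a) (Sum.inr a) with hs
    set v' := xl a (-s) * v with hv'
    have hmem : v' ∈ Uo k n := mul_mem (g3_xl_mem _ _) hv
    have hU := (g3_Uo v').1 hmem
    have hU' := (g3_Uo v'⁻¹).1 ((Uo k n).inv_mem hmem)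
    have hV' := (g3_Uo v⁻¹).1 ((Uo k n).inv_mem hv)
    have h0 : ent v' (Sum.inl a) (Sum.inr a) = 0 := by
      have h2 := hV'.2.2 a
      rw [g3_inv_ll] at h2
      rw [hv', g3_xl_mul_l, if_pos rfl, h2, ← hs]
      ring
    have h0' : ent v'⁻¹ (Sum.inl a) (Sum.inr a) = 0 := by
      rw [g3_inv_lr, h0, neg_zero]
    have h4 : ent v' (Sum.inr a) (Sum.inr a) = 1 := by
      rw [← g3_inv_ll]
      exact hU'.2.2 a
    have h4' : ent v'⁻¹ (Sum.inr a) (Sum.inr a) = 1 := by
      rw [← g3_inv_ll, inv_inv]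
      exact hU.2.2 a
    have h5 : ∀ c : Fin n, c < a → ent v' (Sum.inr c) (Sum.inr a) = 0 := by
      intro c hc
      rw [← g3_inv_ll]
      exact g3_T_lt hU'.1 hc
    have h5' : ∀ c : Fin n, c < a → ent v'⁻¹ (Sum.inr c) (Sum.inr a) = 0 := by
      intro c hc
      rw [← g3_inv_ll, inv_inv]
      exact g3_T_lt hU.1 hc
    rw [g3_Uo]
    obtain ⟨k1, k2⟩ := g3_conjL a ha t v' hU.1 hU.2.2 h0 h4 h5
    obtain ⟨k3, _⟩ := g3_conjL a ha t v'⁻¹ hU'.1 hU'.2.2 h0' h4' h5'
    refine ⟨k1, ?_, k2⟩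
    have e : (yl a (-t) * v' * yl a t)⁻¹ = yl a (-t) * v'⁻¹ * yl a t := by
      rw [_root_.mul_inv_rev, _root_.mul_inv_rev, g3_yl_inv, g3_yl_inv, neg_neg, mul_assoc]
    rw [e]
    exact k3

end

theorem p_G3 : S_G3 := by
  intro k _ n
  refine ⟨?_, ?_, g3_xs_mem, g3_xl_mem, ?_, ?_, ?_⟩
  · intro i s
    rw [g3_mem_Um, g3_trG_ys]
    exact g3_xs_mem i s
  · intro l s
    rw [g3_mem_Um, g3_trG_yl]
    exact g3_xl_mem l s
  · intro t u hu
    rw [g3_mem_Um] at hu ⊢
    have e : trG (tor t * u * (tor t)⁻¹) = tor t⁻¹ * trG u * (tor t⁻¹)⁻¹ := by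
      rw [trG_mul, trG_mul, trG_inv, g3_trG_tor, tor_inv, tor_inv, inv_inv, mul_assoc]
    rw [e]
    exact g3_tor_conj _ _ hu
  · intro i hi u hu
    rw [g3_mem_Um] at hu
    obtain ⟨s, v', h1, h2⟩ := g3_short i hi (trG u) hu
    refine ⟨s, trG v', ?_, fun t => ?_⟩
    · rw [← g3_trG_trG u, h1, trG_mul, g3_trG_xs]
    · rw [g3_mem_Um]
      have e : trG (xs i t * trG v' * (xs i t)⁻¹) = ys i (-t) * v' * ys i t := by
        rw [trG_mul, trG_mul, g3_trG_trG, xs_inv, g3_trG_xs, g3_trG_xs, mul_assoc]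
      rw [e]
      exact h2 t
  · intro l hl u hu
    rw [g3_mem_Um] at hu
    have hmax : ∀ c : Fin n, c ≤ l := by
      intro c
      rw [Fin.le_def]
      omega
    obtain ⟨s, v', h1, h2⟩ := g3_long l hmax (trG u) hu
    refine ⟨s, trG v', ?_, fun t => ?_⟩
    · rw [← g3_trG_trG u, h1, trG_mul, g3_trG_xl]
    · rw [g3_mem_Um]
      have e : trG (xl l t * trG v' * (xl l t)⁻¹) = yl l (-t) * v' * yl l t := by
        rw [trG_mul, trG_mul, g3_trG_trG, g3_xl_inv, g3_trG_xl, g3_trG_xl, mul_assoc]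
      rw [e]
      exact h2 t

end Pool.Agent.Sp49
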