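import Pool.Agent.Lib.MP_49c83e_al.StmG

/-!
MP_49c83e_al, piece G4: the rank one argument.
-/

namespace Pool.Agent.Sp49

open scoped BigOperators
open Matrix

section

variable {k : Type} [Field k] {n : ℕ}

theorem g4_line {F : k → k} (h : ∃ a b : k, ∀ t, F t = a + t * b) : F ∈ regA k k := by
  obtain ⟨a, b, h⟩ := h
  have h1 : (fun s : k => s) ∈ regA k k := Algebra.subset_adjoin rfl
  have h2 : (fun _ : k => a) ∈ regA k k := (regA k k).algebraMap_mem a
  have h3 : (fun _ : k => b) ∈ regA k k := (regA k k).algebraMap_mem b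
  have e : F = (fun _ : k => a) + (fun s : k => s) * (fun _ : k => b) := by
    funext t
    exact h t
  rw [e]
  exact add_mem h2 (mul_mem h1 h3)

theorem g4_ent_xr (a b : Fin n) (x y : Fin n ⊕ Fin n) :
    ∃ c d : k, ∀ t, ent (xr a b t) x y = c + t * d := by
  by_cases hab : a ≠ b
  · have h : ∀ t : k, ((xr a b t : SpG k n) : Matrix (Fin n ⊕ Fin n) (Fin n ⊕ Fin n) k) =
        Matrix.fromBlocks (1 + Matrix.single a b t) 0 0 (1 - Matrix.single b a t) := by
      intro t
      unfold xr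
      rw [dif_pos hab]
    rcases x with i | i <;> rcases y with j | j
    · refine ⟨(1 : Matrix (Fin n) (Fin n) k) i j, if a = i ∧ b = j then 1 else 0, fun t => ?_⟩
      simp [ent, h, Matrix.single_apply]
    · exact ⟨0, 0, fun t => by simp [ent, h]⟩
    · exact ⟨0, 0, fun t => by simp [ent, h]⟩
    · refine ⟨(1 : Matrix (Fin n) (Fin n) k) i j, if b = i ∧ a = j then -1 else 0, fun t => ?_⟩
      by_cases h2 : b = i ∧ a = j
      · obtain ⟨h3, h4⟩ := h2
        subst h3
        subst h4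
        simp [ent, h, sub_eq_add_neg]
      · simp [ent, h, Matrix.single_apply, h2]
  · refine ⟨ent 1 x y, 0, fun t => ?_⟩
    unfold xr
    rw [dif_neg hab]
    ring

theorem g4_ent_xl (a : Fin n) (x y : Fin n ⊕ Fin n) :
    ∃ c d : k, ∀ t, ent (xl a t) x y = c + t * d := by
  rcases x with i | i <;> rcases y with j | j
  · exact ⟨(1 : Matrix (Fin n) (Fin n) k) i j, 0, fun t => by simp [ent, xl]⟩
  · refine ⟨0, if a = i ∧ a = j then 1 else 0, fun t => ?_⟩
    simp [ent, xl, Matrix.single_apply]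
  · exact ⟨0, 0, fun t => by simp [ent, xl]⟩
  · exact ⟨(1 : Matrix (Fin n) (Fin n) k) i j, 0, fun t => by simp [ent, xl]⟩

theorem g4_reg_xr (hR9 : S_R9) (a b : Fin n) : IsReg k (fun t : k => (xr a b t : SpG k n)) := by
  rw [(hR9 k n).2.2]
  intro x y
  exact g4_line (g4_ent_xr a b x y)

theorem g4_reg_xl (hR9 : S_R9) (a : Fin n) : IsReg k (fun t : k => (xl a t : SpG k n)) := by
  rw [(hR9 k n).2.2]
  intro x y
  exact g4_line (g4_ent_xl a x y)

variable {N : Type} [AddCommGroup N] [Module k N]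

/-- a polynomial family with values in a subspace outside a finite set has all its values there -/
theorem g4_poly (hR11 : S_R11) [Infinite k] (F : k → N) (hF : F ∈ RM k k N) (P : Submodule k N)
    (A : Set k) (hA : A.Finite) (h : ∀ t, t ∉ A → F t ∈ P) : ∀ t, F t ∈ P := by
  obtain ⟨c, hc⟩ := (hR11 k N).1 F hF
  have h1 : c.mapRange P.mkQ (map_zero _) = 0 := by
    refine (hR11 k (N ⧸ P)).2.2 _ _ A hA fun t ht => ?_
    rw [Finsupp.sum_mapRange_index (by intro i; simp), Finsupp.sum_zero_index]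
    have h2 : P.mkQ (F t) = 0 := (Submodule.Quotient.mk_eq_zero P).2 (h t ht)
    rw [hc t, map_finsuppSum] at h2
    rw [← h2]
    simp only [map_smul]
  have h3 : ∀ i, c i ∈ P := by
    intro i
    have h4 := DFunLike.congr_fun h1 i
    rw [Finsupp.mapRange_apply] at h4
    exact (Submodule.Quotient.mk_eq_zero P).1 h4
  intro t
  rw [hc t]
  exact Submodule.sum_mem _ fun i _ => P.smul_mem _ (h3 i)

/-- the common argument for the short and the long simple root -/
theorem g4_root (hR3 : S_R3) (hR11 : S_R11) [Infinite k] (ρ : Representation k (SpG k n) N)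
    (hρ : IsRat ρ) (μ : Fin n → ℤ) (z : N) (hz : z ∈ wtG ρ μ) (hU : ∀ u ∈ Uo k n, ρ u z = z)
    (x y : k → SpG k n) (hx : IsReg k x) (hxU : ∀ t, x t ∈ Uo k n) (hyM : ∀ s, y s ∈ Um k n)
    (hid : ∀ (t s : k) (a : kˣ), (a : k) = 1 + t * s →
      ∃ (s' : k) (τ : Fin n → kˣ) (t' : k), x t * y s = y s' * tor τ * x t')
    (hdec : ∀ u ∈ Um k n, ∃ (s : k) (u' : SpG k n), u = u' * y s ∧
      ∀ t : k, x t * u' * (x t)⁻¹ ∈ Um k n) (t : k) (u : SpG k n) (hu : u ∈ Um k n) :
    ρ (x t) (ρ u z) ∈ Submodule.span k {m | ∃ u ∈ Um k n, m = ρ u z} := by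
  obtain ⟨s, u', h1, h2⟩ := hdec u hu
  set Wy := Submodule.span k {m | ∃ s' : k, m = ρ (y s') z} with hWy
  have hF : ∀ t, ρ (x t) (ρ (y s) z) ∈ Wy := by
    refine g4_poly hR11 (fun t => ρ (x t) (ρ (y s) z)) ?_ Wy {t | 1 + t * s = 0} ?_ ?_
    · exact (hR3 k k (SpG k n) N N).1 x (fun g => ρ g (ρ (y s) z)) hx (hρ _)
    · by_cases hs : s = 0
      · subst hs
        simp
      · refine (Set.finite_singleton (-s⁻¹)).subset ?_
        intro t ht
        rw [Set.mem_setOf_eq] at ht
        rw [Set.mem_singleton_iff]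
        field_simp
        linear_combination ht
    · intro t ht
      rw [Set.mem_setOf_eq] at ht
      obtain ⟨s', τ, t', h3⟩ := hid t s (Units.mk0 _ ht) rfl
      have h4 : ρ (x t) (ρ (y s) z) = chT μ τ • ρ (y s') z := by
        rw [← Module.End.mul_apply, ← map_mul, h3, map_mul, map_mul, Module.End.mul_apply,
          Module.End.mul_apply, hU _ (hxU t'), hz τ, map_smul]
      show ρ (x t) (ρ (y s) z) ∈ Wy
      rw [h4]
      exact Wy.smul_mem _ (Submodule.subset_span ⟨s', rfl⟩)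
  have e : ρ (x t) (ρ u z) = ρ (x t * u' * (x t)⁻¹) (ρ (x t) (ρ (y s) z)) := by
    rw [h1]
    simp only [← Module.End.mul_apply, ← map_mul]
    congr 2
    group
  rw [e]
  have h5 := h2 t
  generalize x t * u' * (x t)⁻¹ = w at h5
  have h6 : Wy ≤ (Submodule.span k {m | ∃ u ∈ Um k n, m = ρ u z}).comap (ρ w) := by
    rw [hWy, Submodule.span_le]
    rintro _ ⟨s', rfl⟩
    rw [SetLike.mem_coe, Submodule.mem_comap]
    refine Submodule.subset_span ⟨w * y s', mul_mem h5 (hyM s'), ?_⟩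
    rw [map_mul, Module.End.mul_apply]
  exact h6 (hF t)

end

theorem p_G4 (hG1 : S_G1) (hG2 : S_G2) (hG3 : S_G3) (hR3 : S_R3) (hR9 : S_R9) (hR11 : S_R11) :
    S_G4 := by
  intro k _ _ n N _ _ ρ hρ μ z hz hU g
  obtain ⟨m1, m2, m3, m4, m5, m6, m7⟩ := hG3 k n
  set W := Submodule.span k {m | ∃ u ∈ Um k n, m = ρ u z} with hW
  -- it suffices to check generators on the spanning vectors
  have hspan : ∀ g : SpG k n, (∀ u ∈ Um k n, ρ g (ρ u z) ∈ W) → ∀ w ∈ W, ρ g w ∈ W := by
    intro g hg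
    have : W ≤ W.comap (ρ g) := by
      conv_lhs => rw [hW]
      rw [Submodule.span_le]
      rintro _ ⟨u, hu, rfl⟩
      exact hg u hu
    exact fun w hw => this hw
  have htor : ∀ (t : Fin n → kˣ), ∀ w ∈ W, ρ (tor t) w ∈ W := by
    intro t
    refine hspan _ fun u hu => ?_
    have e : ρ (tor t) (ρ u z) = ρ (tor t * u * (tor t)⁻¹) (ρ (tor t) z) := by
      simp only [← Module.End.mul_apply, ← map_mul]
      congr 2
      group
    rw [e, hz t, map_smul]
    exact W.smul_mem _ (Submodule.subset_span ⟨_, m5 t u hu, rfl⟩)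
  have hUm : ∀ v ∈ Um k n, ∀ w ∈ W, ρ v w ∈ W := by
    intro v hv
    refine hspan _ fun u hu => Submodule.subset_span ⟨v * u, mul_mem hv hu, ?_⟩
    rw [map_mul, Module.End.mul_apply]
  have hxs : ∀ (i : ℕ) (s : k), ∀ w ∈ W, ρ (xs i s) w ∈ W := by
    intro i s
    by_cases hi : i + 1 < n
    · refine hspan _ fun u hu => ?_
      refine g4_root hR3 hR11 ρ hρ μ z hz hU (fun t => xs i t) (fun t => ys i t) ?_ (m3 i)
        (m1 i) ?_ (m6 i hi) s u hu
      · have e : (fun t : k => (xs i t : SpG k n)) = fun t => xr ⟨i, by omega⟩ ⟨i + 1, hi⟩ t := by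
          funext t
          unfold xs
          rw [dif_pos hi]
        rw [e]
        exact g4_reg_xr hR9 _ _
      · intro t s a ha
        exact ⟨_, _, _, (hG2 k n).1 i t s a hi ha⟩
    · intro w hw
      have e : (xs i s : SpG k n) = 1 := by
        unfold xs
        rw [dif_neg hi]
      rw [e, map_one]
      exact hw
  have hxl : ∀ (l : Fin n) (s : k), (l : ℕ) + 1 = n → ∀ w ∈ W, ρ (xl l s) w ∈ W := by
    intro l s hl
    refine hspan _ fun u hu => ?_
    exact g4_root hR3 hR11 ρ hρ μ z hz hU (fun t => xl l t) (fun t => yl l t) (g4_reg_xl hR9 l)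
      (m4 l) (m2 l) (fun t s a ha => ⟨_, _, _, (hG2 k n).2 l t s a ha⟩) (m7 l hl) s u hu
  let H : Subgroup (SpG k n) :=
    { carrier := {g | (∀ w ∈ W, ρ g w ∈ W) ∧ ∀ w ∈ W, ρ g⁻¹ w ∈ W}
      mul_mem' := by
        rintro a b ⟨ha, ha'⟩ ⟨hb, hb'⟩
        refine ⟨fun w hw => ?_, fun w hw => ?_⟩
        · rw [map_mul, Module.End.mul_apply]
          exact ha _ (hb w hw)
        · rw [_root_.mul_inv_rev, map_mul, Module.End.mul_apply]
          exact hb' _ (ha' w hw)
      one_mem' := by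
        refine ⟨fun w hw => ?_, fun w hw => ?_⟩
        · rw [map_one]
          exact hw
        · rw [inv_one, map_one]
          exact hw
      inv_mem' := by
        rintro a ⟨ha, ha'⟩
        refine ⟨ha', ?_⟩
        rw [inv_inv]
        exact ha }
  have hxl_inv : ∀ (l : Fin n) (s : k), (xl l s : SpG k n)⁻¹ = xl l (-s) := by
    intro l s
    rw [inv_eq_iff_mul_eq_one]
    apply Subtype.ext
    rw [Submonoid.coe_mul]
    simp only [xl, Matrix.fromBlocks_multiply]
    have h1 : Matrix.single l l (-s) + Matrix.single l l s = (0 : Matrix (Fin n) (Fin n) k) := by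
      rw [← Matrix.single_add, neg_add_cancel, Matrix.single_zero]
    simp [h1, Matrix.fromBlocks_one]
  have hH : H = ⊤ := by
    refine hG1 k n H ?_ ?_ ?_ ?_
    · intro t
      refine ⟨htor t, ?_⟩
      rw [tor_inv]
      exact htor _
    · intro i s
      refine ⟨hxs i s, ?_⟩
      rw [xs_inv]
      exact hxs i _
    · intro i s
      exact ⟨hUm _ (m1 i s), hUm _ (inv_mem (m1 i s))⟩
    · intro l s hl
      refine ⟨⟨hxl l s hl, ?_⟩, hUm _ (m2 l s), hUm _ (inv_mem (m2 l s))⟩
      rw [hxl_inv]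
      exact hxl l _ hl
  have hg : g ∈ H := by
    rw [hH]
    exact Subgroup.mem_top g
  refine hg.1 z (Submodule.subset_span ⟨1, one_mem _, ?_⟩)
  rw [map_one]
  rfl

end Pool.Agent.Sp49
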