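import Pool.Agent.Lib.MP_49c83e_al.StmG

/-!
MP_49c83e_al, piece G5: contraction for the opposite unipotent group.
-/

namespace Pool.Agent.Sp49

open scoped BigOperators

theorem g5_const (h12 : S_R12) (k : Type) [Field k] [Infinite k] (N : ℕ) (a : ℕ → k) (b : k)
    (ha : N = 0 → a 0 = 0)
    (h : ∀ s : kˣ, (∑ r ∈ Finset.range N, (s : k) ^ r * a r) = b) : b = a 0 := by
  have huniq := (h12 k k).2.2
  have hsum : ∀ s : kˣ, ((∑ r ∈ Finset.range N, Finsupp.single (r : ℤ) (a r)).sum
      fun j y => ((s ^ j : kˣ) : k) • y) = ∑ r ∈ Finset.range N, (s : k) ^ r * a r := by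
    intro s
    rw [← Finsupp.sum_finsetSum_index (fun j => smul_zero _) (fun j y z => smul_add _ y z)]
    refine Finset.sum_congr rfl fun r _ => ?_
    rw [Finsupp.sum_single_index (h := fun j y => ((s ^ j : kˣ) : k) • y) (smul_zero _),
      zpow_natCast, Units.val_pow_eq_pow_val, smul_eq_mul]
  have h1 : (∑ r ∈ Finset.range N, Finsupp.single (r : ℤ) (a r)) = Finsupp.single 0 b := by
    apply huniq
    intro s
    rw [hsum, h s, Finsupp.sum_single_index (h := fun j y => ((s ^ j : kˣ) : k) • y)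
      (smul_zero _), zpow_zero, Units.val_one, one_smul]
  have h2 := DFunLike.congr_fun h1 0
  rw [Finsupp.finsetSum_apply, Finsupp.single_eq_same] at h2
  rw [← h2]
  rcases Nat.eq_zero_or_pos N with hN | hN
  · subst hN
    simpa using (ha rfl).symm
  · rw [Finset.sum_eq_single 0]
    · simp
    · intro r _ hr
      rw [Finsupp.single_apply, if_neg]
      exact_mod_cast hr
    · intro hr
      exact absurd (Finset.mem_range.mpr hN) hr

theorem p_G5 (h3 : S_R3) (h9 : S_R9) (h12 : S_R12) (hD4 : S_D4) (hD7 : S_D7) (hE2 : S_E2) :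
    S_G5 := by
  intro k _ _ n N _ _ ρ hρ
  have hres : IsRat (resB ρ) := by
    intro m
    exact (h3 k (Bo k n) (SpG k n) N N).1 (fun b : Bo k n => (b : SpG k n))
      (fun g => ρ g m) (fun f hf => ⟨f, hf, rfl⟩) (hρ m)
  refine ⟨hres, ?_⟩
  intro μ z hz u hu
  obtain ⟨hT1, _, _, _, _, _, _, hT8, _⟩ := hD4 k n
  obtain ⟨_, _, padd, psmul, pmem, pid, pzero, pdec, _⟩ :=
    hE2 k n N N (resB ρ) (resB ρ) hres hres
  have hs : ∀ (s : kˣ) (u : Uo k n), coch s * (u : SpG k n) * (coch s)⁻¹ ∈ Uo k n :=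
    fun s u => hT8 u u.2 (coch s) (hT1 _)
  let P : N →ₗ[k] N :=
    { toFun := prB (resB ρ) μ
      map_add' := padd μ
      map_smul' := fun c a => psmul μ c a }
  let tc : kˣ → Fin n → kˣ := fun s i => s ^ (n - (i : ℕ))
  have hcz : ∀ s : kˣ, ρ (coch s) z = chT μ (tc s) • z := fun s => hz (tc s)
  -- the projection commutes with the torus
  have hPt : ∀ (t : Fin n → kˣ) (a : N), P (ρ (tor t) a) = chT μ t • P a := by
    intro t a
    obtain ⟨S, hS1, hS2⟩ := pdec a
    have e1 : ∀ ν, ρ (tor t) (prB (resB ρ) ν a) = chT ν t • prB (resB ρ) ν a := by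
      intro ν
      exact pmem ν a t
    have e2 : ∀ ν, P (prB (resB ρ) ν a) = if ν = μ then P a else 0 := by
      intro ν
      by_cases h : ν = μ
      · subst h
        rw [if_pos rfl]
        exact pid ν _ (pmem ν a)
      · rw [if_neg h]
        exact pzero μ ν _ (pmem ν a) (fun h2 => h h2.symm)
    have e3 : P (ρ (tor t) a) = ∑ ν ∈ S, chT ν t • (if ν = μ then P a else 0) := by
      conv_lhs => rw [hS1]
      rw [map_sum, map_sum]
      refine Finset.sum_congr rfl fun ν _ => ?_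
      rw [e1, map_smul, e2]
    by_cases hμ : μ ∈ S
    · rw [e3, Finset.sum_eq_single μ]
      · rw [if_pos rfl]
      · intro ν _ hν
        rw [if_neg hν, smul_zero]
      · intro h
        exact absurd hμ h
    · have h0 : P a = 0 := hS2 μ hμ
      rw [e3, h0, smul_zero]
      refine Finset.sum_eq_zero fun ν _ => ?_
      simp
  have hPu : ∀ s : kˣ, P (ρ ((coch s)⁻¹ * u * coch s) z) = P (ρ u z) := by
    intro s
    have e1 : ρ ((coch s)⁻¹ * u * coch s) z = ρ (tor (tc s)⁻¹) (ρ u (ρ (coch s) z)) := by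
      have : (coch s : SpG k n)⁻¹ = tor (tc s)⁻¹ := tor_inv _
      rw [this, map_mul, map_mul]
      rfl
    have e2 : chT μ (tc s)⁻¹ * chT μ (tc s) = 1 := by
      unfold chT
      rw [← Units.val_mul, ← Finset.prod_mul_distrib]
      have : ∀ i : Fin n, (tc s)⁻¹ i ^ μ i * tc s i ^ μ i = 1 := by
        intro i
        rw [← mul_zpow, Pi.inv_apply, inv_mul_cancel, one_zpow]
      rw [Finset.prod_congr rfl (fun i _ => this i)]
      simp
    rw [e1, hcz, map_smul, hPt, map_smul, smul_smul, e2, one_smul]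
  show P (ρ u z) = z
  have hPz : P z = z := pid μ z (fun t => hz t)
  rw [← sub_eq_zero]
  by_contra hne
  obtain ⟨l, hl⟩ : ∃ l : Module.Dual k N, l (P (ρ u z) - z) ≠ 0 := by
    by_contra hc
    push Not at hc
    exact hne ((Module.forall_dual_apply_eq_zero_iff k _).1 hc)
  apply hl
  rw [map_sub, sub_eq_zero]
  -- the regular function
  have htr : IsReg k (fun w : Uo k n => trG (w : SpG k n)) := by
    rw [(h9 k n).2.2]
    intro x y
    exact ⟨_, (h9 k n).2.1 y x, rfl⟩
  have hreg : (fun w : Uo k n => l (P (ρ (trG (w : SpG k n)) z))) ∈ regA k (Uo k n) := by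
    have h1 : (fun w : Uo k n => ρ (trG (w : SpG k n)) z) ∈ RM k (Uo k n) N :=
      (h3 k (Uo k n) (SpG k n) N N).1 (fun w : Uo k n => trG (w : SpG k n)) _ htr (hρ z)
    have h2 : (fun w : Uo k n => (l ∘ₗ P) (ρ (trG (w : SpG k n)) z)) ∈ RM k (Uo k n) k :=
      (h3 k (Uo k n) (Uo k n) N k).2.1 (l ∘ₗ P) _ h1
    exact ((h3 k (Uo k n) (Uo k n) k k).2.2.2.2.2 _).1 h2
  obtain ⟨a, R, _, ha0, haR⟩ := (hD7 k n hs).2 _ hreg
  have ha00 : ∀ w, a 0 w = l z := by
    intro w
    rw [ha0]
    show l (P (ρ (trG ((1 : Uo k n) : SpG k n)) z)) = l z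
    rw [Subgroup.coe_one, trG_one, map_one]
    show l (P z) = l z
    rw [hPz]
  set u' : Uo k n := ⟨trG u, hu⟩ with hu'
  have hR0 : R = 0 → a 0 u' = 0 := by
    intro hR
    rw [ha0]
    have h1 := haR 1 1
    subst hR
    rw [Finset.range_zero, Finset.sum_empty] at h1
    have h4 : (⟨_, hs 1 1⟩ : Uo k n) = 1 := by
      apply Subtype.ext
      change coch 1 * (1 : SpG k n) * (coch 1)⁻¹ = 1
      rw [mul_one, mul_inv_cancel]
    rw [h4] at h1
    exact h1
  have hconst : ∀ s : kˣ, (∑ r ∈ Finset.range R, (s : k) ^ r * a r u') = l (P (ρ u z)) := by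
    intro s
    rw [← haR s u']
    show l (P (ρ (trG (coch s * trG u * (coch s)⁻¹)) z)) = l (P (ρ u z))
    have e : trG (coch s * trG u * (coch s)⁻¹) = (coch s)⁻¹ * u * coch s := by
      have e1 : trG (coch s : SpG k n) = coch s := by
        apply Subtype.ext
        simp [trG, coch, tor, Matrix.fromBlocks_transpose]
      have e2 : trG (trG u) = u := by
        apply Subtype.ext
        simp [trG]
      rw [trG_mul, trG_mul, trG_inv, e1, e2, mul_assoc]
    rw [e, hPu]
  rw [g5_const h12 k R (fun r => a r u') _ hR0 hconst, ha00]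

end Pool.Agent.Sp49
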