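import Pool.Agent.Lib.MP_49c83e_al.StmG

/-! MP_49c83e_al, piece G6: the functional realising L. -/

namespace Pool.Agent.Sp49

open scoped BigOperators
open Matrix

section Minor

variable {k : Type} [Field k] {n j : ℕ}

private theorem g6_dj_eq (hj : j ≤ n) (x : SpG k n) :
    dj hj x = Matrix.det (Matrix.of fun a b : Fin j =>
      ent x (Sum.inl (Fin.castLE hj a)) (Sum.inl (Fin.castLE hj b))) := rfl

private theorem g6_dj_mul (hj : j ≤ n) (g u : SpG k n)
    (hu : ∀ (z : Fin n ⊕ Fin n) (b : Fin j), ent u z (Sum.inl (Fin.castLE hj b)) ≠ 0 →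
      ∃ c : Fin j, Sum.inl (Fin.castLE hj c) = z) :
    dj hj (g * u) = dj hj g * dj hj u := by
  rw [g6_dj_eq, g6_dj_eq, g6_dj_eq, ← Matrix.det_mul]
  congr 1
  ext a b
  simp only [Matrix.of_apply, Matrix.mul_apply]
  rw [ent_mul]
  symm
  refine Fintype.sum_of_injective
    (fun c : Fin j => (Sum.inl (Fin.castLE hj c) : Fin n ⊕ Fin n)) ?_ _ _ ?_ ?_
  · intro c c' h
    exact Fin.castLE_injective hj (Sum.inl_injective h)
  · intro z hz
    by_contra hne
    exact hz (hu z b (right_ne_zero_of_mul hne))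
  · intro c
    rfl

private theorem g6_dj_Uo (hj : j ≤ n) (u : SpG k n) (hu : u ∈ Uo k n) : dj hj u = 1 := by
  rw [g6_dj_eq, Matrix.det_of_isUpperTriangular]
  · refine Finset.prod_eq_one fun i _ => ?_
    exact hu.2 _
  · intro a b hab
    by_contra hne
    obtain ⟨l, hl, h⟩ := hu.1.1 (Fin.castLE hj b) (Set.mem_univ _) _ le_rfl _ hne
    have h2 := Sum.inl_injective h
    rw [← h2] at hl
    exact absurd hab (not_lt.2 ((Fin.castLE_le_castLE_iff hj).1 hl))

private theorem g6_dj_mul_Uo (hj : j ≤ n) (g u : SpG k n) (hu : u ∈ Uo k n) :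
    dj hj (g * u) = dj hj g := by
  rw [g6_dj_mul, g6_dj_Uo hj u hu, mul_one]
  intro z b hz
  obtain ⟨l, hl, rfl⟩ := hu.1.1 (Fin.castLE hj b) (Set.mem_univ _) _ le_rfl _ hz
  have h1 : (l : ℕ) < j := lt_of_le_of_lt hl b.2
  exact ⟨⟨l, h1⟩, rfl⟩

private theorem g6_dj_Um (hj : j ≤ n) (u : SpG k n) (hu : u ∈ Um k n) : dj hj u = 1 := by
  have h1 : trG u ∈ Uo k n := hu
  rw [← g6_dj_Uo hj _ h1, g6_dj_eq, g6_dj_eq, ← Matrix.det_transpose]
  rfl

private theorem g6_dj_one (hj : j ≤ n) : dj hj (1 : SpG k n) = 1 :=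
  g6_dj_Uo hj 1 (one_mem _)

private theorem g6_ent_tor (t : Fin n → kˣ) (z : Fin n ⊕ Fin n) (b : Fin n) :
    ent (tor t) z (Sum.inl b) = if z = Sum.inl b then (t b : k) else 0 := by
  rcases z with a | a
  · by_cases h : a = b
    · subst h
      simp [ent, tor]
    · simp [ent, tor, h]
  · simp [ent, tor]

private theorem g6_chT_om (hj : j ≤ n) (t : Fin n → kˣ) :
    ∏ b : Fin j, (t (Fin.castLE hj b) : k) = chT (om n j) t := by
  unfold chT
  rw [← Units.coe_prod]
  congr 1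
  refine Fintype.prod_of_injective (Fin.castLE hj) (Fin.castLE_injective hj) _ _ ?_ ?_
  · intro i hi
    have : ¬ (i : ℕ) < j := fun h => hi ⟨⟨i, h⟩, rfl⟩
    simp [om, this]
  · intro i
    have : ((Fin.castLE hj i : Fin n) : ℕ) < j := i.2
    simp only [om]
    rw [if_pos this, zpow_one]

private theorem g6_dj_tor (hj : j ≤ n) (t : Fin n → kˣ) :
    dj hj (tor t : SpG k n) = chT (om n j) t := by
  have : (Matrix.of fun a b : Fin j =>
      ent (tor t : SpG k n) (Sum.inl (Fin.castLE hj a)) (Sum.inl (Fin.castLE hj b))) =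
      Matrix.diagonal fun b : Fin j => (t (Fin.castLE hj b) : k) := by
    ext a b
    rw [Matrix.of_apply, g6_ent_tor, Matrix.diagonal_apply]
    by_cases h : a = b
    · subst h
      simp
    · have h2 : ¬ (Sum.inl (Fin.castLE hj a) : Fin n ⊕ Fin n) = Sum.inl (Fin.castLE hj b) :=
        fun h3 => h (Fin.castLE_injective hj (Sum.inl_injective h3))
      rw [if_neg h2, if_neg h]
  rw [g6_dj_eq, this, Matrix.det_diagonal, g6_chT_om]

private theorem g6_dj_mul_tor (hj : j ≤ n) (g : SpG k n) (t : Fin n → kˣ) :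
    dj hj (g * tor t) = chT (om n j) t * dj hj g := by
  rw [g6_dj_mul, g6_dj_tor, mul_comm]
  intro z b hz
  rw [g6_ent_tor] at hz
  by_cases h : z = Sum.inl (Fin.castLE hj b)
  · exact ⟨b, h.symm⟩
  · rw [if_neg h] at hz
    exact absurd rfl hz

private theorem g6_dj_reg (hR9 : S_R9) (hj : j ≤ n) :
    (fun g : SpG k n => dj hj g) ∈ regA k (SpG k n) := by
  have h := (hR9 k n).2.1
  have e : (fun g : SpG k n => dj hj g) = ∑ σ : Equiv.Perm (Fin j),
      (Equiv.Perm.sign σ : ℤ) • ∏ i, (fun g : SpG k n =>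
        ent g (Sum.inl (Fin.castLE hj (σ i))) (Sum.inl (Fin.castLE hj i))) := by
    funext g
    rw [g6_dj_eq, Matrix.det_apply, Finset.sum_apply]
    refine Finset.sum_congr rfl fun σ _ => ?_
    rw [Pi.smul_apply, Finset.prod_apply, Units.smul_def]
    rfl
  rw [e]
  refine Subalgebra.sum_mem _ fun σ _ => ?_
  refine zsmul_mem ?_ _
  exact Subalgebra.prod_mem _ fun i _ => h _ _

end Minor

section Reg

variable {k : Type} [Field k] {Γ : Type} [Group Γ] [RS k Γ]

private theorem g6_mulreg (hR2 : S_R2) (hR8 : S_R8) [RG k Γ] (h : Γ) :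
    IsReg k (fun g : Γ => g * h) := by
  obtain ⟨h1, _, h3, _⟩ := hR2 k Γ Γ Γ
  exact (hR8 k Γ Γ).1 _ _ h1 (h3 h)

/-- the right regular representation on the regular functions -/
noncomputable def g6_R (hreg : ∀ h : Γ, IsReg k (fun g : Γ => g * h)) (hR3 : S_R3) :
    Representation k Γ (RM k Γ k) where
  toFun h :=
    { toFun := fun F => ⟨fun g => F.1 (g * h), (hR3 k Γ Γ k k).1 _ _ (hreg h) F.2⟩
      map_add' := fun _ _ => rfl
      map_smul' := fun _ _ => rfl }
  map_one' := by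
    ext F g
    simp
  map_mul' a b := by
    ext F g
    simp [mul_assoc]

private theorem g6_R_rat (hreg : ∀ h : Γ, IsReg k (fun g : Γ => g * h)) (hR2 : S_R2)
    (hR3 : S_R3) (hR5 : S_R5) (hR8 : S_R8) [RG k Γ] : IsRat (g6_R hreg hR3) := by
  intro F
  obtain ⟨_, _, _, h4, h5, _⟩ := hR2 k Γ Γ Γ
  have h6 : IsReg k (fun q : Γ × Γ => q.2 * q.1) := (hR8 k (Γ × Γ) Γ).1 _ _ h5 h4
  have h7 : (fun q : Γ × Γ => F.1 (q.2 * q.1)) ∈ RM k (Γ × Γ) k :=
    (hR3 k (Γ × Γ) Γ k k).1 _ _ h6 F.2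
  exact (hR5 k Γ Γ k _ h7).2.2.2 fun h => (hR3 k Γ Γ k k).1 _ _ (hreg h) F.2

end Reg

section Irr

variable {k : Type} [Field k] {Γ : Type} [Group Γ] {L : Type} [AddCommGroup L] [Module k L]

private theorem g6_irr (ρ : Representation k Γ L) (hρ : ρ.IsIrreducible) (P : Submodule k L)
    (hP : ∀ g, ∀ m ∈ P, ρ g m ∈ P) : P = ⊥ ∨ P = ⊤ := by
  have h := hρ.eq_bot_or_eq_top (⟨P, fun g m hm => hP g m hm⟩ : Subrepresentation ρ)
  rcases h with h | h
  · left
    exact congrArg Subrepresentation.toSubmodule h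
  · right
    exact congrArg Subrepresentation.toSubmodule h

end Irr

theorem p_G6 (hG4 : S_G4) (hG5 : S_G5) (hE2 : S_E2) (hR2 : S_R2) (hR3 : S_R3) (hR5 : S_R5)
    (hR6 : S_R6) (hR8 : S_R8) (hR9 : S_R9) : S_G6 := by
  intro k _ _ n j hj L _ _ ρ hrat hirr v hv hwt hfix
  have : RG k (SpG k n) := (hR9 k n).1
  have hreg : ∀ h : SpG k n, IsReg k (fun g : SpG k n => g * h) := g6_mulreg hR2 hR8
  have hspan : Submodule.span k (Set.range fun g => ρ g v) = ⊤ := by
    have hinv : ∀ g, ∀ m ∈ Submodule.span k (Set.range fun g => ρ g v),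
        ρ g m ∈ Submodule.span k (Set.range fun g => ρ g v) := by
      intro g m hm
      have h1 : Submodule.span k (Set.range fun g => ρ g v) ≤
          (Submodule.span k (Set.range fun g => ρ g v)).comap (ρ g) := by
        rw [Submodule.span_le]
        rintro _ ⟨h, rfl⟩
        refine Submodule.subset_span ⟨g * h, ?_⟩
        simp
      exact h1 hm
    rcases g6_irr ρ hirr (Submodule.span k (Set.range fun g => ρ g v)) hinv with h | h
    · exfalso
      have h1 : ρ 1 v ∈ Submodule.span k (Set.range fun g => ρ g v) :=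
        Submodule.subset_span ⟨1, rfl⟩
      rw [h, Submodule.mem_bot, map_one] at h1
      exact hv h1
    · exact h
  have hfin : Module.Finite k L := by
    obtain ⟨N, f, m, _, _, h⟩ := (hR6 k (SpG k n) (SpG k n) L).1 _ (hrat v)
    refine ⟨Submodule.fg_def.2 ⟨Set.range m, Set.finite_range m, ?_⟩⟩
    rw [eq_top_iff, ← hspan, Submodule.span_le]
    rintro _ ⟨g, rfl⟩
    show ρ g v ∈ _
    rw [h g]
    exact Submodule.sum_mem _ fun i _ => Submodule.smul_mem _ _ (Submodule.subset_span ⟨i, rfl⟩)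
  refine ⟨hfin, hspan, ?_⟩
  obtain ⟨hrB, hG5'⟩ := hG5 k n L ρ hrat
  obtain ⟨_, _, hadd, hsmul, _⟩ := hE2 k n L L (resB ρ) (resB ρ) hrB hrB
  set D : RM k (SpG k n) k := ⟨fun g => dj hj g,
    ((hR3 k (SpG k n) (SpG k n) k k).2.2.2.2.2 _).2 (g6_dj_reg hR9 hj)⟩ with hD
  set σ : Representation k (SpG k n) (RM k (SpG k n) k × L) := (g6_R hreg hR3).prod ρ with hσ
  have hσv : ∀ g (a : RM k (SpG k n) k × L), σ g a = (g6_R hreg hR3 g a.1, ρ g a.2) :=
    fun g a => rfl
  have hσrat : IsRat σ := by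
    rintro ⟨F, l⟩
    have h1 := (hR3 k (SpG k n) (SpG k n) (RM k (SpG k n) k) (RM k (SpG k n) k × L)).2.1
      (LinearMap.inl k _ L) _ (g6_R_rat hreg hR2 hR3 hR5 hR8 F)
    have h2 := (hR3 k (SpG k n) (SpG k n) L (RM k (SpG k n) k × L)).2.1
      (LinearMap.inr k (RM k (SpG k n) k) L) _ (hrat l)
    have h3 := Submodule.add_mem _ h1 h2
    refine (congrArg (· ∈ RM k (SpG k n) (RM k (SpG k n) k × L)) ?_).mp h3
    funext g
    simp [hσv]
  have hz1 : ((D, v) : RM k (SpG k n) k × L) ∈ wtG σ (om n j) := by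
    intro t
    rw [hσv]
    refine Prod.ext ?_ (hwt t)
    apply Subtype.ext
    funext g
    exact g6_dj_mul_tor hj g t
  have hz2 : ∀ u ∈ Uo k n, σ u ((D, v) : RM k (SpG k n) k × L) = (D, v) := by
    intro u hu
    rw [hσv]
    refine Prod.ext ?_ (hfix u hu)
    apply Subtype.ext
    funext g
    exact g6_dj_mul_Uo hj g u hu
  have hW : ∀ a ∈ Submodule.span k {m | ∃ u ∈ Um k n, m = σ u ((D, v) : RM k (SpG k n) k × L)},
      prB (resB ρ) (om n j) a.2 = (a.1 : SpG k n → k) 1 • v := by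
    intro a ha
    induction ha using Submodule.span_induction with
    | mem a ha =>
      obtain ⟨u, hu, rfl⟩ := ha
      have h1 : ((σ u ((D, v) : RM k (SpG k n) k × L)).1 : SpG k n → k) 1 = dj hj (1 * u) := rfl
      rw [h1, one_mul, g6_dj_Um hj u hu, one_smul]
      exact hG5' (om n j) v hwt u hu
    | zero =>
      have := hsmul (om n j) 0 0
      rw [zero_smul, zero_smul] at this
      simp [this]
    | add a b _ _ ha hb =>
      rw [Prod.snd_add, hadd, ha, hb, Prod.fst_add, Submodule.coe_add, Pi.add_apply, add_smul]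
    | smul c a _ ha =>
      rw [Prod.smul_snd, hsmul, ha, Prod.smul_fst, Submodule.coe_smul, Pi.smul_apply,
        smul_eq_mul, mul_smul]
  have hpr : ∀ g, prB (resB ρ) (om n j) (ρ g v) = dj hj g • v := by
    intro g
    have h1 := hW _ (hG4 k n _ σ hσrat (om n j) (D, v) hz1 hz2 g)
    have h2 : ((σ g ((D, v) : RM k (SpG k n) k × L)).1 : SpG k n → k) 1 = dj hj (1 * g) := rfl
    rw [h2, one_mul] at h1
    exact h1
  obtain ⟨f, hf⟩ : ∃ f : L →ₗ[k] k, f v = 1 := by
    by_contra hno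
    refine hv ((Module.forall_dual_apply_eq_zero_iff k v).1 fun f => ?_)
    by_contra hf
    refine hno ⟨(f v)⁻¹ • f, ?_⟩
    rw [LinearMap.smul_apply, smul_eq_mul, inv_mul_cancel₀ hf]
  let pr : L →ₗ[k] L :=
    { toFun := prB (resB ρ) (om n j)
      map_add' := hadd (om n j)
      map_smul' := hsmul (om n j) }
  have hη : ∀ g, (f ∘ₗ pr) (ρ g v) = dj hj g := by
    intro g
    have h1 : pr (ρ g v) = dj hj g • v := hpr g
    rw [LinearMap.comp_apply, h1, map_smul, hf, smul_eq_mul, mul_one]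
  refine ⟨f ∘ₗ pr, hη, ?_⟩
  let P : Submodule k L :=
    { carrier := {l | ∀ g, (f ∘ₗ pr) (ρ g l) = 0}
      add_mem' := by
        intro a b ha hb g
        rw [map_add, map_add, ha g, hb g, add_zero]
      zero_mem' := by
        intro g
        rw [map_zero, map_zero]
      smul_mem' := by
        intro c a ha g
        rw [map_smul, map_smul, ha g, smul_zero] }
  have hP : ∀ g, ∀ m ∈ P, ρ g m ∈ P := by
    intro g m hm h
    have := hm (h * g)
    rw [map_mul] at this
    exact this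
  rcases g6_irr ρ hirr P hP with h | h
  · intro l hl
    have : l ∈ P := hl
    rw [h] at this
    exact this
  · exfalso
    have h1 : v ∈ P := by
      rw [h]
      exact Submodule.mem_top
    have h2 := h1 1
    rw [hη 1, g6_dj_one] at h2
    exact one_ne_zero h2

end Pool.Agent.Sp49
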