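import Pool.Agent.Lib.MP_49c83e_al.StmG

/-! [M1] Minors: expansion of a product, torus weights, alternating. -/

namespace Pool.Agent.Sp49

open scoped BigOperators
open Matrix

private theorem m1_chT_zero {k : Type} [Field k] {n : ℕ} (t : Fin n → kˣ) :
    chT (0 : Fin n → ℤ) t = (1 : k) := by
  simp [chT]

private theorem m1_chT_add {k : Type} [Field k] {n : ℕ} (t : Fin n → kˣ) (μ ν : Fin n → ℤ) :
    chT (μ + ν) t = (chT μ t * chT ν t : k) := by
  unfold chT
  rw [← Units.val_mul, ← Finset.prod_mul_distrib]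
  congr 1
  exact Finset.prod_congr rfl fun i _ => by rw [Pi.add_apply, _root_.zpow_add]

private theorem m1_chT_sum {k : Type} [Field k] {n : ℕ} (t : Fin n → kˣ) {ι : Type}
    (s : Finset ι) (f : ι → Fin n → ℤ) :
    chT (∑ i ∈ s, f i) t = (∏ i ∈ s, chT (f i) t : k) := by
  classical
  induction s using Finset.induction_on with
  | empty => rw [Finset.sum_empty, Finset.prod_empty, m1_chT_zero]
  | insert a s ha ih => rw [Finset.sum_insert ha, Finset.prod_insert ha, m1_chT_add, ih]

private theorem m1_chT_wtv {k : Type} [Field k] {n : ℕ} (t : Fin n → kˣ) (z : Fin n ⊕ Fin n) :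
    chT (wtv z) t = (ent (tor t) z z : k) := by
  have h : ∀ (i : Fin n) (e : ℤ), (∏ l, (t l) ^ ((Pi.single i e : Fin n → ℤ) l)) = t i ^ e := by
    intro i e
    rw [Finset.prod_eq_single i]
    · rw [Pi.single_eq_same]
    · intro l _ hl
      rw [Pi.single_eq_of_ne hl, zpow_zero]
    · intro h
      exact absurd (Finset.mem_univ _) h
  rcases z with i | i
  · simp only [chT, wtv, Sum.elim_inl]
    rw [h i 1, zpow_one]
    simp [ent, tor]
  · simp only [chT, wtv, Sum.elim_inr]
    rw [← Pi.single_neg, h i (-1), _root_.zpow_neg_one]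
    simp [ent, tor]

private theorem m1_tor_ne {k : Type} [Field k] {n : ℕ} (t : Fin n → kˣ) {z z' : Fin n ⊕ Fin n}
    (h : z ≠ z') : (ent (tor t) z z' : k) = 0 := by
  simp [ent, tor, Matrix.diagonal_apply_ne _ h]

theorem p_M1 : S_M1 := by
  intro k _ n j hj x g w
  refine ⟨?_, ?_, ?_, ?_⟩
  · unfold mn
    rw [Matrix.det_apply']
    simp_rw [Matrix.det_apply', Matrix.of_apply, ent_mul, Finset.mul_sum]
    rw [Finset.sum_comm]
    refine Finset.sum_congr rfl fun σ _ => ?_
    rw [Finset.prod_univ_sum, Fintype.piFinset_univ, Finset.mul_sum]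
    refine Finset.sum_congr rfl fun w' _ => ?_
    rw [Finset.prod_mul_distrib]
    ring
  · intro t
    have h : (Matrix.of fun a b : Fin j => ent (x * tor t) (Sum.inl (Fin.castLE hj a)) (w b)) =
        Matrix.of fun a b : Fin j => (ent (tor t) (w b) (w b) : k) *
          (Matrix.of fun a b : Fin j => ent x (Sum.inl (Fin.castLE hj a)) (w b)) a b := by
      ext a b
      rw [Matrix.of_apply, Matrix.of_apply, Matrix.of_apply, ent_mul,
        Finset.sum_eq_single (w b)]
      · rw [mul_comm]
      · intro z _ hz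
        rw [m1_tor_ne t hz, mul_zero]
      · intro h
        exact absurd (Finset.mem_univ _) h
    unfold mn
    rw [h, Matrix.det_mul_row, m1_chT_sum]
    congr 1
    exact Finset.prod_congr rfl fun b _ => (m1_chT_wtv t (w b)).symm
  · intro hw
    rw [Function.Injective] at hw
    push Not at hw
    obtain ⟨a, b, hab, hne⟩ := hw
    refine Matrix.det_zero_of_column_eq hne fun i => ?_
    rw [Matrix.of_apply, Matrix.of_apply, hab]
  · intro σ
    unfold mn
    rw [← Matrix.det_permute' σ]
    rfl

end Pool.Agent.Sp49
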