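import Pool.Agent.Lib.MP_49c83e_al.StmG

/-! MP_49c83e_al, piece [M10]: polytabloids are colS. -/

namespace Pool.Agent.Sp49

open scoped BigOperators
open Matrix

section

variable {k : Type} [Field k] {n : ℕ}

theorem m10_iota {r : ℕ} (u v : Fin r → VV k n) (w : Fin (2 * r) → VV k n)
    (h0 : ∀ (i : Fin r) (h : 2 * (i : ℕ) < 2 * r), w ⟨2 * i, h⟩ = u i)
    (h1 : ∀ (i : Fin r) (h : 2 * (i : ℕ) + 1 < 2 * r), w ⟨2 * i + 1, h⟩ = v i) :
    ((∏ i, q2 (u i) (v i) : CE k n) : EA k n) = ExteriorAlgebra.ιMulti k (2 * r) w := by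
  rw [ExteriorAlgebra.ιMulti_apply, List.ofFn_mul', List.prod_flatten, List.map_ofFn,
    ← List.prod_ofFn]
  have e : ∀ L : List (CE k n), ((L.prod : CE k n) : EA k n) =
      (L.map (fun z : CE k n => (z : EA k n))).prod := fun L =>
    map_list_prod (Subalgebra.center k (EA k n)).subtype L
  rw [e, List.map_ofFn]
  congr 1
  congr 1
  funext i
  simp only [Function.comp_apply, List.ofFn_succ, List.ofFn_zero, List.prod_cons, List.prod_nil,
    mul_one]
  have a0 := h0 i (by have := i.2; omega)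
  have a1 := h1 i (by have := i.2; omega)
  rw [← a0, ← a1]
  rfl

theorem m10_act (g : SpG k n) (v : VV k n) (x : Fin n ⊕ Fin n) :
    act g v x = ∑ y, ent g x y * v y := rfl

/-- combinatorial core -/
theorem m10_comb {Q : Type} [CommRing Q] {q : ℕ} (a b : Fin q → ℕ)
    (hab : Function.Injective (Sum.elim a b)) (e : Fin q → Q) (he : ∀ l, e l * e l = 0)
    (F : ℕ → Q) (ha : ∀ l, F (a l) = - e l) (hb : ∀ l, F (b l) = e l) (T : Finset ℕ)
    (h0 : ∀ c ∈ T, (∀ l, c ≠ a l) → (∀ l, c ≠ b l) → F c = 0) (hc : T.card = q) :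
    ∏ c ∈ T, F c = (if ∀ l, (a l ∈ T ∧ b l ∉ T) ∨ (a l ∉ T ∧ b l ∈ T) then
      ∏ l, (if a l ∈ T then (-1 : Q) else 1) else 0) * ∏ l, e l := by
  classical
  have hne : ∀ l l', a l ≠ b l' := fun l l' h =>
    Sum.inl_ne_inr (hab (a₁ := Sum.inl l) (a₂ := Sum.inr l') h)
  have hia : ∀ l l', a l = a l' → l = l' := fun l l' h =>
    Sum.inl_injective (hab (a₁ := Sum.inl l) (a₂ := Sum.inl l') h)
  have hib : ∀ l l', b l = b l' → l = l' := fun l l' h =>
    Sum.inr_injective (hab (a₁ := Sum.inr l) (a₂ := Sum.inr l') h)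
  by_cases hg : ∀ l, (a l ∈ T ∧ b l ∉ T) ∨ (a l ∉ T ∧ b l ∈ T)
  · rw [if_pos hg]
    set g : Fin q → ℕ := fun l => if a l ∈ T then a l else b l with hgd
    have hginj : Function.Injective g := by
      intro l l' h
      simp only [hgd] at h
      split_ifs at h with h1 h2 h2
      · exact hia _ _ h
      · exact absurd h (hne _ _)
      · exact absurd h.symm (hne _ _)
      · exact hib _ _ h
    have hgT : Finset.univ.image g = T := by
      apply Finset.eq_of_subset_of_card_le
      · intro c hc'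
        obtain ⟨l, _, rfl⟩ := Finset.mem_image.1 hc'
        simp only [hgd]
        split_ifs with h1
        · exact h1
        · rcases hg l with h2 | h2
          · exact absurd h2.1 h1
          · exact h2.2
      · rw [Finset.card_image_of_injective _ hginj, Finset.card_univ, Fintype.card_fin, hc]
    have h1 : ∏ c ∈ T, F c = ∏ l, F (g l) := by
      conv_lhs => rw [← hgT]
      rw [Finset.prod_image fun x _ y _ h => hginj h]
    rw [h1, ← Finset.prod_mul_distrib]
    refine Finset.prod_congr rfl fun l _ => ?_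
    simp only [hgd]
    split_ifs with h2
    · rw [ha, neg_one_mul]
    · rw [hb, one_mul]
  · rw [if_neg hg, zero_mul]
    by_contra hp
    have hF : ∀ c ∈ T, F c ≠ 0 := fun c hcT hFc => hp (Finset.prod_eq_zero hcT hFc)
    have hmem : ∀ c ∈ T, ∃ l, c = a l ∨ c = b l := by
      intro c hcT
      by_contra hcon
      push Not at hcon
      exact hF c hcT (h0 c hcT (fun l => (hcon l).1) (fun l => (hcon l).2))
    have hboth : ∀ l, a l ∈ T → b l ∉ T := by
      intro l h1 h2
      apply hp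
      have hsub : ({a l, b l} : Finset ℕ) ⊆ T := by
        intro c hc'
        rw [Finset.mem_insert, Finset.mem_singleton] at hc'
        rcases hc' with rfl | rfl
        · exact h1
        · exact h2
      have hd := Finset.prod_dvd_prod_of_subset _ _ F hsub
      rw [Finset.prod_pair (hne l l), ha, hb, neg_mul, he, neg_zero] at hd
      exact zero_dvd_iff.1 hd
    push Not at hg
    obtain ⟨l0, h1, h2⟩ := hg
    have ha0 : a l0 ∉ T := fun h => hboth l0 h (h1 h)
    have hb0 : b l0 ∉ T := fun h => h2 ha0 h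
    have : Nonempty (Fin q) := ⟨l0⟩
    choose! f hf using hmem
    have hcard : T.card ≤ ((Finset.univ : Finset (Fin q)).erase l0).card := by
      apply Finset.card_le_card_of_injOn f
      · intro c hc'
        rw [Finset.coe_erase]
        refine ⟨Finset.mem_coe.2 (Finset.mem_univ _), fun h => ?_⟩
        rw [Set.mem_singleton_iff] at h
        rcases hf c hc' with h3 | h3
        · rw [h] at h3
          exact ha0 (h3 ▸ hc')
        · rw [h] at h3
          exact hb0 (h3 ▸ hc')
      · intro c hc' d hd' h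
        rcases hf c hc' with h3 | h3 <;> rcases hf d hd' with h4 | h4
        · rw [h3, h4, h]
        · exfalso
          rw [h3] at hc'
          rw [h4, ← h] at hd'
          exact hboth _ hc' hd'
        · exfalso
          rw [h3] at hc'
          rw [h4, ← h] at hd'
          exact hboth _ hd' hc'
        · rw [h3, h4, h]
    rw [Finset.card_erase_of_mem (Finset.mem_univ _), Finset.card_univ, Fintype.card_fin, hc]
      at hcard
    have := l0.2
    omega

theorem m10_ZS {S : Finset ℕ} {c : ℕ} (h : c ∈ ZS n S) :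
    c < n ∧ c ∉ S ∧ ∀ i ∈ S, c ≠ i + 1 := by
  unfold ZS at h
  rw [Finset.mem_sdiff, Finset.mem_range, Finset.mem_union, not_or] at h
  refine ⟨h.1, h.2.1, fun i hi he => h.2.2 ?_⟩
  rw [Finset.mem_image]
  exact ⟨i, hi, he.symm⟩

theorem m10_bv_ne {x y : Fin n ⊕ Fin n} (h : x ≠ y) : (bv (k := k) x) y = 0 := by
  unfold bv
  exact Pi.single_eq_of_ne (Ne.symm h) 1

theorem m10_trc {j : ℕ} (hj : j ≤ n) (x : SpG k n) (w : Fin j → Fin n ⊕ Fin n)
    (hx : ∀ (m : Fin j) (y : Fin n ⊕ Fin n), ent x (Sum.inl (Fin.castLE hj m)) y =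
      if y = w m then 1 else 0) (v : VV k n) (m : Fin j) : trc hj (act x v) m = v (w m) := by
  show act x v (Sum.inl (Fin.castLE hj m)) = _
  rw [m10_act]
  simp only [hx, ite_mul, one_mul, zero_mul, Finset.sum_ite_eq', Finset.mem_univ, if_true]

theorem m10_mn {j : ℕ} (hj : j ≤ n) (x : SpG k n) (w : Fin j → Fin n ⊕ Fin n)
    (hw : Function.Injective w)
    (hx : ∀ (m : Fin j) (y : Fin n ⊕ Fin n), ent x (Sum.inl (Fin.castLE hj m)) y =
      if y = w m then 1 else 0) : mn hj x w = 1 := by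
  unfold mn
  have : (Matrix.of fun a b : Fin j => ent x (Sum.inl (Fin.castLE hj a)) (w b)) =
      (1 : Matrix (Fin j) (Fin j) k) := by
    ext a b
    rw [Matrix.of_apply, hx, Matrix.one_apply]
    by_cases h : a = b
    · rw [h]; simp
    · rw [if_neg h, if_neg (fun h' => h (hw h').symm)]
  rw [this, Matrix.det_one]

theorem m10_T {q : ℕ} (a b : Fin q → ℕ) (hab : Function.Injective (Sum.elim a b)) (T : Finset ℕ)
    (hg : ∀ l, (a l ∈ T ∧ b l ∉ T) ∨ (a l ∉ T ∧ b l ∈ T)) (hc : T.card = q) :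
    ∀ c ∈ T, ∃ l, c = a l ∨ c = b l := by
  classical
  have hne : ∀ l l', a l ≠ b l' := fun l l' h =>
    Sum.inl_ne_inr (hab (a₁ := Sum.inl l) (a₂ := Sum.inr l') h)
  have hia : ∀ l l', a l = a l' → l = l' := fun l l' h =>
    Sum.inl_injective (hab (a₁ := Sum.inl l) (a₂ := Sum.inl l') h)
  have hib : ∀ l l', b l = b l' → l = l' := fun l l' h =>
    Sum.inr_injective (hab (a₁ := Sum.inr l) (a₂ := Sum.inr l') h)
  set g : Fin q → ℕ := fun l => if a l ∈ T then a l else b l with hgd
  have hginj : Function.Injective g := by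
    intro l l' h
    simp only [hgd] at h
    split_ifs at h with h1 h2 h2
    · exact hia _ _ h
    · exact absurd h (hne _ _)
    · exact absurd h.symm (hne _ _)
    · exact hib _ _ h
  have hgT : Finset.univ.image g = T := by
    apply Finset.eq_of_subset_of_card_le
    · intro c hc'
      obtain ⟨l, _, rfl⟩ := Finset.mem_image.1 hc'
      simp only [hgd]
      split_ifs with h1
      · exact h1
      · rcases hg l with h2 | h2
        · exact absurd h2.1 h1
        · exact h2.2
    · rw [Finset.card_image_of_injective _ hginj, Finset.card_univ, Fintype.card_fin, hc]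
  intro c hcT
  rw [← hgT] at hcT
  obtain ⟨l, _, rfl⟩ := Finset.mem_image.1 hcT
  refine ⟨l, ?_⟩
  simp only [hgd]
  split_ifs
  · exact Or.inl rfl
  · exact Or.inr rfl

/-- the computation in a commutative algebra, modulo an ideal killed by the functional -/
theorem m10_gen {A : Type} [CommRing A] [Algebra k A] (φ : A →ₗ[k] k) (J : Set A)
    (hJ0 : (0 : A) ∈ J) (hJadd : ∀ x ∈ J, ∀ y ∈ J, x + y ∈ J) (hJmul : ∀ x, ∀ y ∈ J, x * y ∈ J)
    (hφ : ∀ x ∈ J, φ x = 0) {q : ℕ} (a b : Fin q → ℕ) (hab : Function.Injective (Sum.elim a b))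
    (t : A) (om : ℕ → A) (hom : ∀ d, om d ∈ J) (η : Fin q → A) (hη : ∀ l, η l * η l = 0)
    (C : ℕ → A) (hCa : ∀ l, C (a l) = om (a l) - η l) (hCb : ∀ l, C (b l) = om (b l) + η l)
    (hCo : ∀ d, (∀ l, d ≠ a l) → (∀ l, d ≠ b l) → C d = om d) (hA : φ (t * ∏ l, η l) = 1)
    (T : Finset ℕ) (hTq : T.card = q) : φ (t * ∏ d ∈ T, C d) = pt k a b T := by
  classical
  let I : Ideal A :=
    { carrier := J
      add_mem' := fun {x y} hx hy => hJadd x hx y hy
      zero_mem' := hJ0
      smul_mem' := fun c x hx => hJmul c x hx }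
  let π := Ideal.Quotient.mk I
  have hπ : ∀ d, π (om d) = 0 := fun d => Ideal.Quotient.eq_zero_iff_mem.2 (hom d)
  have hcomb := m10_comb a b hab (fun l => π (η l))
    (fun l => by
      show π (η l) * π (η l) = 0
      rw [← map_mul, hη, map_zero])
    (fun d => π (C d))
    (fun l => by
      show π (C (a l)) = - π (η l)
      rw [hCa, map_sub, hπ, zero_sub])
    (fun l => by
      show π (C (b l)) = π (η l)
      rw [hCb, map_add, hπ, zero_add])
    T (fun d _ h1 h2 => by
      show π (C d) = 0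
      rw [hCo d h1 h2, hπ]) hTq
  have hs : π (algebraMap k A (pt k a b T)) =
      (if ∀ l, (a l ∈ T ∧ b l ∉ T) ∨ (a l ∉ T ∧ b l ∈ T) then
        ∏ l, (if a l ∈ T then (-1 : A ⧸ I) else 1) else 0) := by
    unfold pt
    by_cases hg : ∀ l, (a l ∈ T ∧ b l ∉ T) ∨ (a l ∉ T ∧ b l ∈ T)
    · rw [if_pos ⟨hTq, hg⟩, if_pos hg, map_prod, map_prod]
      refine Finset.prod_congr rfl fun l _ => ?_
      split_ifs
      · rw [map_neg, map_one, map_neg, map_one]
      · rw [map_one, map_one]
    · rw [if_neg (fun h => hg h.2), if_neg hg, map_zero, map_zero]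
  have hkey : π (t * ∏ d ∈ T, C d) = π (algebraMap k A (pt k a b T) * (t * ∏ l, η l)) := by
    rw [map_mul, map_prod, hcomb, map_mul, map_mul, hs, map_prod]
    ring
  have hJ : t * ∏ d ∈ T, C d - algebraMap k A (pt k a b T) * (t * ∏ l, η l) ∈ I :=
    Ideal.Quotient.eq.1 hkey
  have h1 := hφ _ hJ
  rw [map_sub, sub_eq_zero] at h1
  rw [h1, ← Algebra.smul_def, map_smul, hA, smul_eq_mul, mul_one]

theorem m10_main (hM4 : S_M4) (hM9 : S_M9) (k : Type) [Field k] (n r : ℕ) (hr : 2 * r ≤ n)
    (S : Finset ℕ) (q : ℕ) (hq : S.card + q = r) (a b : Fin q → ℕ) (hNA : NA n S)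
    (haZ : ∀ l, a l ∈ ZS n S) (hbZ : ∀ l, b l ∈ ZS n S)
    (hinj : Function.Injective (Sum.elim a b)) :
    ∃ g : SpG k n, ∀ T : Finset ℕ, T ⊆ ZS n S → T.card = q →
      MM hr g ((TH k n S * OM k n T : CE k n) : EA k n) = pt k a b T := by
  classical
  obtain ⟨q2al, q2ar, q2sl, q2sr, q2self, q2anti, q2z1, q2z2, lamC, lamq2, lamprod, lammul, lam1,
    MMmulti, X0a, X0q⟩ := hM4 k n
  have ha := fun l => m10_ZS (haZ l)
  have hb := fun l => m10_ZS (hbZ l)
  have hne : ∀ l l', a l ≠ b l' := fun l l' h =>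
    Sum.inl_ne_inr (hinj (a₁ := Sum.inl l) (a₂ := Sum.inr l') h)
  have hia : ∀ l l', a l = a l' → l = l' := fun l l' h =>
    Sum.inl_injective (hinj (a₁ := Sum.inl l) (a₂ := Sum.inl l') h)
  have hib : ∀ l l', b l = b l' → l = l' := fun l l' h =>
    Sum.inr_injective (hinj (a₁ := Sum.inr l) (a₂ := Sum.inr l') h)
  -- the numbering
  let a' : Fin q → Fin n := fun l => ⟨a l, (ha l).1⟩
  let b' : Fin q → Fin n := fun l => ⟨b l, (hb l).1⟩
  have hcard : Fintype.card (↥S ⊕ Fin q) = Fintype.card (Fin r) := by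
    rw [Fintype.card_sum, Fintype.card_coe, Fintype.card_fin, Fintype.card_fin]
    omega
  let e : Fin r ≃ ↥S ⊕ Fin q := (Fintype.equivOfCardEq hcard).symm
  let p1 : ↥S ⊕ Fin q → Fin n := Sum.elim (fun i => ⟨i, by have := hNA.1 i i.2; omega⟩) a'
  let p2 : ↥S ⊕ Fin q → Fin n := Sum.elim (fun i => ⟨(i : ℕ) + 1, hNA.1 i i.2⟩) b'
  have hp11 : ∀ s t, p1 s = p1 t → s = t := by
    intro s t h
    have h' := congrArg Fin.val h
    rcases s with s | s <;> rcases t with t | t
    · have h2 : (s : ℕ) = t := h'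
      rw [Subtype.ext h2]
    · have h2 : (s : ℕ) = a t := h'
      exact absurd (h2 ▸ s.2) (ha t).2.1
    · have h2 : a s = (t : ℕ) := h'
      exact absurd (h2 ▸ t.2) (ha s).2.1
    · rw [hia _ _ h']
  have hp22 : ∀ s t, p2 s = p2 t → s = t := by
    intro s t h
    have h' := congrArg Fin.val h
    rcases s with s | s <;> rcases t with t | t
    · have h2 : (s : ℕ) + 1 = t + 1 := h'
      rw [Subtype.ext (by omega : (s : ℕ) = t)]
    · have h2 : (s : ℕ) + 1 = b t := h'
      exact absurd h2.symm ((hb t).2.2 _ s.2)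
    · have h2 : b s = (t : ℕ) + 1 := h'
      exact absurd h2 ((hb s).2.2 _ t.2)
    · rw [hib _ _ h']
  have hp12 : ∀ s t, p1 s ≠ p2 t := by
    intro s t h
    have h' := congrArg Fin.val h
    rcases s with s | s <;> rcases t with t | t
    · have h2 : (s : ℕ) = t + 1 := h'
      rcases hNA.2 s s.2 t t.2 with h3 | h3 | h3 <;> omega
    · have h2 : (s : ℕ) = b t := h'
      exact absurd (h2 ▸ s.2) (hb t).2.1
    · have h2 : a s = (t : ℕ) + 1 := h'
      exact absurd h2 ((ha s).2.2 _ t.2)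
    · exact hne _ _ h'
  let c : Fin (2 * r) → Fin n := fun m =>
    if (m : ℕ) % 2 = 0 then p1 (e ⟨(m : ℕ) / 2, by have := m.2; omega⟩)
    else p2 (e ⟨(m : ℕ) / 2, by have := m.2; omega⟩)
  let σ : Fin (2 * r) → Bool := fun m => decide ((m : ℕ) % 2 = 1)
  have hc : Function.Injective c := by
    intro m m' h
    have hm := m.2
    have hm' := m'.2
    simp only [c] at h
    split_ifs at h with h1 h2 h2
    · have h3 := e.injective (hp11 _ _ h)
      rw [Fin.mk.injEq] at h3
      exact Fin.ext (by omega)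
    · exact absurd h (hp12 _ _)
    · exact absurd h.symm (hp12 _ _)
    · have h3 := e.injective (hp22 _ _ h)
      rw [Fin.mk.injEq] at h3
      exact Fin.ext (by omega)
  obtain ⟨x, hx⟩ := (hM9 k n).1 (2 * r) hr c σ hc
  obtain ⟨u, hu1, hu2, hu3, hu4⟩ := (hM9 k n).2 q a' b' (by
    intro s t h
    rcases s with s | s <;> rcases t with t | t
    · rw [hia _ _ (congrArg Fin.val h)]
    · exact absurd (congrArg Fin.val h) (hne _ _)
    · exact absurd (congrArg Fin.val h).symm (hne _ _)
    · rw [hib _ _ (congrArg Fin.val h)])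
  let w : Fin (2 * r) → Fin n ⊕ Fin n := fun m => if σ m then Sum.inr (c m) else Sum.inl (c m)
  have hcw : ∀ m, Sum.elim id id (w m) = c m := by
    intro m
    simp only [w]
    split_ifs <;> rfl
  have hw : Function.Injective w := by
    intro m m' h
    apply hc
    rw [← hcw, ← hcw, h]
  have htrc := m10_trc hr x w hx
  have hnot : ∀ y, (∀ m, w m ≠ y) → trc hr (act x (bv y)) = 0 := by
    intro y hy
    funext m
    rw [htrc, m10_bv_ne (fun h => hy m h.symm)]
    rfl
  -- the functional and the ideal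
  let φ : EA k n →ₗ[k] k := (X0 hr).comp (lam x).toLinearMap
  have hφ : ∀ y, φ y = X0 hr (lam x y) := fun y => rfl
  have hom : ∀ (d : ℕ) (Y : EA k n), φ (Y * ((om2 k n d : CE k n) : EA k n)) = 0 := by
    intro d Y
    rw [hφ]
    unfold om2
    split_ifs with hd
    · rw [map_mul, lamq2]
      apply X0q
      by_cases h1 : ∃ m, w m = Sum.inl (⟨d, hd⟩ : Fin n)
      · right
        apply hnot
        intro m hm
        obtain ⟨m', hm'⟩ := h1
        have h2 : m = m' := by
          apply hc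
          rw [← hcw, ← hcw, hm, hm']
          rfl
        rw [h2, hm'] at hm
        exact Sum.inl_ne_inr hm
      · left
        apply hnot
        intro m hm
        exact h1 ⟨m, hm⟩
    · rw [ZeroMemClass.coe_zero, mul_zero, map_zero, map_zero]
  let η : Fin q → CE k n := fun l => q2 (bv (Sum.inl (a' l))) (bv (Sum.inr (b' l)))
  -- the value on the product of all the eta
  have hA : φ ((TH k n S * ∏ l, η l : CE k n) : EA k n) = 1 := by
    have h1 : (TH k n S * ∏ l, η l : CE k n) =
        ∏ i : Fin r, q2 (bv (Sum.inl (p1 (e i)))) (bv (Sum.inr (p2 (e i)))) := by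
      rw [Equiv.prod_comp e (fun s => q2 (bv (Sum.inl (p1 s))) (bv (Sum.inr (p2 s)))),
        Fintype.prod_sum_type]
      congr 1
      unfold TH
      rw [← Finset.prod_coe_sort]
      refine Finset.prod_congr rfl fun i _ => ?_
      unfold th
      rw [dif_pos (hNA.1 i i.2)]
      rfl
    rw [h1, m10_iota _ _ (fun m => bv (w m))]
    · rw [hφ]
      exact (MMmulti (2 * r) hr x w).trans (m10_mn hr x w hw hx)
    · intro i h
      have e1 : (2 * (i : ℕ)) % 2 = 0 := by omega
      have e2 : (2 * (i : ℕ)) / 2 = i := by omega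
      have e3 : σ ⟨2 * i, h⟩ = false := by
        show decide ((2 * (i : ℕ)) % 2 = 1) = false
        rw [e1]; rfl
      have e4 : c ⟨2 * i, h⟩ = p1 (e i) := by
        show (if (2 * (i : ℕ)) % 2 = 0 then p1 (e ⟨(2 * (i : ℕ)) / 2, _⟩)
          else p2 (e ⟨(2 * (i : ℕ)) / 2, _⟩)) = p1 (e i)
        rw [if_pos e1]
        congr 2
        exact Fin.ext e2
      have e5 : w ⟨2 * i, h⟩ = Sum.inl (p1 (e i)) := by
        show (if σ ⟨2 * i, h⟩ then Sum.inr (c ⟨2 * i, h⟩) else Sum.inl (c ⟨2 * i, h⟩)) = _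
        rw [e3, e4]
        rfl
      show bv (w ⟨2 * i, h⟩) = _
      rw [e5]
    · intro i h
      have e1 : (2 * (i : ℕ) + 1) % 2 = 1 := by omega
      have e2 : (2 * (i : ℕ) + 1) / 2 = i := by omega
      have e3 : σ ⟨2 * i + 1, h⟩ = true := by
        show decide ((2 * (i : ℕ) + 1) % 2 = 1) = true
        rw [e1]; rfl
      have e4 : c ⟨2 * i + 1, h⟩ = p2 (e i) := by
        show (if (2 * (i : ℕ) + 1) % 2 = 0 then p1 (e ⟨(2 * (i : ℕ) + 1) / 2, _⟩)
          else p2 (e ⟨(2 * (i : ℕ) + 1) / 2, _⟩)) = p2 (e i)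
        rw [if_neg (by omega)]
        congr 2
        exact Fin.ext e2
      have e5 : w ⟨2 * i + 1, h⟩ = Sum.inr (p2 (e i)) := by
        show (if σ ⟨2 * i + 1, h⟩ then Sum.inr (c ⟨2 * i + 1, h⟩)
          else Sum.inl (c ⟨2 * i + 1, h⟩)) = _
        rw [e3, e4]
        rfl
      show bv (w ⟨2 * i + 1, h⟩) = _
      rw [e5]
  -- the action of u
  have q2sub : ∀ v v1 v2 : VV k n, q2 v (v1 - v2) = q2 v v1 - q2 v v2 := by
    intro v v1 v2
    rw [sub_eq_add_neg, q2ar, ← neg_one_smul k v2, q2sr, neg_one_smul, ← sub_eq_add_neg]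
  have hTH : lam u ((TH k n S : CE k n) : EA k n) = ((TH k n S : CE k n) : EA k n) := by
    refine lamprod u S (th k n) (th k n) fun i hi => ?_
    unfold th
    rw [dif_pos (hNA.1 i hi), lamq2, hu3, hu4]
    · intro l h
      exact (ha l).2.2 i hi (congrArg Fin.val h).symm
    · intro l h
      have h' : i = b l := congrArg Fin.val h
      exact (hb l).2.1 (h' ▸ hi)
  let C' : ℕ → CE k n := fun d => ⟨lam u ((om2 k n d : CE k n) : EA k n), lamC u (om2 k n d)⟩
  have hOM : ∀ T : Finset ℕ, lam u ((OM k n T : CE k n) : EA k n) =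
      ((∏ d ∈ T, C' d : CE k n) : EA k n) := fun T =>
    lamprod u T (om2 k n) C' fun _ _ => rfl
  have hCa : ∀ l, C' (a l) = om2 k n (a l) - η l := by
    intro l
    apply Subtype.ext
    show lam u ((om2 k n (a l) : CE k n) : EA k n) = _
    have h1 : om2 k n (a l) = q2 (bv (Sum.inl (a' l))) (bv (Sum.inr (a' l))) := by
      unfold om2
      rw [dif_pos (ha l).1]
    rw [h1, lamq2, hu3 (a' l) (fun l' h => hne l l' (congrArg Fin.val h)), hu2 l, q2sub]
  have hCb : ∀ l, C' (b l) = om2 k n (b l) + η l := by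
    intro l
    apply Subtype.ext
    show lam u ((om2 k n (b l) : CE k n) : EA k n) = _
    have h1 : om2 k n (b l) = q2 (bv (Sum.inl (b' l))) (bv (Sum.inr (b' l))) := by
      unfold om2
      rw [dif_pos (hb l).1]
    rw [h1, lamq2, hu1 l, hu4 (b' l) (fun l' h => hne l' l (congrArg Fin.val h).symm), q2al]
  have hCo : ∀ d, (∀ l, d ≠ a l) → (∀ l, d ≠ b l) → C' d = om2 k n d := by
    intro d h1 h2
    apply Subtype.ext
    show lam u ((om2 k n d : CE k n) : EA k n) = _
    unfold om2
    split_ifs with h3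
    · rw [lamq2, hu3 ⟨d, h3⟩ (fun l h => h2 l (congrArg Fin.val h)),
        hu4 ⟨d, h3⟩ (fun l h => h1 l (congrArg Fin.val h))]
    · rw [ZeroMemClass.coe_zero, map_zero]
  refine ⟨x * u, fun T hT hTq => ?_⟩
  have hfin := m10_gen (A := CE k n)
    (φ.comp (Subalgebra.center k (EA k n)).val.toLinearMap)
    {z : CE k n | ∀ Y : EA k n, φ (Y * (z : EA k n)) = 0}
    (by
      intro Y
      rw [ZeroMemClass.coe_zero, mul_zero, map_zero])
    (by
      intro z h z' h' Y
      rw [Subalgebra.coe_add, mul_add, map_add, h Y, h' Y, add_zero])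
    (by
      intro z z' h' Y
      rw [Subalgebra.coe_mul, ← mul_assoc]
      exact h' _)
    (by
      intro z h
      have h1 := h 1
      rw [one_mul] at h1
      exact h1)
    a b hinj (TH k n S) (om2 k n) hom η (fun l => q2z1 _ _ _) C' hCa hCb hCo hA T hTq
  unfold MM
  rw [lammul, Subalgebra.coe_mul, map_mul, hTH, hOM, ← Subalgebra.coe_mul, ← hφ]
  exact hfin

theorem p_M10 (hM4 : S_M4) (hM9 : S_M9) : S_M10 := by
  classical
  intro k _ n r hr S a b hNA hSr haZ hbZ hinj
  obtain ⟨g, hg⟩ := m10_main hM4 hM9 k n r hr S (r - S.card) (by omega) a b hNA haZ hbZ hinj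
  refine ⟨g, Or.inl ?_⟩
  funext T
  unfold colS
  split_ifs with h
  · exact hg T h.1 h.2
  · symm
    unfold pt
    rw [if_neg]
    rintro ⟨h1, h2⟩
    apply h
    refine ⟨fun c hc => ?_, h1⟩
    obtain ⟨l, hl | hl⟩ := m10_T a b hinj T h2 h1 c hc
    · rw [hl]; exact haZ l
    · rw [hl]; exact hbZ l

end

end Pool.Agent.Sp49
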