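import Pool.Agent.Lib.MP_49c83e_al.StmG

/-!
MP_49c83e_al, piece M11: Cauchy-Binet for the weight alpha_S.
-/

namespace Pool.Agent.Sp49

open scoped BigOperators
open Matrix

private theorem m11_al (n : ℕ) (S : Finset ℕ) (i : Fin n) :
    alS n S i = (if (i : ℕ) ∈ S then (1 : ℤ) else 0) -
      (if ∃ i' ∈ S, (i : ℕ) = i' + 1 then 1 else 0) := by
  classical
  unfold alS al
  rw [Finset.sum_apply]
  have h0 : ∀ i' ∈ S, (if (i : ℕ) = i' then (1 : ℤ) else if (i : ℕ) = i' + 1 then -1 else 0) =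
      (if (i : ℕ) = i' then (1 : ℤ) else 0) - (if (i : ℕ) = i' + 1 then 1 else 0) := by
    intro i' _
    split_ifs <;> omega
  rw [Finset.sum_congr rfl h0, Finset.sum_sub_distrib, Finset.sum_ite_eq]
  congr 1
  by_cases h : ∃ i' ∈ S, (i : ℕ) = i' + 1
  · obtain ⟨i', hi', he⟩ := h
    rw [if_pos ⟨i', hi', he⟩, Finset.sum_eq_single i']
    · rw [if_pos he]
    · intro b _ hb
      rw [if_neg]
      omega
    · intro h
      exact absurd hi' h
  · rw [if_neg h]
    apply Finset.sum_eq_zero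
    intro b hb
    rw [if_neg]
    intro he
    exact h ⟨b, hb, he⟩

private theorem m11_wtv {n : ℕ} (x : Fin n ⊕ Fin n) (i : Fin n) :
    wtv x i = (if x = Sum.inl i then (1 : ℤ) else 0) - (if x = Sum.inr i then 1 else 0) := by
  rcases x with a | a
  · by_cases h : a = i
    · subst h
      simp [wtv]
    · have h' : i ≠ a := fun h2 => h h2.symm
      simp [wtv, h, h']
  · by_cases h : a = i
    · subst h
      simp [wtv]
    · have h' : i ≠ a := fun h2 => h h2.symm
      simp [wtv, h, h']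

private theorem m11_cnt {n j : ℕ} (w : Fin j → Fin n ⊕ Fin n) (hw : Function.Injective w)
    (y : Fin n ⊕ Fin n) [Decidable (∃ b, w b = y)] :
    (∑ b, if w b = y then (1 : ℤ) else 0) = if ∃ b, w b = y then 1 else 0 := by
  by_cases h : ∃ b, w b = y
  · obtain ⟨b0, hb0⟩ := h
    rw [if_pos ⟨b0, hb0⟩, Finset.sum_eq_single b0]
    · rw [if_pos hb0]
    · intro b _ hb
      rw [if_neg]
      intro h2
      exact hb (hw (h2.trans hb0.symm))
    · intro h2
      exact absurd (Finset.mem_univ _) h2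
  · rw [if_neg h]
    apply Finset.sum_eq_zero
    intro b _
    rw [if_neg]
    intro h2
    exact h ⟨b, h2⟩

open Classical in
private theorem m11_wt {n j : ℕ} (w : Fin j → Fin n ⊕ Fin n) (hw : Function.Injective w)
    (i : Fin n) :
    (∑ b, wtv (w b)) i = (if ∃ b, w b = Sum.inl i then (1 : ℤ) else 0) -
      (if ∃ b, w b = Sum.inr i then 1 else 0) := by
  rw [Finset.sum_apply, Finset.sum_congr rfl fun b _ => m11_wtv (w b) i,
    Finset.sum_sub_distrib, m11_cnt w hw, m11_cnt w hw]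

private theorem m11_cardF (n : ℕ) (U : Finset ℕ) (hU : ∀ a ∈ U, a < n) :
    (Finset.univ.filter fun i : Fin n => (i : ℕ) ∈ U).card = U.card := by
  classical
  rw [← Finset.card_map Fin.valEmbedding]
  congr 1
  ext a
  simp only [Finset.mem_map, Finset.mem_filter, Finset.mem_univ, true_and, Fin.valEmbedding_apply]
  constructor
  · rintro ⟨i, hi, rfl⟩
    exact hi
  · intro ha
    exact ⟨⟨a, hU a ha⟩, ha, rfl⟩

/-- the description of the range of w by S and T -/
private def m11_D (n : ℕ) (S T : Finset ℕ) (x : Fin n ⊕ Fin n) : Prop :=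
  Sum.elim (fun a : Fin n => (a : ℕ) ∈ S ∨ (a : ℕ) ∈ T)
    (fun a : Fin n => (∃ i ∈ S, (a : ℕ) = i + 1) ∨ (a : ℕ) ∈ T) x

private theorem m11_Z {n : ℕ} {S : Finset ℕ} {a : ℕ} (ha : a ∈ ZS n S) :
    a < n ∧ a ∉ S ∧ ¬ ∃ i ∈ S, a = i + 1 := by
  unfold ZS at ha
  simp only [Finset.mem_sdiff, Finset.mem_range, Finset.mem_union, Finset.mem_image,
    not_or, not_exists, not_and] at ha
  refine ⟨ha.1, ha.2.1, ?_⟩
  rintro ⟨i, hi, he⟩
  exact ha.2.2 i hi he.symm

private theorem m11_card {n r : ℕ} (S T : Finset ℕ) (hS : NA n S) (hT : T ⊆ ZS n S)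
    (w : Fin (2 * r) → Fin n ⊕ Fin n) (hw : Function.Injective w)
    (hD : ∀ x, (∃ b, w b = x) ↔ m11_D n S T x) : S.card + T.card = r := by
  classical
  have h1 : (Finset.univ.image w).card = 2 * r := by
    rw [Finset.card_image_of_injective _ hw, Finset.card_univ, Fintype.card_fin]
  have h2 : Finset.univ.image w =
      (Finset.univ.filter fun i : Fin n => (i : ℕ) ∈ S ∪ T).disjSum
        (Finset.univ.filter fun i : Fin n => (i : ℕ) ∈ S.image (· + 1) ∪ T) := by
    ext x
    have h3 := hD x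
    rcases x with a | a
    · rw [Finset.inl_mem_disjSum]
      simp only [Finset.mem_image, Finset.mem_univ, true_and, Finset.mem_filter,
        Finset.mem_union]
      rw [h3]
      rfl
    · rw [Finset.inr_mem_disjSum]
      simp only [Finset.mem_image, Finset.mem_univ, true_and, Finset.mem_filter,
        Finset.mem_union]
      rw [h3]
      unfold m11_D
      rw [Sum.elim_inr]
      refine or_congr ⟨?_, ?_⟩ Iff.rfl
      · rintro ⟨i, hi, he⟩
        exact ⟨i, hi, he.symm⟩
      · rintro ⟨i, hi, he⟩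
        exact ⟨i, hi, he.symm⟩
  have hS1 : ∀ a ∈ S ∪ T, a < n := by
    intro a ha
    rcases Finset.mem_union.1 ha with h | h
    · have := hS.1 a h
      omega
    · exact (m11_Z (hT h)).1
  have hS2 : ∀ a ∈ S.image (· + 1) ∪ T, a < n := by
    intro a ha
    rcases Finset.mem_union.1 ha with h | h
    · obtain ⟨i, hi, rfl⟩ := Finset.mem_image.1 h
      exact hS.1 i hi
    · exact (m11_Z (hT h)).1
  have hd1 : Disjoint S T := by
    rw [Finset.disjoint_left]
    intro a ha hb
    exact (m11_Z (hT hb)).2.1 ha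
  have hd2 : Disjoint (S.image (· + 1)) T := by
    rw [Finset.disjoint_left]
    intro a ha hb
    obtain ⟨i, hi, rfl⟩ := Finset.mem_image.1 ha
    exact (m11_Z (hT hb)).2.2 ⟨i, hi, rfl⟩
  rw [h2, Finset.card_disjSum, m11_cardF n _ hS1, m11_cardF n _ hS2,
    Finset.card_union_of_disjoint hd1, Finset.card_union_of_disjoint hd2,
    Finset.card_image_of_injective _ (add_left_injective 1)] at h1
  omega

private theorem m11_perm {j : ℕ} {X : Type} (w w' : Fin j → X) (hw' : Function.Injective w')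
    (h : ∀ b, ∃ b', w b' = w' b) : ∃ σ : Equiv.Perm (Fin j), ∀ b, w (σ b) = w' b := by
  choose f hf using h
  have hi : Function.Injective f := by
    intro a b hab
    apply hw'
    rw [← hf a, ← hf b, hab]
  exact ⟨Equiv.ofBijective f (Finite.injective_iff_bijective.1 hi), hf⟩

private theorem m11_prop (A B C D : Prop) [Decidable A] [Decidable B] [Decidable C]
    [Decidable D] (h3 : (if A then (1 : ℤ) else 0) - (if B then 1 else 0) =
      (if C then (1 : ℤ) else 0) - (if D then 1 else 0)) (hn : ¬ (C ∧ D)) :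
    (A ↔ (C ∨ (A ∧ B))) ∧ (B ↔ (D ∨ (A ∧ B))) := by
  by_cases ha : A <;> by_cases hb : B <;> by_cases hc : C <;> by_cases hd : D <;> simp_all

/-- an injective w of weight alpha_S comes from a T -/
private theorem m11_surj {n r : ℕ} (S : Finset ℕ) (hS : NA n S)
    (w : Fin (2 * r) → Fin n ⊕ Fin n) (hw : Function.Injective w)
    (hwt : ∑ b, wtv (w b) = alS n S) :
    ∃ T : Finset ℕ, T ⊆ ZS n S ∧ ∀ x, (∃ b, w b = x) ↔ m11_D n S T x := by
  classical
  refine ⟨(Finset.range n).filter fun a => ∃ h : a < n, (∃ b, w b = Sum.inl ⟨a, h⟩) ∧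
    ∃ b, w b = Sum.inr ⟨a, h⟩, ?_, ?_⟩
  · intro a ha
    obtain ⟨_, h, h1, h2⟩ := Finset.mem_filter.1 ha
    have h3 := congrFun hwt ⟨a, h⟩
    rw [m11_wt w hw, m11_al, if_pos h1, if_pos h2] at h3
    have hn : ¬ (a ∈ S ∧ ∃ i' ∈ S, a = i' + 1) := by
      rintro ⟨h4, i', h5, h6⟩
      rcases hS.2 a h4 i' h5 with h7 | h7 | h7 <;> omega
    unfold ZS
    simp only [Finset.mem_sdiff, Finset.mem_range, Finset.mem_union, Finset.mem_image,
      not_or, not_exists, not_and]
    have h4 : a ∉ S := by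
      intro h4
      have h5 : ¬ ∃ i' ∈ S, a = i' + 1 := fun h5 => hn ⟨h4, h5⟩
      simp only at h3
      rw [if_pos h4, if_neg h5] at h3
      omega
    refine ⟨h, h4, ?_⟩
    intro i hi he
    simp only at h3
    rw [if_neg h4, if_pos ⟨i, hi, he.symm⟩] at h3
    omega
  · intro x
    have key : ∀ i : Fin n, ((∃ b, w b = Sum.inl i) ↔ ((i : ℕ) ∈ S ∨
        ((∃ b, w b = Sum.inl i) ∧ ∃ b, w b = Sum.inr i))) ∧
        ((∃ b, w b = Sum.inr i) ↔ ((∃ i' ∈ S, (i : ℕ) = i' + 1) ∨
        ((∃ b, w b = Sum.inl i) ∧ ∃ b, w b = Sum.inr i))) := by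
      intro i
      have h3 := congrFun hwt i
      rw [m11_wt w hw, m11_al] at h3
      have hn : ¬ ((i : ℕ) ∈ S ∧ ∃ i' ∈ S, (i : ℕ) = i' + 1) := by
        rintro ⟨h4, i', h5, h6⟩
        rcases hS.2 i h4 i' h5 with h7 | h7 | h7 <;> omega
      exact m11_prop _ _ _ _ h3 hn
    have hF : ∀ i : Fin n, (i : ℕ) ∈ ((Finset.range n).filter fun a => ∃ h : a < n,
        (∃ b, w b = Sum.inl ⟨a, h⟩) ∧ ∃ b, w b = Sum.inr ⟨a, h⟩) ↔
        ((∃ b, w b = Sum.inl i) ∧ ∃ b, w b = Sum.inr i) := by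
      intro i
      rw [Finset.mem_filter, Finset.mem_range]
      constructor
      · rintro ⟨_, _, h⟩
        exact h
      · intro h
        exact ⟨i.2, i.2, h⟩
    rcases x with i | i
    · unfold m11_D
      rw [Sum.elim_inl, hF i]
      exact (key i).1
    · unfold m11_D
      rw [Sum.elim_inr, hF i]
      exact (key i).2

/-- the weight of a family described by S and T -/
private theorem m11_wtD {n r : ℕ} (S T : Finset ℕ) (hT : T ⊆ ZS n S)
    (w : Fin (2 * r) → Fin n ⊕ Fin n) (hw : Function.Injective w)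
    (hD : ∀ x, (∃ b, w b = x) ↔ m11_D n S T x) : ∑ b, wtv (w b) = alS n S := by
  classical
  funext i
  rw [m11_wt w hw, m11_al]
  have h1 : (∃ b, w b = Sum.inl i) ↔ ((i : ℕ) ∈ S ∨ (i : ℕ) ∈ T) := hD (Sum.inl i)
  have h2 : (∃ b, w b = Sum.inr i) ↔ ((∃ i' ∈ S, (i : ℕ) = i' + 1) ∨ (i : ℕ) ∈ T) :=
    hD (Sum.inr i)
  by_cases hi : (i : ℕ) ∈ T
  · have h3 := m11_Z (hT hi)
    rw [if_pos (h1.2 (Or.inr hi)), if_pos (h2.2 (Or.inr hi)), if_neg h3.2.1, if_neg h3.2.2,
      sub_self, sub_zero]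
  · congr 1
    · refine if_congr (h1.trans ⟨fun h => h.resolve_right hi, Or.inl⟩) rfl rfl
    · refine if_congr (h2.trans ⟨fun h => h.resolve_right hi, Or.inl⟩) rfl rfl

/-- T can be read off -/
private theorem m11_inj {n r : ℕ} (S T T' : Finset ℕ) (hT : T ⊆ ZS n S)
    (w w' : Fin (2 * r) → Fin n ⊕ Fin n)
    (hD : ∀ x, (∃ b, w b = x) ↔ m11_D n S T x)
    (hD' : ∀ x, (∃ b, w' b = x) ↔ m11_D n S T' x)
    (h : ∀ x, (∃ b, w b = x) ↔ ∃ b, w' b = x) : T ⊆ T' := by
  intro a ha
  have h0 := m11_Z (hT ha)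
  have h1 : m11_D n S T (Sum.inl ⟨a, h0.1⟩) := Or.inr ha
  rw [← hD, h, hD'] at h1
  rcases h1 with h1 | h1
  · exact absurd h1 h0.2.1
  · exact h1

theorem p_M11 (hM1 : S_M1) (hM4 : S_M4) (hM5 : S_M5) : S_M11 := by
  classical
  intro k _ n r hr S x g hS hcard
  obtain ⟨_, _, _, _, _, _, _, _, _, _, _, _, _, hMM, _, _⟩ := hM4 k n
  set w0 : Fin (2 * r) → Fin n ⊕ Fin n := fun b => Sum.inl (Fin.castLE hr b) with hw0
  set F : (Fin (2 * r) → Fin n ⊕ Fin n) → k := fun w' =>
    (∏ b, ent g (w' b) (w0 b)) * mn hr x w' with hF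
  refine ⟨∑ w' : Fin (2 * r) → Fin n ⊕ Fin n, Finsupp.single (∑ b, wtv (w' b)) (F w'), ?_, ?_⟩
  · intro t
    rw [← Finsupp.sum_finsetSum_index]
    · have h1 := (hM1 k n (2 * r) hr (x * tor t) g w0).1
      have h2 : dj hr (x * tor t * g) = mn hr (x * tor t * g) w0 := rfl
      rw [h2, h1]
      refine Finset.sum_congr rfl fun w' _ => ?_
      rw [Finsupp.sum_single_index (by rw [mul_zero])]
      rw [(hM1 k n (2 * r) hr x g w').2.1 t, hF]
      ring
    · intro a
      rw [mul_zero]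
    · intro a b c
      rw [mul_add]
  · -- choose the w_T
    have hex : ∀ T : Finset ℕ, ∃ w : Fin (2 * r) → Fin n ⊕ Fin n,
        T ∈ (ZS n S).powersetCard (r - S.card) → Function.Injective w ∧
          (∀ y, (∃ b, w b = y) ↔ m11_D n S T y) ∧
          ((TH k n S * OM k n T : CE k n) : EA k n) =
            ExteriorAlgebra.ιMulti k (2 * r) (fun b => bv (w b)) := by
      intro T
      by_cases hT : T ∈ (ZS n S).powersetCard (r - S.card)
      · have hT' := Finset.mem_powersetCard.1 hT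
        obtain ⟨w, h1, h2, h3⟩ := hM5 k n r hr S T hS hT'.1 (by rw [hT'.2]; omega)
        exact ⟨w, fun _ => ⟨h1, h2, h3⟩⟩
      · exact ⟨w0, fun h => absurd h hT⟩
    choose W hW using hex
    have hcol : ∀ T ∈ (ZS n S).powersetCard (r - S.card), ∀ y : SpG k n,
        colS hr S y T = mn hr y (W T) := by
      intro T hT y
      unfold colS
      rw [if_pos (Finset.mem_powersetCard.1 hT), (hW T hT).2.2, hMM]
    have hdet : ∀ w : Fin (2 * r) → Fin n ⊕ Fin n, mn hr (trG g) w =
        ∑ σ : Equiv.Perm (Fin (2 * r)), ((Equiv.Perm.sign σ : ℤ) : k) *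
          ∏ b, ent g (w (σ b)) (w0 b) := by
      intro w
      unfold mn
      rw [← Matrix.det_transpose, Matrix.det_apply']
      rfl
    have hterm : ∀ T ∈ (ZS n S).powersetCard (r - S.card),
        colS hr S x T * colS hr S (trG g) T =
          ∑ σ : Equiv.Perm (Fin (2 * r)), F (fun b => W T (σ b)) := by
      intro T hT
      rw [hcol T hT, hcol T hT, hdet, Finset.mul_sum]
      refine Finset.sum_congr rfl fun σ _ => ?_
      rw [hF]
      simp only
      rw [(hM1 k n (2 * r) hr x g (W T)).2.2.2 σ]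
      ring
    rw [Finset.sum_congr rfl hterm, ← Finset.sum_product', Finsupp.finsetSum_apply]
    have hL : ∀ w' : Fin (2 * r) → Fin n ⊕ Fin n,
        (Finsupp.single (∑ b, wtv (w' b)) (F w')) (alS n S) =
          if Function.Injective w' ∧ ∑ b, wtv (w' b) = alS n S then F w' else 0 := by
      intro w'
      rw [Finsupp.single_apply]
      by_cases h1 : ∑ b, wtv (w' b) = alS n S
      · by_cases h2 : Function.Injective w'
        · rw [if_pos h1, if_pos ⟨h2, h1⟩]
        · rw [if_pos h1, if_neg (fun h => h2 h.1), hF]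
          simp only
          rw [(hM1 k n (2 * r) hr x g w').2.2.1 h2, mul_zero]
      · rw [if_neg h1, if_neg (fun h => h1 h.2)]
    rw [Finset.sum_congr rfl fun w' _ => hL w', ← Finset.sum_filter]
    symm
    refine Finset.sum_nbij (fun p b => W p.1 (p.2 b)) ?_ ?_ ?_ ?_
    · rintro ⟨T, σ⟩ hp
      have hT := (Finset.mem_product.1 hp).1
      obtain ⟨h1, h2, -⟩ := hW T hT
      rw [Finset.mem_filter]
      refine ⟨Finset.mem_univ _, fun a b hab => σ.injective (h1 hab), ?_⟩
      simp only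
      rw [Equiv.sum_comp σ (fun b => wtv (W T b))]
      exact m11_wtD S T (Finset.mem_powersetCard.1 hT).1 (W T) h1 h2
    · rintro ⟨T, σ⟩ hp ⟨T', σ'⟩ hp' heq
      have hT := (Finset.mem_product.1 (Finset.mem_coe.1 hp)).1
      have hT' := (Finset.mem_product.1 (Finset.mem_coe.1 hp')).1
      simp only at heq hT hT'
      have hr1 : ∀ y, (∃ b, W T b = y) ↔ ∃ b, W T' b = y := by
        intro y
        constructor
        · rintro ⟨b, hb⟩
          refine ⟨σ' (σ.symm b), ?_⟩
          have := congrFun heq (σ.symm b)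
          rw [Equiv.apply_symm_apply] at this
          rw [← this, hb]
        · rintro ⟨b, hb⟩
          refine ⟨σ (σ'.symm b), ?_⟩
          have := congrFun heq (σ'.symm b)
          rw [Equiv.apply_symm_apply] at this
          rw [this, hb]
      obtain ⟨h1, h2, -⟩ := hW T hT
      obtain ⟨h1', h2', -⟩ := hW T' hT'
      have hTT : T = T' := Finset.Subset.antisymm
        (m11_inj S T T' (Finset.mem_powersetCard.1 hT).1
          (W T) (W T') h2 h2' hr1)
        (m11_inj S T' T (Finset.mem_powersetCard.1 hT').1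
          (W T') (W T) h2' h2 fun y => (hr1 y).symm)
      subst hTT
      have : σ = σ' := by
        apply Equiv.ext
        intro b
        exact h1 (congrFun heq b)
      rw [this]
    · intro w' hw'
      obtain ⟨-, h1, h2⟩ := Finset.mem_filter.1 (Finset.mem_coe.1 hw')
      obtain ⟨T, hT1, hT2⟩ := m11_surj S hS w' h1 h2
      have hc := m11_card S T hS hT1 w' h1 hT2
      have hT : T ∈ (ZS n S).powersetCard (r - S.card) := by
        rw [Finset.mem_powersetCard]
        exact ⟨hT1, by omega⟩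
      obtain ⟨h3, h4, -⟩ := hW T hT
      obtain ⟨σ, hσ⟩ := m11_perm (W T) w' h1 (fun b => (h4 _).2 ((hT2 _).1 ⟨b, rfl⟩))
      refine ⟨(T, σ), ?_, ?_⟩
      · rw [Finset.mem_coe, Finset.mem_product]
        exact ⟨hT, Finset.mem_univ _⟩
      · funext b
        exact hσ b
    · rintro ⟨T, σ⟩ _
      rfl

end Pool.Agent.Sp49
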