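import Pool.Agent.Lib.MP_49c83e_al.StmG

/-!
MP_49c83e_al, piece M13: the model of L.
-/

namespace Pool.Agent.Sp49

open scoped BigOperators
open Matrix

private lemma m13_pull {k : Type} [Field k] {X Y M : Type} [RS k X] [RS k Y] [AddCommGroup M]
    [Module k M] (φ : X → Y) (hφ : IsReg k φ) (F : Y → M) (hF : F ∈ RM k Y M) :
    (fun x => F (φ x)) ∈ RM k X M := by
  unfold RM at hF ⊢
  induction hF using Submodule.span_induction with
  | mem F hF =>
    obtain ⟨f, hf, m, rfl⟩ := hF
    exact Submodule.subset_span ⟨fun x => f (φ x), hφ f hf, m, rfl⟩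
  | zero => exact Submodule.zero_mem _
  | add F G _ _ hF hG => exact Submodule.add_mem _ hF hG
  | smul c F _ hF => exact Submodule.smul_mem _ c hF

private lemma m13_inc (k : Type) [Field k] (n : ℕ) :
    IsReg k (fun b : Bo k n => (b : SpG k n)) := by
  intro f hf
  exact ⟨f, hf, rfl⟩

private lemma m13_card (n r : ℕ) (hr : 2 * r ≤ n) (S : Finset ℕ) (hS : NA n S) (hSr : S.card ≤ r) :
    2 * (r - S.card) ≤ (ZS n S).card := by
  have h1 : (S ∪ S.image (· + 1)) ⊆ Finset.range n := by
    intro a ha
    rw [Finset.mem_range]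
    rcases Finset.mem_union.1 ha with h | h
    · have := hS.1 a h
      omega
    · obtain ⟨b, hb, rfl⟩ := Finset.mem_image.1 h
      exact hS.1 b hb
  have h2 : (S ∪ S.image (· + 1)).card ≤ S.card + S.card :=
    (Finset.card_union_le _ _).trans (Nat.add_le_add_left Finset.card_image_le _)
  unfold ZS
  rw [Finset.card_sdiff_of_subset h1, Finset.card_range]
  omega

private lemma m13_colS {k : Type} [Field k] {n r : ℕ} (hr : 2 * r ≤ n) (S : Finset ℕ)
    (x : SpG k n) (T : Finset ℕ) (hT : T ∈ (ZS n S).powersetCard (r - S.card)) :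
    colS hr S x T = MM hr x ((TH k n S * OM k n T : CE k n) : EA k n) := by
  rw [Finset.mem_powersetCard] at hT
  unfold colS
  rw [if_pos hT]

private lemma m13_frm_add {k : Type} [Field k] (Z : Finset ℕ) (q : ℕ) (h a b : Finset ℕ → k) :
    frm Z q h (a + b) = frm Z q h a + frm Z q h b := by
  unfold frm
  rw [← Finset.sum_add_distrib]
  refine Finset.sum_congr rfl fun T _ => ?_
  rw [Pi.add_apply, mul_add]

private lemma m13_frm_smul {k : Type} [Field k] (Z : Finset ℕ) (q : ℕ) (h a : Finset ℕ → k)
    (c : k) : frm Z q h (c • a) = c * frm Z q h a := by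
  unfold frm
  rw [Finset.mul_sum]
  refine Finset.sum_congr rfl fun T _ => ?_
  rw [Pi.smul_apply, smul_eq_mul]
  ring

theorem p_M13 (hM7 : S_M7) (hM8 : S_M8) (hM10 : S_M10) (hM11 : S_M11) (hM12 : S_M12)
    (hE1 : S_E1) (hE2 : S_E2) (hE3 : S_E3) : S_M13 := by
  intro k _ _ n r hr L _ _ ρ hρ v η hspan hη hsep
  have hρB : IsRat (resB ρ) := fun m => m13_pull _ (m13_inc k n) _ (hρ m)
  obtain ⟨e2tor, e2x, e2add, e2smul, e2mem, e2id, -, -, -⟩ := hE2 k n L L (resB ρ) (resB ρ) hρB hρB
  obtain ⟨-, -, -, -, e3wt, -, -⟩ := hE3 k n L L (resB ρ) (resB ρ) hρB hρB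
  obtain ⟨-, -, -, -, e1cfl, -, -, -, -, e1tcfl⟩ := hE1 k L k
  obtain ⟨e1cf, -, -, -, -, -, -, e1tcf, -, -⟩ := hE1 k k k
  -- eta of a weight projection
  have hA : ∀ (μ : Fin n → ℤ) (x : SpG k n) (m : L), η (ρ x (prB (resB ρ) μ m)) =
      tcf μ (fun t : Fin n → kˣ => η (ρ x (ρ (tor t) m))) := by
    intro μ x m
    have hF : (fun t : Fin n → kˣ => resB ρ (torB t) m) ∈ RM k (Fin n → kˣ) L :=
      m13_pull _ e2tor _ (hρB m)
    exact (e1tcfl n (fun t : Fin n → kˣ => resB ρ (torB t) m) (η ∘ₗ ρ x) μ hF).symm
  have hB : ∀ (S : Finset ℕ), NA n S → S.card ≤ r → ∀ (x g : SpG k n),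
      η (ρ x (prB (resB ρ) (alS n S) (ρ g v))) =
        ∑ T ∈ (ZS n S).powersetCard (r - S.card), colS hr S (trG g) T * colS hr S x T := by
    intro S hS hSr x g
    obtain ⟨c, hc1, hc2⟩ := hM11 k n r hr S x g hS hSr
    rw [hA]
    have h1 : (fun t : Fin n → kˣ => η (ρ x (ρ (tor t) (ρ g v)))) =
        fun t : Fin n → kˣ => c.sum fun ν m => chT ν t • m := by
      funext t
      have h2 : ρ x (ρ (tor t) (ρ g v)) = ρ (x * tor t * g) v := by
        rw [map_mul, map_mul]
        rfl
      rw [h2, hη, hc1 t]
      rfl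
    rw [h1, e1tcf n c (alS n S), hc2]
    refine Finset.sum_congr rfl fun T _ => ?_
    ring
  let R : Finset ℕ → Submodule k ((Finset ℕ → k) × L) := fun S =>
    { carrier := {q | q.2 ∈ wtG ρ (alS n S) ∧ ∀ x, η (ρ x q.2) =
        ∑ T ∈ (ZS n S).powersetCard (r - S.card), q.1 T * colS hr S x T}
      add_mem' := by
        rintro a b ⟨ha1, ha2⟩ ⟨hb1, hb2⟩
        refine ⟨Submodule.add_mem _ ha1 hb1, fun x => ?_⟩
        rw [Prod.snd_add, map_add, map_add, ha2, hb2, ← Finset.sum_add_distrib]
        refine Finset.sum_congr rfl fun T _ => ?_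
        rw [Prod.fst_add, Pi.add_apply, add_mul]
      zero_mem' := by
        refine ⟨Submodule.zero_mem _, fun x => ?_⟩
        simp
      smul_mem' := by
        rintro c a ⟨ha1, ha2⟩
        refine ⟨Submodule.smul_mem _ c ha1, fun x => ?_⟩
        rw [Prod.smul_snd, map_smul, map_smul, ha2, smul_eq_mul, Finset.mul_sum]
        refine Finset.sum_congr rfl fun T _ => ?_
        rw [Prod.smul_fst, Pi.smul_apply, smul_eq_mul, mul_assoc] }
  have hRmem : ∀ S h l, (h, l) ∈ R S ↔ (l ∈ wtG ρ (alS n S) ∧ ∀ x, η (ρ x l) =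
        ∑ T ∈ (ZS n S).powersetCard (r - S.card), h T * colS hr S x T) := fun S h l => Iff.rfl
  refine ⟨R, fun S hS hSr => ⟨?_, ?_, ?_, ?_, ?_, ?_⟩⟩
  · intro h l hl
    exact hl.1
  · -- every h in PP is related to something
    intro h hh
    have h1 := hM8 k (ZS n S) (r - S.card) (m13_card n r hr S hS hSr) hh
    have h2 : Submodule.span k {h | ∃ a b : Fin (r - S.card) → ℕ, (∀ l, a l ∈ ZS n S) ∧
        (∀ l, b l ∈ ZS n S) ∧ Function.Injective (Sum.elim a b) ∧ h = pt k a b} ≤
        (R S).map (LinearMap.fst k (Finset ℕ → k) L) := by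
      rw [Submodule.span_le]
      rintro _ ⟨a, b, ha, hb, hab, rfl⟩
      obtain ⟨g, hg⟩ := hM10 k n r hr S a b hS hSr ha hb hab
      have h3 : ((colS hr S g : Finset ℕ → k), prB (resB ρ) (alS n S) (ρ (trG g) v)) ∈ R S := by
        refine ⟨e2mem _ _, fun x => ?_⟩
        have h4 : trG (trG g) = g := by
          apply Subtype.ext
          simp [trG]
        have h5 := hB S hS hSr x (trG g)
        rw [h4] at h5
        exact h5
      rcases hg with hg | hg
      · exact ⟨_, h3, hg⟩
      · refine ⟨_, Submodule.neg_mem _ h3, ?_⟩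
        change -(colS hr S g) = pt k a b
        rw [hg, neg_neg]
    obtain ⟨⟨h', l⟩, h3, h4⟩ := h2 h1
    have h5 : h' = h := h4
    subst h5
    exact ⟨l, h3⟩
  · -- every l in the weight space is related to something in PP
    intro l hl
    let Q : Submodule k L :=
      { carrier := {m | ∃ h ∈ PP k (ZS n S) (r - S.card), ∀ x,
          η (ρ x (prB (resB ρ) (alS n S) m)) =
            ∑ T ∈ (ZS n S).powersetCard (r - S.card), h T * colS hr S x T}
        add_mem' := by
          rintro a b ⟨h1, hh1, ha⟩ ⟨h2, hh2, hb⟩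
          refine ⟨h1 + h2, Submodule.add_mem _ hh1 hh2, fun x => ?_⟩
          rw [e2add, map_add, map_add, ha, hb, ← Finset.sum_add_distrib]
          refine Finset.sum_congr rfl fun T _ => ?_
          rw [Pi.add_apply, add_mul]
        zero_mem' := by
          refine ⟨0, Submodule.zero_mem _, fun x => ?_⟩
          have h0 : prB (resB ρ) (alS n S) (0 : L) = 0 := by
            have := e2smul (alS n S) (0 : k) (0 : L)
            rwa [zero_smul, zero_smul] at this
          rw [h0]
          simp
        smul_mem' := by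
          rintro c a ⟨h1, hh1, ha⟩
          refine ⟨c • h1, Submodule.smul_mem _ c hh1, fun x => ?_⟩
          rw [e2smul, map_smul, map_smul, ha, smul_eq_mul, Finset.mul_sum]
          refine Finset.sum_congr rfl fun T _ => ?_
          rw [Pi.smul_apply, smul_eq_mul, mul_assoc] }
    have hQ : (⊤ : Submodule k L) ≤ Q := by
      rw [← hspan, Submodule.span_le]
      rintro _ ⟨g, rfl⟩
      exact ⟨colS hr S (trG g), hM7 k n r hr S (trG g) hS hSr, fun x => hB S hS hSr x g⟩
    obtain ⟨h, hh, hx⟩ := hQ (Submodule.mem_top : l ∈ (⊤ : Submodule k L))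
    refine ⟨h, hh, hl, fun x => ?_⟩
    have h1 : prB (resB ρ) (alS n S) l = l := e2id _ _ hl
    have h2 := hx x
    rw [h1] at h2
    exact h2
  · -- separation
    intro l hl
    apply hsep
    intro g
    rw [hl.2 g]
    apply Finset.sum_eq_zero
    intro T _
    simp
  · -- the radical
    intro h
    constructor
    · intro hh h' hh'
      have h1 := hM8 k (ZS n S) (r - S.card) (m13_card n r hr S hS hSr) hh'
      have h0 : ∀ x, frm (ZS n S) (r - S.card) h (colS hr S x) = 0 := by
        intro x
        have h2 := hh.2 x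
        simp only [map_zero] at h2
        exact h2.symm
      induction h1 using Submodule.span_induction with
      | mem F hF =>
        obtain ⟨a, b, ha, hb, hab, rfl⟩ := hF
        obtain ⟨g, hg⟩ := hM10 k n r hr S a b hS hSr ha hb hab
        rcases hg with hg | hg
        · rw [← hg]
          exact h0 g
        · have h3 : pt k a b = (-1 : k) • colS hr S g := by
            rw [hg]
            simp
          rw [h3, m13_frm_smul, h0, mul_zero]
      | zero => simp [frm]
      | add F G hF hG hF' hG' =>
        rw [m13_frm_add]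
        have e : ∀ F ∈ Submodule.span k {h | ∃ a b : Fin (r - S.card) → ℕ, (∀ l, a l ∈ ZS n S) ∧
            (∀ l, b l ∈ ZS n S) ∧ Function.Injective (Sum.elim a b) ∧ h = pt k a b},
            frm (ZS n S) (r - S.card) h F = 0 := by
          intro F hF
          induction hF using Submodule.span_induction with
          | mem F hF =>
            obtain ⟨a, b, ha, hb, hab, rfl⟩ := hF
            obtain ⟨g, hg⟩ := hM10 k n r hr S a b hS hSr ha hb hab
            rcases hg with hg | hg
            · rw [← hg]
              exact h0 g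
            · have h3 : pt k a b = (-1 : k) • colS hr S g := by
                rw [hg]
                simp
              rw [h3, m13_frm_smul, h0, mul_zero]
          | zero => simp [frm]
          | add F G _ _ hF hG => rw [m13_frm_add, hF, hG, add_zero]
          | smul c F _ hF => rw [m13_frm_smul, hF, mul_zero]
        rw [e F hF, e G hG, add_zero]
      | smul c F hF hF' =>
        have e : ∀ F ∈ Submodule.span k {h | ∃ a b : Fin (r - S.card) → ℕ, (∀ l, a l ∈ ZS n S) ∧
            (∀ l, b l ∈ ZS n S) ∧ Function.Injective (Sum.elim a b) ∧ h = pt k a b},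
            frm (ZS n S) (r - S.card) h F = 0 := by
          intro F hF
          induction hF using Submodule.span_induction with
          | mem F hF =>
            obtain ⟨a, b, ha, hb, hab, rfl⟩ := hF
            obtain ⟨g, hg⟩ := hM10 k n r hr S a b hS hSr ha hb hab
            rcases hg with hg | hg
            · rw [← hg]
              exact h0 g
            · have h3 : pt k a b = (-1 : k) • colS hr S g := by
                rw [hg]
                simp
              rw [h3, m13_frm_smul, h0, mul_zero]
          | zero => simp [frm]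
          | add F G _ _ hF hG => rw [m13_frm_add, hF, hG, add_zero]
          | smul c F _ hF => rw [m13_frm_smul, hF, mul_zero]
        rw [m13_frm_smul, e F hF, mul_zero]
    · intro hh
      refine ⟨Submodule.zero_mem _, fun x => ?_⟩
      have h1 := hh (colS hr S x) (hM7 k n r hr S x hS hSr)
      simp only [map_zero]
      exact h1.symm
  · -- raising operators
    intro h l i hl hi hNA hc
    have hin : i + 1 < n := hNA.1 i (Finset.mem_insert_self _ _)
    have hcard : (insert i S).card = S.card + 1 := Finset.card_insert_of_notMem hi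
    have hal : alS n (insert i S) = alS n S + al n i := by
      unfold alS
      rw [Finset.sum_insert hi, add_comm]
    refine ⟨?_, fun x => ?_⟩
    · rw [hal]
      exact e3wt i (alS n S) l hin hl.1
    · have hF : (fun s : k => resB ρ (xB i s) l) ∈ RM k k L := m13_pull _ (e2x i) _ (hρB l)
      have h1 := e1cfl (fun s : k => resB ρ (xB i s) l) (η ∘ₗ ρ x) 1 hF
      change η (ρ x (cf 1 (fun s : k => resB ρ (xB i s) l))) = _
      have h2 : η (ρ x (cf 1 (fun s : k => resB ρ (xB i s) l))) =
          (η ∘ₗ ρ x) (cf 1 (fun s : k => resB ρ (xB i s) l)) := rfl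
      rw [h2, ← h1]
      set A : k := ∑ T ∈ (ZS n S).powersetCard (r - S.card), h T *
        MM hr x ((TH k n S * OM k n T : CE k n) : EA k n) with hAdef
      set B : k := ∑ T ∈ (ZS n (insert i S)).powersetCard (r - S.card - 1), cap i h T *
        MM hr x ((TH k n (insert i S) * OM k n T : CE k n) : EA k n) with hBdef
      have h3 : (fun s : k => (η ∘ₗ ρ x) (resB ρ (xB i s) l)) =
          fun s : k => (Finsupp.single 0 A + Finsupp.single 1 B : ℕ →₀ k).sum
            fun i m => s ^ i • m := by
        funext s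
        have h4 : (η ∘ₗ ρ x) (resB ρ (xB i s) l) = η (ρ (x * xs i s) l) := by
          rw [map_mul]
          rfl
        rw [h4, hl.2 (x * xs i s)]
        have h5 : ∑ T ∈ (ZS n S).powersetCard (r - S.card), h T * colS hr S (x * xs i s) T =
            ∑ T ∈ (ZS n S).powersetCard (r - S.card), h T *
              MM hr (x * xs i s) ((TH k n S * OM k n T : CE k n) : EA k n) := by
          refine Finset.sum_congr rfl fun T hT => ?_
          rw [m13_colS hr S _ T hT]
        rw [h5, hM12 k n (2 * r) hr S i (r - S.card) h s x hi hNA (by omega), ← hAdef, ← hBdef]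
        rw [Finsupp.sum_add_index' (by simp) (by intros; rw [smul_add]), Finsupp.sum_single_index (by simp),
          Finsupp.sum_single_index (by simp)]
        simp
      rw [h3, e1cf]
      have h6 : (Finsupp.single 0 A + Finsupp.single 1 B : ℕ →₀ k) 1 = B := by
        simp
      rw [h6, hBdef]
      have h7 : r - S.card - 1 = r - (insert i S).card := by omega
      rw [h7]
      refine Finset.sum_congr rfl fun T hT => ?_
      rw [m13_colS hr (insert i S) x T hT]

end Pool.Agent.Sp49
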