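import Pool.Agent.Lib.MP_49c83e_al.StmG

/-!
MP_49c83e_al, piece M14: conclusion.
-/

namespace Pool.Agent.Sp49

open scoped BigOperators
open Matrix

/-! ### combinatorics of non-adjacent sets -/

theorem m14_NA1 {n i : ℕ} (hi : i + 1 < n) : NA n {i} := by
  refine ⟨fun a ha => ?_, fun a ha b hb => ?_⟩
  · rw [Finset.mem_singleton] at ha
    omega
  · rw [Finset.mem_singleton] at ha hb
    left
    omega

theorem m14_NA2 {n i j : ℕ} (hij : i + 2 ≤ j) (hj : j + 1 < n) : NA n {i, j} := by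
  refine ⟨fun a ha => ?_, fun a ha b hb => ?_⟩
  · simp only [Finset.mem_insert, Finset.mem_singleton] at ha
    omega
  · simp only [Finset.mem_insert, Finset.mem_singleton] at ha hb
    omega

theorem m14_NA3 {n i j l : ℕ} (hij : i + 2 ≤ j) (hjl : j + 2 ≤ l) (hl : l + 1 < n) :
    NA n {i, j, l} := by
  refine ⟨fun a ha => ?_, fun a ha b hb => ?_⟩
  · simp only [Finset.mem_insert, Finset.mem_singleton] at ha
    omega
  · simp only [Finset.mem_insert, Finset.mem_singleton] at ha hb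
    omega

theorem m14_ZS1 (n i : ℕ) : ZS n {i} = Z1 n i := by
  ext a
  simp [ZS, Z1]

theorem m14_ZS2 (n i j : ℕ) : ZS n {i, j} = Z2 n i j := by
  ext a
  simp only [ZS, Z2, Finset.mem_sdiff, Finset.mem_range, Finset.mem_union, Finset.mem_insert,
    Finset.mem_singleton, Finset.mem_image]
  constructor
  · rintro ⟨h1, h2⟩
    refine ⟨h1, fun h3 => h2 ?_⟩
    rcases h3 with h | h | h | h
    · exact Or.inl (Or.inl h)
    · exact Or.inr ⟨i, Or.inl rfl, h.symm⟩
    · exact Or.inl (Or.inr h)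
    · exact Or.inr ⟨j, Or.inr rfl, h.symm⟩
  · rintro ⟨h1, h2⟩
    refine ⟨h1, fun h3 => h2 ?_⟩
    rcases h3 with (h | h) | ⟨b, hb | hb, h⟩
    · exact Or.inl h
    · exact Or.inr (Or.inr (Or.inl h))
    · exact Or.inr (Or.inl (by omega))
    · exact Or.inr (Or.inr (Or.inr (by omega)))

theorem m14_ZS3 (n i j l : ℕ) : ZS n {i, j, l} = Z3 n i j l := by
  ext a
  simp only [ZS, Z3, Finset.mem_sdiff, Finset.mem_range, Finset.mem_union, Finset.mem_insert,
    Finset.mem_singleton, Finset.mem_image]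
  constructor
  · rintro ⟨h1, h2⟩
    refine ⟨h1, fun h3 => h2 ?_⟩
    rcases h3 with h | h | h | h | h | h
    · exact Or.inl (Or.inl h)
    · exact Or.inr ⟨i, Or.inl rfl, h.symm⟩
    · exact Or.inl (Or.inr (Or.inl h))
    · exact Or.inr ⟨j, Or.inr (Or.inl rfl), h.symm⟩
    · exact Or.inl (Or.inr (Or.inr h))
    · exact Or.inr ⟨l, Or.inr (Or.inr rfl), h.symm⟩
  · rintro ⟨h1, h2⟩
    refine ⟨h1, fun h3 => h2 ?_⟩
    rcases h3 with (h | h | h) | ⟨b, hb | hb | hb, h⟩
    · exact Or.inl h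
    · exact Or.inr (Or.inr (Or.inl h))
    · exact Or.inr (Or.inr (Or.inr (Or.inr (Or.inl h))))
    · exact Or.inr (Or.inl (by omega))
    · exact Or.inr (Or.inr (Or.inr (Or.inl (by omega))))
    · exact Or.inr (Or.inr (Or.inr (Or.inr (Or.inr (by omega)))))

theorem m14_alS1 (n i : ℕ) : alS n {i} = al n i := by
  simp [alS]

theorem m14_alS2 (n i j : ℕ) (h : i ≠ j) : alS n {i, j} = al n i + al n j := by
  simp [alS, Finset.sum_pair h]

theorem m14_card2 {i j : ℕ} (h : i ≠ j) : ({i, j} : Finset ℕ).card = 2 :=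
  Finset.card_pair h

theorem m14_card3 {i j l : ℕ} (h1 : i ≠ j) (h2 : i ≠ l) (h3 : j ≠ l) :
    ({i, j, l} : Finset ℕ).card = 3 := by
  rw [Finset.card_insert_of_notMem (by simp [h1, h2]), Finset.card_pair h3]

/-! ### linear algebra: the rank of the quotient -/

theorem m14_rank {k V : Type} [Field k] [AddCommGroup V] [Module k V] (Z B : Submodule k V)
    (h : Le1 Z B) : Module.rank k (↥Z ⧸ B.submoduleOf Z) ≤ 1 := by
  rw [rank_le_one_iff]
  by_cases h0 : ∀ v : ↥Z ⧸ B.submoduleOf Z, v = 0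
  · exact ⟨0, fun v => ⟨0, by rw [h0 v, smul_zero]⟩⟩
  · push Not at h0
    obtain ⟨v₀, hv₀⟩ := h0
    refine ⟨v₀, fun v => ?_⟩
    obtain ⟨a, rfl⟩ := Submodule.Quotient.mk_surjective _ v₀
    obtain ⟨b, rfl⟩ := Submodule.Quotient.mk_surjective _ v
    obtain ⟨c, c', hc, hB⟩ := h a a.2 b b.2
    have h1 : c • (Submodule.Quotient.mk a : ↥Z ⧸ B.submoduleOf Z) +
        c' • Submodule.Quotient.mk b = 0 := by
      rw [← Submodule.Quotient.mk_smul, ← Submodule.Quotient.mk_smul,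
        ← Submodule.Quotient.mk_add, Submodule.Quotient.mk_eq_zero]
      exact hB
    have hc' : c' ≠ 0 := by
      intro h2
      rw [h2, zero_smul, add_zero] at h1
      rcases hc with h3 | h3
      · exact hv₀ ((smul_eq_zero.1 h1).resolve_left h3)
      · exact h3 h2
    refine ⟨-(c'⁻¹ * c), ?_⟩
    have h2 : (Submodule.Quotient.mk b : ↥Z ⧸ B.submoduleOf Z) =
        c'⁻¹ • (c' • Submodule.Quotient.mk b) := by
      rw [smul_smul, inv_mul_cancel₀ hc', one_smul]
    have h3 : c' • (Submodule.Quotient.mk b : ↥Z ⧸ B.submoduleOf Z) =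
        -(c • Submodule.Quotient.mk a) := by
      rw [eq_neg_iff_add_eq_zero, add_comm]
      exact h1
    rw [h2, h3, smul_neg, smul_smul, neg_smul]

/-! ### the choice of the cochain z -/

section Z

variable {k : Type} [Field k] {n r : ℕ} {L : Type} [AddCommGroup L] [Module k L]

/-- restriction of a 2-cochain to the Borel subgroup -/
def m14_res (f : SpG k n × SpG k n → L) : Bo k n × Bo k n → L :=
  fun q : Bo k n × Bo k n => f ((q.1 : SpG k n), (q.2 : SpG k n))

theorem m14_wt (ρ : Representation k (SpG k n) L) (μ : Fin n → ℤ) (l : L) :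
    l ∈ wtB (resB ρ) μ ↔ l ∈ wtG ρ μ := Iff.rfl

/-- the package of properties of the relation R -/
def m14_P (r : ℕ) (ρ : Representation k (SpG k n) L)
    (R : Finset ℕ → Submodule k ((Finset ℕ → k) × L)) : Prop :=
  ∀ S : Finset ℕ, NA n S → S.card ≤ r →
      (∀ h l, (h, l) ∈ R S → l ∈ wtG ρ (alS n S)) ∧
      (∀ h ∈ PP k (ZS n S) (r - S.card), ∃ l, (h, l) ∈ R S) ∧
      (∀ l ∈ wtG ρ (alS n S), ∃ h ∈ PP k (ZS n S) (r - S.card), (h, l) ∈ R S) ∧
      (∀ l, (0, l) ∈ R S → l = 0) ∧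
      (∀ h, (h, 0) ∈ R S ↔ ∀ h' ∈ PP k (ZS n S) (r - S.card),
        frm (ZS n S) (r - S.card) h h' = 0) ∧
      (∀ h l i, (h, l) ∈ R S → i ∉ S → NA n (insert i S) → S.card + 1 ≤ r →
        (cap i h, Eo (resB ρ) i l) ∈ R (insert i S))

theorem m14_choose (ρ : Representation k (SpG k n) L)
    (R : Finset ℕ → Submodule k ((Finset ℕ → k) × L)) (hR : m14_P r ρ R) (hr2 : 2 ≤ r)
    (F : ℕ → ℕ → L) (hF : ∀ i j, i + 2 ≤ j → j + 1 < n → F i j ∈ wtG ρ (al n i + al n j))
    (hF3 : ∀ i j l, i + 2 ≤ j → j + 2 ≤ l → l + 1 < n →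
      Eo (resB ρ) i (F j l) - Eo (resB ρ) j (F i l) + Eo (resB ρ) l (F i j) = 0) :
    ∃ z : ℕ → ℕ → Finset ℕ → k, Coch2 n r z ∧ Cocy2 n r z ∧
      ∀ i j, i + 2 ≤ j → j + 1 < n → (z i j, F i j) ∈ R {i, j} := by
  classical
  have h1 : ∀ i j, ∃ h : Finset ℕ → k, i + 2 ≤ j → j + 1 < n →
      h ∈ PP k (Z2 n i j) (r - 2) ∧ (h, F i j) ∈ R {i, j} := by
    intro i j
    by_cases hij : i + 2 ≤ j
    · by_cases hj : j + 1 < n
      · have hne : i ≠ j := by omega
        have hc := m14_card2 hne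
        obtain ⟨-, -, h3, -, -, -⟩ := hR {i, j} (m14_NA2 hij hj) (by rw [hc]; exact hr2)
        obtain ⟨h, hh, hh2⟩ := h3 (F i j) (by rw [m14_alS2 n i j hne]; exact hF i j hij hj)
        rw [hc, m14_ZS2] at hh
        exact ⟨h, fun _ _ => ⟨hh, hh2⟩⟩
      · exact ⟨0, fun _ h => absurd h hj⟩
    · exact ⟨0, fun h => absurd h hij⟩
  choose z hz using h1
  refine ⟨z, fun i j hij hj => (hz i j hij hj).1, ?_, fun i j hij hj => (hz i j hij hj).2⟩
  intro i j l hij hjl hl h hh
  by_cases hr3 : 3 ≤ r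
  · have n1 : i ≠ j := by omega
    have n2 : i ≠ l := by omega
    have n3 : j ≠ l := by omega
    have e1 : insert i ({j, l} : Finset ℕ) = {i, j, l} := rfl
    have e2 : insert j ({i, l} : Finset ℕ) = {i, j, l} := Finset.insert_comm _ _ _
    have e3 : insert l ({i, j} : Finset ℕ) = {i, j, l} := by
      rw [Finset.insert_comm, Finset.pair_comm l j]
    have hNA := m14_NA3 hij hjl hl
    have a1 : (cap i (z j l), Eo (resB ρ) i (F j l)) ∈ R {i, j, l} := by
      obtain ⟨-, -, -, -, -, h6⟩ := hR {j, l} (m14_NA2 hjl hl)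
        (by rw [m14_card2 n3]; omega)
      have := h6 (z j l) (F j l) i (hz j l hjl hl).2 (by simp [n1, n2]) (by rw [e1]; exact hNA)
        (by rw [m14_card2 n3]; exact hr3)
      rw [e1] at this
      exact this
    have a2 : (cap j (z i l), Eo (resB ρ) j (F i l)) ∈ R {i, j, l} := by
      have hil : i + 2 ≤ l := by omega
      obtain ⟨-, -, -, -, -, h6⟩ := hR {i, l} (m14_NA2 hil hl)
        (by rw [m14_card2 n2]; omega)
      have := h6 (z i l) (F i l) j (hz i l hil hl).2 (by simp [n1.symm, n3])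
        (by rw [e2]; exact hNA) (by rw [m14_card2 n2]; exact hr3)
      rw [e2] at this
      exact this
    have a3 : (cap l (z i j), Eo (resB ρ) l (F i j)) ∈ R {i, j, l} := by
      have hj : j + 1 < n := by omega
      obtain ⟨-, -, -, -, -, h6⟩ := hR {i, j} (m14_NA2 hij hj)
        (by rw [m14_card2 n1]; omega)
      have := h6 (z i j) (F i j) l (hz i j hij hj).2 (by simp [n2.symm, n3.symm])
        (by rw [e3]; exact hNA) (by rw [m14_card2 n1]; exact hr3)
      rw [e3] at this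
      exact this
    have a4 : (cap i (z j l) - cap j (z i l) + cap l (z i j), (0 : L)) ∈ R {i, j, l} := by
      have := (R {i, j, l}).add_mem ((R {i, j, l}).sub_mem a1 a2) a3
      rw [Prod.mk_sub_mk, Prod.mk_add_mk, hF3 i j l hij hjl hl] at this
      exact this
    obtain ⟨-, -, -, -, h5, -⟩ := hR {i, j, l} hNA (by rw [m14_card3 n1 n2 n3]; exact hr3)
    rw [m14_card3 n1 n2 n3, m14_ZS3] at h5
    exact (h5 _).1 a4 h hh
  · have hr : r = 2 := by omega
    subst hr
    have key : ∀ a b c : ℕ, a + 2 ≤ b → b + 1 < n → cap c (z a b) ∅ = 0 := by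
      intro a b c hab hb
      have hm := (hz a b hab hb).1
      have hs : ∀ x : ℕ, z a b (insert x (∅ : Finset ℕ)) = 0 := by
        intro x
        by_contra hne
        have := (hm.1 _ hne).2
        simp at this
      unfold cap
      rw [hs, hs]
      simp
    unfold frm
    rw [Finset.powersetCard_zero, Finset.sum_singleton]
    simp only [Pi.add_apply, Pi.sub_apply]
    rw [key j l i hjl hl, key i l j (by omega) hl, key i j l hij (by omega)]
    simp

end Z

theorem p_M14 : S_M14 := by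
  intro _ _ hE3 hE4 hE5 hE13 hG6 hM2 hM3 hM13 _ _ hIII k _ _ p _ _ n j _ hjn L _ _ ρ hρ hirr hHW
  have hinf : Infinite k := IsAlgClosed.instInfinite
  obtain ⟨v, hv0, hvw, hvU⟩ := hHW
  obtain ⟨hfin, hspan, η, hη, hsep⟩ := hG6 k n j hjn L ρ hρ hirr v hv0 hvw hvU
  have hw2 := hM2 k n j hjn L ρ v η hspan hη hsep
  have hsmall : ∀ μ, wtG ρ μ ≠ ⊥ → ∀ i, μ i = 0 ∨ μ i = 1 ∨ μ i = -1 := by
    intro μ hμ i
    obtain ⟨w, hw, rfl⟩ := hw2 μ hμ
    exact (hM3 n j w hw).1 i
  obtain ⟨hBr, hB13⟩ := hE13 k n L ρ hρ hsmall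
  obtain ⟨p2add, p2smul, -, -, -, -, -, -, p2wt, -⟩ := hE4 k n L L (resB ρ) (resB ρ) hBr hBr
  obtain ⟨Eadd, Esmul, -, -, -, -, -⟩ := hE3 k n L L (resB ρ) (resB ρ) hBr hBr
  refine m14_rank _ _ ?_
  intro f hf f' hf'
  by_cases hj : 4 ≤ j ∧ Even j
  · obtain ⟨hj4, r, hr⟩ := hj
    have hjr : j = 2 * r := by omega
    subst hjr
    have hr2 : 2 ≤ r := by omega
    obtain ⟨R, hR⟩ := hM13 k n r hjn L ρ hρ v η hspan hη hsep
    have hRP : m14_P r ρ R := hR
    have hch : ∀ g ∈ Zc2 ρ, ∃ z : ℕ → ℕ → Finset ℕ → k, Coch2 n r z ∧ Cocy2 n r z ∧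
        ∀ i j, i + 2 ≤ j → j + 1 < n → (z i j, ph2 (resB ρ) i j (m14_res g)) ∈ R {i, j} := by
      intro g hg
      refine m14_choose ρ R hRP hr2 (fun i j => ph2 (resB ρ) i j (m14_res g)) ?_ ?_
      · intro i j _ _
        exact p2wt i j _
      · intro i j l hij hjl hl
        exact hE5 k n L (resB ρ) hBr (m14_res g) (hB13 g hg).1 i j l hij hjl hl
    obtain ⟨z, hz1, hz2, hz3⟩ := hch f hf
    obtain ⟨z', hz1', hz2', hz3'⟩ := hch f' hf'
    obtain ⟨c, c', hcc, y, hy1, hy2⟩ := hIII k p n r hr2 hjn z z' hz1 hz1' hz2 hz2'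
    refine ⟨c, c', hcc, ?_⟩
    have hcf : c • f + c' • f' ∈ Zc2 ρ :=
      (Zc2 ρ).add_mem ((Zc2 ρ).smul_mem _ hf) ((Zc2 ρ).smul_mem _ hf')
    refine (hB13 _ hcf).2 ?_
    -- the vectors l_i
    have hl : ∀ i, ∃ l : L, i + 1 < n → (y i, l) ∈ R {i} := by
      intro i
      by_cases hi : i + 1 < n
      · obtain ⟨-, h2, -, -, -, -⟩ := hRP {i} (m14_NA1 hi) (by simp; omega)
        rw [Finset.card_singleton, m14_ZS1] at h2
        obtain ⟨l, hl⟩ := h2 (y i) (hy1 i hi)
        exact ⟨l, fun _ => hl⟩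
      · exact ⟨0, fun h => absurd h hi⟩
    choose l hl using hl
    refine ⟨l, fun i hi => ?_, fun i j hij hj => ?_⟩
    · obtain ⟨h1, -, -, -, -, -⟩ := hRP {i} (m14_NA1 hi) (by simp; omega)
      have := h1 _ _ (hl i hi)
      rw [m14_alS1] at this
      exact this
    · have hi : i + 1 < n := by omega
      have hne : i ≠ j := by omega
      have hNA := m14_NA2 hij hj
      have e1 : insert i ({j} : Finset ℕ) = {i, j} := rfl
      have e2 : insert j ({i} : Finset ℕ) = {i, j} := Finset.pair_comm j i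
      have a1 : (cap i (y j), Eo (resB ρ) i (l j)) ∈ R {i, j} := by
        obtain ⟨-, -, -, -, -, h6⟩ := hRP {j} (m14_NA1 hj) (by simp; omega)
        have := h6 (y j) (l j) i (hl j hj) (by simp [hne]) (by rw [e1]; exact hNA)
          (by rw [Finset.card_singleton]; exact hr2)
        rw [e1] at this
        exact this
      have a2 : (cap j (y i), Eo (resB ρ) j (l i)) ∈ R {i, j} := by
        obtain ⟨-, -, -, -, -, h6⟩ := hRP {i} (m14_NA1 hi) (by simp; omega)
        have := h6 (y i) (l i) j (hl i hi) (by simp [hne.symm]) (by rw [e2]; exact hNA)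
          (by rw [Finset.card_singleton]; exact hr2)
        rw [e2] at this
        exact this
      obtain ⟨-, -, -, h4, h5, -⟩ := hRP {i, j} hNA (by rw [m14_card2 hne]; exact hr2)
      rw [m14_card2 hne, m14_ZS2] at h5
      have a3 : (c • z i j + c' • z' i j - (cap i (y j) - cap j (y i)), (0 : L)) ∈ R {i, j} :=
        (h5 _).2 (hy2 i j hij hj)
      have a4 : (c • z i j + c' • z' i j - (cap i (y j) - cap j (y i)),
          c • ph2 (resB ρ) i j (m14_res f) + c' • ph2 (resB ρ) i j (m14_res f') -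
            (Eo (resB ρ) i (l j) - Eo (resB ρ) j (l i))) ∈ R {i, j} := by
        have := (R {i, j}).sub_mem ((R {i, j}).add_mem
          ((R {i, j}).smul_mem c (hz3 i j hij hj)) ((R {i, j}).smul_mem c' (hz3' i j hij hj)))
          ((R {i, j}).sub_mem a1 a2)
        simpa only [Prod.smul_mk, Prod.mk_add_mk, Prod.mk_sub_mk] using this
      have a5 := (R {i, j}).sub_mem a4 a3
      rw [Prod.mk_sub_mk, sub_self, sub_zero] at a5
      have a6 := h4 _ a5
      have hfm : m14_res f ∈ RM k (Bo k n × Bo k n) L := ((hB13 f hf).1).1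
      have hfm' : m14_res f' ∈ RM k (Bo k n × Bo k n) L := ((hB13 f' hf').1).1
      have e3 : (fun q : Bo k n × Bo k n => (c • f + c' • f') ((q.1 : SpG k n), (q.2 : SpG k n))) =
          c • m14_res f + c' • m14_res f' := rfl
      rw [e3, p2add i j _ _ ((RM k (Bo k n × Bo k n) L).smul_mem c hfm)
        ((RM k (Bo k n × Bo k n) L).smul_mem c' hfm'), p2smul i j c _ hfm, p2smul i j c' _ hfm']
      exact sub_eq_zero.1 a6
  · refine ⟨1, 0, Or.inl one_ne_zero, ?_⟩
    have hcf : (1 : k) • f + (0 : k) • f' ∈ Zc2 ρ :=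
      (Zc2 ρ).add_mem ((Zc2 ρ).smul_mem _ hf) ((Zc2 ρ).smul_mem _ hf')
    refine (hB13 _ hcf).2 ⟨fun _ => 0, fun i _ => Submodule.zero_mem _, fun i i' hii hi' => ?_⟩
    have hE0 : ∀ a, Eo (resB ρ) a (0 : L) = 0 := by
      intro a
      have := Esmul a 0 0
      rw [zero_smul, zero_smul] at this
      exact this
    rw [hE0, hE0, sub_zero]
    have h1 := p2wt i i' (m14_res ((1 : k) • f + (0 : k) • f'))
    rw [m14_wt] at h1
    have h2 : wtG ρ (al n i + al n i') = ⊥ := by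
      by_contra h3
      obtain ⟨w, hw, hw2⟩ := hw2 _ h3
      exact hj ((hM3 n j w hw).2 i i' hii hi' hw2.symm)
    rw [h2, Submodule.mem_bot] at h1
    exact h1

end Pool.Agent.Sp49
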