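import Pool.Agent.Lib.MP_49c83e_al.StmG

/-!
MP_49c83e_al, piece M2: the weights of L.
-/

namespace Pool.Agent.Sp49

open scoped BigOperators
open Matrix

private theorem m2_exp (hM1 : S_M1) {k : Type} [Field k] {n j : ℕ} (hj : j ≤ n) {L : Type}
    [AddCommGroup L] [Module k L] (ρ : Representation k (SpG k n) L) (v : L) (η : L →ₗ[k] k)
    (hspan : Submodule.span k (Set.range fun g => ρ g v) = ⊤) (hη : ∀ g, η (ρ g v) = dj hj g)
    (x : SpG k n) (l : L) :
    ∃ a : (Fin j → Fin n ⊕ Fin n) → k, (∀ w, ¬ Function.Injective w → a w = 0) ∧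
      ∀ t : Fin n → kˣ, η (ρ x (ρ (tor t) l)) = ∑ w, a w * chT (∑ b, wtv (w b)) t := by
  have hl : l ∈ Submodule.span k (Set.range fun g => ρ g v) := by
    rw [hspan]
    exact Submodule.mem_top
  induction hl using Submodule.span_induction with
  | mem l hl =>
    obtain ⟨g, rfl⟩ := hl
    let w0 : Fin j → Fin n ⊕ Fin n := fun b => Sum.inl (Fin.castLE hj b)
    refine ⟨fun w => (∏ b, ent g (w b) (w0 b)) * mn hj x w, ?_, ?_⟩
    · intro w hw
      have h1 := (hM1 k n j hj x g w).2.2.1 hw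
      show (∏ b, ent g (w b) (w0 b)) * mn hj x w = 0
      rw [h1, mul_zero]
    · intro t
      have h1 : ρ x (ρ (tor t) (ρ g v)) = ρ (x * tor t * g) v := by
        rw [map_mul, map_mul]
        rfl
      have h2 : η (ρ (x * tor t * g) v) = mn hj (x * tor t * g) w0 := hη _
      have h3 := (hM1 k n j hj (x * tor t) g w0).1
      show η (ρ x (ρ (tor t) (ρ g v))) = _
      rw [h1, h2, h3]
      refine Finset.sum_congr rfl fun w _ => ?_
      have h4 := (hM1 k n j hj x g w).2.1 t
      rw [h4]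
      ring
  | zero =>
    refine ⟨fun _ => 0, fun _ _ => rfl, fun t => ?_⟩
    simp
  | add l l' _ _ ih ih' =>
    obtain ⟨a, ha, ha'⟩ := ih
    obtain ⟨b, hb, hb'⟩ := ih'
    refine ⟨fun w => a w + b w, fun w hw => by
      show a w + b w = 0
      rw [ha w hw, hb w hw, add_zero], fun t => ?_⟩
    rw [map_add, map_add, map_add, ha' t, hb' t, ← Finset.sum_add_distrib]
    exact Finset.sum_congr rfl fun w _ => by ring
  | smul c l _ ih =>
    obtain ⟨a, ha, ha'⟩ := ih
    refine ⟨fun w => c * a w, fun w hw => by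
      show c * a w = 0
      rw [ha w hw, mul_zero], fun t => ?_⟩
    rw [map_smul, map_smul, map_smul, ha' t, smul_eq_mul, Finset.mul_sum]
    exact Finset.sum_congr rfl fun w _ => by ring

theorem p_M2 (hM1 : S_M1) (h13 : S_R13) : S_M2 := by
  intro k _ _ n j hj L _ _ ρ v η hspan hη hsep μ hμ
  by_contra hcon
  apply hμ
  rw [eq_bot_iff]
  intro l hl
  rw [Submodule.mem_bot]
  apply hsep
  intro x
  obtain ⟨a, ha, ha'⟩ := m2_exp hM1 hj ρ v η hspan hη x l
  classical
  let c : (Fin n → ℤ) →₀ k := Finsupp.single μ (η (ρ x l))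
  let c' : (Fin n → ℤ) →₀ k := ∑ w, Finsupp.single (∑ b, wtv (w b)) (a w)
  have hc : ∀ t : Fin n → kˣ, (c.sum fun ν m => chT ν t • m) = c'.sum fun ν m => chT ν t • m := by
    intro t
    have h1 : (c.sum fun ν m => chT ν t • m) = chT μ t * η (ρ x l) := by
      show (Finsupp.single μ (η (ρ x l))).sum (fun ν m => chT ν t • m) = _
      rw [Finsupp.sum_single_index (by simp)]
      rfl
    have h2 : (c'.sum fun ν m => chT ν t • m) = ∑ w, a w * chT (∑ b, wtv (w b)) t := by
      show (∑ w, Finsupp.single (∑ b, wtv (w b)) (a w) : (Fin n → ℤ) →₀ k).sum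
        (fun ν m => chT ν t • m) = _
      rw [← Finsupp.sum_finsetSum_index (by intro; simp) (by intro ν m m'; simp [mul_add])]
      refine Finset.sum_congr rfl fun w _ => ?_
      rw [Finsupp.sum_single_index (by simp), smul_eq_mul, mul_comm]
    rw [h1, h2, ← ha' t, hl t, map_smul, map_smul, smul_eq_mul]
  have hcc : c = c' := (h13 k n k).2.2 c c' hc
  have h3 : c μ = η (ρ x l) := by
    show (Finsupp.single μ (η (ρ x l)) : (Fin n → ℤ) →₀ k) μ = _
    rw [Finsupp.single_eq_same]
  have h4 : c' μ = 0 := by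
    show (∑ w, Finsupp.single (∑ b, wtv (w b)) (a w) : (Fin n → ℤ) →₀ k) μ = 0
    rw [Finsupp.finsetSum_apply]
    refine Finset.sum_eq_zero fun w _ => ?_
    by_cases hw : Function.Injective w
    · rw [Finsupp.single_apply, if_neg]
      intro h
      exact hcon ⟨w, hw, h.symm⟩
    · rw [ha w hw, Finsupp.single_zero]
      rfl
  rw [← h3, hcc, h4]

end Pool.Agent.Sp49
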