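import Pool.Agent.Lib.MP_49c83e_al.StmG

namespace Pool.Agent.Sp49

private theorem m3_apply {n : ℕ} (x : Fin n ⊕ Fin n) (i : Fin n) :
    wtv x i = (if x = Sum.inl i then (1 : ℤ) else 0) - (if x = Sum.inr i then (1 : ℤ) else 0) := by
  rcases x with a | a
  · by_cases h : i = a
    · subst h
      simp [wtv]
    · have h' : ¬ a = i := fun e => h e.symm
      simp [wtv, h, h']
  · by_cases h : i = a
    · subst h
      simp [wtv]
    · have h' : ¬ a = i := fun e => h e.symm
      simp [wtv, h, h']

private theorem m3_one {n j : ℕ} (w : Fin j → Fin n ⊕ Fin n) (hw : Function.Injective w)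
    (x : Fin n ⊕ Fin n) : (∑ b, if w b = x then (1 : ℤ) else 0) = 0 ∨
      (∑ b, if w b = x then (1 : ℤ) else 0) = 1 := by
  by_cases h : ∃ b, w b = x
  · obtain ⟨b, hb⟩ := h
    right
    rw [Finset.sum_eq_single b]
    · simp [hb]
    · intro c _ hc
      rw [if_neg]
      intro h
      exact hc (hw (h.trans hb.symm))
    · intro h
      exact absurd (Finset.mem_univ _) h
  · left
    apply Finset.sum_eq_zero
    intro b _
    rw [if_neg]
    intro h2
    exact h ⟨b, h2⟩

private theorem m3_al (n i : ℕ) (hi : i + 1 < n) : ∑ l, al n i l = 0 := by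
  have h1 : ∀ l : Fin n, al n i l = (if l = ⟨i, by omega⟩ then (1 : ℤ) else 0) -
      (if l = ⟨i + 1, hi⟩ then (1 : ℤ) else 0) := by
    intro l
    unfold al
    simp only [Fin.ext_iff]
    split_ifs <;> omega
  simp_rw [h1]
  rw [Finset.sum_sub_distrib]
  simp

private theorem m3_sum {n : ℕ} (x : Fin n ⊕ Fin n) : ∑ l, wtv x l = 1 ∨ ∑ l, wtv x l = -1 := by
  rcases x with a | a
  · left
    simp [wtv]
  · right
    simp [wtv]

theorem p_M3 : S_M3 := by
  intro n j w hw
  refine ⟨?_, ?_⟩
  · intro i
    have e : (∑ b, wtv (w b)) i = (∑ b, if w b = Sum.inl i then (1 : ℤ) else 0) -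
        (∑ b, if w b = Sum.inr i then (1 : ℤ) else 0) := by
      rw [Finset.sum_apply, ← Finset.sum_sub_distrib]
      exact Finset.sum_congr rfl fun b _ => m3_apply _ _
    rw [e]
    rcases m3_one w hw (Sum.inl i) with h | h <;> rcases m3_one w hw (Sum.inr i) with h' | h' <;>
      rw [h, h'] <;> simp
  · intro i i' h1 h2 h
    have hv : ∀ l, (∑ b, wtv (w b) l) = al n i l + al n i' l := by
      intro l
      rw [← Finset.sum_apply, h]
      rfl
    refine ⟨?_, ?_⟩
    · have v1 := hv ⟨i, by omega⟩
      have v2 := hv ⟨i + 1, by omega⟩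
      have v3 := hv ⟨i', by omega⟩
      have v4 := hv ⟨i' + 1, by omega⟩
      have a1 : al n i ⟨i, by omega⟩ + al n i' ⟨i, by omega⟩ = 1 := by
        unfold al
        have : ¬ i = i' := by omega
        have h3 : ¬ i = i' + 1 := by omega
        simp [this, h3]
      have a2 : al n i ⟨i + 1, by omega⟩ + al n i' ⟨i + 1, by omega⟩ = -1 := by
        unfold al
        have : ¬ i + 1 = i' := by omega
        have h3 : ¬ i = i' := by omega
        simp [this, h3]
      have a3 : al n i ⟨i', by omega⟩ + al n i' ⟨i', by omega⟩ = 1 := by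
        unfold al
        have : ¬ i' = i := by omega
        have h3 : ¬ i' = i + 1 := by omega
        simp [this, h3]
      have a4 : al n i ⟨i' + 1, by omega⟩ + al n i' ⟨i' + 1, by omega⟩ = -1 := by
        unfold al
        have : ¬ i' + 1 = i := by omega
        have h3 : ¬ i' = i := by omega
        simp [this, h3]
      rw [a1] at v1
      rw [a2] at v2
      rw [a3] at v3
      rw [a4] at v4
      have key : ∀ x : Fin n ⊕ Fin n, wtv x ⟨i, by omega⟩ - wtv x ⟨i + 1, by omega⟩ +
          wtv x ⟨i', by omega⟩ - wtv x ⟨i' + 1, by omega⟩ ≤ 1 := by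
        intro x
        rw [m3_apply, m3_apply, m3_apply, m3_apply]
        rcases x with a | a
        · simp only [Sum.inl.injEq, reduceCtorEq, if_false, sub_zero]
          simp only [Fin.ext_iff]
          split_ifs <;> omega
        · simp only [Sum.inr.injEq, reduceCtorEq, if_false, zero_sub]
          simp only [Fin.ext_iff]
          split_ifs <;> omega
      have s : ∑ b, (wtv (w b) ⟨i, by omega⟩ - wtv (w b) ⟨i + 1, by omega⟩ +
          wtv (w b) ⟨i', by omega⟩ - wtv (w b) ⟨i' + 1, by omega⟩) ≤ ∑ _b : Fin j, (1 : ℤ) :=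
        Finset.sum_le_sum fun b _ => key _
      rw [Finset.sum_sub_distrib, Finset.sum_add_distrib, Finset.sum_sub_distrib, v1, v2, v3, v4] at s
      simp at s
      omega
    · have e1 : ∑ b, ∑ l, wtv (w b) l = 0 := by
        rw [Finset.sum_comm]
        simp_rw [hv]
        rw [Finset.sum_add_distrib, m3_al n i (by omega), m3_al n i' (by omega)]
        rfl
      have e2 : (2 : ℤ) ∣ ∑ b : Fin j, (∑ l, wtv (w b) l - 1) := by
        apply Finset.dvd_sum
        intro b _
        rcases m3_sum (w b) with h | h <;> rw [h] <;> norm_num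
      rw [Finset.sum_sub_distrib, e1] at e2
      simp at e2
      rw [even_iff_two_dvd]
      exact_mod_cast e2

end Pool.Agent.Sp49
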