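import Pool.Agent.Lib.MP_49c83e_al.StmG

/-! [M4] Calculus of `q2`, `lam`, `X0`, `MM`. -/

namespace Pool.Agent.Sp49

open scoped BigOperators
open Matrix

section m4

variable {k : Type} [Field k] {n : ℕ}

private theorem m4_swap (u w : VV k n) :
    ExteriorAlgebra.ι k u * ExteriorAlgebra.ι k w = - (ExteriorAlgebra.ι k w * ExteriorAlgebra.ι k u) :=
  eq_neg_of_add_eq_zero_left (ExteriorAlgebra.ι_add_mul_swap (R := k) u w)

private theorem m4_q2_coe (u w : VV k n) :
    ((q2 u w : CE k n) : EA k n) = ExteriorAlgebra.ι k u * ExteriorAlgebra.ι k w := rfl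

private theorem m4_lam_ι (g : SpG k n) (u : VV k n) :
    lam g (ExteriorAlgebra.ι k u) = ExteriorAlgebra.ι k (act g u) :=
  ExteriorAlgebra.map_apply_ι _ _

private theorem m4_act_mul (g h : SpG k n) : act (g * h) = (act g) ∘ₗ (act h) := by
  unfold act
  rw [← Matrix.mulVecLin_mul]
  rfl

private theorem m4_act_one : act (1 : SpG k n) = LinearMap.id := by
  unfold act
  have : ((1 : SpG k n) : Matrix (Fin n ⊕ Fin n) (Fin n ⊕ Fin n) k) = 1 := rfl
  rw [this, Matrix.mulVecLin_one]

private theorem m4_lam_mul (g h : SpG k n) (y : EA k n) : lam (g * h) y = lam g (lam h y) := by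
  unfold lam
  rw [m4_act_mul, ← ExteriorAlgebra.map_comp_map]
  rfl

private theorem m4_lam_one (y : EA k n) : lam (1 : SpG k n) y = y := by
  unfold lam
  rw [m4_act_one, ExteriorAlgebra.map_id]
  rfl

private theorem m4_X0 {j : ℕ} (hj : j ≤ n) (w : Fin j → VV k n) :
    X0 hj (ExteriorAlgebra.ιMulti k j w) =
      Matrix.det (Matrix.of fun a b : Fin j => trc hj (w a) b) := by
  unfold X0
  rw [ExteriorAlgebra.liftAlternating_apply_ιMulti, Pi.single_eq_same]
  rfl

private theorem m4_X0_ne {j i : ℕ} (hj : j ≤ n) (h : i ≠ j) (w : Fin i → VV k n) :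
    X0 hj (ExteriorAlgebra.ιMulti k i w) = 0 := by
  unfold X0
  rw [ExteriorAlgebra.liftAlternating_apply_ιMulti, Pi.single_eq_of_ne h]
  rfl

private theorem m4_MM {j : ℕ} (hj : j ≤ n) (x : SpG k n) (w : Fin j → Fin n ⊕ Fin n) :
    MM hj x (ExteriorAlgebra.ιMulti k j (fun b => bv (w b))) = mn hj x w := by
  unfold MM lam
  rw [ExteriorAlgebra.map_apply_ιMulti, m4_X0]
  unfold mn
  rw [← Matrix.det_transpose]
  congr 1
  ext a b
  simp only [Matrix.transpose_apply, Matrix.of_apply, Function.comp]
  unfold trc act bv ent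
  simp

private theorem m4_X0_right {j : ℕ} (hj : j ≤ n) (y : EA k n) (v : VV k n) (hv : trc hj v = 0) :
    X0 hj (y * ExteriorAlgebra.ι k v) = 0 := by
  have key : (X0 hj).comp (LinearMap.mulRight k (ExteriorAlgebra.ι k v)) = 0 := by
    apply ExteriorAlgebra.lhom_ext
    intro i
    ext w
    simp only [LinearMap.compAlternatingMap_apply, LinearMap.comp_apply,
      LinearMap.mulRight_apply, LinearMap.zero_apply]
    have e1 : ExteriorAlgebra.ι k v = ExteriorAlgebra.ιMulti k 1 (fun _ => v) := by
      rw [ExteriorAlgebra.ιMulti_succ_apply, ExteriorAlgebra.ιMulti_zero_apply, mul_one]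
    rw [e1, ExteriorAlgebra.ιMulti_mul_ιMulti]
    by_cases h : i + 1 = j
    · subst h
      rw [m4_X0]
      refine Matrix.det_eq_zero_of_row_eq_zero (Fin.last i) fun b => ?_
      have e2 : Fin.append w (fun _ : Fin 1 => v) (Fin.last i) = v := by
        have : Fin.last i = Fin.natAdd i (0 : Fin 1) := by
          ext
          simp
        rw [this, Fin.append_right]
      rw [Matrix.of_apply, e2, hv]
      rfl
    · exact m4_X0_ne hj h _
  have := LinearMap.congr_fun key y
  simpa using this

end m4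

theorem p_M4 : S_M4 := by
  intro k _ n
  refine ⟨?_, ?_, ?_, ?_, ?_, ?_, ?_, ?_, ?_, ?_, ?_, ?_, ?_, ?_, ?_, ?_⟩
  · intro u u' w
    apply Subtype.ext
    show _ = ((q2 u w : CE k n) : EA k n) + ((q2 u' w : CE k n) : EA k n)
    simp only [m4_q2_coe, map_add, add_mul]
  · intro u w w'
    apply Subtype.ext
    show _ = ((q2 u w : CE k n) : EA k n) + ((q2 u w' : CE k n) : EA k n)
    simp only [m4_q2_coe, map_add, mul_add]
  · intro c u w
    apply Subtype.ext
    show _ = c • ((q2 u w : CE k n) : EA k n)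
    simp only [m4_q2_coe, map_smul, smul_mul_assoc]
  · intro c u w
    apply Subtype.ext
    show _ = c • ((q2 u w : CE k n) : EA k n)
    simp only [m4_q2_coe, map_smul, mul_smul_comm]
  · intro u
    apply Subtype.ext
    show _ = (0 : EA k n)
    rw [m4_q2_coe, ExteriorAlgebra.ι_sq_zero]
  · intro u w
    apply Subtype.ext
    show _ = - ((q2 w u : CE k n) : EA k n)
    rw [m4_q2_coe, m4_q2_coe, m4_swap]
  · intro u w w'
    apply Subtype.ext
    show ((q2 u w : CE k n) : EA k n) * ((q2 u w' : CE k n) : EA k n) = (0 : EA k n)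
    rw [m4_q2_coe, m4_q2_coe, m4_swap u w, neg_mul, mul_assoc, ← mul_assoc (ExteriorAlgebra.ι k u),
      ExteriorAlgebra.ι_sq_zero, zero_mul, mul_zero, neg_zero]
  · intro u w w'
    apply Subtype.ext
    show ((q2 w u : CE k n) : EA k n) * ((q2 w' u : CE k n) : EA k n) = (0 : EA k n)
    rw [m4_q2_coe, m4_q2_coe, m4_swap w' u, mul_neg, mul_assoc, ← mul_assoc (ExteriorAlgebra.ι k u),
      ExteriorAlgebra.ι_sq_zero, zero_mul, mul_zero, neg_zero]
  · intro g c
    rw [Subalgebra.mem_center_iff]
    intro b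
    have hc := Subalgebra.mem_center_iff.1 c.2 (lam g⁻¹ b)
    have e : lam g (lam g⁻¹ b) = b := by
      rw [← m4_lam_mul, mul_inv_cancel, m4_lam_one]
    calc b * lam g (c : EA k n) = lam g (lam g⁻¹ b) * lam g (c : EA k n) := by rw [e]
      _ = lam g (lam g⁻¹ b * (c : EA k n)) := (map_mul _ _ _).symm
      _ = lam g ((c : EA k n) * lam g⁻¹ b) := by rw [hc]
      _ = lam g (c : EA k n) * b := by rw [map_mul, e]
  · intro g u w
    rw [m4_q2_coe, m4_q2_coe, map_mul, m4_lam_ι, m4_lam_ι]
  · intro g T c c'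
    classical
    induction T using Finset.induction_on with
    | empty =>
      intro _
      simp only [Finset.prod_empty]
      show lam g (1 : EA k n) = 1
      exact map_one _
    | insert a T ha ih =>
      intro h
      rw [Finset.prod_insert ha, Finset.prod_insert ha]
      show lam g (((c a : CE k n) : EA k n) * ((∏ a ∈ T, c a : CE k n) : EA k n)) =
        ((c' a : CE k n) : EA k n) * ((∏ a ∈ T, c' a : CE k n) : EA k n)
      rw [map_mul, h a (Finset.mem_insert_self _ _),
        ih fun b hb => h b (Finset.mem_insert_of_mem hb)]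
  · exact fun g h y => m4_lam_mul g h y
  · exact fun y => m4_lam_one y
  · exact fun j hj x w => m4_MM hj x w
  · exact fun j hj y v hv => m4_X0_right hj y v hv
  · intro j hj y v w h
    rw [m4_q2_coe]
    rcases h with h | h
    · rw [m4_swap v w, mul_neg, ← mul_assoc, map_neg, m4_X0_right hj _ v h, neg_zero]
    · rw [← mul_assoc, m4_X0_right hj _ w h]

end Pool.Agent.Sp49
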