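import Pool.Agent.Lib.MP_49c83e_al.StmG

/-!
MP_49c83e_al, piece M6: invariance of the divided powers of omega.
-/

namespace Pool.Agent.Sp49

open scoped BigOperators
open Matrix

section m6

variable {k : Type} [Field k] {n : ℕ}

/-- action on basis vectors -/
private theorem m6_act_bv (g : SpG k n) (x : Fin n ⊕ Fin n) :
    act g (bv x) = fun y => (g : Matrix (Fin n ⊕ Fin n) (Fin n ⊕ Fin n) k) y x := by
  funext y
  unfold act bv
  rw [Matrix.mulVecLin_apply, Matrix.mulVec_single_one]
  rfl

private theorem m6_tor_e (t : Fin n → kˣ) (a : Fin n) :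
    act (tor t) (bv (Sum.inl a)) = (t a : k) • bv (Sum.inl a) := by
  rw [m6_act_bv]
  funext y
  rcases y with y | y
  · simp [tor, bv, Matrix.diagonal_apply, Pi.single_apply]
    by_cases h : y = a
    · rw [if_pos h, if_pos h, h]
    · rw [if_neg h, if_neg h]
  · simp [tor, bv]

private theorem m6_tor_f (t : Fin n → kˣ) (a : Fin n) :
    act (tor t) (bv (Sum.inr a)) = (((t a)⁻¹ : kˣ) : k) • bv (Sum.inr a) := by
  rw [m6_act_bv]
  funext y
  rcases y with y | y
  · simp [tor, bv]
  · simp [tor, bv, Matrix.diagonal_apply, Pi.single_apply]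
    by_cases h : y = a
    · rw [if_pos h, if_pos h, h]
    · rw [if_neg h, if_neg h]

private theorem m6_xl_e (l a : Fin n) (s : k) :
    act (xl l s) (bv (Sum.inl a)) = bv (Sum.inl a) := by
  rw [m6_act_bv]
  funext y
  rcases y with y | y
  · simp [xl, bv, Matrix.one_apply, Pi.single_apply]
  · simp [xl, bv]

private theorem m6_xl_f (l a : Fin n) (s : k) :
    act (xl l s) (bv (Sum.inr a)) =
      bv (Sum.inr a) + (if a = l then s else 0) • bv (Sum.inl a) := by
  rw [m6_act_bv]
  funext y
  rcases y with y | y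
  · by_cases h : a = l
    · subst h
      by_cases h2 : y = a
      · subst h2
        simp [xl, bv]
      · simp [xl, bv, Matrix.single_apply, h2, Ne.symm h2]
    · simp [xl, bv, Matrix.single_apply, h, Ne.symm h]
  · simp [xl, bv, Matrix.one_apply, Pi.single_apply]
    by_cases h : a = l
    · rw [if_pos h]; simp
    · rw [if_neg h]; simp

private theorem m6_yl_f (l a : Fin n) (s : k) :
    act (yl l s) (bv (Sum.inr a)) = bv (Sum.inr a) := by
  rw [m6_act_bv]
  funext y
  rcases y with y | y
  · simp [yl, bv]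
  · simp [yl, bv, Matrix.one_apply, Pi.single_apply]

private theorem m6_yl_e (l a : Fin n) (s : k) :
    act (yl l s) (bv (Sum.inl a)) =
      bv (Sum.inl a) + (if a = l then s else 0) • bv (Sum.inr a) := by
  rw [m6_act_bv]
  funext y
  rcases y with y | y
  · simp [yl, bv, Matrix.one_apply, Pi.single_apply]
    by_cases h : a = l
    · rw [if_pos h]; simp
    · rw [if_neg h]; simp
  · by_cases h : a = l
    · subst h
      by_cases h2 : y = a
      · subst h2
        simp [yl, bv]
      · simp [yl, bv, Matrix.single_apply, h2, Ne.symm h2]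
    · simp [yl, bv, Matrix.single_apply, h, Ne.symm h]

private theorem m6_xr_val {a b : Fin n} (hab : a ≠ b) (s : k) :
    ((xr a b s : SpG k n) : Matrix (Fin n ⊕ Fin n) (Fin n ⊕ Fin n) k) =
      Matrix.fromBlocks (1 + Matrix.single a b s) 0 0 (1 - Matrix.single b a s) := by
  unfold xr
  rw [dif_pos hab]

private theorem m6_xr_e {a b : Fin n} (hab : a ≠ b) (s : k) (m : Fin n) :
    act (xr a b s) (bv (Sum.inl m)) =
      bv (Sum.inl m) + (if m = b then s else 0) • bv (Sum.inl a) := by
  rw [m6_act_bv, m6_xr_val hab]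
  funext y
  rcases y with y | y
  · by_cases h : m = b
    · subst h
      by_cases h2 : y = a
      · subst h2
        simp [bv, Matrix.one_apply, hab]
      · simp [bv, Matrix.one_apply, Matrix.single_apply, Pi.single_apply, h2, Ne.symm h2]
    · simp [bv, Matrix.one_apply, Matrix.single_apply, Pi.single_apply, h, Ne.symm h]
  · simp [bv]
    by_cases h : m = b
    · rw [if_pos h]; simp
    · rw [if_neg h]; simp

private theorem m6_xr_f {a b : Fin n} (hab : a ≠ b) (s : k) (m : Fin n) :
    act (xr a b s) (bv (Sum.inr m)) =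
      bv (Sum.inr m) + (if m = a then -s else 0) • bv (Sum.inr b) := by
  rw [m6_act_bv, m6_xr_val hab]
  funext y
  rcases y with y | y
  · simp [bv]
    by_cases h : m = a
    · rw [if_pos h]; simp
    · rw [if_neg h]; simp
  · by_cases h : m = a
    · subst h
      by_cases h2 : y = b
      · subst h2
        simp [bv, Matrix.one_apply, hab, Ne.symm hab]
      · simp [bv, Matrix.one_apply, Matrix.single_apply, Pi.single_apply, h2, Ne.symm h2]
    · simp [bv, Matrix.one_apply, Matrix.single_apply, Pi.single_apply, h, Ne.symm h]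

/-- generating polynomial of the elementary symmetric functions -/
private theorem m6_coeff {R : Type} [CommRing R] (s : Finset ℕ) (c : ℕ → R) (i : ℕ) :
    (∏ m ∈ s, (1 + Polynomial.X * Polynomial.C (c m))).coeff i =
      ∑ A ∈ s.powersetCard i, ∏ a ∈ A, c a := by
  classical
  rw [Finset.prod_one_add, Polynomial.finsetSum_coeff]
  have e : ∀ A : Finset ℕ, (∏ a ∈ A, (Polynomial.X * Polynomial.C (c a))).coeff i =
      if A.card = i then ∏ a ∈ A, c a else 0 := by
    intro A
    rw [Finset.prod_mul_distrib, Finset.prod_const, ← map_prod, Polynomial.coeff_mul_C,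
      Polynomial.coeff_X_pow]
    by_cases h : A.card = i
    · rw [if_pos h, if_pos h.symm, one_mul]
    · rw [if_neg h, if_neg (fun h' => h h'.symm), zero_mul]
  simp only [e]
  rw [← Finset.sum_filter]
  congr 1
  ext A
  rw [Finset.mem_filter, Finset.mem_powerset, Finset.mem_powersetCard]

/-- two families with the same partial products -/
private theorem m6_esymm {R : Type} [CommRing R] (s : Finset ℕ) (c c' : ℕ → R) {a b : ℕ}
    (ha : a ∈ s) (hb : b ∈ s) (hab : a ≠ b) (h1 : c' a + c' b = c a + c b)
    (h2 : c' a * c' b = c a * c b) (h3 : ∀ m, m ≠ a → m ≠ b → c' m = c m) (i : ℕ) :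
    ∑ A ∈ s.powersetCard i, ∏ a ∈ A, c' a = ∑ A ∈ s.powersetCard i, ∏ a ∈ A, c a := by
  classical
  rw [← m6_coeff, ← m6_coeff]
  congr 1
  have hb' : b ∈ s.erase a := Finset.mem_erase.2 ⟨Ne.symm hab, hb⟩
  rw [← Finset.mul_prod_erase s _ ha, ← Finset.mul_prod_erase (s.erase a) _ hb',
    ← Finset.mul_prod_erase s (fun m => 1 + Polynomial.X * Polynomial.C (c m)) ha,
    ← Finset.mul_prod_erase (s.erase a) (fun m => 1 + Polynomial.X * Polynomial.C (c m)) hb']
  have e1 : ∏ m ∈ (s.erase a).erase b, (1 + Polynomial.X * Polynomial.C (c' m)) =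
      ∏ m ∈ (s.erase a).erase b, (1 + Polynomial.X * Polynomial.C (c m)) := by
    refine Finset.prod_congr rfl fun m hm => ?_
    rw [h3 m (Finset.ne_of_mem_erase (Finset.mem_of_mem_erase hm)) (Finset.ne_of_mem_erase hm)]
  rw [e1, ← mul_assoc, ← mul_assoc]
  congr 1
  have e2 : ∀ u v : R, (1 + Polynomial.X * Polynomial.C u) * (1 + Polynomial.X * Polynomial.C v) =
      1 + Polynomial.X * Polynomial.C (u + v) + Polynomial.X ^ 2 * Polynomial.C (u * v) := by
    intro u v
    rw [map_add, map_mul]
    ring
  rw [e2, e2, h1, h2]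

private theorem m6_alg {R : Type} [CommRing R] [Algebra k R] (x y η : R) (s : k)
    (h1 : η * x = 0) (h2 : η * y = 0) (h3 : η * η = 0) :
    (x - s • η) * (y + s • η) = x * y := by
  rw [Algebra.smul_def]
  linear_combination (algebraMap k R s) * h1 - (algebraMap k R s) * h2 -
    (algebraMap k R s) ^ 2 * h3

/-- image of OmS under lam g -/
private theorem m6_lam_OmS (hM4 : S_M4) (g : SpG k n) (c' : ℕ → CE k n)
    (h : ∀ a, lam g ((om2 k n a : CE k n) : EA k n) = ((c' a : CE k n) : EA k n)) (i : ℕ) :
    lam g ((OmS k n i : CE k n) : EA k n) =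
      ((∑ A ∈ (Finset.range n).powersetCard i, ∏ a ∈ A, c' a : CE k n) : EA k n) := by
  have hp := (hM4 k n).2.2.2.2.2.2.2.2.2.2.1
  have e1 : ∀ (F : Finset (Finset ℕ)) (d : Finset ℕ → CE k n),
      ((∑ T ∈ F, d T : CE k n) : EA k n) = ∑ T ∈ F, ((d T : CE k n) : EA k n) := by
    intro F d
    push_cast
    rfl
  unfold OmS
  rw [e1, e1, map_sum]
  refine Finset.sum_congr rfl fun A _ => ?_
  exact hp g A (om2 k n) c' fun a _ => h a

private theorem m6_lam_om (hM4 : S_M4) (g : SpG k n) {a : ℕ} (ha : a < n) :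
    lam g ((om2 k n a : CE k n) : EA k n) =
      ((q2 (act g (bv (Sum.inl ⟨a, ha⟩))) (act g (bv (Sum.inr ⟨a, ha⟩))) : CE k n) : EA k n) := by
  unfold om2
  rw [dif_pos ha]
  exact (hM4 k n).2.2.2.2.2.2.2.2.2.1 g _ _

private theorem m6_fix (hM4 : S_M4) (g : SpG k n)
    (h : ∀ a : Fin n, q2 (act g (bv (Sum.inl a))) (act g (bv (Sum.inr a))) =
      q2 (bv (Sum.inl a)) (bv (Sum.inr a))) (i : ℕ) :
    lam g ((OmS k n i : CE k n) : EA k n) = ((OmS k n i : CE k n) : EA k n) := by
  rw [m6_lam_OmS hM4 g (om2 k n) (fun a => ?_) i]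
  · rfl
  · by_cases ha : a < n
    · rw [m6_lam_om hM4 g ha, h]
      unfold om2
      rw [dif_pos ha]
    · unfold om2
      rw [dif_neg ha]
      exact map_zero _

private theorem m6_xr (hM4 : S_M4) (a b : Fin n) (s : k) (i : ℕ) :
    lam (xr a b s : SpG k n) ((OmS k n i : CE k n) : EA k n) =
      ((OmS k n i : CE k n) : EA k n) := by
  obtain ⟨q1, q2a, q3, q4, q5, q6, q7, q8, -, -, -, -, hone, -⟩ := hM4 k n
  by_cases hab : a = b
  · have : (xr a b s : SpG k n) = 1 := by
      unfold xr
      rw [dif_neg (not_not.2 hab)]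
    rw [this, hone]
  · set η : CE k n := q2 (bv (Sum.inl a)) (bv (Sum.inr b)) with hη
    set c' : ℕ → CE k n := fun m => if m = (a : ℕ) then om2 k n a - s • η else
      if m = (b : ℕ) then om2 k n b + s • η else om2 k n m with hc'
    have hne : (b : ℕ) ≠ (a : ℕ) := fun h => hab (Fin.ext h.symm)
    have oma : om2 k n a = q2 (bv (Sum.inl a)) (bv (Sum.inr a)) := by
      unfold om2
      rw [dif_pos a.2]
    have omb : om2 k n b = q2 (bv (Sum.inl b)) (bv (Sum.inr b)) := by
      unfold om2
      rw [dif_pos b.2]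
    have ca : c' a = om2 k n a - s • η := by
      rw [hc']
      exact if_pos rfl
    have cb : c' b = om2 k n b + s • η := by
      rw [hc']
      exact (if_neg hne).trans (if_pos rfl)
    rw [m6_lam_OmS hM4 (xr a b s) c' (fun m => ?_) i]
    · congr 1
      unfold OmS OM
      refine m6_esymm (Finset.range n) (om2 k n) c' (Finset.mem_range.2 a.2)
        (Finset.mem_range.2 b.2) (Ne.symm hne) ?_ ?_ ?_ i
      · rw [ca, cb]
        abel
      · have z1 : η * om2 k n a = 0 := by rw [oma]; exact q7 _ _ _
        have z2 : η * om2 k n b = 0 := by rw [omb]; exact q8 _ _ _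
        have z3 : η * η = 0 := q7 _ _ _
        rw [ca, cb]
        exact m6_alg _ _ _ s z1 z2 z3
      · intro m hma hmb
        simp only [hc']
        rw [if_neg hma, if_neg hmb]
    · by_cases hm : m < n
      · rw [m6_lam_om hM4 _ hm, m6_xr_e hab, m6_xr_f hab]
        congr 1
        by_cases hma : m = (a : ℕ)
        · have e1 : (⟨m, hm⟩ : Fin n) = a := Fin.ext hma
          rw [e1, if_neg hab, if_pos rfl, zero_smul, add_zero, q2a, q4, hma, ca, oma, neg_smul,
            sub_eq_add_neg]
        · by_cases hmb : m = (b : ℕ)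
          · have e1 : (⟨m, hm⟩ : Fin n) = b := Fin.ext hmb
            rw [e1, if_pos rfl, if_neg (fun h => hab h.symm), zero_smul, add_zero, q1, q3, hmb,
              cb, omb]
          · have e1 : (⟨m, hm⟩ : Fin n) ≠ a := fun h => hma (congrArg Fin.val h)
            have e2 : (⟨m, hm⟩ : Fin n) ≠ b := fun h => hmb (congrArg Fin.val h)
            rw [if_neg e1, if_neg e2, zero_smul, zero_smul, add_zero, add_zero]
            simp only [hc']
            rw [if_neg hma, if_neg hmb]
            unfold om2
            rw [dif_pos hm]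
      · have hma : m ≠ (a : ℕ) := fun h => hm (h ▸ a.2)
        have hmb : m ≠ (b : ℕ) := fun h => hm (h ▸ b.2)
        simp only [hc']
        rw [if_neg hma, if_neg hmb]
        unfold om2
        rw [dif_neg hm]
        exact map_zero _

end m6

theorem p_M6 (hG1 : S_G1) (hM4 : S_M4) : S_M6 := by
  intro k _ n
  have hA : ∀ (g : SpG k n) (i : ℕ),
      lam g ((OmS k n i : CE k n) : EA k n) = ((OmS k n i : CE k n) : EA k n) := by
    obtain ⟨q1, q2a, q3, q4, q5, q6, q7, q8, -, -, -, hmul, hone, -⟩ := hM4 k n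
    set H : Subgroup (SpG k n) :=
      { carrier := {g | ∀ i : ℕ, lam g ((OmS k n i : CE k n) : EA k n) =
          ((OmS k n i : CE k n) : EA k n)}
        mul_mem' := by
          intro a b ha hb i
          rw [hmul, hb i, ha i]
        one_mem' := by
          intro i
          exact hone _
        inv_mem' := by
          intro a ha i
          have h1 := ha i
          calc lam a⁻¹ ((OmS k n i : CE k n) : EA k n)
              = lam a⁻¹ (lam a ((OmS k n i : CE k n) : EA k n)) := by rw [h1]
            _ = ((OmS k n i : CE k n) : EA k n) := by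
                rw [← hmul, inv_mul_cancel, hone] } with hH
    have htop : H = ⊤ := by
      refine hG1 k n H (fun t i => ?_) (fun i s => ?_) (fun i s => ?_) fun l s _ => ⟨?_, ?_⟩
      · refine m6_fix hM4 _ (fun a => ?_) i
        rw [m6_tor_e, m6_tor_f, q3, q4, smul_smul, Units.mul_inv, one_smul]
      · intro j
        unfold xs
        split_ifs with h
        · exact m6_xr hM4 _ _ _ _
        · exact hone _
      · intro j
        unfold ys
        split_ifs with h
        · exact m6_xr hM4 _ _ _ _
        · exact hone _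
      · intro i
        refine m6_fix hM4 _ (fun a => ?_) i
        rw [m6_xl_e, m6_xl_f, q2a, q4, q5, smul_zero, add_zero]
      · intro i
        refine m6_fix hM4 _ (fun a => ?_) i
        rw [m6_yl_e, m6_yl_f, q1, q3, q5, smul_zero, add_zero]
    intro g i
    have hg : g ∈ H := by rw [htop]; exact Subgroup.mem_top g
    exact hg i
  intro i
  refine ⟨fun g => hA g i, fun j hj x y hi => ?_⟩
  have hX := (hM4 k n).2.2.2.2.2.2.2.2.2.2.2.2.2.2.2
  unfold MM
  rw [map_mul, hA x i]
  have e1 : ((OmS k n i : CE k n) : EA k n) =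
      ∑ A ∈ (Finset.range n).powersetCard i, ((OM k n A : CE k n) : EA k n) := by
    unfold OmS
    push_cast
    rfl
  rw [e1, Finset.mul_sum, map_sum]
  refine Finset.sum_eq_zero fun A hA' => ?_
  rw [Finset.mem_powersetCard] at hA'
  have hne : A.Nonempty := by
    rw [← Finset.card_pos]
    omega
  obtain ⟨a, ha⟩ := hne
  have han : a < n := Finset.mem_range.1 (hA'.1 ha)
  have e2 : ((OM k n A : CE k n) : EA k n) = ((OM k n (A.erase a) : CE k n) : EA k n) *
      ((q2 (bv (Sum.inl ⟨a, han⟩)) (bv (Sum.inr ⟨a, han⟩)) : CE k n) : EA k n) := by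
    have e3 : OM k n A = OM k n (A.erase a) *
        q2 (bv (Sum.inl ⟨a, han⟩)) (bv (Sum.inr ⟨a, han⟩)) := by
      unfold OM
      rw [← Finset.prod_erase_mul A _ ha]
      congr 1
      unfold om2
      rw [dif_pos han]
    rw [e3]
    rfl
  rw [e2, ← mul_assoc]
  refine hX j hj _ _ _ (Or.inr ?_)
  funext b
  simp [trc, bv]

end Pool.Agent.Sp49
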