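import Pool.Agent.Lib.MP_49c83e_al.StmG

/-!
MP_49c83e_al, piece M7: the coordinates colS lie in PP.
-/

namespace Pool.Agent.Sp49

open scoped BigOperators
open Matrix

private theorem m7_MM_sum {k : Type} [Field k] {n j : ℕ} (hj : j ≤ n) (x : SpG k n)
    (F : Finset (Finset ℕ)) (c : Finset ℕ → CE k n) :
    MM hj x ((∑ T ∈ F, c T : CE k n) : EA k n) = ∑ T ∈ F, MM hj x ((c T : CE k n) : EA k n) := by
  unfold MM
  have e : ((∑ T ∈ F, c T : CE k n) : EA k n) = ∑ T ∈ F, ((c T : CE k n) : EA k n) := by
    push_cast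
    rfl
  rw [e, map_sum, map_sum]

private theorem m7_om_sq (hM4 : S_M4) {k : Type} [Field k] {n : ℕ} (a : ℕ) :
    om2 k n a * om2 k n a = 0 := by
  have h := (hM4 k n).2.2.2.2.2.2.1
  unfold om2
  split_ifs
  · exact h _ _ _
  · rw [mul_zero]

private theorem m7_th_om (hM4 : S_M4) {k : Type} [Field k] {n : ℕ} (i : ℕ) :
    th k n i * om2 k n i = 0 := by
  have h := (hM4 k n).2.2.2.2.2.2.1
  unfold th
  split_ifs with h1
  · unfold om2
    rw [dif_pos (show i < n by omega)]
    exact h _ _ _
  · rw [zero_mul]

private theorem m7_th_om' (hM4 : S_M4) {k : Type} [Field k] {n : ℕ} (i : ℕ) :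
    th k n i * om2 k n (i + 1) = 0 := by
  have h := (hM4 k n).2.2.2.2.2.2.2.1
  unfold th
  split_ifs with h1
  · unfold om2
    rw [dif_pos h1]
    exact h _ _ _
  · rw [zero_mul]

private theorem m7_dvd {R : Type} [CommRing R] {a b c d : R} (hab : a * b = 0) (hac : a ∣ c)
    (hbd : b ∣ d) : c * d = 0 := by
  obtain ⟨u, rfl⟩ := hac
  obtain ⟨v, rfl⟩ := hbd
  calc a * u * (b * v) = (a * b) * (u * v) := by ring
    _ = 0 := by rw [hab, zero_mul]

theorem p_M7 (hM4 : S_M4) (hM6 : S_M6) : S_M7 := by
  classical
  intro k _ n r hr S x hNA hSr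
  refine ⟨fun T hT => ?_, fun T' hT' hcard => ?_⟩
  · unfold colS at hT
    by_contra hcon
    rw [if_neg hcon] at hT
    exact hT rfl
  · set q := r - S.card with hq
    set i := q - T'.card with hi
    have hi1 : 1 ≤ i := by omega
    set F := ((ZS n S).powersetCard q).filter (fun T => T' ⊆ T) with hF
    have hmemF : ∀ T, T ∈ F ↔ (T ⊆ ZS n S ∧ T.card = q) ∧ T' ⊆ T := fun T => by
      rw [hF, Finset.mem_filter, Finset.mem_powersetCard]
    have h1 : ∑ T ∈ F, colS hr S x T =
        MM hr x ((∑ T ∈ F, TH k n S * OM k n T : CE k n) : EA k n) := by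
      rw [m7_MM_sum]
      refine Finset.sum_congr rfl fun T hT => ?_
      unfold colS
      rw [if_pos ((hmemF T).1 hT).1]
    -- the products which vanish
    have hvan : ∀ A ∈ (Finset.range n).powersetCard i,
        A ∉ (ZS n S \ T').powersetCard i → TH k n S * OM k n T' * OM k n A = 0 := by
      intro A hA hA'
      rw [Finset.mem_powersetCard] at hA hA'
      have hns : ¬ A ⊆ ZS n S \ T' := fun h => hA' ⟨h, hA.2⟩
      rw [Finset.not_subset] at hns
      obtain ⟨a, haA, ha⟩ := hns
      have han : a ∈ Finset.range n := hA.1 haA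
      have hdA : om2 k n a ∣ OM k n A := Finset.dvd_prod_of_mem _ haA
      by_cases haT : a ∈ T'
      · have hd : om2 k n a ∣ OM k n T' := Finset.dvd_prod_of_mem _ haT
        rw [mul_assoc, m7_dvd (m7_om_sq hM4 a) hd hdA, mul_zero]
      · have haS : a ∈ S ∪ S.image (· + 1) := by
          by_contra hn
          apply ha
          rw [Finset.mem_sdiff]
          refine ⟨?_, haT⟩
          unfold ZS
          rw [Finset.mem_sdiff]
          exact ⟨han, hn⟩
        rw [mul_right_comm]
        rcases Finset.mem_union.1 haS with h | h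
        · have hd : th k n a ∣ TH k n S := Finset.dvd_prod_of_mem _ h
          rw [m7_dvd (m7_th_om hM4 a) hd hdA, zero_mul]
        · obtain ⟨b, hb, hba⟩ := Finset.mem_image.1 h
          subst hba
          have hd : th k n b ∣ TH k n S := Finset.dvd_prod_of_mem _ hb
          rw [m7_dvd (m7_th_om' hM4 b) hd hdA, zero_mul]
    have h2 : (∑ T ∈ F, TH k n S * OM k n T : CE k n) =
        (TH k n S * OM k n T') * OmS k n i := by
      unfold OmS
      rw [Finset.mul_sum]
      have e1 : ∑ A ∈ (ZS n S \ T').powersetCard i, TH k n S * OM k n T' * OM k n A =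
          ∑ A ∈ (Finset.range n).powersetCard i, TH k n S * OM k n T' * OM k n A := by
        refine Finset.sum_subset (Finset.powersetCard_mono ?_) hvan
        exact Finset.sdiff_subset.trans (by unfold ZS; exact Finset.sdiff_subset)
      rw [← e1]
      refine Finset.sum_bij' (fun T _ => T \ T') (fun A _ => T' ∪ A) ?_ ?_ ?_ ?_ ?_
      · intro T hT
        obtain ⟨⟨hT1, hT2⟩, hT3⟩ := (hmemF T).1 hT
        rw [Finset.mem_powersetCard]
        refine ⟨Finset.sdiff_subset_sdiff hT1 subset_rfl, ?_⟩
        rw [Finset.card_sdiff_of_subset hT3, hT2]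
      · intro A hA
        rw [Finset.mem_powersetCard] at hA
        rw [hmemF]
        have hdis : Disjoint T' A := by
          rw [Finset.disjoint_left]
          intro y hy hyA
          exact (Finset.mem_sdiff.1 (hA.1 hyA)).2 hy
        refine ⟨⟨Finset.union_subset hT' (hA.1.trans Finset.sdiff_subset), ?_⟩,
          Finset.subset_union_left⟩
        rw [Finset.card_union_of_disjoint hdis, hA.2]
        omega
      · intro T hT
        exact Finset.union_sdiff_of_subset ((hmemF T).1 hT).2
      · intro A hA
        rw [Finset.mem_powersetCard] at hA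
        have hdis : Disjoint T' A := by
          rw [Finset.disjoint_left]
          intro y hy hyA
          exact (Finset.mem_sdiff.1 (hA.1 hyA)).2 hy
        exact Finset.union_sdiff_cancel_left hdis
      · intro T hT
        have hT3 := ((hmemF T).1 hT).2
        have e2 : OM k n T = OM k n T' * OM k n (T \ T') := by
          unfold OM
          rw [← Finset.prod_union Finset.disjoint_sdiff, Finset.union_sdiff_of_subset hT3]
        rw [e2, mul_assoc]
    rw [h1, h2]
    exact (hM6 k n i).2 (2 * r) hr x _ hi1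

end Pool.Agent.Sp49
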