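import Pool.Agent.Lib.MP_49c83e_al.StmG

/-!
MP_49c83e_al, piece M8: PP is spanned by polytabloids.
-/

namespace Pool.Agent.Sp49

open scoped BigOperators

variable {k : Type} [Field k]

/-- the polytabloids with entries in Z -/
private def m8_pts (k : Type) [Field k] (Z : Finset ℕ) (q : ℕ) : Set (Finset ℕ → k) :=
  {h | ∃ a b : Fin q → ℕ, (∀ l, a l ∈ Z) ∧ (∀ l, b l ∈ Z) ∧
      Function.Injective (Sum.elim a b) ∧ h = pt k a b}

private theorem m8_mono {Z Z' : Finset ℕ} (h : Z' ⊆ Z) (q : ℕ) :
    m8_pts k Z' q ⊆ m8_pts k Z q := by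
  rintro _ ⟨a, b, ha, hb, hi, rfl⟩
  exact ⟨a, b, fun l => h (ha l), fun l => h (hb l), hi, rfl⟩

/-- The defining condition of a polytabloid forces T to consist of entries. -/
private theorem m8_cover {q : ℕ} {a b : Fin q → ℕ} (hi : Function.Injective (Sum.elim a b))
    {T : Finset ℕ} (hT : T.card = q)
    (hc : ∀ l, (a l ∈ T ∧ b l ∉ T) ∨ (a l ∉ T ∧ b l ∈ T)) {x : ℕ} (hx : x ∈ T) :
    ∃ l, x = a l ∨ x = b l := by
  classical
  set f : Fin q → ℕ := fun l => if a l ∈ T then a l else b l with hf
  have hfT : ∀ l, f l ∈ T := by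
    intro l
    simp only [hf]
    by_cases h : a l ∈ T
    · rw [if_pos h]; exact h
    · rw [if_neg h]
      rcases hc l with h' | h'
      · exact absurd h'.1 h
      · exact h'.2
  have hfi : Function.Injective f := by
    intro l m hlm
    have haa : ∀ l m, a l = a m → l = m := fun l m h => by
      have := hi (a₁ := Sum.inl l) (a₂ := Sum.inl m) h
      exact Sum.inl_injective this
    have hbb : ∀ l m, b l = b m → l = m := fun l m h => by
      have := hi (a₁ := Sum.inr l) (a₂ := Sum.inr m) h
      exact Sum.inr_injective this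
    have hab : ∀ l m, a l ≠ b m := fun l m h => by
      have := hi (a₁ := Sum.inl l) (a₂ := Sum.inr m) h
      cases this
    simp only [hf] at hlm
    by_cases h1 : a l ∈ T <;> by_cases h2 : a m ∈ T
    · rw [if_pos h1, if_pos h2] at hlm
      exact haa _ _ hlm
    · rw [if_pos h1, if_neg h2] at hlm
      exact absurd hlm (hab _ _)
    · rw [if_neg h1, if_pos h2] at hlm
      exact absurd hlm.symm (hab _ _)
    · rw [if_neg h1, if_neg h2] at hlm
      exact hbb _ _ hlm
  have hsub : Finset.univ.image f ⊆ T := by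
    intro y hy
    obtain ⟨l, -, rfl⟩ := Finset.mem_image.1 hy
    exact hfT l
  have heq : Finset.univ.image f = T := by
    apply Finset.eq_of_subset_of_card_le hsub
    rw [Finset.card_image_of_injective _ hfi, Finset.card_univ, Fintype.card_fin, hT]
  rw [← heq] at hx
  obtain ⟨l, -, hl⟩ := Finset.mem_image.1 hx
  refine ⟨l, ?_⟩
  rw [← hl]
  simp only [hf]
  by_cases h : a l ∈ T
  · left; rw [if_pos h]
  · right; rw [if_neg h]

/-- Polytabloids are in PP. -/
private theorem m8_pt_mem {Z : Finset ℕ} {q : ℕ} {a b : Fin q → ℕ} (ha : ∀ l, a l ∈ Z)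
    (hb : ∀ l, b l ∈ Z) (hi : Function.Injective (Sum.elim a b)) : pt k a b ∈ PP k Z q := by
  classical
  have haa : ∀ l m, a l = a m → l = m := fun l m h =>
    Sum.inl_injective (hi (a₁ := Sum.inl l) (a₂ := Sum.inl m) h)
  have hbb : ∀ l m, b l = b m → l = m := fun l m h =>
    Sum.inr_injective (hi (a₁ := Sum.inr l) (a₂ := Sum.inr m) h)
  have hab : ∀ l m, a l ≠ b m := fun l m h => by
    have := hi (a₁ := Sum.inl l) (a₂ := Sum.inr m) h
    cases this
  refine ⟨fun T hT => ?_, fun T' hT' hcard => ?_⟩
  · have hc : T.card = q ∧ ∀ l, (a l ∈ T ∧ b l ∉ T) ∨ (a l ∉ T ∧ b l ∈ T) := by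
      by_contra hcon
      apply hT
      unfold pt
      rw [if_neg hcon]
    refine ⟨fun x hx => ?_, hc.1⟩
    obtain ⟨l, hl | hl⟩ := m8_cover hi hc.1 hc.2 hx
    · rw [hl]; exact ha l
    · rw [hl]; exact hb l
  · by_cases hex : ∃ l, a l ∉ T' ∧ b l ∉ T'
    · obtain ⟨l, hla, hlb⟩ := hex
      set σ : Equiv.Perm ℕ := Equiv.swap (a l) (b l) with hσ
      have hσσ : ∀ x, σ (σ x) = x := fun x => Equiv.swap_apply_self _ _ _
      have hmem : ∀ (T : Finset ℕ) (x : ℕ), x ∈ T.map σ.toEmbedding ↔ σ x ∈ T := by
        intro T x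
        rw [Finset.mem_map]
        constructor
        · rintro ⟨y, hy, rfl⟩
          change σ (σ y) ∈ T
          rw [hσσ]
          exact hy
        · intro h
          exact ⟨σ x, h, hσσ x⟩
      have hal : σ (a l) = b l := Equiv.swap_apply_left _ _
      have hbl : σ (b l) = a l := Equiv.swap_apply_right _ _
      have ham : ∀ m, m ≠ l → σ (a m) = a m := fun m hm =>
        Equiv.swap_apply_of_ne_of_ne (fun h => hm (haa _ _ h)) (hab _ _)
      have hbm : ∀ m, m ≠ l → σ (b m) = b m := fun m hm =>
        Equiv.swap_apply_of_ne_of_ne (fun h => hab _ _ h.symm) (fun h => hm (hbb _ _ h))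
      have hσZ : ∀ x, σ x ∈ Z ↔ x ∈ Z := by
        intro x
        by_cases h1 : x = a l
        · subst h1
          rw [hal]
          exact ⟨fun _ => ha l, fun _ => hb l⟩
        · by_cases h2 : x = b l
          · subst h2
            rw [hbl]
            exact ⟨fun _ => hb l, fun _ => ha l⟩
          · rw [hσ, Equiv.swap_apply_of_ne_of_ne h1 h2]
      have hσT' : ∀ x ∈ T', σ x = x := fun x hx =>
        Equiv.swap_apply_of_ne_of_ne (fun h => hla (h ▸ hx)) (fun h => hlb (h ▸ hx))
      have hneg : ∀ T : Finset ℕ, pt k a b (T.map σ.toEmbedding) = - pt k a b T := by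
        intro T
        have hcond : ((T.map σ.toEmbedding).card = q ∧ ∀ m, (a m ∈ T.map σ.toEmbedding ∧
            b m ∉ T.map σ.toEmbedding) ∨ (a m ∉ T.map σ.toEmbedding ∧
            b m ∈ T.map σ.toEmbedding)) ↔
            (T.card = q ∧ ∀ m, (a m ∈ T ∧ b m ∉ T) ∨ (a m ∉ T ∧ b m ∈ T)) := by
          rw [Finset.card_map]
          refine and_congr_right fun _ => forall_congr' fun m => ?_
          rw [hmem, hmem]
          by_cases hm : m = l
          · subst hm
            rw [hal, hbl]
            tauto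
          · rw [ham m hm, hbm m hm]
        unfold pt
        by_cases hT : T.card = q ∧ ∀ m, (a m ∈ T ∧ b m ∉ T) ∨ (a m ∉ T ∧ b m ∈ T)
        · rw [if_pos hT, if_pos (hcond.2 hT)]
          rw [← Finset.mul_prod_erase Finset.univ _ (Finset.mem_univ l),
            ← Finset.mul_prod_erase Finset.univ (fun l => if a l ∈ T then (-1 : k) else 1)
              (Finset.mem_univ l)]
          have e1 : ∏ x ∈ Finset.univ.erase l,
              (if a x ∈ T.map σ.toEmbedding then (-1 : k) else 1) =
              ∏ x ∈ Finset.univ.erase l, (if a x ∈ T then (-1 : k) else 1) := by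
            refine Finset.prod_congr rfl fun m hm => ?_
            have hm' := Finset.ne_of_mem_erase hm
            simp only [hmem, ham m hm']
          have e2 : (if a l ∈ T.map σ.toEmbedding then (-1 : k) else 1) =
              - (if a l ∈ T then (-1 : k) else 1) := by
            simp only [hmem, hal]
            rcases hT.2 l with h | h
            · rw [if_neg h.2, if_pos h.1, neg_neg]
            · rw [if_pos h.2, if_neg h.1]
          rw [e1, e2, neg_mul]
        · rw [if_neg hT, if_neg (fun h => hT (hcond.1 h)), neg_zero]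
      refine Finset.sum_involution (fun T _ => T.map σ.toEmbedding) ?_ ?_ ?_ ?_
      · intro T _
        rw [hneg, add_neg_cancel]
      · intro T _ hT0 heq
        have hc : T.card = q ∧ ∀ m, (a m ∈ T ∧ b m ∉ T) ∨ (a m ∉ T ∧ b m ∈ T) := by
          by_contra hcon
          apply hT0
          unfold pt
          rw [if_neg hcon]
        have h1 := hmem T (a l)
        rw [heq, hal] at h1
        rcases hc.2 l with h | h
        · exact h.2 (h1.1 h.1)
        · exact h.1 (h1.2 h.2)
      · intro T hT
        rw [Finset.mem_filter, Finset.mem_powersetCard] at hT ⊢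
        refine ⟨⟨fun x hx => ?_, ?_⟩, fun x hx => ?_⟩
        · rw [hmem] at hx
          exact (hσZ x).1 (hT.1.1 hx)
        · rw [Finset.card_map]; exact hT.1.2
        · rw [hmem, hσT' x hx]
          exact hT.2 hx
      · intro T _
        ext x
        rw [hmem, hmem, hσσ]
    · -- every pair meets T'
      push Not at hex
      refine Finset.sum_eq_zero fun T hT => ?_
      rw [Finset.mem_filter, Finset.mem_powersetCard] at hT
      by_contra hT0
      have hc : T.card = q ∧ ∀ m, (a m ∈ T ∧ b m ∉ T) ∨ (a m ∉ T ∧ b m ∈ T) := by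
        by_contra hcon
        apply hT0
        unfold pt
        rw [if_neg hcon]
      have hTT : T ⊆ T' := by
        intro x hx
        obtain ⟨l, hl | hl⟩ := m8_cover hi hc.1 hc.2 hx
        · rw [hl] at hx ⊢
          by_contra hn
          have h1 := hT.2 (hex l hn)
          rcases hc.2 l with h | h
          · exact h.2 h1
          · exact h.1 hx
        · rw [hl] at hx ⊢
          by_contra hn
          have h0 : a l ∈ T' := by
            by_contra h0
            exact hn (hex l h0)
          have h1 := hT.2 h0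
          rcases hc.2 l with h | h
          · exact h.2 hx
          · exact h.1 h1
      have := Finset.card_le_card hTT
      omega

/-- the derivative in the direction z -/
private def m8_E (k : Type) [Field k] (z : ℕ) : (Finset ℕ → k) →ₗ[k] (Finset ℕ → k) where
  toFun h := fun T => if z ∉ T then h (insert z T) else 0
  map_add' a b := by
    funext T
    simp only [Pi.add_apply]
    split_ifs <;> simp
  map_smul' c a := by
    funext T
    simp only [Pi.smul_apply, RingHom.id_apply]
    split_ifs <;> simp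

private theorem m8_E_apply (z : ℕ) (h : Finset ℕ → k) (T : Finset ℕ) :
    m8_E k z h T = if z ∉ T then h (insert z T) else 0 := rfl

private theorem m8_E_mem {Z : Finset ℕ} {z : ℕ} (hz : z ∉ Z) {q : ℕ} {h : Finset ℕ → k}
    (hh : h ∈ PP k (insert z Z) (q + 1)) : m8_E k z h ∈ PP k Z q := by
  classical
  refine ⟨fun T hT => ?_, fun T' hT' hcard => ?_⟩
  · rw [m8_E_apply] at hT
    by_cases hzT : z ∈ T
    · rw [if_neg (not_not.2 hzT)] at hT
      exact absurd rfl hT
    · rw [if_pos hzT] at hT
      obtain ⟨h1, h2⟩ := hh.1 _ hT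
      rw [Finset.card_insert_of_notMem hzT] at h2
      refine ⟨fun x hx => ?_, by omega⟩
      have h3 := h1 (Finset.mem_insert_of_mem hx)
      rcases Finset.mem_insert.1 h3 with h4 | h4
      · rw [h4] at hx
        exact absurd hx hzT
      · exact h4
  · have hzT' : z ∉ T' := fun h => hz (hT' h)
    have h0 := hh.2 (insert z T') (Finset.insert_subset_insert z hT')
      (by rw [Finset.card_insert_of_notMem hzT']; omega)
    rw [← h0]
    refine Finset.sum_bij' (fun T _ => insert z T) (fun T _ => T.erase z) ?_ ?_ ?_ ?_ ?_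
    · intro T hT
      rw [Finset.mem_filter, Finset.mem_powersetCard] at hT ⊢
      have hzT : z ∉ T := fun h => hz (hT.1.1 h)
      exact ⟨⟨Finset.insert_subset_insert z hT.1.1, by
        rw [Finset.card_insert_of_notMem hzT, hT.1.2]⟩, Finset.insert_subset_insert z hT.2⟩
    · intro T hT
      rw [Finset.mem_filter, Finset.mem_powersetCard] at hT ⊢
      have hzT : z ∈ T := hT.2 (Finset.mem_insert_self _ _)
      refine ⟨⟨fun x hx => ?_, by rw [Finset.card_erase_of_mem hzT, hT.1.2]; rfl⟩,
        fun x hx => ?_⟩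
      · have h1 := hT.1.1 (Finset.mem_of_mem_erase hx)
        rcases Finset.mem_insert.1 h1 with h2 | h2
        · exact absurd h2 (Finset.ne_of_mem_erase hx)
        · exact h2
      · rw [Finset.mem_erase]
        refine ⟨fun h => hzT' (h ▸ hx), hT.2 (Finset.mem_insert_of_mem hx)⟩
    · intro T hT
      rw [Finset.mem_filter, Finset.mem_powersetCard] at hT
      exact Finset.erase_insert fun h => hz (hT.1.1 h)
    · intro T hT
      rw [Finset.mem_filter, Finset.mem_powersetCard] at hT
      exact Finset.insert_erase (hT.2 (Finset.mem_insert_self _ _))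
    · intro T hT
      rw [Finset.mem_filter, Finset.mem_powersetCard] at hT
      have hzT : z ∉ T := fun h => hz (hT.1.1 h)
      rw [m8_E_apply, if_pos hzT]

private theorem m8_E_zero {Z : Finset ℕ} {z : ℕ} {q : ℕ} {h : Finset ℕ → k}
    (hh : h ∈ PP k (insert z Z) q) (hE : m8_E k z h = 0) : h ∈ PP k Z q := by
  classical
  have hz0 : ∀ T : Finset ℕ, z ∈ T → h T = 0 := by
    intro T hT
    have h1 := congrFun hE (T.erase z)
    rw [m8_E_apply, if_pos (Finset.notMem_erase z T), Finset.insert_erase hT] at h1
    exact h1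
  refine ⟨fun T hT => ?_, fun T' hT' hcard => ?_⟩
  · obtain ⟨h1, h2⟩ := hh.1 T hT
    refine ⟨fun x hx => ?_, h2⟩
    rcases Finset.mem_insert.1 (h1 hx) with h3 | h3
    · rw [h3] at hx
      exact absurd (hz0 T hx) hT
    · exact h3
  · rw [← hh.2 T' (hT'.trans (Finset.subset_insert _ _)) hcard]
    refine Finset.sum_subset (fun T hT => ?_) fun T hT hT2 => ?_
    · rw [Finset.mem_filter, Finset.mem_powersetCard] at hT ⊢
      exact ⟨⟨hT.1.1.trans (Finset.subset_insert _ _), hT.1.2⟩, hT.2⟩
    · rw [Finset.mem_filter, Finset.mem_powersetCard] at hT hT2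
      apply hz0
      by_contra hzT
      apply hT2
      refine ⟨⟨fun x hx => ?_, hT.1.2⟩, hT.2⟩
      rcases Finset.mem_insert.1 (hT.1.1 hx) with h3 | h3
      · rw [h3] at hx
        exact absurd hx hzT
      · exact h3

/-- If 2 q > card Z then PP is zero. -/
private theorem m8_vanish {Z : Finset ℕ} {q : ℕ} (hq : Z.card < 2 * q) {h : Finset ℕ → k}
    (hh : h ∈ PP k Z q) : h = 0 := by
  classical
  funext T
  rw [Pi.zero_apply]
  by_contra hT
  obtain ⟨hTZ, hTc⟩ := hh.1 T hT
  have hC : (Z \ T).card < q := by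
    rw [Finset.card_sdiff_of_subset hTZ]
    omega
  have h1 : ∑ T' ∈ (Z \ T).powerset, (-1 : k) ^ T'.card *
      ∑ T'' ∈ (Z.powersetCard q).filter (fun T'' => T' ⊆ T''), h T'' = 0 := by
    refine Finset.sum_eq_zero fun T' hT' => ?_
    rw [Finset.mem_powerset] at hT'
    rw [hh.2 T' (hT'.trans Finset.sdiff_subset)
      (lt_of_le_of_lt (Finset.card_le_card hT') hC), mul_zero]
  have h2 : ∑ T' ∈ (Z \ T).powerset, (-1 : k) ^ T'.card *
      ∑ T'' ∈ (Z.powersetCard q).filter (fun T'' => T' ⊆ T''), h T'' =
      ∑ T'' ∈ Z.powersetCard q, (∑ T' ∈ ((Z \ T) ∩ T'').powerset, (-1 : k) ^ T'.card) * h T'' := by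
    have e1 : ∀ T' : Finset ℕ, (-1 : k) ^ T'.card *
        ∑ T'' ∈ (Z.powersetCard q).filter (fun T'' => T' ⊆ T''), h T'' =
        ∑ T'' ∈ Z.powersetCard q, if T' ⊆ T'' then (-1 : k) ^ T'.card * h T'' else 0 := by
      intro T'
      rw [Finset.mul_sum, Finset.sum_filter]
    simp only [e1]
    rw [Finset.sum_comm]
    refine Finset.sum_congr rfl fun T'' _ => ?_
    rw [← Finset.sum_filter, Finset.sum_mul]
    refine Finset.sum_congr ?_ fun _ _ => rfl
    ext T'
    rw [Finset.mem_filter, Finset.mem_powerset, Finset.mem_powerset, Finset.subset_inter_iff]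
  have h3 : ∀ X : Finset ℕ, ∑ T' ∈ X.powerset, (-1 : k) ^ T'.card = if X = ∅ then 1 else 0 := by
    intro X
    have := congrArg (fun a : ℤ => (a : k)) (Finset.sum_powerset_neg_one_pow_card (x := X))
    simp only [Int.cast_sum, Int.cast_pow, Int.cast_neg, Int.cast_one] at this
    rw [this]
    split_ifs <;> simp
  rw [h2] at h1
  have h4 : ∑ T'' ∈ Z.powersetCard q,
      (∑ T' ∈ ((Z \ T) ∩ T'').powerset, (-1 : k) ^ T'.card) * h T'' = h T := by
    rw [Finset.sum_eq_single T]
    · rw [h3, if_pos (by rw [Finset.sdiff_inter_self]), one_mul]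
    · intro T'' hT'' hne
      rw [Finset.mem_powersetCard] at hT''
      rw [h3, if_neg, zero_mul]
      intro hemp
      apply hne
      apply Finset.eq_of_subset_of_card_le
      · intro x hx
        by_contra hxT
        have : x ∈ (Z \ T) ∩ T'' := by
          rw [Finset.mem_inter, Finset.mem_sdiff]
          exact ⟨⟨hT''.1 hx, hxT⟩, hx⟩
        rw [hemp] at this
        exact absurd this (Finset.notMem_empty x)
      · rw [hTc, hT''.2]
    · intro hn
      exact absurd (Finset.mem_powersetCard.2 ⟨hTZ, hTc⟩) hn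
  rw [h4] at h1
  exact hT h1

/-- Lifting a polytabloid. -/
private theorem m8_lift {Z : Finset ℕ} {z : ℕ} (hz : z ∉ Z) {q : ℕ} (hq : 2 * q < Z.card)
    {a b : Fin q → ℕ} (ha : ∀ l, a l ∈ Z) (hb : ∀ l, b l ∈ Z)
    (hi : Function.Injective (Sum.elim a b)) :
    ∃ g ∈ m8_pts k (insert z Z) (q + 1), m8_E k z g = pt k a b := by
  classical
  obtain ⟨c, hcZ, hc⟩ : ∃ c ∈ Z, c ∉ Finset.univ.image (Sum.elim a b) := by
    apply Finset.exists_mem_notMem_of_card_lt_card
    refine lt_of_le_of_lt Finset.card_image_le ?_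
    rw [Finset.card_univ, Fintype.card_sum, Fintype.card_fin]
    omega
  have hca : ∀ l, c ≠ a l := fun l h => hc (Finset.mem_image.2 ⟨Sum.inl l, Finset.mem_univ _,
    by simp [h]⟩)
  have hcb : ∀ l, c ≠ b l := fun l h => hc (Finset.mem_image.2 ⟨Sum.inr l, Finset.mem_univ _,
    by simp [h]⟩)
  have hcz : c ≠ z := fun h => hz (h ▸ hcZ)
  have haz : ∀ l, a l ≠ z := fun l h => hz (h ▸ ha l)
  have hbz : ∀ l, b l ≠ z := fun l h => hz (h ▸ hb l)
  have haa : ∀ l m, a l = a m → l = m := fun l m h =>
    Sum.inl_injective (hi (a₁ := Sum.inl l) (a₂ := Sum.inl m) h)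
  have hbb : ∀ l m, b l = b m → l = m := fun l m h =>
    Sum.inr_injective (hi (a₁ := Sum.inr l) (a₂ := Sum.inr m) h)
  have hab : ∀ l m, a l ≠ b m := fun l m h => by
    have := hi (a₁ := Sum.inl l) (a₂ := Sum.inr m) h
    cases this
  set a' : Fin (q + 1) → ℕ := Fin.cons c a with ha'
  set b' : Fin (q + 1) → ℕ := Fin.cons z b with hb'
  have a0 : a' 0 = c := rfl
  have b0 : b' 0 = z := rfl
  have as : ∀ l : Fin q, a' l.succ = a l := fun l => rfl
  have bs : ∀ l : Fin q, b' l.succ = b l := fun l => rfl
  have hi' : Function.Injective (Sum.elim a' b') := by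
    rintro (l | l) (m | m) h
    · simp only [Sum.elim_inl] at h
      congr 1
      revert h
      refine Fin.cases ?_ (fun l => ?_) l <;> refine Fin.cases ?_ (fun m => ?_) m
      · intro _; rfl
      · intro h; rw [a0, as] at h; exact absurd h (hca m)
      · intro h; rw [a0, as] at h; exact absurd h.symm (hca l)
      · intro h; rw [as, as] at h; rw [haa _ _ h]
    · exfalso
      simp only [Sum.elim_inl, Sum.elim_inr] at h
      revert h
      refine Fin.cases ?_ (fun l => ?_) l <;> refine Fin.cases ?_ (fun m => ?_) m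
      · intro h; rw [a0, b0] at h; exact hcz h
      · intro h; rw [a0, bs] at h; exact hcb m h
      · intro h; rw [as, b0] at h; exact haz l h
      · intro h; rw [as, bs] at h; exact hab _ _ h
    · exfalso
      simp only [Sum.elim_inl, Sum.elim_inr] at h
      revert h
      refine Fin.cases ?_ (fun l => ?_) l <;> refine Fin.cases ?_ (fun m => ?_) m
      · intro h; rw [a0, b0] at h; exact hcz h.symm
      · intro h; rw [as, b0] at h; exact haz m h.symm
      · intro h; rw [a0, bs] at h; exact hcb l h.symm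
      · intro h; rw [as, bs] at h; exact hab _ _ h.symm
    · simp only [Sum.elim_inr] at h
      congr 1
      revert h
      refine Fin.cases ?_ (fun l => ?_) l <;> refine Fin.cases ?_ (fun m => ?_) m
      · intro _; rfl
      · intro h; rw [b0, bs] at h; exact absurd h.symm (hbz m)
      · intro h; rw [b0, bs] at h; exact absurd h (hbz l)
      · intro h; rw [bs, bs] at h; rw [hbb _ _ h]
  refine ⟨pt k a' b', ⟨a', b', ?_, ?_, hi', rfl⟩, ?_⟩
  · intro l
    refine Fin.cases ?_ (fun l => ?_) l
    · rw [a0]; exact Finset.mem_insert_of_mem hcZ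
    · rw [as]; exact Finset.mem_insert_of_mem (ha l)
  · intro l
    refine Fin.cases ?_ (fun l => ?_) l
    · rw [b0]; exact Finset.mem_insert_self _ _
    · rw [bs]; exact Finset.mem_insert_of_mem (hb l)
  · funext T
    rw [m8_E_apply]
    by_cases hzT : z ∈ T
    · rw [if_neg (not_not.2 hzT)]
      unfold pt
      rw [if_neg]
      rintro ⟨h1, h2⟩
      obtain ⟨l, hl | hl⟩ := m8_cover hi h1 h2 hzT
      · exact haz l hl.symm
      · exact hbz l hl.symm
    · rw [if_pos hzT]
      have m1 : ∀ l, (a l ∈ insert z T ↔ a l ∈ T) := fun l => by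
        rw [Finset.mem_insert]
        exact ⟨fun h => h.resolve_left (haz l), Or.inr⟩
      have m2 : ∀ l, (b l ∈ insert z T ↔ b l ∈ T) := fun l => by
        rw [Finset.mem_insert]
        exact ⟨fun h => h.resolve_left (hbz l), Or.inr⟩
      have m3 : c ∈ insert z T ↔ c ∈ T := by
        rw [Finset.mem_insert]
        exact ⟨fun h => h.resolve_left hcz, Or.inr⟩
      unfold pt
      by_cases hT : T.card = q ∧ ∀ l, (a l ∈ T ∧ b l ∉ T) ∨ (a l ∉ T ∧ b l ∈ T)
      · have hcT : c ∉ T := by
          intro h
          obtain ⟨l, hl | hl⟩ := m8_cover hi hT.1 hT.2 h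
          · exact hca l hl
          · exact hcb l hl
        have hT' : (insert z T).card = q + 1 ∧ ∀ l : Fin (q + 1),
            (a' l ∈ insert z T ∧ b' l ∉ insert z T) ∨ (a' l ∉ insert z T ∧ b' l ∈ insert z T) := by
          refine ⟨by rw [Finset.card_insert_of_notMem hzT, hT.1], fun l => ?_⟩
          refine Fin.cases ?_ (fun l => ?_) l
          · right
            rw [a0, b0, m3]
            exact ⟨hcT, Finset.mem_insert_self _ _⟩
          · rw [as, bs, m1, m2]
            exact hT.2 l
        rw [if_pos hT, if_pos hT', Fin.prod_univ_succ, a0, if_neg (fun h => hcT (m3.1 h)),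
          one_mul]
        refine Finset.prod_congr rfl fun l _ => ?_
        simp only [as, m1]
      · rw [if_neg hT, if_neg]
        rintro ⟨h1, h2⟩
        apply hT
        rw [Finset.card_insert_of_notMem hzT] at h1
        refine ⟨by omega, fun l => ?_⟩
        have := h2 l.succ
        rwa [as, bs, m1, m2] at this

private theorem m8_zero (Z : Finset ℕ) {h : Finset ℕ → k} (hh : h ∈ PP k Z 0) :
    h ∈ Submodule.span k (m8_pts k Z 0) := by
  classical
  have e : h = h ∅ • pt k (Fin.elim0 : Fin 0 → ℕ) (Fin.elim0 : Fin 0 → ℕ) := by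
    funext T
    rw [Pi.smul_apply, smul_eq_mul]
    unfold pt
    by_cases hT : T = ∅
    · subst hT
      rw [if_pos ⟨Finset.card_empty, fun l => l.elim0⟩]
      simp
    · rw [if_neg, mul_zero]
      · by_contra hne
        exact hT (Finset.card_eq_zero.1 (hh.1 T hne).2)
      · rintro ⟨h1, -⟩
        exact hT (Finset.card_eq_zero.1 h1)
  rw [e]
  refine Submodule.smul_mem _ _ (Submodule.subset_span ?_)
  refine ⟨Fin.elim0, Fin.elim0, fun l => l.elim0, fun l => l.elim0, ?_, rfl⟩
  rintro (l | l) <;> exact l.elim0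

theorem p_M8 : S_M8 := by
  classical
  intro k _ Z
  have key : ∀ q : ℕ, 2 * q ≤ Z.card → PP k Z q ≤ Submodule.span k (m8_pts k Z q) := by
    induction Z using Finset.induction_on with
    | empty =>
      intro q hq h hh
      have hq0 : q = 0 := by
        rw [Finset.card_empty] at hq
        omega
      subst hq0
      exact m8_zero _ hh
    | insert z Z hz ih =>
      intro q hq h hh
      rw [Finset.card_insert_of_notMem hz] at hq
      cases q with
      | zero => exact m8_zero _ hh
      | succ q =>
        have h1 : m8_E k z h ∈ Submodule.span k (m8_pts k Z q) :=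
          ih q (by omega) (m8_E_mem hz hh)
        have h2 : Submodule.span k (m8_pts k Z q) ≤
            (Submodule.span k (m8_pts k (insert z Z) (q + 1))).map (m8_E k z) := by
          rw [Submodule.span_le]
          rintro _ ⟨a, b, ha, hb, hi, rfl⟩
          obtain ⟨g, hg, hE⟩ := m8_lift (k := k) hz (show 2 * q < Z.card by omega) ha hb hi
          exact ⟨g, Submodule.subset_span hg, hE⟩
        obtain ⟨g, hg, hgE⟩ := h2 h1
        have hgP : g ∈ PP k (insert z Z) (q + 1) := by
          refine (Submodule.span_le.2 ?_) hg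
          rintro _ ⟨a, b, ha, hb, hi, rfl⟩
          exact m8_pt_mem ha hb hi
        have hd : h - g ∈ PP k Z (q + 1) :=
          m8_E_zero (Submodule.sub_mem _ hh hgP) (by rw [map_sub, hgE, sub_self])
        have hd2 : h - g ∈ Submodule.span k (m8_pts k (insert z Z) (q + 1)) := by
          by_cases hc : 2 * (q + 1) ≤ Z.card
          · exact Submodule.span_mono (m8_mono (Finset.subset_insert z Z) (q + 1)) (ih _ hc hd)
          · rw [m8_vanish (by omega) hd]
            exact Submodule.zero_mem _
        have := Submodule.add_mem _ hd2 hg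
        rwa [sub_add_cancel] at this
  exact key

end Pool.Agent.Sp49
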