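import Pool.Agent.Lib.MP_49c83e_al.StmG

/-! Piece M9: signed permutations and products of root elements. -/

namespace Pool.Agent.Sp49

open Matrix

private theorem m9_perm {n j : ℕ} (hj : j ≤ n) (c : Fin j → Fin n) (hc : Function.Injective c) :
    ∃ π : Equiv.Perm (Fin n), ∀ m : Fin j, π (Fin.castLE hj m) = c m := by
  classical
  have hi : Function.Injective (Fin.castLE hj) := Fin.castLE_injective hj
  let e1 : Fin j ≃ {x : Fin n // x ∈ Set.range (Fin.castLE hj)} := Equiv.ofInjective _ hi
  let e2 : Fin j ≃ {x : Fin n // x ∈ Set.range c} := Equiv.ofInjective _ hc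
  let e : {x : Fin n // x ∈ Set.range (Fin.castLE hj)} ≃ {x : Fin n // x ∈ Set.range c} :=
    e1.symm.trans e2
  refine ⟨e.extendSubtype, fun m => ?_⟩
  rw [Equiv.extendSubtype_apply_of_mem e _ ⟨m, rfl⟩]
  have h1 : (⟨Fin.castLE hj m, ⟨m, rfl⟩⟩ : {x : Fin n // x ∈ Set.range (Fin.castLE hj)}) = e1 m := rfl
  rw [h1]
  simp only [e, Equiv.trans_apply, Equiv.symm_apply_apply]
  rfl

private theorem m9_a (k : Type) [Field k] (n j : ℕ) (hj : j ≤ n) (c : Fin j → Fin n)
    (σ : Fin j → Bool) (hc : Function.Injective c) :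
      ∃ x : SpG k n, ∀ (m : Fin j) (y : Fin n ⊕ Fin n), ent x (Sum.inl (Fin.castLE hj m)) y =
        if y = (if σ m then Sum.inr (c m) else Sum.inl (c m)) then 1 else 0 := by
  classical
  obtain ⟨π, hπ⟩ := m9_perm hj c hc
  let τ : Fin n → Bool := fun i => if h : (i : ℕ) < j then σ ⟨i, h⟩ else false
  let d : Fin n → k := fun i => if τ i then 0 else 1
  let e : Fin n → k := fun i => if τ i then 1 else 0
  let P : Matrix (Fin n) (Fin n) k := Matrix.of fun i y => if π i = y then 1 else 0
  have hde : ∀ i, d i * e i = 0 := fun i => by by_cases h : τ i = true <;> simp [d, e, h]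
  have hed : ∀ i, e i * d i = 0 := fun i => by by_cases h : τ i = true <;> simp [d, e, h]
  have hdd : ∀ i, d i * d i + e i * e i = 1 := fun i => by by_cases h : τ i = true <;> simp [d, e, h]
  have hPP : Pᵀ * P = 1 := by
    ext y z
    rw [Matrix.mul_apply, Matrix.one_apply, Finset.sum_eq_single (π.symm y)]
    · simp [P]
    · intro i _ hi
      have : ¬ π i = y := fun h => hi (by rw [← h, Equiv.symm_apply_apply])
      simp [P, this]
    · intro h
      exact absurd (Finset.mem_univ _) h
  have h1 : (Matrix.diagonal d * P)ᵀ * (-(Matrix.diagonal e * P)) = 0 := by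
    rw [Matrix.mul_neg, Matrix.transpose_mul, Matrix.diagonal_transpose, Matrix.mul_assoc,
      ← Matrix.mul_assoc (Matrix.diagonal d), Matrix.diagonal_mul_diagonal]
    simp [hde]
  have h2 : (Matrix.diagonal e * P)ᵀ * (Matrix.diagonal d * P) = 0 := by
    rw [Matrix.transpose_mul, Matrix.diagonal_transpose, Matrix.mul_assoc,
      ← Matrix.mul_assoc (Matrix.diagonal e), Matrix.diagonal_mul_diagonal]
    simp [hed]
  have h3 : (Matrix.diagonal d * P)ᵀ * (Matrix.diagonal e * P) = 0 := by
    rw [Matrix.mul_neg] at h1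
    exact neg_eq_zero.1 h1
  have h4 : (Matrix.diagonal d * P)ᵀ * (Matrix.diagonal d * P) +
      (Matrix.diagonal e * P)ᵀ * (Matrix.diagonal e * P) = 1 := by
    rw [Matrix.transpose_mul, Matrix.diagonal_transpose, Matrix.mul_assoc,
      ← Matrix.mul_assoc (Matrix.diagonal d), Matrix.diagonal_mul_diagonal,
      Matrix.transpose_mul, Matrix.diagonal_transpose, Matrix.mul_assoc,
      ← Matrix.mul_assoc (Matrix.diagonal e), Matrix.diagonal_mul_diagonal, ← Matrix.mul_add,
      ← Matrix.add_mul, Matrix.diagonal_add]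
    simp only [hdd]
    simp [hPP]
  have hmem : Matrix.fromBlocks (Matrix.diagonal d * P) (Matrix.diagonal e * P)
      (-(Matrix.diagonal e * P)) (Matrix.diagonal d * P) ∈ Matrix.symplecticGroup (Fin n) k := by
    rw [SymplecticGroup.fromBlocks_mem_iff]
    refine ⟨?_, ?_, ?_⟩
    · rw [h1, Matrix.transpose_neg, Matrix.neg_mul, h2, neg_zero]
    · rw [h2, h3]
    · rw [Matrix.transpose_neg, Matrix.neg_mul, sub_neg_eq_add, h4]
  refine ⟨⟨_, hmem⟩, fun m y => ?_⟩
  have hτ : τ (Fin.castLE hj m) = σ m := by simp [τ]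
  rcases y with y | y
  · have : ent (⟨_, hmem⟩ : SpG k n) (Sum.inl (Fin.castLE hj m)) (Sum.inl y) =
        (Matrix.diagonal d * P) (Fin.castLE hj m) y := rfl
    rw [this, Matrix.diagonal_mul]
    simp only [d, P, hτ, Matrix.of_apply, hπ]
    by_cases h : σ m = true
    · simp [h]
    · by_cases h' : c m = y
      · simp [h, h']
      · simp [h, h', Ne.symm h']
  · have : ent (⟨_, hmem⟩ : SpG k n) (Sum.inl (Fin.castLE hj m)) (Sum.inr y) =
        (Matrix.diagonal e * P) (Fin.castLE hj m) y := rfl
    rw [this, Matrix.diagonal_mul]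
    simp only [e, P, hτ, Matrix.of_apply, hπ]
    by_cases h : σ m = true
    · by_cases h' : c m = y
      · simp [h, h']
      · simp [h, h', Ne.symm h']
    · simp [h]

private theorem m9_b (k : Type) [Field k] (n q : ℕ) (a b : Fin q → Fin n)
    (hab : Function.Injective (Sum.elim a b)) :
      ∃ u : SpG k n,
        (∀ l, act u (bv (Sum.inl (b l))) = bv (Sum.inl (b l)) + bv (Sum.inl (a l))) ∧
        (∀ l, act u (bv (Sum.inr (a l))) = bv (Sum.inr (a l)) - bv (Sum.inr (b l))) ∧
        (∀ c, (∀ l, c ≠ b l) → act u (bv (Sum.inl c)) = bv (Sum.inl c)) ∧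
        (∀ c, (∀ l, c ≠ a l) → act u (bv (Sum.inr c)) = bv (Sum.inr c)) := by
  classical
  have ha : Function.Injective a := fun l l' h => by
    have := @hab (Sum.inl l) (Sum.inl l') h
    exact Sum.inl_injective this
  have hb : Function.Injective b := fun l l' h => by
    have := @hab (Sum.inr l) (Sum.inr l') h
    exact Sum.inr_injective this
  have hne : ∀ l l', a l ≠ b l' := fun l l' h => by
    have := @hab (Sum.inl l) (Sum.inr l') h
    exact absurd this (by simp)
  let N : Matrix (Fin n) (Fin n) k := Matrix.of fun i y => ∑ l, if a l = i ∧ b l = y then 1 else 0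
  have hN : ∀ i y, N i y = ∑ l, if a l = i ∧ b l = y then (1 : k) else 0 := fun _ _ => rfl
  have hNN : N * N = 0 := by
    ext i y
    rw [Matrix.mul_apply, Matrix.zero_apply]
    refine Finset.sum_eq_zero fun z _ => ?_
    by_cases hz : ∃ l, b l = z
    · obtain ⟨l, rfl⟩ := hz
      have : N (b l) y = 0 := by
        rw [hN]
        refine Finset.sum_eq_zero fun l' _ => ?_
        rw [if_neg]
        rintro ⟨h, _⟩
        exact hne _ _ h
      rw [this, mul_zero]
    · have : N i z = 0 := by
        rw [hN]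
        refine Finset.sum_eq_zero fun l' _ => ?_
        rw [if_neg]
        rintro ⟨_, h⟩
        exact hz ⟨l', h⟩
      rw [this, zero_mul]
  have hNT : Nᵀ * Nᵀ = 0 := by rw [← Matrix.transpose_mul, hNN, Matrix.transpose_zero]
  have hmem : Matrix.fromBlocks (1 + N) 0 0 (1 - Nᵀ) ∈ Matrix.symplecticGroup (Fin n) k := by
    rw [SymplecticGroup.fromBlocks_mem_iff]
    refine ⟨by simp, by simp, ?_⟩
    rw [Matrix.transpose_add, Matrix.transpose_one, Matrix.transpose_zero, Matrix.zero_mul, sub_zero,
      Matrix.add_mul, Matrix.one_mul, Matrix.mul_sub, Matrix.mul_one, hNT]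
    abel
  have hact : ∀ x : Fin n ⊕ Fin n, act (⟨_, hmem⟩ : SpG k n) (bv x) =
      fun y => (Matrix.fromBlocks (1 + N) 0 0 (1 - Nᵀ)) y x := by
    intro x
    funext y
    simp [act, bv]
  have hNb : ∀ i l, N i (b l) = if a l = i then 1 else 0 := by
    intro i l
    rw [hN, Finset.sum_eq_single l]
    · simp
    · intro l' _ hl'
      rw [if_neg]
      rintro ⟨_, h⟩
      exact hl' (hb h)
    · intro h
      exact absurd (Finset.mem_univ _) h
  have hNa : ∀ i l, N (a l) i = if b l = i then 1 else 0 := by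
    intro i l
    rw [hN, Finset.sum_eq_single l]
    · simp
    · intro l' _ hl'
      rw [if_neg]
      rintro ⟨h, _⟩
      exact hl' (ha h)
    · intro h
      exact absurd (Finset.mem_univ _) h
  refine ⟨⟨_, hmem⟩, ?_, ?_, ?_, ?_⟩
  · intro l
    rw [hact]
    funext y
    rcases y with y | y
    · simp only [Matrix.fromBlocks_apply₁₁, Matrix.add_apply, Matrix.one_apply, hNb, Pi.add_apply, bv,
        Pi.single_apply, Sum.inl.injEq]
      simp only [eq_comm]
    · simp [bv]
  · intro l
    rw [hact]
    funext y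
    rcases y with y | y
    · simp [bv]
    · simp only [Matrix.fromBlocks_apply₂₂, Matrix.sub_apply, Matrix.one_apply, Matrix.transpose_apply,
        hNa, Pi.sub_apply, bv, Pi.single_apply, Sum.inr.injEq]
      simp only [eq_comm]
  · intro c hc
    rw [hact]
    funext y
    rcases y with y | y
    · have h0 : N y c = 0 := by
        rw [hN]
        refine Finset.sum_eq_zero fun l _ => ?_
        rw [if_neg]
        rintro ⟨_, h⟩
        exact hc l h.symm
      simp only [Matrix.fromBlocks_apply₁₁, Matrix.add_apply, Matrix.one_apply, h0, add_zero, bv,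
        Pi.single_apply, Sum.inl.injEq]
    · simp [bv]
  · intro c hc
    rw [hact]
    funext y
    rcases y with y | y
    · simp [bv]
    · have h0 : N c y = 0 := by
        rw [hN]
        refine Finset.sum_eq_zero fun l _ => ?_
        rw [if_neg]
        rintro ⟨h, _⟩
        exact hc l h.symm
      simp only [Matrix.fromBlocks_apply₂₂, Matrix.sub_apply, Matrix.one_apply, Matrix.transpose_apply,
        h0, sub_zero, bv, Pi.single_apply, Sum.inr.injEq]

theorem p_M9 : S_M9 := by
  intro k _ n
  exact ⟨fun j hj c σ hc => m9_a k n j hj c σ hc, fun q a b hab => m9_b k n q a b hab⟩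

end Pool.Agent.Sp49
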