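import Mathlib
import Pool.Agent.Lib.MP_49c83e_al.StmP

/-!
MP_49c83e_al, piece P1: calculus of functions regular on the locus z ≠ 0.
-/

set_option autoImplicit false

namespace Pool.Agent.Sp49

open scoped BigOperators

section

variable {k : Type} [Field k] {X : Type} [RS k X]

/-- sums -/
theorem p1_add (z F G : X → k) (hz : z ∈ regA k X) (hF : LR k z F) (hG : LR k z G) :
    LR k z (fun x => F x + G x) := by
  obtain ⟨N, Φ, hΦ, h1⟩ := hF
  obtain ⟨M, Ψ, hΨ, h2⟩ := hG
  refine ⟨N + M, z ^ M * Φ + z ^ N * Ψ,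
    Subalgebra.add_mem _ (Subalgebra.mul_mem _ (Subalgebra.pow_mem _ hz _) hΦ)
      (Subalgebra.mul_mem _ (Subalgebra.pow_mem _ hz _) hΨ), ?_⟩
  intro x hx
  simp only [Pi.add_apply, Pi.mul_apply, Pi.pow_apply, h1 x hx, h2 x hx]
  ring

/-- products -/
theorem p1_mul (z F G : X → k) (hF : LR k z F) (hG : LR k z G) :
    LR k z (fun x => F x * G x) := by
  obtain ⟨N, Φ, hΦ, h1⟩ := hF
  obtain ⟨M, Ψ, hΨ, h2⟩ := hG
  refine ⟨N + M, Φ * Ψ, Subalgebra.mul_mem _ hΦ hΨ, ?_⟩
  intro x hx
  simp only [Pi.mul_apply, h1 x hx, h2 x hx]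
  ring

/-- regular functions -/
theorem p1_reg (z F : X → k) (hF : F ∈ regA k X) : LR k z F :=
  ⟨0, F, hF, fun x _ => by simp⟩

/-- enlarging the denominator -/
theorem p1_den (z w F : X → k) (hw : w ∈ regA k X) (hF : LR k z F) :
    LR k (fun x => z x * w x) F := by
  obtain ⟨N, Φ, hΦ, h1⟩ := hF
  refine ⟨N, w ^ N * Φ, Subalgebra.mul_mem _ (Subalgebra.pow_mem _ hw _) hΦ, ?_⟩
  intro x hx
  simp only [Pi.mul_apply, Pi.pow_apply, h1 x (left_ne_zero_of_mul hx)]
  ring

/-- changing values outside of the locus -/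
theorem p1_congr (z F G : X → k) (hF : LR k z F) (h : ∀ x, z x ≠ 0 → G x = F x) :
    LR k z G := by
  obtain ⟨N, Φ, hΦ, h1⟩ := hF
  exact ⟨N, Φ, hΦ, fun x hx => by rw [h x hx, h1 x hx]⟩

/-- finite sums -/
theorem p1_sum (z : X → k) (hz : z ∈ regA k X) (A : Type) (s : Finset A) (F : A → X → k)
    (h : ∀ a ∈ s, LR k z (F a)) : LR k z (fun x => ∑ a ∈ s, F a x) := by
  classical
  induction s using Finset.induction_on with
  | empty =>
    refine p1_congr z (0 : X → k) _ (p1_reg z 0 (Subalgebra.zero_mem _)) ?_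
    intro x _
    simp
  | insert a s ha ih =>
    refine p1_congr z (fun x => F a x + ∑ b ∈ s, F b x) _
      (p1_add z _ _ hz (h a (Finset.mem_insert_self _ _))
        (ih fun b hb => h b (Finset.mem_insert_of_mem hb))) ?_
    intro x _
    rw [Finset.sum_insert ha]

end

theorem p_P1 : S_P1 := by
  intro k _ X _ z w hz hw
  refine ⟨?_, ?_, ?_, ?_, ?_, ?_, ?_, ?_, ?_⟩
  · intro F G hF hG
    exact p1_add z F G hz hF hG
  · intro F G hF hG
    have h1 : LR k z (fun x => (-1 : k) * G x) :=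
      p1_mul z (fun _ => (-1 : k)) G
        (p1_reg z _ (Subalgebra.algebraMap_mem (regA k X) (-1 : k))) hG
    refine p1_congr z _ _ (p1_add z F _ hz hF h1) ?_
    intro x _
    ring
  · intro F G hF hG
    exact p1_mul z F G hF hG
  · intro F hF
    exact p1_reg z F hF
  · intro F hF
    exact p1_den z w F hw hF
  · intro F hF
    have h1 := p1_den z w F hw hF
    have e : (fun x => w x * z x) = fun x => z x * w x := by
      funext x
      ring
    rw [e]
    exact h1
  · intro F G hF h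
    exact p1_congr z F G hF h
  · refine ⟨1, 1, Subalgebra.one_mem _, ?_⟩
    intro x hx
    simp [hx]
  · intro A s F h
    exact p1_sum z hz A s F h

end Pool.Agent.Sp49
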