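import Pool.Agent.Lib.MP_49c83e_al.StmP

/-!
MP_49c83e_al, piece P10: H^1 of k[Gm], vector valued version.
-/

namespace Pool.Agent.Sp49

open scoped BigOperators

theorem p_P10 (h6 : S_R6) (hP9 : S_P9) : S_P10 := by
  intro k _ _ Gm P ι _ _ _ _ _ _ _ C e M _ _ he b hb hrel
  obtain ⟨N, f, m, hm, hf, hbe⟩ := (h6 k (P × Gm) Gm M).1 b hb
  have hcoef : ∀ i h1 h2 x, f i (h1 * h2, x) =
      f i (h1, x) + (C.χ h1 : k) ^ e * f i (h2, x * C.inc h1) := by
    intro i h1 h2 x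
    have h := hrel h1 h2 x
    rw [hbe, hbe, hbe, Finset.smul_sum, ← Finset.sum_add_distrib] at h
    have h0 : ∑ i, (f i (h1 * h2, x) - (f i (h1, x) +
        (C.χ h1 : k) ^ e * f i (h2, x * C.inc h1))) • m i = 0 := by
      simp only [sub_smul, add_smul, mul_smul]
      rw [Finset.sum_sub_distrib, h, sub_self]
    exact sub_eq_zero.1 (Fintype.linearIndependent_iff.1 hm _ h0 i)
  have hF : ∀ i, ∃ F ∈ regA k Gm, ∀ h x,
      f i (h, x) = (C.χ h : k) ^ e * F (x * C.inc h) - F x := fun i =>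
    hP9 k Gm P ι C e he (f i) (hf i) (hcoef i)
  choose F hF1 hF2 using hF
  refine ⟨∑ i, fun x => F i x • m i, Submodule.sum_mem _ fun i _ =>
    Submodule.subset_span ⟨F i, hF1 i, m i, rfl⟩, fun h x => ?_⟩
  rw [hbe, Finset.sum_apply, Finset.sum_apply, Finset.smul_sum, ← Finset.sum_sub_distrib]
  apply Finset.sum_congr rfl
  intro i _
  rw [hF2 i h x, sub_smul, mul_smul]

end Pool.Agent.Sp49
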