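import Pool.Agent.Lib.MP_49c83e_al.StmP

namespace Pool.Agent.Sp49

open scoped BigOperators

theorem p_P12 (h6 : S_R6) (hP11 : S_P11) : S_P12 := by
  intro k _ _ Gm P ι _ _ _ _ _ _ _ _ C M _ _ hcard f hf hrel
  obtain ⟨N, g, m, hm, hg, hfg⟩ := (h6 k (P × P × Gm) (P × P × Gm) M).1 f hf
  have key : ∀ (i : Fin N) (a b c : P) (x : Gm),
      (C.χ a : k) * g i (b, c, x * C.inc a) - g i (a * b, c, x) + g i (a, b * c, x) -
        g i (a, b, x) = 0 := by
    intro i a b c x
    refine Fintype.linearIndependent_iff.1 hm (fun i => (C.χ a : k) * g i (b, c, x * C.inc a) -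
      g i (a * b, c, x) + g i (a, b * c, x) - g i (a, b, x)) ?_ i
    have h := hrel a b c x
    rw [hfg, hfg, hfg, hfg, Finset.smul_sum, ← Finset.sum_sub_distrib, ← Finset.sum_add_distrib,
      ← Finset.sum_sub_distrib] at h
    rw [← h]
    refine Finset.sum_congr rfl fun j _ => ?_
    rw [sub_smul, add_smul, sub_smul, mul_smul]
  choose A hA hArel using fun i => hP11 k Gm P ι C hcard (g i) (hg i) (key i)
  refine ⟨fun q => ∑ i, A i q • m i, ?_, ?_⟩
  · have h : (fun q : P × Gm => ∑ i, A i q • m i) =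
        ∑ i, (fun q : P × Gm => A i q • m i) := by
      funext q
      rw [Finset.sum_apply]
    rw [h]
    exact Submodule.sum_mem _ fun i _ => Submodule.subset_span ⟨A i, hA i, m i, rfl⟩
  · intro a b x
    show f (a, b, x) = (C.χ a : k) • (∑ i, A i (b, x * C.inc a) • m i) -
      (∑ i, A i (a * b, x) • m i) + ∑ i, A i (a, x) • m i
    rw [hfg, Finset.smul_sum, ← Finset.sum_sub_distrib, ← Finset.sum_add_distrib]
    refine Finset.sum_congr rfl fun j _ => ?_
    rw [hArel j a b x, add_smul, sub_smul, mul_smul]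

end Pool.Agent.Sp49
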