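import Pool.Agent.Lib.MP_49c83e_al.StmP

/-!
MP_49c83e_al, piece P13: vanishing of H^0 and H^1 of chi ⊗ N.
-/

namespace Pool.Agent.Sp49

open scoped BigOperators

theorem p_P13 (h2 : S_R2) (h3 : S_R3) (h7 : S_R7) (hP8 : S_P8) (hP10 : S_P10) : S_P13 := by
  intro k _ _ Gm P ι _ _ _ _ _ _ _ _ C N _ _ ρ hρ
  have act : ∀ (h : P) (n : N), twR C ρ h n = (C.χ h : k) • ρ (C.inc h) n := fun _ _ => rfl
  have rmul : ∀ (a b : Gm) (n : N), ρ (a * b) n = ρ a (ρ b n) := fun a b n => by
    rw [map_mul]; rfl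
  constructor
  · -- H^0
    rw [eq_bot_iff]
    intro m hm
    have hm' : ∀ h : P, (C.χ h : k) • ρ (C.inc h) m = m := by
      intro h
      have := congrFun (LinearMap.mem_ker.mp hm) h
      have h1 : twR C ρ h m - m = 0 := this
      rw [act] at h1
      exact sub_eq_zero.mp h1
    have h0 := (hP8 k Gm P ι C N (fun g => ρ g m) (hρ m)).2 (by
      intro x h
      rw [rmul, ← map_smul, hm']) 1
    have h0' : ρ 1 m = 0 := h0
    rw [map_one] at h0'
    exact (Submodule.mem_bot k).mpr h0'
  · -- H^1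
    intro f hf
    obtain ⟨hf1, hf2⟩ := Submodule.mem_inf.mp hf
    have hcoc : ∀ a b : P, f (a * b) = f a + (C.χ a : k) • ρ (C.inc a) (f b) := by
      intro a b
      have := congrFun (LinearMap.mem_ker.mp hf2) (a, b)
      have h1 : twR C ρ a (f b) - f (a * b) + f a = 0 := this
      rw [act] at h1
      have h4 : f (a * b) = (C.χ a : k) • ρ (C.inc a) (f b) + f a := by
        rw [sub_add_eq_add_sub, sub_eq_zero] at h1
        exact h1.symm
      rw [h4, add_comm]
    -- the regular family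
    obtain ⟨-, -, -, hfst, hsnd, -⟩ := h2 k P Gm Gm
    have hb : (fun q : P × Gm => ρ q.2 (f q.1)) ∈ RM k (P × Gm) N := by
      refine h7 k (P × Gm) Gm N ρ hρ (fun q => q.2) (fun q => f q.1) hsnd ?_
      exact (h3 k (P × Gm) P N N).1 (fun q => q.1) f hfst hf1
    obtain ⟨F, hF, hFb⟩ := hP10 k Gm P ι C 1 N le_rfl (fun q => ρ q.2 (f q.1)) hb (by
      intro a b x
      show ρ x (f (a * b)) = ρ x (f a) + (C.χ a : k) ^ 1 • ρ (x * C.inc a) (f b)
      rw [hcoc, map_add, map_smul, rmul, pow_one])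
    have hFb' : ∀ (h : P) (x : Gm), ρ x (f h) = (C.χ h : k) • F (x * C.inc h) - F x := by
      intro h x
      have := hFb h x
      rw [pow_one] at this
      exact this
    -- equivariance of F
    have hreg : ∀ x' : Gm, IsReg k (fun x : Gm => x' * x) := by
      intro x'
      obtain ⟨hid, -, hconst, -, -, hpair⟩ := h2 k Gm Gm Gm
      obtain ⟨-, hcomp, -, -, -, -⟩ := h2 k Gm (Gm × Gm) Gm
      exact hcomp (fun x => (x', x)) (fun q => q.1 * q.2) (hpair (fun _ => x') (fun x => x)
        (hconst x') hid) RG.mul_reg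
    have hequiv : ∀ x' x : Gm, F (x' * x) = ρ x' (F x) := by
      intro x' x
      have hG : (fun x : Gm => F (x' * x) - ρ x' (F x)) ∈ RM k Gm N := by
        have a1 := (h3 k Gm Gm N N).1 (fun x => x' * x) F (hreg x') hF
        have a2 := (h3 k Gm Gm N N).2.1 (ρ x') F hF
        exact (RM k Gm N).sub_mem a1 a2
      have h0 := (hP8 k Gm P ι C N _ hG).2 (by
        intro y h
        have e1 := hFb' h (x' * y)
        have e2 := hFb' h y
        have e3 : ρ (x' * y) (f h) = ρ x' (ρ y (f h)) := rmul _ _ _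
        have e4 : (C.χ h : k) • F (x' * y * C.inc h) = ρ (x' * y) (f h) + F (x' * y) := by
          rw [e1]; abel
        have e5 : (C.χ h : k) • F (y * C.inc h) = ρ y (f h) + F y := by
          rw [e2]; abel
        show (C.χ h : k) • (F (x' * (y * C.inc h)) - ρ x' (F (y * C.inc h))) =
          F (x' * y) - ρ x' (F y)
        rw [smul_sub, ← map_smul, ← mul_assoc, e4, e5, map_add, e3]
        abel) x
      exact sub_eq_zero.mp h0
    refine ⟨F 1, ?_⟩
    funext h
    show twR C ρ h (F 1) - F 1 = f h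
    have e1 := hFb' h 1
    rw [map_one] at e1
    have e2 : (1 : N →ₗ[k] N) (f h) = f h := rfl
    rw [e2, one_mul] at e1
    rw [act, e1]
    have e3 := hequiv (C.inc h) 1
    rw [mul_one] at e3
    rw [e3]

end Pool.Agent.Sp49
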