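import Pool.Agent.Lib.MP_49c83e_al.StmP

/-!
MP_49c83e_al, piece P14: vanishing of H^2 of chi ⊗ N when ι has two elements.
-/

namespace Pool.Agent.Sp49

open scoped BigOperators

private lemma p14_twR {k : Type} [Field k] {Gm P ι : Type} [Group Gm] [Group P] [RS k Gm]
    [RS k P] [Fintype ι] (C : Chart k Gm P ι) {N : Type} [AddCommGroup N] [Module k N]
    (ρ : Representation k Gm N) (h : P) (m : N) :
    twR C ρ h m = (C.χ h : k) • ρ (C.inc h) m := rfl

private lemma p14_mul {k : Type} [Field k] {G N : Type} [Group G] [AddCommGroup N] [Module k N]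
    (ρ : Representation k G N) (a b : G) (m : N) : ρ (a * b) m = ρ a (ρ b m) := by
  rw [map_mul]; rfl

theorem p_P14 (h2 : S_R2) (h3 : S_R3) (h5 : S_R5) (h7 : S_R7) (h8 : S_R8) (hP8 : S_P8)
    (hP10 : S_P10) (hP12 : S_P12) : S_P14 := by
  intro k _ _ Gm P ι _ _ _ _ _ _ _ _ C N _ _ ρ hρ hcard f hf
  obtain ⟨hf1, hf2⟩ := hf
  -- the cocycle identity
  have hcoc : ∀ a b c : P, (C.χ a : k) • ρ (C.inc a) (f (b, c)) - f (a * b, c) + f (a, b * c) -
      f (a, b) = 0 := by
    intro a b c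
    have := congrFun (LinearMap.mem_ker.mp hf2) (a, b, c)
    exact this
  -- regularity facts
  have hincreg : IsReg k (fun h : P => C.inc h) := by
    intro F hF
    exact (C.reg _).2 ⟨F, hF, rfl⟩
  -- projections on P × P × Gm
  have pr1 : IsReg k (fun q : P × P × Gm => q.1) := (h2 k P (P × Gm) P).2.2.2.1
  have pr2 : IsReg k (fun q : P × P × Gm => q.2) := (h2 k P (P × Gm) P).2.2.2.2.1
  have pr21 : IsReg k (fun q : P × P × Gm => q.2.1) :=
    (h2 k (P × P × Gm) (P × Gm) P).2.1 _ _ pr2 (h2 k P Gm P).2.2.2.1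
  have pr22 : IsReg k (fun q : P × P × Gm => q.2.2) :=
    (h2 k (P × P × Gm) (P × Gm) Gm).2.1 _ _ pr2 (h2 k P Gm P).2.2.2.2.1
  have pr12 : IsReg k (fun q : P × P × Gm => (q.1, q.2.1)) :=
    (h2 k (P × P × Gm) P P).2.2.2.2.2 _ _ pr1 pr21
  have hg : (fun q : P × P × Gm => ρ q.2.2 (f (q.1, q.2.1))) ∈ RM k (P × P × Gm) N :=
    h7 k (P × P × Gm) Gm N ρ hρ (fun q => q.2.2) (fun q => f (q.1, q.2.1)) pr22
      ((h3 k (P × P × Gm) (P × P) N N).1 _ f pr12 hf1)
  obtain ⟨A, hA, hAf⟩ := hP12 k Gm P ι C N hcard _ hg (by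
    intro a b c x
    simp only
    have h := congrArg (ρ x) (hcoc a b c)
    rw [map_zero, map_sub, map_add, map_sub, map_smul, ← p14_mul] at h
    exact h)
  have hAf' : ∀ a b x, ρ x (f (a, b)) = (C.χ a : k) • A (b, x * C.inc a) - A (a * b, x) + A (a, x) :=
    fun a b x => hAf a b x
  -- the difference Phi, as a regular map to RM k Gm N
  set Φ : (P × Gm) × Gm → N := fun q => A (q.1.1, q.2 * q.1.2) - ρ q.2 (A q.1) with hΦ
  have q1 : IsReg k (fun q : (P × Gm) × Gm => q.1) := (h2 k (P × Gm) Gm P).2.2.2.1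
  have q2 : IsReg k (fun q : (P × Gm) × Gm => q.2) := (h2 k (P × Gm) Gm P).2.2.2.2.1
  have q11 : IsReg k (fun q : (P × Gm) × Gm => q.1.1) :=
    (h2 k ((P × Gm) × Gm) (P × Gm) P).2.1 _ _ q1 (h2 k P Gm P).2.2.2.1
  have q12 : IsReg k (fun q : (P × Gm) × Gm => q.1.2) :=
    (h2 k ((P × Gm) × Gm) (P × Gm) Gm).2.1 _ _ q1 (h2 k P Gm P).2.2.2.2.1
  have qm : IsReg k (fun q : (P × Gm) × Gm => q.2 * q.1.2) :=
    (h8 k ((P × Gm) × Gm) Gm).1 _ _ q2 q12
  have qp : IsReg k (fun q : (P × Gm) × Gm => (q.1.1, q.2 * q.1.2)) :=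
    (h2 k ((P × Gm) × Gm) P Gm).2.2.2.2.2 _ _ q11 qm
  have hΦr : Φ ∈ RM k ((P × Gm) × Gm) N := by
    have e1 : (fun q : (P × Gm) × Gm => A (q.1.1, q.2 * q.1.2)) ∈ RM k ((P × Gm) × Gm) N :=
      (h3 k ((P × Gm) × Gm) (P × Gm) N N).1 _ A qp hA
    have e2 : (fun q : (P × Gm) × Gm => ρ q.2 (A q.1)) ∈ RM k ((P × Gm) × Gm) N :=
      h7 k ((P × Gm) × Gm) Gm N ρ hρ (fun q => q.2) (fun q => A q.1) q2
        ((h3 k ((P × Gm) × Gm) (P × Gm) N N).1 _ A q1 hA)
    exact Submodule.sub_mem _ e1 e2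
  obtain ⟨_, hsl, _, hcur⟩ := h5 k (P × Gm) Gm N Φ hΦr
  have hB := hcur hsl
  obtain ⟨H, hH, hHB⟩ := hP10 k Gm P ι C 1 (RM k Gm N) le_rfl _ hB (by
    intro a b x
    apply Subtype.ext
    funext x'
    simp only [Submodule.coe_add, Submodule.coe_smul, Pi.add_apply, Pi.smul_apply, pow_one, hΦ]
    have e1 := hAf' a b (x' * x)
    have e2 := congrArg (ρ x') (hAf' a b x)
    rw [← p14_mul, e1, map_add, map_sub, map_smul] at e2
    rw [← mul_assoc, smul_sub]
    have e3 : A (a * b, x' * x) - ρ x' (A (a * b, x)) =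
        (C.χ a : k) • A (b, x' * x * C.inc a) + A (a, x' * x) -
          ((C.χ a : k) • ρ x' (A (b, x * C.inc a)) + ρ x' (A (a, x))) := by
      rw [sub_eq_sub_iff_add_eq_add]
      rw [sub_add_eq_add_sub, sub_add_eq_add_sub, sub_eq_sub_iff_add_eq_add] at e2
      calc A (a * b, x' * x) + ((C.χ a : k) • ρ x' (A (b, x * C.inc a)) + ρ x' (A (a, x))) =
          (C.χ a : k) • ρ x' (A (b, x * C.inc a)) + ρ x' (A (a, x)) + A (a * b, x' * x) := by abel
        _ = (C.χ a : k) • A (b, x' * x * C.inc a) + A (a, x' * x) + ρ x' (A (a * b, x)) := e2.symm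
    rw [e3]
    abel)
  -- in terms of functions
  set h : Gm → Gm → N := fun x' x => (H x : Gm → N) x' with hh
  have hΦh : ∀ (a : P) (x x' : Gm), A (a, x' * x) - ρ x' (A (a, x)) =
      (C.χ a : k) • h x' (x * C.inc a) - h x' x := by
    intro a x x'
    have e := congrArg (fun z : RM k Gm N => (z : Gm → N) x') (hHB a x)
    simp only [pow_one, Submodule.coe_sub, Submodule.coe_smul, Pi.sub_apply, Pi.smul_apply] at e
    exact e
  -- regularity of h x' ·
  have hhreg : ∀ x', (fun x => h x' x) ∈ RM k Gm N := by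
    intro x'
    exact (h3 k Gm Gm (RM k Gm N) N).2.1
      ((LinearMap.proj x' : (Gm → N) →ₗ[k] N).comp (RM k Gm N).subtype) H hH
  have lmul : ∀ x' : Gm, IsReg k (fun x : Gm => x' * x) := fun x' =>
    (h8 k Gm Gm).1 (fun _ => x') (fun x => x) ((h2 k Gm Gm Gm).2.2.1 x') (h2 k Gm Gm Gm).1
  -- the cocycle identity for h
  have hcoh : ∀ x'' x' x : Gm, h (x'' * x') x = h x'' (x' * x) + ρ x'' (h x' x) := by
    intro x'' x'
    set D : Gm → N := fun x => h (x'' * x') x - h x'' (x' * x) - ρ x'' (h x' x) with hD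
    have hDr : D ∈ RM k Gm N := by
      refine Submodule.sub_mem _ (Submodule.sub_mem _ (hhreg _) ?_) ?_
      · exact (h3 k Gm Gm N N).1 (fun x => x' * x) (fun x => h x'' x) (lmul x') (hhreg x'')
      · exact (h3 k Gm Gm N N).2.1 (ρ x'') (fun x => h x' x) (hhreg x')
    have hz := (hP8 k Gm P ι C N D hDr).2 (by
      intro x a
      simp only [hD]
      have e1 := hΦh a x (x'' * x')
      have e2 := hΦh a (x' * x) x''
      have e3 := congrArg (ρ x'') (hΦh a x x')
      rw [map_sub, map_sub, map_smul, ← p14_mul] at e3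
      rw [smul_sub, smul_sub]
      rw [mul_assoc x'' x' x] at e1
      rw [← mul_assoc x' x (C.inc a)]
      have e4 : (C.χ a : k) • h (x'' * x') (x * C.inc a) = A (a, x'' * (x' * x)) -
          ρ (x'' * x') (A (a, x)) + h (x'' * x') x := by rw [e1]; abel
      have e5 : (C.χ a : k) • h x'' (x' * x * C.inc a) = A (a, x'' * (x' * x)) -
          ρ x'' (A (a, x' * x)) + h x'' (x' * x) := by rw [e2]; abel
      have e6 : (C.χ a : k) • ρ x'' (h x' (x * C.inc a)) = ρ x'' (A (a, x' * x)) -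
          ρ (x'' * x') (A (a, x)) + ρ x'' (h x' x) := by rw [e3]; abel
      rw [e4, e5, e6]
      abel)
    intro x
    have := hz x
    simp only [hD] at this
    rw [sub_sub, sub_eq_zero] at this
    exact this
  set E : Gm → N := fun x' => h x' 1 with hE
  have hEr : E ∈ RM k Gm N := (H 1).2
  have hhE : ∀ x'' x' : Gm, h x'' x' = E (x'' * x') - ρ x'' (E x') := by
    intro x'' x'
    have := hcoh x'' x' 1
    rw [mul_one] at this
    simp only [hE]
    rw [this]
    abel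
  -- the corrected cochain
  have hA' : ∀ (a : P) (x' x : Gm),
      A (a, x' * x) - ((C.χ a : k) • E (x' * x * C.inc a) - E (x' * x)) =
      ρ x' (A (a, x) - ((C.χ a : k) • E (x * C.inc a) - E x)) := by
    intro a x' x
    have e1 := hΦh a x x'
    rw [hhE, hhE, smul_sub, ← mul_assoc] at e1
    rw [map_sub, map_sub, map_smul]
    have e2 : A (a, x' * x) = ρ x' (A (a, x)) + ((C.χ a : k) • E (x' * x * C.inc a) -
        (C.χ a : k) • ρ x' (E (x * C.inc a)) - (E (x' * x) - ρ x' (E x))) := by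
      rw [← e1]; abel
    rw [e2]
    abel
  set ψ : P → N := fun a => A (a, 1) - ((C.χ a : k) • E (C.inc a) - E 1) with hψ
  have hψr : ψ ∈ RM k P N := by
    obtain ⟨_, _, hsl2, _⟩ := h5 k P Gm N A hA
    refine Submodule.sub_mem _ (hsl2 1) (Submodule.sub_mem _ ?_ ?_)
    · exact (h3 k P P N N).2.2.1 (fun a => (C.χ a : k)) (fun a => E (C.inc a)) C.χ_reg
        ((h3 k P Gm N N).1 (fun a => C.inc a) E hincreg hEr)
    · exact (h3 k P P N N).2.2.2.2.1 (E 1)
  have hA1 : ∀ (a : P) (x : Gm), A (a, x) - ((C.χ a : k) • E (x * C.inc a) - E x) =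
      ρ x (ψ a) := by
    intro a x
    have := hA' a x 1
    rw [mul_one, one_mul] at this
    exact this
  refine Submodule.mem_map.mpr ⟨ψ, hψr, ?_⟩
  funext q
  obtain ⟨a, b⟩ := q
  change twR C ρ a (ψ b) - ψ (a * b) + ψ a = f (a, b)
  rw [p14_twR]
  have e0 := hAf' a b 1
  rw [map_one] at e0
  simp only [Module.End.one_apply, one_mul] at e0
  rw [← hA1 b (C.inc a), e0]
  simp only [hψ]
  rw [map_mul C.χ, map_mul C.inc, smul_sub, smul_sub, Units.val_mul, mul_smul]
  abel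

end Pool.Agent.Sp49
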