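import Pool.Agent.Lib.MP_49c83e_al.StmP

namespace Pool.Agent.Sp49

open scoped BigOperators

private theorem p15_d2d1 {k : Type} [Field k] {Γ : Type} [Group Γ] [RS k Γ]
    {M : Type} [AddCommGroup M] [Module k M] (ρ : Representation k Γ M) (F : Γ → M) :
    d2 ρ (d1 ρ F) = 0 := by
  funext q
  obtain ⟨a, b, c⟩ := q
  show ρ a (ρ b (F c) - F (b * c) + F b) - (ρ (a * b) (F c) - F (a * b * c) + F (a * b)) +
    (ρ a (F (b * c)) - F (a * (b * c)) + F a) - (ρ a (F b) - F (a * b) + F a) = 0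
  rw [map_add, map_sub, map_mul, Module.End.mul_apply, mul_assoc]
  abel

theorem p_P15 (h2 : S_R2) (h3 : S_R3) (h5 : S_R5) (h7 : S_R7) (h8 : S_R8) (hP8 : S_P8)
    (hP10 : S_P10) : S_P15 := by
  intro k _ _ Gm P ι _ _ _ _ _ _ _ _ C M _ _ ρ hρ f hf ψ hψ hres
  obtain ⟨hfR, hfZ⟩ := hf
  have hcoc : ∀ a b c, ρ a (f (b, c)) - f (a * b, c) + f (a, b * c) - f (a, b) = 0 := by
    intro a b c
    exact congrFun (LinearMap.mem_ker.1 hfZ) (a, b, c)
  have hinc : IsReg k (fun h : P => C.inc h) := fun F hF => (C.reg _).2 ⟨F, hF, rfl⟩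
  have hfst : IsReg k (fun q : P × Gm => q.1) := (h2 k P Gm P).2.2.2.1
  have hsnd : IsReg k (fun q : P × Gm => q.2) := (h2 k P Gm P).2.2.2.2.1
  have hincfst : IsReg k (fun q : P × Gm => C.inc q.1) :=
    (h2 k (P × Gm) P Gm).2.1 _ _ hfst hinc
  have hpair : IsReg k (fun q : P × Gm => (q.2, C.inc q.1)) :=
    (h2 k (P × Gm) Gm Gm).2.2.2.2.2 _ _ hsnd hincfst
  have hbR : (fun q : P × Gm => f (q.2, C.inc q.1) - ρ q.2 (ψ q.1)) ∈ RM k (P × Gm) M := by
    have e1 : (fun q : P × Gm => f (q.2, C.inc q.1)) ∈ RM k (P × Gm) M :=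
      (h3 k (P × Gm) (Gm × Gm) M M).1 _ f hpair hfR
    have e2 : (fun q : P × Gm => ψ q.1) ∈ RM k (P × Gm) M :=
      (h3 k (P × Gm) P M M).1 _ ψ hfst hψ
    have e3 : (fun q : P × Gm => ρ q.2 (ψ q.1)) ∈ RM k (P × Gm) M :=
      h7 k (P × Gm) Gm M ρ hρ _ _ hsnd e2
    exact Submodule.sub_mem _ e1 e3
  obtain ⟨F, hF, hFb⟩ := hP10 k Gm P ι C 0 M (Nat.zero_le _) _ hbR (by
    intro h1 h2 x
    show f (x, C.inc (h1 * h2)) - ρ x (ψ (h1 * h2)) = f (x, C.inc h1) - ρ x (ψ h1) +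
      (C.χ h1 : k) ^ 0 • (f (x * C.inc h1, C.inc h2) - ρ (x * C.inc h1) (ψ h2))
    have c1 := hcoc x (C.inc h1) (C.inc h2)
    rw [hres h1 h2, map_add, map_sub] at c1
    rw [pow_zero, one_smul, map_mul ρ, Module.End.mul_apply, map_mul C.inc]
    have c2 : f (x, C.inc h1 * C.inc h2) = f (x, C.inc h1) + f (x * C.inc h1, C.inc h2) -
        (ρ x (ρ (C.inc h1) (ψ h2)) - ρ x (ψ (h1 * h2)) + ρ x (ψ h1)) := by
      rw [← sub_eq_zero, ← c1]; abel
    rw [c2]; abel)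
  have hFb' : ∀ x h, f (x, C.inc h) = ρ x (ψ h) + F (x * C.inc h) - F x := by
    intro x h
    have h0 := hFb h x
    simp only [pow_zero, one_smul] at h0
    have h1 : f (x, C.inc h) = f (x, C.inc h) - ρ x (ψ h) + ρ x (ψ h) := by abel
    rw [h1, h0]; abel
  -- the modified cocycle
  set f' : Gm × Gm → M := fun q => f q + (ρ q.1 (F q.2) - F (q.1 * q.2) + F q.1) with hf'
  have hf'eq : f' = f + d1 ρ F := rfl
  have hcoc' : ∀ a b c, ρ a (f' (b, c)) - f' (a * b, c) + f' (a, b * c) - f' (a, b) = 0 := by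
    intro a b c
    have h0 : d2 ρ f' = 0 := by
      rw [hf'eq, map_add, p15_d2d1, LinearMap.mem_ker.1 hfZ, add_zero]
    exact congrFun h0 (a, b, c)
  have hf'P : ∀ x h, f' (x, C.inc h) = ρ x (ψ h + F (C.inc h)) := by
    intro x h
    show f (x, C.inc h) + (ρ x (F (C.inc h)) - F (x * C.inc h) + F x) = _
    rw [hFb' x h, map_add]; abel
  have hm0 : ∀ h, ψ h + F (C.inc h) = f' (1, 1) := by
    intro h
    have e1 := hf'P 1 h
    rw [map_one, Module.End.one_apply] at e1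
    have e2 := hcoc' 1 1 (C.inc h)
    rw [map_one, Module.End.one_apply, one_mul, one_mul] at e2
    rw [← e1]
    have e3 : f' (1, C.inc h) - f' (1, 1) = 0 := by rw [← e2]; abel
    exact sub_eq_zero.1 e3
  set m0 : M := f' (1, 1) with hm0def
  have hf'P' : ∀ x h, f' (x, C.inc h) = ρ x m0 := by
    intro x h
    rw [hf'P x h, hm0 h]
  have hzero : ∀ a b, f' (a, b) = ρ a m0 := by
    intro a b
    have hreg : (fun b => f' (a, b) - ρ a m0) ∈ RM k Gm M := by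
      have e1 : (fun b => f (a, b)) ∈ RM k Gm M := (h5 k Gm Gm M f hfR).2.1 a
      have e2 : (fun b => ρ a (F b)) ∈ RM k Gm M := (h3 k Gm Gm M M).2.1 (ρ a) F hF
      have e3 : IsReg k (fun b : Gm => a * b) :=
        (h8 k Gm Gm).1 (fun _ => a) (fun b => b) ((h2 k Gm Gm Gm).2.2.1 a) (h2 k Gm Gm Gm).1
      have e4 : (fun b => F (a * b)) ∈ RM k Gm M := (h3 k Gm Gm M M).1 _ F e3 hF
      have e5 : (fun _ : Gm => F a) ∈ RM k Gm M := (h3 k Gm Gm M M).2.2.2.2.1 (F a)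
      have e6 : (fun _ : Gm => ρ a m0) ∈ RM k Gm M := (h3 k Gm Gm M M).2.2.2.2.1 (ρ a m0)
      exact Submodule.sub_mem _
        (Submodule.add_mem _ e1 (Submodule.add_mem _ (Submodule.sub_mem _ e2 e4) e5)) e6
    have hinv : ∀ x h, f' (a, x * C.inc h) - ρ a m0 = f' (a, x) - ρ a m0 := by
      intro x h
      have e1 := hcoc' a x (C.inc h)
      rw [hf'P' x h, hf'P' (a * x) h, map_mul, Module.End.mul_apply, sub_self, zero_add] at e1
      rw [sub_eq_zero.1 e1]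
    have e1 := (hP8 k Gm P ι C M (fun b => f' (a, b) - ρ a m0) hreg).1 hinv b
    have e2 : f' (a, b) - ρ a m0 = f' (a, 1) - ρ a m0 := e1
    have e3 := hf'P' a 1
    rw [map_one] at e3
    rw [e3, sub_self] at e2
    exact sub_eq_zero.1 e2
  refine ⟨fun g => m0 - F g, ?_, ?_⟩
  · exact Submodule.sub_mem _ ((h3 k Gm Gm M M).2.2.2.2.1 m0) hF
  · funext q
    obtain ⟨a, b⟩ := q
    show ρ a (m0 - F b) - (m0 - F (a * b)) + (m0 - F a) = f (a, b)
    have e1 := hzero a b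
    have e2 : f (a, b) + (ρ a (F b) - F (a * b) + F a) = ρ a m0 := e1
    rw [map_sub, ← e2]; abel

end Pool.Agent.Sp49
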