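import Pool.Agent.Lib.MP_49c83e_al.StmP

/-! MP_49c83e_al, piece P2. -/

namespace Pool.Agent.Sp49

open scoped BigOperators

theorem p_P2 : S_P2 := by
  intro k _ X ι _ _ z y hz hy hzy F hF
  choose N Φ hΦ hΦF using hF
  -- a common exponent
  let n : ℕ := ∑ i, N i + 1
  have hNn : ∀ i, N i < n := fun i =>
    Nat.lt_succ_of_le (Finset.single_le_sum (fun _ _ => Nat.zero_le _) (Finset.mem_univ i))
  let Ψ : ι → X → k := fun i => z i ^ (n - N i) * Φ i
  have hΨ : ∀ i, Ψ i ∈ regA k X := fun i =>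
    Subalgebra.mul_mem _ (Subalgebra.pow_mem _ (hz i) _) (hΦ i)
  have hΨF : ∀ i x, Ψ i x = z i x ^ n * F x := by
    intro i x
    show z i x ^ (n - N i) * Φ i x = z i x ^ n * F x
    by_cases h : z i x = 0
    · rw [h, zero_pow (Nat.sub_ne_zero_of_lt (hNn i)), zero_pow (Nat.succ_ne_zero _), zero_mul,
        zero_mul]
    · rw [hΦF i x h, ← mul_assoc, ← pow_add, Nat.sub_add_cancel (hNn i).le]
  -- the powers are unimodular
  let z' : ι → regA k X := fun i => ⟨z i, hz i⟩
  let y' : ι → regA k X := fun i => ⟨y i, hy i⟩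
  have h1 : ∑ i, y' i * z' i = 1 := by
    apply Subtype.ext
    funext x
    have := hzy x
    simpa [z', y', Finset.sum_apply] using this
  have htop : Ideal.span (Set.range z') = ⊤ := by
    rw [Ideal.eq_top_iff_one, ← h1]
    exact Submodule.sum_mem _ (fun i _ =>
      Ideal.mul_mem_left _ _ (Ideal.subset_span (Set.mem_range_self i)))
  have hpow := Ideal.span_pow_eq_top _ htop n
  rw [← Set.range_comp, Ideal.eq_top_iff_one, Ideal.mem_span_range_iff_exists_fun] at hpow
  obtain ⟨w, hw⟩ := hpow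
  have hw' : ∀ x, ∑ i, (w i : X → k) x * z i x ^ n = 1 := by
    intro x
    have := congrArg (fun a : regA k X => (a : X → k) x) hw
    simpa [z', Finset.sum_apply] using this
  have hFe : F = fun x => ∑ i, (w i : X → k) x * Ψ i x := by
    funext x
    have e : ∀ i, (w i : X → k) x * Ψ i x = (w i : X → k) x * z i x ^ n * F x := by
      intro i
      rw [hΨF i x]
      ring
    simp only [e]
    rw [← Finset.sum_mul, hw' x, one_mul]
  have hmem : (∑ i, (w i : X → k) * Ψ i) ∈ regA k X :=
    Subalgebra.sum_mem _ (fun i _ => Subalgebra.mul_mem _ (w i).2 (hΨ i))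
  have e2 : (∑ i, (w i : X → k) * Ψ i) = F := by
    rw [hFe]
    funext x
    simp [Finset.sum_apply]
  rw [← e2]
  exact hmem

end Pool.Agent.Sp49
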