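import Pool.Agent.Lib.MP_49c83e_al.StmP

/-! MP_49c83e_al, piece P3. -/

namespace Pool.Agent.Sp49

open scoped BigOperators

private theorem p3_prod {k : Type} [Field k] {X Y : Type} [RS k X] [RS k Y] {f : X × Y → k}
    (hf : f ∈ regA k (X × Y)) (Q : (X × Y → k) → Prop)
    (h1 : ∀ g ∈ regA k X, Q (fun q => g q.1)) (h2 : ∀ g ∈ regA k Y, Q (fun q => g q.2))
    (hc : ∀ c : k, Q (fun _ => c)) (ha : ∀ g h, Q g → Q h → Q (g + h))
    (hm : ∀ g h, Q g → Q h → Q (g * h)) : Q f := by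
  have hf' : f ∈ Algebra.adjoin k ({F : X × Y → k | ∃ f ∈ regA k X, F = fun q => f q.1} ∪
    {F | ∃ f ∈ regA k Y, F = fun q => f q.2}) := hf
  induction hf' using Algebra.adjoin_induction with
  | mem x hx =>
    rcases hx with ⟨g, hg, rfl⟩ | ⟨g, hg, rfl⟩
    · exact h1 g hg
    · exact h2 g hg
  | algebraMap c => exact hc c
  | add x y hx hy ihx ihy => exact ha x y (ihx hx) (ihy hy)
  | mul x y hx hy ihx ihy => exact hm x y (ihx hx) (ihy hy)

theorem p_P3 (h2 : S_R2) (h8 : S_R8) (h14 : S_R14) (hP1 : S_P1) : S_P3 := by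
  intro k _ Gm P ι T _ _ _ _ _ _ _ C i p hp f hf
  -- the calculus of LR on T × Gm
  have hz : (fun q : T × Gm => C.z i q.2) ∈ regA k (T × Gm) :=
    Algebra.subset_adjoin (Or.inr ⟨C.z i, C.z_reg i, rfl⟩)
  have hzj : ∀ j, (fun q : T × Gm => C.z j q.2) ∈ regA k (T × Gm) := fun j =>
    Algebra.subset_adjoin (Or.inr ⟨C.z j, C.z_reg j, rfl⟩)
  obtain ⟨Ladd, -, Lmul, Lreg, -, -, Lcongr, Linv, -⟩ := hP1 k (T × Gm) _ _ hz hz
  have Lconst : ∀ c : k, LR k (fun q : T × Gm => C.z i q.2) (fun _ => c) := fun c =>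
    Lreg _ (Subalgebra.algebraMap_mem _ c)
  have Lu : ∀ j, LR k (fun q : T × Gm => C.z i q.2) (fun q => C.z j q.2 / C.z i q.2) := by
    intro j
    have h := Lmul _ _ (Lreg _ (hzj j)) Linv
    exact Lcongr _ _ h (fun q _ => div_eq_mul_inv _ _)
  -- polynomial functions of u
  have Lpoly : ∀ g ∈ regA k (ι → k), LR k (fun q : T × Gm => C.z i q.2)
      (fun q => g (fun j => C.z j q.2 / C.z i q.2)) := by
    intro g hg
    obtain ⟨Pl, hPl⟩ := (h14 k ι g).1 hg
    simp only [hPl]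
    clear hPl
    induction Pl using MvPolynomial.induction_on with
    | C c =>
      simp only [MvPolynomial.eval_C]
      exact Lconst c
    | add a b iha ihb =>
      simp only [map_add]
      exact Ladd _ _ iha ihb
    | mul_X a j iha =>
      simp only [map_mul, MvPolynomial.eval_X]
      exact Lmul _ _ iha (Lu j)
  -- mixed functions
  have Lmix : ∀ g ∈ regA k (Gm × (ι → k)), LR k (fun q : T × Gm => C.z i q.2)
      (fun q => g (q.2, fun j => C.z j q.2 / C.z i q.2)) := by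
    intro g hg
    refine p3_prod hg (fun g => LR k (fun q : T × Gm => C.z i q.2)
      (fun q => g (q.2, fun j => C.z j q.2 / C.z i q.2))) ?_ ?_ ?_ ?_ ?_
    · intro g hg
      exact Lreg _ (Algebra.subset_adjoin (Or.inr ⟨g, hg, rfl⟩))
    · intro g hg
      exact Lpoly g hg
    · exact Lconst
    · intro g h hg hh
      exact Ladd _ _ hg hh
    · intro g h hg hh
      exact Lmul _ _ hg hh
  have Lp : ∀ b ∈ regA k P, LR k (fun q : T × Gm => C.z i q.2) (fun q => b (p q.2)) := by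
    intro b hb
    obtain ⟨F, hF, rfl⟩ := (C.reg b).1 hb
    -- the map (x, u) ↦ σ_i(u)⁻¹ x is regular
    have r1 : IsReg k (fun q : Gm × (ι → k) => q.1) := (h2 k Gm (ι → k) Gm).2.2.2.1
    have r2 : IsReg k (fun q : Gm × (ι → k) => q.2) := (h2 k Gm (ι → k) Gm).2.2.2.2.1
    have r3 : IsReg k (fun q : Gm × (ι → k) => C.σ i q.2) :=
      (h2 k (Gm × (ι → k)) (ι → k) Gm).2.1 _ _ r2 (C.σ_reg i)
    have r4 : IsReg k (fun q : Gm × (ι → k) => (C.σ i q.2)⁻¹) :=
      (h8 k (Gm × (ι → k)) Gm).2.1 _ r3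
    have r5 : IsReg k (fun q : Gm × (ι → k) => (C.σ i q.2)⁻¹ * q.1) :=
      (h8 k (Gm × (ι → k)) Gm).1 _ _ r4 r1
    have h3 := Lmix _ (r5 F hF)
    refine Lcongr _ _ h3 (fun q hq => ?_)
    have h4 := hp q.2 hq
    show F (C.inc (p q.2)) = F ((C.σ i (fun j => C.z j q.2 / C.z i q.2))⁻¹ * q.2)
    congr 1
    exact eq_inv_mul_of_mul_eq h4.symm
  have Ls : ∀ b ∈ regA k Gm, LR k (fun q : T × Gm => C.z i q.2)
      (fun q => b (C.σ i (fun j => C.z j q.2 / C.z i q.2))) := by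
    intro b hb
    exact Lpoly _ (C.σ_reg i b hb)
  refine p3_prod hf (fun f => LR k (fun q : T × Gm => C.z i q.2)
    (fun q : T × Gm => f (q.1, p q.2, C.σ i (fun j => C.z j q.2 / C.z i q.2)))) ?_ ?_ ?_ ?_ ?_
  · intro g hg
    exact Lreg _ (Algebra.subset_adjoin (Or.inl ⟨g, hg, rfl⟩))
  · intro g hg
    refine p3_prod hg (fun g => LR k (fun q : T × Gm => C.z i q.2)
      (fun q : T × Gm => g (p q.2, C.σ i (fun j => C.z j q.2 / C.z i q.2)))) ?_ ?_ ?_ ?_ ?_
    · intro g hg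
      exact Lp g hg
    · intro g hg
      exact Ls g hg
    · exact Lconst
    · intro g h hg hh
      exact Ladd _ _ hg hh
    · intro g h hg hh
      exact Lmul _ _ hg hh
  · exact Lconst
  · intro g h hg hh
    exact Ladd _ _ hg hh
  · intro g h hg hh
    exact Lmul _ _ hg hh

end Pool.Agent.Sp49
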