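import Pool.Agent.Lib.MP_49c83e_al.StmP

/-! MP_49c83e_al, piece P4. -/

namespace Pool.Agent.Sp49

open scoped BigOperators

private theorem p4_u {k : Type} [Field k] {Gm P ι : Type} [Group Gm] [Group P] [RS k Gm]
    [RS k P] [Fintype ι] (C : Chart k Gm P ι) (i : ι) (x : Gm) (h : P) (hx : C.z i x ≠ 0) :
    (fun j => C.z j (x * C.inc h) / C.z i (x * C.inc h)) = fun j => C.z j x / C.z i x := by
  funext j
  rw [C.z_χ, C.z_χ, mul_div_mul_right _ _ (C.χ h).ne_zero]

theorem p_P4 : S_P4 := by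
  intro k _ Gm P ι _ _ _ _ _ C i
  have hex : ∀ x : Gm, ∃ h : P, C.z i x ≠ 0 →
      x = C.σ i (fun j => C.z j x / C.z i x) * C.inc h := by
    intro x
    by_cases hx : C.z i x = 0
    · exact ⟨1, fun h => absurd hx h⟩
    · have h1 : (fun j => C.z j x / C.z i x) i = 1 := div_self hx
      obtain ⟨h, hh⟩ := C.trans (C.σ i (fun j => C.z j x / C.z i x)) x (C.z i x) hx
        (fun j => by
          rw [C.z_σ i _ h1 j]
          field_simp)
      exact ⟨h, fun _ => hh⟩
  choose p hp using hex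
  refine ⟨p, hp, ?_, ?_, fun x h hx => p4_u C i x h hx⟩
  · intro x hx
    have h1 : (fun j => C.z j x / C.z i x) i = 1 := div_self hx
    have h2 := congrArg (C.z i) (hp x hx)
    rw [C.z_χ, C.z_σ i _ h1 i, div_self hx, one_mul] at h2
    exact h2.symm
  · intro x h hx
    have hx' : C.z i (x * C.inc h) ≠ 0 := by
      rw [C.z_χ]
      exact mul_ne_zero hx (C.χ h).ne_zero
    have h1 := hp (x * C.inc h) hx'
    rw [p4_u C i x h hx] at h1
    have h2 := congrArg (fun y => y * C.inc h) (hp x hx)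
    rw [h1, mul_assoc] at h2
    have h3 := mul_left_cancel h2
    rw [← map_mul] at h3
    exact C.inc_inj h3

end Pool.Agent.Sp49
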