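import Pool.Agent.Lib.MP_49c83e_al.StmP

namespace Pool.Agent.Sp49

open scoped BigOperators

private lemma p5_term {k ι : Type} [Field k] [Fintype ι] [DecidableEq ι] (z : ι → k) (i j : ι)
    (hi : z i ≠ 0) (hj : z j ≠ 0) (e N : ℕ) (s : ι →₀ ℕ) :
    ((z i) ^ e)⁻¹ * (((z j / z i) ^ N)⁻¹ * ∏ l, (z l / z i) ^ s l) =
      ∏ l, z l ^ ((s l : ℤ) + ((if l = j then -(N : ℤ) else 0) +
        (if l = i then -(e : ℤ) + N - ∑ q, (s q : ℤ) else 0))) := by
  have hsplit : ∀ l, z l ^ ((s l : ℤ) + ((if l = j then -(N : ℤ) else 0) +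
        (if l = i then -(e : ℤ) + N - ∑ q, (s q : ℤ) else 0))) =
      z l ^ (s l) * ((if l = j then z j ^ (-(N : ℤ)) else 1) *
        (if l = i then z i ^ (-(e : ℤ) + N - ∑ q, (s q : ℤ)) else 1)) := by
    intro l
    by_cases hlj : l = j
    · subst hlj
      by_cases hli : l = i
      · subst hli
        simp only [if_true]
        rw [zpow_add₀ hi, zpow_add₀ hi, zpow_natCast]
      · simp only [if_true, if_neg hli, add_zero, mul_one]
        rw [zpow_add₀ hj, zpow_natCast]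
    · by_cases hli : l = i
      · subst hli
        simp only [if_true, if_neg hlj, zero_add, one_mul]
        rw [zpow_add₀ hi, zpow_natCast]
      · simp only [if_neg hli, if_neg hlj, add_zero, mul_one]
        rw [zpow_natCast]
  simp_rw [hsplit]
  rw [Finset.prod_mul_distrib, Finset.prod_mul_distrib, Finset.prod_ite_eq' Finset.univ j,
    Finset.prod_ite_eq' Finset.univ i]
  simp only [Finset.mem_univ, if_true]
  have h1 : ∏ l, (z l / z i) ^ s l = (∏ l, z l ^ s l) * (z i ^ (∑ q, s q))⁻¹ := by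
    simp_rw [div_pow]
    rw [Finset.prod_div_distrib, Finset.prod_pow_eq_pow_sum, div_eq_mul_inv]
  rw [h1, div_pow, zpow_sub₀ hi, zpow_add₀ hi, zpow_neg, zpow_neg, zpow_natCast, zpow_natCast]
  have h2 : z i ^ (∑ q, (s q : ℤ)) = z i ^ (∑ q, s q) := by
    rw [← Nat.cast_sum, zpow_natCast]
  rw [h2, zpow_natCast]
  have h3 : z i ^ e ≠ 0 := pow_ne_zero _ hi
  have h4 : z j ^ N ≠ 0 := pow_ne_zero _ hj
  have h5 : z i ^ N ≠ 0 := pow_ne_zero _ hi
  have h6 : z i ^ (∑ q, s q) ≠ 0 := pow_ne_zero _ hi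
  field_simp

theorem p_P5 (hP4 : S_P4) (h14 : S_R14) : S_P5 := by
  intro k _ _ Gm P ι _ _ _ _ _ _ _ C i j e D hij hLR hhom
  obtain ⟨N, Φ, hΦ, hΦD⟩ := hLR
  obtain ⟨p, hp1, hp2, -, -⟩ := hP4 k Gm P ι C i
  -- the polynomial
  obtain ⟨Q, hQ⟩ := (h14 k ι (fun u => Φ (C.σ i u))).1 (C.σ_reg i Φ hΦ)
  -- the value of D
  have hval : ∀ x, C.z i x ≠ 0 → C.z j x ≠ 0 →
      D x = ((C.z i x) ^ e)⁻¹ * (((C.z j x / C.z i x) ^ N)⁻¹ *
        MvPolynomial.eval (fun l => C.z l x / C.z i x) Q) := by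
    intro x hi hj
    set u : ι → k := fun l => C.z l x / C.z i x with hu
    have hui : u i = 1 := by rw [hu]; exact div_self hi
    have huj : u j ≠ 0 := by rw [hu]; exact div_ne_zero hj hi
    have hzi : C.z i (C.σ i u) = 1 := by rw [C.z_σ i u hui i, hui]
    have hzj : C.z j (C.σ i u) = u j := C.z_σ i u hui j
    have hx : x = C.σ i u * C.inc (p x) := hp1 x hi
    have hD1 := hhom (C.σ i u) (p x) (by rw [hzi]; exact one_ne_zero) (by rw [hzj]; exact huj)
    rw [← hx, hp2 x hi] at hD1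
    have hΦ1 : Φ (C.σ i u) = (C.z i (C.σ i u) * C.z j (C.σ i u)) ^ N * D (C.σ i u) :=
      hΦD (C.σ i u) (by
        change C.z i (C.σ i u) * C.z j (C.σ i u) ≠ 0
        rw [hzi, hzj, one_mul]
        exact huj)
    rw [hzi, hzj, one_mul] at hΦ1
    have hQ1 : Φ (C.σ i u) = MvPolynomial.eval u Q := hQ u
    have h3 : C.z i x ^ e ≠ 0 := pow_ne_zero _ hi
    have h4 : u j ^ N ≠ 0 := pow_ne_zero _ huj
    have h5 : D (C.σ i u) = (u j ^ N)⁻¹ * MvPolynomial.eval u Q := by
      rw [← hQ1, hΦ1, ← mul_assoc, inv_mul_cancel₀ h4, one_mul]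
    have h6 : D x = ((C.z i x) ^ e)⁻¹ * D (C.σ i u) := by
      rw [← hD1, ← mul_assoc, inv_mul_cancel₀ h3, one_mul]
    rw [h6, h5]
  -- the exponents
  let m : (ι →₀ ℕ) → (ι → ℤ) := fun s l => (s l : ℤ) + ((if l = j then -(N : ℤ) else 0) +
        (if l = i then -(e : ℤ) + N - ∑ q, (s q : ℤ) else 0))
  refine ⟨∑ s ∈ Q.support, Finsupp.single (m s) (Q.coeff s), ?_, ?_⟩
  · intro a ha
    have h1 : ∃ s ∈ Q.support, a = m s := by
      by_contra hcon
      push Not at hcon
      rw [Finsupp.mem_support_iff, Finsupp.finsetSum_apply] at ha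
      apply ha
      apply Finset.sum_eq_zero
      intro s hs
      rw [Finsupp.single_apply, if_neg (fun h => hcon s hs h.symm)]
    obtain ⟨s, -, rfl⟩ := h1
    constructor
    · simp only [m]
      rw [Finset.sum_add_distrib, Finset.sum_add_distrib, Finset.sum_ite_eq' Finset.univ j,
        Finset.sum_ite_eq' Finset.univ i]
      simp only [Finset.mem_univ, if_true]
      ring
    · intro l hli hlj
      simp only [m, if_neg hli, if_neg hlj, add_zero]
      positivity
  · intro x hi hj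
    have h1 : ∀ c : (ι → ℤ) →₀ k, (c.sum fun m a => a * ∏ l, C.z l x ^ m l) =
        Finsupp.linearCombination k (fun m : ι → ℤ => ∏ l, C.z l x ^ m l) c := by
      intro c
      rw [Finsupp.linearCombination_apply]
      rfl
    rw [h1, map_sum, hval x hi hj, MvPolynomial.eval_eq', Finset.mul_sum, Finset.mul_sum]
    apply Finset.sum_congr rfl
    intro s _
    rw [Finsupp.linearCombination_single, smul_eq_mul]
    have h2 := p5_term (fun l => C.z l x) i j hi hj e N s
    simp only [m]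
    rw [← h2]
    ring

end Pool.Agent.Sp49
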