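import Pool.Agent.Lib.MP_49c83e_al.StmP

namespace Pool.Agent.Sp49

open scoped BigOperators

private noncomputable def p6_chi {k ι : Type} [Field k] [Fintype ι] (m : ι → ℤ) :
    (ι → kˣ) →* k where
  toFun t := ∏ l, (t l : k) ^ m l
  map_one' := by simp
  map_mul' s t := by
    simp only [Pi.mul_apply, Units.val_mul]
    rw [← Finset.prod_mul_distrib]
    apply Finset.prod_congr rfl
    intro l _
    rw [mul_zpow]

private lemma p6_inj {k ι : Type} [Field k] [Infinite k] [Fintype ι] [DecidableEq ι] :
    Function.Injective (fun m : ι → ℤ => (p6_chi (k := k) m)) := by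
  intro m m' h
  by_contra hne
  obtain ⟨l, hl⟩ := Function.ne_iff.mp hne
  -- for all units s, s ^ (m l) = s ^ (m' l)
  have h1 : ∀ s : kˣ, (s : k) ^ m l = (s : k) ^ m' l := by
    intro s
    have h2 := DFunLike.congr_fun h (Pi.mulSingle l s)
    have h3 : ∀ m : ι → ℤ, (p6_chi (k := k) m) (Pi.mulSingle l s) = (s : k) ^ m l := by
      intro m
      change ∏ q, ((Pi.mulSingle l s : ι → kˣ) q : k) ^ m q = _
      rw [Finset.prod_eq_single l]
      · rw [Pi.mulSingle_eq_same]
      · intro q _ hq
        rw [Pi.mulSingle_eq_of_ne hq, Units.val_one, one_zpow]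
      · intro hn
        exact absurd (Finset.mem_univ l) hn
    have h4 : (p6_chi (k := k) m) (Pi.mulSingle l s) = (p6_chi (k := k) m') (Pi.mulSingle l s) := h2
    rw [h3, h3] at h4
    exact h4
  -- so some positive power kills all nonzero elements
  have h5 : ∃ n : ℕ, 0 < n ∧ ∀ s : k, s ≠ 0 → s ^ n = 1 := by
    refine ⟨(m l - m' l).natAbs, by omega, fun s hs => ?_⟩
    have h6 : s ^ (m l - m' l) = 1 := by
      rw [zpow_sub₀ hs]
      have := h1 (Units.mk0 s hs)
      rw [Units.val_mk0] at this
      rw [this]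
      exact div_self (zpow_ne_zero _ hs)
    rcases Int.natAbs_eq (m l - m' l) with h7 | h7
    · rw [h7, zpow_natCast] at h6
      exact h6
    · rw [h7, zpow_neg, zpow_natCast, inv_eq_one] at h6
      exact h6
  obtain ⟨n, hn, hs⟩ := h5
  have h8 : (Polynomial.X ^ (n + 1) - Polynomial.X : Polynomial k) = 0 := by
    apply Polynomial.funext
    intro s
    rw [Polynomial.eval_sub, Polynomial.eval_pow, Polynomial.eval_X, Polynomial.eval_zero]
    by_cases h0 : s = 0
    · subst h0
      simp
    · rw [pow_succ, hs s h0, one_mul, sub_self]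
  have h9 := congrArg (fun q => Polynomial.coeff q 1) h8
  simp only [Polynomial.coeff_sub, Polynomial.coeff_X_pow, Polynomial.coeff_X_one,
    Polynomial.coeff_zero] at h9
  rw [if_neg (by omega)] at h9
  simp at h9

theorem p_P6 : S_P6 := by
  intro k _ _ Gm P ι _ _ _ _ _ _ C e c c' hc hc' h
  obtain ⟨i0, -, -⟩ := C.two
  have hli : LinearIndependent k (fun m : ι → ℤ => (fun t : ι → kˣ => (p6_chi (k := k) m) t)) := by
    have h1 := linearIndependent_monoidHom (ι → kˣ) k
    exact h1.comp _ p6_inj
  have hinj : Function.Injective (Finsupp.linearCombination k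
      (fun m : ι → ℤ => (fun t : ι → kˣ => (p6_chi (k := k) m) t))) := hli
  apply hinj
  funext t
  have hsc : ∀ c : (ι → ℤ) →₀ k, (∀ m ∈ c.support, ∑ l, m l = -(e : ℤ)) →
      (c.sum fun m a => a * ∏ l, ((t l : k) / (t i0 : k)) ^ m l) =
        (t i0 : k) ^ e * (Finsupp.linearCombination k
          (fun m : ι → ℤ => (fun t : ι → kˣ => (p6_chi (k := k) m) t)) c) t := by
    intro c hc
    rw [Finsupp.linearCombination_apply, Finsupp.sum, Finsupp.sum, Finset.sum_apply,
      Finset.mul_sum]
    apply Finset.sum_congr rfl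
    intro m hm
    have h1 : (p6_chi (k := k) m) t = ∏ l, (t l : k) ^ m l := rfl
    rw [Pi.smul_apply, smul_eq_mul, h1]
    have h2 : ∏ l, ((t l : k) / (t i0 : k)) ^ m l =
        (t i0 : k) ^ e * ∏ l, (t l : k) ^ m l := by
      simp_rw [div_zpow]
      rw [Finset.prod_div_distrib]
      have h3 : ∏ l, (t i0 : k) ^ m l = ((t i0 : k) ^ e)⁻¹ := by
        have h4 : ∏ l, (t i0 : k) ^ m l = (t i0 : k) ^ (∑ l, m l) := by
          have h5 : ∀ s : Finset ι, ∏ l ∈ s, (t i0 : k) ^ m l = (t i0 : k) ^ (∑ l ∈ s, m l) := by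
            intro s
            induction s using Finset.induction_on with
            | empty => simp
            | insert a s ha ih =>
              rw [Finset.prod_insert ha, Finset.sum_insert ha, ih, zpow_add₀ (Units.ne_zero _)]
          exact h5 Finset.univ
        rw [h4, hc m hm, zpow_neg, zpow_natCast]
      rw [h3, div_inv_eq_mul, mul_comm]
    rw [h2]
    ring
  have hu1 : (fun l => (t l : k) / (t i0 : k)) i0 = 1 := div_self (Units.ne_zero _)
  have hz : ∀ l, C.z l (C.σ i0 (fun l => (t l : k) / (t i0 : k))) = (t l : k) / (t i0 : k) :=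
    C.z_σ i0 _ hu1
  have h1 := h (C.σ i0 (fun l => (t l : k) / (t i0 : k))) (by
    intro l
    rw [hz l]
    exact div_ne_zero (Units.ne_zero _) (Units.ne_zero _))
  simp_rw [hz] at h1
  rw [hsc c hc, hsc c' hc'] at h1
  exact mul_left_cancel₀ (pow_ne_zero _ (Units.ne_zero _)) h1

end Pool.Agent.Sp49
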