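import Pool.Agent.Lib.MP_49c83e_al.StmP

set_option autoImplicit false

/-!
MP_49c83e_al, P7: the combinatorial form of Cech H^1(O(-e)) = 0 for e = 0, 1.
-/

namespace Pool.Agent.Sp49

open scoped BigOperators

open Classical in
theorem p_P7 : S_P7 := by
  intro k _ ι _ _ e he hι c h1 h2 h3
  have hother : ∀ i : ι, ∃ j, j ≠ i := by
    obtain ⟨a, b, hab⟩ := hι
    intro i
    by_cases h : a = i
    · exact ⟨b, fun hb => hab (h.trans hb.symm)⟩
    · exact ⟨a, h⟩
  choose jj hjj using hother
  obtain ⟨i0, -⟩ := hι
  -- vanishing of coefficients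
  have hz : ∀ i j m, i ≠ j → (∃ l, l ≠ i ∧ l ≠ j ∧ m l < 0) → c i j m = 0 := by
    rintro i j m hij ⟨l, hli, hlj, hl⟩
    by_contra hc
    exact absurd ((h1 i j hij m (Finsupp.mem_support_iff.2 hc)).2 l hli hlj) (not_le.2 hl)
  have hA : ∀ i j l m, i ≠ j → i ≠ l → m i < 0 → c i j m = c i l m := by
    intro i j l m hij hil hm
    by_cases hjl : j = l
    · rw [hjl]
    · have e1 := DFunLike.congr_fun (h3 i j l hij hjl hil) m
      rw [Finsupp.add_apply, hz j l m hjl ⟨i, hij, hil, hm⟩, add_zero] at e1
      exact e1
  have hB : ∀ i j m, i ≠ j → m i < 0 → m j < 0 → c i j m = 0 := by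
    intro i j m hij hi hj
    by_cases hl : ∃ l, l ≠ i ∧ l ≠ j
    · obtain ⟨l, hli, hlj⟩ := hl
      have e1 := DFunLike.congr_fun (h3 i l j hli.symm hlj hij) m
      rw [Finsupp.add_apply, hz i l m hli.symm ⟨j, hij.symm, hlj.symm, hj⟩,
        hz l j m hlj ⟨i, hli.symm, hij, hi⟩, add_zero] at e1
      exact e1.symm
    · by_contra hc
      have e1 := (h1 i j hij m (Finsupp.mem_support_iff.2 hc)).1
      have e2 : (Finset.univ : Finset ι) = {i, j} := by
        ext l
        simp only [Finset.mem_univ, Finset.mem_insert, Finset.mem_singleton, true_iff]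
        by_contra h
        push Not at h
        exact hl ⟨l, h.1, h.2⟩
      rw [e2, Finset.sum_pair hij] at e1
      have : (e : ℤ) ≤ 1 := by exact_mod_cast he
      omega
  let N : ι → (ι → ℤ) → Prop := fun i m => m i < 0 ∧ ∀ l, l ≠ i → 0 ≤ m l
  let G : ι → ((ι → ℤ) →₀ k) := fun i => (c i (jj i)).filter (N i) +
    (if i = i0 then 0 else (c i i0).filter (fun m => m = 0))
  have hG : ∀ i m, G i m = (if N i m then c i (jj i) m else 0) +
      (if i = i0 then 0 else if m = 0 then c i i0 m else 0) := by
    intro i m
    change ((c i (jj i)).filter (N i) +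
      (if i = i0 then 0 else (c i i0).filter (fun m => m = 0))) m = _
    rw [Finsupp.add_apply, Finsupp.filter_apply]
    congr 1
    by_cases h : i = i0
    · rw [if_pos h, if_pos h]
      rfl
    · rw [if_neg h, if_neg h, Finsupp.filter_apply]
  have hG1 : ∀ i m, ¬ N i m → m ≠ 0 → G i m = 0 := by
    intro i m hN hm
    rw [hG, if_neg hN, if_neg hm]
    simp
  have hG2 : ∀ i j m, i ≠ j → N i m → G i m = c i j m := by
    intro i j m hij hN
    have hm : m ≠ 0 := by
      rintro rfl
      exact absurd hN.1 (by simp)
    rw [hG, if_pos hN, if_neg hm, hA i (jj i) j m (hjj i).symm hij hN.1]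
    simp
  refine ⟨G, fun i m hm => ?_, fun i j hij => ?_⟩
  · rw [Finsupp.mem_support_iff] at hm
    by_cases hN : N i m
    · refine ⟨?_, hN.2⟩
      rw [hG2 i (jj i) m (hjj i).symm hN] at hm
      exact (h1 i (jj i) (hjj i).symm m (Finsupp.mem_support_iff.2 hm)).1
    · by_cases h0 : m = 0
      · subst h0
        rw [hG, if_neg hN, zero_add] at hm
        by_cases hi : i = i0
        · rw [if_pos hi] at hm
          exact absurd rfl hm
        · rw [if_neg hi, if_pos rfl] at hm
          exact ⟨(h1 i i0 hi 0 (Finsupp.mem_support_iff.2 hm)).1, fun l _ => le_rfl⟩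
      · exact absurd (hG1 i m hN h0) hm
  · ext m
    rw [Finsupp.sub_apply]
    have h2' : c i j m = - c j i m := by
      have := DFunLike.congr_fun (h2 j i hij.symm) m
      rw [Finsupp.neg_apply] at this
      exact this
    by_cases hi : m i < 0
    · have hm0 : m ≠ 0 := by
        rintro rfl
        exact absurd hi (by simp)
      by_cases hj : m j < 0
      · rw [hB i j m hij hi hj, hG1 i m (fun h => absurd (h.2 j hij.symm) (not_le.2 hj)) hm0,
          hG1 j m (fun h => absurd (h.2 i hij) (not_le.2 hi)) hm0, sub_zero]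
      · by_cases hN : N i m
        · rw [hG2 i j m hij hN, hG1 j m (fun h => hj h.1) hm0, sub_zero]
        · rw [hG1 i m hN hm0, hG1 j m (fun h => hj h.1) hm0, sub_zero]
          have : ∃ l, l ≠ i ∧ m l < 0 := by
            by_contra hcon
            push Not at hcon
            exact hN ⟨hi, hcon⟩
          obtain ⟨l, hl1, hl2⟩ := this
          exact hz i j m hij ⟨l, hl1, fun h => hj (h ▸ hl2), hl2⟩
    · by_cases hj : m j < 0
      · have hm0 : m ≠ 0 := by
          rintro rfl
          exact absurd hj (by simp)
        by_cases hN : N j m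
        · rw [hG2 j i m hij.symm hN, hG1 i m (fun h => hi h.1) hm0, zero_sub, h2']
        · rw [hG1 j m hN hm0, hG1 i m (fun h => hi h.1) hm0, sub_zero]
          have : ∃ l, l ≠ j ∧ m l < 0 := by
            by_contra hcon
            push Not at hcon
            exact hN ⟨hj, hcon⟩
          obtain ⟨l, hl1, hl2⟩ := this
          exact hz i j m hij ⟨l, fun h => hi (h ▸ hl2), hl1, hl2⟩
      · by_cases hm0 : m = 0
        · subst hm0
          have n1 : ∀ i, ¬ N i 0 := fun i h => absurd h.1 (by simp)
          rw [hG, hG, if_neg (n1 i), if_neg (n1 j), if_pos rfl, if_pos rfl, zero_add, zero_add]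
          by_cases hi0 : i = i0
          · have hj0 : j ≠ i0 := fun h => hij (hi0.trans h.symm)
            rw [if_pos hi0, if_neg hj0, zero_sub, ← hi0]
            exact h2'
          · rw [if_neg hi0]
            by_cases hj0 : j = i0
            · rw [if_pos hj0, sub_zero, hj0]
            · rw [if_neg hj0]
              have e1 := DFunLike.congr_fun (h3 i i0 j hi0 (fun h => hj0 h.symm) hij) 0
              have e2 := DFunLike.congr_fun (h2 j i0 hj0) 0
              rw [Finsupp.add_apply] at e1
              rw [Finsupp.neg_apply] at e2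
              rw [← e1, e2]
              ring
        · rw [hG1 i m (fun h => hi h.1) hm0, hG1 j m (fun h => hj h.1) hm0, sub_zero]
          by_contra hc
          obtain ⟨e1, e2⟩ := h1 i j hij m (Finsupp.mem_support_iff.2 hc)
          have e3 : ∀ l ∈ (Finset.univ : Finset ι), 0 ≤ m l := by
            intro l _
            by_cases hli : l = i
            · rw [hli]
              exact not_lt.1 hi
            · by_cases hlj : l = j
              · rw [hlj]
                exact not_lt.1 hj
              · exact e2 l hli hlj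
          have e4 := Finset.sum_nonneg e3
          have e5 : ∑ l, m l = 0 := by omega
          rw [Finset.sum_eq_zero_iff_of_nonneg e3] at e5
          exact hm0 (funext fun l => e5 l (Finset.mem_univ l))

end Pool.Agent.Sp49
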