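import Pool.Agent.Lib.MP_49c83e_al.StmP

/-!
MP_49c83e_al, [P8]: homogeneous regular functions of degree 0 are constant and those of degree -1
are zero.
-/

namespace Pool.Agent.Sp49

open scoped BigOperators

private theorem p8_prod {k ι : Type} [Field k] [Fintype ι] [DecidableEq ι] (i : ι) (z : ι → k)
    (hz : z i ≠ 0) (e : ℕ) (d : ι → ℕ) :
    (z i ^ e)⁻¹ * ∏ l, (z l / z i) ^ d l =
      ∏ l, z l ^ (if l = i then (-(e : ℤ) - ∑ l' ∈ Finset.univ.erase i, (d l' : ℤ)) else (d l : ℤ)) := by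
  rw [← Finset.mul_prod_erase Finset.univ _ (Finset.mem_univ i),
    ← Finset.mul_prod_erase Finset.univ (fun l => z l ^ (if l = i then
      (-(e : ℤ) - ∑ l' ∈ Finset.univ.erase i, (d l' : ℤ)) else (d l : ℤ))) (Finset.mem_univ i)]
  rw [if_pos rfl, div_self hz, one_pow, one_mul]
  have h1 : ∏ l ∈ Finset.univ.erase i, z l ^ (if l = i then
      (-(e : ℤ) - ∑ l' ∈ Finset.univ.erase i, (d l' : ℤ)) else (d l : ℤ)) =
      ∏ l ∈ Finset.univ.erase i, z l ^ d l := by
    refine Finset.prod_congr rfl fun l hl => ?_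
    rw [if_neg (Finset.ne_of_mem_erase hl), zpow_natCast]
  have h2 : ∏ l ∈ Finset.univ.erase i, (z l / z i) ^ d l =
      (∏ l ∈ Finset.univ.erase i, z l ^ d l) *
        (z i ^ (∑ l' ∈ Finset.univ.erase i, d l'))⁻¹ := by
    rw [← Finset.prod_pow_eq_pow_sum, ← Finset.prod_inv_distrib, ← Finset.prod_mul_distrib]
    refine Finset.prod_congr rfl fun l _ => ?_
    rw [div_pow, div_eq_mul_inv]
  have h3 : z i ^ (-(e : ℤ) - ∑ l' ∈ Finset.univ.erase i, (d l' : ℤ)) =
      (z i ^ e)⁻¹ * (z i ^ (∑ l' ∈ Finset.univ.erase i, d l'))⁻¹ := by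
    rw [sub_eq_add_neg, zpow_add₀ hz, zpow_neg, zpow_natCast, zpow_neg, ← Nat.cast_sum,
      zpow_natCast]
  rw [h1, h2, h3]
  ring

/-- expansion in the chart `i` -/
private theorem p8_rep (h14 : S_R14) (hP4 : S_P4) {k Gm P ι : Type} [Field k] [Group Gm]
    [Group P] [RS k Gm] [RS k P] [Fintype ι] [DecidableEq ι] (C : Chart k Gm P ι) (i : ι)
    (e : ℕ) (f : Gm → k) (hf : f ∈ regA k Gm)
    (h : ∀ x h, (C.χ h : k) ^ e * f (x * C.inc h) = f x) :
    ∃ c : (ι → ℤ) →₀ k, (∀ m ∈ c.support, (∑ l, m l = -(e : ℤ)) ∧ ∀ l, l ≠ i → 0 ≤ m l) ∧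
      ∀ x, C.z i x ≠ 0 → f x = c.sum fun m a => a * ∏ l, C.z l x ^ m l := by
  classical
  obtain ⟨p, hp1, hp2, -, -⟩ := hP4 k Gm P ι C i
  obtain ⟨Q, hQ⟩ := (h14 k ι (fun u => f (C.σ i u))).1 (C.σ_reg i f hf)
  set mm : (ι →₀ ℕ) → ι → ℤ := fun d l =>
    if l = i then (-(e : ℤ) - ∑ l' ∈ Finset.univ.erase i, (d l' : ℤ)) else (d l : ℤ) with hmm
  refine ⟨∑ d ∈ Q.support, Finsupp.single (mm d) (Q.coeff d), ?_, ?_⟩
  · intro m hm
    have h1 := Finsupp.support_finsetSum hm
    rw [Finset.mem_biUnion] at h1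
    obtain ⟨d, _, hd⟩ := h1
    have h2 := Finsupp.support_single_subset hd
    rw [Finset.mem_singleton] at h2
    subst h2
    constructor
    · rw [← Finset.add_sum_erase Finset.univ _ (Finset.mem_univ i)]
      have h3 : ∑ l ∈ Finset.univ.erase i, mm d l = ∑ l ∈ Finset.univ.erase i, (d l : ℤ) := by
        refine Finset.sum_congr rfl fun l hl => ?_
        rw [hmm]
        exact if_neg (Finset.ne_of_mem_erase hl)
      have h4 : mm d i = -(e : ℤ) - ∑ l' ∈ Finset.univ.erase i, (d l' : ℤ) := by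
        rw [hmm]
        exact if_pos rfl
      rw [h3, h4]
      ring
    · intro l hl
      have h4 : mm d l = (d l : ℤ) := by
        rw [hmm]
        exact if_neg hl
      rw [h4]
      exact Int.natCast_nonneg _
  · intro x hx
    have h1 : f x = (C.z i x ^ e)⁻¹ * f (C.σ i (fun j => C.z j x / C.z i x)) := by
      have h2 := h (C.σ i (fun j => C.z j x / C.z i x)) (p x)
      rw [← hp1 x hx, hp2 x hx] at h2
      rw [← h2, ← mul_assoc, inv_mul_cancel₀ (pow_ne_zero e hx), one_mul]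
    have h2 : ((∑ d ∈ Q.support, Finsupp.single (mm d) (Q.coeff d)).sum
        fun m a => a * ∏ l, C.z l x ^ m l) =
        ∑ d ∈ Q.support, Q.coeff d * ∏ l, C.z l x ^ mm d l := by
      have h3 : ((∑ d ∈ Q.support, Finsupp.single (mm d) (Q.coeff d)).sum
          fun m a => a * ∏ l, C.z l x ^ m l) = Finsupp.linearCombination k
            (fun m : ι → ℤ => ∏ l, C.z l x ^ m l)
            (∑ d ∈ Q.support, Finsupp.single (mm d) (Q.coeff d)) := by
        rw [Finsupp.linearCombination_apply]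
        rfl
      rw [h3, map_sum]
      refine Finset.sum_congr rfl fun d _ => ?_
      rw [Finsupp.linearCombination_single, smul_eq_mul]
    rw [h2, h1]
    have h4 : f (C.σ i (fun j => C.z j x / C.z i x)) =
        ∑ d ∈ Q.support, Q.coeff d * ∏ l, (C.z l x / C.z i x) ^ d l := by
      have h5 := hQ (fun j => C.z j x / C.z i x)
      rw [MvPolynomial.eval_eq'] at h5
      exact h5
    rw [h4, Finset.mul_sum]
    refine Finset.sum_congr rfl fun d _ => ?_
    rw [mul_left_comm, p8_prod i (fun l => C.z l x) hx e (fun l => d l)]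

/-- the scalar case -/
private theorem p8_scalar (h14 : S_R14) (hP4 : S_P4) (hP6 : S_P6) {k Gm P ι : Type} [Field k]
    [Infinite k] [Group Gm] [Group P] [RS k Gm] [RS k P] [Fintype ι] [DecidableEq ι]
    (C : Chart k Gm P ι) (e : ℕ) (f : Gm → k) (hf : f ∈ regA k Gm)
    (h : ∀ x h, (C.χ h : k) ^ e * f (x * C.inc h) = f x) :
    ∃ a : k, (e ≠ 0 → a = 0) ∧ ∀ x, f x = a := by
  choose c hc1 hc2 using fun i => p8_rep h14 hP4 C i e f hf h
  have heq : ∀ i j, c i = c j := by
    intro i j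
    refine hP6 k Gm P ι C e (c i) (c j) (fun m hm => (hc1 i m hm).1)
      (fun m hm => (hc1 j m hm).1) fun x hx => ?_
    rw [← hc2 i x (hx i), ← hc2 j x (hx j)]
  obtain ⟨i0, j0, hij⟩ := C.two
  have hpos : ∀ m ∈ (c i0).support, ∀ l, 0 ≤ m l := by
    intro m hm l
    by_cases hl : l = i0
    · subst hl
      rw [heq l j0] at hm
      exact (hc1 j0 m hm).2 l hij
    · exact (hc1 i0 m hm).2 l hl
  have hex : ∀ x, ∃ i, C.z i x ≠ 0 := by
    intro x
    by_contra hcon
    push Not at hcon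
    have h1 := C.unimod x
    simp [hcon] at h1
  have hz : ∀ m ∈ (c i0).support, e = 0 ∧ m = 0 := by
    intro m hm
    have h1 := (hc1 i0 m hm).1
    have h2 : 0 ≤ ∑ l, m l := Finset.sum_nonneg fun l _ => hpos m hm l
    have h3 : e = 0 := by omega
    refine ⟨h3, ?_⟩
    subst h3
    have h4 : ∑ l, m l = 0 := by simpa using h1
    funext l
    exact (Finset.sum_eq_zero_iff_of_nonneg fun l _ => hpos m hm l).1 h4 l (Finset.mem_univ l)
  have hval : ∀ x, f x = c i0 0 := by
    intro x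
    obtain ⟨i, hi⟩ := hex x
    rw [hc2 i x hi, heq i i0]
    rw [Finsupp.sum_of_support_subset (c i0) (s := {0}) (fun m hm => by
      rw [Finset.mem_singleton]
      exact (hz m hm).2) _ (fun m _ => by simp)]
    simp
  refine ⟨c i0 0, fun he => ?_, hval⟩
  by_contra hne
  exact he (hz 0 (Finsupp.mem_support_iff.2 hne)).1

theorem p_P8 (h6 : S_R6) (h14 : S_R14) (hP4 : S_P4) (hP6 : S_P6) : S_P8 := by
  intro k _ _ Gm P ι _ _ _ _ _ _ _ C M _ _ F hF
  obtain ⟨N, f, m, hm, hf, hFe⟩ := (h6 k Gm Gm M).1 F hF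
  constructor
  · intro h x
    have h1 : ∀ i, ∀ x h, (C.χ h : k) ^ 0 * f i (x * C.inc h) = f i x := by
      intro i x h'
      have h2 := h x h'
      rw [hFe, hFe] at h2
      have h3 : ∑ i, (f i (x * C.inc h') - f i x) • m i = 0 := by
        simp only [sub_smul, Finset.sum_sub_distrib]
        rw [h2, sub_self]
      have h4 := Fintype.linearIndependent_iff.1 hm _ h3 i
      rw [pow_zero, one_mul]
      exact sub_eq_zero.1 h4
    rw [hFe, hFe]
    refine Finset.sum_congr rfl fun i _ => ?_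
    obtain ⟨a, -, ha⟩ := p8_scalar h14 hP4 hP6 C 0 (f i) (hf i) (h1 i)
    rw [ha, ha]
  · intro h x
    have h1 : ∀ i, ∀ x h, (C.χ h : k) ^ 1 * f i (x * C.inc h) = f i x := by
      intro i x h'
      have h2 := h x h'
      rw [hFe, hFe, Finset.smul_sum] at h2
      have h3 : ∑ i, ((C.χ h' : k) * f i (x * C.inc h') - f i x) • m i = 0 := by
        simp only [sub_smul, Finset.sum_sub_distrib, mul_smul]
        rw [h2, sub_self]
      have h4 := Fintype.linearIndependent_iff.1 hm _ h3 i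
      rw [pow_one]
      exact sub_eq_zero.1 h4
    rw [hFe]
    refine Finset.sum_eq_zero fun i _ => ?_
    obtain ⟨a, ha0, ha⟩ := p8_scalar h14 hP4 hP6 C 1 (f i) (hf i) (h1 i)
    rw [ha, ha0 one_ne_zero, zero_smul]

end Pool.Agent.Sp49
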