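import Pool.Agent.Lib.MP_49c83e_al.StmP

/-!
MP_49c83e_al, piece P9: first cohomology of the regular functions, scalar version.
-/

set_option autoImplicit false

namespace Pool.Agent.Sp49

open scoped BigOperators

private def p9ev {k : Type} [Field k] {X ι : Type} [Fintype ι] (z : ι → X → k)
    (c : (ι → ℤ) →₀ k) (x : X) : k := c.sum fun m a => a * ∏ l, z l x ^ m l

private lemma p9ev_sub {k : Type} [Field k] {X ι : Type} [Fintype ι] (z : ι → X → k)
    (c c' : (ι → ℤ) →₀ k) (x : X) : p9ev z (c - c') x = p9ev z c x - p9ev z c' x := by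
  unfold p9ev
  rw [Finsupp.sum_sub_index]
  intro m a a'
  ring

private lemma p9ev_neg {k : Type} [Field k] {X ι : Type} [Fintype ι] (z : ι → X → k)
    (c : (ι → ℤ) →₀ k) (x : X) : p9ev z (-c) x = - p9ev z c x := by
  have h := p9ev_sub z 0 c x
  rw [zero_sub] at h
  rw [h]
  simp [p9ev]

private lemma p9ev_add {k : Type} [Field k] {X ι : Type} [Fintype ι] (z : ι → X → k)
    (c c' : (ι → ℤ) →₀ k) (x : X) : p9ev z (c + c') x = p9ev z c x + p9ev z c' x := by
  have h := p9ev_sub z (c + c') c' x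
  rw [add_sub_cancel_right] at h
  rw [h]
  ring

/-- homogeneity -/
private lemma p9ev_hom {k : Type} [Field k] {X ι : Type} [Fintype ι] (z : ι → X → k)
    (c : (ι → ℤ) →₀ k) (e : ℕ) (hc : ∀ m ∈ c.support, ∑ l, m l = -(e : ℤ)) (x x' : X) (a : k)
    (ha : a ≠ 0) (hx : ∀ l, z l x' = z l x * a) : a ^ e * p9ev z c x' = p9ev z c x := by
  unfold p9ev Finsupp.sum
  rw [Finset.mul_sum]
  refine Finset.sum_congr rfl fun m hm => ?_
  have h1 : ∏ l, z l x' ^ m l = (∏ l, z l x ^ m l) * a ^ (-(e : ℤ)) := by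
    rw [← hc m hm]
    simp only [hx, mul_zpow, Finset.prod_mul_distrib]
    congr 1
    symm
    have : ∀ s : Finset ι, a ^ (∑ l ∈ s, m l) = ∏ l ∈ s, a ^ m l := by
      intro s
      classical
      induction s using Finset.induction_on with
      | empty => simp
      | insert l s hl ih => rw [Finset.sum_insert hl, Finset.prod_insert hl, zpow_add₀ ha, ih]
    exact this _
  show a ^ e * (c m * ∏ l, z l x' ^ m l) = c m * ∏ l, z l x ^ m l
  rw [h1, zpow_neg, zpow_natCast]
  field_simp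

/-- pull back of LR -/
private lemma p9_LR_pull {k : Type} [Field k] {X Y : Type} [RS k X] [RS k Y] {φ : X → Y}
    (hφ : IsReg k φ) {z F : Y → k} (h : LR k z F) : LR k (fun x => z (φ x)) (fun x => F (φ x)) := by
  obtain ⟨N, Φ, hΦ, h⟩ := h
  exact ⟨N, fun x => Φ (φ x), hφ Φ hΦ, fun x hx => h (φ x) hx⟩

private lemma p9_pow_mem {k : Type} [Field k] {X : Type} [RS k X] {f : X → k}
    (hf : f ∈ regA k X) (n : ℕ) : (fun x => f x ^ n) ∈ regA k X := by
  have := Subalgebra.pow_mem _ hf n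
  exact this

private lemma p9_LR_one {k : Type} [Field k] {X : Type} [RS k X] {z : X → k} (a : k) :
    LR k z (fun _ => a) :=
  ⟨0, fun _ => a, Subalgebra.algebraMap_mem _ a, fun x _ => by simp⟩

private lemma p9_LR_invpow {k : Type} [Field k] {X : Type} [RS k X] {z : X → k} (n : ℕ) :
    LR k z (fun x => (z x ^ n)⁻¹) :=
  ⟨n, fun _ => 1, Subalgebra.one_mem _, fun x hx => by
    rw [mul_inv_cancel₀ (pow_ne_zero _ hx)]⟩

theorem p_P9 (h2 : S_R2) (hP1 : S_P1) (hP2 : S_P2) (hP3 : S_P3) (hP4 : S_P4)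
    (hP5 : S_P5) (hP6 : S_P6) (hP7 : S_P7) : S_P9 := by
  intro k _ _ Gm P ι _ _ _ _ _ _ _ C e he b hb hrel
  classical
  choose p hp1 hp2 hp3 hp4 using fun i => hP4 k Gm P ι C i
  -- the chart functions
  let s : ι → Gm → Gm := fun i x => C.σ i (fun j => C.z j x / C.z i x)
  let F : ι → Gm → k := fun i x => (C.z i x ^ e)⁻¹ * b (p i x, s i x)
  have hzh : ∀ (i : ι) (x : Gm) (h : P), C.z i x ≠ 0 → C.z i (x * C.inc h) ≠ 0 := by
    intro i x h hx
    rw [C.z_χ]
    exact mul_ne_zero hx (Units.ne_zero _)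
  have hcob : ∀ (i : ι) (x : Gm) (h : P), C.z i x ≠ 0 →
      (C.χ h : k) ^ e * F i (x * C.inc h) - F i x = b (h, x) := by
    intro i x h hx
    have h1 := hrel (p i x) h (s i x)
    have h3 : s i x * C.inc (p i x) = x := (hp1 i x hx).symm
    rw [h3, hp2 i x hx] at h1
    have h4 : s i (x * C.inc h) = s i x := by
      show C.σ i _ = C.σ i _
      rw [hp4 i x h hx]
    have hχ : (C.χ h : k) ≠ 0 := Units.ne_zero _
    show (C.χ h : k) ^ e * ((C.z i (x * C.inc h) ^ e)⁻¹ *
      b (p i (x * C.inc h), s i (x * C.inc h))) - (C.z i x ^ e)⁻¹ * b (p i x, s i x) = b (h, x)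
    rw [h4, hp3 i x h hx, h1, C.z_χ, mul_pow]
    field_simp
    ring
  have hFLR : ∀ i, LR k (C.z i) (F i) := by
    intro i
    have r2 := h2 k Gm Gm Gm
    have r3 := h2 k Gm (P × Gm) Gm
    have hb' : (fun q : Gm × P × Gm => b q.2) ∈ regA k (Gm × P × Gm) :=
      (h2 k Gm (P × Gm) Gm).2.2.2.2.1 b hb
    have h3 := hP3 k Gm P ι Gm C i (p i) (hp1 i) _ hb'
    have hφ : IsReg k (fun x : Gm => ((1 : Gm), x)) :=
      r2.2.2.2.2.2 _ _ (r2.2.2.1 1) r2.1
    have h5 : LR k (C.z i) (fun x => b (p i x, s i x)) := p9_LR_pull hφ h3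
    have r1 := hP1 k Gm (C.z i) (C.z i) (C.z_reg i) (C.z_reg i)
    exact r1.2.2.1 _ _ (p9_LR_invpow e) h5
  -- differences
  have hD : ∀ i j : ι, i ≠ j → ∃ c : (ι → ℤ) →₀ k, (∀ m ∈ c.support, (∑ l, m l = -(e : ℤ)) ∧
        ∀ l, l ≠ i → l ≠ j → 0 ≤ m l) ∧
      ∀ x, C.z i x ≠ 0 → C.z j x ≠ 0 → F i x - F j x = p9ev C.z c x := by
    intro i j hij
    refine hP5 k Gm P ι C i j e (fun x => F i x - F j x) hij ?_ ?_
    · have r1 := hP1 k Gm (C.z i) (C.z j) (C.z_reg i) (C.z_reg j)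
      have r2 := hP1 k Gm (C.z j) (C.z i) (C.z_reg j) (C.z_reg i)
      have a1 : LR k (fun x => C.z i x * C.z j x) (F i) := r1.2.2.2.2.1 _ (hFLR i)
      have a2 : LR k (fun x => C.z i x * C.z j x) (F j) := r2.2.2.2.2.2.1 _ (hFLR j)
      have hm : (fun x => C.z i x * C.z j x) ∈ regA k Gm :=
        Subalgebra.mul_mem _ (C.z_reg i) (C.z_reg j)
      exact (hP1 k Gm _ _ hm hm).2.1 _ _ a1 a2
    · intro x h hi hj
      have a1 := hcob i x h hi
      have a2 := hcob j x h hj
      rw [mul_sub]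
      linear_combination a1 - a2
  choose! c hc1 hc2 using hD
  let c' : ι → ι → ((ι → ℤ) →₀ k) := fun i j => if i = j then 0 else c i j
  have hc' : ∀ i j, i ≠ j → c' i j = c i j := fun i j h => if_neg h
  have hsupp : ∀ i j, i ≠ j → ∀ m ∈ (c' i j).support, (∑ l, m l = -(e : ℤ)) ∧
      ∀ l, l ≠ i → l ≠ j → 0 ≤ m l := by
    intro i j hij m hm
    rw [hc' i j hij] at hm
    exact hc1 i j hij m hm
  have halt : ∀ i j, i ≠ j → c' j i = - c' i j := by
    intro i j hij
    refine hP6 k Gm P ι C e _ _ (fun m hm => (hsupp j i hij.symm m hm).1)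
      (fun m hm => (hsupp i j hij m (by rwa [Finsupp.support_neg] at hm)).1) ?_
    intro x hx
    have a1 : p9ev C.z (c' j i) x = F j x - F i x := by
      rw [hc' j i hij.symm]
      exact (hc2 j i hij.symm x (hx j) (hx i)).symm
    have a2 : p9ev C.z (- c' i j) x = F j x - F i x := by
      rw [p9ev_neg, hc' i j hij, ← hc2 i j hij x (hx i) (hx j)]
      ring
    exact a1.trans a2.symm
  have hadd : ∀ i j l, i ≠ j → j ≠ l → i ≠ l → c' i j + c' j l = c' i l := by
    intro i j l hij hjl hil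
    refine hP6 k Gm P ι C e _ _ (fun m hm => ?_) (fun m hm => (hsupp i l hil m hm).1) ?_
    · have := Finsupp.support_add hm
      rcases Finset.mem_union.mp this with h | h
      · exact (hsupp i j hij m h).1
      · exact (hsupp j l hjl m h).1
    · intro x hx
      have a1 : p9ev C.z (c' i j + c' j l) x = F i x - F l x := by
        rw [p9ev_add, hc' i j hij, hc' j l hjl, ← hc2 i j hij x (hx i) (hx j),
          ← hc2 j l hjl x (hx j) (hx l)]
        ring
      have a2 : p9ev C.z (c' i l) x = F i x - F l x := by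
        rw [hc' i l hil]
        exact (hc2 i l hil x (hx i) (hx l)).symm
      exact a1.trans a2.symm
  obtain ⟨G, hG1, hG2⟩ := hP7 k ι e he C.two c' hsupp halt hadd
  -- gluing
  have hex : ∀ x : Gm, ∃ i, C.z i x ≠ 0 := by
    intro x
    by_contra hcon
    simp only [ne_eq, not_exists, not_not] at hcon
    have h1 := C.unimod x
    simp [hcon] at h1
  choose I hI using hex
  have hglue : ∀ (i j : ι) (x : Gm), C.z i x ≠ 0 → C.z j x ≠ 0 →
      F i x - p9ev C.z (G i) x = F j x - p9ev C.z (G j) x := by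
    intro i j x hi hj
    by_cases hij : i = j
    · rw [hij]
    · have h1 := hc2 i j hij x hi hj
      rw [← hc' i j hij, hG2 i j hij, p9ev_sub] at h1
      linear_combination h1
  let Fg : Gm → k := fun x => F (I x) x - p9ev C.z (G (I x)) x
  have hFg : ∀ i x, C.z i x ≠ 0 → Fg x = F i x - p9ev C.z (G i) x := fun i x hi =>
    hglue (I x) i x (hI x) hi
  refine ⟨Fg, ?_, ?_⟩
  · refine hP2 k Gm ι C.z C.y C.z_reg C.y_reg C.unimod Fg fun i => ?_
    have r1 := hP1 k Gm (C.z i) (C.z i) (C.z_reg i) (C.z_reg i)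
    refine r1.2.2.2.2.2.2.1 _ _ ?_ (fun x hx => hFg i x hx)
    refine r1.2.1 _ _ (hFLR i) ?_
    refine r1.2.2.2.2.2.2.2.2 _ _ _ fun m hm => ?_
    refine r1.2.2.1 _ _ (p9_LR_one _) ?_
    -- the monomial
    have hm0 : ∀ l, l ≠ i → 0 ≤ m l := (hG1 i m hm).2
    have e1 : (fun x => ∏ l, C.z l x ^ m l) = fun x => C.z i x ^ m i *
        ∏ l ∈ Finset.univ.erase i, C.z l x ^ (m l).toNat := by
      funext x
      rw [← Finset.mul_prod_erase Finset.univ _ (Finset.mem_univ i)]
      congr 1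
      refine Finset.prod_congr rfl fun l hl => ?_
      have h0 := hm0 l (Finset.ne_of_mem_erase hl)
      rw [← zpow_natCast, Int.toNat_of_nonneg h0]
    rw [e1]
    refine r1.2.2.1 _ _ ?_ (r1.2.2.2.1 _ ?_)
    · rcases le_or_gt 0 (m i) with h0 | h0
      · have e2 : (fun x => C.z i x ^ m i) = fun x => C.z i x ^ (m i).toNat := by
          funext x
          rw [← zpow_natCast, Int.toNat_of_nonneg h0]
        rw [e2]
        exact r1.2.2.2.1 _ (p9_pow_mem (C.z_reg i) _)
      · have e2 : (fun x => C.z i x ^ m i) = fun x => (C.z i x ^ (-(m i)).toNat)⁻¹ := by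
          funext x
          rw [← zpow_natCast, Int.toNat_of_nonneg (by omega), zpow_neg, inv_inv]
        rw [e2]
        exact p9_LR_invpow _
    · have e3 : (fun x => ∏ l ∈ Finset.univ.erase i, C.z l x ^ (m l).toNat) =
          ∏ l ∈ Finset.univ.erase i, fun x => C.z l x ^ (m l).toNat := by
        funext x
        rw [Finset.prod_apply]
      rw [e3]
      exact Subalgebra.prod_mem _ fun l _ => p9_pow_mem (C.z_reg l) _
  · intro h x
    obtain ⟨i, hi⟩ : ∃ i, C.z i x ≠ 0 := ⟨I x, hI x⟩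
    rw [hFg i x hi, hFg i (x * C.inc h) (hzh i x h hi)]
    have h1 := hcob i x h hi
    have h3 := p9ev_hom C.z (G i) e (fun m hm => (hG1 i m hm).1) x (x * C.inc h) (C.χ h : k)
      (Units.ne_zero _) (fun l => C.z_χ x h l)
    linear_combination -h1 + h3

end Pool.Agent.Sp49
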