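import Pool.Agent.Lib.MP_49c83e_al.StmR

set_option autoImplicit false

/-!
MP_49c83e_al, R1: regular functions on a product.
-/

namespace Pool.Agent.Sp49

private def r1_S (k X Y : Type) [Field k] [RS k X] [RS k Y] : Set (X × Y → k) :=
  {G | ∃ f ∈ regA k X, ∃ g ∈ regA k Y, G = fun q : X × Y => f q.1 * g q.2}

private theorem r1_mul {k X Y : Type} [Field k] [RS k X] [RS k Y] {a b : X × Y → k}
    (ha : a ∈ Submodule.span k (r1_S k X Y)) (hb : b ∈ Submodule.span k (r1_S k X Y)) :
    a * b ∈ Submodule.span k (r1_S k X Y) := by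
  induction ha using Submodule.span_induction with
  | mem a ha =>
    induction hb using Submodule.span_induction with
    | mem b hb =>
      obtain ⟨f, hf, g, hg, rfl⟩ := ha
      obtain ⟨f', hf', g', hg', rfl⟩ := hb
      refine Submodule.subset_span ⟨f * f', mul_mem hf hf', g * g', mul_mem hg hg', ?_⟩
      funext q
      simp only [Pi.mul_apply]
      ring
    | zero => rw [mul_zero]; exact zero_mem _
    | add x y _ _ hx hy => rw [mul_add]; exact add_mem hx hy
    | smul c x _ hx => rw [mul_smul_comm]; exact Submodule.smul_mem _ _ hx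
  | zero => rw [zero_mul]; exact zero_mem _
  | add x y _ _ hx hy => rw [add_mul]; exact add_mem hx hy
  | smul c x _ hx => rw [smul_mul_assoc]; exact Submodule.smul_mem _ _ hx

private theorem r1_sc {k X Y : Type} [Field k] [RS k X] [RS k Y] {a : X × Y → k}
    (ha : a ∈ regA k (X × Y)) : a ∈ Submodule.span k (r1_S k X Y) := by
  change a ∈ Algebra.adjoin k _ at ha
  induction ha using Algebra.adjoin_induction with
  | mem x hx =>
    rcases hx with ⟨f, hf, rfl⟩ | ⟨f, hf, rfl⟩
    · refine Submodule.subset_span ⟨f, hf, 1, one_mem _, ?_⟩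
      funext q
      simp
    · refine Submodule.subset_span ⟨1, one_mem _, f, hf, ?_⟩
      funext q
      simp
  | algebraMap c =>
    refine Submodule.subset_span ⟨algebraMap k _ c, Subalgebra.algebraMap_mem _ c, 1,
      one_mem _, ?_⟩
    funext q
    simp
  | add x y _ _ hx hy => exact add_mem hx hy
  | mul x y _ _ hx hy => exact r1_mul hx hy

theorem p_R1 : S_R1 := by
  intro k _ X Y M _ _ _ _ F
  constructor
  · intro hF
    refine Submodule.span_le.2 ?_ hF
    rintro _ ⟨f, hf, m, rfl⟩
    have h1 := r1_sc hf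
    let T : (X × Y → k) →ₗ[k] (X × Y → M) :=
      { toFun := fun a => fun q => a q • m
        map_add' := fun a b => by
          funext q
          simp only [Pi.add_apply, add_smul]
        map_smul' := fun c a => by
          funext q
          simp only [Pi.smul_apply, smul_eq_mul, RingHom.id_apply, mul_smul] }
    have h2 : T f ∈ (Submodule.span k (r1_S k X Y)).map T := ⟨f, h1, rfl⟩
    rw [Submodule.map_span] at h2
    refine Submodule.span_mono ?_ h2
    rintro _ ⟨_, ⟨a, ha, b, hb, rfl⟩, rfl⟩
    exact ⟨a, ha, b, hb, m, rfl⟩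
  · intro hF
    refine Submodule.span_le.2 ?_ hF
    rintro _ ⟨f, hf, g, hg, m, rfl⟩
    refine Submodule.subset_span ⟨(fun q : X × Y => f q.1) * (fun q : X × Y => g q.2), ?_, m, rfl⟩
    exact mul_mem (Algebra.subset_adjoin (Or.inl ⟨f, hf, rfl⟩))
      (Algebra.subset_adjoin (Or.inr ⟨g, hg, rfl⟩))

end Pool.Agent.Sp49
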