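import Pool.Agent.Lib.MP_49c83e_al.StmR

namespace Pool.Agent.Sp49

open scoped BigOperators

/-- the linear map from coefficients to functions -/
private noncomputable def r11_Psi (k M : Type) [Field k] [AddCommGroup M] [Module k M] :
    (ℕ →₀ M) →ₗ[k] (k → M) :=
  Finsupp.lsum k fun i : ℕ =>
    { toFun := fun m s => s ^ i • m
      map_add' := fun a b => by funext s; simp [smul_add]
      map_smul' := fun c a => by
        funext s
        simp only [RingHom.id_apply, Pi.smul_apply]
        rw [smul_comm] }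

private theorem r11_Psi_apply (k M : Type) [Field k] [AddCommGroup M] [Module k M]
    (c : ℕ →₀ M) (s : k) : r11_Psi k M c s = c.sum fun i m => s ^ i • m := by
  unfold r11_Psi
  rw [Finsupp.lsum_apply, Finsupp.sum, Finset.sum_apply, Finsupp.sum]
  rfl

private theorem r11_poly (k : Type) [Field k] (f : k → k) (hf : f ∈ regA k k) :
    ∃ p : Polynomial k, ∀ s, f s = p.eval s := by
  have hf' : f ∈ Algebra.adjoin k {fun s : k => s} := hf
  refine Algebra.adjoin_induction (p := fun f _ => ∃ p : Polynomial k, ∀ s, f s = p.eval s)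
    ?_ ?_ ?_ ?_ hf'
  · intro g hg
    rw [Set.mem_singleton_iff] at hg
    subst hg
    exact ⟨Polynomial.X, fun s => by simp⟩
  · intro r
    exact ⟨Polynomial.C r, fun s => by simp⟩
  · rintro f g _ _ ⟨p, hp⟩ ⟨q, hq⟩
    exact ⟨p + q, fun s => by rw [Pi.add_apply, hp, hq, Polynomial.eval_add]⟩
  · rintro f g _ _ ⟨p, hp⟩ ⟨q, hq⟩
    exact ⟨p * q, fun s => by rw [Pi.mul_apply, hp, hq, Polynomial.eval_mul]⟩

private theorem r11_pow (k : Type) [Field k] (i : ℕ) : (fun s : k => s ^ i) ∈ regA k k := by
  have h1 : (fun s : k => s) ∈ regA k k := Algebra.subset_adjoin (Set.mem_singleton _)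
  exact Subalgebra.pow_mem _ h1 i

private theorem r11_uniq (k : Type) [Field k] [Infinite k] (M : Type) [AddCommGroup M]
    [Module k M] (d : ℕ →₀ M) (A : Set k) (hA : A.Finite)
    (h : ∀ s, s ∉ A → (d.sum fun i m => s ^ i • m) = 0) : d = 0 := by
  ext i
  rw [Finsupp.zero_apply, ← Module.forall_dual_apply_eq_zero_iff k]
  intro φ
  let p : Polynomial k := d.sum fun i m => Polynomial.C (φ m) * Polynomial.X ^ i
  have hp : p = 0 := by
    apply Polynomial.eq_zero_of_infinite_isRoot
    refine Set.Infinite.mono ?_ hA.infinite_compl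
    intro s hs
    have h1 := h s hs
    show p.eval s = 0
    simp only [p, Finsupp.sum, Polynomial.eval_finsetSum, Polynomial.eval_mul,
      Polynomial.eval_C, Polynomial.eval_pow, Polynomial.eval_X]
    have h2 := congrArg φ h1
    rw [Finsupp.sum, map_sum, map_zero] at h2
    rw [← h2]
    refine Finset.sum_congr rfl fun j _ => ?_
    rw [map_smul, smul_eq_mul, mul_comm]
  have h3 : p.coeff i = φ (d i) := by
    simp only [p, Finsupp.sum, Polynomial.finsetSum_coeff, Polynomial.coeff_C_mul_X_pow]
    rw [Finset.sum_ite_eq]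
    split_ifs with hi
    · rfl
    · rw [Finsupp.notMem_support_iff.1 hi, map_zero]
  rw [← h3, hp, Polynomial.coeff_zero]

theorem p_R11 : S_R11 := by
  intro k _ _ M _ _
  refine ⟨?_, ?_, ?_⟩
  · have hle : RM k k M ≤ LinearMap.range (r11_Psi k M) := by
      refine Submodule.span_le.2 ?_
      rintro F ⟨f, hf, m, rfl⟩
      obtain ⟨p, hp⟩ := r11_poly k f hf
      refine ⟨p.sum fun i a => Finsupp.single i (a • m), ?_⟩
      funext s
      rw [Polynomial.sum, map_sum, Finset.sum_apply, hp s, Polynomial.eval_eq_sum,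
        Polynomial.sum, Finset.sum_smul]
      refine Finset.sum_congr rfl fun i _ => ?_
      rw [r11_Psi_apply]
      refine (Finsupp.sum_single_index (h := fun (i : ℕ) (m : M) => s ^ i • m)
        (smul_zero _)).trans ?_
      rw [smul_smul, mul_comm]
    intro F hF
    obtain ⟨c, hc⟩ := hle hF
    exact ⟨c, fun s => by rw [← hc, r11_Psi_apply]⟩
  · intro c
    have h : (fun s : k => c.sum fun i m => s ^ i • m) =
        ∑ i ∈ c.support, fun s : k => s ^ i • c i := by
      funext s
      rw [Finset.sum_apply]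
      rfl
    rw [h]
    refine Submodule.sum_mem _ fun i _ => ?_
    exact Submodule.subset_span ⟨fun s => s ^ i, r11_pow k i, c i, rfl⟩
  · intro c c' A hA h
    have h1 : c - c' = 0 := by
      refine r11_uniq k M (c - c') A hA fun s hs => ?_
      rw [← r11_Psi_apply, map_sub, Pi.sub_apply, r11_Psi_apply, r11_Psi_apply, h s hs, sub_self]
    exact sub_eq_zero.1 h1

end Pool.Agent.Sp49
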