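import Pool.Agent.Lib.MP_49c83e_al.StmR

namespace Pool.Agent.Sp49

open scoped BigOperators

/-- the character s ↦ s ^ i -/
private def r12_chi (k : Type) [Field k] (i : ℤ) : kˣ →* k :=
  (Units.coeHom k).comp (zpowGroupHom i)

private lemma r12_chi_apply (k : Type) [Field k] (i : ℤ) (s : kˣ) :
    r12_chi k i s = ((s ^ i : kˣ) : k) := rfl

private lemma r12_chi_mem (k : Type) [Field k] (i : ℤ) :
    (fun s : kˣ => ((s ^ i : kˣ) : k)) ∈ regA k kˣ := by
  have h1 : (fun s : kˣ => (s : k)) ∈ regA k kˣ :=
    Algebra.subset_adjoin (by simp)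
  have h2 : (fun s : kˣ => ((s⁻¹ : kˣ) : k)) ∈ regA k kˣ :=
    Algebra.subset_adjoin (by simp)
  obtain ⟨n, rfl | rfl⟩ := Int.eq_nat_or_neg i
  · have h := Subalgebra.pow_mem _ h1 n
    convert h using 1
    funext s
    simp
  · have h := Subalgebra.pow_mem _ h2 n
    convert h using 1
    funext s
    simp

private lemma r12_reg (k : Type) [Field k] {f : kˣ → k} (hf : f ∈ regA k kˣ) :
    f ∈ Submodule.span k (Set.range (fun i : ℤ => fun s : kˣ => ((s ^ i : kˣ) : k))) := by
  have h : f ∈ Subalgebra.toSubmodule (Algebra.adjoin k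
      ({fun s : kˣ => (s : k), fun s : kˣ => ((s⁻¹ : kˣ) : k)} : Set (kˣ → k))) := hf
  rw [Algebra.adjoin_eq_span] at h
  refine (Submodule.span_mono ?_) h
  intro g hg
  have hg' : g ∈ Submonoid.closure
      ({fun s : kˣ => (s : k), fun s : kˣ => ((s⁻¹ : kˣ) : k)} : Set (kˣ → k)) := hg
  induction hg' using Submonoid.closure_induction with
  | mem x hx =>
    rcases hx with rfl | hx
    · exact ⟨1, by funext s; simp⟩
    · rw [Set.mem_singleton_iff] at hx
      subst hx
      exact ⟨-1, by funext s; simp⟩
  | one => exact ⟨0, by funext s; simp⟩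
  | mul x y hx hy ihx ihy =>
    obtain ⟨i, rfl⟩ := ihx hx
    obtain ⟨j, rfl⟩ := ihy hy
    exact ⟨i + j, by funext s; simp [zpow_add]⟩

private lemma r12_inj (k : Type) [Field k] [Infinite k] : Function.Injective (r12_chi k) := by
  -- no positive power is trivial
  have key : ∀ n : ℕ, 0 < n → ¬ ∀ s : kˣ, s ^ n = 1 := by
    intro n hn h
    have hfin : Set.Finite (Set.univ : Set kˣ) := by
      have : NeZero n := ⟨hn.ne'⟩
      have h2 : (Set.univ : Set kˣ) = ((rootsOfUnity n k : Subgroup kˣ) : Set kˣ) := by
        ext s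
        simp [mem_rootsOfUnity, h s]
      rw [h2]
      have h3 : Finite (rootsOfUnity n k) := inferInstance
      exact Set.finite_coe_iff.mp h3
    have hfin2 : Set.Finite (Set.univ : Set k) := by
      refine ((hfin.image (fun s : kˣ => (s : k))).insert 0).subset ?_
      intro x _
      by_cases hx : x = 0
      · exact Or.inl hx
      · exact Or.inr ⟨Units.mk0 x hx, Set.mem_univ _, rfl⟩
    exact Set.infinite_univ hfin2
  have key2 : ∀ i : ℤ, (∀ s : kˣ, s ^ i = 1) → i = 0 := by
    intro i hi
    by_contra hne
    refine key i.natAbs (Int.natAbs_pos.mpr hne) (fun s => ?_)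
    rcases Int.natAbs_eq i with h | h
    · have := hi s
      rw [h, zpow_natCast] at this
      exact this
    · have := hi s
      rw [h, zpow_neg, zpow_natCast, inv_eq_one] at this
      exact this
  intro i j hij
  have h : ∀ s : kˣ, s ^ (i - j) = 1 := by
    intro s
    have h1 : ((s ^ i : kˣ) : k) = ((s ^ j : kˣ) : k) := by
      have := congrArg (fun f : kˣ →* k => f s) hij
      exact this
    have h2 : s ^ i = s ^ j := Units.ext h1
    rw [zpow_sub, h2, mul_inv_cancel]
  have := key2 _ h
  omega

private lemma r12_uniq (k : Type) [Field k] [Infinite k] (M : Type) [AddCommGroup M] [Module k M]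
    (d : ℤ →₀ M) (h : ∀ s : kˣ, (d.sum fun i m => ((s ^ i : kˣ) : k) • m) = 0) : d = 0 := by
  have hli : LinearIndependent k (fun i : ℤ => (fun s : kˣ => ((s ^ i : kˣ) : k))) :=
    (linearIndependent_monoidHom kˣ k).comp (r12_chi k) (r12_inj k)
  ext i
  rw [Finsupp.zero_apply]
  rw [← Module.forall_dual_apply_eq_zero_iff k]
  intro ℓ
  rw [linearIndependent_iff] at hli
  have h1 := hli (d.mapRange ℓ (map_zero ℓ)) (by
    funext s
    rw [Finsupp.linearCombination_apply, Finsupp.sum_mapRange_index (by simp)]
    have h2 := congrArg ℓ (h s)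
    rw [map_zero, map_finsuppSum] at h2
    rw [Finsupp.sum, Finset.sum_apply]
    rw [Finsupp.sum] at h2
    simp only [map_smul, Pi.smul_apply, smul_eq_mul, Pi.zero_apply] at h2 ⊢
    rw [← h2]
    exact Finset.sum_congr rfl (fun x _ => mul_comm _ _))
  have h2 := congrArg (fun f : ℤ →₀ k => f i) h1
  simpa using h2

theorem p_R12 : S_R12 := by
  intro k _ _ M _ _
  refine ⟨?_, ?_, ?_⟩
  · intro F hF
    -- the set of good functions is a submodule
    let P : Submodule k (kˣ → M) :=
      { carrier := {F | ∃ c : ℤ →₀ M, ∀ s : kˣ, F s = c.sum fun i m => ((s ^ i : kˣ) : k) • m}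
        add_mem' := by
          rintro a b ⟨c, hc⟩ ⟨c', hc'⟩
          refine ⟨c + c', fun s => ?_⟩
          rw [Finsupp.sum_add_index' (by simp) (by simp [smul_add])]
          rw [Pi.add_apply, hc, hc']
        zero_mem' := ⟨0, fun s => by simp⟩
        smul_mem' := by
          rintro a b ⟨c, hc⟩
          refine ⟨c.mapRange (fun m => a • m) (smul_zero a), fun s => ?_⟩
          rw [Finsupp.sum_mapRange_index (by simp), Pi.smul_apply, hc, Finsupp.smul_sum]
          exact Finsupp.sum_congr (fun x _ => smul_comm _ _ _) }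
    have hP : RM k kˣ M ≤ P := by
      refine Submodule.span_le.mpr ?_
      rintro _ ⟨f, hf, m, rfl⟩
      have hf' := r12_reg k hf
      change (fun x => f x • m) ∈ P
      clear hf
      induction hf' using Submodule.span_induction with
      | mem x hx =>
        obtain ⟨i, rfl⟩ := hx
        exact ⟨Finsupp.single i m, fun s => by
          rw [Finsupp.sum_single_index (by simp)]⟩
      | zero =>
        have : (fun x : kˣ => (0 : kˣ → k) x • m) = 0 := by funext x; simp
        rw [this]; exact P.zero_mem
      | add x y hx hy ihx ihy =>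
        have e : (fun s : kˣ => (x + y) s • m) = (fun s => x s • m) + (fun s => y s • m) := by
          funext s; simp [add_smul]
        rw [e]
        exact P.add_mem ihx ihy
      | smul a x hx ihx =>
        have e : (fun s : kˣ => (a • x) s • m) = a • (fun s => x s • m) := by
          funext s; simp [mul_smul]
        rw [e]
        exact P.smul_mem a ihx
    exact hP hF
  · intro c
    have e : (fun s : kˣ => c.sum fun i m => ((s ^ i : kˣ) : k) • m) =
        ∑ i ∈ c.support, (fun s : kˣ => ((s ^ i : kˣ) : k) • c i) := by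
      funext s
      rw [Finset.sum_apply]
      rfl
    rw [e]
    refine Submodule.sum_mem _ (fun i _ => ?_)
    exact Submodule.subset_span ⟨_, r12_chi_mem k i, c i, rfl⟩
  · intro c c' h
    have h0 := r12_uniq k M (c - c') (fun s => by
      rw [Finsupp.sum_sub_index (by simp [smul_sub]), h s, sub_self])
    exact sub_eq_zero.mp h0

end Pool.Agent.Sp49
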