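import Pool.Agent.Lib.MP_49c83e_al.StmR

/-! [sp49 R13] expansion in torus characters -/

namespace Pool.Agent.Sp49

open scoped BigOperators

section R13

variable {k : Type} [Field k] {n : ℕ} {M : Type} [AddCommGroup M] [Module k M]

theorem r13_add (μ ν : Fin n → ℤ) :
    (chT (μ + ν) : (Fin n → kˣ) → k) = chT μ * chT ν := by
  funext t
  simp only [chT, Pi.add_apply, Pi.mul_apply, zpow_add, Finset.prod_mul_distrib, Units.val_mul]

theorem r13_zero : (chT (0 : Fin n → ℤ) : (Fin n → kˣ) → k) = 1 := by
  funext t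
  simp [chT]

theorem r13_single (i : Fin n) (m : ℤ) (t : Fin n → kˣ) :
    (chT (Pi.single i m) t : k) = ((t i ^ m : kˣ) : k) := by
  unfold chT
  rw [Finset.prod_eq_single i]
  · rw [Pi.single_eq_same]
  · intro j _ hj
    rw [Pi.single_eq_of_ne hj, zpow_zero]
  · intro h
    exact absurd (Finset.mem_univ _) h

/-- regular functions on the torus are combinations of characters -/
theorem r13_span (f : (Fin n → kˣ) → k) (hf : f ∈ regA k (Fin n → kˣ)) :
    f ∈ Submodule.span k (Set.range (fun μ : Fin n → ℤ => (chT μ : (Fin n → kˣ) → k))) := by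
  set V : Submodule k ((Fin n → kˣ) → k) :=
    Submodule.span k (Set.range (fun μ : Fin n → ℤ => (chT μ : (Fin n → kˣ) → k))) with hV
  have hch : ∀ μ : Fin n → ℤ, (chT μ : (Fin n → kˣ) → k) ∈ V := fun μ =>
    Submodule.subset_span ⟨μ, rfl⟩
  have hVV : V * V ≤ V := by
    rw [hV, Submodule.span_mul_span]
    apply Submodule.span_mono
    rintro _ ⟨_, ⟨μ, rfl⟩, _, ⟨ν, rfl⟩, rfl⟩
    exact ⟨μ + ν, r13_add μ ν⟩
  have hf' : f ∈ Algebra.adjoin k ({F | ∃ i : Fin n, F = fun t : Fin n → kˣ => (t i : k)} ∪
    {F | ∃ i : Fin n, F = fun t : Fin n → kˣ => (((t i)⁻¹ : kˣ) : k)}) := hf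
  refine Algebra.adjoin_induction (p := fun f _ => f ∈ V) ?_ ?_ ?_ ?_ hf'
  · rintro F (⟨i, rfl⟩ | ⟨i, rfl⟩)
    · have h := hch (Pi.single i 1)
      have e : (chT (Pi.single i 1) : (Fin n → kˣ) → k) = fun t : Fin n → kˣ => (t i : k) := by
        funext t
        rw [r13_single, zpow_one]
      rwa [e] at h
    · have h := hch (Pi.single i (-1))
      have e : (chT (Pi.single i (-1)) : (Fin n → kˣ) → k) =
          fun t : Fin n → kˣ => (((t i)⁻¹ : kˣ) : k) := by
        funext t
        rw [r13_single, zpow_neg_one]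
      rwa [e] at h
  · intro r
    have h := Submodule.smul_mem V r (hch 0)
    rw [r13_zero] at h
    rwa [Algebra.algebraMap_eq_smul_one]
  · intro x y _ _ hx hy
    exact Submodule.add_mem _ hx hy
  · intro x y _ _ hx hy
    exact hVV (Submodule.mul_mem_mul hx hy)

theorem r13_reg (μ : Fin n → ℤ) : (chT μ : (Fin n → kˣ) → k) ∈ regA k (Fin n → kˣ) := by
  have e : (chT μ : (Fin n → kˣ) → k) = ∏ i, fun t : Fin n → kˣ => ((t i ^ μ i : kˣ) : k) := by
    funext t
    rw [Finset.prod_apply]
    unfold chT
    rw [Units.coe_prod]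
  rw [e]
  apply Subalgebra.prod_mem
  intro i _
  have h1 : (fun t : Fin n → kˣ => (t i : k)) ∈ regA k (Fin n → kˣ) :=
    Algebra.subset_adjoin (Or.inl ⟨i, rfl⟩)
  have h2 : (fun t : Fin n → kˣ => (((t i)⁻¹ : kˣ) : k)) ∈ regA k (Fin n → kˣ) :=
    Algebra.subset_adjoin (Or.inr ⟨i, rfl⟩)
  obtain ⟨m, hm | hm⟩ := Int.eq_nat_or_neg (μ i)
  · have e2 : (fun t : Fin n → kˣ => ((t i ^ μ i : kˣ) : k)) =
        (fun t : Fin n → kˣ => (t i : k)) ^ m := by
      funext t
      rw [hm]
      simp
    rw [e2]
    exact Subalgebra.pow_mem _ h1 m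
  · have e2 : (fun t : Fin n → kˣ => ((t i ^ μ i : kˣ) : k)) =
        (fun t : Fin n → kˣ => (((t i)⁻¹ : kˣ) : k)) ^ m := by
      funext t
      rw [hm]
      simp
    rw [e2]
    exact Subalgebra.pow_mem _ h2 m

/-- the linear map from coefficients to functions -/
noncomputable def r13_L : ((Fin n → ℤ) →₀ M) →ₗ[k] ((Fin n → kˣ) → M) :=
  Finsupp.lsum k (fun μ => LinearMap.pi (fun t => (chT μ t : k) • (LinearMap.id : M →ₗ[k] M)))

theorem r13_L_apply (c : (Fin n → ℤ) →₀ M) (t : Fin n → kˣ) :
    r13_L (k := k) c t = c.sum fun μ m => (chT μ t : k) • m := by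
  unfold r13_L
  rw [Finsupp.lsum_apply, Finsupp.sum_apply']
  rfl

theorem r13_inj [Infinite k] : Function.Injective
    (fun μ : Fin n → ℤ => (chT μ : (Fin n → kˣ) → k)) := by
  classical
  intro μ ν h
  funext i
  by_contra hne
  set N : ℕ := (μ i - ν i).natAbs with hN
  have hN0 : N ≠ 0 := by
    rw [hN, Int.natAbs_ne_zero]
    exact sub_ne_zero.2 hne
  have key : ∀ s : kˣ, s ^ N = 1 := by
    intro s
    have h1 := congrFun h (Function.update 1 i s)
    have e : ∀ κ : Fin n → ℤ, (chT κ (Function.update 1 i s) : k) = ((s ^ κ i : kˣ) : k) := by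
      intro κ
      unfold chT
      rw [Finset.prod_eq_single i]
      · rw [Function.update_self]
      · intro j _ hj
        rw [Function.update_of_ne hj, Pi.one_apply, one_zpow]
      · intro h
        exact absurd (Finset.mem_univ _) h
    simp only [e] at h1
    have h2 : s ^ μ i = s ^ ν i := Units.ext h1
    have h3 : s ^ (μ i - ν i) = 1 := by rw [zpow_sub, h2, mul_inv_cancel]
    rcases Int.natAbs_eq (μ i - ν i) with h4 | h4
    · rw [h4, ← hN, zpow_natCast] at h3
      exact h3
    · rw [h4, ← hN, zpow_neg, zpow_natCast, inv_eq_one] at h3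
      exact h3
  obtain ⟨x, hx⟩ := Infinite.exists_notMem_finset
    ((Polynomial.nthRoots N (1 : k)).toFinset ∪ {0})
  rw [Finset.mem_union, not_or, Finset.mem_singleton, Multiset.mem_toFinset,
    Polynomial.mem_nthRoots (Nat.pos_of_ne_zero hN0)] at hx
  have h5 := key (Units.mk0 x hx.2)
  apply hx.1
  have h6 := congrArg (fun u : kˣ => (u : k)) h5
  simpa using h6

/-- the characters as monoid homomorphisms -/
def r13_hom (μ : Fin n → ℤ) : (Fin n → kˣ) →* k where
  toFun := chT μ
  map_one' := by simp [chT]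
  map_mul' s t := by
    simp only [chT, Pi.mul_apply, mul_zpow, Finset.prod_mul_distrib, Units.val_mul]

theorem r13_li [Infinite k] : LinearIndependent k
    (fun μ : Fin n → ℤ => (chT μ : (Fin n → kˣ) → k)) := by
  have h := (linearIndependent_monoidHom (Fin n → kˣ) k).comp
    (fun μ : Fin n → ℤ => r13_hom μ) ?_
  · exact h
  · intro μ ν hμν
    apply r13_inj (k := k)
    exact congrArg (fun f : (Fin n → kˣ) →* k => (f : (Fin n → kˣ) → k)) hμν

end R13

theorem p_R13 : S_R13 := by
  intro k _ _ n M _ _
  refine ⟨?_, ?_, ?_⟩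
  · intro F hF
    have hle : RM k (Fin n → kˣ) M ≤ LinearMap.range (r13_L (k := k) (n := n) (M := M)) := by
      unfold RM
      rw [Submodule.span_le]
      rintro _ ⟨f, hf, m, rfl⟩
      have h1 := r13_span f hf
      refine Submodule.span_induction (p := fun f _ => (fun t => f t • m) ∈
        LinearMap.range (r13_L (k := k) (n := n) (M := M))) ?_ ?_ ?_ ?_ h1
      · rintro _ ⟨μ, rfl⟩
        refine ⟨Finsupp.single μ m, ?_⟩
        funext t
        rw [r13_L_apply]
        exact Finsupp.sum_single_index (h := fun (μ : Fin n → ℤ) (m : M) => (chT μ t : k) • m)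
          (smul_zero _)
      · have e : (fun t : Fin n → kˣ => (0 : (Fin n → kˣ) → k) t • m) = 0 := by
          funext t
          simp
        rw [e]
        exact Submodule.zero_mem _
      · intro x y _ _ hx hy
        have e : (fun t : Fin n → kˣ => (x + y) t • m) = (fun t => x t • m) + fun t => y t • m := by
          funext t
          simp [add_smul]
        rw [e]
        exact Submodule.add_mem _ hx hy
      · intro a x _ hx
        have e : (fun t : Fin n → kˣ => (a • x) t • m) = a • fun t => x t • m := by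
          funext t
          simp [mul_smul]
        rw [e]
        exact Submodule.smul_mem _ a hx
    obtain ⟨c, hc⟩ := hle hF
    exact ⟨c, fun t => by rw [← hc, r13_L_apply]⟩
  · intro c
    have e : (fun t : Fin n → kˣ => c.sum fun μ m => chT μ t • m) =
        ∑ μ ∈ c.support, fun t : Fin n → kˣ => (chT μ t : k) • c μ := by
      funext t
      rw [Finset.sum_apply]
      rfl
    rw [e]
    apply Submodule.sum_mem
    intro μ _
    exact Submodule.subset_span ⟨chT μ, r13_reg μ, c μ, rfl⟩
  · intro c c' h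
    have h0 : r13_L (k := k) (c - c') = 0 := by
      rw [map_sub, sub_eq_zero]
      funext t
      rw [r13_L_apply, r13_L_apply, h t]
    have h1 : c - c' = 0 := by
      ext μ
      rw [Finsupp.zero_apply]
      rw [← Module.forall_dual_apply_eq_zero_iff k]
      intro φ
      have hli := linearIndependent_iff.1 (r13_li (k := k) (n := n))
        ((c - c').mapRange φ (map_zero φ)) ?_
      · have := congrArg (fun d : (Fin n → ℤ) →₀ k => d μ) hli
        simpa using this
      · funext t
        rw [Finsupp.linearCombination_apply, Finsupp.sum_mapRange_index (by simp)]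
        have h2 := congrArg φ (congrFun h0 t)
        rw [r13_L_apply] at h2
        rw [Finsupp.sum, Finset.sum_apply, Pi.zero_apply]
        rw [Finsupp.sum, map_sum, Pi.zero_apply, map_zero] at h2
        rw [← h2]
        apply Finset.sum_congr rfl
        intro ν _
        rw [map_smul, Pi.smul_apply, smul_eq_mul, smul_eq_mul, mul_comm]
    exact sub_eq_zero.1 h1

end Pool.Agent.Sp49
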