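import Pool.Agent.Lib.MP_49c83e_al.StmR

namespace Pool.Agent.Sp49

theorem p_R14 : S_R14 := by
  intro k _ ι _ f
  change f ∈ Algebra.adjoin k {F | ∃ i : ι, F = fun u : ι → k => u i} ↔ _
  constructor
  · intro hf
    induction hf using Algebra.adjoin_induction with
    | mem x hx =>
      obtain ⟨i, rfl⟩ := hx
      exact ⟨MvPolynomial.X i, fun u => by simp⟩
    | algebraMap r => exact ⟨MvPolynomial.C r, fun u => by simp⟩
    | add x y _ _ h1 h2 =>
      obtain ⟨P, hP⟩ := h1
      obtain ⟨Q, hQ⟩ := h2
      exact ⟨P + Q, fun u => by simp [hP, hQ]⟩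
    | mul x y _ _ h1 h2 =>
      obtain ⟨P, hP⟩ := h1
      obtain ⟨Q, hQ⟩ := h2
      exact ⟨P * Q, fun u => by simp [hP, hQ]⟩
  · rintro ⟨P, hP⟩
    have hf : f = fun u => MvPolynomial.eval u P := funext hP
    subst hf
    induction P using MvPolynomial.induction_on with
    | C a =>
      have h := Subalgebra.algebraMap_mem
        (Algebra.adjoin k {F | ∃ i : ι, F = fun u : ι → k => u i}) a
      have h2 : (fun u : ι → k => MvPolynomial.eval u (MvPolynomial.C a)) =
          algebraMap k ((ι → k) → k) a := by
        funext u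
        simp
      rw [h2]
      exact h
    | add p q h1 h2 =>
      have h := Subalgebra.add_mem _ (h1 (fun _ => rfl)) (h2 (fun _ => rfl))
      have h3 : (fun u : ι → k => MvPolynomial.eval u (p + q)) =
          (fun u => MvPolynomial.eval u p) + fun u => MvPolynomial.eval u q := by
        funext u
        simp
      rw [h3]
      exact h
    | mul_X p i h1 =>
      have h2 : (fun u : ι → k => u i) ∈
          Algebra.adjoin k {F | ∃ i : ι, F = fun u : ι → k => u i} :=
        Algebra.subset_adjoin ⟨i, rfl⟩
      have h := Subalgebra.mul_mem _ (h1 (fun _ => rfl)) h2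
      have h3 : (fun u : ι → k => MvPolynomial.eval u (p * MvPolynomial.X i)) =
          (fun u => MvPolynomial.eval u p) * fun u => u i := by
        funext u
        simp
      rw [h3]
      exact h

end Pool.Agent.Sp49
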