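import Pool.Agent.Lib.MP_49c83e_al.StmR

/-!
MP_49c83e_al, piece R15: coboundaries are rational cocycles.
-/

namespace Pool.Agent.Sp49

open scoped BigOperators

theorem p_R15 (h2 : S_R2) (h3 : S_R3) (h7 : S_R7) : S_R15 := by
  intro k _ Γ M _ _ _ _ _ ρ hρ
  have hd0 : ∀ m : M, d0 ρ m ∈ RM k Γ M := by
    intro m
    have hc : (fun _ : Γ => m) ∈ RM k Γ M := (h3 k Γ Γ M M).2.2.2.2.1 m
    exact Submodule.sub_mem _ (hρ m) hc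
  refine ⟨?_, ?_, hd0⟩
  · rintro _ ⟨m, rfl⟩
    refine ⟨hd0 m, ?_⟩
    change d1 ρ (d0 ρ m) = 0
    funext q
    change ρ q.1 (ρ q.2 m - m) - (ρ (q.1 * q.2) m - m) + (ρ q.1 m - m) = 0
    rw [map_mul, Module.End.mul_apply, map_sub]
    abel
  · rintro _ ⟨ψ, hψ, rfl⟩
    refine ⟨?_, ?_⟩
    · have hfst : IsReg k (fun q : Γ × Γ => q.1) := (h2 k Γ Γ Γ).2.2.2.1
      have hsnd : IsReg k (fun q : Γ × Γ => q.2) := (h2 k Γ Γ Γ).2.2.2.2.1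
      have e1 : (fun q : Γ × Γ => ψ q.2) ∈ RM k (Γ × Γ) M :=
        (h3 k (Γ × Γ) Γ M M).1 _ ψ hsnd hψ
      have e2 : (fun q : Γ × Γ => ρ q.1 (ψ q.2)) ∈ RM k (Γ × Γ) M :=
        h7 k (Γ × Γ) Γ M ρ hρ _ _ hfst e1
      have e3 : (fun q : Γ × Γ => ψ (q.1 * q.2)) ∈ RM k (Γ × Γ) M :=
        (h3 k (Γ × Γ) Γ M M).1 _ ψ RG.mul_reg hψ
      have e4 : (fun q : Γ × Γ => ψ q.1) ∈ RM k (Γ × Γ) M :=
        (h3 k (Γ × Γ) Γ M M).1 _ ψ hfst hψ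
      exact Submodule.add_mem _ (Submodule.sub_mem _ e2 e3) e4
    · change d2 ρ (d1 ρ ψ) = 0
      funext q
      obtain ⟨a, b, c⟩ := q
      change ρ a (ρ b (ψ c) - ψ (b * c) + ψ b) - (ρ (a * b) (ψ c) - ψ (a * b * c) + ψ (a * b)) +
        (ρ a (ψ (b * c)) - ψ (a * (b * c)) + ψ a) - (ρ a (ψ b) - ψ (a * b) + ψ a) = 0
      rw [map_mul, Module.End.mul_apply, map_add, map_sub, mul_assoc]
      abel

end Pool.Agent.Sp49
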