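import Pool.Agent.Lib.MP_49c83e_al.StmR

namespace Pool.Agent.Sp49

private theorem r2_pair (k : Type) [Field k] (X Y Z : Type) [RS k X] [RS k Y] [RS k Z]
    (φ : X → Y) (ψ : X → Z) (hφ : IsReg k φ) (hψ : IsReg k ψ) :
    IsReg k (fun x => (φ x, ψ x)) := by
  intro f hf
  have hf' : f ∈ Algebra.adjoin k ({F | ∃ f ∈ regA k Y, F = fun q : Y × Z => f q.1} ∪
    {F | ∃ f ∈ regA k Z, F = fun q : Y × Z => f q.2}) := hf
  refine Algebra.adjoin_induction (p := fun F _ => (fun x => F (φ x, ψ x)) ∈ regA k X)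
    ?_ ?_ ?_ ?_ hf'
  · rintro F (⟨g, hg, rfl⟩ | ⟨g, hg, rfl⟩)
    · exact hφ g hg
    · exact hψ g hg
  · intro r
    exact Subalgebra.algebraMap_mem (regA k X) r
  · intro F G _ _ h1 h2
    exact Subalgebra.add_mem _ h1 h2
  · intro F G _ _ h1 h2
    exact Subalgebra.mul_mem _ h1 h2

theorem p_R2 : S_R2 := by
  intro k _ X Y Z _ _ _
  refine ⟨fun f hf => hf, fun φ ψ hφ hψ f hf => hφ _ (hψ f hf), ?_, ?_, ?_,
    fun φ ψ hφ hψ => r2_pair k X Y Z φ ψ hφ hψ⟩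
  · intro y f _
    exact Subalgebra.algebraMap_mem (regA k X) (f y)
  · intro f hf
    exact Algebra.subset_adjoin (Or.inl ⟨f, hf, rfl⟩)
  · intro f hf
    exact Algebra.subset_adjoin (Or.inr ⟨f, hf, rfl⟩)

end Pool.Agent.Sp49
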