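import Mathlib
import Pool.Agent.Lib.MP_49c83e_al.StmR

/-!
MP_49c83e_al, piece R3: vector valued regular maps.
-/

set_option autoImplicit false

namespace Pool.Agent.Sp49

open scoped BigOperators

section

variable {k : Type} [Field k] {X Y M N : Type} [RS k X] [RS k Y] [AddCommGroup M]
  [Module k M] [AddCommGroup N] [Module k N]

/-- generators -/
theorem r3_gen (f : X → k) (hf : f ∈ regA k X) (m : M) : (fun x => f x • m) ∈ RM k X M :=
  Submodule.subset_span ⟨f, hf, m, rfl⟩

/-- if a linear map sends generators into a submodule, it sends `RM` into it -/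
theorem r3_ind {V : Type} [AddCommGroup V] [Module k V] (L : (X → M) →ₗ[k] V)
    (P : Submodule k V) (h : ∀ f ∈ regA k X, ∀ m : M, L (fun x => f x • m) ∈ P)
    (F : X → M) (hF : F ∈ RM k X M) : L F ∈ P := by
  have h1 : RM k X M ≤ P.comap L := by
    unfold RM
    rw [Submodule.span_le]
    rintro G ⟨f, hf, m, rfl⟩
    exact h f hf m
  exact h1 hF

/-- pull back -/
theorem r3_pull (φ : X → Y) (F : Y → M) (hφ : IsReg k φ) (hF : F ∈ RM k Y M) :
    (fun x => F (φ x)) ∈ RM k X M :=
  r3_ind (V := X → M) (LinearMap.funLeft k M φ) (RM k X M)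
    (fun f hf m => r3_gen (fun x => f (φ x)) (hφ f hf) m) F hF

/-- linear images -/
theorem r3_lin (l : M →ₗ[k] N) (F : X → M) (hF : F ∈ RM k X M) :
    (fun x => l (F x)) ∈ RM k X N := by
  refine r3_ind (V := X → N) (l.compLeft X) (RM k X N) ?_ F hF
  intro f hf m
  have e : (l.compLeft X) (fun x => f x • m) = fun x => f x • l m := by
    funext x
    simp [LinearMap.compLeft]
  rw [e]
  exact r3_gen f hf (l m)

/-- the linear map multiplying by a scalar valued function, after composition with a map -/
private def r3_mulL (g : X → k) (p : X → Y) : (Y → M) →ₗ[k] (X → M) where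
  toFun F := fun x => g x • F (p x)
  map_add' a b := by
    funext x
    simp only [Pi.add_apply, smul_add]
  map_smul' c a := by
    funext x
    simp only [Pi.smul_apply, RingHom.id_apply]
    rw [smul_comm]

/-- products with regular functions -/
theorem r3_smul (f : X → k) (F : X → M) (hf : f ∈ regA k X) (hF : F ∈ RM k X M) :
    (fun x => f x • F x) ∈ RM k X M := by
  refine r3_ind (V := X → M) (r3_mulL f (fun x => x)) (RM k X M) ?_ F hF
  intro g hg m
  have e : (r3_mulL f (fun x => x)) (fun x => g x • m) = fun x => (f * g) x • m := by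
    funext x
    simp only [r3_mulL, LinearMap.coe_mk, AddHom.coe_mk, Pi.mul_apply, mul_smul]
  rw [e]
  exact r3_gen (f * g) (Subalgebra.mul_mem _ hf hg) m

/-- first projection -/
theorem r3_fst (f : X → k) (hf : f ∈ regA k X) :
    (fun q : X × Y => f q.1) ∈ regA k (X × Y) :=
  Algebra.subset_adjoin (Or.inl ⟨f, hf, rfl⟩)

/-- second projection -/
theorem r3_snd (f : Y → k) (hf : f ∈ regA k Y) :
    (fun q : X × Y => f q.2) ∈ regA k (X × Y) :=
  Algebra.subset_adjoin (Or.inr ⟨f, hf, rfl⟩)

end

theorem p_R3 : S_R3 := by
  intro k _ X Y M N _ _ _ _ _ _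
  refine ⟨?_, ?_, ?_, ?_, ?_, ?_⟩
  · intro φ F hφ hF
    exact r3_pull φ F hφ hF
  · intro l F hF
    exact r3_lin l F hF
  · intro f F hf hF
    exact r3_smul f F hf hF
  · intro f F hf hF
    have h1 : (fun q : X × Y => F q.2) ∈ RM k (X × Y) M :=
      r3_pull (X := X × Y) (fun q : X × Y => q.2) F (fun g hg => r3_snd g hg) hF
    exact r3_smul (X := X × Y) (fun q : X × Y => f q.1) (fun q : X × Y => F q.2)
      (r3_fst f hf) h1
  · intro m
    have h1 := r3_gen (k := k) (X := X) (1 : X → k) (Subalgebra.one_mem _) m
    have e : (fun x : X => (1 : X → k) x • m) = fun _ : X => m := by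
      funext x
      simp
    rw [e] at h1
    exact h1
  · intro f
    constructor
    · intro hf
      refine r3_ind (V := X → k) LinearMap.id (Subalgebra.toSubmodule (regA k X)) ?_ f hf
      intro g hg m
      have e : (LinearMap.id (R := k) (M := X → k)) (fun x => g x • m) = m • g := by
        funext x
        simp [mul_comm]
      rw [e]
      exact Submodule.smul_mem _ m hg
    · intro hf
      have h1 := r3_gen (k := k) (X := X) f hf (1 : k)
      have e : (fun x : X => f x • (1 : k)) = f := by
        funext x
        simp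
      rw [e] at h1
      exact h1

end Pool.Agent.Sp49
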