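import Pool.Agent.Lib.MP_49c83e_al.StmR

/-!
[R4] Lifting through surjections and restriction of the codomain.
-/

namespace Pool.Agent.Sp49

private theorem r4_lin {k : Type} [Field k] {X M N : Type} [RS k X] [AddCommGroup M]
    [Module k M] [AddCommGroup N] [Module k N] (l : M →ₗ[k] N) {F : X → M} (hF : F ∈ RM k X M) :
    (fun x => l (F x)) ∈ RM k X N := by
  unfold RM at hF
  induction hF using Submodule.span_induction with
  | mem F h =>
    obtain ⟨f, hf, m, rfl⟩ := h
    refine Submodule.subset_span ⟨f, hf, l m, ?_⟩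
    funext x
    rw [map_smul]
  | zero =>
    have e : (fun x : X => l ((0 : X → M) x)) = 0 := by
      funext x
      simp
    rw [e]
    exact Submodule.zero_mem _
  | add F G _ _ h1 h2 =>
    have e : (fun x : X => l ((F + G) x)) = (fun x => l (F x)) + fun x => l (G x) := by
      funext x
      simp
    rw [e]
    exact Submodule.add_mem _ h1 h2
  | smul c F _ h1 =>
    have e : (fun x : X => l ((c • F) x)) = c • fun x => l (F x) := by
      funext x
      simp
    rw [e]
    exact Submodule.smul_mem _ c h1

theorem p_R4 : S_R4 := by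
  intro k _ X M N _ _ _ _ _
  refine ⟨?_, ?_⟩
  · intro l hl F hF
    unfold RM at hF
    induction hF using Submodule.span_induction with
    | mem F h =>
      obtain ⟨f, hf, n, rfl⟩ := h
      obtain ⟨m, hm⟩ := hl n
      refine ⟨fun x => f x • m, Submodule.subset_span ⟨f, hf, m, rfl⟩, fun x => ?_⟩
      rw [map_smul, hm]
    | zero => exact ⟨0, Submodule.zero_mem _, fun x => by simp⟩
    | add F G _ _ h1 h2 =>
      obtain ⟨F', hF', h3⟩ := h1
      obtain ⟨G', hG', h4⟩ := h2
      refine ⟨F' + G', Submodule.add_mem _ hF' hG', fun x => ?_⟩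
      rw [Pi.add_apply, Pi.add_apply, map_add, h3, h4]
    | smul c F _ h1 =>
      obtain ⟨F', hF', h3⟩ := h1
      refine ⟨c • F', Submodule.smul_mem _ c hF', fun x => ?_⟩
      rw [Pi.smul_apply, Pi.smul_apply, map_smul, h3]
  · intro P F h hF
    obtain ⟨r, hr⟩ := LinearMap.exists_leftInverse_of_injective P.subtype P.ker_subtype
    have e : (fun x => (⟨F x, h x⟩ : P)) = fun x => r (F x) := by
      funext x
      exact (DFunLike.congr_fun hr (⟨F x, h x⟩ : P)).symm
    rw [e]
    exact r4_lin r hF

end Pool.Agent.Sp49
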