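import Pool.Agent.Lib.MP_49c83e_al.StmR

/-!
MP_49c83e_al, piece R5: currying.
-/

namespace Pool.Agent.Sp49

open scoped BigOperators

private theorem r5_exp (h1 : S_R1) (k : Type) [Field k] (X Y M : Type) [RS k X] [RS k Y]
    [AddCommGroup M] [Module k M] (F : X × Y → M) (hF : F ∈ RM k (X × Y) M) :
    ∃ (N : ℕ) (f : Fin N → X → k) (G : Fin N → Y → M), (∀ i, f i ∈ regA k X) ∧
      (∀ i, G i ∈ RM k Y M) ∧ ∀ x y, F (x, y) = ∑ i, f i x • G i y := by
  rw [h1] at hF
  refine Submodule.span_induction (p := fun F _ => ∃ (N : ℕ) (f : Fin N → X → k)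
    (G : Fin N → Y → M), (∀ i, f i ∈ regA k X) ∧ (∀ i, G i ∈ RM k Y M) ∧
      ∀ x y, F (x, y) = ∑ i, f i x • G i y) ?_ ?_ ?_ ?_ hF
  · rintro _ ⟨f, hf, g, hg, m, rfl⟩
    refine ⟨1, fun _ => f, fun _ => fun y => g y • m, fun _ => hf,
      fun _ => Submodule.subset_span ⟨g, hg, m, rfl⟩, fun x y => ?_⟩
    rw [Fin.sum_univ_one]
    exact mul_smul (f x) (g y) m
  · exact ⟨0, fun i => i.elim0, fun i => i.elim0, fun i => i.elim0, fun i => i.elim0,
      fun x y => by simp⟩
  · rintro F₁ F₂ _ _ ⟨N₁, f₁, G₁, hf₁, hG₁, e₁⟩ ⟨N₂, f₂, G₂, hf₂, hG₂, e₂⟩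
    refine ⟨N₁ + N₂, Fin.append f₁ f₂, Fin.append G₁ G₂, ?_, ?_, ?_⟩
    · intro i
      refine Fin.addCases (fun i => ?_) (fun i => ?_) i
      · rw [Fin.append_left]
        exact hf₁ i
      · rw [Fin.append_right]
        exact hf₂ i
    · intro i
      refine Fin.addCases (fun i => ?_) (fun i => ?_) i
      · rw [Fin.append_left]
        exact hG₁ i
      · rw [Fin.append_right]
        exact hG₂ i
    · intro x y
      rw [Fin.sum_univ_add]
      simp only [Fin.append_left, Fin.append_right]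
      rw [← e₁, ← e₂]
      rfl
  · rintro c F₁ _ ⟨N₁, f₁, G₁, hf₁, hG₁, e₁⟩
    refine ⟨N₁, f₁, fun i => c • G₁ i, hf₁, fun i => Submodule.smul_mem _ c (hG₁ i), ?_⟩
    intro x y
    change c • F₁ (x, y) = _
    rw [e₁, Finset.smul_sum]
    apply Finset.sum_congr rfl
    intro i _
    exact smul_comm c (f₁ i x) (G₁ i y)

theorem p_R5 (h1 : S_R1) : S_R5 := by
  intro k _ X Y M _ _ _ _ F hF
  obtain ⟨N, f, G, hf, hG, e⟩ := r5_exp h1 k X Y M F hF
  refine ⟨⟨N, f, G, hf, hG, e⟩, ?_, ?_, ?_⟩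
  · intro x
    have h : (fun y => F (x, y)) = ∑ i, f i x • G i := by
      funext y
      rw [e, Finset.sum_apply]
      rfl
    rw [h]
    exact Submodule.sum_mem _ fun i _ => Submodule.smul_mem _ _ (hG i)
  · intro y
    have h : (fun x => F (x, y)) = ∑ i, fun x => f i x • G i y := by
      funext x
      rw [e, Finset.sum_apply]
    rw [h]
    exact Submodule.sum_mem _ fun i _ => Submodule.subset_span ⟨f i, hf i, G i y, rfl⟩
  · intro hx
    have h : (fun x => (⟨fun y => F (x, y), hx x⟩ : RM k Y M)) =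
        ∑ i, fun x => f i x • (⟨G i, hG i⟩ : RM k Y M) := by
      funext x
      apply Subtype.ext
      funext y
      rw [Finset.sum_apply, Submodule.coe_sum, Finset.sum_apply]
      exact e x y
    rw [h]
    exact Submodule.sum_mem _ fun i _ =>
      Submodule.subset_span ⟨f i, hf i, ⟨G i, hG i⟩, rfl⟩

end Pool.Agent.Sp49
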