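import Pool.Agent.Lib.MP_49c83e_al.StmR

namespace Pool.Agent.Sp49

open scoped BigOperators

private theorem r6_coord (k : Type) [Field k] (X M : Type) [RS k X] [AddCommGroup M]
    [Module k M] {ι : Type} (b : Module.Basis ι k M) (F : X → M) (hF : F ∈ RM k X M) :
    ∃ J : Finset ι, ∀ j, (fun x => b.repr (F x) j) ∈ regA k X ∧
      (j ∉ J → ∀ x, b.repr (F x) j = 0) := by
  classical
  refine Submodule.span_induction (p := fun F _ => ∃ J : Finset ι, ∀ j,
    (fun x => b.repr (F x) j) ∈ regA k X ∧ (j ∉ J → ∀ x, b.repr (F x) j = 0)) ?_ ?_ ?_ ?_ hF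
  · rintro F ⟨f, hf, m, rfl⟩
    refine ⟨(b.repr m).support, fun j => ⟨?_, fun hj x => ?_⟩⟩
    · have h : (fun x => b.repr (f x • m) j) = (b.repr m j) • f := by
        funext x
        simp only [map_smul, Finsupp.smul_apply, smul_eq_mul, Pi.smul_apply]
        ring
      rw [h]
      exact Subalgebra.smul_mem _ hf _
    · rw [map_smul, Finsupp.smul_apply, Finsupp.notMem_support_iff.1 hj, smul_zero]
  · refine ⟨∅, fun j => ⟨?_, fun _ x => ?_⟩⟩
    · have h : (fun x : X => b.repr ((0 : X → M) x) j) = 0 := by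
        funext x
        simp
      rw [h]
      exact Subalgebra.zero_mem _
    · simp
  · rintro F G _ _ ⟨J, hJ⟩ ⟨J', hJ'⟩
    refine ⟨J ∪ J', fun j => ⟨?_, fun hj x => ?_⟩⟩
    · have h : (fun x => b.repr ((F + G) x) j) = (fun x => b.repr (F x) j) +
          (fun x => b.repr (G x) j) := by
        funext x
        simp
      rw [h]
      exact Subalgebra.add_mem _ (hJ j).1 (hJ' j).1
    · rw [Finset.mem_union, not_or] at hj
      rw [Pi.add_apply, map_add, Finsupp.add_apply, (hJ j).2 hj.1 x, (hJ' j).2 hj.2 x, add_zero]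
  · rintro c F _ ⟨J, hJ⟩
    refine ⟨J, fun j => ⟨?_, fun hj x => ?_⟩⟩
    · have h : (fun x => b.repr ((c • F) x) j) = c • (fun x => b.repr (F x) j) := by
        funext x
        simp
      rw [h]
      exact Subalgebra.smul_mem _ (hJ j).1 _
    · rw [Pi.smul_apply, map_smul, Finsupp.smul_apply, (hJ j).2 hj x, smul_zero]

private theorem r6_mul (k : Type) [Field k] (X Y M : Type) [RS k X] [RS k Y] [AddCommGroup M]
    [Module k M] (f : X → k) (hf : f ∈ regA k X) (G : Y → M) (hG : G ∈ RM k Y M) :
    (fun q : X × Y => f q.1 • G q.2) ∈ RM k (X × Y) M := by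
  refine Submodule.span_induction
    (p := fun G _ => (fun q : X × Y => f q.1 • G q.2) ∈ RM k (X × Y) M) ?_ ?_ ?_ ?_ hG
  · rintro G ⟨g, hg, m, rfl⟩
    refine Submodule.subset_span ⟨fun q : X × Y => f q.1 * g q.2, ?_, m, ?_⟩
    · have h1 : (fun q : X × Y => f q.1) ∈ regA k (X × Y) :=
        Algebra.subset_adjoin (Or.inl ⟨f, hf, rfl⟩)
      have h2 : (fun q : X × Y => g q.2) ∈ regA k (X × Y) :=
        Algebra.subset_adjoin (Or.inr ⟨g, hg, rfl⟩)
      exact Subalgebra.mul_mem _ h1 h2
    · funext q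
      rw [smul_smul]
  · have h : (fun q : X × Y => f q.1 • (0 : Y → M) q.2) = 0 := by
      funext q
      simp
    rw [h]
    exact Submodule.zero_mem _
  · intro G G' _ _ h1 h2
    have h : (fun q : X × Y => f q.1 • (G + G') q.2) = (fun q : X × Y => f q.1 • G q.2) +
        (fun q : X × Y => f q.1 • G' q.2) := by
      funext q
      simp
    rw [h]
    exact Submodule.add_mem _ h1 h2
  · intro c G _ h1
    have h : (fun q : X × Y => f q.1 • (c • G) q.2) = c • (fun q : X × Y => f q.1 • G q.2) := by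
      funext q
      simp only [Pi.smul_apply]
      rw [smul_comm]
    rw [h]
    exact Submodule.smul_mem _ _ h1

theorem p_R6 : S_R6 := by
  classical
  intro k _ X Y M _ _ _ _
  refine ⟨?_, ?_⟩
  · intro F hF
    let b := Module.Basis.ofVectorSpace k M
    obtain ⟨J, hJ⟩ := r6_coord k X M b F hF
    let e : J ≃ Fin J.card := J.equivFin
    refine ⟨J.card, fun i x => b.repr (F x) (e.symm i), fun i => b (e.symm i), ?_,
      fun i => (hJ _).1, fun x => ?_⟩
    · exact b.linearIndependent.comp (fun i => ((e.symm i : J) : _))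
        (fun i j h => e.symm.injective (Subtype.ext h))
    · have h1 : F x = ∑ j ∈ J, b.repr (F x) j • b j := by
        conv_lhs => rw [← b.linearCombination_repr (F x)]
        rw [Finsupp.linearCombination_apply]
        refine Finsupp.sum_of_support_subset _ ?_ _ (fun i _ => zero_smul _ _)
        intro j hj
        by_contra hj'
        exact (Finsupp.mem_support_iff.1 hj) ((hJ j).2 hj' x)
      rw [h1, ← Finset.sum_coe_sort J (fun j => b.repr (F x) j • b j)]
      have h2 := Equiv.sum_comp e.symm (fun j : J => b.repr (F x) j • b j)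
      rw [← h2]
  · intro Φ hΦ
    refine Submodule.span_induction
      (p := fun Φ _ => (fun q : X × Y => (Φ q.1 : Y → M) q.2) ∈ RM k (X × Y) M) ?_ ?_ ?_ ?_ hΦ
    · rintro Φ ⟨f, hf, G, rfl⟩
      exact r6_mul k X Y M f hf (G : Y → M) G.2
    · exact Submodule.zero_mem _
    · intro Φ Ψ _ _ h1 h2
      exact Submodule.add_mem _ h1 h2
    · intro c Φ _ h1
      exact Submodule.smul_mem _ c h1

end Pool.Agent.Sp49
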