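import Pool.Agent.Lib.MP_49c83e_al.StmR

/-! [sp49 R7] acting by regular families of group elements -/

namespace Pool.Agent.Sp49

theorem p_R7 (h3 : S_R3) : S_R7 := by
  intro k _ X Γ M _ _ _ _ _ ρ hρ a F ha hF
  obtain ⟨hpull, -, -, -, -, -⟩ := h3 k X Γ M M
  obtain ⟨-, -, hsmul, -, -, -⟩ := h3 k X X M M
  unfold RM at hF
  refine Submodule.span_induction (p := fun F _ => (fun x => ρ (a x) (F x)) ∈ RM k X M)
    ?_ ?_ ?_ ?_ hF
  · rintro _ ⟨f, hf, m, rfl⟩
    have h1 : (fun x => ρ (a x) m) ∈ RM k X M := hpull a (fun g => ρ g m) ha (hρ m)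
    have h2 := hsmul f _ hf h1
    have e : (fun x => ρ (a x) (f x • m)) = fun x => f x • ρ (a x) m := by
      funext x
      rw [map_smul]
    show (fun x => ρ (a x) (f x • m)) ∈ RM k X M
    rw [e]
    exact h2
  · have e : (fun x => ρ (a x) ((0 : X → M) x)) = 0 := by
      funext x
      simp
    rw [e]
    exact Submodule.zero_mem _
  · intro F G _ _ h1 h2
    have e : (fun x => ρ (a x) ((F + G) x)) = (fun x => ρ (a x) (F x)) + fun x => ρ (a x) (G x) := by
      funext x
      simp
    rw [e]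
    exact Submodule.add_mem _ h1 h2
  · intro c F _ h1
    have e : (fun x => ρ (a x) ((c • F) x)) = c • fun x => ρ (a x) (F x) := by
      funext x
      simp
    rw [e]
    exact Submodule.smul_mem _ c h1

end Pool.Agent.Sp49
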