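import Pool.Agent.Lib.MP_49c83e_al.StmR

/-!
MP_49c83e_al, R9: the symplectic group is a group with regular operations.
-/

namespace Pool.Agent.Sp49

open Matrix
open scoped BigOperators

private theorem r9_sum {k : Type} [Field k] {X ι : Type} [RS k X] (s : Finset ι)
    (F : ι → X → k) (h : ∀ i ∈ s, F i ∈ regA k X) : (fun x => ∑ i ∈ s, F i x) ∈ regA k X := by
  have e : (fun x => ∑ i ∈ s, F i x) = ∑ i ∈ s, F i := by
    funext x
    rw [Finset.sum_apply]
  rw [e]
  exact Subalgebra.sum_mem _ h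

private theorem r9_mul {k : Type} [Field k] {X : Type} [RS k X] {f g : X → k}
    (hf : f ∈ regA k X) (hg : g ∈ regA k X) : (fun x => f x * g x) ∈ regA k X :=
  Subalgebra.mul_mem _ hf hg

private theorem r9_const {k : Type} [Field k] {X : Type} [RS k X] (c : k) :
    (fun _ : X => c) ∈ regA k X :=
  Subalgebra.algebraMap_mem (regA k X) c

private theorem r9_ent {k : Type} [Field k] {n : ℕ} (x y : Fin n ⊕ Fin n) :
    (fun g : SpG k n => ent g x y) ∈ regA k (SpG k n) :=
  Algebra.subset_adjoin ⟨x, y, rfl⟩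

private theorem r9_iff {k : Type} [Field k] {n : ℕ} {X : Type} [RS k X] (φ : X → SpG k n) :
    IsReg k φ ↔ ∀ x y, (fun u => ent (φ u) x y) ∈ regA k X := by
  constructor
  · intro h x y
    exact h _ (r9_ent x y)
  · intro h f hf
    change f ∈ Algebra.adjoin k {F | ∃ x y : Fin n ⊕ Fin n, F = fun g : SpG k n =>
      (g : Matrix (Fin n ⊕ Fin n) (Fin n ⊕ Fin n) k) x y} at hf
    induction hf using Algebra.adjoin_induction with
    | mem f hf =>
      obtain ⟨x, y, rfl⟩ := hf
      exact h x y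
    | algebraMap c => exact r9_const c
    | add f g _ _ h1 h2 => exact Subalgebra.add_mem _ h1 h2
    | mul f g _ _ h1 h2 => exact Subalgebra.mul_mem _ h1 h2

theorem p_R9 : S_R9 := by
  intro k _ n
  refine ⟨⟨?_, ?_⟩, r9_ent, fun X _ φ => r9_iff φ⟩
  · rw [r9_iff]
    intro x y
    have e : (fun u : SpG k n × SpG k n => ent (u.1 * u.2) x y) =
        fun u => ∑ z, ent u.1 x z * ent u.2 z y := by
      funext u
      exact ent_mul _ _ _ _
    rw [e]
    refine r9_sum _ _ fun z _ => r9_mul ?_ ?_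
    · exact Algebra.subset_adjoin (Or.inl ⟨_, r9_ent x z, rfl⟩)
    · exact Algebra.subset_adjoin (Or.inr ⟨_, r9_ent z y, rfl⟩)
  · rw [r9_iff]
    intro x y
    have e : (fun g : SpG k n => ent g⁻¹ x y) =
        fun g => ∑ b, (∑ a, (-(Matrix.J (Fin n) k)) x a * ent g b a) * Matrix.J (Fin n) k b y := by
      funext g
      unfold ent
      rw [SymplecticGroup.coe_inv, Matrix.mul_apply]
      refine Finset.sum_congr rfl fun b _ => ?_
      rw [Matrix.mul_apply]
      rfl
    rw [e]
    refine r9_sum _ _ fun b _ => r9_mul ?_ (r9_const _)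
    exact r9_sum _ _ fun a _ => r9_mul (r9_const _) (r9_ent b a)

end Pool.Agent.Sp49
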