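import Pool.Agent.Lib.MP_49c83e_al.StmC

namespace Pool.Agent.Sp49

theorem p_C0 : S_C0 := by
  intro k _ n
  refine ⟨?_, ?_⟩
  · rw [eq_top_iff]
    intro g _
    refine ⟨fun l hl => ?_, fun l hl => ?_⟩
    · exact absurd hl (Nat.not_lt_zero _)
    · exact absurd hl (Nat.not_lt_zero _)
  · apply le_antisymm
    · intro g hg
      exact ⟨fun l _ => hg.1 l l.isLt, fun l _ => hg.2 l l.isLt⟩
    · exact Bo_le k n _

end Pool.Agent.Sp49
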