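import Pool.Agent.Lib.MP_49c83e_al.StmE

/-!
MP_49c83e_al, E12: finite dimensional rational modules of the Borel subgroup with small weights.
-/

namespace Pool.Agent.Sp49

open scoped BigOperators

theorem e12_sub {k : Type} [Field k] {n : ℕ} {N : Type} [AddCommGroup N] [Module k N]
    [Subsingleton N] (ρ : Representation k (Bo k n) N) : Mono2 ρ ∧ Epi1 ρ := by
  constructor
  · intro f _ _
    have : f = 0 := by
      funext q
      exact Subsingleton.elim _ _
    rw [this]
    exact Submodule.zero_mem _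
  · intro y _ _
    exact ⟨0, Submodule.zero_mem _, fun i _ => Subsingleton.elim _ _⟩

theorem p_E12 (hE6 : S_E6) (hE7 : S_E7) (hE8 : S_E8) (hE9 : S_E9) (hE11 : S_E11) : S_E12 := by
  intro k _ _ n d
  induction d with
  | zero =>
    intro N _ _ _ ρ _ hd _
    have : Subsingleton N := Module.finrank_zero_iff.1 hd
    exact e12_sub ρ
  | succ d ih =>
    intro N _ _ _ ρ hρ hd hs
    have hnt : Nontrivial N := Module.nontrivial_of_finrank_pos (R := k) (by omega)
    obtain ⟨μ, v, hv, hvw, hvb⟩ := hE6 k n N ρ hρ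
    have hst : ∀ g, ∀ m ∈ Submodule.span k {v}, ρ g m ∈ Submodule.span k {v} := by
      intro g m hm
      obtain ⟨c, rfl⟩ := Submodule.mem_span_singleton.1 hm
      rw [map_smul, hvb]
      exact Submodule.smul_mem _ _ (Submodule.smul_mem _ _ (Submodule.mem_span_singleton_self v))
    obtain ⟨h1, h2, h3, _⟩ := hE7 k n N ρ _ hst hρ
    obtain ⟨_, h5⟩ := h3 hs
    have hμ : ∀ i, μ i = 0 ∨ μ i = 1 ∨ μ i = -1 := by
      apply hs
      intro h6
      rw [h6] at hvw
      exact hv ((Submodule.mem_bot k).1 hvw)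
    have h7 : Mono2 (subR ρ _ hst) ∧ Epi1 (subR ρ _ hst) := by
      refine hE11 k n _ (subR ρ _ hst) μ ⟨v, Submodule.mem_span_singleton_self v⟩ h1 hμ ?_ ?_ ?_
      · rintro ⟨m, hm⟩
        obtain ⟨c, rfl⟩ := Submodule.mem_span_singleton.1 hm
        exact ⟨c, rfl⟩
      · intro h8
        exact hv (congrArg Subtype.val h8)
      · intro b
        apply Subtype.ext
        exact hvb b
    have h8 : Module.finrank k (N ⧸ Submodule.span k {v}) = d := by
      have h9 := Submodule.finrank_quotient_add_finrank (Submodule.span k {v})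
      rw [finrank_span_singleton hv, hd] at h9
      omega
    obtain ⟨h9, h10⟩ := ih (N ⧸ Submodule.span k {v}) (quoR ρ _ hst) h2 h8 h5
    exact ⟨hE9 k n N ρ _ hst hρ h7.1 h9 h10, hE8 k n N ρ _ hst hρ h7.1 h7.2 h10⟩

end Pool.Agent.Sp49
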