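import Pool.Agent.Lib.MP_49c83e_al.StmE

/-! MP_49c83e_al [E2]: weight projections -/

set_option autoImplicit false

namespace Pool.Agent.Sp49

open scoped BigOperators
open Matrix

private theorem e2_chT_mul {k : Type} [Field k] {n : ℕ} (μ : Fin n → ℤ) (t t' : Fin n → kˣ) :
    chT μ (t * t') = chT μ t * chT μ t' := by
  unfold chT
  rw [← Units.val_mul, ← Finset.prod_mul_distrib]
  simp only [Pi.mul_apply, mul_zpow]

private theorem e2_chT_one {k : Type} [Field k] {n : ℕ} (μ : Fin n → ℤ) :
    chT μ (1 : Fin n → kˣ) = 1 := by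
  simp [chT]

private theorem e2_torB_mul {k : Type} [Field k] {n : ℕ} (t t' : Fin n → kˣ) :
    (torB (t * t') : Bo k n) = torB t * torB t' :=
  Subtype.ext (tor_mul t t')

private theorem e2_torB_one {k : Type} [Field k] {n : ℕ} :
    (torB (1 : Fin n → kˣ) : Bo k n) = 1 :=
  Subtype.ext tor_one

/-- E2 : weight projections -/
theorem p_E2 (hE1 : S_E1) (hD4 : S_D4) (hR3 : S_R3) (hR8 : S_R8) (hR9 : S_R9) (hR13 : S_R13) :
    S_E2 := by
  intro k _ _ n N N' _ _ _ _ ρ ρ' hρ hρ'
  have : RG k (SpG k n) := (hR9 k n).1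
  have htor : IsReg k (fun t : Fin n → kˣ => (torB t : Bo k n)) := by
    rw [(hR8 k (Fin n → kˣ) (SpG k n)).2.2.2.2.1]
    exact (hD4 k n).2.2.1
  have hxB : ∀ i, IsReg k (fun s : k => (xB i s : Bo k n)) := by
    intro i
    rw [(hR8 k k (SpG k n)).2.2.2.2.1]
    rw [(hR9 k n).2.2 k]
    have hs : (fun s : k => s) ∈ regA k k := Algebra.subset_adjoin rfl
    have hc : ∀ c : k, (fun _ : k => c) ∈ regA k k := fun c => (regA k k).algebraMap_mem c
    intro x y
    show (fun u : k => ent (xs (n := n) i u) x y) ∈ regA k k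
    unfold xs
    split_ifs with h
    · have hne : (⟨i, by omega⟩ : Fin n) ≠ ⟨i + 1, h⟩ := by
        intro h2
        have := congrArg Fin.val h2
        simp at this
      set a : Fin n := ⟨i, by omega⟩
      set b : Fin n := ⟨i + 1, h⟩
      have hsingle : ∀ (c d e f : Fin n), (fun u : k => (Matrix.single c d u) e f) ∈ regA k k := by
        intro c d e f
        by_cases hcd : c = e ∧ d = f
        · simp only [Matrix.single, Matrix.of_apply, if_pos hcd]
          exact hs
        · simp only [Matrix.single, Matrix.of_apply, if_neg hcd]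
          exact hc 0
      rcases x with x | x <;> rcases y with y | y
      · simp only [ent, xr, dif_pos hne, Matrix.fromBlocks_apply₁₁, Matrix.add_apply]
        exact (regA k k).add_mem (hc _) (hsingle _ _ _ _)
      · simp only [ent, xr, dif_pos hne, Matrix.fromBlocks_apply₁₂, Matrix.zero_apply]
        exact hc 0
      · simp only [ent, xr, dif_pos hne, Matrix.fromBlocks_apply₂₁, Matrix.zero_apply]
        exact hc 0
      · simp only [ent, xr, dif_pos hne, Matrix.fromBlocks_apply₂₂, Matrix.sub_apply]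
        exact (regA k k).sub_mem (hc _) (hsingle _ _ _ _)
    · exact hc _
  -- orbit maps on the torus are regular
  have horb : ∀ a : N, (fun t : Fin n → kˣ => ρ (torB t) a) ∈ RM k (Fin n → kˣ) N := fun a =>
    (hR3 k (Fin n → kˣ) (Bo k n) N N).1 _ _ htor (hρ a)
  obtain ⟨-, -, -, -, -, -, -, hT1, hT2, -⟩ := hE1 k N N
  have hT3 := (hE1 k N N).2.2.2.2.2.2.2.2.2
  have hT3' := (hE1 k N N').2.2.2.2.2.2.2.2.2
  have hexp : ∀ a : N, ∃ c : (Fin n → ℤ) →₀ N,
      (∀ t, ρ (torB t) a = c.sum fun μ m => chT μ t • m) ∧ ∀ μ, prB ρ μ a = c μ := by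
    intro a
    obtain ⟨c, hc⟩ := (hR13 k n N).1 _ (horb a)
    refine ⟨c, hc, fun μ => ?_⟩
    unfold prB
    rw [show (fun t : Fin n → kˣ => ρ (torB t) a) = fun t => c.sum fun ν m => chT ν t • m from
      funext hc]
    exact hT1 n c μ
  refine ⟨htor, hxB, ?_, ?_, ?_, ?_, ?_, ?_, ?_⟩
  · intro μ a b
    have := hT2 n _ _ μ (horb a) (horb b)
    unfold prB
    rw [← this]
    simp only [map_add]
  · intro μ c a
    have := hT3 n _ (c • LinearMap.id) μ (horb a)
    simp only [LinearMap.smul_apply, LinearMap.id_coe, id_eq] at this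
    unfold prB
    rw [← this]
    simp only [map_smul]
  · intro μ a t0
    obtain ⟨c, hc, hcμ⟩ := hexp a
    have h1 := hT3 n _ (ρ (torB t0)) μ (horb a)
    have h2 : (fun t : Fin n → kˣ => ρ (torB t0) (ρ (torB t) a)) =
        fun t => (Finsupp.onFinset c.support (fun ν => chT ν t0 • c ν) (by
          intro ν hν
          rw [Finsupp.mem_support_iff]
          intro h0
          exact hν (by rw [h0, smul_zero]))).sum fun ν m => chT ν t • m := by
      funext t
      rw [← Module.End.mul_apply, ← map_mul, ← e2_torB_mul, hc,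
        Finsupp.onFinset_sum _ (fun ν => smul_zero _), Finsupp.sum]
      refine Finset.sum_congr rfl (fun ν _ => ?_)
      rw [e2_chT_mul, mul_comm, mul_smul]
    rw [h2, hT1] at h1
    have h3 : prB ρ μ a = tcf μ (fun t => ρ (torB t) a) := rfl
    rw [← h3, hcμ, Finsupp.onFinset_apply] at h1
    rw [hcμ, ← h1]
  · intro μ a ha
    unfold prB
    have h1 : (fun t : Fin n → kˣ => ρ (torB t) a) =
        fun t => (Finsupp.single μ a).sum fun ν m => chT ν t • m := by
      funext t
      rw [Finsupp.sum_single_index (h := fun ν m => chT ν t • m) (smul_zero _)]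
      exact ha t
    rw [h1, hT1, Finsupp.single_eq_same]
  · intro μ ν a ha hne
    unfold prB
    have h1 : (fun t : Fin n → kˣ => ρ (torB t) a) =
        fun t => (Finsupp.single ν a).sum fun ν m => chT ν t • m := by
      funext t
      rw [Finsupp.sum_single_index (h := fun ν m => chT ν t • m) (smul_zero _)]
      exact ha t
    rw [h1, hT1, Finsupp.single_eq_of_ne hne]
  · intro a
    obtain ⟨c, hc, hcμ⟩ := hexp a
    refine ⟨c.support, ?_, ?_⟩
    · have h1 := hc 1
      rw [e2_torB_one, map_one, Module.End.one_apply] at h1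
      rw [Finset.sum_congr rfl (fun μ _ => hcμ μ)]
      conv_lhs => rw [h1, Finsupp.sum]
      refine Finset.sum_congr rfl (fun μ _ => ?_)
      rw [e2_chT_one, one_smul]
    · intro μ hμ
      rw [hcμ]
      exact Finsupp.notMem_support_iff.mp hμ
  · intro l hl μ a
    have h1 := hT3' n _ l μ (horb a)
    unfold prB
    rw [← h1]
    congr 1
    funext t
    rw [hl]

end Pool.Agent.Sp49
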