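import Pool.Agent.Lib.MP_49c83e_al.StmG

/-!
MP_49c83e_al, piece [M12]: the raising operators in the model.
-/

namespace Pool.Agent.Sp49

open scoped BigOperators
open Matrix

section

variable {k : Type} [Field k] {n : ℕ}

theorem m12_act_inl (i : ℕ) (h : i + 1 < n) (s : k) (c : Fin n) :
    act (xs i s : SpG k n) (bv (Sum.inl c)) =
      bv (Sum.inl c) + (if (c : ℕ) = i + 1 then s • bv (Sum.inl ⟨i, by omega⟩) else 0) := by
  have hne : (⟨i, by omega⟩ : Fin n) ≠ ⟨i + 1, h⟩ := by
    intro h'
    have := congrArg Fin.val h'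
    simp at this
  funext z
  unfold act xs xr bv
  rw [dif_pos h, dif_pos hne, Matrix.mulVecLin_apply, Matrix.mulVec_single_one]
  by_cases hc : (c : ℕ) = i + 1
  · have hc' : c = ⟨i + 1, h⟩ := Fin.ext hc
    subst hc'
    rcases z with z | z
    · simp only [Matrix.col_apply, Matrix.fromBlocks_apply₁₁, Matrix.add_apply, Matrix.one_apply,
        Matrix.single_apply, Pi.add_apply, Pi.single_apply, Sum.inl.injEq, if_true, Pi.smul_apply,
        smul_eq_mul, mul_ite, mul_one, mul_zero, and_true]
      congr 1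
      by_cases h0 : (⟨i, by omega⟩ : Fin n) = z
      · rw [if_pos h0, if_pos h0.symm]
      · rw [if_neg h0, if_neg (fun h' => h0 h'.symm)]
    · simp [Matrix.col_apply]
  · have hc' : (⟨i + 1, h⟩ : Fin n) ≠ c := fun h' => hc (by rw [← h'])
    rcases z with z | z
    · simp [Matrix.col_apply, Matrix.one_apply, Pi.single_apply, hc, hc']
    · simp [Matrix.col_apply, hc]

theorem m12_act_inr (i : ℕ) (h : i + 1 < n) (s : k) (c : Fin n) :
    act (xs i s : SpG k n) (bv (Sum.inr c)) =
      bv (Sum.inr c) - (if (c : ℕ) = i then s • bv (Sum.inr ⟨i + 1, h⟩) else 0) := by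
  have hne : (⟨i, by omega⟩ : Fin n) ≠ ⟨i + 1, h⟩ := by
    intro h'
    have := congrArg Fin.val h'
    simp at this
  funext z
  unfold act xs xr bv
  rw [dif_pos h, dif_pos hne, Matrix.mulVecLin_apply, Matrix.mulVec_single_one]
  by_cases hc : (c : ℕ) = i
  · have hc' : c = ⟨i, by omega⟩ := Fin.ext hc
    rw [hc']
    rcases z with z | z
    · simp [Matrix.col_apply]
    · simp only [Matrix.col_apply, Matrix.fromBlocks_apply₂₂, Matrix.sub_apply, Matrix.one_apply,
        Matrix.single_apply, Pi.sub_apply, Pi.single_apply, Sum.inr.injEq, if_true, Pi.smul_apply,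
        smul_eq_mul, mul_ite, mul_one, mul_zero, and_true]
      congr 1
      by_cases h0 : (⟨i + 1, h⟩ : Fin n) = z
      · rw [if_pos h0, if_pos h0.symm]
      · rw [if_neg h0, if_neg (fun h' => h0 h'.symm)]
  · have hc' : (⟨i, by omega⟩ : Fin n) ≠ c := fun h' => hc (by rw [← h'])
    rcases z with z | z
    · simp [Matrix.col_apply, hc]
    · simp [Matrix.col_apply, Matrix.one_apply, Pi.single_apply, hc, hc']

theorem m12_sub_mul (a b c : CE k n) : (a - b) * c = a * c - b * c := sub_mul a b c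

theorem m12_mul_neg (a b : CE k n) : a * -b = -(a * b) := mul_neg a b

theorem m12_add_mul (a b c : CE k n) : (a + b) * c = a * c + b * c := add_mul a b c

theorem m12_mul_add (a b c : CE k n) : a * (b + c) = a * b + a * c := mul_add a b c

/-- the image of om2 a under xs i s -/
def m12_c (k : Type) [Field k] (n i : ℕ) (s : k) (a : ℕ) : CE k n :=
  om2 k n a + s • (if a = i + 1 then th k n i else if a = i then - th k n i else 0)

/-- the first order term -/
def m12_P (k : Type) [Field k] (n i : ℕ) (T : Finset ℕ) : CE k n :=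
  (if i + 1 ∈ T ∧ i ∉ T then OM k n (T.erase (i + 1)) else 0) -
    (if i ∈ T ∧ i + 1 ∉ T then OM k n (T.erase i) else 0)

theorem m12_prod_fix (i : ℕ) (s : k) (T : Finset ℕ) (h1 : i ∉ T) (h2 : i + 1 ∉ T) :
    ∏ a ∈ T, m12_c k n i s a = OM k n T := by
  unfold OM
  refine Finset.prod_congr rfl fun a ha => ?_
  unfold m12_c
  rw [if_neg (show ¬ a = i + 1 from fun h => h2 (h ▸ ha)),
    if_neg (show ¬ a = i from fun h => h1 (h ▸ ha)), smul_zero, add_zero]

theorem m12_prod (i : ℕ) (s : k) (T : Finset ℕ) (e1 : om2 k n i * th k n i = 0)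
    (e2 : th k n i * om2 k n (i + 1) = 0) (e3 : th k n i * th k n i = 0) :
    ∏ a ∈ T, m12_c k n i s a = OM k n T + s • (th k n i * m12_P k n i T) := by
  have hi : m12_c k n i s i = om2 k n i - s • th k n i := by
    unfold m12_c
    rw [if_neg (by omega), if_pos rfl, smul_neg, sub_eq_add_neg]
  have hi1 : m12_c k n i s (i + 1) = om2 k n (i + 1) + s • th k n i := by
    unfold m12_c
    rw [if_pos rfl]
  by_cases h1 : i ∈ T <;> by_cases h2 : i + 1 ∈ T
  · -- both
    have hT2 : i + 1 ∈ T.erase i := Finset.mem_erase.mpr ⟨by omega, h2⟩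
    have hfix := m12_prod_fix (k := k) (n := n) i s ((T.erase i).erase (i + 1))
      (fun h => (Finset.notMem_erase i T) (Finset.mem_of_mem_erase h)) (Finset.notMem_erase _ _)
    have hP : m12_P k n i T = 0 := by
      unfold m12_P
      rw [if_neg (fun h => h.2 h1), if_neg (fun h => h.2 h2), sub_zero]
    rw [hP, mul_zero, smul_zero, add_zero, ← Finset.mul_prod_erase T _ h1,
      ← Finset.mul_prod_erase _ _ hT2, hfix, hi, hi1]
    have hOM : OM k n T = om2 k n i * (om2 k n (i + 1) * OM k n ((T.erase i).erase (i + 1))) := by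
      unfold OM
      rw [Finset.mul_prod_erase _ _ hT2, Finset.mul_prod_erase T _ h1]
    rw [hOM]
    have key : (om2 k n i - s • th k n i) * (om2 k n (i + 1) + s • th k n i)
        = om2 k n i * om2 k n (i + 1) := by
      rw [m12_sub_mul, m12_mul_add, m12_mul_add, smul_mul_assoc, smul_mul_assoc, mul_smul_comm,
        mul_smul_comm, e1, e2, e3, smul_zero, add_zero,
        smul_zero, add_zero, sub_zero]
    rw [← mul_assoc, key, mul_assoc]
  · -- i only
    have hfix := m12_prod_fix (k := k) (n := n) i s (T.erase i) (Finset.notMem_erase _ _)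
      (fun h => h2 (Finset.mem_of_mem_erase h))
    have hP : m12_P k n i T = - OM k n (T.erase i) := by
      unfold m12_P
      rw [if_neg (fun h => h.2 h1), if_pos ⟨h1, h2⟩, zero_sub]
    have hOM : OM k n T = om2 k n i * OM k n (T.erase i) := by
      unfold OM
      rw [Finset.mul_prod_erase T _ h1]
    rw [hP, ← Finset.mul_prod_erase T _ h1, hfix, hi, hOM, m12_sub_mul, smul_mul_assoc,
      m12_mul_neg, smul_neg, sub_eq_add_neg]
  · -- i + 1 only
    have hfix := m12_prod_fix (k := k) (n := n) i s (T.erase (i + 1))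
      (fun h => h1 (Finset.mem_of_mem_erase h)) (Finset.notMem_erase _ _)
    have hP : m12_P k n i T = OM k n (T.erase (i + 1)) := by
      unfold m12_P
      rw [if_pos ⟨h2, h1⟩, if_neg (fun h => h1 h.1), sub_zero]
    have hOM : OM k n T = om2 k n (i + 1) * OM k n (T.erase (i + 1)) := by
      unfold OM
      rw [Finset.mul_prod_erase T _ h2]
    rw [hP, ← Finset.mul_prod_erase T _ h2, hfix, hi1, hOM, m12_add_mul, smul_mul_assoc]
  · -- none
    have hP : m12_P k n i T = 0 := by
      unfold m12_P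
      rw [if_neg (fun h => h2 h.1), if_neg (fun h => h1 h.1), sub_zero]
    rw [hP, mul_zero, smul_zero, add_zero, m12_prod_fix i s T h1 h2]

theorem m12_sum (Z Z' : Finset ℕ) (a b q : ℕ) (ha : a ∈ Z) (hab : a ≠ b)
    (hZ : ∀ c, c ∈ Z' ↔ c ∈ Z ∧ c ≠ a ∧ c ≠ b) (hq : 1 ≤ q) (F : Finset ℕ → Finset ℕ → k) :
    ∑ T ∈ Z.powersetCard q, (if a ∈ T ∧ b ∉ T then F T (T.erase a) else 0) =
      ∑ T ∈ Z'.powersetCard (q - 1), F (insert a T) T := by
  rw [← Finset.sum_filter]
  refine Finset.sum_bij' (fun T _ => T.erase a) (fun T _ => insert a T) ?_ ?_ ?_ ?_ ?_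
  · intro T hT
    rw [Finset.mem_filter, Finset.mem_powersetCard] at hT
    obtain ⟨⟨h1, h2⟩, h3, h4⟩ := hT
    rw [Finset.mem_powersetCard]
    refine ⟨fun c hc => ?_, ?_⟩
    · rw [Finset.mem_erase] at hc
      rw [hZ]
      exact ⟨h1 hc.2, hc.1, fun h => h4 (h ▸ hc.2)⟩
    · rw [Finset.card_erase_of_mem h3, h2]
  · intro T hT
    rw [Finset.mem_powersetCard] at hT
    obtain ⟨h1, h2⟩ := hT
    have h3 : a ∉ T := fun h => ((hZ a).mp (h1 h)).2.1 rfl
    have h4 : b ∉ T := fun h => ((hZ b).mp (h1 h)).2.2 rfl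
    rw [Finset.mem_filter, Finset.mem_powersetCard]
    refine ⟨⟨fun c hc => ?_, ?_⟩, Finset.mem_insert_self _ _, fun h => ?_⟩
    · rw [Finset.mem_insert] at hc
      rcases hc with rfl | hc
      · exact ha
      · exact ((hZ c).mp (h1 hc)).1
    · rw [Finset.card_insert_of_notMem h3, h2]
      omega
    · rw [Finset.mem_insert] at h
      rcases h with h | h
      · exact hab h.symm
      · exact h4 h
  · intro T hT
    rw [Finset.mem_filter] at hT
    exact Finset.insert_erase hT.2.1
  · intro T hT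
    rw [Finset.mem_powersetCard] at hT
    exact Finset.erase_insert fun h => ((hZ a).mp (hT.1 h)).2.1 rfl
  · intro T hT
    rw [Finset.mem_filter] at hT
    rw [Finset.insert_erase hT.2.1]

end

/-- [M12] -/
theorem p_M12 (hM4 : S_M4) : S_M12 := by
  intro k _ n j hj S i q h s x hiS hNA hq
  obtain ⟨hal, har, hsl, hsr, -, -, h7, h8, -, hlq, hprod, hmul, -⟩ := hM4 k n
  have hin : i + 1 < n := hNA.1 i (Finset.mem_insert_self _ _)
  have hfar : ∀ l ∈ S, i + 2 ≤ l ∨ l + 2 ≤ i := fun l hl => by
    rcases hNA.2 i (Finset.mem_insert_self _ _) l (Finset.mem_insert_of_mem hl) with h0 | h0 | h0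
    · exact absurd (h0 ▸ hl) hiS
    · exact Or.inl h0
    · exact Or.inr h0
  have hth : th k n i = q2 (bv (Sum.inl ⟨i, by omega⟩)) (bv (Sum.inr ⟨i + 1, hin⟩)) := by
    unfold th
    rw [dif_pos hin]
  have homi : om2 k n i = q2 (bv (Sum.inl ⟨i, by omega⟩)) (bv (Sum.inr ⟨i, by omega⟩)) := by
    unfold om2
    rw [dif_pos (by omega : i < n)]
  have homi1 : om2 k n (i + 1) =
      q2 (bv (Sum.inl ⟨i + 1, hin⟩)) (bv (Sum.inr ⟨i + 1, hin⟩)) := by
    unfold om2
    rw [dif_pos hin]
  have e1 : om2 k n i * th k n i = 0 := by rw [homi, hth]; exact h7 _ _ _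
  have e2 : th k n i * om2 k n (i + 1) = 0 := by rw [homi1, hth]; exact h8 _ _ _
  have e3 : th k n i * th k n i = 0 := by rw [hth]; exact h7 _ _ _
  -- images of the om2
  have hom : ∀ a ∈ Finset.range n, lam (xs i s : SpG k n) ((om2 k n a : CE k n) : EA k n) =
      ((m12_c k n i s a : CE k n) : EA k n) := by
    intro a ha
    rw [Finset.mem_range] at ha
    have h0 : om2 k n a = q2 (bv (Sum.inl ⟨a, ha⟩)) (bv (Sum.inr ⟨a, ha⟩)) := by
      unfold om2
      rw [dif_pos ha]
    rw [h0, hlq, m12_act_inl i hin, m12_act_inr i hin]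
    congr 1
    unfold m12_c
    by_cases h1 : a = i + 1
    · subst h1
      rw [if_pos rfl, if_neg (by simp), if_pos rfl, sub_zero, hal, hsl, hth, homi1]
    · by_cases h2 : a = i
      · subst h2
        rw [if_neg (by simp), if_pos rfl, if_neg (by omega), if_pos rfl, add_zero, sub_eq_add_neg,
          ← neg_smul, har, hsr, hth, homi, neg_smul, smul_neg]
      · rw [if_neg h1, if_neg h2, if_neg h1, if_neg h2, add_zero, sub_zero, smul_zero, add_zero,
          h0]
  -- image of TH
  have hTH : lam (xs i s : SpG k n) ((TH k n S : CE k n) : EA k n) =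
      ((TH k n S : CE k n) : EA k n) := by
    unfold TH
    refine hprod _ S _ _ fun l hl => ?_
    have hl' := hfar l hl
    have hln : l + 1 < n := hNA.1 l (Finset.mem_insert_of_mem hl)
    have h0 : th k n l = q2 (bv (Sum.inl ⟨l, by omega⟩)) (bv (Sum.inr ⟨l + 1, hln⟩)) := by
      unfold th
      rw [dif_pos hln]
    rw [h0, hlq, m12_act_inl i hin, m12_act_inr i hin,
      if_neg (by simp only; omega), if_neg (by simp only; omega), add_zero, sub_zero]
  have hZn : ZS n S ⊆ Finset.range n := Finset.sdiff_subset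
  -- the functional
  set L : EA k n →ₗ[k] k := (X0 hj).comp (lam x).toLinearMap with hL
  have hMM : ∀ y, MM hj x y = L y := fun y => rfl
  have hterm : ∀ T ∈ (ZS n S).powersetCard q,
      h T * MM hj (x * xs i s) ((TH k n S * OM k n T : CE k n) : EA k n) =
        h T * MM hj x ((TH k n S * OM k n T : CE k n) : EA k n) +
        s * (h T * MM hj x ((TH k n (insert i S) * m12_P k n i T : CE k n) : EA k n)) := by
    intro T hT
    rw [Finset.mem_powersetCard] at hT
    have h1 : lam (xs i s : SpG k n) ((OM k n T : CE k n) : EA k n) =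
        ((∏ a ∈ T, m12_c k n i s a : CE k n) : EA k n) :=
      hprod _ T _ _ fun a ha => hom a (hZn (hT.1 ha))
    have h2 : MM hj (x * xs i s) ((TH k n S * OM k n T : CE k n) : EA k n) =
        L ((TH k n S * OM k n T + s • (TH k n (insert i S) * m12_P k n i T) : CE k n) : EA k n) := by
      have h3 : MM hj (x * xs i s) ((TH k n S * OM k n T : CE k n) : EA k n) =
          L (lam (xs i s : SpG k n) ((TH k n S * OM k n T : CE k n) : EA k n)) := by
        unfold MM
        rw [hmul]
        rfl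
      rw [h3]
      congr 1
      have h4 : ((TH k n S * OM k n T : CE k n) : EA k n) =
          ((TH k n S : CE k n) : EA k n) * ((OM k n T : CE k n) : EA k n) := rfl
      rw [h4, map_mul, hTH, h1, m12_prod i s T e1 e2 e3]
      have h5 : TH k n (insert i S) = th k n i * TH k n S := by
        unfold TH
        rw [Finset.prod_insert hiS]
      rw [h5]
      have h6 : (TH k n S * OM k n T + s • (th k n i * TH k n S * m12_P k n i T) : CE k n) =
          TH k n S * (OM k n T + s • (th k n i * m12_P k n i T)) := by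
        rw [mul_add, mul_smul_comm]
        congr 2
        ring
      rw [h6]
      rfl
    rw [h2, hMM, hMM]
    have h7' : ((TH k n S * OM k n T + s • (TH k n (insert i S) * m12_P k n i T) : CE k n) :
        EA k n) = ((TH k n S * OM k n T : CE k n) : EA k n) +
          s • ((TH k n (insert i S) * m12_P k n i T : CE k n) : EA k n) := rfl
    rw [h7', map_add, map_smul, smul_eq_mul]
    ring
  rw [Finset.sum_congr rfl hterm, Finset.sum_add_distrib, ← Finset.mul_sum]
  congr 2
  -- combinatorics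
  have hiZ : i ∈ ZS n S := by
    unfold ZS
    simp only [Finset.mem_sdiff, Finset.mem_range, Finset.mem_union, Finset.mem_image, not_or,
      not_exists, not_and]
    refine ⟨by omega, hiS, fun l hl h0 => ?_⟩
    have := hfar l hl
    omega
  have hi1Z : i + 1 ∈ ZS n S := by
    unfold ZS
    simp only [Finset.mem_sdiff, Finset.mem_range, Finset.mem_union, Finset.mem_image, not_or,
      not_exists, not_and]
    refine ⟨hin, fun hl => ?_, fun l hl h0 => ?_⟩
    · have := hfar _ hl
      omega
    · have := hfar l hl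
      omega
  have hZ : ∀ c, c ∈ ZS n (insert i S) ↔ c ∈ ZS n S ∧ c ≠ i ∧ c ≠ i + 1 := by
    intro c
    unfold ZS
    simp only [Finset.mem_sdiff, Finset.mem_range, Finset.mem_union, Finset.mem_image, not_or,
      not_exists, not_and, Finset.mem_insert]
    constructor
    · rintro ⟨h1, ⟨h2, h3⟩, h4⟩
      exact ⟨⟨h1, h3, fun l hl => h4 l (Or.inr hl)⟩, h2, fun h0 => h4 i (Or.inl rfl) h0.symm⟩
    · rintro ⟨⟨h1, h3, h4⟩, h2, h5⟩
      refine ⟨h1, ⟨h2, h3⟩, ?_⟩
      rintro l (rfl | hl) h0
      · exact h5 h0.symm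
      · exact h4 l hl h0
  set G : Finset ℕ → k := fun T =>
    MM hj x ((TH k n (insert i S) * OM k n T : CE k n) : EA k n) with hG
  have hPG : ∀ T, MM hj x ((TH k n (insert i S) * m12_P k n i T : CE k n) : EA k n) =
      (if i + 1 ∈ T ∧ i ∉ T then G (T.erase (i + 1)) else 0) -
        (if i ∈ T ∧ i + 1 ∉ T then G (T.erase i) else 0) := by
    intro T
    have h0 : ∀ y : CE k n, ((TH k n (insert i S) * -y : CE k n) : EA k n) =
        -((TH k n (insert i S) * y : CE k n) : EA k n) := fun y => by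
      rw [m12_mul_neg]; rfl
    have hz : ((TH k n (insert i S) * 0 : CE k n) : EA k n) = 0 := by
      rw [mul_zero]; rfl
    unfold m12_P
    by_cases h1 : i + 1 ∈ T ∧ i ∉ T
    · have h2 : ¬ (i ∈ T ∧ i + 1 ∉ T) := fun h' => h1.2 h'.1
      rw [if_pos h1, if_neg h2, if_pos h1, if_neg h2, sub_zero, sub_zero]
    · by_cases h2 : i ∈ T ∧ i + 1 ∉ T
      · rw [if_neg h1, if_pos h2, if_neg h1, if_pos h2, zero_sub, zero_sub, h0, hMM, map_neg]
        rfl
      · rw [if_neg h1, if_neg h2, if_neg h1, if_neg h2, sub_zero, sub_zero, hz, hMM, map_zero]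
  have hL1 : ∑ T ∈ (ZS n S).powersetCard q,
      h T * MM hj x ((TH k n (insert i S) * m12_P k n i T : CE k n) : EA k n) =
      (∑ T ∈ (ZS n S).powersetCard q,
        (if i + 1 ∈ T ∧ i ∉ T then h T * G (T.erase (i + 1)) else 0)) -
      ∑ T ∈ (ZS n S).powersetCard q,
        (if i ∈ T ∧ i + 1 ∉ T then h T * G (T.erase i) else 0) := by
    rw [← Finset.sum_sub_distrib]
    refine Finset.sum_congr rfl fun T _ => ?_
    rw [hPG T, mul_sub, mul_ite, mul_zero, mul_ite, mul_zero]
  rw [hL1, m12_sum (ZS n S) (ZS n (insert i S)) (i + 1) i q hi1Z (by omega)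
      (fun c => by rw [hZ c]; tauto) hq (fun T T' => h T * G T'),
    m12_sum (ZS n S) (ZS n (insert i S)) i (i + 1) q hiZ (by omega) hZ hq
      (fun T T' => h T * G T'), ← Finset.sum_sub_distrib]
  refine Finset.sum_congr rfl fun T hT => ?_
  rw [Finset.mem_powersetCard] at hT
  have h1 : i ∉ T := fun h' => ((hZ i).mp (hT.1 h')).2.1 rfl
  have h2 : i + 1 ∉ T := fun h' => ((hZ (i + 1)).mp (hT.1 h')).2.2 rfl
  unfold cap
  rw [if_pos ⟨h1, h2⟩, sub_mul]

end Pool.Agent.Sp49
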