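import Pool.Agent.Lib.MP_49c83e_al.StmG

namespace Pool.Agent.Sp49

open scoped BigOperators
open Matrix

private theorem m5_list {k : Type} [Field k] {n : ℕ} (c : ℕ → CE k n)
    (Q : ℕ → Fin n ⊕ Fin n → Prop) (A : Finset ℕ)
    (hc : ∀ a ∈ A, ∃ x y : Fin n ⊕ Fin n, x ≠ y ∧ c a = q2 (bv x) (bv y) ∧
      ∀ z, Q a z ↔ z = x ∨ z = y)
    (hQ : ∀ a ∈ A, ∀ a' ∈ A, ∀ z, Q a z → Q a' z → a = a') :
    ∃ l : List (Fin n ⊕ Fin n), l.Nodup ∧ l.length = 2 * A.card ∧
      (∀ x, x ∈ l ↔ ∃ a ∈ A, Q a x) ∧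
      ((∏ a ∈ A, c a : CE k n) : EA k n) =
        (l.map fun x => ExteriorAlgebra.ι k (bv x : VV k n)).prod := by
  classical
  induction A using Finset.induction_on with
  | empty => exact ⟨[], by simp, by simp, by simp, by simp⟩
  | insert a A ha ih =>
    obtain ⟨l, h1, h2, h3, h4⟩ := ih (fun b hb => hc b (Finset.mem_insert_of_mem hb))
      (fun b hb b' hb' => hQ b (Finset.mem_insert_of_mem hb) b' (Finset.mem_insert_of_mem hb'))
    obtain ⟨x, y, hxy, hca, hz⟩ := hc a (Finset.mem_insert_self a A)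
    have hnot : ∀ z, Q a z → z ∉ l := by
      intro z hz' hzl
      obtain ⟨a', ha', hz''⟩ := (h3 z).1 hzl
      have := hQ a (Finset.mem_insert_self a A) a' (Finset.mem_insert_of_mem ha') z hz' hz''
      rw [this] at ha
      exact ha ha'
    have hx : Q a x := (hz x).2 (Or.inl rfl)
    have hy : Q a y := (hz y).2 (Or.inr rfl)
    refine ⟨x :: y :: l, ?_, ?_, ?_, ?_⟩
    · rw [List.nodup_cons, List.nodup_cons]
      refine ⟨?_, hnot y hy, h1⟩
      rw [List.mem_cons, not_or]
      exact ⟨hxy, hnot x hx⟩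
    · rw [List.length_cons, List.length_cons, h2, Finset.card_insert_of_notMem ha]
      ring
    · intro z
      rw [List.mem_cons, List.mem_cons, h3]
      constructor
      · rintro (h | h | ⟨a', ha', h⟩)
        · exact ⟨a, Finset.mem_insert_self a A, (hz z).2 (Or.inl h)⟩
        · exact ⟨a, Finset.mem_insert_self a A, (hz z).2 (Or.inr h)⟩
        · exact ⟨a', Finset.mem_insert_of_mem ha', h⟩
      · rintro ⟨a', ha', h⟩
        rcases Finset.mem_insert.1 ha' with rfl | ha'
        · rcases (hz z).1 h with h | h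
          · exact Or.inl h
          · exact Or.inr (Or.inl h)
        · exact Or.inr (Or.inr ⟨a', ha', h⟩)
    · rw [Finset.prod_insert ha]
      have e1 : ((c a * ∏ a ∈ A, c a : CE k n) : EA k n) =
          (c a : EA k n) * ((∏ a ∈ A, c a : CE k n) : EA k n) := rfl
      have e2 : ((q2 (bv x) (bv y) : CE k n) : EA k n) =
          ExteriorAlgebra.ι k (bv x : VV k n) * ExteriorAlgebra.ι k (bv y : VV k n) := rfl
      rw [e1, h4, hca, e2, List.map_cons, List.map_cons, List.prod_cons, List.prod_cons, mul_assoc]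

theorem p_M5 : S_M5 := by
  classical
  intro k _ n r hr S T hS hT hST
  have hTlt : ∀ a ∈ T, a < n ∧ a ∉ S ∧ ∀ i ∈ S, a ≠ i + 1 := by
    intro a ha
    have h1 := hT ha
    unfold ZS at h1
    rw [Finset.mem_sdiff, Finset.mem_range, Finset.mem_union, not_or] at h1
    refine ⟨h1.1, h1.2.1, ?_⟩
    intro i hi h
    exact h1.2.2 (Finset.mem_image.2 ⟨i, hi, h.symm⟩)
  obtain ⟨l, l1, l2, l3, l4⟩ := m5_list (k := k) (n := n) (th k n)
    (fun i => Sum.elim (fun a : Fin n => (a : ℕ) = i) (fun a : Fin n => (a : ℕ) = i + 1)) S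
    (by
      intro i hi
      have hi' := hS.1 i hi
      refine ⟨Sum.inl ⟨i, by omega⟩, Sum.inr ⟨i + 1, hi'⟩, by simp, ?_, ?_⟩
      · unfold th
        rw [dif_pos hi']
      · rintro (z | z)
        · simp [Fin.ext_iff]
        · simp [Fin.ext_iff])
    (by
      intro a _ a' _ z h1 h2
      rcases z with z | z
      · simp only [Sum.elim_inl] at h1 h2
        omega
      · simp only [Sum.elim_inr] at h1 h2
        omega)
  obtain ⟨m, m1, m2, m3, m4⟩ := m5_list (k := k) (n := n) (om2 k n)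
    (fun i => Sum.elim (fun a : Fin n => (a : ℕ) = i) (fun a : Fin n => (a : ℕ) = i)) T
    (by
      intro i hi
      have hi' := (hTlt i hi).1
      refine ⟨Sum.inl ⟨i, hi'⟩, Sum.inr ⟨i, hi'⟩, by simp, ?_, ?_⟩
      · unfold om2
        rw [dif_pos hi']
      · rintro (z | z)
        · simp [Fin.ext_iff]
        · simp [Fin.ext_iff])
    (by
      intro a _ a' _ z h1 h2
      rcases z with z | z
      · simp only [Sum.elim_inl] at h1 h2
        omega
      · simp only [Sum.elim_inr] at h1 h2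
        omega)
  have hnd : (l ++ m).Nodup := by
    rw [List.nodup_append']
    refine ⟨l1, m1, ?_⟩
    intro x hx hx'
    obtain ⟨i, hi, h1⟩ := (l3 x).1 hx
    obtain ⟨a, ha, h2⟩ := (m3 x).1 hx'
    obtain ⟨-, h3, h4⟩ := hTlt a ha
    rcases x with z | z
    · simp only [Sum.elim_inl] at h1 h2
      exact h3 (by rw [← h2, h1]; exact hi)
    · simp only [Sum.elim_inr] at h1 h2
      exact h4 i hi (by rw [← h2, h1])
  have hlen : (l ++ m).length = 2 * r := by
    rw [List.length_append, l2, m2, ← hST]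
    ring
  have hmem : ∀ x : Fin n ⊕ Fin n, x ∈ l ++ m ↔
      Sum.elim (fun a : Fin n => (a : ℕ) ∈ S ∨ (a : ℕ) ∈ T)
        (fun a : Fin n => (∃ i ∈ S, (a : ℕ) = i + 1) ∨ (a : ℕ) ∈ T) x := by
    intro x
    rw [List.mem_append, l3, m3]
    rcases x with z | z
    · simp only [Sum.elim_inl]
      constructor
      · rintro (⟨a, ha, h⟩ | ⟨a, ha, h⟩)
        · exact Or.inl (by rw [h]; exact ha)
        · exact Or.inr (by rw [h]; exact ha)
      · rintro (h | h)
        · exact Or.inl ⟨_, h, rfl⟩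
        · exact Or.inr ⟨_, h, rfl⟩
    · simp only [Sum.elim_inr]
      constructor
      · rintro (⟨a, ha, h⟩ | ⟨a, ha, h⟩)
        · exact Or.inl ⟨a, ha, h⟩
        · exact Or.inr (by rw [h]; exact ha)
      · rintro (⟨a, ha, h⟩ | h)
        · exact Or.inl ⟨a, ha, h⟩
        · exact Or.inr ⟨_, h, rfl⟩
  have hprod : ((TH k n S * OM k n T : CE k n) : EA k n) =
      ((l ++ m).map fun x => ExteriorAlgebra.ι k (bv x : VV k n)).prod := by
    rw [List.map_append, List.prod_append, ← l4, ← m4]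
    rfl
  have key : ∀ (L : List (Fin n ⊕ Fin n)) (q : ℕ), L.length = q → L.Nodup →
      ∃ w : Fin q → Fin n ⊕ Fin n, Function.Injective w ∧ (∀ x, (∃ b, w b = x) ↔ x ∈ L) ∧
        (L.map fun x => ExteriorAlgebra.ι k (bv x : VV k n)).prod =
          ExteriorAlgebra.ιMulti k q (fun b => bv (w b)) := by
    intro L q hq hL
    subst hq
    refine ⟨L.get, List.nodup_iff_injective_get.1 hL, ?_, ?_⟩
    · intro x
      rw [List.mem_iff_get]
    · rw [ExteriorAlgebra.ιMulti_apply]
      congr 1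
      have e : (List.ofFn fun i => ExteriorAlgebra.ι k (bv (L.get i) : VV k n)) =
          List.map (fun x => ExteriorAlgebra.ι k (bv x : VV k n)) (List.ofFn L.get) := by
        rw [List.map_ofFn]
        rfl
      rw [e, List.ofFn_get]
  obtain ⟨w, w1, w2, w3⟩ := key (l ++ m) (2 * r) hlen hnd
  refine ⟨w, w1, fun x => (w2 x).trans (hmem x), ?_⟩
  rw [hprod, w3]

end Pool.Agent.Sp49
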