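import Pool.Agent.Lib.MP_49c83e_al.StmP

/-!
MP_49c83e_al, piece P11: second cohomology of the regular functions twisted by chi, two charts.
-/

set_option autoImplicit false

namespace Pool.Agent.Sp49

open scoped BigOperators

private lemma p11_LR_pull {k : Type} [Field k] {X Y : Type} [RS k X] [RS k Y] {φ : X → Y}
    (hφ : IsReg k φ) {z F : Y → k} (h : LR k z F) : LR k (fun x => z (φ x)) (fun x => F (φ x)) := by
  obtain ⟨N, Φ, hΦ, h⟩ := h
  exact ⟨N, fun x => Φ (φ x), hφ Φ hΦ, fun x hx => h (φ x) hx⟩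

private lemma p11_pow_mem {k : Type} [Field k] {X : Type} [RS k X] {f : X → k}
    (hf : f ∈ regA k X) (n : ℕ) : (fun x => f x ^ n) ∈ regA k X := by
  have := Subalgebra.pow_mem _ hf n
  exact this

private lemma p11_mul_mem {k : Type} [Field k] {X : Type} [RS k X] {f g : X → k}
    (hf : f ∈ regA k X) (hg : g ∈ regA k X) : (fun x => f x * g x) ∈ regA k X := by
  have := Subalgebra.mul_mem _ hf hg
  exact this

private lemma p11_LR_invpow {k : Type} [Field k] {X : Type} [RS k X] {z : X → k} (n : ℕ) :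
    LR k z (fun x => (z x ^ n)⁻¹) :=
  ⟨n, fun _ => 1, Subalgebra.one_mem _, fun x hx => by
    rw [mul_inv_cancel₀ (pow_ne_zero _ hx)]⟩

/-- dividing the denominator by a regular unit -/
private lemma p11_LR_unit {k : Type} [Field k] {X : Type} [RS k X] {z u v F : X → k}
    (hv : v ∈ regA k X) (huv : ∀ x, u x * v x = 1) (h : LR k (fun x => z x * u x) F) :
    LR k z F := by
  obtain ⟨N, Φ, hΦ, h⟩ := h
  refine ⟨N, fun x => Φ x * v x ^ N, p11_mul_mem hΦ (p11_pow_mem hv N), fun x hx => ?_⟩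
  have hu : u x ≠ 0 := by
    intro h0
    have := huv x
    rw [h0, zero_mul] at this
    exact zero_ne_one this
  show Φ x * v x ^ N = z x ^ N * F x
  rw [h x (mul_ne_zero hx hu), mul_pow]
  have e : u x ^ N * v x ^ N = 1 := by rw [← mul_pow, huv x, one_pow]
  linear_combination (z x ^ N * F x) * e

theorem p_P11 (h2 : S_R2) (h8 : S_R8) (hP1 : S_P1) (hP2 : S_P2) (hP3 : S_P3) (hP4 : S_P4) :
    S_P11 := by
  intro k _ _ Gm P ι _ _ _ _ _ _ _ _ C hcard f hf hrel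
  classical
  obtain ⟨i0, j0, hij0⟩ := C.two
  have huniv : (Finset.univ : Finset ι) = {i0, j0} := by
    symm
    apply Finset.eq_univ_of_card
    rw [Finset.card_pair hij0, hcard]
  have hall : ∀ l : ι, l = i0 ∨ l = j0 := by
    intro l
    have := Finset.mem_univ l
    rw [huniv] at this
    simpa using this
  choose p hp1 hp2 hp3 hp4 using fun i => hP4 k Gm P ι C i
  let s : ι → Gm → Gm := fun i x => C.σ i (fun j => C.z j x / C.z i x)
  have hzh : ∀ (i : ι) (x : Gm) (h : P), C.z i x ≠ 0 → C.z i (x * C.inc h) ≠ 0 := by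
    intro i x h hx
    rw [C.z_χ]
    exact mul_ne_zero hx (Units.ne_zero _)
  have hsx : ∀ (i : ι) (x : Gm), C.z i x ≠ 0 → s i x * C.inc (p i x) = x := fun i x hx =>
    (hp1 i x hx).symm
  have hsh : ∀ (i : ι) (x : Gm) (h : P), C.z i x ≠ 0 → s i (x * C.inc h) = s i x := by
    intro i x h hx
    show C.σ i _ = C.σ i _
    rw [hp4 i x h hx]
  have hzs : ∀ (i j : ι) (x : Gm), C.z i x ≠ 0 → C.z j (s i x) = C.z j x / C.z i x := by
    intro i j x hx
    exact C.z_σ i _ (div_self hx) j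
  -- regular maps
  have hsnd : IsReg k (fun q : P × Gm => q.2) := (h2 k P Gm Gm).2.2.2.2.1
  have hfst : IsReg k (fun q : P × Gm => q.1) := (h2 k P Gm Gm).2.2.2.1
  have hinc : IsReg k (fun h : P => C.inc h) := fun F hF => (C.reg _).mpr ⟨F, hF, rfl⟩
  have hact : IsReg k (fun q : P × Gm => q.2 * C.inc q.1) :=
    (h8 k (P × Gm) Gm).1 _ _ hsnd ((h2 k (P × Gm) P Gm).2.1 _ _ hfst hinc)
  have hzr : ∀ l, (fun q : P × Gm => C.z l q.2) ∈ regA k (P × Gm) := fun l =>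
    hsnd _ (C.z_reg l)
  have hyr : ∀ l, (fun q : P × Gm => C.y l q.2) ∈ regA k (P × Gm) := fun l =>
    hsnd _ (C.y_reg l)
  -- the local primitives
  let A : ι → P × Gm → k := fun i q => (C.z i q.2)⁻¹ * f (p i q.2, q.1, s i q.2)
  have hA : ∀ (i : ι) (a b : P) (x : Gm), C.z i x ≠ 0 →
      f (a, b, x) = (C.χ a : k) * A i (b, x * C.inc a) - A i (a * b, x) + A i (a, x) := by
    intro i a b x hx
    have h1 := hrel (p i x) a b (s i x)
    rw [hsx i x hx, hp2 i x hx] at h1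
    have hχ : (C.χ a : k) ≠ 0 := Units.ne_zero _
    show f (a, b, x) = (C.χ a : k) * ((C.z i (x * C.inc a))⁻¹ *
      f (p i (x * C.inc a), b, s i (x * C.inc a))) - (C.z i x)⁻¹ * f (p i x, a * b, s i x) +
      (C.z i x)⁻¹ * f (p i x, a, s i x)
    rw [hsh i x a hx, hp3 i x a hx, C.z_χ]
    field_simp
    linear_combination h1
  have hALR : ∀ i, LR k (fun q : P × Gm => C.z i q.2) (A i) := by
    intro i
    have hf' : (fun q : P × P × Gm => f (q.2.1, q.1, q.2.2)) ∈ regA k (P × P × Gm) := by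
      have r1 : IsReg k (fun q : P × P × Gm => q.1) := (h2 k P (P × Gm) Gm).2.2.2.1
      have r2 : IsReg k (fun q : P × P × Gm => q.2) := (h2 k P (P × Gm) Gm).2.2.2.2.1
      have r3 : IsReg k (fun q : P × P × Gm => q.2.1) := (h2 k (P × P × Gm) (P × Gm) P).2.1 _ _ r2 hfst
      have r4 : IsReg k (fun q : P × P × Gm => q.2.2) :=
        (h2 k (P × P × Gm) (P × Gm) Gm).2.1 _ _ r2 hsnd
      have r5 : IsReg k (fun q : P × P × Gm => (q.1, q.2.2)) :=
        (h2 k (P × P × Gm) P Gm).2.2.2.2.2 _ _ r1 r4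
      have r6 : IsReg k (fun q : P × P × Gm => (q.2.1, q.1, q.2.2)) :=
        (h2 k (P × P × Gm) P (P × Gm)).2.2.2.2.2 _ _ r3 r5
      exact r6 f hf
    have h3 := hP3 k Gm P ι P C i (p i) (hp1 i) _ hf'
    have c1 := hP1 k (P × Gm) _ _ (hzr i) (hzr i)
    exact c1.2.2.1 _ _ c1.2.2.2.2.2.2.2.1 h3
  -- the difference
  let D : P × Gm → k := fun q => A i0 q - A j0 q
  have hDrel : ∀ (a b : P) (x : Gm), C.z i0 x ≠ 0 → C.z j0 x ≠ 0 →
      D (a * b, x) = D (a, x) + (C.χ a : k) * D (b, x * C.inc a) := by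
    intro a b x hi hj
    have h1 := hA i0 a b x hi
    have h3 := hA j0 a b x hj
    show A i0 (a * b, x) - A j0 (a * b, x) = (A i0 (a, x) - A j0 (a, x)) +
      (C.χ a : k) * (A i0 (b, x * C.inc a) - A j0 (b, x * C.inc a))
    linear_combination h1 - h3
  have hDLR : LR k (fun q : P × Gm => C.z i0 q.2 * C.z j0 q.2) D := by
    have c1 := hP1 k (P × Gm) _ _ (hzr i0) (hzr j0)
    have c2 := hP1 k (P × Gm) _ _ (hzr j0) (hzr i0)
    have hm := p11_mul_mem (hzr i0) (hzr j0)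
    exact (hP1 k (P × Gm) _ _ hm hm).2.1 _ _ (c1.2.2.2.2.1 _ (hALR i0))
      (c2.2.2.2.2.2.1 _ (hALR j0))
  let H : Gm → k := fun x => (C.z i0 x)⁻¹ * D (p i0 x, s i0 x)
  have hH : ∀ (a : P) (x : Gm), C.z i0 x ≠ 0 → C.z j0 x ≠ 0 →
      D (a, x) = (C.χ a : k) * H (x * C.inc a) - H x := by
    intro a x hi hj
    have hi' : C.z i0 (s i0 x) ≠ 0 := by rw [hzs i0 i0 x hi]; exact div_ne_zero hi hi
    have hj' : C.z j0 (s i0 x) ≠ 0 := by rw [hzs i0 j0 x hi]; exact div_ne_zero hj hi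
    have h1 := hDrel (p i0 x) a (s i0 x) hi' hj'
    rw [hsx i0 x hi, hp2 i0 x hi] at h1
    have hχ : (C.χ a : k) ≠ 0 := Units.ne_zero _
    show D (a, x) = (C.χ a : k) * ((C.z i0 (x * C.inc a))⁻¹ *
      D (p i0 (x * C.inc a), s i0 (x * C.inc a))) - (C.z i0 x)⁻¹ * D (p i0 x, s i0 x)
    rw [hsh i0 x a hi, hp3 i0 x a hi, C.z_χ, h1]
    field_simp
    ring
  have hHLR : LR k (fun x => C.z i0 x * C.z j0 x) H := by
    obtain ⟨N, Φ, hΦ, hΦ'⟩ := hDLR
    have hf' : (fun q : Gm × P × Gm => Φ q.2) ∈ regA k (Gm × P × Gm) :=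
      (h2 k Gm (P × Gm) Gm).2.2.2.2.1 Φ hΦ
    have h3 := hP3 k Gm P ι Gm C i0 (p i0) (hp1 i0) _ hf'
    have hφ : IsReg k (fun x : Gm => ((1 : Gm), x)) :=
      (h2 k Gm Gm Gm).2.2.2.2.2 _ _ ((h2 k Gm Gm Gm).2.2.1 1) (h2 k Gm Gm Gm).1
    have h5 : LR k (C.z i0) (fun x => Φ (p i0 x, s i0 x)) := p11_LR_pull hφ h3
    have c1 := hP1 k Gm _ _ (C.z_reg i0) (C.z_reg j0)
    have c2 := hP1 k Gm _ _ (C.z_reg j0) (C.z_reg i0)
    have hm := p11_mul_mem (C.z_reg i0) (C.z_reg j0)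
    have c3 := hP1 k Gm _ _ hm hm
    have g1 : LR k (fun x => C.z i0 x * C.z j0 x) (fun x => Φ (p i0 x, s i0 x)) :=
      c1.2.2.2.2.1 _ h5
    have g2 : LR k (fun x => C.z i0 x * C.z j0 x) (fun x => (C.z i0 x)⁻¹) :=
      c1.2.2.2.2.1 _ c1.2.2.2.2.2.2.2.1
    have g3 : LR k (fun x => C.z i0 x * C.z j0 x) (fun x => C.z i0 x ^ N) :=
      c3.2.2.2.1 _ (p11_pow_mem (C.z_reg i0) N)
    have g4 : LR k (fun x => C.z i0 x * C.z j0 x) (fun x => (C.z j0 x ^ N)⁻¹) :=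
      c2.2.2.2.2.2.1 _ (p11_LR_invpow N)
    refine c3.2.2.2.2.2.2.1 _ _ (c3.2.2.1 _ _ g2 (c3.2.2.1 _ _ (c3.2.2.1 _ _ g3 g4) g1)) ?_
    intro x hx
    obtain ⟨hi, hj⟩ := mul_ne_zero_iff.mp hx
    have hi' : C.z i0 (s i0 x) ≠ 0 := by rw [hzs i0 i0 x hi]; exact div_ne_zero hi hi
    have hj' : C.z j0 (s i0 x) ≠ 0 := by rw [hzs i0 j0 x hi]; exact div_ne_zero hj hi
    have h1 := hΦ' (p i0 x, s i0 x) (mul_ne_zero hi' hj')
    simp only [] at h1
    rw [hzs i0 i0 x hi, hzs i0 j0 x hi, div_self hi, one_mul] at h1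
    show (C.z i0 x)⁻¹ * D (p i0 x, s i0 x) = (C.z i0 x)⁻¹ * (C.z i0 x ^ N * (C.z j0 x ^ N)⁻¹ *
      Φ (p i0 x, s i0 x))
    rw [h1, div_pow]
    field_simp
  -- splitting
  obtain ⟨N, Φ, hΦ, hΦ'⟩ := hHLR
  obtain ⟨α, hα, β, hβ, hαβ⟩ : ∃ α ∈ regA k Gm, ∃ β ∈ regA k Gm, ∀ x,
      α x * C.z i0 x ^ N + β x * C.z j0 x ^ N = 1 := by
    have hco : IsCoprime (⟨C.z i0, C.z_reg i0⟩ : regA k Gm) ⟨C.z j0, C.z_reg j0⟩ := by
      refine ⟨⟨C.y i0, C.y_reg i0⟩, ⟨C.y j0, C.y_reg j0⟩, ?_⟩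
      apply Subtype.ext
      funext x
      have h1 := C.unimod x
      rw [huniv, Finset.sum_pair hij0] at h1
      exact h1
    obtain ⟨α, β, hh⟩ := hco.pow (m := N) (n := N)
    refine ⟨α, α.2, β, β.2, fun x => ?_⟩
    have h1 := congrArg (fun F : regA k Gm => (F : Gm → k) x) hh
    exact h1
  let HH : ι → Gm → k := fun l x => if l = i0 then β x * Φ x * (C.z i0 x ^ N)⁻¹
    else - (α x * Φ x * (C.z j0 x ^ N)⁻¹)
  have hHH : ∀ x, C.z i0 x ≠ 0 → C.z j0 x ≠ 0 → H x = HH i0 x - HH j0 x := by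
    intro x hi hj
    have h1 := hΦ' x (mul_ne_zero hi hj)
    simp only [] at h1
    have h3 := hαβ x
    show H x = (if i0 = i0 then _ else _) - (if j0 = i0 then _ else _)
    rw [if_pos rfl, if_neg hij0.symm, h1, mul_pow]
    field_simp
    linear_combination (-(H x)) * h3
  have hHHLR : ∀ l, LR k (C.z l) (HH l) := by
    intro l
    rcases hall l with hl | hl
    · rw [hl]
      have c1 := hP1 k Gm _ _ (C.z_reg i0) (C.z_reg i0)
      have e : HH i0 = fun x => β x * Φ x * (C.z i0 x ^ N)⁻¹ := by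
        funext x
        exact if_pos rfl
      rw [e]
      exact c1.2.2.1 _ _ (c1.2.2.2.1 _ (p11_mul_mem hβ hΦ)) (p11_LR_invpow N)
    · rw [hl]
      have c1 := hP1 k Gm _ _ (C.z_reg j0) (C.z_reg j0)
      have e : HH j0 = fun x => 0 - α x * Φ x * (C.z j0 x ^ N)⁻¹ := by
        funext x
        rw [zero_sub]
        exact if_neg hij0.symm
      rw [e]
      exact c1.2.1 _ _ (c1.2.2.2.1 _ (Subalgebra.zero_mem _))
        (c1.2.2.1 _ _ (c1.2.2.2.1 _ (p11_mul_mem hα hΦ)) (p11_LR_invpow N))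
  -- the corrected primitives
  let B : ι → P × Gm → k := fun l q =>
    A l q - ((C.χ q.1 : k) * HH l (q.2 * C.inc q.1) - HH l q.2)
  have hB : ∀ (l l' : ι) (q : P × Gm), C.z l q.2 ≠ 0 → C.z l' q.2 ≠ 0 → B l q = B l' q := by
    have key : ∀ q : P × Gm, C.z i0 q.2 ≠ 0 → C.z j0 q.2 ≠ 0 → B i0 q = B j0 q := by
      intro q hi hj
      have h1 := hH q.1 q.2 hi hj
      have h3 := hHH q.2 hi hj
      have h4 := hHH (q.2 * C.inc q.1) (hzh _ _ _ hi) (hzh _ _ _ hj)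
      have h5 : D (q.1, q.2) = A i0 q - A j0 q := rfl
      show A i0 q - ((C.χ q.1 : k) * HH i0 (q.2 * C.inc q.1) - HH i0 q.2) =
        A j0 q - ((C.χ q.1 : k) * HH j0 (q.2 * C.inc q.1) - HH j0 q.2)
      linear_combination h1 - h5 + (C.χ q.1 : k) * h4 - h3
    intro l l' q hl hl'
    rcases hall l with h | h <;> rcases hall l' with h' | h' <;> subst h <;> subst h'
    · rfl
    · exact key q hl hl'
    · exact (key q hl' hl).symm
    · rfl
  have hBLR : ∀ l, LR k (fun q : P × Gm => C.z l q.2) (B l) := by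
    intro l
    have c1 := hP1 k (P × Gm) _ _ (hzr l) (hzr l)
    refine c1.2.1 _ _ (hALR l) (c1.2.1 _ _ (c1.2.2.1 _ _ (c1.2.2.2.1 _ (hfst _ C.χ_reg)) ?_)
      (p11_LR_pull hsnd (hHHLR l)))
    have h1 : LR k (fun q : P × Gm => C.z l (q.2 * C.inc q.1))
        (fun q : P × Gm => HH l (q.2 * C.inc q.1)) := p11_LR_pull hact (hHHLR l)
    have e : (fun q : P × Gm => C.z l (q.2 * C.inc q.1)) =
        fun q : P × Gm => C.z l q.2 * (C.χ q.1 : k) := by
      funext q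
      exact C.z_χ _ _ _
    rw [e] at h1
    refine p11_LR_unit (u := fun q : P × Gm => (C.χ q.1 : k))
      (v := fun q : P × Gm => (((C.χ q.1)⁻¹ : kˣ) : k)) (hfst _ C.χ_reg') (fun q => ?_) h1
    simp
  have hBrel : ∀ (l : ι) (a b : P) (x : Gm), C.z l x ≠ 0 →
      f (a, b, x) = (C.χ a : k) * B l (b, x * C.inc a) - B l (a * b, x) + B l (a, x) := by
    intro l a b x hx
    have h1 := hA l a b x hx
    show f (a, b, x) = (C.χ a : k) * (A l (b, x * C.inc a) -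
      ((C.χ b : k) * HH l (x * C.inc a * C.inc b) - HH l (x * C.inc a))) -
      (A l (a * b, x) - ((C.χ (a * b) : k) * HH l (x * C.inc (a * b)) - HH l x)) +
      (A l (a, x) - ((C.χ a : k) * HH l (x * C.inc a) - HH l x))
    rw [map_mul, map_mul, Units.val_mul, mul_assoc x]
    linear_combination h1
  -- gluing
  have hex : ∀ x : Gm, ∃ i, C.z i x ≠ 0 := by
    intro x
    by_contra hcon
    simp only [ne_eq, not_exists, not_not] at hcon
    have h1 := C.unimod x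
    simp [hcon] at h1
  choose I hI using hex
  let Bg : P × Gm → k := fun q => B (I q.2) q
  have hBg : ∀ l q, C.z l q.2 ≠ 0 → Bg q = B l q := fun l q hl => hB (I q.2) l q (hI q.2) hl
  refine ⟨Bg, ?_, ?_⟩
  · refine hP2 k (P × Gm) ι (fun l q => C.z l q.2) (fun l q => C.y l q.2) hzr hyr
      (fun q => C.unimod q.2) Bg fun l => ?_
    exact (hP1 k (P × Gm) _ _ (hzr l) (hzr l)).2.2.2.2.2.2.1 _ _ (hBLR l)
      (fun q hq => hBg l q hq)
  · intro a b x
    have hx := hI x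
    rw [hBg (I x) (b, x * C.inc a) (hzh _ _ _ hx), hBg (I x) (a * b, x) hx, hBg (I x) (a, x) hx]
    exact hBrel (I x) a b x hx

end Pool.Agent.Sp49
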