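import Pool.Agent.Lib.MP_49c83e_al.StmR

namespace Pool.Agent.Sp49

private lemma r10_adj {k X Y : Type} [Field k] [RS k X] (S : Set (Y → k)) (φ : X → Y)
    (h : ∀ f ∈ S, (fun x => f (φ x)) ∈ regA k X) :
    ∀ f ∈ Algebra.adjoin k S, (fun x => f (φ x)) ∈ regA k X := by
  intro f hf
  induction hf using Algebra.adjoin_induction with
  | mem f hf => exact h f hf
  | algebraMap c => exact (regA k X).algebraMap_mem c
  | add f g _ _ hf hg => exact (regA k X).add_mem hf hg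
  | mul f g _ _ hf hg => exact (regA k X).mul_mem hf hg

theorem p_R10 : S_R10 := by
  intro k _ X ι _
  refine ⟨fun φ => ⟨fun h => ?_, fun h => ?_⟩, fun φ => ⟨fun h i => ?_, fun h => ?_⟩,
    fun φ => ⟨fun h => ⟨?_, ?_⟩, fun h => ?_⟩, fun φ => ⟨fun h i => ⟨?_, ?_⟩, fun h => ?_⟩⟩
  · exact h (fun s => s) (Algebra.subset_adjoin rfl)
  · refine r10_adj _ φ ?_
    rintro f hf
    rw [Set.mem_singleton_iff] at hf
    subst hf
    exact h
  · exact h (fun u => u i) (Algebra.subset_adjoin ⟨i, rfl⟩)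
  · refine r10_adj _ φ ?_
    rintro f ⟨i, rfl⟩
    exact h i
  · exact h (fun s => (s : k)) (Algebra.subset_adjoin (Or.inl rfl))
  · exact h (fun s => ((s⁻¹ : kˣ) : k)) (Algebra.subset_adjoin (Or.inr rfl))
  · refine r10_adj _ φ ?_
    rintro f (rfl | hf)
    · exact h.1
    · rw [Set.mem_singleton_iff] at hf
      subst hf
      exact h.2
  · exact h (fun t => (t i : k)) (Algebra.subset_adjoin (Or.inl ⟨i, rfl⟩))
  · exact h (fun t => (((t i)⁻¹ : kˣ) : k)) (Algebra.subset_adjoin (Or.inr ⟨i, rfl⟩))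
  · refine r10_adj _ φ ?_
    rintro f (⟨i, rfl⟩ | ⟨i, rfl⟩)
    · exact (h i).1
    · exact (h i).2

end Pool.Agent.Sp49
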