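import Mathlib
import Pool.Agent.Lib.MP_49c83e_al.StmR

/-!
MP_49c83e_al, piece R8: regular groups and subgroups.
-/

set_option autoImplicit false

namespace Pool.Agent.Sp49

open scoped BigOperators

section

variable {k : Type} [Field k] {X Γ : Type} [RS k X] [Group Γ] [RS k Γ]

/-- restriction of regular functions to a subgroup -/
theorem r8_incl (H : Subgroup Γ) : IsReg k (fun h : H => (h : Γ)) :=
  fun f hf => ⟨f, hf, rfl⟩

/-- regular functions on a subgroup are restrictions -/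
theorem r8_mem (H : Subgroup Γ) (f : H → k) :
    f ∈ regA k H ↔ ∃ F ∈ regA k Γ, f = fun h : H => F (h : Γ) := Iff.rfl

/-- regular maps into a subgroup -/
theorem r8_cod (H : Subgroup Γ) (φ : X → H) :
    IsReg k φ ↔ IsReg k (fun x => (φ x : Γ)) := by
  constructor
  · intro h f hf
    exact h (fun h : H => f (h : Γ)) ⟨f, hf, rfl⟩
  · rintro h _ ⟨F, hF, rfl⟩
    exact h F hF

/-- products of regular maps -/
theorem r8_mul (h2 : S_R2) [RG k Γ] (a b : X → Γ) (ha : IsReg k a) (hb : IsReg k b) :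
    IsReg k (fun x => a x * b x) := by
  obtain ⟨_, _, _, _, _, hpair⟩ := h2 k X Γ Γ
  intro f hf
  have h1 := RG.mul_reg (k := k) (Γ := Γ) f hf
  exact hpair a b ha hb _ h1

end

theorem p_R8 (h2 : S_R2) : S_R8 := by
  intro k _ X Γ _ _ _ _
  refine ⟨?_, ?_, ?_, ?_, ?_, ?_⟩
  · intro a b ha hb
    exact r8_mul h2 a b ha hb
  · intro a ha f hf
    exact ha _ (RG.inv_reg (k := k) (Γ := Γ) f hf)
  · intro H
    refine ⟨?_, ?_⟩
    · obtain ⟨_, _, _, hfst, hsnd, _⟩ := h2 k H H Γ
      have h3 : IsReg k (fun q : H × H => ((q.1 * q.2 : H) : Γ)) := by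
        have ha : IsReg k (fun q : H × H => ((q.1 : H) : Γ)) :=
          fun f hf => hfst _ (r8_incl (k := k) H f hf)
        have hb : IsReg k (fun q : H × H => ((q.2 : H) : Γ)) :=
          fun f hf => hsnd _ (r8_incl (k := k) H f hf)
        have h4 := r8_mul h2 _ _ ha hb
        exact h4
      exact (r8_cod (X := H × H) H (fun q : H × H => q.1 * q.2)).mpr h3
    · refine (r8_cod (X := H) H (fun g : H => g⁻¹)).mpr ?_
      intro f hf
      exact r8_incl (k := k) H _ (RG.inv_reg (k := k) (Γ := Γ) f hf)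
  · intro H
    exact r8_incl H
  · intro H φ
    exact r8_cod H φ
  · intro H H' hh f
    constructor
    · rintro ⟨F, hF, rfl⟩
      exact ⟨fun h : H' => F (h : Γ), ⟨F, hF, rfl⟩, rfl⟩
    · rintro ⟨F, ⟨F0, hF0, rfl⟩, rfl⟩
      exact ⟨F0, hF0, rfl⟩

end Pool.Agent.Sp49
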